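import Pool.Agent.Lib.MP_4d246d_lc.EB.Statement

/-!
# Versions of the simplex method with polynomial time per pivot
-/

namespace Pool.Agent.Simplex.EB

open Pool.Agent.Lib.PolyTime

/-- A version of the simplex method given by a machine that makes one pivot at a time: every step
is computed in polynomial time and the memory is polynomial; the number of pivots is arbitrary. -/
structure Engine where
  /-- the memory -/
  σ : Type
  /-- the encoding of the memory -/
  [enc : TEnc σ]
  /-- the beginning -/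
  init : Input → σ
  /-- one pivot -/
  next : σ → σ
  /-- the current vertex, and what happens next -/
  report : σ → List ℚ × Verdict
  polyF_init : PolyF init
  polyF_next : PolyF next
  polyF_report : PolyF report
  /-- bound for the memory -/
  Q : Polynomial ℕ
  size : ∀ (I : Input) (t : ℕ), sz (next^[t] (init I)) ≤ Q.eval (sz I)
  /-- the number of pivots -/
  N : Input → ℕ
  /-- the vertices -/
  x : (I : Input) → ℕ → Fin I.n → ℚ
  /-- the final verdict -/
  s : Input → Verdict
  run : ∀ I : Input, SimplexRun I (N I) (x I) (s I)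
  rep : ∀ I : Input, ∀ t ≤ N I, report (next^[t] (init I)) = reportAt (N I) (x I) (s I) t

attribute [instance] Engine.enc

/-- the matrix as a blind rule sees it -/
abbrev Mat : Type := ℕ × List (List ℚ)

/-- facts about an unknown vector: `(true, a)` is `a w > 0`, `(false, a)` is `a w ≥ 0` -/
abbrev Fact : Type := Bool × List ℤ

/-- a nonnegative combination of the rows has positive entries -/
def Bdd {m n : ℕ} (A : Fin m → Fin n → ℚ) : Prop :=
  ∃ y : Fin m → ℚ, (∀ i, 0 ≤ y i) ∧ ∀ j, 0 < ∑ i, y i * A i j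

/-- a matrix with a row with positive entries -/
theorem bdd_of_row {m n : ℕ} {A : Fin m → Fin n → ℚ} (i : Fin m) (hi : ∀ j, 0 < A i j) :
    Bdd A := by
  refine ⟨fun k => if k = i then 1 else 0, fun k => ?_, fun j => ?_⟩
  · dsimp only
    split_ifs
    · exact zero_le_one
    · exact le_rfl
  · simp only [ite_mul, one_mul, zero_mul, Finset.sum_ite_eq', Finset.mem_univ, if_true]
    exact hi j

/-- there are no unbounded directions -/
theorem Bdd.eq_zero {m n : ℕ} {A : Fin m → Fin n → ℚ} (hA : Bdd A) {z : Fin n → ℝ}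
    (h1 : ∀ j, 0 ≤ z j) (h2 : ∀ i, ∑ j, (A i j : ℝ) * z j ≤ 0) : z = 0 := by
  obtain ⟨y, hy, hA⟩ := hA
  have hpos : ∀ j, (0 : ℝ) < ∑ i, (y i : ℝ) * (A i j : ℝ) := fun j => by exact_mod_cast hA j
  have h3 : ∑ j, (∑ i, (y i : ℝ) * (A i j : ℝ)) * z j =
      ∑ i, (y i : ℝ) * ∑ j, (A i j : ℝ) * z j := by
    simp only [Finset.sum_mul, Finset.mul_sum]
    rw [Finset.sum_comm]
    exact Finset.sum_congr rfl fun i _ => Finset.sum_congr rfl fun j _ => by ring
  have h4 : ∑ j, (∑ i, (y i : ℝ) * (A i j : ℝ)) * z j ≤ 0 := by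
    rw [h3]
    exact Finset.sum_nonpos fun i _ =>
      mul_nonpos_of_nonneg_of_nonpos (by exact_mod_cast hy i) (h2 i)
  have h5 : ∀ j ∈ Finset.univ, 0 ≤ (∑ i, (y i : ℝ) * (A i j : ℝ)) * z j := fun j _ =>
    mul_nonneg (hpos j).le (h1 j)
  funext j
  have h6 := (Finset.sum_eq_zero_iff_of_nonneg h5).1 (le_antisymm h4 (Finset.sum_nonneg h5)) j
    (Finset.mem_univ j)
  exact (mul_eq_zero.1 h6).resolve_left (hpos j).ne'

end Pool.Agent.Simplex.EB
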