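import Pool.Agent.Lib.MP_4d246d_lc.EB.SimPoly
import Pool.Agent.Lib.MP_4d246d_lc.EB.EngineDef

/-!
# Versions of the simplex method that make one pivot at a time
-/

namespace Pool.Agent.Simplex.EB

open QP Pool.Agent.Lib.PolyTime Turing

theorem tail_iterate {α : Type*} (l : List α) (t : ℕ) : List.tail^[t] l = l.drop t := by
  induction t with
  | zero => rfl
  | succ t ih => rw [Function.iterate_succ_apply', ih, List.tail_drop]

/-- A version of the simplex method with polynomial running time makes polynomially many pivots,
and it can be run one pivot at a time. -/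
theorem PolySimplex.engine (h : PolySimplex) :
    ∃ (E : Engine) (R : Polynomial ℕ), ∀ I : Input, E.N I ≤ R.eval (sz I) := by
  obtain ⟨N, x, s, hrun, hM⟩ := h
  have hp : PolyF (fun I : Input => protocol (N I) (x I) (s I)) := polyF_of_tm2 hM
  obtain ⟨R, hR⟩ := hp.bound
  refine ⟨⟨List (List ℚ × Verdict), fun I => protocol (N I) (x I) (s I), List.tail,
    fun l => l.head?.getD ([], .pivot), hp, PolyF.id.tail,
    PolyF.id.head?.getD (PolyF.const _), R, fun I t => ?_, N, x, s, hrun, fun I t ht => ?_⟩, R,
    fun I => ?_⟩
  · rw [tail_iterate]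
    exact (sz_sublist (List.drop_sublist _ _)).trans (hR I)
  · rw [tail_iterate]
    unfold protocol
    rw [List.head?_drop, List.getElem?_map, List.getElem?_range (by omega)]
    rfl
  · refine le_trans ?_ (hR I)
    have h1 : (protocol (N I) (x I) (s I)).length ≤ sz (protocol (N I) (x I) (s I)) :=
      length_le_sz _
    have h2 : (protocol (N I) (x I) (s I)).length = N I + 1 := by
      unfold protocol
      rw [List.length_map, List.length_range]
    dsimp only
    omega

/-- The quasi-polynomial version of the simplex method of the library. -/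
noncomputable def widthEngine : Engine where
  σ := Sb
  init := initB
  next := nextB
  report := reportB
  polyF_init := polyF_initB
  polyF_next := polyF_nextB
  polyF_report := polyF_reportB
  Q := size_statesB.choose
  size := fun I t => size_statesB.choose_spec I t
  N := numPB
  x := xb
  s := fun I => (reportB (nextB^[numPB I] (initB I))).2
  run := simplexRunB
  rep := fun I t ht => reportB_at I t ht

theorem widthEngine_le (I : Input) :
    widthEngine.N I ≤ 2 * pivotBound (min I.n (I.m + 1)) (min (I.m + I.n) (2 * I.m + 1)) + 1 :=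
  numPB_le I

/-- `E` makes at most `K` pivots on the inputs with matrix `X` and bit length at most `L` -/
def Engine.Bound (E : Engine) (X : ℕ × List (List ℚ)) (L K : ℕ) : Prop :=
  ∀ I : Input, (ofQ I.lp).mat = X → sz I ≤ L → E.N I ≤ K

theorem Engine.bound_of_mono {E : Engine} {B : ℕ → ℕ} (hB : Monotone B)
    (h : ∀ I : Input, E.N I ≤ B (sz I)) (X : ℕ × List (List ℚ)) (L : ℕ) : E.Bound X L (B L) :=
  fun I _ hI => (h I).trans (hB hI)

/-- The dimensions of a program can be read off its matrix. -/
theorem dims_of_mat {I : Input} {m n : ℕ} {rows : List (List ℚ)}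
    (h : (ofQ I.lp).mat = (n, rows)) (hm : rows.length = m) : I.m = m ∧ I.n = n := by
  rw [ofQ_mat] at h
  obtain ⟨h1, h2⟩ := Prod.ext_iff.1 h
  dsimp only at h1 h2
  refine ⟨?_, h1⟩
  rw [← hm, ← h2, List.length_ofFn]

theorem widthEngine_bound {m n : ℕ} {rows : List (List ℚ)} (hm : rows.length = m) (L : ℕ) :
    widthEngine.Bound (n, rows) L
      (2 * pivotBound (min n (m + 1)) (min (m + n) (2 * m + 1)) + 1) := by
  intro I hI _
  obtain ⟨h1, h2⟩ := dims_of_mat hI hm
  have h := widthEngine_le I
  rw [h1, h2] at h
  exact h

end Pool.Agent.Simplex.EB
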