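import Pool.Agent.Lib.MP_4d246d_lc.EB.Statement
import Pool.Agent.Lib.PolyTime.EqOps

/-!
The answers as typed data: the encoding is the one of the pairs `(moved?, name)`.
-/

namespace Pool.Agent.Simplex.EB

open Pool.Agent.Lib.PolyTime

/-- an answer as a pair -/
def Answer.toPair : Answer → Bool × List Bool
  | .moved S => (true, S)
  | .refused S => (false, S)

/-- a pair as an answer -/
def Answer.ofPair : Bool × List Bool → Answer
  | (true, S) => .moved S
  | (false, S) => .refused S

@[simp] theorem Answer.ofPair_toPair (a : Answer) : Answer.ofPair a.toPair = a := by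
  cases a <;> rfl

@[simp] theorem Answer.toPair_ofPair (p : Bool × List Bool) : (Answer.ofPair p).toPair = p := by
  obtain ⟨b, S⟩ := p
  cases b <;> rfl

theorem enc_answer (a : Answer) : enc a = enc a.toPair := by
  cases a <;> rfl

theorem enc_ofPair (p : Bool × List Bool) : enc (Answer.ofPair p) = enc p := by
  rw [enc_answer, Answer.toPair_ofPair]

instance : TInj Answer := ⟨fun a b h => by
  rw [enc_answer, enc_answer] at h
  have h1 := TInj.inj h
  rw [← Answer.ofPair_toPair a, h1, Answer.ofPair_toPair]⟩

variable {α : Type*} [TEnc α]

theorem polyF_toPair {f : α → Answer} (hf : PolyF f) : PolyF (fun x => (f x).toPair) :=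
  hf.of_enc (fun x => x) (fun _ => rfl) fun x => (enc_answer (f x)).symm

theorem polyF_ofPair {f : α → Bool × List Bool} (hf : PolyF f) :
    PolyF (fun x => Answer.ofPair (f x)) :=
  hf.of_enc (fun x => x) (fun _ => rfl) fun x => enc_ofPair (f x)

theorem polyF_moved {f : α → List Bool} (hf : PolyF f) : PolyF (fun x => Answer.moved (f x)) :=
  (polyF_ofPair ((PolyF.const true).pair hf)).congr fun _ => rfl

theorem polyF_refused {f : α → List Bool} (hf : PolyF f) :
    PolyF (fun x => Answer.refused (f x)) :=
  (polyF_ofPair ((PolyF.const false).pair hf)).congr fun _ => rfl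

/-- histories as lists of pairs -/
theorem enc_history (h : List Answer) : enc h = enc (h.map Answer.toPair) := by
  induction h with
  | nil => rfl
  | cons a h ih => rw [List.map_cons, enc_cons, enc_cons, ih, enc_answer]

theorem polyF_history {f : α → List Answer} (hf : PolyF f) :
    PolyF (fun x => (f x).map Answer.toPair) :=
  hf.of_enc (fun x => x) (fun _ => rfl) fun x => (enc_history (f x)).symm

theorem polyF_history' {f : α → List (Bool × List Bool)} (hf : PolyF f) :
    PolyF (fun x => (f x).map Answer.ofPair) :=
  hf.of_enc (fun x => x) (fun _ => rfl) fun x => by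
    rw [enc_history, List.map_map]
    have : (Answer.toPair ∘ Answer.ofPair) = id := by
      funext p
      simp
    rw [this, List.map_id]

theorem sz_answer (a : Answer) : sz a = sz a.toPair := by
  unfold sz
  rw [enc_answer]

end Pool.Agent.Simplex.EB
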