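import Pool.Agent.Lib.MP_4d246d_lc.EB.Facts
import Pool.Agent.Lib.MP_4d246d_lc.EB.AnsEnc
import Pool.Agent.Lib.MP_4d246d_lc.EB.EngineDef

/-!
# The additional constraint

To every program one adds the constraint `∑ x_j ≤ τ` as the last row, `τ` larger than the
coordinate sums of all vertices. A rule for the programs with such a row gives a rule for all
programs: unbounded edges become edges that lead to vertices on the additional constraint.
-/

namespace Pool.Agent.Simplex.EB

open QP Pool.Agent.Lib.PolyTime Turing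

variable {m n : ℕ}

/-- one more row of ones -/
def plusM (X : ℕ × List (List ℚ)) : ℕ × List (List ℚ) := (X.1, X.2 ++ [List.replicate X.1 1])

/-! ### General facts on plays -/

/-- If a play cannot be continued, then the vertex is final. -/
theorem Play.final {ρ : BlindRule} {D : RLP m n} {x₀ : Fin n → ℝ} {h : List Answer}
    {x : Fin n → ℝ} (hx : D.Vertex x) (hp : Play ρ D x₀ h x)
    (hs : ∀ a y, ¬ Play ρ D x₀ (h ++ [a]) y) : D.Final x := by
  rcases hx.final_or_improving with h1 | ⟨y, hy⟩
  · exact h1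
  · by_cases h2 : ∃ w, D.Improving x w ∧ ρ (D.mat, D.name x₀, h) = some (D.edgeName x (w - x))
    · obtain ⟨w, hw, h3⟩ := h2
      exact absurd (Play.moved hp hw h3) (hs _ _)
    · by_cases h3 : ∃ z, 0 < D.obj z ∧ D.Ray x z
      · exact ⟨hx, Or.inr h3⟩
      · push Not at h2 h3
        exact absurd (Play.refused hp hy h2 fun z hz hr => absurd hr (h3 z hz)) (hs _ _)

/-- It is enough to bound the number of answers. -/
theorem solves_iff {ρ : BlindRule} {D : RLP m n} {B : ℕ} : Solves ρ D B ↔
    ∀ x₀, D.Vertex x₀ → ∀ h x, Play ρ D x₀ h x → h.length ≤ B :=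
  ⟨fun h x₀ hx₀ hh x hp => (h x₀ hx₀ hh x hp).1,
    fun h x₀ hx₀ hh x hp => ⟨h x₀ hx₀ hh x hp, fun hs => hp.final (hp.vertex hx₀) hs⟩⟩

/-! ### Names -/

/-- insert an entry `false` -/
def lift (m : ℕ) (S : List Bool) : List Bool := S.take m ++ false :: S.drop m

/-- remove an entry -/
def lower (m : ℕ) (S : List Bool) : List Bool := S.take m ++ S.drop (m + 1)

theorem lower_lift {S : List Bool} (hS : m ≤ S.length) : lower m (lift m S) = S := by
  have h1 : (S.take m).length = m := by rw [List.length_take]; omega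
  unfold lower lift
  rw [List.take_append_of_le_length (by omega), List.take_take, min_self,
    List.drop_append, h1, List.drop_eq_nil_of_le (by omega : (S.take m).length ≤ m + 1)]
  simp

/-- the answers in the program with the additional constraint -/
def liftA (m : ℕ) : Answer → Answer
  | .moved S => .moved (lift m S)
  | .refused S => .refused (lift m S)

/-- the rule for all programs -/
def plusRule (ρ : BlindRule) : BlindRule := fun X =>
  match ρ (plusM X.1, lift X.1.2.length X.2.1, X.2.2.map (liftA X.1.2.length)) with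
  | some T => if T = lift X.1.2.length (lower X.1.2.length T) then
      some (lower X.1.2.length T) else none
  | none => none

namespace RLP

variable (D : RLP m n)

/-- the program with the additional constraint -/
def plus (τ : ℝ) : RLP (m + 1) n where
  A i := if h : i.1 < m then D.A ⟨i.1, h⟩ else fun _ => 1
  b i := if h : i.1 < m then D.b ⟨i.1, h⟩ else τ
  c := D.c

variable {D}

theorem plus_obj {τ : ℝ} (x : Fin n → ℝ) : (D.plus τ).obj x = D.obj x := rfl

theorem plus_bdd {τ : ℝ} : Bdd (D.plus τ).A := by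
  refine bdd_of_row ⟨m, by omega⟩ fun j => ?_
  show 0 < (if h : m < m then D.A ⟨m, h⟩ else fun _ => 1 : Fin n → ℚ) j
  rw [dif_neg (lt_irrefl m)]
  exact one_pos

theorem plus_mat {τ : ℝ} : (D.plus τ).mat = plusM D.mat := by
  unfold plusM mat
  congr 1
  rw [List.ofFn_succ']
  rw [List.concat_eq_append]
  congr 1
  · refine congrArg List.ofFn (funext fun i => ?_)
    show List.ofFn (if h : (i : ℕ) < m then D.A ⟨i, h⟩ else fun _ => 1 : Fin n → ℚ) = _
    rw [dif_pos i.2]
  · congr 1
    show List.ofFn (if h : m < m then D.A ⟨m, h⟩ else fun _ => 1 : Fin n → ℚ) = _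
    rw [dif_neg (lt_irrefl m), List.ofFn_const]

/-- slack functions of the program with the additional constraint -/
theorem plus_sl_lt {τ : ℝ} {i : ℕ} (hi : i < m) (x : Fin n → ℝ) :
    (D.plus τ).sys.sl i x = D.sys.sl i x := by
  have h1 := (D.plus τ).sl_row ⟨i, by omega⟩ x
  have h2 := D.sl_row ⟨i, hi⟩ x
  dsimp only at h1 h2
  rw [h1, h2]
  show (if h : i < m then D.b ⟨i, h⟩ else τ) -
    ∑ j, (((if h : i < m then D.A ⟨i, h⟩ else fun _ => 1 : Fin n → ℚ) j : ℚ) : ℝ) * x j = _
  rw [dif_pos hi, dif_pos hi]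

theorem plus_sl_mid {τ : ℝ} (x : Fin n → ℝ) :
    (D.plus τ).sys.sl m x = τ - ∑ j, x j := by
  have h1 := (D.plus τ).sl_row ⟨m, by omega⟩ x
  dsimp only at h1
  rw [h1]
  show (if h : m < m then D.b ⟨m, h⟩ else τ) -
    ∑ j, (((if h : m < m then D.A ⟨m, h⟩ else fun _ => 1 : Fin n → ℚ) j : ℚ) : ℝ) * x j = _
  rw [dif_neg (lt_irrefl m), dif_neg (lt_irrefl m)]
  congr 1
  exact Finset.sum_congr rfl fun j _ => by rw [Rat.cast_one, one_mul]

theorem plus_sl_var {τ : ℝ} {j : ℕ} (hj : j < n) (x : Fin n → ℝ) :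
    (D.plus τ).sys.sl (m + j + 1) x = D.sys.sl (m + j) x := by
  have h1 := (D.plus τ).sl_var ⟨j, hj⟩ x
  have h2 := D.sl_var ⟨j, hj⟩ x
  dsimp only at h1 h2
  rw [h2, ← h1]
  congr 1
  ring

/-- a slack function of `D` is a slack function of the new program -/
theorem plus_sl {τ : ℝ} {i : ℕ} (hi : i < m + n) (x : Fin n → ℝ) :
    (D.plus τ).sys.sl (if i < m then i else i + 1) x = D.sys.sl i x := by
  by_cases him : i < m
  · rw [if_pos him]
    exact plus_sl_lt him x
  · obtain ⟨j, rfl⟩ := Nat.exists_eq_add_of_le (not_lt.1 him)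
    rw [if_neg him]
    exact plus_sl_var (by omega) x

theorem plus_ln {τ : ℝ} {i : ℕ} (hi : i < m + n) (z : Fin n → ℝ) :
    (D.plus τ).sys.ln (if i < m then i else i + 1) z = D.sys.ln i z := by
  have h1 := (D.plus τ).sys.add (if i < m then i else i + 1) 0 z
  have h2 := D.sys.add i 0 z
  rw [plus_sl hi, plus_sl hi, h2] at h1
  linarith

/-- a property of all constraints of the new program -/
theorem forall_plus {p : ℕ → Prop} : (∀ i < m + 1 + n, p i) ↔
    (∀ i < m + n, p (if i < m then i else i + 1)) ∧ p m := by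
  constructor
  · intro h
    refine ⟨fun i hi => h _ ?_, h m (by omega)⟩
    split_ifs <;> omega
  · rintro ⟨h1, h2⟩ i hi
    rcases lt_trichotomy i m with h3 | h3 | h3
    · have := h1 i (by omega)
      rwa [if_pos h3] at this
    · rw [h3]
      exact h2
    · obtain ⟨j, rfl⟩ : ∃ j, i = j + 1 := ⟨i - 1, by omega⟩
      have := h1 j (by omega)
      rwa [if_neg (by omega)] at this

theorem plus_mid_ne {τ : ℝ} {x : Fin n → ℝ} (h : ∑ j, x j < τ) :
    (D.plus τ).sys.sl m x ≠ 0 := by
  rw [plus_sl_mid]
  intro h0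
  linarith

theorem plus_mem {τ : ℝ} {x : Fin n → ℝ} (h : ∑ j, x j < τ) :
    x ∈ (D.plus τ).sys.P (m + 1 + n) ↔ x ∈ D.sys.P (m + n) := by
  rw [Sys.mem_P, Sys.mem_P, forall_plus]
  constructor
  · rintro ⟨h1, -⟩ i hi
    rw [← plus_sl (τ := τ) hi]
    exact h1 i hi
  · intro h1
    refine ⟨fun i hi => ?_, ?_⟩
    · rw [plus_sl hi]
      exact h1 i hi
    · rw [plus_sl_mid]
      linarith

theorem plus_vx {τ : ℝ} {x : Fin n → ℝ} (h : ∑ j, x j < τ) :
    (D.plus τ).sys.Vx (fun i => i < m + 1 + n) x ↔ D.sys.Vx (fun i => i < m + n) x := by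
  unfold Sys.Vx
  refine forall_congr' fun q => imp_congr_left ?_
  rw [forall_plus]
  constructor
  · rintro ⟨h1, -⟩ i hi h0
    rw [← plus_ln (τ := τ) hi]
    refine h1 i hi ?_
    rw [plus_sl hi]
    exact h0
  · intro h1
    refine ⟨fun i hi h0 => ?_, fun h0 => absurd h0 (plus_mid_ne h)⟩
    rw [plus_ln hi]
    rw [plus_sl hi] at h0
    exact h1 i hi h0

theorem plus_vertex {τ : ℝ} {x : Fin n → ℝ} (h : ∑ j, x j < τ) :
    (D.plus τ).Vertex x ↔ D.Vertex x := by
  rw [vertex_iff, vertex_iff, plus_mem h, plus_vx h]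

theorem plus_dir {τ : ℝ} {x z : Fin n → ℝ} (h : ∑ j, x j < τ) :
    (D.plus τ).sys.Dir (m + 1 + n) x z ↔ D.sys.Dir (m + n) x z := by
  have hT : ∀ q : Fin n → ℝ, (∀ i ∈ (D.plus τ).sys.T (m + 1 + n) x z,
      (D.plus τ).sys.ln i q = 0) ↔ ∀ i ∈ D.sys.T (m + n) x z, D.sys.ln i q = 0 := by
    intro q
    have e1 : (∀ i ∈ (D.plus τ).sys.T (m + 1 + n) x z, (D.plus τ).sys.ln i q = 0) ↔
        ∀ i < m + 1 + n, (D.plus τ).sys.sl i x = 0 ∧ (D.plus τ).sys.ln i z = 0 →
          (D.plus τ).sys.ln i q = 0 := by
      constructor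
      · intro h1 i hi h2
        exact h1 i ((Sys.mem_T _).2 ⟨hi, h2.1, h2.2⟩)
      · intro h1 i hi
        obtain ⟨a, b, c⟩ := (Sys.mem_T _).1 hi
        exact h1 i a ⟨b, c⟩
    have e2 : (∀ i ∈ D.sys.T (m + n) x z, D.sys.ln i q = 0) ↔
        ∀ i < m + n, D.sys.sl i x = 0 ∧ D.sys.ln i z = 0 → D.sys.ln i q = 0 := by
      constructor
      · intro h1 i hi h2
        exact h1 i ((Sys.mem_T _).2 ⟨hi, h2.1, h2.2⟩)
      · intro h1 i hi
        obtain ⟨a, b, c⟩ := (Sys.mem_T _).1 hi
        exact h1 i a ⟨b, c⟩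
    rw [e1, e2, forall_plus]
    constructor
    · rintro ⟨h1, -⟩ i hi h0
      rw [← plus_ln (τ := τ) hi]
      refine h1 i hi ?_
      rw [plus_sl hi, plus_ln hi]
      exact h0
    · intro h1
      refine ⟨fun i hi h0 => ?_, fun h0 => absurd h0.1 (plus_mid_ne h)⟩
      rw [plus_ln hi]
      rw [plus_sl hi, plus_ln hi] at h0
      exact h1 i hi h0
  unfold Sys.Dir Sys.One
  refine and_congr ?_ (and_congr Iff.rfl (and_congr (hT z) (forall_congr' fun q =>
    imp_congr_left (hT q))))
  rw [forall_plus]
  constructor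
  · rintro ⟨h1, -⟩ i hi h0
    rw [← plus_ln (τ := τ) hi]
    refine h1 i hi ?_
    rw [plus_sl hi]
    exact h0
  · intro h1
    refine ⟨fun i hi h0 => ?_, fun h0 => absurd h0 (plus_mid_ne h)⟩
    rw [plus_ln hi]
    rw [plus_sl hi] at h0
    exact h1 i hi h0

/-- a list over all constraints of the new program -/
theorem map_plus (f : ℕ → Bool) (hf : f m = false) : (List.range (m + 1 + n)).map f =
    lift m ((List.range (m + n)).map fun i => f (if i < m then i else i + 1)) := by
  unfold lift
  apply List.ext_getElem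
  · simp only [List.length_map, List.length_range, List.length_append, List.length_take,
      List.length_cons, List.length_drop]
    omega
  · intro i h1 h2
    simp only [List.length_map, List.length_range] at h1
    rw [List.getElem_map, List.getElem_range, List.getElem_append]
    simp only [List.length_take, List.length_map, List.length_range]
    split_ifs with h3
    · have h4 : i < m := by omega
      rw [List.getElem_take, List.getElem_map, List.getElem_range, if_pos h4]
    · have h4 : m ≤ i := by omega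
      have h5 : min m (m + n) = m := by omega
      rcases h4.eq_or_lt with h6 | h6
      · subst h6
        simp only [h5, Nat.sub_self, List.getElem_cons_zero]
        exact hf
      · obtain ⟨j, rfl⟩ : ∃ j, i = m + j + 1 := ⟨i - m - 1, by omega⟩
        have h7 : m + j + 1 - min m (m + n) = j + 1 := by omega
        simp only [h7, List.getElem_cons_succ]
        rw [List.getElem_drop, List.getElem_map, List.getElem_range, if_neg (by omega)]

theorem plus_name {τ : ℝ} {x : Fin n → ℝ} (h : ∑ j, x j < τ) :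
    (D.plus τ).name x = lift m (D.name x) := by
  classical
  rw [name_eq, name_eq, map_plus]
  · congr 1
    refine List.map_congr_left fun i hi => ?_
    rw [decide_eq_decide, plus_sl (List.mem_range.1 hi)]
  · exact decide_eq_false (plus_mid_ne h)

theorem plus_edgeName {τ : ℝ} {x z : Fin n → ℝ} (h : ∑ j, x j < τ) :
    (D.plus τ).edgeName x z = lift m (D.edgeName x z) := by
  classical
  rw [edgeName_eq, edgeName_eq, map_plus]
  · congr 1
    refine List.map_congr_left fun i hi => ?_
    rw [decide_eq_decide, plus_sl (List.mem_range.1 hi), plus_ln (List.mem_range.1 hi)]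
  · exact decide_eq_false fun h0 => plus_mid_ne h h0.1

/-- Bounded programs have no unbounded edges. -/
theorem Bdd.not_ray (hA : Bdd D.A) {x z : Fin n → ℝ} (hz : z ≠ 0) : ¬ D.Ray x z := by
  intro hr
  obtain ⟨-, -, h1⟩ := (D.ray_iff hz).1 hr
  refine hz (hA.eq_zero (fun j => ?_) fun i => ?_)
  · have := h1 (m + j) (by omega)
    rwa [D.sys_ln, lnA_var D.A j] at this
  · have := h1 i (by omega)
    rw [D.sys_ln, lnA_row D.A i] at this
    linarith

/-- The set of vertices is finite. -/
theorem finite_vertex : {x | D.Vertex x}.Finite := by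
  have h1 : (D.name '' {x | D.Vertex x}).Finite := by
    refine (List.finite_length_eq Bool (m + n)).subset ?_
    rintro _ ⟨x, -, rfl⟩
    exact D.length_name x
  exact h1.of_finite_image fun x hx y _ h => hx.eq_of_name h

/-- a bound for the coordinate sums of the vertices -/
theorem exists_tau (D : RLP m n) : ∃ τ : ℝ, ∀ x, D.Vertex x → ∑ j, x j < τ := by
  obtain ⟨b, hb⟩ := (D.finite_vertex.image fun x : Fin n → ℝ => ∑ j, x j).bddAbove
  exact ⟨b + 1, fun x hx => lt_of_le_of_lt (hb ⟨x, hx, rfl⟩) (lt_add_one b)⟩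

end RLP

/-- The plays of the rule in `D` are plays in the program with the additional constraint. -/
theorem play_plus {ρ : BlindRule} {D : RLP m n} {τ : ℝ} (hτ : ∀ x, D.Vertex x → ∑ j, x j < τ)
    {x₀ : Fin n → ℝ} (h0 : D.Vertex x₀) {h : List Answer} {x : Fin n → ℝ}
    (hp : Play (plusRule ρ) D x₀ h x) :
    Play ρ (D.plus τ) x₀ (h.map (liftA m)) x := by
  have hm : D.mat.2.length = m := by
    unfold RLP.mat
    rw [List.length_ofFn]
  have himp : ∀ {x y}, D.Improving x y → (D.plus τ).Improving x y := by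
    intro x y hxy
    obtain ⟨h1, h2, h3, h4⟩ := D.improving_iff.1 hxy
    rw [RLP.improving_iff, RLP.plus_vertex (hτ x h1), RLP.plus_vertex (hτ y h2),
      RLP.plus_dir (hτ x h1), (D.plus τ).c_sys, RLP.plus_obj, ← D.c_sys]
    exact ⟨h1, h2, h3, h4⟩
  have hrule : ∀ h : List Answer, plusRule ρ (D.mat, D.name x₀, h) =
      match ρ ((D.plus τ).mat, (D.plus τ).name x₀, h.map (liftA m)) with
      | some T => if T = lift m (lower m T) then some (lower m T) else none
      | none => none := by
    intro h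
    unfold plusRule
    dsimp only
    rw [hm, RLP.plus_mat, RLP.plus_name (hτ x₀ h0)]
  have hlow : ∀ x z, lower m (lift m (D.edgeName x z)) = D.edgeName x z := fun x z =>
    lower_lift (by rw [D.length_edgeName]; omega)
  induction hp with
  | start => exact Play.start
  | @moved h x y hp hxy hr ih =>
    have hx := hxy.1.1
    rw [List.map_append, List.map_singleton]
    show Play ρ (D.plus τ) x₀ (h.map (liftA m) ++ [.moved (lift m (D.name y))]) y
    rw [← RLP.plus_name (hτ y hxy.1.2.1)]
    refine Play.moved ih (himp hxy) ?_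
    rw [hrule] at hr
    revert hr
    cases ρ ((D.plus τ).mat, (D.plus τ).name x₀, h.map (liftA m)) with
    | none => intro hr; simp at hr
    | some T =>
      intro hr
      dsimp only at hr
      split_ifs at hr with h1
      rw [Option.some.inj hr] at h1
      rw [RLP.plus_edgeName (hτ x hx), ← h1]
  | @refused h x y hp hxy h1 h2 ih =>
    have hx := hxy.1.1
    rw [List.map_append, List.map_singleton]
    show Play ρ (D.plus τ) x₀ (h.map (liftA m) ++ [.refused (lift m (D.name y))]) x
    rw [← RLP.plus_name (hτ y hxy.1.2.1)]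
    refine Play.refused ih (himp hxy) ?_ ?_
    · intro w hw he
      obtain ⟨-, -, hd, hc⟩ := (D.plus τ).improving_iff.1 hw
      rw [RLP.plus_dir (hτ x hx)] at hd
      rw [(D.plus τ).c_sys, RLP.plus_obj] at hc
      have he' : plusRule ρ (D.mat, D.name x₀, h) = some (D.edgeName x (w - x)) := by
        rw [hrule, he, RLP.plus_edgeName (hτ x hx)]
        dsimp only
        rw [hlow, if_pos rfl]
      rcases hx.dir_cases hd with hr | ⟨t, ht, hE⟩
      · exact h2 _ hc hr he'
      · refine h1 (x + t • (w - x)) ⟨hE, ?_⟩ ?_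
        · rw [RLP.obj_add, RLP.obj_smul]
          have := mul_pos ht hc
          linarith
        · rw [he', add_sub_cancel_left, RLP.edgeName_smul ht.ne']
    · intro z hz hr _
      have hz0 : z ≠ 0 := by
        rintro rfl
        simp [RLP.obj] at hz
      exact RLP.Bdd.not_ray RLP.plus_bdd hz0 hr

theorem solves_plus {ρ : BlindRule} {D : RLP m n} {τ : ℝ}
    (hτ : ∀ x, D.Vertex x → ∑ j, x j < τ) {B : ℕ} (h : Solves ρ (D.plus τ) B) :
    Solves (plusRule ρ) D B := by
  rw [solves_iff] at h ⊢
  intro x₀ hx₀ hh x hp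
  have h1 := h x₀ ((RLP.plus_vertex (hτ x₀ hx₀)).2 hx₀) _ _ (play_plus hτ hx₀ hp)
  rwa [List.length_map] at h1

/-! ### Polynomial time -/

section

variable {β : Type*} [TEnc β]

theorem polyF_lift {k : β → ℕ} {S : β → List Bool} (hk : PolyF k) (hS : PolyF S) :
    PolyF (fun b => lift (k b) (S b)) :=
  (hk.take hS).append ((PolyF.const false).cons (hk.drop hS))

theorem polyF_lower {k : β → ℕ} {S : β → List Bool} (hk : PolyF k) (hS : PolyF S) :
    PolyF (fun b => lower (k b) (S b)) :=
  (hk.take hS).append (hk.succ.drop hS)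

theorem liftA_eq (k : ℕ) (a : Answer) :
    liftA k a = Answer.ofPair (a.toPair.1, lift k a.toPair.2) := by
  cases a <;> rfl

theorem polyF_liftA {k : β → ℕ} {a : β → Answer} (hk : PolyF k) (ha : PolyF a) :
    PolyF (fun b => liftA (k b) (a b)) :=
  (polyF_ofPair ((polyF_toPair ha).fst.pair (polyF_lift hk (polyF_toPair ha).snd))).congr
    fun _ => (liftA_eq _ _).symm

theorem polyF_plusM {X : β → ℕ × List (List ℚ)} (hX : PolyF X) : PolyF (fun b => plusM (X b)) :=
  hX.fst.pair (hX.snd.append (PolyF.singleton (PolyF.replicate hX.fst (PolyF.const 1))))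

theorem polyF_plusRule {ρ : BlindRule} (hρ : PolyF ρ) : PolyF (plusRule ρ) := by
  have hk : PolyF (fun X : (ℕ × List (List ℚ)) × List Bool × List Answer => X.1.2.length) :=
    PolyF.fst'.snd.length
  have ho : PolyF (fun X : (ℕ × List (List ℚ)) × List Bool × List Answer =>
      ρ (plusM X.1, lift X.1.2.length X.2.1, X.2.2.map (liftA X.1.2.length))) := by
    refine hρ.comp ((polyF_plusM PolyF.fst').pair ((polyF_lift hk PolyF.snd'.fst).pair ?_))
    exact PolyF.snd'.snd.map (h := fun (X : (ℕ × List (List ℚ)) × List Bool × List Answer) a =>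
      liftA X.1.2.length a) (polyF_liftA (hk.comp PolyF.fst') PolyF.snd')
  refine PolyF.optionCases (g := fun _ => (none : Option (List Bool)))
    (h := fun q : ((ℕ × List (List ℚ)) × List Bool × List Answer) × List Bool =>
      if q.2 = lift q.1.1.2.length (lower q.1.1.2.length q.2) then
        some (lower q.1.1.2.length q.2) else none) ho (PolyF.const _) ?_ ?_ ?_
  · have hk' : PolyF (fun q : ((ℕ × List (List ℚ)) × List Bool × List Answer) × List Bool =>
        q.1.1.2.length) := hk.comp PolyF.fst'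
    have hl := polyF_lower hk' PolyF.snd'
    exact PolyF.ite (PolyF.snd'.eq (polyF_lift hk' hl)) hl.some (PolyF.const _)
  · intro X hX
    unfold plusRule
    rw [hX]
  · intro X T hX
    unfold plusRule
    rw [hX]

end

/-- **Reduction.** A bound for bounded programs gives a bound for all programs. -/
theorem solves_plus' {ρ : BlindRule} {m n B : ℕ} {D : RLP m n}
    (h : ∀ (τ : ℝ) (x₀ : Fin n → ℝ), (D.plus τ).Vertex x₀ → ∀ (k : List Answer) (x : Fin n → ℝ),
      Play ρ (D.plus τ) x₀ k x → k.length ≤ B) : Solves (plusRule ρ) D B := by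
  obtain ⟨τ, hτ⟩ := RLP.exists_tau D
  exact solves_plus hτ (solves_iff.2 fun x₀ hx₀ k x hp => h τ x₀ hx₀ k x hp)

end Pool.Agent.Simplex.EB
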