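import Pool.Agent.Lib.MP_4d246d_lc.EB.RulePoly

/-!
# Sizes of the facts and of the guessed programs
-/

namespace Pool.Agent.Simplex.EB

open Pool.Agent.Lib.PolyTime Pool.Agent.Simplex.QP

/-- a polynomial is bounded by a power -/
theorem peval_le_pow (P : Polynomial ℕ) : ∃ e : ℕ, ∀ x : ℕ, P.eval x ≤ (x + 2) ^ e := by
  have hadd : ∀ p q : Polynomial ℕ, (∃ e : ℕ, ∀ x : ℕ, p.eval x ≤ (x + 2) ^ e) →
      (∃ e : ℕ, ∀ x : ℕ, q.eval x ≤ (x + 2) ^ e) →
      ∃ e : ℕ, ∀ x : ℕ, (p + q).eval x ≤ (x + 2) ^ e := by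
    rintro p q ⟨a, ha⟩ ⟨b, hb⟩
    refine ⟨max a b + 1, fun x => ?_⟩
    have h1 : (x + 2) ^ a ≤ (x + 2) ^ max a b := Nat.pow_le_pow_right (by omega) (le_max_left _ _)
    have h2 : (x + 2) ^ b ≤ (x + 2) ^ max a b := Nat.pow_le_pow_right (by omega) (le_max_right _ _)
    have h3 := ha x
    have h4 := hb x
    rw [Polynomial.eval_add, pow_succ]
    have h5 : (x + 2) ^ max a b * 2 ≤ (x + 2) ^ max a b * (x + 2) :=
      Nat.mul_le_mul_left _ (by omega)
    omega
  induction P using Polynomial.induction_on with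
  | C a =>
    refine ⟨a, fun x => ?_⟩
    rw [Polynomial.eval_C]
    exact (Nat.lt_two_pow_self (n := a)).le.trans (Nat.pow_le_pow_left (by omega) a)
  | add p q hp hq => exact hadd p q hp hq
  | monomial k a h =>
    obtain ⟨e, he⟩ := h
    refine ⟨e + 1, fun x => ?_⟩
    rw [pow_succ (Polynomial.X), ← mul_assoc, Polynomial.eval_mul, Polynomial.eval_X, pow_succ]
    exact Nat.mul_le_mul (he x) (by omega)

theorem genM_len (X : Mat) : (genM X).length = X.2.length + X.1 := by
  unfold genM gZ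
  simp

theorem dims_le (X : Mat) : X.2.length + X.1 ≤ sz X := by
  have h1 : sz X = 1 + sz X.1 + sz X.2 := sz_prod X
  have h2 := length_le_sz X.2
  rw [sz_nat] at h1
  omega

theorem sz_name_le {X : Mat} {S : List Bool} (hS : S.length = (genM X).length) : sz S ≤ 2 * sz X := by
  have h1 := sz_bits_le S
  rw [hS, genM_len] at h1
  have h2 := dims_le X
  omega

/-- the coefficients of the facts are small for a suitable exponent: a computed list has
polynomial size, and its entries are below `2 ^ size` -/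
theorem exists_small : ∃ e : ℕ, ∀ X : Mat, Small e X := by
  have hp1 : PolyF (fun p : Mat × List Bool =>
      nameFacts p.1.2.length p.1.1 (genM p.1) p.2) :=
    PolyF.nameFacts PolyF.fst'.snd.length PolyF.fst'.fst (PolyF.gZ PolyF.fst'.fst PolyF.fst'.snd)
      PolyF.snd'
  have hp2 : PolyF (fun p : Mat × List Bool × List Bool => dirZ p.1.1 (genM p.1) p.2.1 p.2.2) :=
    PolyF.dirZ PolyF.fst'.fst (PolyF.gZ PolyF.fst'.fst PolyF.fst'.snd) PolyF.snd'.fst PolyF.snd'.snd
  obtain ⟨R1, hR1⟩ := hp1.bound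
  obtain ⟨R2, hR2⟩ := hp2.bound
  obtain ⟨e, he⟩ := peval_le_pow (R1.comp (3 * Polynomial.X + 1) + R2.comp (5 * Polynomial.X + 2))
  have he' : ∀ x : ℕ, R1.eval (3 * x + 1) + R2.eval (5 * x + 2) ≤ (x + 2) ^ e := by
    intro x
    have h := he x
    simpa [Polynomial.eval_comp] using h
  refine ⟨e, fun X => ⟨fun S hS f hf => ⟨nameFacts_len hf, fun a ha => ?_⟩, fun S T hS hT b => ?_⟩⟩
  · have h1 := hR1 (X, S)
    have h2 : sz (X, S) ≤ 3 * sz X + 1 := by
      have := sz_name_le hS
      show 1 + sz X + sz S ≤ _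
      omega
    have h3 := (h1.trans (peval_mono R1 h2)).trans
      ((Nat.le_add_right _ _).trans (he' (sz X)))
    have h4 := sz_mem hf
    have h5 := sz_mem ha
    have h6 : sz f = 1 + sz f.1 + sz f.2 := sz_prod f
    have h7 : sz a ≤ bits e X := by
      show sz a ≤ (sz X + 2) ^ e
      dsimp only at h3 h4
      omega
    exact (abs_lt_two_pow_sz a).trans_le (pow_le_pow_right₀ (by norm_num) h7)
  · have h1 := hR2 (X, S, T)
    have h2 : sz (X, S, T) ≤ 5 * sz X + 2 := by
      have h3 := sz_name_le hS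
      have h4 := sz_name_le hT
      show 1 + sz X + (1 + sz S + sz T) ≤ _
      omega
    have h3 := (h1.trans (peval_mono R2 h2)).trans
      ((Nat.le_add_left _ _).trans (he' (sz X)))
    have key : ∀ a ∈ dirZ X.1 (genM X) S T, |a| < 2 ^ bits e X := by
      intro a ha
      have h5 := sz_mem ha
      have h7 : sz a ≤ bits e X := by
        show sz a ≤ (sz X + 2) ^ e
        dsimp only at h3
        omega
      exact (abs_lt_two_pow_sz a).trans_le (pow_le_pow_right₀ (by norm_num) h7)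
    refine ⟨⟨dirZ_len _ _ _ _, key⟩, ⟨?_, ?_⟩⟩
    · show (negZ (dirZ X.1 (genM X) S T)).length = X.1
      rw [length_negZ, dirZ_len]
    · intro a ha
      unfold negZ at ha
      obtain ⟨a', ha', rfl⟩ := List.mem_map.1 ha
      rw [abs_neg]
      exact key a' ha'

/-- the size of a list of facts that is used -/
theorem sz_used {e N : ℕ} {X : Mat} (hN : N ≤ sz X) {H : List Fact} (h : Used e N X H) :
    sz H ≤ ((2 * bits e X + 3) * sz X + 3) * fuel e X := by
  have h1 : ∀ f ∈ H, sz f ≤ (2 * bits e X + 3) * sz X + 2 := by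
    intro f hf
    obtain ⟨h2, h3⟩ := h.1 f hf
    have h4 : sz f = 1 + sz f.1 + sz f.2 := sz_prod f
    have h5 := sz_bool_le f.1
    have h6 := sz_le_of_forall (l := f.2) (M := 2 * bits e X + 2)
      fun a ha => sz_int_le_of_abs_lt (h3 a ha)
    rw [h2] at h6
    have h7 : (2 * bits e X + 2 + 1) * N ≤ (2 * bits e X + 3) * sz X := Nat.mul_le_mul_left _ hN
    omega
  have h2 := sz_le_of_forall h1
  exact h2.trans (Nat.mul_le_mul_left _ h.2.le)

/-- the guesses that occur in legal histories have polynomial size in the matrix alone -/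
theorem size_inp (e : ℕ) : ∃ P : Polynomial ℕ, ∀ (X : Mat) (Hb Hc : List Fact) (S : List Bool),
    Used e X.2.length X Hb → Used e X.1 X Hc → S.length = (genM X).length →
      sz (inp e X Hb Hc S) ≤ P.eval (sz X) := by
  have hp : PolyF (fun p : Mat × List Fact × List Fact × List Bool =>
      inp e p.1 p.2.1 p.2.2.1 p.2.2.2) :=
    polyF_inp e PolyF.fst' PolyF.snd'.fst PolyF.snd'.snd.fst PolyF.snd'.snd.snd
  obtain ⟨R, hR⟩ := hp.bound
  let b : Polynomial ℕ := (Polynomial.X + 2) ^ e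
  let fu : Polynomial ℕ := (Polynomial.X + b + 2) ^ 55 + 1
  let s : Polynomial ℕ := ((2 * b + 3) * Polynomial.X + 3) * fu
  refine ⟨R.comp (3 + 3 * Polynomial.X + 2 * s), fun X Hb Hc S hb hc hS => ?_⟩
  have hs : s.eval (sz X) = ((2 * bits e X + 3) * sz X + 3) * ((sz X + bits e X + 2) ^ 55 + 1) := by
    simp [s, fu, b, bits]
  have hfu : fuel e X ≤ (sz X + bits e X + 2) ^ 55 + 1 := by
    unfold fuel
    have := dims_le X
    have h1 : X.2.length + X.1 + bits e X + 2 ≤ sz X + bits e X + 2 := by omega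
    exact Nat.add_le_add_right (Nat.pow_le_pow_left h1 55) 1
  have hd := dims_le X
  have h1 := (sz_used (by omega) hb).trans (Nat.mul_le_mul_left _ hfu)
  have h2 := (sz_used (by omega) hc).trans (Nat.mul_le_mul_left _ hfu)
  rw [← hs] at h1 h2
  have h3 := sz_name_le hS
  have h4 : sz (X, Hb, Hc, S) ≤ 3 + 3 * sz X + 2 * s.eval (sz X) := by
    show 1 + sz X + (1 + sz Hb + (1 + sz Hc + sz S)) ≤ _
    omega
  have h5 := (hR (X, Hb, Hc, S)).trans (peval_mono R h4)
  rw [Polynomial.eval_comp]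
  simpa using h5

end Pool.Agent.Simplex.EB
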