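import Pool.Agent.Lib.MP_4d246d_lc.EB.BSim
import Pool.Agent.Lib.MP_4d246d_lc.EB.RuleSmall
import Pool.Agent.Lib.MP_4d246d_lc.EB.Plus
import Pool.Agent.Lib.MP_4d246d_lc.EB.Engine

/-!
# Blind rules from engines
-/

namespace Pool.Agent.Simplex.EB

open Pool.Agent.Lib.PolyTime Pool.Agent.Simplex.QP

/-- number of facts as a polynomial in the size of the matrix -/
theorem fuel_le (e : ℕ) (X : Mat) :
    fuel e X ≤ ((2 * Polynomial.X + (Polynomial.X + 2) ^ e + 2) ^ 55 + 1 : Polynomial ℕ).eval
      (sz X) := by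
  have h1 : X.2.length + X.1 ≤ 2 * sz X := by
    have h2 := length_le_sz X.2
    have h3 : sz X = 1 + sz X.1 + sz X.2 := sz_prod X
    rw [sz_nat] at h3
    omega
  unfold fuel bits
  simp only [Polynomial.eval_add, Polynomial.eval_mul, Polynomial.eval_pow, Polynomial.eval_X,
    Polynomial.eval_ofNat, Polynomial.eval_one]
  exact Nat.add_le_add_right (Nat.pow_le_pow_left (by omega) _) _

/-- the input made from the guess -/
theorem mkInput_guess {m n : ℕ} (A : Fin m → Fin n → ℚ) {w c : List ℤ} (hw : w.length = m)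
    (hc : c.length = n) {x' : Fin n → ℝ} (hx' : (guessR A w c).Vertex x') :
    ∃ (v : Fin n → ℚ) (hv : (guessQ A w c).Vertex (toReal v)), toReal v = x' ∧
      mkInput (guessR A w c).mat (unsc (guessR A w c).mat w)
        (c.map (fun a : ℤ => (a : ℚ))) ((guessR A w c).name x') =
          ⟨m, n, guessQ A w c, v, hv⟩ := by
  rw [unsc_eq A hw c, cast_eq A w hc]
  obtain ⟨v, hv, hvx, hI⟩ := mkInput_spec (guessQ A w c) hx'
  exact ⟨v, hv, hvx, hI⟩

/-- the inputs made from the guesses have the given matrix -/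
theorem inpS_mat (e : ℕ) {m n : ℕ} (D : RLP m n) {Hb Hc : List Fact} {x' : Fin n → ℝ}
    (hx' : (guessS e D Hb Hc).Vertex x') : (ofQ (inpS e D Hb Hc x').lp).mat = D.mat := by
  obtain ⟨v, hv, -, h⟩ := mkInput_guess D.A (gb_len e (D := D) Hb) (gc_len e (D := D) Hc) hx'
  have h1 : inpS e D Hb Hc x' = ⟨m, n, guessQ D.A (gb e D.mat Hb) (gc e D.mat Hc), v, hv⟩ := h
  rw [h1]
  rfl

/-- **A version of the simplex method with at most `K` pivots on the inputs with the matrix `A`
and a row of ones, of size polynomial in the size of `A`, gives a blind rule with about `K`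
answers on the programs with the matrix `A`.** -/
theorem blind_of_engine (W : Engine) : ∃ (ρ : BlindRule) (P : Polynomial ℕ), PolyF ρ ∧
    ∀ (m n : ℕ) (D : RLP m n) (K : ℕ), W.Bound (plusM D.mat) (P.eval D.size) K →
      Solves ρ D (P.eval D.size * (K + 1)) := by
  obtain ⟨e, he⟩ := exists_small
  obtain ⟨Q, hQ⟩ := size_inp e
  obtain ⟨R, hR⟩ := (polyF_plusM (X := fun a : Mat => a) PolyF.id).bound
  let F : Polynomial ℕ := (2 * Polynomial.X + (Polynomial.X + 2) ^ e + 2) ^ 55 + 1
  refine ⟨plusRule (rule W e), 2 * F.comp R + Q.comp R, polyF_plusRule (polyF_rule W e),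
    fun m n D K hK => solves_plus' fun τ x₀ hx₀ k x hp => ?_⟩
  have hsz : sz (D.plus τ).mat ≤ R.eval D.size := by
    rw [RLP.plus_mat]
    refine (hR D.mat).trans (peval_mono R ?_)
    have : D.size = 2 * sz D.mat + 1 := length_wd _ _ _
    omega
  have h1 : 2 * fuel e (D.plus τ).mat ≤ (2 * F.comp R + Q.comp R).eval D.size := by
    have h2 := (fuel_le e (D.plus τ).mat).trans (peval_mono F hsz)
    simp only [Polynomial.eval_add, Polynomial.eval_mul, Polynomial.eval_comp,
      Polynomial.eval_ofNat]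
    omega
  have h2 : Q.eval (sz (D.plus τ).mat) ≤ (2 * F.comp R + Q.comp R).eval D.size := by
    have h3 := peval_mono Q hsz
    simp only [Polynomial.eval_add, Polynomial.eval_comp]
    omega
  have hrun : RunBd W e (D.plus τ) K := by
    intro Hb Hc x' g1 g2 g3
    refine hK _ ?_ ((hQ _ _ _ _ g1 g2 ?_).trans h2)
    · rw [inpS_mat e _ g3.1, RLP.plus_mat]
    · rw [RLP.length_name]
      exact ((D.plus τ).gen_len).symm
  exact (play_le RLP.plus_bdd (he _) hrun hx₀ hp).trans (Nat.mul_le_mul_right _ h1)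

/-- `W` makes at most `K` pivots on the inputs of bit length at most `L` with the matrix of `D`
that start at a vertex whose name is the name of a vertex of `D`. -/
def Engine.BoundAt (W : Engine) {m n : ℕ} (D : RLP m n) (L K : ℕ) : Prop :=
  ∀ (lp : QLP m n) (v : Fin n → ℚ) (hv : lp.Vertex (toReal v)), lp.A = D.A →
    (∃ y, D.Vertex y ∧ (ofQ lp).name (toReal v) = D.name y) →
    sz (⟨m, n, lp, v, hv⟩ : Input) ≤ L → W.N ⟨m, n, lp, v, hv⟩ ≤ K

/-- **A version of the simplex method with at most `K` pivots on the inputs with the matrix `A`,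
of size polynomial in the size of `A`, gives a blind rule with about `K` answers on the bounded
programs with the matrix `A`.** -/
theorem blind_of_engine_bdd (W : Engine) : ∃ (ρ : BlindRule) (P : Polynomial ℕ), PolyF ρ ∧
    ∀ (m n : ℕ) (D : RLP m n) (K : ℕ), Bdd D.A → W.BoundAt D (P.eval D.size) K →
      Solves ρ D (P.eval D.size * (K + 1)) := by
  obtain ⟨e, he⟩ := exists_small
  obtain ⟨Q, hQ⟩ := size_inp e
  let F : Polynomial ℕ := (2 * Polynomial.X + (Polynomial.X + 2) ^ e + 2) ^ 55 + 1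
  refine ⟨rule W e, 2 * F + Q, polyF_rule W e,
    fun m n D K hb hK => solves_iff.2 fun x₀ hx₀ k x hp => ?_⟩
  have hsz : sz D.mat ≤ D.size := by
    have : D.size = 2 * sz D.mat + 1 := length_wd _ _ _
    omega
  have h1 : 2 * fuel e D.mat ≤ (2 * F + Q).eval D.size := by
    have h2 := (fuel_le e D.mat).trans (peval_mono F hsz)
    simp only [Polynomial.eval_add, Polynomial.eval_mul, Polynomial.eval_ofNat]
    omega
  have h2 : Q.eval (sz D.mat) ≤ (2 * F + Q).eval D.size := by
    have h3 := peval_mono Q hsz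
    simp only [Polynomial.eval_add]
    omega
  have hrun : RunBd W e D K := by
    intro Hb Hc x' g1 g2 g3
    have h4 : sz (inpS e D Hb Hc x') ≤ (2 * F + Q).eval D.size := by
      refine (hQ _ _ _ _ g1 g2 ?_).trans h2
      rw [RLP.length_name]
      exact (D.gen_len).symm
    obtain ⟨v, hv, hvx, h⟩ := mkInput_guess D.A (gb_len e (D := D) Hb) (gc_len e (D := D) Hc)
      (x' := x') g3.1
    have h5 : inpS e D Hb Hc x' = ⟨m, n, guessQ D.A (gb e D.mat Hb) (gc e D.mat Hc), v, hv⟩ := h
    rw [h5] at h4 ⊢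
    refine hK _ v hv rfl ?_ h4
    obtain ⟨y, hy, hn⟩ := g3.2
    exact ⟨y, hy, by rw [hvx]; exact hn⟩
  exact (play_le hb (he _) hrun hx₀ hp).trans (Nat.mul_le_mul_right _ h1)

end Pool.Agent.Simplex.EB
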