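import Pool.Agent.Lib.MP_4d246d_lc.EB.SimRun
import Pool.Agent.Lib.MP_4d246d_lc.EB.Rev
import Pool.Agent.Lib.MP_4d246d_lc.EB.AnsEnc

/-!
# The simulation of a blind rule takes polynomial time
-/

namespace Pool.Agent.Simplex.EB

open QP Pool.Agent.Lib.PolyTime Turing

section

variable {β : Type*} [TEnc β]

theorem polyF_range {D : β → Sta} (hD : PolyF D) :
    PolyF (fun b => List.range (D b).2.1.length) := hD.snd.fst.length.range

theorem polyF_idx {D : β → Sta} {T : β → List Bool} (hD : PolyF D) (hT : PolyF T) :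
    PolyF (fun b => idx (D b) (T b)) :=
  (polyF_range hD).filter (p := fun b i => (T b).getD i false)
    ((hT.comp PolyF.fst').getDL PolyF.snd' (PolyF.const false))

theorem polyF_okT {D : β → Sta} {x : β → Pnt} {T : β → List Bool} (hD : PolyF D) (hx : PolyF x)
    (hT : PolyF T) : PolyF (fun b => okT (D b) (x b) (T b)) :=
  (polyF_idx hD hT).all (p := fun b i => ttZ (D b) (x b) i)
    (PolyF.ttZ (hD.comp PolyF.fst') (hx.comp PolyF.fst') PolyF.snd')

theorem polyF_nameZ {D : β → Sta} {x : β → Pnt} (hD : PolyF D) (hx : PolyF x) :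
    PolyF (fun b => nameZ (D b) (x b)) :=
  (polyF_range hD).map (h := fun b i => ttZ (D b) (x b) i)
    (PolyF.ttZ (hD.comp PolyF.fst') (hx.comp PolyF.fst') PolyF.snd')

theorem polyF_eNameZ {D : β → Sta} {x y : β → Pnt} (hD : PolyF D) (hx : PolyF x) (hy : PolyF y) :
    PolyF (fun b => eNameZ (D b) (x b) (y b)) :=
  (polyF_range hD).map (h := fun b i => ttZ (D b) (x b) i && ttZ (D b) (y b) i)
    ((PolyF.ttZ (hD.comp PolyF.fst') (hx.comp PolyF.fst') PolyF.snd').and
      (PolyF.ttZ (hD.comp PolyF.fst') (hy.comp PolyF.fst') PolyF.snd'))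

theorem polyF_tryZ {D : β → Sta} {x : β → Pnt} {T : β → List Bool} (hD : PolyF D) (hx : PolyF x)
    (hT : PolyF T) : PolyF (fun b => tryZ (D b) (x b) (T b)) :=
  PolyF.nextZ hD (hx.pair ((PolyF.singleton (PolyF.frameOf hD (polyF_idx hD hT))).pair
    (PolyF.const Status.running)))

theorem polyF_advZ {D : β → Sta} {x : β → Pnt} (hD : PolyF D) (hx : PolyF x) :
    PolyF (fun b => advZ (D b) (x b)) := PolyF.nextZ hD (PolyF.initZ hD hx)

theorem polyF_simAdv {D : β → Sta} {s : β → Sim} (hD : PolyF D) (hs : PolyF s) :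
    PolyF (fun b => simAdv (D b) (s b)) := by
  have ha := polyF_advZ hD hs.snd.fst
  refine PolyF.pair ?_ (hs.snd.fst.pair (ha.snd.snd.pair hs.snd.snd.snd))
  exact PolyF.ite (ha.snd.snd.eqConst Status.running)
    (hs.fst.append (PolyF.singleton (polyF_refused (polyF_nameZ hD ha.fst)))) hs.fst

theorem polyF_simTry {D : β → Sta} {s : β → Sim} {T : β → List Bool} (hD : PolyF D)
    (hs : PolyF s) (hT : PolyF T) : PolyF (fun b => simTry (D b) (s b) (T b)) := by
  have ht := polyF_tryZ hD hs.snd.fst hT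
  have hk : PolyF (fun b => decide (okT (D b) (s b).2.1 (T b) = true)) :=
    (polyF_okT hD hs.snd.fst hT).decide_bool
  refine PolyF.ite (hk.decide_and (ht.snd.snd.eqConst Status.unbounded))
    (hs.fst.pair (hs.snd.fst.pair ((PolyF.const Status.unbounded).pair hs.snd.snd.snd))) ?_
  refine PolyF.ite (hk.decide_and ((ht.snd.snd.eqConst Status.running).decide_and
    ((polyF_eNameZ hD hs.snd.fst ht.fst).eq hT))) ?_ (polyF_simAdv hD hs)
  exact (hs.fst.append (PolyF.singleton (polyF_moved (polyF_nameZ hD ht.fst)))).pair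
    (ht.fst.pair ((PolyF.const Status.running).pair (hs.snd.snd.snd.append
      (PolyF.singleton ((PolyF.ratsOf hs.snd.fst).pair (PolyF.const Verdict.pivot))))))

theorem polyF_simStep {ρ : BlindRule} (hρ : PolyF ρ) {F : β → Fix} {s : β → Sim} (hF : PolyF F)
    (hs : PolyF s) : PolyF (fun b => simStep ρ (F b) (s b)) := by
  refine PolyF.ite (hs.snd.snd.fst.eqConst Status.running) ?_ hs
  refine PolyF.optionCases (o := fun b => ρ ((F b).2.1, (F b).2.2, (s b).1))
    (g := fun b => simAdv (F b).1 (s b))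
    (h := fun q : β × List Bool => simTry (F q.1).1 (s q.1) q.2)
    (hρ.comp (hF.snd.fst.pair (hF.snd.snd.pair hs.fst))) (polyF_simAdv hF.fst hs)
    (polyF_simTry (hF.fst.comp PolyF.fst') (hs.comp PolyF.fst') PolyF.snd') ?_ ?_
  · intro b hb
    rw [hb]
  · intro b T hb
    rw [hb]

theorem polyF_outSim {s : β → Sim} (hs : PolyF s) : PolyF (fun b => outSim (s b)) := by
  have hv : PolyF (fun b => verd (s b).2.2.1) :=
    hs.snd.snd.fst.of_enc (fun x => x) (fun _ => rfl) fun b => enc_verd _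
  exact hs.snd.snd.snd.append (PolyF.singleton ((PolyF.ratsOf hs.snd.fst).pair hv))

end

theorem polyF_mat : PolyF (fun I : Input => (ofQ I.lp).mat) :=
  (polyF_data.fst.pair polyF_data.snd.fst).congr fun _ => rfl

theorem polyF_matSize : PolyF matSize :=
  (Pool.Agent.Lib.SubForests.polyF_wd polyF_mat).length

theorem polyF_dat : PolyF (fun I : Input => dat I) := PolyF.staOf polyF_data

theorem polyF_fixOf : PolyF fixOf :=
  polyF_dat.pair (polyF_mat.pair (polyF_nameZ polyF_dat (PolyF.pntOf polyF_data)))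

theorem polyF_sim0 : PolyF sim0 :=
  (PolyF.const ([] : List Answer)).pair ((PolyF.pntOf polyF_data).pair
    ((PolyF.const Status.running).pair (PolyF.const ([] : List (List ℚ × Verdict)))))

/-! ### The size of the states -/

/-- bounds for the states -/
structure SzI (I : Input) (s : Sim) (t : ℕ) : Prop where
  vert : VertZ (dat I) s.2.1
  pt : PtOk (orc (dat I)) (pntOf I.data) s.2.1
  len : s.1.length ≤ t
  ans : ∀ a ∈ s.1, sz a ≤ 2 + 2 * (dat I).2.1.length
  lout : s.2.2.2.length ≤ t
  out : ∀ r ∈ s.2.2.2, ∃ x, PtOk (orc (dat I)) (pntOf I.data) x ∧ r = (ratsOf x, Verdict.pivot)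

theorem SzI.mono {I : Input} {s : Sim} {t t' : ℕ} (h : SzI I s t) (ht : t ≤ t') : SzI I s t' :=
  ⟨h.vert, h.pt, h.len.trans ht, h.ans, h.lout.trans ht, h.out⟩

theorem sz_nameZ (D : Sta) (x : Pnt) : sz (nameZ D x) ≤ 2 * D.2.1.length := by
  have h1 : (nameZ D x).length = D.2.1.length := by
    unfold nameZ
    rw [List.length_map, List.length_range]
  have h2 := sz_le_of_forall (l := nameZ D x) (M := 1) fun b _ => sz_bool_le b
  rw [h1] at h2
  exact h2

theorem sz_moved (D : Sta) (x : Pnt) : sz (Answer.moved (nameZ D x)) ≤ 2 + 2 * D.2.1.length := by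
  have h1 : sz (Answer.moved (nameZ D x)) = sz (true, nameZ D x) := rfl
  rw [h1, sz_prod]
  have h2 := sz_nameZ D x
  have h3 := sz_bool_le true
  dsimp only
  omega

theorem sz_refused (D : Sta) (x : Pnt) :
    sz (Answer.refused (nameZ D x)) ≤ 2 + 2 * D.2.1.length := by
  have h1 : sz (Answer.refused (nameZ D x)) = sz (false, nameZ D x) := rfl
  rw [h1, sz_prod]
  have h2 := sz_nameZ D x
  have h3 := sz_bool_le false
  dsimp only
  omega

theorem szI_adv {I : Input} {s : Sim} {t : ℕ} (h : SzI I s t) :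
    SzI I (simAdv (dat I) s) (t + 1) := by
  unfold simAdv
  by_cases hc : (advZ (dat I) s.2.1).2.2 = .running
  · rw [if_pos hc]
    refine ⟨h.vert, h.pt, ?_, ?_, h.lout.trans (Nat.le_succ t), h.out⟩
    · show (s.1 ++ [_]).length ≤ t + 1
      rw [List.length_append]
      exact Nat.succ_le_succ h.len
    · intro a ha
      rcases List.mem_append.1 ha with h1 | h1
      · exact h.ans a h1
      · rw [List.mem_singleton.1 h1]
        exact sz_refused _ _
  · rw [if_neg hc]
    exact ⟨h.vert, h.pt, h.len.trans (Nat.le_succ t), h.ans, h.lout.trans (Nat.le_succ t), h.out⟩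

theorem szI_try {I : Input} {s : Sim} {t : ℕ} (h : SzI I s t) (T : List Bool) :
    SzI I (simTry (dat I) s T) (t + 1) := by
  unfold simTry
  split_ifs with h1 h2
  · exact ⟨h.vert, h.pt, h.len.trans (Nat.le_succ t), h.ans, h.lout.trans (Nat.le_succ t), h.out⟩
  · obtain ⟨h3, h4⟩ := tryZ_ok h.vert h.pt h2.1
    refine ⟨h3, h4, ?_, ?_, ?_, ?_⟩
    · show (s.1 ++ [_]).length ≤ t + 1
      rw [List.length_append]
      exact Nat.succ_le_succ h.len
    · intro a ha
      rcases List.mem_append.1 ha with h5 | h5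
      · exact h.ans a h5
      · rw [List.mem_singleton.1 h5]
        exact sz_moved _ _
    · show (s.2.2.2 ++ [_]).length ≤ t + 1
      rw [List.length_append]
      exact Nat.succ_le_succ h.lout
    · intro r hr
      rcases List.mem_append.1 hr with h5 | h5
      · exact h.out r h5
      · exact ⟨s.2.1, h.pt, List.mem_singleton.1 h5⟩
  · exact szI_adv h

theorem szI_step (ρ : BlindRule) {I : Input} {s : Sim} {t : ℕ} (h : SzI I s t) :
    SzI I (simStep ρ (fixOf I) s) (t + 1) := by
  unfold simStep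
  split_ifs with h1
  · split
    · exact szI_try h _
    · exact szI_adv h
  · exact h.mono (Nat.le_succ t)

theorem szI_iter (ρ : BlindRule) (I : Input) (t : ℕ) :
    SzI I ((simStep ρ (fixOf I))^[t] (sim0 I)) t := by
  induction t with
  | zero =>
    refine ⟨vertZ_start I, Or.inl rfl, le_rfl, ?_, le_rfl, ?_⟩
    · intro a ha
      exact absurd ha List.not_mem_nil
    · intro a ha
      exact absurd ha List.not_mem_nil
  | succ t ih =>
    rw [Function.iterate_succ_apply']
    exact szI_step ρ ih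

theorem sz_sim (ρ : BlindRule) {n : Input → ℕ} (hn : PolyF n) : ∃ B : Polynomial ℕ, ∀ I : Input,
    ∀ i ≤ n I, sz ((simStep ρ (fixOf I))^[i] (sim0 I)) ≤ B.eval (sz I) := by
  obtain ⟨Q, hQ⟩ := sz_ptOk
  obtain ⟨R, hR⟩ := (PolyF.ratsOf (β := Pnt) PolyF.id).bound
  have hm : PBd (fun I : Input => (dat I).2.1.length) := polyF_dat.snd.fst.pbdLength
  have hnn : PBd n := hn.pbdNat
  have hp : PBd (fun I : Input => Q.eval (sz (dat I, pntOf I.data))) :=
    ((polyF_dat.pair (PolyF.pntOf polyF_data)).pbd).peval Q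
  have hr := hp.peval R
  have hv : sz Verdict.pivot ≤ 2 := by decide
  obtain ⟨B, hB⟩ := ((PBd.const (α := Input) 5).add hp).add
    (((((PBd.const 3).add ((PBd.const 2).mul hm)).mul hnn)).add
      (((PBd.const 4).add hr).mul hnn))
  refine ⟨B, fun I i hi => le_trans ?_ (hB I)⟩
  have h := (szI_iter ρ I i).mono hi
  set s := (simStep ρ (fixOf I))^[i] (sim0 I)
  have h1 : sz s = 1 + sz s.1 + (1 + sz s.2.1 + (1 + sz s.2.2.1 + sz s.2.2.2)) := rfl
  have h2 : sz s.1 ≤ (2 + 2 * (dat I).2.1.length + 1) * s.1.length := sz_le_of_forall h.ans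
  have h3 := hQ _ _ _ h.pt
  have h4 := sz_status_le s.2.2.1
  have h5 : sz s.2.2.2 ≤ (3 + R.eval (Q.eval (sz (dat I, pntOf I.data))) + 1) *
      s.2.2.2.length := by
    refine sz_le_of_forall fun r hr => ?_
    obtain ⟨x, hx, rfl⟩ := h.out r hr
    rw [sz_prod]
    have h6 := hR x
    have h7 := peval_mono R (hQ _ _ _ hx)
    dsimp only
    have h8 : sz (ratsOf x) ≤ R.eval (sz x) := h6
    omega
  have h6 : (2 + 2 * (dat I).2.1.length + 1) * s.1.length ≤
      (2 + 2 * (dat I).2.1.length + 1) * n I := Nat.mul_le_mul_left _ h.len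
  have h7 : (3 + R.eval (Q.eval (sz (dat I, pntOf I.data))) + 1) * s.2.2.2.length ≤
      (3 + R.eval (Q.eval (sz (dat I, pntOf I.data))) + 1) * n I := Nat.mul_le_mul_left _ h.lout
  have h8 : (3 + 2 * (dat I).2.1.length) * n I = (2 + 2 * (dat I).2.1.length + 1) * n I := by ring
  have h9 : (4 + R.eval (Q.eval (sz (dat I, pntOf I.data)))) * n I =
      (3 + R.eval (Q.eval (sz (dat I, pntOf I.data))) + 1) * n I := by ring
  dsimp only
  rw [h1, h8, h9]
  omega

/-- **A blind rule gives a version of the simplex method** with the same number of steps. -/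
theorem PolyBlind.strong (h : PolyBlind) : StrongSimplex := by
  obtain ⟨ρ, P, hρ, hS⟩ := h
  have hρ' : PolyF ρ := polyF_of_tm2 hρ
  have hrun : ∀ I : Input, ∃ (N : ℕ) (x : ℕ → Fin I.n → ℚ) (s : Verdict),
      SimplexRun I N x s ∧ N ≤ P.eval (matSize I) ∧
      outSim ((simStep ρ (fixOf I))^[P.eval (matSize I) + 1] (sim0 I)) = protocol N x s :=
    fun I => run_of_solves (hS I.m I.n (ofQ I.lp))
  choose N x s hall using hrun
  refine ⟨N, x, s, P, fun I => ⟨(hall I).1, (hall I).2.1⟩, ?_⟩
  have hn : PolyF (fun I : Input => P.eval (matSize I) + 1) := (polyF_peval P polyF_matSize).succ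
  have hit : PolyF (fun I : Input =>
      (simStep ρ (fixOf I))^[P.eval (matSize I) + 1] (sim0 I)) :=
    PolyF.natIterate (f := fun (I : Input) s => simStep ρ (fixOf I) s) hn
      (polyF_simStep hρ' (polyF_fixOf.comp PolyF.fst') PolyF.snd') polyF_sim0 (sz_sim ρ hn)
  have hout : PolyF (fun I : Input => protocol (N I) (x I) (s I)) :=
    (polyF_outSim hit).congr fun I => (hall I).2.2
  exact hout.tm2_word

/-- forget the bound for the number of pivots -/
theorem StrongSimplex.poly (h : StrongSimplex) : PolySimplex := by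
  obtain ⟨N, x, s, _, h1, h2⟩ := h
  exact ⟨N, x, s, fun I => (h1 I).1, h2⟩

end Pool.Agent.Simplex.EB
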