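import Pool.Agent.Lib.MP_4d246d_lc.EB.Spm
import Pool.Agent.Lib.MP_4d246d_lc.EB.SimPoly

/-!
# Question 1 for sparse matrices implies Question 1
-/

namespace Pool.Agent.Simplex.EB

open Pool.Agent.Lib.PolyTime Pool.Agent.Simplex.QP Turing

/-! ### Runs and additive maps -/

theorem run_map {M M' : Type*} [AddCommMonoid M] [AddCommMonoid M'] (f : M →+ M')
    (ins : ℕ → List ℕ) (T : ℕ) (l : List M) :
    (run List.sum 0 ins T l).map f = run List.sum 0 ins T (l.map f) := by
  unfold run
  induction T with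
  | zero => rfl
  | succ T ih =>
    rw [List.range_succ, List.foldl_append, List.foldl_append]
    simp only [List.foldl_cons, List.foldl_nil]
    rw [List.map_append, ih, List.map_singleton]
    congr 2
    rw [map_list_sum, List.map_map]
    congr 1
    refine List.map_congr_left fun a _ => ?_
    rw [Function.comp_apply, ← ih, ← map_zero f, List.getD_map]

/-- evaluation of linear forms -/
def evalAt {n : ℕ} (x : Fin n → ℝ) : ((Fin n → ℝ) →ₗ[ℝ] ℝ) →+ ℝ where
  toFun f := f x
  map_zero' := rfl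
  map_add' _ _ := rfl

theorem phi_eq_run {n T : ℕ} {ins : ℕ → List ℕ} (x : Fin n → ℝ) (j : Fin (n + T)) :
    phi n T ins x j = (run List.sum 0 ins T (List.ofFn x)).getD j 0 := by
  show (forms n T ins).getD j 0 x = _
  have h1 : List.ofFn x = (coord n).map (evalAt x) := by
    unfold coord
    rw [List.map_ofFn]
    rfl
  rw [h1, ← run_map (evalAt x)]
  show evalAt x ((forms n T ins).getD j 0) = (List.map (evalAt x) (forms n T ins)).getD j 0
  rw [← map_zero (evalAt x), List.getD_map]

/-- the cast of rational numbers -/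
noncomputable def castA : ℚ →+ ℝ := (Rat.castHom ℝ).toAddMonoidHom

/-- the values at a rational point -/
theorem phi_toReal {n T : ℕ} {ins : ℕ → List ℕ} (v : Fin n → ℚ) :
    toReal (fun j : Fin (n + T) => (run List.sum 0 ins T (List.ofFn v)).getD j 0) =
      phi n T ins (toReal v) := by
  funext j
  rw [phi_eq_run]
  have h1 : List.ofFn (toReal v) = (List.ofFn v).map castA := by
    rw [List.map_ofFn]
    rfl
  rw [h1, ← run_map castA]
  show castA ((run List.sum 0 ins T (List.ofFn v)).getD j 0) = _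
  rw [← map_zero castA, List.getD_map]

/-! ### The sparse program -/

/-- the sparse form of a rational program (same matrix as `(ofQ D).sp`) -/
def spQLP {m n : ℕ} (D : QLP m n) :
    QLP (m + (spT (ofQ D).mat + spT (ofQ D).mat)) (n + spT (ofQ D).mat) where
  A i j := ent m n (spT (ofQ D).mat) (spIns (ofQ D).mat) (spP (ofQ D).mat) (spQ (ofQ D).mat) i j
  b i := if h : (i : ℕ) < m then
    ((denZ (List.ofFn (D.A ⟨i, h⟩)) : ℤ) : ℚ) * D.b ⟨i, h⟩ else 0
  c j := if h : (j : ℕ) < n then D.c ⟨j, h⟩ else 0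

theorem ofQ_spQLP {m n : ℕ} (D : QLP m n) : ofQ (spQLP D) = (ofQ D).sp := by
  unfold RLP.sp RLP.slp
  unfold ofQ spQLP
  congr 1
  · funext i
    dsimp only
    split_ifs with h
    · push_cast
      congr 1
      unfold sc
      rw [dif_pos h]
    · exact Rat.cast_zero
  · funext j
    dsimp only
    split_ifs with h
    · rfl
    · exact Rat.cast_zero

/-- the isomorphism with the sparse program -/
noncomputable def spIso {m n : ℕ} (D : RLP m n) : Iso D D.sp :=
  slpIso (spIns_ok D.mat) (spPQ_ok D)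

/-- the values of all variables at a rational point -/
def spVals (X : Mat) (v : List ℚ) : List ℚ := run List.sum 0 (spIns X) (spT X) v

theorem toReal_spVals {m n : ℕ} (D : QLP m n) (v : Fin n → ℚ) :
    toReal (fun j : Fin (n + spT (ofQ D).mat) => (spVals (ofQ D).mat (List.ofFn v)).getD j 0) =
      (spIso (ofQ D)).φ (toReal v) :=
  phi_toReal v

theorem spVals_vertex (I : Input) : (spQLP I.lp).Vertex (toReal (fun j =>
    (spVals (ofQ I.lp).mat (List.ofFn I.v)).getD j 0)) := by
  rw [toReal_spVals, ← ofQ_vertex, ofQ_spQLP]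
  exact (spIso (ofQ I.lp)).vertex.2 I.vertex

/-- the sparse input -/
def redI (I : Input) : Input :=
  ⟨_, _, spQLP I.lp, fun j => (spVals (ofQ I.lp).mat (List.ofFn I.v)).getD j 0,
    spVals_vertex I⟩

theorem redI_sparse (I : Input) : Sparse (redI I).lp.A := by
  have h := sp_sparse (ofQ I.lp)
  rw [← ofQ_spQLP] at h
  exact h

/-! ### Runs on the sparse input give runs on the input -/

section

variable {m n : ℕ} {D : QLP m n}

/-- the first coordinates -/
def keep (n T : ℕ) (w : Fin (n + T) → ℚ) : Fin n → ℚ :=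
  fun j => w (Fin.castLE (Nat.le_add_right _ _) j)

theorem spIso_castLE (D : RLP m n) (x : Fin n → ℝ) (j : Fin n) :
    (spIso D).φ x (Fin.castLE (Nat.le_add_right _ _) j) = x j :=
  phi_old x j

theorem vertex_back {w : Fin (n + spT (ofQ D).mat) → ℚ} (h : (spQLP D).Vertex (toReal w)) :
    D.Vertex (toReal (keep n _ w)) ∧ toReal w = (spIso (ofQ D)).φ (toReal (keep n _ w)) := by
  have h1 : (ofQ (spQLP D)).Vertex (toReal w) := h
  rw [ofQ_spQLP] at h1
  obtain ⟨x, hx, he⟩ := (spIso (ofQ D)).of_vertex h1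
  have h2 : x = toReal (keep n _ w) := by
    funext j
    rw [← spIso_castLE (ofQ D) x j, he]
    rfl
  rw [← h2]
  exact ⟨hx, he.symm⟩

theorem improving_back {w w' : Fin (n + spT (ofQ D).mat) → ℚ}
    (h : (spQLP D).Improving (toReal w) (toReal w')) :
    D.Improving (toReal (keep n _ w)) (toReal (keep n _ w')) := by
  obtain ⟨-, h1⟩ := vertex_back h.1.1
  obtain ⟨-, h2⟩ := vertex_back h.1.2.1
  have h3 : (ofQ (spQLP D)).Improving (toReal w) (toReal w') := h
  rw [ofQ_spQLP, h1, h2] at h3
  exact (spIso (ofQ D)).improving.1 h3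

theorem optimal_back {w : Fin (n + spT (ofQ D).mat) → ℚ}
    (h : (spQLP D).Vertex (toReal w)) (ho : (spQLP D).Optimal (toReal w)) :
    D.Optimal (toReal (keep n _ w)) := by
  obtain ⟨-, h1⟩ := vertex_back h
  have h3 : (ofQ (spQLP D)).Optimal (toReal w) := ho
  rw [ofQ_spQLP, h1] at h3
  exact (spIso (ofQ D)).optimal.1 h3

theorem unbounded_back {w : Fin (n + spT (ofQ D).mat) → ℚ}
    (h : (spQLP D).Unbounded (toReal w)) : D.Unbounded (toReal (keep n _ w)) := by
  obtain ⟨hv, h1⟩ := vertex_back h.1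
  have h3 := ((ofQ_unbounded (spQLP D) (toReal w)).1 h).2
  rw [ofQ_spQLP, h1] at h3
  obtain ⟨z, hz, hr⟩ := h3
  obtain ⟨z', rfl, hr'⟩ := (spIso (ofQ D)).of_ray hr
  rw [(spIso (ofQ D)).obj] at hz
  exact (ofQ_unbounded D _).2 ⟨hv, z', hz, hr'⟩

theorem keep_spVals (v : Fin n → ℚ) :
    keep n (spT (ofQ D).mat) (fun j => (spVals (ofQ D).mat (List.ofFn v)).getD j 0) = v := by
  funext j
  have h2 := congrFun (toReal_spVals D v) (Fin.castLE (Nat.le_add_right _ _) j)
  rw [spIso_castLE] at h2
  exact Rat.cast_injective h2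

end

/-- a run on the sparse input gives a run on the input: keep the first `n` coordinates -/
theorem run_of_redI {I : Input} {N : ℕ} {x : ℕ → Fin (redI I).n → ℚ} {s : Verdict}
    (h : SimplexRun (redI I) N x s) :
    SimplexRun I N (fun t => keep I.n (spT (ofQ I.lp).mat) (x t)) s where
  start := by
    rw [h.start]
    exact keep_spVals (D := I.lp) I.v
  pivot t ht := improving_back (D := I.lp) (h.pivot t ht)
  stop := by
    rcases h.stop with ⟨h1, h2, h3⟩ | ⟨h1, h2⟩
    · exact Or.inl ⟨h1, (vertex_back (D := I.lp) h2).1, optimal_back (D := I.lp) h2 h3⟩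
    · exact Or.inr ⟨h1, unbounded_back (D := I.lp) h2⟩

/-! ### Polynomial time -/

theorem run_abs_le {ins : ℕ → List ℕ} {T : ℕ} (hins : ∀ t, (ins t).length ≤ 2) {l : List ℤ}
    {B : ℕ} (hl : ∀ a ∈ l, |a| ≤ 2 ^ B) :
    ∀ a ∈ run List.sum 0 ins T l, |a| ≤ 2 ^ (B + T) := by
  induction T with
  | zero => simpa [run] using hl
  | succ T ih =>
    rw [run_succ]
    intro a ha
    rcases List.mem_append.1 ha with ha | ha
    · exact (ih a ha).trans (pow_le_pow_right₀ (by norm_num) (by omega))
    · rw [List.mem_singleton] at ha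
      subst ha
      have h1 : ∀ i, |(run List.sum 0 ins T l).getD i 0| ≤ 2 ^ (B + T) := by
        intro i
        by_cases hi : i < (run List.sum 0 ins T l).length
        · rw [List.getD_eq_getElem _ _ hi]
          exact ih _ (List.getElem_mem hi)
        · rw [List.getD_eq_default _ _ (by omega), abs_zero]
          positivity
      have h0 : (0 : ℤ) < 2 ^ (B + T) := by positivity
      have h2 := hins T
      have h3 : (2 : ℤ) ^ (B + (T + 1)) = 2 ^ (B + T) + 2 ^ (B + T) := by
        rw [← Nat.add_assoc, pow_succ]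
        ring
      rw [h3]
      rcases hT : ins T with _ | ⟨i, _ | ⟨j, _ | ⟨k, r⟩⟩⟩
      · rw [List.map_nil, List.sum_nil, abs_zero]
        linarith
      · rw [List.map_cons, List.map_nil, List.sum_cons, List.sum_nil, add_zero]
        linarith [h1 i]
      · rw [List.map_cons, List.map_cons, List.map_nil, List.sum_cons, List.sum_cons,
          List.sum_nil, add_zero]
        exact (abs_add_le _ _).trans (add_le_add (h1 i) (h1 j))
      · rw [hT] at h2
        simp at h2

theorem clr_map (v : List ℚ) :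
    (clr (denZ v) v).map (fun z : ℤ => (z : ℚ) / ((denZ v : ℤ) : ℚ)) = v := by
  unfold clr
  rw [List.map_map]
  have h : v.map ((fun z : ℤ => (z : ℚ) / ((denZ v : ℤ) : ℚ)) ∘
      fun q : ℚ => q.num * (denZ v / (q.den : ℤ))) = v.map id := by
    refine List.map_congr_left fun q hq => ?_
    have h1 := clr_val (den_dvd hq)
    have h2 : ((q.num * (denZ v / (q.den : ℤ)) : ℤ) : ℚ) = ((denZ v : ℤ) : ℚ) * q := by
      exact_mod_cast h1
    have h3 : ((denZ v : ℤ) : ℚ) ≠ 0 := by exact_mod_cast (denZ_pos v).ne'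
    show ((q.num * (denZ v / (q.den : ℤ)) : ℤ) : ℚ) / ((denZ v : ℤ) : ℚ) = q
    rw [h2]
    field_simp
  rw [h, List.map_id]

/-- division by `d` -/
def divA (d : ℤ) : ℤ →+ ℚ where
  toFun z := (z : ℚ) / (d : ℚ)
  map_zero' := by simp
  map_add' a b := by push_cast; ring

theorem spVals_eq (X : Mat) (v : List ℚ) : spVals X v =
    (run List.sum 0 (spIns X) (spT X) (clr (denZ v) v)).map
      (fun z : ℤ => (z : ℚ) / ((denZ v : ℤ) : ℚ)) := by
  have h := run_map (divA (denZ v)) (spIns X) (spT X) (clr (denZ v) v)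
  have h2 : (clr (denZ v) v).map (divA (denZ v)) = v := clr_map v
  rw [h2] at h
  exact h.symm

section

variable {α : Type*} [TEnc α]

theorem polyF_spVals {X : α → Mat} {v : α → List ℚ} (hX : PolyF X) (hv : PolyF v) :
    PolyF (fun a => spVals (X a) (v a)) := by
  have hd := PolyF.denZ hv
  have hc := PolyF.clr hd hv
  have hT := polyF_spT hX
  have hr : PolyF (fun a => run List.sum 0 (spIns (X a)) (spT (X a))
      (clr (denZ (v a)) (v a))) := by
    refine polyF_run (ins := fun a => spIns (X a)) (T := fun a => spT (X a))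
      (l := fun a => clr (denZ (v a)) (v a))
      (t := fun a => 2 * (sz (clr (denZ (v a)) (v a)) + spT (X a) + 1) + 2)
      (PolyF.intSum PolyF.id) (polyF_spIns (hX.comp PolyF.fst') PolyF.snd') hT hc ?_ ?_
    · exact ((PBd.const 2).mul ((hc.szFun.pbdNat.add hT.pbdNat).add (PBd.const 1))).add
        (PBd.const 2)
    · intro x k hk a ha
      refine sz_int_le_of_abs_lt ?_
      have h1 : ∀ a ∈ clr (denZ (v x)) (v x), |a| ≤ 2 ^ sz (clr (denZ (v x)) (v x)) := by
        intro a ha
        refine (abs_lt_two_pow_sz a).le.trans (pow_le_pow_right₀ (by norm_num) ?_)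
        have := sz_mem ha
        omega
      refine (run_abs_le (spIns_len (X x)) h1 a ha).trans_lt ?_
      exact pow_lt_pow_right₀ (by norm_num) (by omega)
  have hq : PolyF (fun p : α × ℤ => ((p.2 : ℤ) : ℚ) / ((denZ (v p.1) : ℤ) : ℚ)) :=
    PolyF.snd'.ratOfInt.ratDiv (hd.comp PolyF.fst').ratOfInt
  exact (hr.map (h := fun a (z : ℤ) => (z : ℚ) / ((denZ (v a) : ℤ) : ℚ)) hq).congr fun a =>
    (spVals_eq _ _).symm

end

/-! ### The data of the sparse input -/

theorem ofFn_extend {m k : ℕ} (f : Fin m → ℚ) :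
    List.ofFn (fun i : Fin (m + k) => if h : (i : ℕ) < m then f ⟨i, h⟩ else 0) =
      List.ofFn f ++ List.replicate k 0 := by
  apply List.ext_getElem
  · simp
  · intro i h1 h2
    rw [List.getElem_ofFn, List.getElem_append]
    simp only [List.length_ofFn]
    split_ifs with h3
    · rw [List.getElem_ofFn]
    · rw [List.getElem_replicate]

theorem ofFn_getD_self {N : ℕ} {v : List ℚ} (h : v.length = N) :
    List.ofFn (fun j : Fin N => v.getD j 0) = v := by
  apply List.ext_getElem
  · simp [h]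
  · intro i h1 h2
    rw [List.getElem_ofFn, List.getD_eq_getElem _ _ h2]

/-- the new right-hand sides -/
def spRhs (X : Mat) (b : List ℚ) : List ℚ :=
  List.zipWith (fun (r : List ℚ) (β : ℚ) => ((denZ r : ℤ) : ℚ) * β) X.2 b ++
    List.replicate (spT X + spT X) 0

theorem ofFn_rhs {m n : ℕ} (D : QLP m n) : List.ofFn (spQLP D).b =
    spRhs (ofQ D).mat (List.ofFn D.b) := by
  unfold spRhs spQLP
  dsimp only
  rw [ofFn_extend (fun i : Fin m => ((denZ (List.ofFn (D.A i)) : ℤ) : ℚ) * D.b i)]
  congr 1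
  rw [ofQ_mat]
  apply List.ext_getElem
  · simp
  · intro i h1 h2
    simp

theorem redI_data (I : Input) : (redI I).data =
    ((spM (ofQ I.lp).mat).1, (spM (ofQ I.lp).mat).2, spRhs (ofQ I.lp).mat I.data.2.2.1,
      I.data.2.2.2.1 ++ List.replicate (spT (ofQ I.lp).mat) 0,
      spVals (ofQ I.lp).mat I.data.2.2.2.2) := by
  have hm : (ofQ (spQLP I.lp)).mat = spM (ofQ I.lp).mat := by rw [ofQ_spQLP, sp_mat]
  have hv : List.ofFn (fun j : Fin (I.n + spT (ofQ I.lp).mat) =>
      (spVals (ofQ I.lp).mat (List.ofFn I.v)).getD j 0) =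
        spVals (ofQ I.lp).mat (List.ofFn I.v) := by
    apply ofFn_getD_self
    unfold spVals
    rw [length_run, List.length_ofFn]
  have hc : List.ofFn (spQLP I.lp).c = List.ofFn I.lp.c ++ List.replicate (spT (ofQ I.lp).mat) 0 :=
    ofFn_extend _
  have hb := ofFn_rhs I.lp
  rw [← hm]
  show (_, _, List.ofFn (spQLP I.lp).b, List.ofFn (spQLP I.lp).c,
    List.ofFn (fun j : Fin (I.n + spT (ofQ I.lp).mat) =>
      (spVals (ofQ I.lp).mat (List.ofFn I.v)).getD j 0)) = _
  rw [hb, hc, hv]
  rfl

theorem polyF_redI : PolyF redI := by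
  have hX := polyF_mat
  have hM := polyF_spM hX
  have hT := polyF_spT hX
  have hD := polyF_data
  have hrhs : PolyF (fun I : Input => spRhs (ofQ I.lp).mat I.data.2.2.1) := by
    have h1 : PolyF (fun p : Input × List ℚ × ℚ => ((denZ p.2.1 : ℤ) : ℚ) * p.2.2) :=
      (PolyF.denZ PolyF.snd'.fst).ratOfInt.ratMul PolyF.snd'.snd
    have h2 : PolyF (fun I : Input => List.zipWith
        (fun (r : List ℚ) (β : ℚ) => ((denZ r : ℤ) : ℚ) * β) (ofQ I.lp).mat.2 I.data.2.2.1) :=
      PolyF.zipWith (h := fun (_ : Input) (r : List ℚ) (β : ℚ) => ((denZ r : ℤ) : ℚ) * β) hX.snd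
        hD.snd.snd.fst h1
    have h3 : PolyF (fun I : Input => List.replicate (spT (ofQ I.lp).mat + spT (ofQ I.lp).mat)
        (0 : ℚ)) := PolyF.replicate (hT.natAdd hT) (PolyF.const 0)
    exact h2.append h3
  have hdata : PolyF (fun I : Input => (redI I).data) :=
    (hM.fst.pair (hM.snd.pair (hrhs.pair ((hD.snd.snd.snd.fst.append
      (PolyF.replicate hT (PolyF.const 0))).pair (polyF_spVals hX hD.snd.snd.snd.snd))))).congr
        fun I => (redI_data I).symm
  exact hdata.of_enc (fun x => x) (fun _ => rfl) fun _ => rfl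

/-! ### Question 1 -/

/-- sparse inputs -/
abbrev SpInput : Type := {I : Input // Sparse I.lp.A}

instance : TEnc SpInput := ⟨fun I => enc I.1⟩

/-- keep the first coordinates of the reports -/
def keepR (n : ℕ) (l : List (List ℚ × Verdict)) : List (List ℚ × Verdict) :=
  l.map fun r => (r.1.take n, r.2)

theorem ofFn_keep {n T : ℕ} (w : Fin (n + T) → ℚ) : List.ofFn (keep n T w) =
    (List.ofFn w).take n := by
  apply List.ext_getElem
  · simp
  · intro i h1 h2
    rw [List.getElem_ofFn, List.getElem_take, List.getElem_ofFn]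
    rfl

theorem protocol_keep {n T : ℕ} (N : ℕ) (x : ℕ → Fin (n + T) → ℚ) (s : Verdict) :
    protocol N (fun t => keep n T (x t)) s = keepR n (protocol N x s) := by
  unfold protocol keepR
  rw [List.map_map]
  refine List.map_congr_left fun t _ => ?_
  show (List.ofFn (keep n T (x t)), _) = ((List.ofFn (x t)).take n, _)
  rw [ofFn_keep]
  rfl

theorem polyF_keepR {α : Type*} [TEnc α] {n : α → ℕ} {l : α → List (List ℚ × Verdict)}
    (hn : PolyF n) (hl : PolyF l) : PolyF (fun a => keepR (n a) (l a)) :=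
  hl.map (h := fun a (r : List ℚ × Verdict) => (r.1.take (n a), r.2))
    (((hn.comp PolyF.fst').take PolyF.snd'.fst).pair PolyF.snd'.snd)

/-- **Question 1 for sparse matrices implies Question 1.** -/
theorem polySimplex_of_sparse (h : SparseSimplex) : PolySimplex := by
  obtain ⟨N, x, s, hrun, hM⟩ := h
  have h1 : PolyF (fun I : SpInput => protocol (N I.1) (x I.1) (s I.1)) := polyF_of_tm2 hM
  have h2 : PolyF (fun I : Input => (⟨redI I, redI_sparse I⟩ : SpInput)) :=
    polyF_redI.of_enc (fun x => x) (fun _ => rfl) fun _ => rfl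
  have h3 : PolyF (fun I : Input => protocol (N (redI I)) (x (redI I)) (s (redI I))) :=
    h1.comp h2
  have h4 : PolyF (fun I : Input => protocol (N (redI I))
      (fun t => keep I.n (spT (ofQ I.lp).mat) (x (redI I) t)) (s (redI I))) :=
    (polyF_keepR polyF_data.fst h3).congr fun I =>
      (protocol_keep (n := I.n) (T := spT (ofQ I.lp).mat) _ _ _).symm
  exact ⟨fun I => N (redI I), fun I t => keep I.n (spT (ofQ I.lp).mat) (x (redI I) t),
    fun I => s (redI I), fun I => run_of_redI (hrun _ (redI_sparse I)), h4.tm2_word⟩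

theorem sparse_of_polySimplex (h : PolySimplex) : SparseSimplex := by
  obtain ⟨N, x, s, hrun, ⟨M⟩⟩ := h
  exact ⟨N, x, s, fun I _ => hrun I, ⟨⟨M.toTM2ComputableAux, M.time, fun I => M.outputsFun I.1⟩⟩⟩

end Pool.Agent.Simplex.EB
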