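import Pool.Agent.Lib.MP_4d246d_lc.EB.Final
import Pool.Agent.Lib.MP_4d246d_lc.EB.SpRed

/-!
# The theorem for sparse matrices: the assembly
-/

namespace Pool.Agent.Simplex.EB

open QP Pool.Agent.Lib.PolyTime Turing

/-- **Question 1 is equivalent to each of: Question 1 for the programs whose matrix has entries
`0`, `1`, `-1` and at most three nonzero entries per row; a blind rule with a number of answers
polynomial in the dimensions for these programs; a blind rule with a number of answers polynomial
in the size of the matrix for all programs. A quasi-polynomial blind rule exists.** -/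
theorem result_EB2 :
    (PolySimplex ↔ SparseSimplex) ∧ (PolySimplex ↔ SparseBlind) ∧ (PolySimplex ↔ PolyBlind) ∧
      (PolySimplex ↔ StrongSimplex) ∧
      ∃ (ρ : BlindRule) (P : Polynomial ℕ), ρ.Poly ∧ ∀ (m n : ℕ) (D : RLP m n), Solves ρ D
        (P.eval D.size * pivotBound (min n (m + 2)) (min (m + n + 1) (2 * m + 3))) :=
  ⟨⟨sparse_of_polySimplex, polySimplex_of_sparse⟩,
    ⟨fun h => sparseBlind_of_polyBlind h.blind,
      fun h => (polyBlind_of_sparseBlind h).strong.poly⟩,
    result_EB.1, result_EB.2.1, result_EB.2.2⟩

end Pool.Agent.Simplex.EB
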