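import Pool.Agent.Lib.MP_4d246d_lc.EB.Opt2
import Pool.Agent.Lib.MP_4d246d_lc.EB.Fin2

/-!
# One optimal blind rule: the assembly
-/

namespace Pool.Agent.Simplex.EB

open Pool.Agent.Lib.PolyTime Pool.Agent.Simplex.QP Turing

/-- `U` is, up to a polynomial, at least as good as every blind rule computed in polynomial time,
on every program. -/
def Optimal (U : BlindRule) : Prop :=
  ∀ ρ : BlindRule, ρ.Poly → ∃ Q : Polynomial ℕ, ∀ (m n : ℕ) (D : RLP m n) (B : ℕ),
    Solves ρ D B → Solves U D (Q.eval (D.size + B))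

/-- **There is an optimal blind rule, with a quasi-polynomial number of answers.** -/
theorem exists_optimal : ∃ U : BlindRule, U.Poly ∧ Optimal U ∧
    ∃ P : Polynomial ℕ, ∀ (m n : ℕ) (D : RLP m n), Solves U D
      (P.eval D.size * pivotBound (min n (m + 2)) (min (m + n + 1) (2 * m + 3))) := by
  obtain ⟨ρ, P, hρ, hP⟩ := exists_quasi
  refine ⟨optRule ρ, (polyF_optRule (polyF_of_tm2 hρ)).tm2_word,
    fun ρ' hρ' => solves_optRule ρ hρ', 6 * P + 3, fun m n D => ?_⟩
  refine (solves_optRule_self (hP m n D)).mono ?_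
  have h1 := pivotBound_pos (min n (m + 2)) (min (m + n + 1) (2 * m + 3))
  simp only [Polynomial.eval_add, Polynomial.eval_mul, Polynomial.eval_ofNat]
  nlinarith

/-- an optimal rule is at least as good as every version of the simplex method with polynomial
time and memory per pivot -/
theorem Optimal.engine {U : BlindRule} (hU : Optimal U) (W : Engine) : ∃ Q : Polynomial ℕ,
    ∀ (m n : ℕ) (D : RLP m n) (K : ℕ), W.Bound (plusM D.mat) (Q.eval D.size) K →
      Solves U D (Q.eval (D.size + K)) := by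
  obtain ⟨ρ, P, hρ, hP⟩ := blind_of_engine W
  obtain ⟨Q, hQ⟩ := hU ρ hρ.tm2_word
  refine ⟨P + Q.comp (Polynomial.X + P * (Polynomial.X + 1)), fun m n D K hK => ?_⟩
  have h1 : W.Bound (plusM D.mat) (P.eval D.size) K := by
    intro I hI hsz
    refine hK I hI (hsz.trans ?_)
    rw [Polynomial.eval_add]
    exact Nat.le_add_right _ _
  refine (hQ m n D _ (hP m n D K h1)).mono ?_
  rw [Polynomial.eval_add, Polynomial.eval_comp]
  refine le_trans (peval_mono Q ?_) (Nat.le_add_left _ _)
  simp only [Polynomial.eval_add, Polynomial.eval_mul, Polynomial.eval_X, Polynomial.eval_one]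
  have h2 : P.eval D.size ≤ P.eval (D.size + K) := peval_mono P (Nat.le_add_right _ _)
  have h3 : P.eval D.size * (K + 1) ≤ P.eval (D.size + K) * (D.size + K + 1) :=
    Nat.mul_le_mul h2 (by omega)
  omega

/-- **Question 1 is the question whether one explicit rule is polynomial.** -/
theorem Optimal.poly_iff {U : BlindRule} (hU : Optimal U) (hp : U.Poly) :
    PolySimplex ↔ ∃ P : Polynomial ℕ, ∀ (m n : ℕ) (D : RLP m n), Solves U D (P.eval D.size) := by
  constructor
  · intro h
    obtain ⟨ρ, P, hρ, hP⟩ := h.blind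
    obtain ⟨Q, hQ⟩ := hU ρ hρ
    refine ⟨Q.comp (Polynomial.X + P), fun m n D => ?_⟩
    refine (hQ m n D _ (hP m n D)).mono (le_of_eq ?_)
    simp only [Polynomial.eval_comp, Polynomial.eval_add, Polynomial.eval_X]
  · rintro ⟨P, hP⟩
    exact result_EB.1.2 ⟨U, P, hp, hP⟩

/-- the same on the programs with a sparse matrix, with a bound in the dimensions alone -/
theorem Optimal.sparse_iff {U : BlindRule} (hU : Optimal U) (hp : U.Poly) :
    PolySimplex ↔ ∃ P : Polynomial ℕ, ∀ (m n : ℕ) (D : RLP m n), Sparse D.A →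
      Solves U D (P.eval (m + n)) := by
  constructor
  · intro h
    obtain ⟨P, hP⟩ := (hU.poly_iff hp).1 h
    obtain ⟨R, hR⟩ := size_sparse
    refine ⟨P.comp R, fun m n D hD => (hP m n D).mono ?_⟩
    rw [Polynomial.eval_comp]
    exact peval_mono P (hR m n D hD)
  · rintro ⟨P, hP⟩
    exact result_EB2.2.1.2 ⟨U, P, hp, hP⟩

end Pool.Agent.Simplex.EB
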