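import Pool.Agent.Lib.MP_4d246d_lc.EB.SpDefs

/-!
# The sparse form is computed in polynomial time
-/

namespace Pool.Agent.Simplex.EB

open Pool.Agent.Lib.PolyTime Pool.Agent.Simplex.QP

section

variable {α : Type*} [TEnc α]

theorem polyF_nbits {X : α → Mat} (hX : PolyF X) : PolyF (fun a => nbits (X a)) :=
  (hX.snd.map (h := fun _ (r : List ℚ) => clr (denZ r) r)
    (PolyF.clr (PolyF.denZ PolyF.snd') PolyF.snd')).szFun

theorem polyF_blen {X : α → Mat} (hX : PolyF X) : PolyF (fun a => blen (X a)) :=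
  (PolyF.const 1).natAdd ((polyF_nbits hX).natMul (hX.fst.natAdd (PolyF.const 2)))

theorem polyF_spT {X : α → Mat} (hX : PolyF X) : PolyF (fun a => spT (X a)) :=
  ((PolyF.const 2).natMul hX.snd.length).natMul (polyF_blen hX)

theorem polyF_irow {X : α → Mat} {i : α → ℕ} (hX : PolyF X) (hi : PolyF i) :
    PolyF (fun a => irow (X a) (i a)) :=
  PolyF.clr (PolyF.denZ (hX.snd.getDL hi (PolyF.const []))) (hX.snd.getDL hi (PolyF.const []))

theorem polyF_part {s : α → ℕ} {z : α → ℤ} (hs : PolyF s) (hz : PolyF z) :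
    PolyF (fun a => part (s a) (z a)) :=
  PolyF.ite (hs.natEq (PolyF.const 0)) (hz.intMax (PolyF.const 0))
    (hz.intNeg.intMax (PolyF.const 0))

theorem polyF_bitOn {X : α → Mat} {r k j : α → ℕ} (hX : PolyF X) (hr : PolyF r) (hk : PolyF k)
    (hj : PolyF j) : PolyF (fun a => decide (bitOn (X a) (r a) (k a) (j a))) :=
  (((polyF_part (hr.natMod (PolyF.const 2)) ((polyF_irow hX (hr.natDiv (PolyF.const 2))).getDL hj
    (PolyF.const 0))).intEdiv hk.intTwoPow).intEmod (PolyF.const 2)).intEq (PolyF.const 1)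

theorem polyF_spIns {X : α → Mat} {t : α → ℕ} (hX : PolyF X) (ht : PolyF t) :
    PolyF (fun a => spIns (X a) (t a)) := by
  have hb := polyF_blen hX
  have hu : PolyF (fun a => t a % blen (X a)) := ht.natMod hb
  have hw : PolyF (fun a => X a |>.1 + 2) := hX.fst.natAdd (PolyF.const 2)
  have hv : PolyF (fun a => (t a % blen (X a) - 1) % ((X a).1 + 2)) :=
    (hu.natSub (PolyF.const 1)).natMod hw
  have hl : PolyF (fun a => (X a).1 + t a - 1) := (hX.fst.natAdd ht).natSub (PolyF.const 1)
  have hl2 : PolyF (fun a => (X a).1 + t a - 2) := (hX.fst.natAdd ht).natSub (PolyF.const 2)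
  have hj : PolyF (fun a => (t a % blen (X a) - 1) % ((X a).1 + 2) - 2) :=
    hv.natSub (PolyF.const 2)
  have hk : PolyF (fun a => nbits (X a) - 1 - (t a % blen (X a) - 1) / ((X a).1 + 2)) :=
    ((polyF_nbits hX).natSub (PolyF.const 1)).natSub ((hu.natSub (PolyF.const 1)).natDiv hw)
  exact PolyF.ite (hu.natEq (PolyF.const 0)) (PolyF.const []) (PolyF.ite
    (hv.natEq (PolyF.const 0)) (PolyF.singleton hl) (PolyF.ite (hv.natEq (PolyF.const 1))
      (hl2.cons (PolyF.singleton hl)) (PolyF.ite (polyF_bitOn hX (ht.natDiv hb) hk hj)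
        (hl.cons (PolyF.singleton hj)) (PolyF.singleton hl))))

theorem polyF_spP {X : α → Mat} {i : α → ℕ} (hX : PolyF X) (hi : PolyF i) :
    PolyF (fun a => spP (X a) (i a)) :=
  (hX.fst.natAdd ((((PolyF.const 2).natMul hi).natAdd (PolyF.const 1)).natMul
    (polyF_blen hX))).natSub (PolyF.const 1)

theorem polyF_spQ {X : α → Mat} {i : α → ℕ} (hX : PolyF X) (hi : PolyF i) :
    PolyF (fun a => spQ (X a) (i a)) :=
  (hX.fst.natAdd ((((PolyF.const 2).natMul hi).natAdd (PolyF.const 2)).natMul
    (polyF_blen hX))).natSub (PolyF.const 1)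

theorem polyF_ind {p : α → Prop} [DecidablePred p] (hp : PolyF (fun a => decide (p a))) :
    PolyF (fun a => if p a then (1 : ℚ) else 0) :=
  PolyF.ite hp (PolyF.const 1) (PolyF.const 0)

theorem polyF_ent {X : α → Mat} {m n T i j : α → ℕ} (hX : PolyF X) (hm : PolyF m) (hn : PolyF n)
    (hT : PolyF T) (hi : PolyF i) (hj : PolyF j) :
    PolyF (fun a => ent (m a) (n a) (T a) (spIns (X a)) (spP (X a)) (spQ (X a)) (i a) (j a)) := by
  have him : PolyF (fun a => i a - m a) := hi.natSub hm
  have himT : PolyF (fun a => i a - m a - T a) := him.natSub hT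
  exact PolyF.ite (hi.natLt hm)
    ((polyF_ind (hj.natEq (polyF_spP hX hi))).ratSub (polyF_ind (hj.natEq (polyF_spQ hX hi))))
    (PolyF.ite (hi.natLt (hm.natAdd hT))
      ((polyF_ind (hj.natEq (hn.natAdd him))).ratSub (polyF_ind (hj.mem (polyF_spIns hX him))))
      ((polyF_ind (hj.mem (polyF_spIns hX himT))).ratSub
        (polyF_ind (hj.natEq (hn.natAdd himT)))))

theorem polyF_spM {X : α → Mat} (hX : PolyF X) : PolyF (fun a => spM (X a)) := by
  have hT := polyF_spT hX
  refine (hX.fst.natAdd hT).pair ((hX.snd.length.natAdd (hT.natAdd hT)).range.map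
    (h := fun a i => (List.range ((X a).1 + spT (X a))).map (fun j =>
      ent (X a).2.length (X a).1 (spT (X a)) (spIns (X a)) (spP (X a)) (spQ (X a)) i j)) ?_)
  have hX1 : PolyF (fun p : α × ℕ => X p.1) := hX.comp PolyF.fst'
  refine (hX1.fst.natAdd (polyF_spT hX1)).range.map (h := fun (p : α × ℕ) j =>
      ent (X p.1).2.length (X p.1).1 (spT (X p.1)) (spIns (X p.1)) (spP (X p.1)) (spQ (X p.1))
        p.2 j) ?_
  have hX2 : PolyF (fun p : (α × ℕ) × ℕ => X p.1.1) := hX1.comp PolyF.fst'
  exact polyF_ent hX2 hX2.snd.length hX2.fst (polyF_spT hX2) (PolyF.snd'.comp PolyF.fst')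
    PolyF.snd'

/-- the evaluation of the definitions is polynomial if the sizes of the values are -/
theorem polyF_run {M : Type*} [TEnc M] {comb : List M → M} {d : M} {ins : α → ℕ → List ℕ}
    {T : α → ℕ} {l : α → List M} (hc : PolyF comb)
    (hi : PolyF (fun p : α × ℕ => ins p.1 p.2)) (hT : PolyF T) (hl : PolyF l) {t : α → ℕ}
    (ht : PBd t) (hb : ∀ x, ∀ k ≤ T x, ∀ a ∈ run comb d (ins x) k (l x), sz a ≤ t x) :
    PolyF (fun x => run comb d (ins x) (T x) (l x)) := by
  refine PolyF.foldl' (l := fun x => List.range (T x)) (i := l)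
    (f := fun x l t => l ++ [comb ((ins x t).map (fun a => l.getD a d))]) hT.range hl ?_
    (fun x => (t x + 1) * ((l x).length + T x)) ?_ ?_
  · have hins : PolyF (fun p : α × List M × ℕ => ins p.1 p.2.2) :=
      hi.comp (PolyF.fst'.pair PolyF.snd'.snd)
    have hmap : PolyF (fun p : α × List M × ℕ =>
        (ins p.1 p.2.2).map (fun a => p.2.1.getD a d)) :=
      hins.map (h := fun (p : α × List M × ℕ) a => p.2.1.getD a d)
        ((PolyF.snd'.fst.comp PolyF.fst').getDL PolyF.snd' (PolyF.const d))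
    exact PolyF.snd'.fst.append (PolyF.singleton (hc.comp hmap))
  · exact (ht.add (PBd.const 1)).mul (hl.length.pbdNat.add hT.pbdNat)
  · intro x k hk
    rw [List.length_range] at hk
    have h1 : (List.range (T x)).take k = List.range k := by
      rw [List.take_range, min_eq_left hk]
    rw [h1]
    have h2 := sz_le_of_forall (l := run comb d (ins x) k (l x)) (hb x k hk)
    rw [length_run] at h2
    refine (show _ ≤ _ from h2).trans ?_
    exact Nat.mul_le_mul_left _ (by omega)

theorem polyF_spF {X : α → Mat} {S : α → List Bool} (hX : PolyF X) (hS : PolyF S) :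
    PolyF (fun a => spF (X a) (S a)) := by
  have hT := polyF_spT hX
  refine (PolyF.take hX.snd.length hS).append ((PolyF.replicate (hT.natAdd hT)
    (PolyF.const true)).append ?_)
  refine polyF_run (comb := fun l => l.all (fun b => b)) (ins := fun a => spIns (X a))
    (t := fun _ => 1) (PolyF.all (l := fun l : List Bool => l) (p := fun _ b => b) PolyF.id
      PolyF.snd') (polyF_spIns (hX.comp PolyF.fst') PolyF.snd') hT
      (PolyF.drop hX.snd.length hS) (PBd.const 1) fun x k _ a _ => sz_bool_le a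

theorem polyF_spG {X : α → Mat} {S : α → List Bool} (hX : PolyF X) (hS : PolyF S) :
    PolyF (fun a => spG (X a) (S a)) := by
  have hT := polyF_spT hX
  exact (PolyF.take hX.snd.length hS).append (PolyF.take hX.fst
    (PolyF.drop (hX.snd.length.natAdd (hT.natAdd hT)) hS))

theorem run_map_sum {M N : Type*} [AddCommMonoid M] [AddCommMonoid N] (f : M →+ N)
    (ins : ℕ → List ℕ) (l : List M) (T : ℕ) :
    run List.sum 0 ins T (l.map f) = (run List.sum 0 ins T l).map f := by
  induction T with
  | zero => rfl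
  | succ T ih =>
    rw [run_succ, run_succ, ih, List.map_append, List.map_singleton, map_list_sum, List.map_map]
    congr 3
    refine List.map_congr_left fun a _ => ?_
    have h := List.getD_map (l := run List.sum 0 ins T l) (d := (0 : M)) (n := a) f
    rw [map_zero] at h
    exact h

theorem spIns_len (X : Mat) (t : ℕ) : (spIns X t).length ≤ 2 := by
  unfold spIns
  split_ifs <;> simp

theorem abs_run_lt {ins : ℕ → List ℕ} (h2 : ∀ t, (ins t).length ≤ 2) {l : List ℤ} {k : ℕ}
    (hl : ∀ a ∈ l, |a| < 2 ^ k) (T : ℕ) : ∀ a ∈ run List.sum 0 ins T l, |a| < 2 ^ (k + T) := by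
  induction T with
  | zero => exact hl
  | succ T ih =>
    intro a ha
    have hp : (0 : ℤ) < 2 ^ (k + T) := by positivity
    have he : (2 : ℤ) ^ (k + (T + 1)) = 2 ^ (k + T) + 2 ^ (k + T) := by
      rw [← Nat.add_assoc, pow_succ]; ring
    rw [run_succ, List.mem_append] at ha
    rcases ha with ha | ha
    · have := ih a ha
      rw [he]
      linarith
    · rw [List.mem_singleton] at ha
      have hg : ∀ j, |(run List.sum 0 ins T l).getD j 0| < 2 ^ (k + T) := by
        intro j
        rcases lt_or_ge j (run List.sum 0 ins T l).length with hj | hj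
        · rw [List.getD_eq_getElem _ _ hj]
          exact ih _ (List.getElem_mem hj)
        · rw [List.getD_eq_default _ _ hj]
          simp
      rw [ha, he]
      have h3 := h2 T
      match hI : ins T with
      | [] => simp
      | [i] =>
        simp only [List.map_cons, List.map_nil, List.sum_cons, List.sum_nil, add_zero]
        have := hg i
        linarith
      | [i, j] =>
        simp only [List.map_cons, List.map_nil, List.sum_cons, List.sum_nil, add_zero]
        exact (abs_add_le _ _).trans_lt (add_lt_add (hg i) (hg j))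
      | i :: j :: r :: w =>
        rw [hI] at h3
        simp at h3

/-- evaluation over the integers -/
theorem polyF_runZ {X : α → Mat} {v : α → List ℤ} (hX : PolyF X) (hv : PolyF v) :
    PolyF (fun a => run List.sum 0 (spIns (X a)) (spT (X a)) (v a)) := by
  have hT := polyF_spT hX
  refine polyF_run (comb := List.sum) (ins := fun a => spIns (X a))
    (t := fun a => 2 * (sz (v a) + spT (X a)) + 2) (PolyF.intSum PolyF.id)
    (polyF_spIns (hX.comp PolyF.fst') PolyF.snd') hT hv
    (((PBd.const 2).mul (hv.pbd.add hT.pbdNat)).add (PBd.const 2)) fun x k hk a ha => ?_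
  refine sz_int_le_of_abs_lt ((abs_run_lt (spIns_len (X x)) (k := sz (v x)) (fun b hb => ?_) k a
    ha).trans_le (pow_le_pow_right₀ (by norm_num) (by omega)))
  refine (abs_lt_two_pow_sz b).trans_le (pow_le_pow_right₀ (by norm_num) ?_)
  have := sz_mem hb
  omega

theorem runSum_eq (ins : ℕ → List ℕ) (T : ℕ) (v : List ℚ) : run List.sum 0 ins T v =
    (run List.sum 0 ins T (clr (denZ v) v)).map (fun a : ℤ => (a : ℚ) / ((denZ v : ℤ) : ℚ)) := by
  have h := run_map_sum ((AddMonoidHom.mulRight ((((denZ v : ℤ) : ℚ))⁻¹)).comp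
    (Int.castAddHom ℚ)) ins (clr (denZ v) v) T
  have h1 : (clr (denZ v) v).map ((AddMonoidHom.mulRight ((((denZ v : ℤ) : ℚ))⁻¹)).comp
      (Int.castAddHom ℚ)) = v := by
    unfold clr
    rw [List.map_map]
    conv_rhs => rw [← List.map_id v]
    refine List.map_congr_left fun q hq => ?_
    have hd : ((denZ v : ℤ) : ℚ) ≠ 0 := by exact_mod_cast (denZ_pos v).ne'
    have hdv := den_dvd hq
    obtain ⟨e, he⟩ := hdv
    have hq0 : (q.den : ℤ) ≠ 0 := by exact_mod_cast q.den_nz
    have h2 : (denZ v) / (q.den : ℤ) = e := by rw [he]; exact Int.mul_ediv_cancel_left _ hq0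
    simp only [Function.comp_apply, AddMonoidHom.coe_comp, AddMonoidHom.coe_mulRight,
      Int.coe_castAddHom, id]
    rw [h2]
    have h3 : ((denZ v : ℤ) : ℚ) = (q.den : ℚ) * (e : ℚ) := by rw [he]; push_cast; ring
    have h4 : q * (q.den : ℚ) = q.num := Rat.mul_den_eq_num q
    rw [← div_eq_mul_inv, div_eq_iff hd, h3]
    push_cast
    rw [← h4]
    ring
  rw [h1] at h
  rw [h]
  refine List.map_congr_left fun a _ => ?_
  simp [div_eq_mul_inv]

/-- evaluation over the rationals -/
theorem polyF_runQ {X : α → Mat} {v : α → List ℚ} (hX : PolyF X) (hv : PolyF v) :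
    PolyF (fun a => run List.sum 0 (spIns (X a)) (spT (X a)) (v a)) := by
  refine ((polyF_runZ hX (PolyF.clr (PolyF.denZ hv) hv)).map
    (h := fun x (a : ℤ) => (a : ℚ) / ((denZ (v x) : ℤ) : ℚ))
    ((PolyF.ratOfInt PolyF.snd').ratDiv (PolyF.ratOfInt (PolyF.denZ (hv.comp PolyF.fst'))))).congr
    fun x => ?_
  exact (runSum_eq _ _ _).symm

end

/-- the dimensions of the sparse program are polynomial -/
theorem sp_dims : ∃ P : Polynomial ℕ, ∀ (m n : ℕ) (D : RLP m n),
    m + (spT D.mat + spT D.mat) + (n + spT D.mat) ≤ P.eval D.size := by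
  have hX : PolyF (fun X : Mat => X) := PolyF.id
  have hT := polyF_spT hX
  obtain ⟨P, hP⟩ := ((hX.snd.length.natAdd (hT.natAdd hT)).natAdd (hX.fst.natAdd hT)).bound
  refine ⟨P, fun m n D => ?_⟩
  have h := hP D.mat
  rw [sz_nat] at h
  have hlen : D.mat.2.length = m := by simp [RLP.mat]
  have hfst : D.mat.1 = n := rfl
  rw [hlen, hfst] at h
  have hs : D.size = 2 * sz D.mat + 1 := length_wd _ _ _
  exact h.trans (peval_mono P (by omega))

end Pool.Agent.Simplex.EB
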