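import Pool.Agent.Lib.MP_4d246d_lc.EB.SlimDef
import Pool.Agent.Lib.MP_4d246d_lc.EB.SpPoly

/-!
# The transportation program is computed in polynomial time
-/

namespace Pool.Agent.Simplex.EB

open Pool.Agent.Lib.PolyTime Pool.Agent.Simplex.QP

section

variable {α : Type*} [TEnc α]

theorem polyF_slR {X : α → Mat} (hX : PolyF X) : PolyF (fun a => slR (X a)) :=
  (hX.fst.natAdd hX.snd.length).natMul hX.snd.length

theorem polyF_slr {X : α → Mat} (hX : PolyF X) : PolyF (fun a => slr (X a)) :=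
  (PolyF.const 2).natMul (polyF_slR hX)

theorem polyF_slc {X : α → Mat} (hX : PolyF X) : PolyF (fun a => slc (X a)) :=
  (hX.snd.length.natAdd (PolyF.const 1)).natAdd ((polyF_slR hX).natAdd (polyF_slR hX))

theorem polyF_lines {r c : α → ℕ} (hr : PolyF r) (hc : PolyF c) :
    PolyF (fun a => lines (r a) (c a)) :=
  ((hr.natMul hc).natAdd ((PolyF.const 3).natMul hc)).natAdd ((PolyF.const 3).natMul hr)

theorem polyF_cof {X : α → Mat} {s v : α → ℕ} (hX : PolyF X) (hs : PolyF s) (hv : PolyF v) :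
    PolyF (fun a => cof (X a) (s a) (v a)) :=
  PolyF.ite (hv.natLt hX.fst) ((hX.snd.getDL hs (PolyF.const [])).getDL hv (PolyF.const 0))
    (polyF_ind (hv.natEq (hX.fst.natAdd hs)))

theorem polyF_cV {X : α → Mat} {e : α → ℕ} (hX : PolyF X) (he : PolyF e) :
    PolyF (fun a => cV (X a) (e a)) :=
  (he.natDiv (PolyF.const 2)).natDiv hX.snd.length

theorem polyF_cS {X : α → Mat} {e : α → ℕ} (hX : PolyF X) (he : PolyF e) :
    PolyF (fun a => cS (X a) (e a)) :=
  (he.natDiv (PolyF.const 2)).natMod hX.snd.length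

theorem polyF_hgt {X : α → Mat} {e : α → ℕ} (hX : PolyF X) (he : PolyF e) :
    PolyF (fun a => hgt (X a) (e a)) := by
  have h2 : PolyF (fun a => e a % 2) := he.natMod (PolyF.const 2)
  have hc : PolyF (fun a => cof (X a) (cS (X a) (e a)) (cV (X a) (e a))) :=
    polyF_cof hX (polyF_cS hX he) (polyF_cV hX he)
  exact PolyF.ite (((h2.natEq (PolyF.const 0)).decide_and (hc.eq (PolyF.const 1))).decide_or
    ((h2.natEq (PolyF.const 1)).decide_and (hc.eq (PolyF.const (-1))))) (polyF_cS hX he)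
    hX.snd.length

theorem polyF_colc {X : α → Mat} {e : α → ℕ} (hX : PolyF X) (he : PolyF e) :
    PolyF (fun a => colc (X a) (e a)) :=
  PolyF.ite ((he.natMod (PolyF.const 2)).natEq (PolyF.const 1)) (he.natDiv (PolyF.const 2))
    (((polyF_cV hX he).natMul hX.snd.length).natAdd (((polyF_cS hX he).natAdd
      (hX.snd.length.natSub (PolyF.const 1))).natMod hX.snd.length))

theorem polyF_kind {X : α → Mat} {e J K : α → ℕ} (hX : PolyF X) (he : PolyF e) (hJ : PolyF J)
    (hK : PolyF K) : PolyF (fun a => kind (X a) (e a) (J a) (K a)) := by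
  have h3 : ∀ p q r : ℕ, PolyF (fun a => if K a = 0 then p else if K a = 1 then q else r) :=
    fun p q r => PolyF.ite (hK.natEq (PolyF.const 0)) (PolyF.const p)
      (PolyF.ite (hK.natEq (PolyF.const 1)) (PolyF.const q) (PolyF.const r))
  have hm : PolyF (fun a => (X a).2.length + 1) := hX.snd.length.natAdd (PolyF.const 1)
  exact PolyF.ite (hJ.natEq (polyF_hgt hX he)) (h3 1 2 0)
    (PolyF.ite (hJ.natEq (hm.natAdd (he.natDiv (PolyF.const 2)))) (h3 2 0 1)
      (PolyF.ite (hJ.natEq (hm.natAdd ((polyF_slR hX).natAdd (polyF_colc hX he)))) (h3 0 1 2)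
        (PolyF.const 0)))

theorem polyF_tk {X : α → Mat} {q : α → ℕ} (hX : PolyF X) (hq : PolyF q) :
    PolyF (fun a => tk (X a) (q a)) := by
  have h3 : PolyF (fun a => q a / 3) := hq.natDiv (PolyF.const 3)
  have he : PolyF (fun a => q a / 3 / slc (X a)) := h3.natDiv (polyF_slc hX)
  have hk : PolyF (fun a => kind (X a) (q a / 3 / slc (X a)) (q a / 3 % slc (X a)) (q a % 3)) :=
    polyF_kind hX he (h3.natMod (polyF_slc hX)) (hq.natMod (PolyF.const 3))
  exact PolyF.ite ((he.natMod (PolyF.const 2)).natEq (PolyF.const 0)) hk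
    (((PolyF.const 3).natSub hk).natMod (PolyF.const 3))

theorem polyF_ix {c e J K : α → ℕ} (hc : PolyF c) (he : PolyF e) (hJ : PolyF J) (hK : PolyF K) :
    PolyF (fun a => ix (c a) (e a) (J a) (K a)) :=
  ((PolyF.const 3).natMul ((he.natMul hc).natAdd hJ)).natAdd hK

theorem polyF_slp0 {X : α → Mat} {v : α → ℕ} (hX : PolyF X) (hv : PolyF v) :
    PolyF (fun a => slp0 (X a) (v a)) := by
  have hvm : PolyF (fun a => v a * (X a).2.length) := hv.natMul hX.snd.length
  exact polyF_ix (polyF_slc hX) ((PolyF.const 2).natMul hvm)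
    ((hX.snd.length.natAdd (PolyF.const 1)).natAdd hvm) (PolyF.const 2)

theorem polyF_onLine {r c p q : α → ℕ} (hr : PolyF r) (hc : PolyF c) (hp : PolyF p)
    (hq : PolyF q) : PolyF (fun a => decide (OnLine (r a) (c a) (p a) (q a))) := by
  have h3 : PolyF (fun a => q a / 3) := hq.natDiv (PolyF.const 3)
  have hm : PolyF (fun a => q a % 3) := hq.natMod (PolyF.const 3)
  have hrc : PolyF (fun a => r a * c a) := hr.natMul hc
  exact (hp.natEq h3).decide_or ((hp.natEq (hrc.natAdd (((PolyF.const 3).natMul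
    (h3.natMod hc)).natAdd hm))).decide_or (hp.natEq ((hrc.natAdd ((PolyF.const 3).natMul
      hc)).natAdd (((PolyF.const 3).natMul (h3.natDiv hc)).natAdd hm))))

theorem polyF_tmat {r c : α → ℕ} (hr : PolyF r) (hc : PolyF c) :
    PolyF (fun a => tmat (r a) (c a)) := by
  have hn : PolyF (fun a => 3 * (r a * c a)) := (PolyF.const 3).natMul (hr.natMul hc)
  have hl := polyF_lines hr hc
  refine hn.pair ((hl.natAdd hl).range.map (h := fun a p => (List.range (3 * (r a * c a))).map
    (fun q => if p < lines (r a) (c a) then (if OnLine (r a) (c a) p q then (1 : ℚ) else 0)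
      else (if OnLine (r a) (c a) (p - lines (r a) (c a)) q then -1 else 0))) ?_)
  have hn1 : PolyF (fun x : α × ℕ => 3 * (r x.1 * c x.1)) := hn.comp PolyF.fst'
  refine hn1.range.map (h := fun (x : α × ℕ) q =>
    if x.2 < lines (r x.1) (c x.1) then (if OnLine (r x.1) (c x.1) x.2 q then (1 : ℚ) else 0)
      else (if OnLine (r x.1) (c x.1) (x.2 - lines (r x.1) (c x.1)) q then -1 else 0)) ?_
  have hr2 : PolyF (fun x : (α × ℕ) × ℕ => r x.1.1) := hr.comp (PolyF.fst'.comp PolyF.fst')
  have hc2 : PolyF (fun x : (α × ℕ) × ℕ => c x.1.1) := hc.comp (PolyF.fst'.comp PolyF.fst')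
  have hp2 : PolyF (fun x : (α × ℕ) × ℕ => x.1.2) := PolyF.snd'.comp PolyF.fst'
  have hl2 := polyF_lines hr2 hc2
  exact PolyF.ite (hp2.natLt hl2) (polyF_ind (polyF_onLine hr2 hc2 hp2 PolyF.snd'))
    (PolyF.ite (polyF_onLine hr2 hc2 (hp2.natSub hl2) PolyF.snd') (PolyF.const (-1))
      (PolyF.const 0))

theorem polyF_slF {X : α → Mat} (hX : PolyF X) : PolyF (fun a => slF (X a)) :=
  polyF_tmat (polyF_slr hX) (polyF_slc hX)

theorem polyF_slf {X : α → Mat} {S : α → List Bool} (hX : PolyF X) (hS : PolyF S) :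
    PolyF (fun a => slf (X a) (S a)) := by
  have hl := polyF_lines (polyF_slr hX) (polyF_slc hX)
  refine (PolyF.replicate (hl.natAdd hl) (PolyF.const true)).append
    (((PolyF.const 3).natMul ((polyF_slr hX).natMul (polyF_slc hX))).range.map
      (h := fun a q => if tk (X a) q = 0 then true
        else if tk (X a) q = 1 then (S a).getD (ps (X a) (cV (X a) (q / 3 / slc (X a)))) false
        else false) ?_)
  have hX1 : PolyF (fun p : α × ℕ => X p.1) := hX.comp PolyF.fst'
  have hS1 : PolyF (fun p : α × ℕ => S p.1) := hS.comp PolyF.fst'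
  have hk : PolyF (fun p : α × ℕ => tk (X p.1) p.2) := polyF_tk hX1 PolyF.snd'
  have hv : PolyF (fun p : α × ℕ => cV (X p.1) (p.2 / 3 / slc (X p.1))) :=
    polyF_cV hX1 ((PolyF.snd'.natDiv (PolyF.const 3)).natDiv (polyF_slc hX1))
  exact PolyF.ite (hk.natEq (PolyF.const 0)) (PolyF.const true)
    (PolyF.ite (hk.natEq (PolyF.const 1)) (hS1.getDL (PolyF.ite (hv.natLt hX1.fst)
      (hX1.snd.length.natAdd hv) (hv.natSub hX1.fst)) (PolyF.const false)) (PolyF.const false))

theorem polyF_slg {X : α → Mat} {S : α → List Bool} (hX : PolyF X) (hS : PolyF S) :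
    PolyF (fun a => slg (X a) (S a)) := by
  refine (hX.snd.length.natAdd hX.fst).range.map (h := fun a i =>
    (S a).getD (lines (slr (X a)) (slc (X a)) + lines (slr (X a)) (slc (X a)) +
      slp0 (X a) (if i < (X a).2.length then (X a).1 + i else i - (X a).2.length)) false) ?_
  have hX1 : PolyF (fun p : α × ℕ => X p.1) := hX.comp PolyF.fst'
  have hS1 : PolyF (fun p : α × ℕ => S p.1) := hS.comp PolyF.fst'
  have hl := polyF_lines (polyF_slr hX1) (polyF_slc hX1)
  exact hS1.getDL ((hl.natAdd hl).natAdd (polyF_slp0 hX1 (PolyF.ite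
    (PolyF.snd'.natLt hX1.snd.length) (hX1.fst.natAdd PolyF.snd')
    (PolyF.snd'.natSub hX1.snd.length)))) (PolyF.const false)

end

/-- the bit size of the matrix of the transportation programs -/
theorem size_tmat : ∃ P : Polynomial ℕ, ∀ r c : ℕ, sz (tmat r c) ≤ P.eval (r + c) := by
  obtain ⟨Q, hQ⟩ := (polyF_tmat (α := ℕ × ℕ) PolyF.fst' PolyF.snd').bound
  refine ⟨Q.comp (Polynomial.X + 1), fun r c => ?_⟩
  have h := hQ (r, c)
  have hs : sz ((r, c) : ℕ × ℕ) = r + c + 1 := by
    rw [sz_prod, sz_nat, sz_nat]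
    ring
  rw [hs] at h
  rw [Polynomial.eval_comp]
  simpa using h

end Pool.Agent.Simplex.EB
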