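import Pool.Agent.Lib.MP_4d246d_lc.EB.BFin

/-!
# Blind pivot rules and Question 1: the assembly
-/

namespace Pool.Agent.Simplex.EB

open QP Pool.Agent.Lib.PolyTime Turing

theorem Solves.mono {m n : ℕ} {ρ : BlindRule} {D : RLP m n} {B B' : ℕ} (h : Solves ρ D B)
    (hB : B ≤ B') : Solves ρ D B' := fun x₀ hx₀ hh x hp =>
  ⟨(h x₀ hx₀ hh x hp).1.trans hB, (h x₀ hx₀ hh x hp).2⟩

/-- Question 1 has a positive answer only if there is a polynomial blind rule. -/
theorem PolySimplex.blind (h : PolySimplex) : PolyBlind := by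
  obtain ⟨E, R, hR⟩ := h.engine
  obtain ⟨ρ, P, hρ, hP⟩ := blind_of_engine E
  refine ⟨ρ, P * (R.comp P + 1), hρ.tm2_word, fun m n D => ?_⟩
  have h1 := hP m n D (R.eval (P.eval D.size)) fun I _ hI => (hR I).trans (peval_mono R hI)
  refine h1.mono (le_of_eq ?_)
  rw [Polynomial.eval_mul, Polynomial.eval_add, Polynomial.eval_comp, Polynomial.eval_one]

theorem pivotBound_pos (d k : ℕ) : 1 ≤ pivotBound d k := by
  unfold pivotBound
  exact Nat.mul_pos (Nat.pow_pos (by norm_num)) (Nat.choose_pos (Nat.le_add_left _ _))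

/-- There is a quasi-polynomial blind rule. -/
theorem exists_quasi : ∃ (ρ : BlindRule) (P : Polynomial ℕ), ρ.Poly ∧
    ∀ (m n : ℕ) (D : RLP m n), Solves ρ D
      (P.eval D.size * pivotBound (min n (m + 2)) (min (m + n + 1) (2 * m + 3))) := by
  obtain ⟨ρ, P, hρ, hP⟩ := blind_of_engine widthEngine
  refine ⟨ρ, 4 * P, hρ.tm2_word, fun m n D => ?_⟩
  have hrows : (plusM D.mat).2.length = m + 1 := by
    unfold plusM RLP.mat
    rw [List.length_append, List.length_ofFn, List.length_singleton]
  have h1 := hP m n D _ (widthEngine_bound (m := m + 1) (n := n) hrows (P.eval D.size))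
  refine h1.mono ?_
  have e1 : m + 1 + n = m + n + 1 := by ring
  have e2 : 2 * (m + 1) + 1 = 2 * m + 3 := by ring
  rw [e1, e2, Polynomial.eval_mul, Polynomial.eval_ofNat]
  have h2 := pivotBound_pos (min n (m + 1 + 1)) (min (m + n + 1) (2 * m + 3))
  have h3 : 2 * pivotBound (min n (m + 1 + 1)) (min (m + n + 1) (2 * m + 3)) + 1 + 1 ≤
      4 * pivotBound (min n (m + 2)) (min (m + n + 1) (2 * m + 3)) := by
    have e3 : m + 1 + 1 = m + 2 := by ring
    rw [e3] at h2 ⊢
    omega
  calc P.eval D.size * (2 * pivotBound (min n (m + 1 + 1)) (min (m + n + 1) (2 * m + 3)) + 1 + 1)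
      ≤ P.eval D.size * (4 * pivotBound (min n (m + 2)) (min (m + n + 1) (2 * m + 3))) :=
        Nat.mul_le_mul_left _ h3
    _ = 4 * P.eval D.size * pivotBound (min n (m + 2)) (min (m + n + 1) (2 * m + 3)) := by ring

/-- **Question 1 has a positive answer if and only if there is a polynomial blind rule, and then
there is a simplex method whose number of pivots is polynomial in the size of the matrix. A blind
rule with quasi-polynomially many answers exists.** -/
theorem result_EB :
    (PolySimplex ↔ PolyBlind) ∧ (PolySimplex ↔ StrongSimplex) ∧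
      ∃ (ρ : BlindRule) (P : Polynomial ℕ), ρ.Poly ∧ ∀ (m n : ℕ) (D : RLP m n), Solves ρ D
        (P.eval D.size * pivotBound (min n (m + 2)) (min (m + n + 1) (2 * m + 3))) :=
  ⟨⟨fun h => h.blind, fun h => h.strong.poly⟩, ⟨fun h => h.blind.strong, fun h => h.poly⟩,
    exists_quasi⟩

end Pool.Agent.Simplex.EB
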