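import Pool.Agent.Lib.MP_4d246d_lc.EB.Statement2
import Pool.Agent.Lib.MP_4d246d_lc.EB.Plus

/-!
# The size of a sparse matrix
-/

namespace Pool.Agent.Simplex.EB

open Pool.Agent.Lib.PolyTime Pool.Agent.Simplex.QP

theorem sz_unit_rat {a : ℚ} (h : a = 0 ∨ a = 1 ∨ a = -1) : sz a ≤ 9 := by
  have h1 : sz a.num ≤ 6 := by
    refine (sz_int_le_of_abs_lt (n := 2) ?_).trans (by norm_num)
    rcases h with rfl | rfl | rfl <;> norm_num
  have h2 : sz (⟨a.den⟩ : Bin) ≤ 2 := by
    refine (sz_bin_le _).trans ?_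
    rcases h with rfl | rfl | rfl <;> simp
  have h3 : sz a = 1 + sz a.num + sz (⟨a.den⟩ : Bin) := sz_rat a
  omega

/-- the bit size of a sparse matrix is polynomial in its dimensions -/
theorem size_sparse : ∃ P : Polynomial ℕ, ∀ (m n : ℕ) (D : RLP m n), Sparse D.A →
    D.size ≤ P.eval (m + n) := by
  refine ⟨2 * (1 + Polynomial.X + Polynomial.X * (1 + Polynomial.X * 10)) + 1,
    fun m n D hD => ?_⟩
  have h1 : D.size = 2 * sz D.mat + 1 := length_wd _ _ _
  have h2 : sz D.mat = 1 + sz D.mat.1 + sz D.mat.2 := sz_prod D.mat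
  have h3 : sz D.mat.1 = n := sz_nat n
  have h4 : sz D.mat.2 ≤ m * (1 + n * 10) := by
    have h5 : ∀ r ∈ D.mat.2, sz r ≤ n * 10 := by
      intro r hr
      obtain ⟨i, rfl⟩ := List.mem_ofFn.1 hr
      have h6 : ∀ a ∈ List.ofFn (D.A i), sz a ≤ 9 := by
        intro a ha
        obtain ⟨j, rfl⟩ := List.mem_ofFn.1 ha
        exact sz_unit_rat (hD.1 i j)
      have h7 := sz_le_of_forall h6
      rw [List.length_ofFn] at h7
      exact h7.trans (by omega)
    have h8 := sz_le_of_forall h5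
    have h9 : D.mat.2.length = m := List.length_ofFn
    rw [h9] at h8
    exact h8.trans (by nlinarith)
  simp only [Polynomial.eval_add, Polynomial.eval_mul, Polynomial.eval_X, Polynomial.eval_ofNat,
    Polynomial.eval_one]
  have h5 : m * (1 + n * 10) ≤ (m + n) * (1 + (m + n) * 10) := by
    refine Nat.mul_le_mul (by omega) (by omega)
  omega

end Pool.Agent.Simplex.EB
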