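import Pool.Agent.Lib.MP_4d246d_lc.EB.SpPoly
import Pool.Agent.Lib.MP_4d246d_lc.EB.SpSize
import Pool.Agent.Lib.MP_4d246d_lc.EB.Rev
import Pool.Agent.Lib.MP_4d246d_lc.EB.Final

/-!
# Blind rules for sparse programs and for all programs
-/

namespace Pool.Agent.Simplex.EB

open Pool.Agent.Lib.PolyTime Pool.Agent.Simplex.QP Turing

/-- A rule for sparse programs gives a rule for all programs. -/
theorem polyBlind_of_sparseBlind (h : SparseBlind) : PolyBlind := by
  obtain ⟨ρ, P, hρ, hP⟩ := h
  obtain ⟨Q, hQ⟩ := sp_dims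
  have hF : PolyF ρ := polyF_of_tm2 hρ
  have h1 : PolyF (isoRule spM spF spG ρ) :=
    polyF_isoRule (polyF_spM (X := fun a : Mat => a) PolyF.id)
      (polyF_spF (X := fun x : Mat × List Bool => x.1) PolyF.fst' PolyF.snd')
      (polyF_spG (X := fun x : Mat × List Bool => x.1) PolyF.fst' PolyF.snd') hF
  refine ⟨isoRule spM spF spG ρ, P.comp Q, h1.tm2_word, fun m n D => ?_⟩
  have h2 : Solves ρ D.sp (P.eval (m + (spT D.mat + spT D.mat) + (n + spT D.mat))) :=
    hP _ _ D.sp (sp_sparse D)
  refine (solves_sp h2).mono ?_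
  rw [Polynomial.eval_comp]
  exact peval_mono P (hQ m n D)

/-- A rule with a number of answers polynomial in the size of the matrix needs a number of answers
polynomial in the dimensions for sparse matrices. -/
theorem sparseBlind_of_polyBlind (h : PolyBlind) : SparseBlind := by
  obtain ⟨ρ, P, hρ, hP⟩ := h
  obtain ⟨Q, hQ⟩ := size_sparse
  refine ⟨ρ, P.comp Q, hρ, fun m n D hD => (hP m n D).mono ?_⟩
  rw [Polynomial.eval_comp]
  exact peval_mono P (hQ m n D hD)

end Pool.Agent.Simplex.EB
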