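import Pool.Agent.Lib.MP_4d246d_lc.EB.SlimNames
import Pool.Agent.Lib.MP_4d246d_lc.EB.SlimPoly
import Pool.Agent.Lib.MP_4d246d_lc.EB.Spm

/-!
# Blind rules for transportation programs and Question 1
-/

namespace Pool.Agent.Simplex.EB

open Pool.Agent.Lib.PolyTime Pool.Agent.Simplex.QP Turing

/-- the sparse form of a bounded program is bounded -/
theorem sp_bdd {m n : ℕ} (D : RLP m n) (τ : ℝ) :
    ∃ M : ℝ, ∀ x ∈ (D.plus τ).sp.feasible, ∀ j, x j ≤ M := by
  have h1 := (slpIso (spIns_ok (D.plus τ).mat) (spPQ_ok (D.plus τ))).feas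
  set φ := (slpIso (spIns_ok (D.plus τ).mat) (spPQ_ok (D.plus τ))).φ
  have h2 : (D.plus τ).feasible ⊆ Set.Icc (0 : Fin n → ℝ) (fun _ => τ) := by
    intro x hx
    refine ⟨fun j => hx.2 j, fun j => ?_⟩
    have h3 := hx.1 (Fin.last m)
    have h4 : (D.plus τ).b (Fin.last m) = τ := by
      show (if h : m < m then D.b ⟨m, h⟩ else τ) = τ
      rw [dif_neg (lt_irrefl m)]
    have h5 : ∀ j, (D.plus τ).A (Fin.last m) j = 1 := by
      intro j
      show (if h : m < m then D.A ⟨m, h⟩ else fun _ => 1 : Fin n → ℚ) j = 1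
      rw [dif_neg (lt_irrefl m)]
    rw [h4] at h3
    have h6 : ∑ j, ((D.plus τ).A (Fin.last m) j : ℝ) * x j = ∑ j, x j :=
      Finset.sum_congr rfl fun j _ => by rw [h5, Rat.cast_one, one_mul]
    rw [h6] at h3
    exact (Finset.single_le_sum (fun k _ => hx.2 k) (Finset.mem_univ j)).trans h3
  have h3 : IsCompact (φ '' Set.Icc (0 : Fin n → ℝ) (fun _ => τ)) :=
    isCompact_Icc.image (LinearMap.continuous_of_finiteDimensional φ)
  have h4 : ∀ j, ∃ M : ℝ, ∀ x ∈ φ '' Set.Icc (0 : Fin n → ℝ) (fun _ => τ), x j ≤ M := by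
    intro j
    obtain ⟨M, hM⟩ := (h3.image (continuous_apply j)).bddAbove
    exact ⟨M, fun x hx => hM ⟨x, hx, rfl⟩⟩
  choose M hM using h4
  obtain ⟨B, hB⟩ := (Set.finite_range M).bddAbove
  refine ⟨B, fun x hx j => ?_⟩
  have h5 : x ∈ φ '' (D.plus τ).feasible := h1 ▸ hx
  exact (hM j x (Set.image_mono h2 h5)).trans (hB ⟨j, rfl⟩)

/-- dimensions of the table -/
theorem slim_dims : ∃ P : Polynomial ℕ, ∀ (m n : ℕ) (D : RLP m n) (τ : ℝ),
    slr (D.plus τ).sp.mat + slc (D.plus τ).sp.mat ≤ P.eval D.size := by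
  obtain ⟨Q, hQ⟩ := sp_dims
  obtain ⟨R, hR⟩ := (polyF_plusM (X := fun a : Mat => a) PolyF.id).bound
  refine ⟨(4 * (Polynomial.X * Polynomial.X) + Polynomial.X + 1).comp
    (Q.comp (2 * R + 1)), fun m n D τ => ?_⟩
  have h1 := hQ _ _ (D.plus τ)
  have h2 : (D.plus τ).size ≤ (2 * R + 1).eval D.size := by
    have h3 : (D.plus τ).size = 2 * sz (D.plus τ).mat + 1 := length_wd _ _ _
    have h4 := hR D.mat
    rw [← RLP.plus_mat (τ := τ)] at h4
    have h5 : sz D.mat ≤ D.size := by
      have : D.size = 2 * sz D.mat + 1 := length_wd _ _ _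
      omega
    have h6 := peval_mono R h5
    rw [h3]
    simp only [Polynomial.eval_add, Polynomial.eval_mul, Polynomial.eval_ofNat,
      Polynomial.eval_one]
    omega
  have h3 := h1.trans (peval_mono Q h2)
  rw [← Polynomial.eval_comp] at h3
  rw [Polynomial.eval_comp]
  refine le_trans ?_ (peval_mono _ h3)
  have e1 : (D.plus τ).sp.mat.2.length = m + 1 + (spT (D.plus τ).mat + spT (D.plus τ).mat) :=
    mat_len _
  have e2 : (D.plus τ).sp.mat.1 = n + spT (D.plus τ).mat := rfl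
  unfold slr slc slR
  rw [e1, e2]
  generalize m + 1 + (spT (D.plus τ).mat + spT (D.plus τ).mat) = a
  generalize n + spT (D.plus τ).mat = b
  simp only [Polynomial.eval_add, Polynomial.eval_mul, Polynomial.eval_X, Polynomial.eval_ofNat,
    Polynomial.eval_one]
  have h4 : (b + a) * a ≤ (a + b) * (a + b) := by
    rw [Nat.add_comm b a]
    exact Nat.mul_le_mul_left _ (Nat.le_add_right _ _)
  omega

/-- **A blind rule for transportation programs gives a blind rule for all programs.** -/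
theorem polyBlind_of_slimBlind (h : SlimBlind) : PolyBlind := by
  obtain ⟨ρ, P, hρ, hP⟩ := h
  obtain ⟨Q, hQ⟩ := slim_dims
  have h1 : PolyF ρ := polyF_of_tm2 hρ
  have h2 : PolyF (isoRule slF slf slg ρ) :=
    polyF_isoRule (polyF_slF (X := fun a : Mat => a) PolyF.id)
      (polyF_slf (X := fun x : Mat × List Bool => x.1) PolyF.fst' PolyF.snd')
      (polyF_slg (X := fun x : Mat × List Bool => x.1) PolyF.fst' PolyF.snd') h1
  have h3 : PolyF (isoRule spM spF spG (isoRule slF slf slg ρ)) :=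
    polyF_isoRule (polyF_spM (X := fun a : Mat => a) PolyF.id)
      (polyF_spF (X := fun x : Mat × List Bool => x.1) PolyF.fst' PolyF.snd')
      (polyF_spG (X := fun x : Mat × List Bool => x.1) PolyF.fst' PolyF.snd') h2
  refine ⟨plusRule (isoRule spM spF spG (isoRule slF slf slg ρ)), P.comp Q,
    (polyF_plusRule h3).tm2_word, fun m n D => ?_⟩
  obtain ⟨τ, hτ⟩ := RLP.exists_tau D
  refine solves_plus hτ (solves_sp ?_)
  obtain ⟨M, hM⟩ := sp_bdd D τ
  obtain ⟨U, hU⟩ := exists_under hM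
  have hA : Units (D.plus τ).sp.A := (sp_sparse (D.plus τ)).1
  refine (solves_slim hA (by omega) hU (hP _ _ _ _)).mono ?_
  rw [Polynomial.eval_comp]
  exact peval_mono P (hQ m n D τ)

/-- A blind rule for all programs is one for transportation programs. -/
theorem slimBlind_of_polyBlind (h : PolyBlind) : SlimBlind := by
  obtain ⟨ρ, P, hρ, hP⟩ := h
  obtain ⟨Q, hQ⟩ := size_tmat
  refine ⟨ρ, P.comp (2 * Q + 1), hρ, fun r c s cost => (hP _ _ _).mono ?_⟩
  rw [Polynomial.eval_comp]
  refine peval_mono P ?_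
  have h1 : (transport r c s cost).size = 2 * sz (transport r c s cost).mat + 1 := length_wd _ _ _
  rw [transport_mat] at h1
  have h2 := hQ r c
  rw [h1]
  simp only [Polynomial.eval_add, Polynomial.eval_mul, Polynomial.eval_ofNat, Polynomial.eval_one]
  omega

end Pool.Agent.Simplex.EB
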