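import Pool.Agent.Lib.MP_4d246d_lc.EB.SlimEngine
import Pool.Agent.Lib.MP_4d246d_lc.EB.SlimFin
import Pool.Agent.Lib.MP_4d246d_lc.EB.BFin

/-!
# Question 1 for transportation programs gives a blind rule for them
-/

namespace Pool.Agent.Simplex.EB

open Pool.Agent.Lib.PolyTime Pool.Agent.Simplex.QP Turing

variable {r c : ℕ} {s : Fin (lines r c) → ℝ} {cost : Fin (3 * (r * c)) → ℝ}

theorem transport_A_left (p : Fin (lines r c)) (q : Fin (3 * (r * c))) :
    (transport r c s cost).A (Fin.castAdd (lines r c) p) q = if OnLine r c p q then 1 else 0 := by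
  unfold transport
  dsimp only
  rw [Fin.addCases_left]

theorem transport_A_right (p : Fin (lines r c)) (q : Fin (3 * (r * c))) :
    (transport r c s cost).A (Fin.natAdd (lines r c) p) q =
      - (transport r c s cost).A (Fin.castAdd (lines r c) p) q := by
  unfold transport
  dsimp only
  rw [Fin.addCases_left, Fin.addCases_right]
  split_ifs <;> simp

theorem transport_b_right (p : Fin (lines r c)) :
    (transport r c s cost).b (Fin.natAdd (lines r c) p) =
      - (transport r c s cost).b (Fin.castAdd (lines r c) p) := by
  unfold transport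
  dsimp only
  rw [Fin.addCases_left, Fin.addCases_right]

/-- tables with given line sums are bounded -/
theorem transport_bdd : Bdd (transport r c s cost).A := by
  have hL : r * c ≤ lines r c := by unfold lines; omega
  have hA : ∀ (p : Fin (lines r c + lines r c)) (q : Fin (3 * (r * c))), (p : ℕ) < r * c →
      (transport r c s cost).A p q = if OnLine r c p q then 1 else 0 := by
    intro p q hp
    exact transport_A_left ⟨p, hp.trans_le hL⟩ q
  refine ⟨fun p => if (p : ℕ) < r * c then 1 else 0, fun p => ?_, fun q => ?_⟩
  · dsimp only
    split_ifs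
    · exact zero_le_one
    · exact le_rfl
  · refine Finset.sum_pos' (fun p _ => ?_) ⟨⟨q / 3, ?_⟩, Finset.mem_univ _, ?_⟩
    · dsimp only
      split_ifs with h1
      · rw [one_mul, hA p q h1]
        split_ifs
        · exact zero_le_one
        · exact le_rfl
      · rw [zero_mul]
    · have := q.2
      omega
    · have h1 : (q : ℕ) / 3 < r * c := by
        have := q.2
        omega
      dsimp only
      have h2 : OnLine r c ((q : ℕ) / 3) q := Or.inl rfl
      rw [if_pos h1, one_mul, hA _ q h1]
      dsimp only
      rw [if_pos h2]
      exact zero_lt_one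

/-- all line sums are tight -/
theorem transport_tight {y : Fin (3 * (r * c)) → ℝ} (hy : y ∈ (transport r c s cost).feasible)
    (i : Fin (lines r c + lines r c)) :
    ∑ j, ((transport r c s cost).A i j : ℝ) * y j = (transport r c s cost).b i := by
  have e3 : ∀ p : Fin (lines r c),
      ∑ j, ((transport r c s cost).A (Fin.natAdd (lines r c) p) j : ℝ) * y j =
        - ∑ j, ((transport r c s cost).A (Fin.castAdd (lines r c) p) j : ℝ) * y j := by
    intro p
    rw [← Finset.sum_neg_distrib]
    refine Finset.sum_congr rfl fun j _ => ?_
    rw [transport_A_right, Rat.cast_neg, neg_mul]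
  have e4 : ∀ p : Fin (lines r c),
      ∑ j, ((transport r c s cost).A (Fin.castAdd (lines r c) p) j : ℝ) * y j =
        (transport r c s cost).b (Fin.castAdd (lines r c) p) := by
    intro p
    refine le_antisymm (hy.1 _) ?_
    have h1 := hy.1 (Fin.natAdd (lines r c) p)
    rw [transport_b_right, e3] at h1
    linarith
  induction i using Fin.addCases with
  | left p => exact e4 p
  | right p => rw [transport_b_right, e3, e4]

/-- a rational program with the same matrix and a vertex with the name of a vertex is a
transportation program -/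
theorem isTransport_of_name {lp : QLP (lines r c + lines r c) (3 * (r * c))}
    {v : Fin (3 * (r * c)) → ℚ} (hv : lp.Vertex (toReal v))
    (hA : lp.A = (transport r c s cost).A) {y : Fin (3 * (r * c)) → ℝ}
    (hy : (transport r c s cost).Vertex y)
    (hn : (ofQ lp).name (toReal v) = (transport r c s cost).name y) :
    IsTransport ⟨_, _, lp, v, hv⟩ := by
  classical
  have h1 : ∀ i, ∑ j, (lp.A i j : ℝ) * toReal v j = (lp.b i : ℝ) := by
    unfold RLP.name at hn
    have h2 := (List.append_inj hn (by rw [List.length_ofFn, List.length_ofFn])).1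
    have h3 := List.ofFn_injective h2
    intro i
    have h4 := congrFun h3 i
    rw [decide_eq_decide] at h4
    exact h4.2 (transport_tight hy.1 i)
  have h2 : ∀ p : Fin (lines r c), lp.b (Fin.natAdd (lines r c) p) =
      - lp.b (Fin.castAdd (lines r c) p) := by
    intro p
    have h3 := h1 (Fin.natAdd (lines r c) p)
    have h4 := h1 (Fin.castAdd (lines r c) p)
    have h5 : ∑ j, (lp.A (Fin.natAdd (lines r c) p) j : ℝ) * toReal v j =
        - ∑ j, (lp.A (Fin.castAdd (lines r c) p) j : ℝ) * toReal v j := by
      rw [← Finset.sum_neg_distrib]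
      refine Finset.sum_congr rfl fun j _ => ?_
      have h6 : lp.A (Fin.natAdd (lines r c) p) j = - lp.A (Fin.castAdd (lines r c) p) j := by
        rw [hA, transport_A_right]
      rw [h6, Rat.cast_neg, neg_mul]
    rw [h5, h4] at h3
    exact_mod_cast h3.symm
  have h3 : lp = transportQ r c (fun p => lp.b (Fin.castAdd (lines r c) p)) lp.c := by
    obtain ⟨A, b, cc⟩ := lp
    dsimp only at hA h2
    unfold transportQ
    congr 1
    funext i
    induction i using Fin.addCases with
    | left p => rw [Fin.addCases_left]
    | right p => rw [Fin.addCases_right, h2]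
  refine ⟨r, c, fun p => lp.b (Fin.castAdd (lines r c) p), lp.c, v, h3 ▸ hv, ?_⟩
  congr 1

/-- **Question 1 for transportation programs gives a blind rule for them.** -/
theorem slimBlind_of_slimSimplex (h : SlimSimplex) : SlimBlind := by
  obtain ⟨E, R, hR⟩ := h.engine
  obtain ⟨ρ, P, hρ, hP⟩ := blind_of_engine_bdd E
  obtain ⟨Q, hQ⟩ := size_tmat
  refine ⟨ρ, (P * (R.comp P + 1)).comp (2 * Q + 1), hρ.tm2_word, fun r c s cost => ?_⟩
  have h1 := hP _ _ (transport r c s cost) (R.eval (P.eval (transport r c s cost).size))
    transport_bdd fun lp v hv hA hn hs => by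
      obtain ⟨y, hy, hn⟩ := hn
      exact (hR _ (isTransport_of_name hv hA hy hn)).trans (peval_mono R hs)
  refine h1.mono ?_
  have h2 : P.eval (transport r c s cost).size * (R.eval (P.eval (transport r c s cost).size) + 1) =
      (P * (R.comp P + 1)).eval (transport r c s cost).size := by
    rw [Polynomial.eval_mul, Polynomial.eval_add, Polynomial.eval_comp, Polynomial.eval_one]
  rw [h2, Polynomial.eval_comp]
  refine peval_mono _ ?_
  have h3 : (transport r c s cost).size = 2 * sz (transport r c s cost).mat + 1 := length_wd _ _ _
  rw [transport_mat] at h3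
  have h4 := hQ r c
  rw [h3]
  simp only [Polynomial.eval_add, Polynomial.eval_mul, Polynomial.eval_ofNat, Polynomial.eval_one]
  omega

end Pool.Agent.Simplex.EB
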