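import Pool.Agent.Lib.MP_4d246d_lc.EB.Slp

/-!
# Names in the extension by defined variables
-/

namespace Pool.Agent.Simplex.EB

open Pool.Agent.Lib.PolyTime Pool.Agent.Simplex.QP

variable {m n : ℕ} {D : RLP m n} {T : ℕ} {ins : ℕ → List ℕ} {p q : ℕ → ℕ}

theorem take_run {M : Type*} (comb : List M → M) (d : M) (ins : ℕ → List ℕ) (T : ℕ)
    (l : List M) : (run comb d ins T l).take l.length = l := by
  induction T with
  | zero =>
    show l.take l.length = l
    exact List.take_length
  | succ T ih =>
    rw [run_succ, List.take_append_of_le_length (by rw [length_run]; omega), ih]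

/-- the evaluation of the definitions on the list of the values of a function -/
theorem range_run {α : Type*} (comb : List α → α) (d : α) {n T : ℕ} {ins : ℕ → List ℕ}
    (hins : ∀ t < T, ∀ a ∈ ins t, a < n + t) (Q : ℕ → α)
    (hQ : ∀ t < T, Q (n + t) = comb ((ins t).map Q)) :
    (List.range (n + T)).map Q = run comb d ins T ((List.range n).map Q) := by
  induction T with
  | zero => rfl
  | succ T ih =>
    rw [run_succ, ← ih (fun t ht => hins t (by omega)) (fun t ht => hQ t (by omega)),
      ← Nat.add_assoc, List.range_succ, List.map_append, List.map_singleton, hQ T (by omega)]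
    congr 3
    refine List.map_congr_left fun a ha => ?_
    have h1 := hins T (by omega) a ha
    rw [List.getD_eq_getElem _ _ (by rw [List.length_map, List.length_range]; exact h1),
      List.getElem_map, List.getElem_range]

theorem ofFn_range {α : Type*} (k : ℕ) (Q : ℕ → α) :
    List.ofFn (fun j : Fin k => Q j) = (List.range k).map Q := by
  refine List.ext_getElem (by simp) (fun i h1 h2 => ?_)
  simp

/-- the rows of the extended program at a point of the image -/
theorem slp_row (hins : OkI n T ins) (hpq : OkPQ D T ins p q) (x : Fin n → ℝ)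
    (i : Fin (m + (T + T))) :
    ∑ j, ((D.slp T ins p q).A i j : ℝ) * phi n T ins x j =
      if h : (i : ℕ) < m then sc D.A i * ∑ j, (D.A ⟨i, h⟩ j : ℝ) * x j else 0 := by
  obtain ⟨w, hw⟩ : ∃ w : ℕ → ℝ, ∀ j, w j = (forms n T ins).getD j 0 x := ⟨_, fun _ => rfl⟩
  have hsum : ∑ j, ((D.slp T ins p q).A i j : ℝ) * phi n T ins x j =
      ∑ j : Fin (n + T), ((ent m n T ins p q i j : ℚ) : ℝ) * w j :=
    Finset.sum_congr rfl fun j _ => by rw [hw, phi_apply]; rfl
  rw [hsum]
  by_cases hi : (i : ℕ) < m
  · rw [dif_pos hi, row_old hi (hpq ⟨i, hi⟩).1 (hpq ⟨i, hi⟩).2.1, hw, hw]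
    exact (hpq ⟨i, hi⟩).2.2.2 x
  · rw [dif_neg hi]
    by_cases hi2 : (i : ℕ) < m + T
    · obtain ⟨t, ht⟩ := Nat.exists_eq_add_of_le (not_lt.1 hi)
      rw [ht, row_le hins (by omega), hw, phi_rec hins x (by omega),
        List.map_congr_left fun a _ => hw a, sub_self]
    · obtain ⟨t, ht⟩ := Nat.exists_eq_add_of_le (not_lt.1 hi2)
      have hi3 := i.isLt
      rw [ht, row_ge hins (by omega), hw, phi_rec hins x (by omega),
        List.map_congr_left fun a _ => hw a, sub_self]

/-- a sum of nonnegative numbers is zero if and only if all are zero -/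
theorem list_sum_zero {l : List ℕ} {w : ℕ → ℝ} (hw : ∀ a ∈ l, 0 ≤ w a) :
    (l.map w).sum = 0 ↔ ∀ a ∈ l, w a = 0 := by
  induction l with
  | nil => simp
  | cons a l ih =>
    rw [List.map_cons, List.sum_cons, List.forall_mem_cons,
      ← ih fun b hb => hw b (List.mem_cons_of_mem _ hb)]
    have h1 : 0 ≤ w a := hw a List.mem_cons_self
    have h2 : 0 ≤ (l.map w).sum := by
      refine List.sum_nonneg fun y hy => ?_
      rw [List.mem_map] at hy
      obtain ⟨b, hb, rfl⟩ := hy
      exact hw b (List.mem_cons_of_mem _ hb)
    constructor
    · intro h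
      constructor <;> linarith
    · rintro ⟨h3, h4⟩
      rw [h3, h4, add_zero]

/-- at a tight variable the direction is nonnegative -/
theorem phi_dir (hins : OkI n T ins) {x z : Fin n → ℝ} (hx : ∀ j, 0 ≤ x j)
    (hz : ∀ j, x j = 0 → 0 ≤ z j) :
    ∀ j : ℕ, j < n + T → (forms n T ins).getD j 0 x = 0 → 0 ≤ (forms n T ins).getD j 0 z := by
  intro j
  induction j using Nat.strong_induction_on with
  | _ j ih =>
    intro hj hj0
    rcases Nat.lt_or_ge j n with h | h
    · rw [show j = ((⟨j, h⟩ : Fin n) : ℕ) from rfl, phi_old] at hj0 ⊢
      exact hz _ hj0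
    · obtain ⟨t, rfl⟩ := Nat.exists_eq_add_of_le h
      have hlt : ∀ a ∈ ins t, a < n + t := (hins t (by omega)).2.1
      rw [phi_rec hins x (by omega), list_sum_zero (w := fun a => (forms n T ins).getD a 0 x)
        (fun a ha => phi_nonneg hins hx a (by have := hlt a ha; omega))] at hj0
      rw [phi_rec hins z (by omega)]
      refine List.sum_nonneg fun y hy => ?_
      rw [List.mem_map] at hy
      obtain ⟨a, ha, rfl⟩ := hy
      have := hlt a ha
      exact ih a this (by omega) (hj0 a ha)

theorem slp_names (hins : OkI n T ins) (hpq : OkPQ D T ins p q) :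
    Names (slpIso hins hpq) (fN m T ins) (gN m n T) := by
  classical
  have hlt : ∀ t < T, ∀ a ∈ ins t, a < n + t := fun t ht => (hins t ht).2.1
  refine ⟨fun x hx => ?_, fun x z hx hz => ?_, fun S hS => ?_⟩
  · -- the name of a vertex
    have hx0 : ∀ j, 0 ≤ x j := hx.1.2
    have hm : (List.ofFn (fun i : Fin m => decide (∑ j, (D.A i j : ℝ) * x j = D.b i))).length =
        m := List.length_ofFn
    show (D.slp T ins p q).name (phi n T ins x) = _
    unfold fN RLP.name
    rw [List.take_left' hm, List.drop_left' hm, ← List.append_assoc]
    congr 1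
    · rw [List.ofFn_add, ← List.ofFn_const]
      congr 1
      · congr 1
        ext i
        rw [decide_eq_decide, slp_row hins hpq]
        have h1 : (D.slp T ins p q).b (Fin.castLE (Nat.le_add_right m (T + T)) i) =
            sc D.A i * D.b i := by
          show (if h : (i : ℕ) < m then sc D.A i * D.b ⟨i, h⟩ else 0) = _
          rw [dif_pos i.isLt]
        rw [h1, dif_pos (by exact i.isLt)]
        exact mul_right_inj' (sc_pos D.A i).ne'
      · congr 1
        ext i
        rw [decide_eq_true_iff, slp_row hins hpq]
        have hi : ¬ ((Fin.natAdd m i : Fin (m + (T + T))) : ℕ) < m := by simp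
        have h1 : (D.slp T ins p q).b (Fin.natAdd m i) = 0 := by
          unfold RLP.slp
          simp only
          rw [dif_neg hi]
        rw [h1, dif_neg hi]
    · have h1 := ofFn_range (n + T) (fun j => decide ((forms n T ins).getD j 0 x = 0))
      have h2 := ofFn_range n (fun j => decide ((forms n T ins).getD j 0 x = 0))
      have h3 := range_run (fun l : List Bool => l.all (fun b => b)) false hlt
        (fun j => decide ((forms n T ins).getD j 0 x = 0)) (fun t ht => by
          rw [phi_rec hins x ht, Bool.eq_iff_iff, decide_eq_true_iff,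
            list_sum_zero (w := fun a => (forms n T ins).getD a 0 x)
            (fun a ha => phi_nonneg hins hx0 a (by have := hlt t ht a ha; omega))]
          simp)
      rw [← h1, ← h2] at h3
      refine h3.trans ?_
      congr 2
      ext j
      rw [phi_old]
  · -- the name of an edge
    have hx0 : ∀ j, 0 ≤ x j := hx.1.2
    have hz0 : ∀ j, x j = 0 → 0 ≤ z j := by
      intro j hj
      have h1 := hz.1 (m + j) (by omega)
      rw [D.sl_var, D.sys_ln, lnA_var] at h1
      exact h1 hj
    have hm : (List.ofFn (fun i : Fin m => decide (∑ j, (D.A i j : ℝ) * x j = D.b i ∧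
        ∑ j, (D.A i j : ℝ) * z j = 0))).length = m := List.length_ofFn
    show (D.slp T ins p q).edgeName (phi n T ins x) (phi n T ins z) = _
    unfold fN RLP.edgeName
    rw [List.take_left' hm, List.drop_left' hm, ← List.append_assoc]
    congr 1
    · rw [List.ofFn_add, ← List.ofFn_const]
      congr 1
      · congr 1
        ext i
        rw [decide_eq_decide, slp_row hins hpq, slp_row hins hpq]
        have h1 : (D.slp T ins p q).b (Fin.castLE (Nat.le_add_right m (T + T)) i) =
            sc D.A i * D.b i := by
          show (if h : (i : ℕ) < m then sc D.A i * D.b ⟨i, h⟩ else 0) = _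
          rw [dif_pos i.isLt]
        rw [h1, dif_pos (by exact i.isLt), dif_pos (by exact i.isLt)]
        refine and_congr (mul_right_inj' (sc_pos D.A i).ne') ?_
        exact mul_eq_zero_iff_left (sc_pos D.A i).ne'
      · congr 1
        ext i
        rw [decide_eq_true_iff, slp_row hins hpq, slp_row hins hpq]
        have hi : ¬ ((Fin.natAdd m i : Fin (m + (T + T))) : ℕ) < m := by simp
        have h1 : (D.slp T ins p q).b (Fin.natAdd m i) = 0 := by
          unfold RLP.slp
          simp only
          rw [dif_neg hi]
        rw [h1, dif_neg hi, dif_neg hi]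
        exact ⟨rfl, rfl⟩
    · have h1 := ofFn_range (n + T) (fun j => decide ((forms n T ins).getD j 0 x = 0 ∧
        (forms n T ins).getD j 0 z = 0))
      have h2 := ofFn_range n (fun j => decide ((forms n T ins).getD j 0 x = 0 ∧
        (forms n T ins).getD j 0 z = 0))
      have h3 := range_run (fun l : List Bool => l.all (fun b => b)) false hlt
        (fun j => decide ((forms n T ins).getD j 0 x = 0 ∧
          (forms n T ins).getD j 0 z = 0)) (fun t ht => by
          rw [phi_rec hins x ht, phi_rec hins z ht, Bool.eq_iff_iff, decide_eq_true_iff,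
            list_sum_zero (w := fun a => (forms n T ins).getD a 0 x)
            (fun a ha => phi_nonneg hins hx0 a (by have := hlt t ht a ha; omega))]
          constructor
          · rintro ⟨h4, h5⟩
            rw [list_sum_zero (w := fun a => (forms n T ins).getD a 0 z) (fun a ha =>
              phi_dir hins hx0 hz0 a (by have := hlt t ht a ha; omega) (h4 a ha))] at h5
            simpa using fun a ha => ⟨h4 a ha, h5 a ha⟩
          · intro h4
            have h5 : ∀ a ∈ ins t, (forms n T ins).getD a 0 x = 0 ∧
                (forms n T ins).getD a 0 z = 0 := by simpa using h4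
            refine ⟨fun a ha => (h5 a ha).1, ?_⟩
            rw [list_sum_zero (w := fun a => (forms n T ins).getD a 0 z) (fun a ha =>
              phi_dir hins hx0 hz0 a (by have := hlt t ht a ha; omega) (h5 a ha).1)]
            exact fun a ha => (h5 a ha).2)
      rw [← h1, ← h2] at h3
      refine h3.trans ?_
      congr 2
      ext j
      rw [phi_old, phi_old]
  · -- the old name
    have h1 : (S.take m).length = m := by rw [List.length_take]; omega
    have h2 : (S.drop m).length = n := by rw [List.length_drop]; omega
    have h3 : (S.take m ++ List.replicate (T + T) true).length = m + (T + T) := by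
      rw [List.length_append, List.length_replicate, h1]
    unfold gN fN
    rw [List.take_left' h1, ← List.append_assoc, List.drop_left' h3]
    conv_lhs => rw [← h2]
    rw [take_run, List.take_append_drop]

end Pool.Agent.Simplex.EB
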