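import Pool.Agent.Lib.MP_4d246d_lc.EB.Horner
import Pool.Agent.Lib.MP_4d246d_lc.EB.SlpNames

/-!
# The sparse form of a program
-/

namespace Pool.Agent.Simplex.EB

open Pool.Agent.Lib.PolyTime Pool.Agent.Simplex.QP

/-- the sparse matrix -/
def spM (X : Mat) : Mat :=
  (X.1 + spT X, (List.range (X.2.length + (spT X + spT X))).map (fun i =>
    (List.range (X.1 + spT X)).map (fun j =>
      ent X.2.length X.1 (spT X) (spIns X) (spP X) (spQ X) i j)))

/-- the sparse program -/
noncomputable def RLP.sp {m n : ℕ} (D : RLP m n) :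
    RLP (m + (spT D.mat + spT D.mat)) (n + spT D.mat) :=
  D.slp (spT D.mat) (spIns D.mat) (spP D.mat) (spQ D.mat)

/-- new names -/
def spF (X : Mat) (S : List Bool) : List Bool := fN X.2.length (spT X) (spIns X) S

/-- old names -/
def spG (X : Mat) (S : List Bool) : List Bool := gN X.2.length X.1 (spT X) S

theorem mat_len {m n : ℕ} (D : RLP m n) : D.mat.2.length = m := List.length_ofFn

theorem sp_mat {m n : ℕ} (D : RLP m n) : D.sp.mat = spM D.mat := by
  have hm := mat_len D
  have h1 : D.sp.mat = (n + spT D.mat, (List.range (m + (spT D.mat + spT D.mat))).map (fun i =>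
    (List.range (n + spT D.mat)).map (fun j =>
      ent m n (spT D.mat) (spIns D.mat) (spP D.mat) (spQ D.mat) i j))) := by
    rw [← ofFn_range]
    unfold RLP.mat
    refine Prod.ext rfl ?_
    refine congrArg List.ofFn (funext fun i => ?_)
    exact ofFn_range (n + spT D.mat)
      (fun j => ent m n (spT D.mat) (spIns D.mat) (spP D.mat) (spQ D.mat) i j)
  rw [h1]
  unfold spM
  rw [hm]
  rfl

theorem sp_sparse {m n : ℕ} (D : RLP m n) : Sparse D.sp.A := by
  refine slp_sparse (spIns_ok D.mat) fun i hi => ?_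
  exact (spPQ_ok D ⟨i, hi⟩).2.2.1

/-- a rule for the sparse program gives a rule for the program -/
theorem solves_sp {ρ : BlindRule} {m n B : ℕ} {D : RLP m n} (h : Solves ρ D.sp B) :
    Solves (isoRule spM spF spG ρ) D B := by
  have hm := mat_len D
  refine solves_iso (slpIso (spIns_ok D.mat) (spPQ_ok D)) (sp_mat D) ?_ h
  have h1 := slp_names (spIns_ok D.mat) (spPQ_ok D)
  have h2 : spF D.mat = fN m (spT D.mat) (spIns D.mat) := by
    funext S
    unfold spF
    rw [hm]
  have h3 : spG D.mat = gN m n (spT D.mat) := by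
    funext S
    unfold spG
    rw [hm]
    rfl
  rw [h2, h3]
  exact h1

end Pool.Agent.Simplex.EB
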