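import Pool.Agent.Lib.MP_4d246d_lc.EB.SlimDef
import Pool.Agent.Lib.MP_4d246d_lc.EB.SpDefs

/-!
# Upper bounds for the variables of the sparse form
-/

namespace Pool.Agent.Simplex.EB

open Pool.Agent.Lib.PolyTime Pool.Agent.Simplex.QP

private theorem su_mem (X : Mat) {t : ℕ} (ht : t % blen X ≠ 0) : X.1 + t - 1 ∈ spIns X t := by
  unfold spIns
  rw [if_neg ht]
  split_ifs
  · exact List.mem_singleton.2 rfl
  · exact List.mem_cons_of_mem _ (List.mem_singleton.2 rfl)
  · exact List.mem_cons_self
  · exact List.mem_singleton.2 rfl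

/-- All variables of the sparse form are below `U` if the old variables, the positive and the
negative parts of the integer rows, and the scaled slacks are. -/
theorem sp_under {m n : ℕ} {D : RLP m n} {U : ℝ} (hU : 0 < U)
    (h1 : ∀ x ∈ D.feasible, ∀ j, x j < U)
    (h2 : ∀ x ∈ D.feasible, ∀ (i : Fin m) (s : ℕ),
      ∑ j : Fin n, ((part s ((irow D.mat i).getD j 0) : ℤ) : ℝ) * x j < U)
    (h3 : ∀ x ∈ D.feasible, ∀ i : Fin m,
      sc D.A i * (D.b i - ∑ j, (D.A i j : ℝ) * x j) < U) : D.sp.Under U := by
  have hlen : D.mat.2.length = m := mat_len D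
  have hN : D.mat.1 = n := rfl
  have hins : OkI n (spT D.mat) (spIns D.mat) := spIns_ok D.mat
  have hpq := spPQ_ok D
  intro y hy v hv
  have hy' := hy
  unfold RLP.sp at hy'
  rw [slp_feas hins hpq] at hy'
  obtain ⟨x, hx, rfl⟩ := hy'
  obtain ⟨w, hw⟩ : ∃ w : ℕ → ℝ, ∀ a, w a = (forms n (spT D.mat) (spIns D.mat)).getD a 0 x :=
    ⟨_, fun _ => rfl⟩
  have hrec : ∀ t < spT D.mat, w (D.mat.1 + t) = ((spIns D.mat t).map w).sum := by
    intro t ht
    rw [hw, hN, phi_rec hins x ht, List.map_congr_left fun a _ => hw a]
  have hold : ∀ j : Fin n, w j = x j := fun j => by rw [hw]; exact phi_old x j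
  have hnn : ∀ j, j < n + spT D.mat → 0 ≤ w j := by
    intro j hj
    rw [hw]
    exact phi_nonneg hins hx.2 j hj
  have hsum : ∀ i : ℕ, ∑ j : Fin (n + spT D.mat), ((ent m n (spT D.mat) (spIns D.mat) (spP D.mat)
      (spQ D.mat) i j : ℚ) : ℝ) * phi n (spT D.mat) (spIns D.mat) x j =
      ∑ j : Fin (n + spT D.mat), ((ent m n (spT D.mat) (spIns D.mat) (spP D.mat)
      (spQ D.mat) i j : ℚ) : ℝ) * w j := fun i =>
    Finset.sum_congr rfl fun j _ => by rw [hw, phi_apply]
  by_cases hv1 : v < n + spT D.mat
  · -- a variable
    have e1 : D.sp.lval v (phi n (spT D.mat) (spIns D.mat) x) + D.sp.cval v = w v := by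
      unfold RLP.lval RLP.cval
      rw [dif_pos hv1, if_pos hv1, add_zero, hw]
      rfl
    rw [e1]
    rcases Nat.lt_or_ge v n with h | h
    · rw [show v = ((⟨v, h⟩ : Fin n) : ℕ) from rfl, hold]
      exact h1 x hx _
    · obtain ⟨t, rfl⟩ := Nat.exists_eq_add_of_le h
      have ht : t < spT D.mat := by omega
      have hB := blen_pos D.mat
      have hT : spT D.mat = 2 * m * blen D.mat := by
        unfold spT
        rw [hlen]
      have hr : t / blen D.mat < 2 * m :=
        Nat.div_lt_of_lt_mul (by rw [mul_comm, ← hT]; exact ht)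
      have hs := Nat.mod_lt t hB
      have hdm := Nat.div_add_mod t (blen D.mat)
      -- monotone in the block
      have hstep : ∀ s, s + 1 < blen D.mat →
          w (n + (t / blen D.mat * blen D.mat + s)) ≤
            w (n + (t / blen D.mat * blen D.mat + (s + 1))) := by
        intro s hs1
        have hlt : t / blen D.mat * blen D.mat + (s + 1) < spT D.mat := by
          rw [hT]
          calc t / blen D.mat * blen D.mat + (s + 1)
              < t / blen D.mat * blen D.mat + blen D.mat := by omega
            _ = (t / blen D.mat + 1) * blen D.mat := by ring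
            _ ≤ 2 * m * blen D.mat := Nat.mul_le_mul_right _ hr
        have hmod : (t / blen D.mat * blen D.mat + (s + 1)) % blen D.mat = s + 1 := by
          rw [Nat.add_comm, Nat.add_mul_mod_self_right, Nat.mod_eq_of_lt hs1]
        have h5 := hrec _ hlt
        rw [hN] at h5
        rw [h5]
        have h6 := su_mem D.mat (t := t / blen D.mat * blen D.mat + (s + 1)) (by
          rw [hmod]; omega)
        rw [hN] at h6
        have h7 : n + (t / blen D.mat * blen D.mat + (s + 1)) - 1 =
            n + (t / blen D.mat * blen D.mat + s) := by omega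
        rw [h7] at h6
        refine List.single_le_sum ?_ _ (List.mem_map.2 ⟨_, h6, rfl⟩)
        intro z hz
        rw [List.mem_map] at hz
        obtain ⟨a, ha, rfl⟩ := hz
        have := (hins _ hlt).2.1 a ha
        exact hnn a (by omega)
      have hmono : ∀ s s', s ≤ s' → s' < blen D.mat →
          w (n + (t / blen D.mat * blen D.mat + s)) ≤
            w (n + (t / blen D.mat * blen D.mat + s')) := by
        intro s s' hss
        induction s', hss using Nat.le_induction with
        | base => intro _; exact le_rfl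
        | succ k _ ih => intro hk; exact (ih (by omega)).trans (hstep k hk)
      have h8 := hmono (t % blen D.mat) (blen D.mat - 1) (by omega) (by omega)
      have h9 : t / blen D.mat * blen D.mat + t % blen D.mat = t := by
        rw [mul_comm]; exact hdm
      rw [h9] at h8
      refine h8.trans_lt ?_
      have h10 := block_value D.mat (r := t / blen D.mat) (by rw [hlen]; exact hr) hrec
      rw [hN] at h10
      have h11 : n + (t / blen D.mat + 1) * blen D.mat - 1 =
          n + (t / blen D.mat * blen D.mat + (blen D.mat - 1)) := by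
        have : (t / blen D.mat + 1) * blen D.mat = t / blen D.mat * blen D.mat + blen D.mat := by
          ring
        omega
      rw [h11] at h10
      rw [h10, Finset.sum_range]
      have h12 := h2 x hx ⟨t / blen D.mat / 2, by omega⟩ (t / blen D.mat % 2)
      refine lt_of_eq_of_lt (Finset.sum_congr rfl fun j _ => ?_) h12
      rw [hold]
  · -- a slack
    obtain ⟨i, rfl⟩ := Nat.exists_eq_add_of_le (not_lt.1 hv1)
    have hi : i < m + (spT D.mat + spT D.mat) := by omega
    have e2 : n + spT D.mat + i - (n + spT D.mat) = i := by omega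
    have e1 : D.sp.lval (n + spT D.mat + i) (phi n (spT D.mat) (spIns D.mat) x) +
        D.sp.cval (n + spT D.mat + i) = D.sp.b ⟨i, hi⟩ -
          ∑ j : Fin (n + spT D.mat), ((ent m n (spT D.mat) (spIns D.mat) (spP D.mat)
            (spQ D.mat) i j : ℚ) : ℝ) * w j := by
      unfold RLP.lval RLP.cval
      rw [dif_neg hv1, if_neg hv1, dif_pos (by rw [e2]; exact hi), dif_pos (by rw [e2]; exact hi)]
      simp only [e2]
      rw [← hsum i]
      simp only [LinearMap.neg_apply, LinearMap.sum_apply, LinearMap.smul_apply,
        LinearMap.proj_apply, smul_eq_mul]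
      rw [neg_add_eq_sub]
      rfl
    rw [e1]
    by_cases him : i < m
    · rw [row_old him (hpq ⟨i, him⟩).1 (hpq ⟨i, him⟩).2.1, hw, hw]
      have a1 := (hpq ⟨i, him⟩).2.2.2 x
      simp only at a1
      rw [a1]
      have a2 : D.sp.b ⟨i, hi⟩ = sc D.A i * D.b ⟨i, him⟩ := by
        unfold RLP.sp RLP.slp
        simp only
        rw [dif_pos him]
      rw [a2, ← mul_sub]
      exact h3 x hx ⟨i, him⟩
    · have a2 : D.sp.b ⟨i, hi⟩ = 0 := by
        unfold RLP.sp RLP.slp
        simp only
        rw [dif_neg him]
      rw [a2]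
      by_cases hi2 : i < m + spT D.mat
      · obtain ⟨t, rfl⟩ := Nat.exists_eq_add_of_le (not_lt.1 him)
        have h5 := hrec t (by omega)
        rw [hN] at h5
        rw [row_le hins (by omega), h5, sub_self, sub_zero]
        exact hU
      · obtain ⟨t, rfl⟩ := Nat.exists_eq_add_of_le (not_lt.1 hi2)
        have h5 := hrec t (by omega)
        rw [hN] at h5
        rw [row_ge hins (by omega), h5, sub_self, sub_zero]
        exact hU

end Pool.Agent.Simplex.EB
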