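import Pool.Agent.Lib.MP_4d246d_lc.EB.Hom
import Pool.Agent.Lib.MP_4d246d_lc.EB.SpUnder
import Pool.Agent.Lib.MP_4d246d_lc.EB.SpRed
import Pool.Agent.Lib.MP_4d246d_lc.EB.SlimQ

/-!
# The homogenised transportation program is small
-/

namespace Pool.Agent.Simplex.EB

open Pool.Agent.Lib.PolyTime Pool.Agent.Simplex.QP

/-- the exponent -/
def kOf (I : Input) : ℕ := 8 * sz I + 8

/-! ### Sizes of numbers -/

theorem hu_abs_ratCast_lt (q : ℚ) : |(q : ℝ)| < 2 ^ sz q := by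
  have h1 : |(q : ℝ)| = |(q.num : ℝ)| / (q.den : ℝ) := by
    rw [Rat.cast_def, abs_div, Nat.abs_cast]
  have h2 : (1 : ℝ) ≤ (q.den : ℝ) := by exact_mod_cast q.den_pos
  have h3 : |(q.num : ℝ)| < 2 ^ sz q.num := by exact_mod_cast abs_lt_two_pow_sz q.num
  have h4 : |(q.num : ℝ)| / (q.den : ℝ) ≤ |(q.num : ℝ)| := div_le_self (abs_nonneg _) h2
  rw [h1]
  refine (h4.trans_lt h3).trans_le (pow_le_pow_right₀ one_le_two ?_)
  rw [sz_rat]
  omega

theorem hu_den_le_two_pow (q : ℚ) : (q.den : ℤ) ≤ 2 ^ sz q := by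
  have h1 : q.den < 2 ^ Nat.size q.den := Nat.lt_size_self _
  have h2 : Nat.size q.den ≤ sz (⟨q.den⟩ : Bin) := size_le_sz_bin ⟨q.den⟩
  have h3 : Nat.size q.den ≤ sz q := by
    rw [sz_rat]
    omega
  have h4 : (q.den : ℤ) < 2 ^ Nat.size q.den := by exact_mod_cast h1
  exact h4.le.trans (pow_le_pow_right₀ one_le_two h3)

theorem hu_denZ_cons (q : ℚ) (l : List ℚ) : denZ (q :: l) = (q.den : ℤ) * denZ l := by
  unfold denZ
  rw [List.map_cons, List.prod_cons]

theorem hu_denZ_append (l l' : List ℚ) : denZ (l ++ l') = denZ l * denZ l' := by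
  unfold denZ
  rw [List.map_append, List.prod_append]

theorem hu_denZ_le (l : List ℚ) : denZ l ≤ 2 ^ sz l := by
  induction l with
  | nil => simp [denZ]
  | cons q l ih =>
    rw [hu_denZ_cons, sz_cons]
    have h1 := hu_den_le_two_pow q
    have h2 := denZ_pos l
    calc (q.den : ℤ) * denZ l ≤ 2 ^ sz q * 2 ^ sz l :=
          mul_le_mul h1 ih h2.le (by positivity)
      _ = 2 ^ (sz q + sz l) := (pow_add _ _ _).symm
      _ ≤ 2 ^ (1 + sz q + sz l) := pow_le_pow_right₀ one_le_two (by omega)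

theorem hu_denZ_eq_one {l : List ℚ} (h : ∀ q ∈ l, q.den = 1) : denZ l = 1 := by
  induction l with
  | nil => rfl
  | cons q l ih =>
    rw [hu_denZ_cons, h q List.mem_cons_self, ih fun a ha => h a (List.mem_cons_of_mem _ ha)]
    rfl

/-! ### Rows of the homogenised program -/

theorem hu_ofFn_homRow {n : ℕ} (a : Fin n → ℚ) (u w : ℚ) :
    List.ofFn (homRow a u w) = List.ofFn a ++ [u, w] := by
  apply List.ext_getElem
  · simp
  · intro i h1 h2
    rw [List.getElem_ofFn]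
    unfold homRow
    rw [List.length_ofFn] at h1
    rcases Nat.lt_or_ge i n with h | h
    · rw [dif_pos h, List.getElem_append_left (by rw [List.length_ofFn]; exact h),
        List.getElem_ofFn]
    · rw [dif_neg (not_lt.2 h), List.getElem_append_right (by rw [List.length_ofFn]; exact h)]
      rcases Nat.lt_or_ge n i with h3 | h3
      · have h4 : i = n + 1 := by omega
        subst h4
        rw [if_neg (by dsimp only; omega)]
        simp
      · have h4 : i = n := by omega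
        subst h4
        rw [if_pos rfl]
        simp

theorem hu_sum_homRow {n : ℕ} (f : Fin (n + 2) → ℝ) : ∑ j, f j =
    ∑ j : Fin n, f ⟨j, by omega⟩ + f ⟨n, by omega⟩ + f ⟨n + 1, by omega⟩ := by
  rw [Fin.sum_univ_castSucc, Fin.sum_univ_castSucc]
  rfl

section

variable {n : ℕ} (a : Fin n → ℚ) (u w : ℚ)

theorem hu_homRow_left (j : Fin n) : homRow a u w ⟨j, by omega⟩ = a j := by
  unfold homRow
  rw [dif_pos j.2]

theorem hu_homRow_mid : homRow a u w ⟨n, by omega⟩ = u := by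
  unfold homRow
  rw [dif_neg (lt_irrefl n), if_pos rfl]

theorem hu_homRow_last : homRow a u w ⟨n + 1, by omega⟩ = w := by
  unfold homRow
  rw [dif_neg (by dsimp only; omega), if_neg (by dsimp only; omega)]

end

/-- the right-hand sides -/
theorem hom_rhs (K : ℕ) {m n : ℕ} (D : QLP m n) (i : Fin _) :
    (spQLP (hom K D)).b i = 0 ∨ (spQLP (hom K D)).b i = 1 ∨ (spQLP (hom K D)).b i = -1 := by
  have hden : ∀ u : ℚ, u.den = 1 → denZ (List.ofFn (homRow (0 : Fin n → ℚ) u 0)) = 1 := by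
    intro u hu
    refine hu_denZ_eq_one fun q hq => ?_
    rw [hu_ofFn_homRow, List.mem_append] at hq
    rcases hq with hq | hq
    · obtain ⟨j, rfl⟩ := List.mem_ofFn.1 hq
      rfl
    · rw [List.mem_cons, List.mem_singleton] at hq
      rcases hq with rfl | rfl
      · exact hu
      · rfl
  have hpow : ((2 : ℚ) ^ K).den = 1 := by
    have h1 : ((2 : ℚ) ^ K) = ((2 ^ K : ℕ) : ℚ) := by push_cast; rfl
    rw [h1]
    exact Rat.den_natCast _
  show (if h : (i : ℕ) < m + 4 then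
    ((denZ (List.ofFn ((hom K D).A ⟨i, h⟩)) : ℤ) : ℚ) * (hom K D).b ⟨i, h⟩ else 0) = 0 ∨ _
  show _ ∨ (if h : (i : ℕ) < m + 4 then
    ((denZ (List.ofFn ((hom K D).A ⟨i, h⟩)) : ℤ) : ℚ) * (hom K D).b ⟨i, h⟩ else 0) = 1 ∨
    (if h : (i : ℕ) < m + 4 then
    ((denZ (List.ofFn ((hom K D).A ⟨i, h⟩)) : ℤ) : ℚ) * (hom K D).b ⟨i, h⟩ else 0) = -1
  by_cases hi : (i : ℕ) < m + 4
  swap
  · rw [dif_neg hi]
    exact Or.inl rfl
  rw [dif_pos hi]
  by_cases h1 : (i : ℕ) = m
  · have hA : (hom K D).A ⟨i, hi⟩ = homRow 0 (2 ^ K) 0 := by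
      unfold hom
      dsimp only
      rw [dif_neg (by omega), if_pos h1]
    have hb : (hom K D).b ⟨i, hi⟩ = 1 := by
      unfold hom
      dsimp only
      rw [if_pos h1]
    rw [hA, hb, hden _ hpow]
    exact Or.inr (Or.inl (by norm_num))
  by_cases h2 : (i : ℕ) = m + 1
  · have hA : (hom K D).A ⟨i, hi⟩ = homRow 0 (- 2 ^ K) 0 := by
      unfold hom
      dsimp only
      rw [dif_neg (by omega), if_neg h1, if_pos h2]
    have hb : (hom K D).b ⟨i, hi⟩ = -1 := by
      unfold hom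
      dsimp only
      rw [if_neg h1, if_pos h2]
    rw [hA, hb, hden _ (by rw [Rat.neg_den]; exact hpow)]
    exact Or.inr (Or.inr (by norm_num))
  · have hb : (hom K D).b ⟨i, hi⟩ = 0 := by
      unfold hom
      dsimp only
      rw [if_neg h1, if_neg h2]
    rw [hb, mul_zero]
    exact Or.inl rfl

/-- the objective -/
theorem hom_obj (K : ℕ) {m n : ℕ} (D : QLP m n) (j : Fin _) :
    (spQLP (hom K D)).c j = if (j : ℕ) = n + 1 then 1 else 0 := by
  show (if h : (j : ℕ) < n + 2 then (hom K D).c ⟨j, h⟩ else 0) = _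
  by_cases hj : (j : ℕ) < n + 2
  · rw [dif_pos hj]
    rfl
  · rw [dif_neg hj, if_neg (by omega)]

/-! ### Bounds -/

/-- Bounds for a program: all rows are equalities on the feasible set, everything is small. -/
structure SmallP (S : ℕ) {m n : ℕ} (D : QLP m n) : Prop where
  dim : n ≤ S
  le : ∀ x ∈ D.feasible, ∀ j, x j ≤ 2 ^ S
  eq : ∀ x ∈ D.feasible, ∀ i, ∑ j, (D.A i j : ℝ) * x j = D.b i
  row : ∀ i, sz (List.ofFn (D.A i)) ≤ S
  rhs : ∀ i, sz (D.b i) ≤ S
  cost : sz (List.ofFn D.c) ≤ S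

theorem hu_intC_den {n : ℕ} (c : Fin n → ℚ) (j : Fin n) : (intC c j).den = 1 := by
  obtain ⟨k, hk⟩ := den_dvd (l := List.ofFn c) (q := c j) (List.mem_ofFn.2 ⟨j, rfl⟩)
  have h1 : intC c j = ((c j).num * k : ℤ) := by
    unfold intC
    rw [hk]
    have h2 : ((c j).den : ℚ) * c j = (c j).num := Rat.den_mul_eq_num (c j)
    push_cast
    linear_combination (k : ℚ) * h2
  rw [h1]
  exact Rat.den_intCast _

theorem hu_abs_intC_le {n S : ℕ} {c : Fin n → ℚ} (h : sz (List.ofFn c) ≤ S) (j : Fin n) :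
    |(intC c j : ℝ)| ≤ 2 ^ (2 * S) := by
  have h1 : ((denZ (List.ofFn c) : ℤ) : ℝ) ≤ 2 ^ S := by
    have h2 : denZ (List.ofFn c) ≤ 2 ^ S :=
      (hu_denZ_le _).trans (pow_le_pow_right₀ one_le_two h)
    exact_mod_cast h2
  have h0 : (0 : ℝ) < ((denZ (List.ofFn c) : ℤ) : ℝ) := by exact_mod_cast denZ_pos _
  have h2 : |((c j : ℚ) : ℝ)| ≤ 2 ^ S := by
    refine (hu_abs_ratCast_lt _).le.trans (pow_le_pow_right₀ one_le_two ?_)
    have h3 := sz_mem (l := List.ofFn c) (a := c j) (List.mem_ofFn.2 ⟨j, rfl⟩)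
    omega
  have h4 : ((intC c j : ℚ) : ℝ) = ((denZ (List.ofFn c) : ℤ) : ℝ) * ((c j : ℚ) : ℝ) := by
    unfold intC
    push_cast
    rfl
  rw [h4, abs_mul, abs_of_pos h0, two_mul, pow_add]
  exact mul_le_mul h1 h2 (abs_nonneg _) (by positivity)

variable {m n S : ℕ} {D : QLP m n}

/-- weighted sums of the variables are small -/
theorem SmallP.sum_le (hD : SmallP S D) {x : Fin n → ℝ} (hx : x ∈ D.feasible) {a : Fin n → ℝ}
    {t : ℕ} (ha : ∀ j, a j ≤ 2 ^ t) : ∑ j, a j * x j ≤ 2 ^ (2 * S + t) := by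
  have h1 : ∀ j ∈ Finset.univ, a j * x j ≤ 2 ^ t * 2 ^ S := fun j _ =>
    mul_le_mul (ha j) (hD.le x hx j) (hx.2 j) (by positivity)
  have h2 := Finset.sum_le_card_nsmul _ _ _ h1
  rw [Finset.card_univ, Fintype.card_fin, nsmul_eq_mul] at h2
  have h3 : (n : ℝ) ≤ 2 ^ S := by
    have h4 : n ≤ 2 ^ S := hD.dim.trans Nat.lt_two_pow_self.le
    exact_mod_cast h4
  calc ∑ j, a j * x j ≤ (n : ℝ) * (2 ^ t * 2 ^ S) := h2
    _ ≤ 2 ^ S * (2 ^ t * 2 ^ S) := mul_le_mul_of_nonneg_right h3 (by positivity)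
    _ = 2 ^ (2 * S + t) := by ring

theorem SmallP.omega (hD : SmallP S D) : OmegaOK (8 * S + 8) D := by
  intro x hx
  have h1 := hD.sum_le hx (a := fun j => - (intC D.c j : ℝ)) (t := 2 * S) fun j =>
    (neg_le_abs _).trans (hu_abs_intC_le hD.cost j)
  have h2 : ∑ j, - (intC D.c j : ℝ) * x j = - ∑ j, (intC D.c j : ℝ) * x j := by
    rw [← Finset.sum_neg_distrib]
    exact Finset.sum_congr rfl fun j _ => neg_mul _ _
  rw [h2] at h1
  have h3 : (2 : ℝ) ^ (2 * S + 2 * S) ≤ 2 ^ (8 * S + 8) :=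
    pow_le_pow_right₀ one_le_two (by omega)
  linarith

/-- positive or negative part of a real number -/
noncomputable def pr (s : ℕ) (t : ℝ) : ℝ := if s = 0 then max t 0 else max (-t) 0

theorem hu_part_cast (s : ℕ) (z : ℤ) : ((part s z : ℤ) : ℝ) = pr s (z : ℝ) := by
  unfold part pr
  split_ifs <;> push_cast <;> rfl

theorem hu_pr_le_abs (s : ℕ) (t : ℝ) : pr s t ≤ |t| := by
  unfold pr
  split_ifs
  · exact max_le (le_abs_self t) (abs_nonneg t)
  · exact max_le (neg_le_abs t) (abs_nonneg t)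

/-- the point of the homogenised program -/
noncomputable def homY (K : ℕ) (D : QLP m n) (x : Fin n → ℝ) (j : Fin (n + 2)) : ℝ :=
  if h : (j : ℕ) < n then x ⟨j, h⟩ / 2 ^ K else if (j : ℕ) = n then 1 / 2 ^ K
    else (∑ j, (intC D.c j : ℝ) * x j) / 2 ^ K + 1

theorem hu_homIso_apply {K : ℕ} (hK : OmegaOK K D) (x : Fin n → ℝ) (j : Fin (n + 2)) :
    (homIso hK).L x j + (homIso hK).a j = homY K D x j := by
  show (if h : (j : ℕ) < n then x ⟨j, h⟩ / 2 ^ K
        else if (j : ℕ) = n then 0 else (∑ j, (intC D.c j : ℝ) * x j) / 2 ^ K) +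
      (if (j : ℕ) < n then 0 else if (j : ℕ) = n then 1 / 2 ^ K else 1) = _
  unfold homY
  split_ifs
  · rw [add_zero]
  · rw [zero_add]
  · rfl

theorem hu_homY_left (K : ℕ) (x : Fin n → ℝ) (j : Fin n) :
    homY K D x ⟨j, by omega⟩ = x j / 2 ^ K := by
  unfold homY
  rw [dif_pos j.2]

theorem hu_homY_mid (K : ℕ) (x : Fin n → ℝ) : homY K D x ⟨n, by omega⟩ = 1 / 2 ^ K := by
  unfold homY
  rw [dif_neg (lt_irrefl n), if_pos rfl]

theorem hu_homY_last (K : ℕ) (x : Fin n → ℝ) : homY K D x ⟨n + 1, by omega⟩ =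
    (∑ j, (intC D.c j : ℝ) * x j) / 2 ^ K + 1 := by
  unfold homY
  rw [dif_neg (by dsimp only; omega), if_neg (by dsimp only; omega)]

/-- sums of the weighted variables of the homogenised program -/
theorem hu_sum_homY (K : ℕ) (x : Fin n → ℝ) (g : ℚ → ℝ) (a : Fin n → ℚ) (u w : ℚ) :
    ∑ j, g (homRow a u w j) * homY K D x j = (∑ j, g (a j) * x j) / 2 ^ K + g u / 2 ^ K +
      g w * ((∑ j, (intC D.c j : ℝ) * x j) / 2 ^ K + 1) := by
  rw [hu_sum_homRow, hu_homRow_mid, hu_homRow_last, hu_homY_mid, hu_homY_last]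
  have h1 : ∀ j : Fin n, g (homRow a u w ⟨j, by omega⟩) * homY K D x ⟨j, by omega⟩ =
      g (a j) * x j / 2 ^ K := by
    intro j
    rw [hu_homRow_left, hu_homY_left]
    ring
  rw [Finset.sum_congr rfl fun j _ => h1 j, ← Finset.sum_div]
  ring

theorem hu_denZ_homRow_le {S : ℕ} {a : Fin n → ℚ} {u : ℚ} (ha : sz (List.ofFn a) ≤ S)
    (hu : sz u ≤ S) : denZ (List.ofFn (homRow a (-u) 0)) ≤ 2 ^ (2 * S) := by
  rw [hu_ofFn_homRow, hu_denZ_append, hu_denZ_cons, hu_denZ_cons, Rat.neg_den]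
  have h1 : denZ (List.ofFn a) ≤ 2 ^ S := (hu_denZ_le _).trans (pow_le_pow_right₀ one_le_two ha)
  have h2 : (u.den : ℤ) ≤ 2 ^ S := (hu_den_le_two_pow u).trans (pow_le_pow_right₀ one_le_two hu)
  have h3 : (u.den : ℤ) * (((0 : ℚ).den : ℤ) * denZ []) = u.den := by
    simp [denZ]
  rw [h3, two_mul, pow_add]
  exact mul_le_mul h1 h2 (Int.natCast_nonneg _) (by positivity)

/-- the denominator is one for rows of integers -/
theorem hu_denZ_homRow_one {a : Fin n → ℚ} {u w : ℚ} (ha : ∀ j, (a j).den = 1) (hu : u.den = 1)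
    (hw : w.den = 1) : denZ (List.ofFn (homRow a u w)) = 1 := by
  refine hu_denZ_eq_one fun q hq => ?_
  rw [hu_ofFn_homRow, List.mem_append] at hq
  rcases hq with hq | hq
  · obtain ⟨j, rfl⟩ := List.mem_ofFn.1 hq
    exact ha j
  · rw [List.mem_cons, List.mem_singleton] at hq
    rcases hq with rfl | rfl
    · exact hu
    · exact hw

theorem hu_pow_den (K : ℕ) : ((2 : ℚ) ^ K).den = 1 := by
  have h1 : ((2 : ℚ) ^ K) = ((2 ^ K : ℕ) : ℚ) := by push_cast; rfl
  rw [h1]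
  exact Rat.den_natCast _

/-- the integer rows of a program -/
theorem hu_getD_irow {m n : ℕ} (D : RLP m n) (i : Fin m) (j : Fin n) :
    (((irow D.mat i).getD j 0 : ℤ) : ℝ) =
      ((denZ (List.ofFn (D.A i)) : ℤ) : ℝ) * ((D.A i j : ℚ) : ℝ) := by
  have h4 : irow D.mat i = clr (denZ (List.ofFn (D.A i))) (List.ofFn (D.A i)) := by
    unfold irow
    have h5 : D.mat.2.getD i [] = List.ofFn (D.A i) := by
      rw [List.getD_eq_getElem _ _ (by rw [mat_len]; exact i.2)]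
      simp [RLP.mat]
    rw [h5]
  rw [h4]
  exact getD_clr _ (fun j => den_dvd (List.mem_ofFn.2 ⟨j, rfl⟩)) j

/-- The five kinds of rows. -/
theorem hu_hom_row (K : ℕ) (D : QLP m n) (i : Fin (m + 4)) :
    (∃ i' : Fin m, (hom K D).A i = homRow (D.A i') (- D.b i') 0 ∧ (hom K D).b i = 0) ∨
    ((hom K D).A i = homRow 0 (2 ^ K) 0 ∧ (hom K D).b i = 1) ∨
    ((hom K D).A i = homRow 0 (- 2 ^ K) 0 ∧ (hom K D).b i = -1) ∨
    ((hom K D).A i = homRow (fun j => - intC D.c j) (- 2 ^ K) 1 ∧ (hom K D).b i = 0) ∨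
    ((hom K D).A i = homRow (intC D.c) (2 ^ K) (-1) ∧ (hom K D).b i = 0) := by
  unfold hom
  dsimp only
  by_cases h0 : (i : ℕ) < m
  · refine Or.inl ⟨⟨i, h0⟩, ?_, ?_⟩
    · rw [dif_pos h0]
    · rw [if_neg (by omega), if_neg (by omega)]
  rw [dif_neg h0]
  by_cases h1 : (i : ℕ) = m
  · rw [if_pos h1, if_pos h1]
    exact Or.inr (Or.inl ⟨rfl, rfl⟩)
  rw [if_neg h1, if_neg h1]
  by_cases h2 : (i : ℕ) = m + 1
  · rw [if_pos h2, if_pos h2]
    exact Or.inr (Or.inr (Or.inl ⟨rfl, rfl⟩))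
  rw [if_neg h2, if_neg h2]
  by_cases h3 : (i : ℕ) = m + 2
  · rw [if_pos h3]
    exact Or.inr (Or.inr (Or.inr (Or.inl ⟨rfl, rfl⟩)))
  · rw [if_neg h3]
    exact Or.inr (Or.inr (Or.inr (Or.inr ⟨rfl, rfl⟩)))

section

variable (hD : SmallP S D) {x : Fin n → ℝ} (hx : x ∈ D.feasible)

include hD hx

/-- all rows are equalities -/
theorem SmallP.hom_eq (i : Fin (m + 4)) :
    ∑ j, (((hom (8 * S + 8) D).A i j : ℚ) : ℝ) * homY (8 * S + 8) D x j =
      (((hom (8 * S + 8) D).b i : ℚ) : ℝ) := by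
  have hp : (2 : ℝ) ^ (8 * S + 8) ≠ 0 := by positivity
  have hs := fun a u w => hu_sum_homY (D := D) (8 * S + 8) x (fun q => (q : ℝ)) a u w
  rcases hu_hom_row (8 * S + 8) D i with ⟨i', h1, h2⟩ | ⟨h1, h2⟩ | ⟨h1, h2⟩ | ⟨h1, h2⟩ | ⟨h1, h2⟩
  · rw [h1, h2, hs, hD.eq x hx i']
    push_cast
    field_simp
    ring
  · rw [h1, h2, hs]
    simp [hp]
  · rw [h1, h2, hs]
    simp [hp]
  · rw [h1, h2, hs]
    push_cast
    have h3 : ∑ j, -((intC D.c j : ℚ) : ℝ) * x j = - ∑ j, (intC D.c j : ℝ) * x j := by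
      rw [← Finset.sum_neg_distrib]
      exact Finset.sum_congr rfl fun j _ => neg_mul _ _
    rw [h3]
    field_simp
    ring
  · rw [h1, h2, hs]
    push_cast
    field_simp
    ring

/-- all variables are below `2` -/
theorem SmallP.homY_lt (j : Fin (n + 2)) : homY (8 * S + 8) D x j < 2 := by
  have hp : (0 : ℝ) < 2 ^ (8 * S + 8) := by positivity
  unfold homY
  split_ifs with h1 h2
  · rw [div_lt_iff₀ hp]
    have h3 := hD.le x hx ⟨j, h1⟩
    have h4 : (2 : ℝ) ^ S ≤ 2 ^ (8 * S + 8) := pow_le_pow_right₀ one_le_two (by omega)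
    linarith
  · rw [div_lt_iff₀ hp]
    have h4 : (1 : ℝ) ≤ 2 ^ (8 * S + 8) := one_le_pow₀ one_le_two
    linarith
  · have h3 := hD.sum_le hx (a := fun j => (intC D.c j : ℝ)) (t := 2 * S) fun j =>
      (le_abs_self _).trans (hu_abs_intC_le hD.cost j)
    have h4 : (2 : ℝ) ^ (2 * S + 2 * S) < 2 ^ (8 * S + 8) :=
      pow_lt_pow_right₀ one_lt_two (by omega)
    have h5 : (∑ j, (intC D.c j : ℝ) * x j) / 2 ^ (8 * S + 8) < 1 := by
      rw [div_lt_one hp]
      linarith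
    linarith

/-- the positive and the negative part of each integer row are below `2` -/
theorem SmallP.part_lt (i : Fin (m + 4)) (s : ℕ) :
    ∑ j : Fin (n + 2), ((part s ((irow (ofQ (hom (8 * S + 8) D)).mat i).getD j 0) : ℤ) : ℝ) *
      homY (8 * S + 8) D x j < 2 := by
  have hp : (0 : ℝ) < 2 ^ (8 * S + 8) := by positivity
  have hp1 : (1 : ℝ) ≤ 2 ^ (8 * S + 8) := one_le_pow₀ one_le_two
  have hi : ∀ j : Fin (n + 2),
      ((part s ((irow (ofQ (hom (8 * S + 8) D)).mat i).getD j 0) : ℤ) : ℝ) =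
      pr s (((denZ (List.ofFn ((hom (8 * S + 8) D).A i)) : ℤ) : ℝ) *
        (((hom (8 * S + 8) D).A i j : ℚ) : ℝ)) := by
    intro j
    rw [hu_part_cast, hu_getD_irow]
    rfl
  rw [Finset.sum_congr rfl fun j _ => by rw [hi j]]
  have hs := fun (d : ℝ) a u w =>
    hu_sum_homY (D := D) (8 * S + 8) x (fun q => pr s (d * (q : ℝ))) a u w
  -- the positive part of the objective
  have hC := hD.sum_le hx (a := fun j => max (intC D.c j : ℝ) 0) (t := 2 * S) fun j =>
    max_le ((le_abs_self _).trans (hu_abs_intC_le hD.cost j)) (by positivity)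
  have hC' := hD.sum_le hx (a := fun j => max (-(intC D.c j : ℝ)) 0) (t := 2 * S) fun j =>
    max_le ((neg_le_abs _).trans (hu_abs_intC_le hD.cost j)) (by positivity)
  have hlt : (2 : ℝ) ^ (2 * S + 2 * S) < 2 ^ (8 * S + 8) :=
    pow_lt_pow_right₀ one_lt_two (by omega)
  have hCC : (∑ j, max (-(intC D.c j : ℝ)) 0 * x j) + ∑ j, (intC D.c j : ℝ) * x j =
      ∑ j, max (intC D.c j : ℝ) 0 * x j := by
    rw [← Finset.sum_add_distrib]
    refine Finset.sum_congr rfl fun j _ => ?_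
    rw [← add_mul]
    congr 1
    rcases le_total (intC D.c j : ℝ) 0 with h | h
    · rw [max_eq_left (by linarith), max_eq_right h]
      ring
    · rw [max_eq_right (by linarith), max_eq_left h]
      ring
  have hC1 : (∑ j, max (intC D.c j : ℝ) 0 * x j) / 2 ^ (8 * S + 8) < 1 := by
    rw [div_lt_one hp]
    linarith
  have hint : ∀ j, (- intC D.c j).den = 1 := fun j => by rw [Rat.neg_den, hu_intC_den]
  rcases hu_hom_row (8 * S + 8) D i with ⟨i', h1, -⟩ | ⟨h1, -⟩ | ⟨h1, -⟩ | ⟨h1, -⟩ | ⟨h1, -⟩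
  · rw [h1, hs]
    have hd : ((denZ (List.ofFn (homRow (D.A i') (- D.b i') 0)) : ℤ) : ℝ) ≤ 2 ^ (2 * S) := by
      exact_mod_cast hu_denZ_homRow_le (hD.row i') (hD.rhs i')
    have hd0 : (0 : ℝ) < ((denZ (List.ofFn (homRow (D.A i') (- D.b i') 0)) : ℤ) : ℝ) := by
      exact_mod_cast denZ_pos _
    have hb : ∀ q : ℚ, sz q ≤ S →
        pr s (((denZ (List.ofFn (homRow (D.A i') (- D.b i') 0)) : ℤ) : ℝ) * (q : ℝ)) ≤
          2 ^ (3 * S) ∧
        pr s (((denZ (List.ofFn (homRow (D.A i') (- D.b i') 0)) : ℤ) : ℝ) * ((-q : ℚ) : ℝ)) ≤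
          2 ^ (3 * S) := by
      intro q hq
      have h2 : |(q : ℝ)| ≤ 2 ^ S :=
        (hu_abs_ratCast_lt q).le.trans (pow_le_pow_right₀ one_le_two hq)
      have h3 : ((denZ (List.ofFn (homRow (D.A i') (- D.b i') 0)) : ℤ) : ℝ) * |(q : ℝ)| ≤
          2 ^ (3 * S) := by
        have h4 : (2 : ℝ) ^ (3 * S) = 2 ^ (2 * S) * 2 ^ S := by ring
        rw [h4]
        exact mul_le_mul hd h2 (abs_nonneg _) (by positivity)
      constructor
      · refine (hu_pr_le_abs _ _).trans ?_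
        rw [abs_mul, abs_of_pos hd0]
        exact h3
      · refine (hu_pr_le_abs _ _).trans ?_
        rw [Rat.cast_neg, mul_neg, abs_neg, abs_mul, abs_of_pos hd0]
        exact h3
    have e1 := hD.sum_le hx (a := fun j => pr s (((denZ (List.ofFn (homRow (D.A i')
      (- D.b i') 0)) : ℤ) : ℝ) * ((D.A i' j : ℚ) : ℝ))) (t := 3 * S) fun j =>
        (hb (D.A i' j) (by
          have h3 := sz_mem (l := List.ofFn (D.A i')) (a := D.A i' j)
            (List.mem_ofFn.2 ⟨j, rfl⟩)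
          have h4 := hD.row i'
          omega)).1
    have e2 := (hb (D.b i') (hD.rhs i')).2
    have e3 : pr s (((denZ (List.ofFn (homRow (D.A i') (- D.b i') 0)) : ℤ) : ℝ) *
        ((0 : ℚ) : ℝ)) = 0 := by
      unfold pr
      simp
    rw [e3, zero_mul, add_zero, ← add_div, div_lt_iff₀ hp]
    have e4 : (2 : ℝ) ^ (2 * S + 3 * S) ≤ 2 ^ (8 * S + 8) / 2 := by
      rw [le_div_iff₀ two_pos, ← pow_succ]
      exact pow_le_pow_right₀ one_le_two (by omega)
    have e5 : (2 : ℝ) ^ (3 * S) ≤ 2 ^ (8 * S + 8) / 2 := by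
      rw [le_div_iff₀ two_pos, ← pow_succ]
      exact pow_le_pow_right₀ one_le_two (by omega)
    linarith
  · rw [h1, hs, hu_denZ_homRow_one (fun _ => rfl) (hu_pow_den _) rfl]
    have e1 : pr s (((1 : ℤ) : ℝ) * (((2 : ℚ) ^ (8 * S + 8) : ℚ) : ℝ)) ≤ 2 ^ (8 * S + 8) := by
      refine (hu_pr_le_abs _ _).trans ?_
      push_cast
      rw [one_mul, abs_of_pos hp]
    have e2 : pr s (((1 : ℤ) : ℝ) * (((0 : ℚ) : ℚ) : ℝ)) = 0 := by
      unfold pr
      simp
    have e3 : ∑ j : Fin n, pr s (((1 : ℤ) : ℝ) * ((((0 : Fin n → ℚ) j) : ℚ) : ℝ)) * x j = 0 :=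
      Finset.sum_eq_zero fun j _ => by
        show pr s (((1 : ℤ) : ℝ) * (((0 : ℚ) : ℚ) : ℝ)) * x j = 0
        rw [e2, zero_mul]
    rw [e3, e2, zero_div, zero_add, zero_mul, add_zero, div_lt_iff₀ hp]
    linarith
  · rw [h1, hs, hu_denZ_homRow_one (fun _ => rfl) (by rw [Rat.neg_den]; exact hu_pow_den _) rfl]
    have e1 : pr s (((1 : ℤ) : ℝ) * (((- 2 ^ (8 * S + 8) : ℚ) : ℚ) : ℝ)) ≤ 2 ^ (8 * S + 8) := by
      refine (hu_pr_le_abs _ _).trans ?_
      push_cast
      rw [one_mul, abs_neg, abs_of_pos hp]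
    have e2 : pr s (((1 : ℤ) : ℝ) * (((0 : ℚ) : ℚ) : ℝ)) = 0 := by
      unfold pr
      simp
    have e3 : ∑ j : Fin n, pr s (((1 : ℤ) : ℝ) * ((((0 : Fin n → ℚ) j) : ℚ) : ℝ)) * x j = 0 :=
      Finset.sum_eq_zero fun j _ => by
        show pr s (((1 : ℤ) : ℝ) * (((0 : ℚ) : ℚ) : ℝ)) * x j = 0
        rw [e2, zero_mul]
    rw [e3, e2, zero_div, zero_add, zero_mul, add_zero, div_lt_iff₀ hp]
    linarith
  · rw [h1, hs, hu_denZ_homRow_one hint (by rw [Rat.neg_den]; exact hu_pow_den _) rfl]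
    push_cast
    unfold pr
    split_ifs with h0
    · have e1 : max ((1 : ℝ) * -2 ^ (8 * S + 8)) 0 = 0 := max_eq_right (by linarith)
      have e2 : max ((1 : ℝ) * 1) 0 = 1 := by norm_num
      have e3 : ∑ j, max (1 * -(intC D.c j : ℝ)) 0 * x j =
          ∑ j, max (-(intC D.c j : ℝ)) 0 * x j :=
        Finset.sum_congr rfl fun j _ => by rw [one_mul]
      rw [e1, e2, e3, zero_div, add_zero, one_mul, ← add_assoc, ← add_div, hCC]
      linarith
    · have e1 : max (-((1 : ℝ) * -2 ^ (8 * S + 8))) 0 = 2 ^ (8 * S + 8) := by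
        rw [one_mul, neg_neg]
        exact max_eq_left hp.le
      have e2 : max (-((1 : ℝ) * 1)) 0 = 0 := by norm_num
      have e3 : ∑ j, max (-(1 * -(intC D.c j : ℝ))) 0 * x j =
          ∑ j, max (intC D.c j : ℝ) 0 * x j :=
        Finset.sum_congr rfl fun j _ => by rw [one_mul, neg_neg]
      rw [e1, e2, e3, zero_mul, add_zero, div_self hp.ne']
      linarith
  · rw [h1, hs, hu_denZ_homRow_one (hu_intC_den D.c) (hu_pow_den _) rfl]
    push_cast
    unfold pr
    split_ifs with h0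
    · have e1 : max ((1 : ℝ) * 2 ^ (8 * S + 8)) 0 = 2 ^ (8 * S + 8) := by
        rw [one_mul]
        exact max_eq_left hp.le
      have e2 : max ((1 : ℝ) * -1) 0 = 0 := by norm_num
      have e3 : ∑ j, max (1 * (intC D.c j : ℝ)) 0 * x j =
          ∑ j, max (intC D.c j : ℝ) 0 * x j :=
        Finset.sum_congr rfl fun j _ => by rw [one_mul]
      rw [e1, e2, e3, zero_mul, add_zero, div_self hp.ne']
      linarith
    · have e1 : max (-((1 : ℝ) * 2 ^ (8 * S + 8))) 0 = 0 := max_eq_right (by linarith)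
      have e2 : max (-((1 : ℝ) * -1)) 0 = 1 := by norm_num
      have e3 : ∑ j, max (-(1 * (intC D.c j : ℝ))) 0 * x j =
          ∑ j, max (-(intC D.c j : ℝ)) 0 * x j :=
        Finset.sum_congr rfl fun j _ => by rw [one_mul]
      rw [e1, e2, e3, zero_div, add_zero, one_mul, ← add_assoc, ← add_div, hCC]
      linarith

end

theorem SmallP.under (hD : SmallP S D) : (ofQ (spQLP (hom (8 * S + 8) D))).Under 2 := by
  rw [ofQ_spQLP]
  have key : ∀ y ∈ (ofQ (hom (8 * S + 8) D)).feasible, ∃ x ∈ D.feasible,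
      y = homY (8 * S + 8) D x := by
    intro y hy
    rw [(homIso hD.omega).feas] at hy
    obtain ⟨x, hx, rfl⟩ := hy
    exact ⟨x, hx, funext fun j => hu_homIso_apply hD.omega x j⟩
  refine sp_under two_pos ?_ ?_ ?_
  · intro y hy j
    obtain ⟨x, hx, rfl⟩ := key y hy
    exact hD.homY_lt hx j
  · intro y hy i s
    obtain ⟨x, hx, rfl⟩ := key y hy
    exact hD.part_lt hx i s
  · intro y hy i
    obtain ⟨x, hx, rfl⟩ := key y hy
    have h1 : (ofQ (hom (8 * S + 8) D)).b i -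
        ∑ j, (((ofQ (hom (8 * S + 8) D)).A i j : ℚ) : ℝ) * homY (8 * S + 8) D x j = 0 := by
      rw [sub_eq_zero]
      exact (hD.hom_eq hx i).symm
    rw [h1, mul_zero]
    exact two_pos

/-! ### Transportation programs -/

theorem hu_ofQ_transportQ {r c : ℕ} (s : Fin (lines r c) → ℚ) (cost : Fin (3 * (r * c)) → ℚ) :
    ofQ (transportQ r c s cost) = transport r c (fun p => (s p : ℝ)) (fun q => (cost q : ℝ)) := by
  unfold ofQ transportQ transport
  congr 1
  funext i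
  induction i using Fin.addCases with
  | left p => dsimp only; rw [Fin.addCases_left, Fin.addCases_left]
  | right p => dsimp only; rw [Fin.addCases_right, Fin.addCases_right, Rat.cast_neg]

theorem small_transport {I : Input} (hI : IsTransport I) : SmallP (sz I) I.lp := by
  have hsz : sz I = 1 + sz I.n + (1 + sz (List.ofFn (fun i => List.ofFn (I.lp.A i))) +
      (1 + sz (List.ofFn I.lp.b) + (1 + sz (List.ofFn I.lp.c) + sz (List.ofFn I.v)))) := rfl
  have hc : sz (List.ofFn I.lp.c) ≤ sz I := by omega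
  have hb : ∀ i, sz (I.lp.b i) ≤ sz I := by
    intro i
    have h1 := sz_mem (l := List.ofFn I.lp.b) (a := I.lp.b i) (List.mem_ofFn.2 ⟨i, rfl⟩)
    omega
  have hr : ∀ i, sz (List.ofFn (I.lp.A i)) ≤ sz I := by
    intro i
    have h1 := sz_mem (l := List.ofFn (fun i => List.ofFn (I.lp.A i)))
      (a := List.ofFn (I.lp.A i)) (List.mem_ofFn.2 ⟨i, rfl⟩)
    omega
  have hn : I.n ≤ sz I := by
    have h1 := length_le_sz (List.ofFn I.lp.c)
    rw [List.length_ofFn] at h1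
    omega
  obtain ⟨r, c, s, cost, v, hv, rfl⟩ := hI
  have heq : ∀ x ∈ (transportQ r c s cost).feasible, ∀ i,
      ∑ j, (((transportQ r c s cost).A i j : ℚ) : ℝ) * x j =
        (((transportQ r c s cost).b i : ℚ) : ℝ) := by
    intro x hx i
    have hx' : x ∈ (transport r c (fun p => (s p : ℝ)) (fun q => (cost q : ℝ))).feasible := by
      rw [← hu_ofQ_transportQ]
      exact hx
    have h1 := transport_tight hx' i
    rw [← hu_ofQ_transportQ] at h1
    exact h1
  refine ⟨hn, fun x hx j => ?_, heq, hr, hb, hc⟩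
  have hj : (j : ℕ) / 3 < lines r c := by
    have h1 := j.2
    unfold lines
    have h2 : (j : ℕ) / 3 < r * c := by
      dsimp only at h1 ⊢
      omega
    omega
  have h1 := heq x hx (Fin.castAdd (lines r c) ⟨(j : ℕ) / 3, hj⟩)
  have hA : ∀ q : Fin (3 * (r * c)),
      (transportQ r c s cost).A (Fin.castAdd (lines r c) ⟨(j : ℕ) / 3, hj⟩) q =
        if OnLine r c ((j : ℕ) / 3) q then 1 else 0 := by
    intro q
    unfold transportQ
    dsimp only
    rw [Fin.addCases_left]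
  have h2 : x j ≤ ∑ q, (((transportQ r c s cost).A
      (Fin.castAdd (lines r c) ⟨(j : ℕ) / 3, hj⟩) q : ℚ) : ℝ) * x q := by
    have h3 : ∀ q ∈ Finset.univ, 0 ≤ (((transportQ r c s cost).A
        (Fin.castAdd (lines r c) ⟨(j : ℕ) / 3, hj⟩) q : ℚ) : ℝ) * x q := by
      intro q _
      rw [hA]
      split_ifs
      · rw [Rat.cast_one, one_mul]
        exact hx.2 q
      · rw [Rat.cast_zero, zero_mul]
    have h4 := Finset.single_le_sum h3 (Finset.mem_univ j)
    have hon : OnLine r c ((j : ℕ) / 3) j := Or.inl rfl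
    rw [hA, if_pos hon, Rat.cast_one, one_mul] at h4
    exact h4
  rw [h1] at h2
  refine h2.trans ?_
  refine (le_abs_self _).trans ?_
  exact (hu_abs_ratCast_lt _).le.trans (pow_le_pow_right₀ one_le_two (hb _))

theorem omega_ok {I : Input} (hI : IsTransport I) : OmegaOK (kOf I) I.lp :=
  (small_transport hI).omega

/-- all variables of the sparse form of the homogenised program are below `2` -/
theorem hom_under {I : Input} (hI : IsTransport I) :
    (ofQ (spQLP (hom (kOf I) I.lp))).Under 2 :=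
  (small_transport hI).under

end Pool.Agent.Simplex.EB
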