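import Pool.Agent.Lib.MP_4d246d_lc.EB.OneFin
import Pool.Agent.Lib.MP_4d246d_lc.EB.HomUnder

/-!
# Blind rules on a class of inputs, and one entry of tables with the line sums 0, 1, 2
-/

namespace Pool.Agent.Simplex.EB

open Pool.Agent.Lib.PolyTime Pool.Agent.Simplex.QP Turing

/-- **A blind rule that is polynomial on a class of inputs gives a version of the simplex method
for the class.** -/
theorem simplexOn_of_blind {Q : Input → Prop} {ρ : BlindRule} (hρ : ρ.Poly) {P : Polynomial ℕ}
    (hS : ∀ I, Q I → Solves ρ (ofQ I.lp) (P.eval (matSize I))) : SimplexOn Q := by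
  classical
  have hρ' : PolyF ρ := polyF_of_tm2 hρ
  have hrun : ∀ I : Input, ∃ (N : ℕ) (x : ℕ → Fin I.n → ℚ) (s : Verdict), Q I →
      SimplexRun I N x s ∧
      outSim ((simStep ρ (fixOf I))^[P.eval (matSize I) + 1] (sim0 I)) = protocol N x s := by
    intro I
    by_cases hI : Q I
    · obtain ⟨N, x, s, h1, -, h2⟩ := run_of_solves (hS I hI)
      exact ⟨N, x, s, fun _ => ⟨h1, h2⟩⟩
    · exact ⟨0, fun _ => 0, .pivot, fun h => absurd h hI⟩
  choose N x s hall using hrun
  refine ⟨N, x, s, fun I hI => (hall I hI).1, ?_⟩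
  have hn : PolyF (fun I : Input => P.eval (matSize I) + 1) := (polyF_peval P polyF_matSize).succ
  have hit : PolyF (fun I : Input =>
      (simStep ρ (fixOf I))^[P.eval (matSize I) + 1] (sim0 I)) :=
    PolyF.natIterate (f := fun (I : Input) s => simStep ρ (fixOf I) s) hn
      (polyF_simStep hρ' (polyF_fixOf.comp PolyF.fst') PolyF.snd') polyF_sim0 (sz_sim ρ hn)
  have hval : PolyF (fun I : {I : Input // Q I} => I.1) :=
    (PolyF.id (α := {I : Input // Q I})).of_enc (fun I => I) (fun _ => rfl) fun _ => rfl
  have hout : PolyF (fun I : {I : Input // Q I} => protocol (N I.1) (x I.1) (s I.1)) :=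
    ((polyF_outSim hit).comp hval).congr fun I => (hall I.1 I.2).2
  exact hout.tm2_word

/-- **Question 1 is the question whether the optimal rule is polynomial on the programs: maximise
one entry of a table with the line sums 0, 1, 2.** -/
theorem Optimal.oneEntry_iff {U : BlindRule} (hU : Optimal U) (hp : U.Poly) :
    PolySimplex ↔ ∃ P : Polynomial ℕ, ∀ (r c : ℕ) (s : Fin (lines r c) → ℕ)
      (e : Fin (3 * (r * c))), (∀ p, s p ≤ 2) →
        Solves U (transport r c (fun p => (s p : ℝ)) (fun q => if q = e then 1 else 0))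
          (P.eval (r + c)) := by
  constructor
  · intro h
    obtain ⟨P, hP⟩ := (hU.slim_iff hp).1 h
    exact ⟨P, fun r c s e _ => hP r c _ _⟩
  · rintro ⟨P, hP⟩
    refine polySimplex_iff_oneEntry.2 (simplexOn_of_blind hp (P := P) ?_)
    rintro I ⟨r, c, s, e, v, hv, hs, rfl⟩
    have h1 := hP r c s e hs
    have h2 : ofQ (transportQ r c (fun p => (s p : ℚ)) (fun q => if q = e then 1 else 0)) =
        transport r c (fun p => (s p : ℝ)) (fun q => if q = e then 1 else 0) := by
      have e1 : (fun p => (((s p : ℚ)) : ℝ)) = fun p => (s p : ℝ) :=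
        funext fun p => Rat.cast_natCast (s p)
      have e2 : (fun q => (((if q = e then 1 else 0 : ℚ)) : ℝ)) =
          fun q => if q = e then 1 else 0 := by
        funext q
        split_ifs
        · exact Rat.cast_one
        · exact Rat.cast_zero
      rw [hu_ofQ_transportQ, e1, e2]
    show Solves U (ofQ (transportQ r c (fun p => (s p : ℚ)) (fun q => if q = e then 1 else 0))) _
    rw [h2]
    refine h1.mono (peval_mono P ?_)
    have h3 : 3 * (r * c) ≤ matSize ⟨_, _, transportQ r c (fun p => (s p : ℚ))
        (fun q => if q = e then 1 else 0), v, hv⟩ := by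
      unfold matSize
      have h4 := length_wd false true ((3 * (r * c) : ℕ), List.ofFn fun i => List.ofFn
        ((transportQ r c (fun p => (s p : ℚ)) (fun q => if q = e then 1 else 0)).A i))
      have h5 := sz_prod ((3 * (r * c) : ℕ), List.ofFn fun i => List.ofFn
        ((transportQ r c (fun p => (s p : ℚ)) (fun q => if q = e then 1 else 0)).A i))
      rw [sz_nat] at h5
      refine le_trans ?_ h4.ge
      dsimp only at h5 ⊢
      omega
    have h6 : 0 < 3 * (r * c) := Nat.pos_of_ne_zero fun h => (Fin.cast h e).elim0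
    have h7 : 0 < r * c := by omega
    have h8 : 0 < r := by
      rcases Nat.eq_zero_or_pos r with h | h
      · rw [h, Nat.zero_mul] at h7
        omega
      · exact h
    have h9 : 0 < c := by
      rcases Nat.eq_zero_or_pos c with h | h
      · rw [h, Nat.mul_zero] at h7
        omega
      · exact h
    have h10 : r ≤ r * c := Nat.le_mul_of_pos_right r h9
    have h11 : c ≤ r * c := Nat.le_mul_of_pos_left c h8
    omega

end Pool.Agent.Simplex.EB
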