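import Pool.Agent.Lib.MP_4d246d_lc.EB.SlimPoly
import Pool.Agent.Lib.MP_4d246d_lc.EB.Engine

/-!
# Engines from versions of the simplex method for transportation programs
-/

namespace Pool.Agent.Simplex.EB

open Pool.Agent.Lib.PolyTime Pool.Agent.Simplex.QP Turing

namespace SlimEngine

/-! ### Transportation inputs are recognised in polynomial time -/

/-- second half of the right-hand sides -/
def negB (L : ℕ) (b : List ℚ) : List ℚ := b.take L ++ (b.take L).map (fun q => -q)

/-- the test for `r` and `c` -/
def test (X : Mat) (b : List ℚ) (r c : ℕ) : Bool :=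
  decide (X = tmat r c) && decide (b = negB (lines r c) b)

/-- the test -/
def isTr (I : Input) : Bool :=
  (List.range (I.m + 1)).any fun r => (List.range (I.m + 1)).any fun c =>
    test (ofQ I.lp).mat I.data.2.2.1 r c

theorem matQ {r c : ℕ} (s : Fin (lines r c) → ℚ) (cost : Fin (3 * (r * c)) → ℚ) :
    (ofQ (transportQ r c s cost)).mat = tmat r c :=
  transport_mat r c (fun _ => 0) (fun _ => 0)

theorem le_lines (r c : ℕ) : r ≤ lines r c ∧ c ≤ lines r c := by
  unfold lines
  constructor
  · have := Nat.zero_le (r * c)
    omega
  · have := Nat.zero_le (r * c)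
    omega

theorem isTr_of {I : Input} (h : IsTransport I) : isTr I = true := by
  obtain ⟨r, c, s, cost, v, hv, rfl⟩ := h
  obtain ⟨h1, h2⟩ := le_lines r c
  unfold isTr
  rw [List.any_eq_true]
  refine ⟨r, List.mem_range.2 ?_, ?_⟩
  · show r < lines r c + lines r c + 1
    omega
  rw [List.any_eq_true]
  refine ⟨c, List.mem_range.2 ?_, ?_⟩
  · show c < lines r c + lines r c + 1
    omega
  unfold test
  rw [Bool.and_eq_true, decide_eq_true_eq, decide_eq_true_eq]
  refine ⟨matQ s cost, ?_⟩
  show List.ofFn (Fin.addCases s (fun p => - s p) : Fin (lines r c + lines r c) → ℚ) =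
    negB (lines r c)
      (List.ofFn (Fin.addCases s (fun p => - s p) : Fin (lines r c + lines r c) → ℚ))
  have h3 : List.ofFn (Fin.addCases s (fun p => - s p) : Fin (lines r c + lines r c) → ℚ) =
      List.ofFn s ++ List.ofFn (fun p => - s p) := by
    rw [List.ofFn_add]
    congr 1
    · exact congrArg List.ofFn (funext fun p => Fin.addCases_left p)
    · exact congrArg List.ofFn (funext fun p => Fin.addCases_right p)
  rw [h3]
  unfold negB
  rw [List.take_left' (List.length_ofFn ..), List.map_ofFn]
  rfl

theorem of_isTr {I : Input} (h : isTr I = true) : IsTransport I := by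
  unfold isTr at h
  rw [List.any_eq_true] at h
  obtain ⟨r, -, h⟩ := h
  rw [List.any_eq_true] at h
  obtain ⟨c, -, h⟩ := h
  unfold test at h
  rw [Bool.and_eq_true, decide_eq_true_eq, decide_eq_true_eq] at h
  obtain ⟨h1, h2⟩ := h
  obtain ⟨m, n, ⟨A, b, cost⟩, v, hv⟩ := I
  dsimp only at h1 h2 hv
  have h3 : (n, List.ofFn fun i => List.ofFn (A i)) = tmat r c := h1
  have h4 := transport_mat r c (fun _ => 0) (fun _ => 0)
  rw [← h4] at h3
  obtain ⟨h5, h6⟩ := Prod.ext_iff.1 h3
  dsimp only at h5 h6
  have h7 : n = 3 * (r * c) := h5
  have h8 : m = lines r c + lines r c := by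
    have := congrArg List.length h6
    unfold RLP.mat at this
    rwa [List.length_ofFn, List.length_ofFn] at this
  subst h7 h8
  have h9 : A = (transport r c (fun _ => 0) (fun _ => 0)).A := by
    have h10 := List.ofFn_injective h6
    funext i
    exact List.ofFn_injective (congrFun h10 i)
  subst h9
  have h11 : b = Fin.addCases (fun p => b (Fin.castAdd (lines r c) p))
      (fun p => - b (Fin.castAdd (lines r c) p)) := by
    have h12 : List.ofFn b = negB (lines r c) (List.ofFn b) := h2
    rw [List.ofFn_add] at h12
    unfold negB at h12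
    rw [List.take_left' (List.length_ofFn ..), List.map_ofFn] at h12
    have h13 := List.ofFn_injective (List.append_cancel_left h12)
    funext p
    induction p using Fin.addCases with
    | left p => rw [Fin.addCases_left]
    | right p =>
      rw [Fin.addCases_right]
      exact congrFun h13 p
  exact ⟨r, c, fun p => b (Fin.castAdd (lines r c) p), cost, v, by
    unfold transportQ
    rw [← h11]
    exact hv, by
    unfold transportQ
    simp only [← h11]
    rfl⟩

theorem isTr_iff (I : Input) : isTr I = true ↔ IsTransport I := ⟨of_isTr, isTr_of⟩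

section

variable {α : Type*} [TEnc α]

theorem polyF_lines {r c : α → ℕ} (hr : PolyF r) (hc : PolyF c) :
    PolyF (fun a => lines (r a) (c a)) :=
  ((hr.natMul hc).natAdd ((PolyF.const 3).natMul hc)).natAdd ((PolyF.const 3).natMul hr)

theorem polyF_onLine {r c p q : α → ℕ} (hr : PolyF r) (hc : PolyF c) (hp : PolyF p)
    (hq : PolyF q) : PolyF (fun a => decide (OnLine (r a) (c a) (p a) (q a))) := by
  have h3 : PolyF (fun _ : α => 3) := PolyF.const 3
  have hrc := hr.natMul hc
  have hq3 := hq.natDiv h3
  have hm3 := hq.natMod h3
  have h := (hp.natEq hq3).decide_or ((hp.natEq (hrc.natAdd ((h3.natMul (hq3.natMod hc)).natAdd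
    hm3))).decide_or (hp.natEq ((hrc.natAdd (h3.natMul hc)).natAdd
      ((h3.natMul (hq3.natDiv hc)).natAdd hm3))))
  refine h.congr fun a => ?_
  rw [decide_eq_decide]
  rfl

theorem polyF_tmat {r c : α → ℕ} (hr : PolyF r) (hc : PolyF c) :
    PolyF (fun a => tmat (r a) (c a)) := by
  have hL := polyF_lines hr hc
  have hn : PolyF (fun a => 3 * (r a * c a)) := (PolyF.const 3).natMul (hr.natMul hc)
  refine hn.pair ((hL.natAdd hL).range.map (h := fun a p =>
    (List.range (3 * (r a * c a))).map (fun q =>
      if p < lines (r a) (c a) then (if OnLine (r a) (c a) p q then (1 : ℚ) else 0)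
      else (if OnLine (r a) (c a) (p - lines (r a) (c a)) q then -1 else 0))) ?_)
  refine (hn.comp PolyF.fst').range.map (h := fun (x : α × ℕ) q =>
    if x.2 < lines (r x.1) (c x.1) then (if OnLine (r x.1) (c x.1) x.2 q then (1 : ℚ) else 0)
      else (if OnLine (r x.1) (c x.1) (x.2 - lines (r x.1) (c x.1)) q then -1 else 0)) ?_
  have g1 : PolyF (fun x : (α × ℕ) × ℕ => r x.1.1) := hr.comp (PolyF.fst'.comp PolyF.fst')
  have g2 : PolyF (fun x : (α × ℕ) × ℕ => c x.1.1) := hc.comp (PolyF.fst'.comp PolyF.fst')
  have g3 : PolyF (fun x : (α × ℕ) × ℕ => x.1.2) := PolyF.snd'.comp PolyF.fst'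
  have g4 := polyF_lines g1 g2
  exact PolyF.ite (g3.natLt g4)
    (PolyF.ite (polyF_onLine g1 g2 g3 PolyF.snd') (PolyF.const 1) (PolyF.const 0))
    (PolyF.ite (polyF_onLine g1 g2 (g3.natSub g4) PolyF.snd') (PolyF.const (-1))
      (PolyF.const 0))

theorem polyF_negB {L : α → ℕ} {b : α → List ℚ} (hL : PolyF L) (hb : PolyF b) :
    PolyF (fun a => negB (L a) (b a)) := by
  have h1 : PolyF (fun a => (b a).take (L a)) := hL.take hb
  exact h1.append (h1.map (h := fun (_ : α) (q : ℚ) => -q) PolyF.snd'.ratNeg)

theorem polyF_test {X : α → Mat} {b : α → List ℚ} {r c : α → ℕ} (hX : PolyF X) (hb : PolyF b)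
    (hr : PolyF r) (hc : PolyF c) : PolyF (fun a => test (X a) (b a) (r a) (c a)) :=
  (hX.eq (polyF_tmat hr hc)).and (hb.eq (polyF_negB (polyF_lines hr hc) hb))

end

theorem polyF_isTr : PolyF isTr := by
  have hX := polyF_mat
  have hm : PolyF (fun I : Input => I.m + 1) :=
    (hX.snd.length.succ).congr fun I => by
      show (List.ofFn _).length + 1 = _
      rw [List.length_ofFn]
  have hb : PolyF (fun I : Input => I.data.2.2.1) := polyF_data.snd.snd.fst
  refine hm.range.any (p := fun I r => (List.range (I.m + 1)).any fun c =>
    test (ofQ I.lp).mat I.data.2.2.1 r c) ?_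
  refine (hm.comp PolyF.fst').range.any (p := fun (x : Input × ℕ) c =>
    test (ofQ x.1.lp).mat x.1.data.2.2.1 x.2 c) ?_
  exact polyF_test (hX.comp (PolyF.fst'.comp PolyF.fst')) (hb.comp (PolyF.fst'.comp PolyF.fst'))
    (PolyF.snd'.comp PolyF.fst') PolyF.snd'

/-! ### The engine -/

/-- the memory: is the input a transportation program; the rest of the protocol; the memory of
the machine of the library -/
abbrev Mem : Type := Bool × List (List ℚ × Verdict) × Sb

/-- one pivot -/
noncomputable def nextM (s : Mem) : Mem :=
  if s.1 = true then (true, s.2.1.tail, s.2.2) else (false, s.2.1, nextB s.2.2)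

/-- the report -/
noncomputable def reportM (s : Mem) : List ℚ × Verdict :=
  if s.1 = true then s.2.1.head?.getD ([], .pivot) else reportB s.2.2

theorem polyF_nextM : PolyF nextM :=
  PolyF.iteBool PolyF.fst'
    ((PolyF.const true).pair (PolyF.snd'.fst.tail.pair PolyF.snd'.snd))
    ((PolyF.const false).pair (PolyF.snd'.fst.pair (polyF_nextB.comp PolyF.snd'.snd)))

theorem polyF_reportM : PolyF reportM :=
  PolyF.iteBool PolyF.fst' (PolyF.snd'.fst.head?.getD (PolyF.const _))
    (polyF_reportB.comp PolyF.snd'.snd)

theorem iterate_true (l : List (List ℚ × Verdict)) (s : Sb) (t : ℕ) :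
    nextM^[t] (true, l, s) = (true, l.drop t, s) := by
  induction t with
  | zero => rfl
  | succ t ih =>
    rw [Function.iterate_succ_apply', ih]
    unfold nextM
    rw [if_pos rfl]
    dsimp only
    rw [List.tail_drop]

theorem iterate_false (l : List (List ℚ × Verdict)) (s : Sb) (t : ℕ) :
    nextM^[t] (false, l, s) = (false, l, nextB^[t] s) := by
  induction t with
  | zero => rfl
  | succ t ih =>
    rw [Function.iterate_succ_apply', ih, Function.iterate_succ_apply']
    unfold nextM
    rw [if_neg Bool.false_ne_true]

end SlimEngine

open SlimEngine in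
/-- A version of the simplex method for transportation programs with polynomial running time,
continued by the version of the library for all other programs, is an engine. -/
theorem SlimSimplex.engine (h : SlimSimplex) : ∃ (E : Engine) (R : Polynomial ℕ),
    ∀ I : Input, IsTransport I → E.N I ≤ R.eval (sz I) := by
  classical
  obtain ⟨N, x, s, hrun, hM⟩ := h
  let f : Input → List (List ℚ × Verdict) := fun I =>
    if IsTransport I then protocol (N I) (x I) (s I) else []
  have hdec : PolyF (fun I : Input => decide (IsTransport I)) :=
    polyF_isTr.congr fun I => by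
      by_cases hI : IsTransport I
      · rw [(isTr_iff I).2 hI, decide_eq_true hI]
      · rw [decide_eq_false hI]
        exact Bool.eq_false_iff.2 fun h => hI (of_isTr h)
  have hf : PolyF f := by
    refine PolyF.propCases hdec ?_ ?_
    · have h1 : PolyF (fun I : {I : Input // IsTransport I} =>
          protocol (N I.1) (x I.1) (s I.1)) := polyF_of_tm2 hM
      exact h1.congr fun I => (if_pos I.2).symm
    · exact (PolyF.const []).congr fun I => (if_neg I.2).symm
  obtain ⟨R, hR⟩ := hf.bound
  have hlen : ∀ I, IsTransport I → N I ≤ R.eval (sz I) := by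
    intro I hI
    have h1 : (f I).length ≤ sz (f I) := length_le_sz _
    have h2 : (f I).length = N I + 1 := by
      show (if IsTransport I then protocol (N I) (x I) (s I) else []).length = _
      rw [if_pos hI]
      unfold protocol
      rw [List.length_map, List.length_range]
    have h3 := hR I
    omega
  obtain ⟨Q, hQ⟩ := size_statesB
  let init : Input → Mem := fun I => (isTr I, f I, initB I)
  have hinit : PolyF init := polyF_isTr.pair (hf.pair polyF_initB)
  refine ⟨{
    σ := Mem
    init := init
    next := nextM
    report := reportM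
    polyF_init := hinit
    polyF_next := polyF_nextM
    polyF_report := polyF_reportM
    Q := R + Q + 3
    size := ?_
    N := fun I => if IsTransport I then N I else numPB I
    x := fun I => if IsTransport I then x I else xb I
    s := fun I => if IsTransport I then s I else (reportB (nextB^[numPB I] (initB I))).2
    run := ?_
    rep := ?_ }, R, ?_⟩
  · intro I t
    have e1 : (R + Q + 3).eval (sz I) = R.eval (sz I) + Q.eval (sz I) + 3 := by
      simp only [Polynomial.eval_add, Polynomial.eval_ofNat]
    rw [e1]
    cases hb : isTr I with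
    | true =>
      have h1 : init I = (true, f I, initB I) := by
        show (isTr I, f I, initB I) = _
        rw [hb]
      rw [h1, iterate_true, sz_prod, sz_prod]
      dsimp only
      have h2 := sz_bool_le true
      have h3 := (sz_sublist (List.drop_sublist t (f I))).trans (hR I)
      have h4 := hQ I 0
      rw [Function.iterate_zero_apply] at h4
      omega
    | false =>
      have h1 : init I = (false, f I, initB I) := by
        show (isTr I, f I, initB I) = _
        rw [hb]
      rw [h1, iterate_false, sz_prod, sz_prod]
      dsimp only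
      have h2 := sz_bool_le false
      have h3 := hR I
      have h4 := hQ I t
      omega
  · intro I
    by_cases hI : IsTransport I
    · simp only [if_pos hI]
      exact hrun I hI
    · simp only [if_neg hI]
      exact simplexRunB I
  · intro I t ht
    by_cases hI : IsTransport I
    · simp only [if_pos hI] at ht ⊢
      have h1 : init I = (true, protocol (N I) (x I) (s I), initB I) := by
        show (isTr I, (if IsTransport I then protocol (N I) (x I) (s I) else []), initB I) = _
        rw [(isTr_iff I).2 hI, if_pos hI]
      rw [h1, iterate_true]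
      unfold reportM protocol
      rw [if_pos rfl]
      dsimp only
      rw [List.head?_drop, List.getElem?_map, List.getElem?_range (by omega)]
      rfl
    · simp only [if_neg hI] at ht ⊢
      have hb : isTr I = false := Bool.eq_false_iff.2 fun h => hI (of_isTr h)
      have h1 : init I = (false, f I, initB I) := by
        show (isTr I, f I, initB I) = _
        rw [hb]
      rw [h1, iterate_false]
      unfold reportM
      rw [if_neg Bool.false_ne_true]
      exact reportB_at I t ht
  · intro I hI
    show (if IsTransport I then N I else numPB I) ≤ _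
    rw [if_pos hI]
    exact hlen I hI

end Pool.Agent.Simplex.EB
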