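import Pool.Agent.Lib.MP_4d246d_lc.EB.OnRed
import Pool.Agent.Lib.MP_4d246d_lc.EB.SlimEngine

/-!
# Engines from versions of the simplex method for classes of inputs
-/

namespace Pool.Agent.Simplex.EB

open Pool.Agent.Lib.PolyTime Pool.Agent.Simplex.QP Turing

open SlimEngine in
/-- A version of the simplex method with polynomial running time for a class of inputs that is
recognised in polynomial time, continued by the version of the library for all other inputs, is an
engine. -/
theorem SimplexOn.engine {Q : Input → Prop} {d : Input → Bool} (hd : PolyF d)
    (hdQ : ∀ I, d I = true ↔ Q I) (h : SimplexOn Q) : ∃ (E : Engine) (R : Polynomial ℕ),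
    ∀ I : Input, Q I → E.N I ≤ R.eval (sz I) := by
  classical
  obtain ⟨N, x, s, hrun, hM⟩ := h
  let f : Input → List (List ℚ × Verdict) := fun I =>
    if Q I then protocol (N I) (x I) (s I) else []
  have hdec : PolyF (fun I : Input => decide (Q I)) :=
    hd.congr fun I => by
      by_cases hI : Q I
      · rw [(hdQ I).2 hI, decide_eq_true hI]
      · rw [decide_eq_false hI]
        exact Bool.eq_false_iff.2 fun h => hI ((hdQ I).1 h)
  have hf : PolyF f := by
    refine PolyF.propCases hdec ?_ ?_
    · have h1 : PolyF (fun I : {I : Input // Q I} =>
          protocol (N I.1) (x I.1) (s I.1)) := polyF_of_tm2 hM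
      exact h1.congr fun I => (if_pos I.2).symm
    · exact (PolyF.const []).congr fun I => (if_neg I.2).symm
  obtain ⟨R, hR⟩ := hf.bound
  have hlen : ∀ I, Q I → N I ≤ R.eval (sz I) := by
    intro I hI
    have h1 : (f I).length ≤ sz (f I) := length_le_sz _
    have h2 : (f I).length = N I + 1 := by
      show (if Q I then protocol (N I) (x I) (s I) else []).length = _
      rw [if_pos hI]
      unfold protocol
      rw [List.length_map, List.length_range]
    have h3 := hR I
    omega
  obtain ⟨P, hP⟩ := size_statesB
  let init : Input → Mem := fun I => (d I, f I, initB I)
  have hinit : PolyF init := hd.pair (hf.pair polyF_initB)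
  refine ⟨{
    σ := Mem
    init := init
    next := nextM
    report := reportM
    polyF_init := hinit
    polyF_next := polyF_nextM
    polyF_report := polyF_reportM
    Q := R + P + 3
    size := ?_
    N := fun I => if Q I then N I else numPB I
    x := fun I => if Q I then x I else xb I
    s := fun I => if Q I then s I else (reportB (nextB^[numPB I] (initB I))).2
    run := ?_
    rep := ?_ }, R, ?_⟩
  · intro I t
    have e1 : (R + P + 3).eval (sz I) = R.eval (sz I) + P.eval (sz I) + 3 := by
      simp only [Polynomial.eval_add, Polynomial.eval_ofNat]
    rw [e1]
    cases hb : d I with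
    | true =>
      have h1 : init I = (true, f I, initB I) := by
        show (d I, f I, initB I) = _
        rw [hb]
      rw [h1, iterate_true, sz_prod, sz_prod]
      dsimp only
      have h2 := sz_bool_le true
      have h3 := (sz_sublist (List.drop_sublist t (f I))).trans (hR I)
      have h4 := hP I 0
      rw [Function.iterate_zero_apply] at h4
      omega
    | false =>
      have h1 : init I = (false, f I, initB I) := by
        show (d I, f I, initB I) = _
        rw [hb]
      rw [h1, iterate_false, sz_prod, sz_prod]
      dsimp only
      have h2 := sz_bool_le false
      have h3 := hR I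
      have h4 := hP I t
      omega
  · intro I
    by_cases hI : Q I
    · simp only [if_pos hI]
      exact hrun I hI
    · simp only [if_neg hI]
      exact simplexRunB I
  · intro I t ht
    by_cases hI : Q I
    · simp only [if_pos hI] at ht ⊢
      have h1 : init I = (true, protocol (N I) (x I) (s I), initB I) := by
        show (d I, (if Q I then protocol (N I) (x I) (s I) else []), initB I) = _
        rw [(hdQ I).2 hI, if_pos hI]
      rw [h1, iterate_true]
      unfold reportM protocol
      rw [if_pos rfl]
      dsimp only
      rw [List.head?_drop, List.getElem?_map, List.getElem?_range (by omega)]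
      rfl
    · simp only [if_neg hI] at ht ⊢
      have hb : d I = false := Bool.eq_false_iff.2 fun h => hI ((hdQ I).1 h)
      have h1 : init I = (false, f I, initB I) := by
        show (d I, f I, initB I) = _
        rw [hb]
      rw [h1, iterate_false]
      unfold reportM
      rw [if_neg Bool.false_ne_true]
      exact reportB_at I t ht
  · intro I hI
    show (if Q I then N I else numPB I) ≤ _
    rw [if_pos hI]
    exact hlen I hI

end Pool.Agent.Simplex.EB
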