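import Pool.Agent.Lib.MP_4d246d_lc.EB.Rule

/-!
# Comparison of a program with a guessed program with the same matrix
-/

namespace Pool.Agent.Simplex.EB

open Pool.Agent.Lib.PolyTime Pool.Agent.Simplex.QP

variable {m n : ℕ} {D D' : RLP m n}

/-- the facts shown by the name of a vertex are true -/
theorem facts_of_vertex {x : Fin n → ℝ} (hx : D.Vertex x) :
    ∀ f ∈ D.nameFacts (D.name x), Holds m D.rhs f :=
  (RLP.name_vertex_iff rfl hx).2 ⟨x, hx, rfl⟩

/-- A wrong prediction of the other end of an edge: if `x` and `x'` have the same name and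
`x y`, `x' y'` are edges with the same name, then a vertex of `D'` with the name of `y` is `y'`:
it lies on the line of the edge, it is not `x'`, it is on the right side, and an edge has only
two ends. -/
theorem mismatch (_hA : D.A = D'.A) {x y x' y' w : Fin n → ℝ} (hxy : D.Edge x y)
    (hxy' : D'.Edge x' y') (hn : D.name x = D'.name x')
    (hT : D.edgeName x (y - x) = D'.edgeName x' (y' - x'))
    (hw : D'.Vertex w) (hnw : D'.name w = D.name y) : w = y' := by
  have hx' : D'.Vertex x' := hxy'.1
  have hy' : D'.Vertex y' := hxy'.2.1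
  have hwx : w ≠ x' := by
    rintro rfl
    have h1 : D.name x = D.name y := by rw [hn, hnw]
    exact hxy.2.2.1 (RLP.Vertex.eq_of_name hxy.1 h1)
  have hd := (D'.edge_iff.1 hxy').2.2.2
  obtain ⟨t, ht, h1⟩ := D'.sys.dir_pos hx'.vx hd (q := w - x') (fun i hi => by
      obtain ⟨h1, h2, h3⟩ := D'.sys.mem_T.1 hi
      have h4 := (RLP.edgeName_congr.1 hT i h1).2 ⟨h2, h3⟩
      rw [D.sys.ln_sub] at h4
      have h5 : D.sys.sl i y = 0 := by linarith [h4.1, h4.2]
      have h6 := (RLP.name_congr.1 hnw i h1).2 h5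
      rw [D'.sys.ln_sub, h6, h2, sub_zero]) (sub_ne_zero.2 hwx) (fun i hi h0 => by
      rw [D'.sys.ln_sub, h0, sub_zero]
      exact (Sys.mem_P _).1 hw.mem i hi)
  have e1 : x' + (1 : ℝ) • (y' - x') = y' := by rw [one_smul, add_sub_cancel]
  have e2 : x' + t • (y' - x') = w := by rw [← h1, add_sub_cancel]
  have h2 := D'.sys.dir_unique_end hx'.mem hd.2.1 one_pos ht (by rw [e1]; exact hy'.mem)
    (by rw [e2]; exact hw.mem) (by rw [e1]; exact hy'.vx) (by rw [e2]; exact hw.vx)
  rw [← h2, e1] at e2
  exact e2.symm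

/-- consequence: if the predicted name is wrong, then a fact shown by the true name is violated
by the right-hand side of the guessed program -/
theorem fact_of_mismatch (hA : D.A = D'.A) {x y x' y' : Fin n → ℝ} (hxy : D.Edge x y)
    (hxy' : D'.Edge x' y') (hn : D.name x = D'.name x')
    (hT : D.edgeName x (y - x) = D'.edgeName x' (y' - x')) (hne : D'.name y' ≠ D.name y) :
    ∃ f ∈ D.nameFacts (D.name y), ¬ Holds m D'.rhs f := by
  by_contra hno
  push Not at hno
  obtain ⟨w, hw, hwn⟩ := (RLP.name_vertex_iff hA hxy.2.1).1 hno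
  have h1 := mismatch hA hxy hxy' hn hT hw hwn
  exact hne (by rw [← h1, hwn])

/-- no bounded program has an unbounded edge -/
theorem no_ray (hB : Bdd D.A) {x z : Fin n → ℝ} (hz : z ≠ 0) : ¬ D.Ray x z := by
  rintro h
  obtain ⟨-, -, h1⟩ := (D.ray_iff hz).1 h
  obtain ⟨h2, h3⟩ := RLP.forall_lt.1 h1
  refine hz (hB.eq_zero (fun j => ?_) fun i => ?_)
  · have := h3 j
    rwa [D.sys_ln, lnA_var] at this
  · have h4 := h2 i
    rw [D.sys_ln, lnA_row] at h4
    linarith

/-- The proposal `x' → y'` of the guess is rejected: the objective does not increase in this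
direction, but it does for the guessed objective. -/
theorem fact_of_refused_some (hA : D.A = D'.A) (hB : Bdd D.A) {x x' y' : Fin n → ℝ}
    (hx : D.Vertex x) (hn : D.name x = D'.name x') (hxy' : D'.Improving x' y')
    (h1 : ∀ w, D.Improving x w → D.edgeName x (w - x) ≠ D'.edgeName x' (y' - x')) :
    Holds n D.c (false, negZ (dirZ n D.gen (D.name x) (D'.edgeName x' (y' - x')))) ∧
      ¬ Holds n D'.c (false, negZ (dirZ n D.gen (D.name x) (D'.edgeName x' (y' - x')))) := by
  have hz := (D'.edge_iff.1 hxy'.1).2.2.2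
  have hz' := (RLP.dir_congr hA hn _).2 hz
  have he : D.edgeName x (y' - x') = D'.edgeName x' (y' - x') := RLP.edgeName_of_name hA hn _
  rw [← he, RLP.obj_nonpos_iff (D' := D) hx hz', RLP.obj_nonpos_iff (D' := D') hx hz']
  constructor
  · by_contra hc
    push Not at hc
    rcases hx.dir_cases hz' with h | ⟨t, ht, h⟩
    · exact no_ray hB hz'.2.1 h
    · refine h1 (x + t • (y' - x')) ⟨h, ?_⟩ ?_
      · rw [RLP.obj_add, RLP.obj_smul]
        have := mul_pos ht hc
        linarith
      · rw [add_sub_cancel_left, RLP.edgeName_smul ht.ne', he]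
  · rw [not_le, RLP.obj_sub]
    linarith [hxy'.2]

/-- The guess is optimal at `x'`, but there is an edge `x → y` that increases the objective. -/
theorem fact_of_refused_none (hA : D.A = D'.A) {x y x' : Fin n → ℝ}
    (hxy : D.Improving x y) (hn : D.name x = D'.name x') (ho : D'.Optimal x') :
    Holds n D.c (true, dirZ n D.gen (D.name x) (meet (D.name x) (D.name y))) ∧
      ¬ Holds n D'.c (true, dirZ n D.gen (D.name x) (meet (D.name x) (D.name y))) := by
  have hd := (D.edge_iff.1 hxy.1).2.2.2
  have he : D.edgeName x (y - x) = meet (D.name x) (D.name y) := D.edgeName_sub x y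
  rw [← he, RLP.obj_pos_iff (D' := D) hxy.1.1 hd, RLP.obj_pos_iff (D' := D') hxy.1.1 hd]
  refine ⟨?_, ?_⟩
  · rw [RLP.obj_sub]
    linarith [hxy.2]
  · exact not_lt.2 (ho.not_dir ((RLP.dir_congr hA hn _).1 hd))

end Pool.Agent.Simplex.EB
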