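import Pool.Agent.Lib.MP_4d246d_lc.QP.Edges

/-! Edge directions at a vertex of a polyhedron given by finitely many slack functions.
They depend only on the linear parts `ln` and on the set of the tight constraints. -/

namespace Pool.Agent.Simplex.QP.Sys

variable {E : Type*} [AddCommGroup E] [Module ℝ E] (S : Sys E)

/-- the constraints that are tight at `x` and stay tight in direction `z` -/
noncomputable def T (M : ℕ) (x z : E) : List ℕ :=
  open Classical in (List.range M).filter (fun i => decide (S.sl i x = 0 ∧ S.ln i z = 0))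

/-- the polyhedron -/
def P (M : ℕ) : Set E := S.Q [] (List.range M)

/-- `z` is the direction of an edge at the vertex `x` (combinatorial form): it points into the
polyhedron and the constraints that stay tight cut out the line -/
def Dir (M : ℕ) (x z : E) : Prop :=
  (∀ i < M, S.sl i x = 0 → 0 ≤ S.ln i z) ∧ z ≠ 0 ∧ S.One (S.T M x z) z

theorem mem_T {M : ℕ} {x z : E} {i : ℕ} :
    i ∈ S.T M x z ↔ i < M ∧ S.sl i x = 0 ∧ S.ln i z = 0 := by
  unfold T
  rw [List.mem_filter, decide_eq_true_eq, List.mem_range]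

theorem mem_P {M : ℕ} {x : E} : x ∈ S.P M ↔ ∀ i < M, 0 ≤ S.sl i x :=
  ⟨fun h i hi => h.2 i (List.mem_range.2 hi),
    fun h => ⟨fun i hi => by simp at hi, fun i hi => h i (List.mem_range.1 hi)⟩⟩

/-- at a vertex, a nonzero vector is seen by a tight constraint -/
theorem exists_tight {M : ℕ} {x z : E} (hv : S.Vx (fun i => i < M) x) (hz : z ≠ 0) :
    ∃ i < M, S.sl i x = 0 ∧ S.ln i z ≠ 0 := by
  by_contra hno
  push Not at hno
  exact hz (hv z fun i hi h0 => hno i hi h0)

theorem exists_tight_pos {M : ℕ} {x z : E} (hv : S.Vx (fun i => i < M) x) (hz : z ≠ 0)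
    (hc : ∀ i < M, S.sl i x = 0 → 0 ≤ S.ln i z) : ∃ i < M, S.sl i x = 0 ∧ 0 < S.ln i z := by
  obtain ⟨i, hi, h0, h1⟩ := S.exists_tight hv hz
  exact ⟨i, hi, h0, lt_of_le_of_ne (hc i hi h0) (Ne.symm h1)⟩

/-- a point of the polyhedron from which we can move a little in direction `q` -/
theorem pert_P {M : ℕ} {x q : E} (hx : x ∈ S.P M) (hq : ∀ i < M, S.sl i x = 0 → 0 ≤ S.ln i q) :
    ∃ ε : ℝ, 0 < ε ∧ ∀ t, 0 ≤ t → t ≤ ε → x + t • q ∈ S.P M := by
  obtain ⟨ε, hε, h1⟩ := S.pert (List.range M) x q (fun i hi => by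
    rcases (hx.2 i hi).lt_or_eq with h | h
    · exact Or.inl h
    · exact Or.inr ⟨h.le, hq i (List.mem_range.1 hi) h.symm⟩)
  exact ⟨ε, hε, fun t h0 h2 => ⟨fun i hi => by simp at hi, h1 t h0 h2⟩⟩

/-- Geometric form of an edge direction. -/
theorem dir_iff_extreme {M : ℕ} {x z : E} (hx : x ∈ S.P M) (hv : S.Vx (fun i => i < M) x)
    (hz : z ≠ 0) (hf : ∃ s : ℝ, 0 < s ∧ x + s • z ∈ S.P M) :
    S.Dir M x z ↔ IsExtreme ℝ (S.P M) ({w | ∃ s : ℝ, 0 ≤ s ∧ w = x + s • z} ∩ S.P M) := by
  obtain ⟨s, hs, hxs⟩ := hf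
  have hcone : ∀ i < M, S.sl i x = 0 → 0 ≤ S.ln i z := by
    intro i hi h0
    have h1 := (S.mem_P.1 hxs) i hi
    rw [S.smul_add, h0, zero_add] at h1
    exact nonneg_of_mul_nonneg_right h1 hs
  constructor
  · rintro ⟨-, -, h1⟩
    have e : {w | ∃ s : ℝ, 0 ≤ s ∧ w = x + s • z} ∩ S.P M = S.Q (S.T M x z) (List.range M) := by
      apply Set.Subset.antisymm
      · rintro w ⟨⟨r, hr, rfl⟩, hw⟩
        refine ⟨fun j hj => ?_, hw.2⟩
        obtain ⟨-, h2, h3⟩ := S.mem_T.1 hj
        rw [S.smul_add, h2, h3]; ring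
      · intro w hw
        obtain ⟨r, hr⟩ := h1.2 (w - x) fun j hj => by
          rw [S.ln_sub, (S.mem_T.1 hj).2.1, hw.1 j hj, sub_zero]
        have hw' : w = x + r • z := by rw [← hr]; abel
        obtain ⟨i, hi, hix, hiz⟩ := S.exists_tight_pos hv hz hcone
        refine ⟨⟨r, ?_, hw'⟩, ⟨fun i hi => by simp at hi, hw.2⟩⟩
        have h3 := hw.2 i (List.mem_range.2 hi)
        rw [hw', S.smul_add, hix, zero_add] at h3
        exact nonneg_of_mul_nonneg_left h3 hiz
    rw [e]
    exact S.extreme_Q fun j hj => (S.mem_T.1 hj).1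
  · intro hE
    refine ⟨hcone, hz, fun i hi => (S.mem_T.1 hi).2.2, ?_⟩
    intro q hq
    obtain ⟨y, hy⟩ : ∃ y : E, y = x + (s / 2) • z := ⟨_, rfl⟩
    have htight : ∀ i < M, S.sl i y = 0 → i ∈ S.T M x z := by
      intro i hi h0
      rw [hy, S.smul_add] at h0
      have h1 := (S.mem_P.1 hx) i hi
      have h2 := (S.mem_P.1 hxs) i hi
      rw [S.smul_add] at h2
      have h3 : S.sl i x = 0 := by linarith
      have h4 : s * S.ln i z = 0 := by linarith
      exact S.mem_T.2 ⟨hi, h3, (mul_eq_zero.1 h4).resolve_left hs.ne'⟩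
    have hyP : y ∈ S.P M := by
      rw [S.mem_P]
      intro i hi
      rw [hy, S.smul_add]
      have h1 := (S.mem_P.1 hx) i hi
      have h2 := (S.mem_P.1 hxs) i hi
      rw [S.smul_add] at h2
      linarith
    obtain ⟨e1, he1, h3⟩ := S.pert_P hyP (q := q) fun i hi h0 => (hq i (htight i hi h0)).ge
    obtain ⟨e2, he2, h4⟩ := S.pert_P hyP (q := -q) fun i hi h0 => by
      rw [map_neg, hq i (htight i hi h0), neg_zero]
    set e := min e1 e2 with he
    have hpos : 0 < e := lt_min he1 he2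
    have h5 : y + e • q ∈ S.P M := h3 e hpos.le (min_le_left _ _)
    have h6 : y + e • (-q) ∈ S.P M := h4 e hpos.le (min_le_right _ _)
    have h7 : y ∈ openSegment ℝ (y + e • q) (y + e • (-q)) := by
      refine ⟨1 / 2, 1 / 2, by norm_num, by norm_num, by norm_num, ?_⟩
      rw [smul_neg, _root_.smul_add, _root_.smul_add, smul_neg]
      have : (1 / 2 : ℝ) • y + (1 / 2 : ℝ) • y = y := by rw [← add_smul]; norm_num
      calc _ = (1 / 2 : ℝ) • y + (1 / 2 : ℝ) • y := by abel
        _ = y := this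
    obtain ⟨⟨r, -, hr⟩, -⟩ := hE.2 h5 h6 ⟨⟨s / 2, by positivity, hy⟩, hyP⟩ h7
    refine ⟨(r - s / 2) / e, ?_⟩
    have h8 : e • q = (r - s / 2) • z := by
      rw [sub_smul, ← add_sub_cancel_left x (r • z), ← hr, hy]
      abel
    rw [div_eq_inv_mul, mul_smul, ← h8, smul_smul, inv_mul_cancel₀ hpos.ne', one_smul]

/-- the part of the ray in the polyhedron is the segment between two vertices -/
theorem ray_inter {M : ℕ} {x y : E} (hx : x ∈ S.P M) (hy : y ∈ S.P M)
    (hvy : S.Vx (fun i => i < M) y) (hxy : x ≠ y) :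
    {w | ∃ s : ℝ, 0 ≤ s ∧ w = x + s • (y - x)} ∩ S.P M = segment ℝ x y := by
  apply Set.Subset.antisymm
  · rintro w ⟨⟨s, hs, hw⟩, hwP⟩
    have hs1 : s ≤ 1 := by
      by_contra hlt
      push Not at hlt
      have hs0 : 0 < s := by linarith
      have hext := S.extreme_of_vx hy hvy
      have h1 : y ∈ openSegment ℝ x w := by
        refine ⟨1 - 1 / s, 1 / s, ?_, by positivity, by ring, ?_⟩
        · rw [sub_pos, div_lt_one hs0]; exact hlt
        · rw [hw, sub_smul, one_smul, _root_.smul_add, smul_smul, one_div,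
            inv_mul_cancel₀ hs0.ne', one_smul]
          abel
      exact hxy (hext.2 hx hwP h1)
    rw [segment_eq_image_lineMap]
    refine ⟨s, ⟨hs, hs1⟩, ?_⟩
    rw [AffineMap.lineMap_apply, vsub_eq_sub, vadd_eq_add, hw, add_comm]
  · intro w hw
    refine ⟨?_, (S.convex_Q [] _).segment_subset hx hy hw⟩
    rw [segment_eq_image_lineMap] at hw
    obtain ⟨s, ⟨hs0, hs1⟩, rfl⟩ := hw
    refine ⟨s, hs0, ?_⟩
    rw [AffineMap.lineMap_apply, vsub_eq_sub, vadd_eq_add, add_comm]

/-- Bounded edges. -/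
theorem edge_iff {M : ℕ} {x y : E} (hx : x ∈ S.P M) (hvx : S.Vx (fun i => i < M) x)
    (hy : y ∈ S.P M) (hvy : S.Vx (fun i => i < M) y) (hxy : x ≠ y) :
    IsExtreme ℝ (S.P M) (segment ℝ x y) ↔ S.Dir M x (y - x) := by
  rw [S.dir_iff_extreme hx hvx (sub_ne_zero.2 (Ne.symm hxy))
    ⟨1, one_pos, by rw [one_smul, add_sub_cancel]; exact hy⟩, S.ray_inter hx hy hvy hxy]

/-- Unbounded edges. -/
theorem ray_iff {M : ℕ} {x z : E} (hx : x ∈ S.P M) (hv : S.Vx (fun i => i < M) x) (hz : z ≠ 0) :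
    IsExtreme ℝ (S.P M) {w | ∃ s : ℝ, 0 ≤ s ∧ w = x + s • z} ↔
      S.Dir M x z ∧ ∀ i < M, 0 ≤ S.ln i z := by
  have hsub : {w | ∃ s : ℝ, 0 ≤ s ∧ w = x + s • z} ⊆ S.P M ↔ ∀ i < M, 0 ≤ S.ln i z := by
    constructor
    · intro h i hi
      by_contra hneg
      push Not at hneg
      have hn : 0 < -S.ln i z := by linarith
      have h0 := (S.mem_P.1 hx) i hi
      have h1 : x + (S.sl i x / (-S.ln i z) + 1) • z ∈ S.P M :=
        h ⟨_, by positivity, rfl⟩
      have h2 := (S.mem_P.1 h1) i hi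
      rw [S.smul_add, add_mul] at h2
      have hu : S.sl i x / (-S.ln i z) * (-S.ln i z) = S.sl i x := div_mul_cancel₀ _ hn.ne'
      linarith
    · rintro h w ⟨s, hs, rfl⟩
      rw [S.mem_P]
      intro i hi
      rw [S.smul_add]
      exact add_nonneg ((S.mem_P.1 hx) i hi) (mul_nonneg hs (h i hi))
  constructor
  · intro h
    have h1 := hsub.1 h.1
    refine ⟨?_, h1⟩
    rw [S.dir_iff_extreme hx hv hz ⟨1, one_pos, h.1 ⟨1, zero_le_one, rfl⟩⟩,
      Set.inter_eq_left.2 h.1]
    exact h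
  · rintro ⟨h1, h2⟩
    have h3 := hsub.2 h2
    rw [S.dir_iff_extreme hx hv hz ⟨1, one_pos, h3 ⟨1, zero_le_one, rfl⟩⟩,
      Set.inter_eq_left.2 h3] at h1
    exact h1

/-- An edge direction is the direction of an unbounded edge, or it leads to a vertex. -/
theorem dir_end {M : ℕ} {x z : E} (hx : x ∈ S.P M) (_hv : S.Vx (fun i => i < M) x)
    (hd : S.Dir M x z) (hb : ∃ i < M, S.ln i z < 0) :
    ∃ t : ℝ, 0 < t ∧ x + t • z ∈ S.P M ∧ S.Vx (fun i => i < M) (x + t • z) ∧
      ∃ i < M, S.ln i z < 0 ∧ S.sl i (x + t • z) = 0 := by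
  obtain ⟨i0, hi0, hneg0⟩ := hb
  obtain ⟨t, ht, h1, i, hi, h2, h3⟩ := S.first_hit (List.range M) x z hx.2
    ⟨i0, List.mem_range.2 hi0, hneg0⟩
  have hiM := List.mem_range.1 hi
  have ht0 : 0 < t := by
    rcases ht.lt_or_eq with h | h
    · exact h
    · exfalso
      rw [← h, zero_smul, add_zero] at h3
      have := hd.1 i hiM h3
      linarith
  refine ⟨t, ht0, ⟨fun i hi => by simp at hi, h1⟩, ?_, i, hiM, h2, h3⟩
  intro q hq
  obtain ⟨r, hr⟩ := hd.2.2.2 q fun j hj => by
    obtain ⟨h4, h5, h6⟩ := S.mem_T.1 hj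
    exact hq j h4 (by rw [S.smul_add, h5, h6]; ring)
  have h7 := hq i hiM h3
  rw [hr, map_smul, smul_eq_mul] at h7
  rw [hr, (mul_eq_zero.1 h7).resolve_right h2.ne, zero_smul]

theorem T_lt {M : ℕ} {x z z' : E} (h : ∀ i ∈ S.T M x z, i ∈ S.T M x z')
    (h' : ∃ i ∈ S.T M x z', i ∉ S.T M x z) : (S.T M x z).length < (S.T M x z').length := by
  classical
  obtain ⟨j, hj, hj'⟩ := h'
  have hsub : (S.T M x z).Sublist (S.T M x z') := by
    have e : S.T M x z = (S.T M x z').filter (fun i => decide (S.ln i z = 0)) := by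
      unfold T
      rw [List.filter_filter]
      apply List.filter_congr
      intro i hi
      have h1 := h i
      rw [S.mem_T, S.mem_T] at h1
      by_cases h2 : S.sl i x = 0 <;> by_cases h3 : S.ln i z = 0 <;> by_cases h4 : S.ln i z' = 0
      all_goals simp only [h2, h3, h4, and_true, and_false, decide_true, decide_false,
        Bool.and_true, Bool.and_false]
      all_goals exact absurd (h1 ⟨List.mem_range.1 hi, h2, h3⟩).2.2 h4
    rw [e]
    exact List.filter_sublist
  rcases hsub.length_le.lt_or_eq with h1 | h1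
  · exact h1
  · rw [hsub.eq_of_length h1] at hj'
    exact absurd hj hj'

/-- A vertex which is not optimal has an edge direction that increases the objective. -/
theorem exists_dir {M : ℕ} {x y : E} (_hx : x ∈ S.P M) (hv : S.Vx (fun i => i < M) x)
    (hy : y ∈ S.P M) (hc : S.c x < S.c y) : ∃ z, S.Dir M x z ∧ 0 < S.c z := by
  have key : ∀ n : ℕ, ∀ q : E, (∀ i < M, S.sl i x = 0 → 0 ≤ S.ln i q) → 0 < S.c q →
      M ≤ n + (S.T M x q).length → ∃ z, S.Dir M x z ∧ 0 < S.c z := by
    intro n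
    induction n with
    | zero =>
      intro q hq hqc hn
      refine ⟨q, ⟨hq, by rintro rfl; simp at hqc, fun i hi => (S.mem_T.1 hi).2.2, ?_⟩, hqc⟩
      intro p hp
      have hall : ∀ i < M, i ∈ S.T M x q := by
        have hle : (S.T M x q).Sublist (List.range M) := List.filter_sublist
        have e := hle.eq_of_length_le (by rw [List.length_range]; omega)
        intro i hi
        rw [e]
        exact List.mem_range.2 hi
      refine ⟨0, ?_⟩
      rw [zero_smul]
      exact hv p fun i hi _ => hp i (hall i hi)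
    | succ n ih =>
      intro q hq hqc hn
      by_cases hone : ∀ p, (∀ i ∈ S.T M x q, S.ln i p = 0) → ∃ t : ℝ, p = t • q
      · exact ⟨q, ⟨hq, by rintro rfl; simp at hqc, fun i hi => (S.mem_T.1 hi).2.2, hone⟩, hqc⟩
      · push Not at hone
        obtain ⟨p, hp, hne⟩ := hone
        -- make `p` orthogonal to the objective
        set q1 : E := p - (S.c p / S.c q) • q with hq1
        have hq1c : S.c q1 = 0 := by
          rw [hq1, map_sub, map_smul, smul_eq_mul, div_mul_cancel₀ _ hqc.ne', sub_self]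
        have hq1J : ∀ i ∈ S.T M x q, S.ln i q1 = 0 := fun i hi => by
          rw [hq1, map_sub, map_smul, hp i hi, (S.mem_T.1 hi).2.2]; simp
        have hq1ne : q1 ≠ 0 := by
          intro h
          apply hne (S.c p / S.c q)
          rw [hq1] at h
          exact sub_eq_zero.1 h
        obtain ⟨i, hi, hix, hiq⟩ := S.exists_tight hv hq1ne
        obtain ⟨q2, hq2c, hq2J, hq2i⟩ : ∃ q2 : E, S.c q2 = 0 ∧
            (∀ i ∈ S.T M x q, S.ln i q2 = 0) ∧ S.ln i q2 < 0 := by
          rcases lt_or_gt_of_ne hiq with h | h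
          · exact ⟨q1, hq1c, hq1J, h⟩
          · refine ⟨-q1, by rw [map_neg, hq1c, neg_zero], fun j hj => by
              rw [map_neg, hq1J j hj, neg_zero], by rw [map_neg]; linarith⟩
        classical
        let S' : Sys E :=
          { sl := fun i z => S.ln i z, ln := S.ln, add := fun i x q => map_add _ _ _, c := S.c }
        obtain ⟨t, ht, h1, j, hj, h2, h3⟩ := S'.first_hit
          ((List.range M).filter fun i => decide (S.sl i x = 0)) q q2 (by
            intro j hj
            rw [List.mem_filter, decide_eq_true_eq] at hj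
            exact hq j (List.mem_range.1 hj.1) hj.2)
          ⟨i, by rw [List.mem_filter, decide_eq_true_eq]; exact ⟨List.mem_range.2 hi, hix⟩, hq2i⟩
        rw [List.mem_filter, decide_eq_true_eq] at hj
        have hlt : (S.T M x q).length < (S.T M x (q + t • q2)).length := by
          apply S.T_lt
          · intro k hk
            obtain ⟨h4, h5, h6⟩ := S.mem_T.1 hk
            refine S.mem_T.2 ⟨h4, h5, ?_⟩
            rw [map_add, map_smul, h6, hq2J k hk]; simp
          · refine ⟨j, S.mem_T.2 ⟨List.mem_range.1 hj.1, hj.2, h3⟩, fun hk => ?_⟩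
            have h4 := hq2J j hk
            have h5 : S.ln j q2 < 0 := h2
            linarith
        refine ih (q + t • q2) (fun k hk hkx => ?_) ?_ (by omega)
        · exact h1 k (by rw [List.mem_filter, decide_eq_true_eq]; exact ⟨List.mem_range.2 hk, hkx⟩)
        · rw [map_add, map_smul, hq2c]; simpa using hqc
  refine key M (y - x) (fun i hi hix => ?_) (by rw [map_sub]; linarith) (by omega)
  rw [S.ln_sub, hix, sub_zero]
  exact (S.mem_P.1 hy) i hi

/-- Two vertices on the same ray from `x` are equal: if `x + s z` and `x + t z` (`s, t > 0`) are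
vertices and feasible, then `s = t`. -/
theorem dir_unique_end {M : ℕ} {x z : E} {s t : ℝ} (hx : x ∈ S.P M) (hz : z ≠ 0)
    (hs : 0 < s) (ht : 0 < t) (h1 : x + s • z ∈ S.P M) (h2 : x + t • z ∈ S.P M)
    (hv1 : S.Vx (fun i => i < M) (x + s • z)) (hv2 : S.Vx (fun i => i < M) (x + t • z)) :
    s = t := by
  have key : ∀ a b : ℝ, 0 < a → a < b → x + b • z ∈ S.P M → x + a • z ∈ S.P M →
      S.Vx (fun i => i < M) (x + a • z) → False := by
    intro a b ha hab hb hA hva
    have hb0 : 0 < b := ha.trans hab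
    have hext := S.extreme_of_vx hA hva
    have h3 : x + a • z ∈ openSegment ℝ x (x + b • z) := by
      refine ⟨1 - a / b, a / b, ?_, by positivity, by ring, ?_⟩
      · rw [sub_pos, div_lt_one hb0]; exact hab
      · rw [sub_smul, one_smul, _root_.smul_add, smul_smul, div_mul_cancel₀ _ hb0.ne']
        abel
    have h4 := hext.2 hx hb h3
    have h5 : a • z = 0 := by
      have : x + a • z = x + 0 := by rw [add_zero]; exact h4.symm
      exact add_left_cancel this
    exact hz ((smul_eq_zero.1 h5).resolve_left ha.ne')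
  rcases lt_trichotomy s t with h | h | h
  · exact (key s t hs h h2 h1 hv1).elim
  · exact h
  · exact (key t s ht h h1 h2 hv2).elim

/-- The line cut out by `One` meets the tangent cone of a vertex only in one direction. -/
theorem dir_pos {M : ℕ} {x z : E} (hv : S.Vx (fun i => i < M) x) (hd : S.Dir M x z) {q : E}
    (hq : ∀ i ∈ S.T M x z, S.ln i q = 0) (hq0 : q ≠ 0)
    (hf : ∀ i < M, S.sl i x = 0 → 0 ≤ S.ln i q) : ∃ t : ℝ, 0 < t ∧ q = t • z := by
  obtain ⟨t, ht⟩ := hd.2.2.2 q hq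
  refine ⟨t, ?_, ht⟩
  obtain ⟨i, hi, hix, hiz⟩ := S.exists_tight_pos hv hd.2.1 hd.1
  have h1 := hf i hi hix
  rw [ht, map_smul, smul_eq_mul] at h1
  have h2 : 0 ≤ t := nonneg_of_mul_nonneg_left h1 hiz
  rcases h2.lt_or_eq with h | h
  · exact h
  · rw [← h, zero_smul] at ht
    exact absurd ht hq0

theorem T_congr {M : ℕ} {S' : Sys E} (hln : ∀ i < M, S'.ln i = S.ln i) {x x' : E}
    (hn : ∀ i < M, S.sl i x = 0 ↔ S'.sl i x' = 0) (z : E) : S.T M x z = S'.T M x' z := by
  unfold T
  apply List.filter_congr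
  intro i hi
  have hi' := List.mem_range.1 hi
  rw [hln i hi']
  exact decide_eq_decide.2 (and_congr_left fun _ => hn i hi')

/-- Two systems with the same linear parts. -/
theorem dir_congr {M : ℕ} {S' : Sys E} (hln : ∀ i < M, S'.ln i = S.ln i) {x x' z : E}
    (hn : ∀ i < M, S.sl i x = 0 ↔ S'.sl i x' = 0) : S.Dir M x z ↔ S'.Dir M x' z := by
  unfold Dir
  rw [S.T_congr hln hn z]
  refine and_congr ?_ (and_congr Iff.rfl ?_)
  · refine forall_congr' fun i => forall_congr' fun hi => ?_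
    rw [hln i hi, hn i hi]
  · unfold One
    have h1 : ∀ q : E, (∀ i ∈ S'.T M x' z, S.ln i q = 0) ↔ ∀ i ∈ S'.T M x' z, S'.ln i q = 0 :=
      fun q => forall_congr' fun i => forall_congr' fun hi => by
        rw [hln i (S'.mem_T.1 hi).1]
    rw [h1 z]
    refine and_congr Iff.rfl (forall_congr' fun q => ?_)
    rw [h1 q]

theorem vx_congr {M : ℕ} {S' : Sys E} (hln : ∀ i < M, S'.ln i = S.ln i) {x x' : E}
    (hn : ∀ i < M, S.sl i x = 0 ↔ S'.sl i x' = 0) :
    S.Vx (fun i => i < M) x ↔ S'.Vx (fun i => i < M) x' := by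
  unfold Vx
  refine forall_congr' fun q => ?_
  have h1 : (∀ i, i < M → S.sl i x = 0 → S.ln i q = 0) ↔
      ∀ i, i < M → S'.sl i x' = 0 → S'.ln i q = 0 :=
    forall_congr' fun i => forall_congr' fun hi => by rw [hln i hi, hn i hi]
  rw [h1]

end Pool.Agent.Simplex.QP.Sys
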