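import Pool.Agent.Lib.MP_4d246d_lc.EB.Statement
import Pool.Agent.Lib.MP_4d246d_lc.EB.Geo

/-! The dictionary between linear programs and systems of slack functions. -/

namespace Pool.Agent.Simplex.EB

open QP

variable {m n : ℕ}

/-- the linear parts of the slack functions of `A x ≤ b`, `x ≥ 0` -/
noncomputable def lnA (A : Fin m → Fin n → ℚ) (i : ℕ) : (Fin n → ℝ) →ₗ[ℝ] ℝ :=
  if h : i < m then -(∑ j, (A ⟨i, h⟩ j : ℝ) • LinearMap.proj j)
  else if h' : i - m < n then LinearMap.proj ⟨i - m, h'⟩ else 0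

theorem lnA_row (A : Fin m → Fin n → ℚ) (i : Fin m) (z : Fin n → ℝ) :
    lnA A i z = -∑ j, (A i j : ℝ) * z j := by
  unfold lnA
  rw [dif_pos i.2]
  simp [LinearMap.sum_apply]

theorem lnA_var (A : Fin m → Fin n → ℚ) (j : Fin n) (z : Fin n → ℝ) :
    lnA A (m + j) z = z j := by
  unfold lnA
  rw [dif_neg (by omega), dif_pos (by simp)]
  simp

namespace RLP

variable (D : RLP m n)

/-- the constant parts of the slack functions -/
noncomputable def cst (i : ℕ) : ℝ := if h : i < m then D.b ⟨i, h⟩ else 0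

/-- the slack functions of a program -/
noncomputable def sys : Sys (Fin n → ℝ) where
  sl := fun i x => D.cst i + lnA D.A i x
  ln := lnA D.A
  add := fun i x q => by rw [map_add, add_assoc]
  c := ∑ j, D.c j • LinearMap.proj j

theorem sys_ln : D.sys.ln = lnA D.A := rfl

theorem sl_row (i : Fin m) (x : Fin n → ℝ) :
    D.sys.sl i x = D.b i - ∑ j, (D.A i j : ℝ) * x j := by
  show D.cst i + lnA D.A i x = _
  rw [lnA_row, cst, dif_pos i.2]
  ring

theorem sl_var (j : Fin n) (x : Fin n → ℝ) : D.sys.sl (m + j) x = x j := by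
  show D.cst (m + j) + lnA D.A (m + j) x = _
  rw [lnA_var, cst, dif_neg (by omega)]
  ring

theorem c_sys (x : Fin n → ℝ) : D.sys.c x = D.obj x := by
  show (∑ j, D.c j • LinearMap.proj j : (Fin n → ℝ) →ₗ[ℝ] ℝ) x = _
  simp [LinearMap.sum_apply, obj]

/-- a property of all constraints -/
theorem forall_lt {p : ℕ → Prop} :
    (∀ i < m + n, p i) ↔ (∀ i : Fin m, p i) ∧ ∀ j : Fin n, p (m + j) := by
  constructor
  · exact fun h => ⟨fun i => h i (by omega), fun j => h _ (by omega)⟩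
  · rintro ⟨h1, h2⟩ i hi
    by_cases him : i < m
    · exact h1 ⟨i, him⟩
    · obtain ⟨j, rfl⟩ := Nat.exists_eq_add_of_le (not_lt.1 him)
      exact h2 ⟨j, by omega⟩

theorem mem_P {x : Fin n → ℝ} : x ∈ D.sys.P (m + n) ↔ x ∈ D.feasible := by
  rw [Sys.mem_P, forall_lt]
  refine and_congr (forall_congr' fun i => ?_) (forall_congr' fun j => ?_)
  · rw [D.sl_row, sub_nonneg]
  · rw [D.sl_var]

theorem P_eq : D.sys.P (m + n) = D.feasible := Set.ext fun _ => D.mem_P

theorem vertex_iff {x : Fin n → ℝ} :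
    D.Vertex x ↔ x ∈ D.sys.P (m + n) ∧ D.sys.Vx (fun i => i < m + n) x := by
  unfold Vertex
  rw [← D.P_eq]
  exact ⟨fun h => ⟨h.1, D.sys.vx_of_extreme h⟩, fun h => D.sys.extreme_of_vx h.1 h.2⟩

theorem Vertex.mem {D : RLP m n} {x : Fin n → ℝ} (h : D.Vertex x) : x ∈ D.sys.P (m + n) :=
  (D.vertex_iff.1 h).1

theorem Vertex.vx {D : RLP m n} {x : Fin n → ℝ} (h : D.Vertex x) :
    D.sys.Vx (fun i => i < m + n) x := (D.vertex_iff.1 h).2

theorem edge_iff {x y : Fin n → ℝ} : D.Edge x y ↔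
    D.Vertex x ∧ D.Vertex y ∧ x ≠ y ∧ D.sys.Dir (m + n) x (y - x) := by
  unfold Edge
  refine and_congr_right fun hx => and_congr_right fun hy => and_congr_right fun hxy => ?_
  rw [← D.P_eq]
  exact D.sys.edge_iff hx.mem hx.vx hy.mem hy.vx hxy

theorem ray_iff {x z : Fin n → ℝ} (hz : z ≠ 0) : D.Ray x z ↔
    D.Vertex x ∧ D.sys.Dir (m + n) x z ∧ ∀ i < m + n, 0 ≤ D.sys.ln i z := by
  unfold Ray
  refine and_congr_right fun hx => ?_
  rw [← D.P_eq]
  exact D.sys.ray_iff hx.mem hx.vx hz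

theorem improving_iff {x y : Fin n → ℝ} : D.Improving x y ↔
    D.Vertex x ∧ D.Vertex y ∧ D.sys.Dir (m + n) x (y - x) ∧ 0 < D.sys.c (y - x) := by
  unfold Improving
  rw [D.edge_iff, map_sub, D.c_sys, D.c_sys, sub_pos]
  constructor
  · rintro ⟨⟨h1, h2, -, h3⟩, h4⟩
    exact ⟨h1, h2, h3, h4⟩
  · rintro ⟨h1, h2, h3, h4⟩
    exact ⟨⟨h1, h2, fun h => by rw [h] at h4; exact lt_irrefl _ h4, h3⟩, h4⟩

theorem name_eq (x : Fin n → ℝ) : D.name x = open Classical in
    (List.range (m + n)).map fun i => decide (D.sys.sl i x = 0) := by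
  classical
  unfold name
  rw [List.range_add, List.map_append]
  congr 1
  · apply List.ext_getElem
    · simp
    · intro i h1 h2
      simp only [List.length_ofFn] at h1
      rw [List.getElem_ofFn, List.getElem_map, List.getElem_range]
      rw [decide_eq_decide, D.sl_row ⟨i, h1⟩, sub_eq_zero, eq_comm]
  · apply List.ext_getElem
    · simp
    · intro i h1 h2
      simp only [List.length_ofFn] at h1
      rw [List.getElem_ofFn, List.getElem_map, List.getElem_map, List.getElem_range]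
      rw [decide_eq_decide, D.sl_var ⟨i, h1⟩]

theorem edgeName_eq (x z : Fin n → ℝ) : D.edgeName x z = open Classical in
    (List.range (m + n)).map fun i => decide (D.sys.sl i x = 0 ∧ D.sys.ln i z = 0) := by
  classical
  unfold edgeName
  rw [List.range_add, List.map_append]
  congr 1
  · apply List.ext_getElem
    · simp
    · intro i h1 h2
      simp only [List.length_ofFn] at h1
      rw [List.getElem_ofFn, List.getElem_map, List.getElem_range]
      rw [decide_eq_decide, D.sl_row ⟨i, h1⟩, sub_eq_zero, D.sys_ln, lnA_row D.A ⟨i, h1⟩,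
        neg_eq_zero, eq_comm (a := D.b ⟨i, h1⟩)]
  · apply List.ext_getElem
    · simp
    · intro i h1 h2
      simp only [List.length_ofFn] at h1
      rw [List.getElem_ofFn, List.getElem_map, List.getElem_map, List.getElem_range]
      rw [decide_eq_decide, D.sl_var ⟨i, h1⟩, D.sys_ln, lnA_var D.A ⟨i, h1⟩]

theorem length_name (x : Fin n → ℝ) : (D.name x).length = m + n := by
  simp [name]

theorem length_edgeName (x z : Fin n → ℝ) : (D.edgeName x z).length = m + n := by
  simp [edgeName]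

theorem getD_name (x : Fin n → ℝ) {i : ℕ} (hi : i < m + n) :
    (D.name x).getD i false = true ↔ D.sys.sl i x = 0 := by
  classical
  rw [D.name_eq, List.getD_eq_getElem _ _ (by simpa using hi)]
  simp

theorem getD_edgeName (x z : Fin n → ℝ) {i : ℕ} (hi : i < m + n) :
    (D.edgeName x z).getD i false = true ↔ D.sys.sl i x = 0 ∧ D.sys.ln i z = 0 := by
  classical
  rw [D.edgeName_eq, List.getD_eq_getElem _ _ (by simpa using hi)]
  simp

theorem name_congr {D D' : RLP m n} {x x' : Fin n → ℝ} : D.name x = D'.name x' ↔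
    ∀ i < m + n, D.sys.sl i x = 0 ↔ D'.sys.sl i x' = 0 := by
  classical
  rw [D.name_eq, D'.name_eq]
  simp only [List.map_inj_left, List.mem_range, decide_eq_decide]

theorem edgeName_congr {D D' : RLP m n} {x x' z z' : Fin n → ℝ} :
    D.edgeName x z = D'.edgeName x' z' ↔
    ∀ i < m + n, (D.sys.sl i x = 0 ∧ D.sys.ln i z = 0) ↔
      (D'.sys.sl i x' = 0 ∧ D'.sys.ln i z' = 0) := by
  classical
  rw [D.edgeName_eq, D'.edgeName_eq]
  simp only [List.map_inj_left, List.mem_range, decide_eq_decide]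

/-- the same matrix -/
theorem ln_congr {D D' : RLP m n} (h : D.A = D'.A) (i : ℕ) : D'.sys.ln i = D.sys.ln i := by
  rw [D.sys_ln, D'.sys_ln, h]

/-- Points with the same name in programs with the same matrix have the same directions. -/
theorem dir_congr {D D' : RLP m n} (h : D.A = D'.A) {x x' : Fin n → ℝ}
    (hn : D.name x = D'.name x') (z : Fin n → ℝ) :
    D.sys.Dir (m + n) x z ↔ D'.sys.Dir (m + n) x' z :=
  D.sys.dir_congr (fun i _ => ln_congr h i) (name_congr.1 hn)

theorem vx_congr {D D' : RLP m n} (h : D.A = D'.A) {x x' : Fin n → ℝ}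
    (hn : D.name x = D'.name x') :
    D.sys.Vx (fun i => i < m + n) x ↔ D'.sys.Vx (fun i => i < m + n) x' :=
  D.sys.vx_congr (fun i _ => ln_congr h i) (name_congr.1 hn)

theorem edgeName_of_name {D D' : RLP m n} (h : D.A = D'.A) {x x' : Fin n → ℝ}
    (hn : D.name x = D'.name x') (z : Fin n → ℝ) : D.edgeName x z = D'.edgeName x' z := by
  rw [edgeName_congr]
  intro i hi
  rw [name_congr.1 hn i hi, ln_congr h i]

/-- A vertex is determined by its name. -/
theorem Vertex.eq_of_name {D : RLP m n} {x y : Fin n → ℝ} (hx : D.Vertex x)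
    (h : D.name x = D.name y) : x = y := by
  have h1 : y - x = 0 := hx.vx _ fun i hi h0 => by
    rw [D.sys.ln_sub, h0, (name_congr.1 h i hi).1 h0, sub_zero]
  exact (sub_eq_zero.1 h1).symm

/-- Two edge directions at a vertex with the same name are positively proportional. -/
theorem Vertex.dir_inj {D : RLP m n} {x z z' : Fin n → ℝ} (hx : D.Vertex x)
    (hz : D.sys.Dir (m + n) x z) (hz' : D.sys.Dir (m + n) x z')
    (h : D.edgeName x z = D.edgeName x z') : ∃ t : ℝ, 0 < t ∧ z' = t • z := by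
  refine D.sys.dir_pos hx.vx hz (fun i hi => ?_) hz'.2.1 hz'.1
  obtain ⟨h1, h2, h3⟩ := D.sys.mem_T.1 hi
  exact ((edgeName_congr.1 h i h1).1 ⟨h2, h3⟩).2

theorem dir_smul {D : RLP m n} {x z : Fin n → ℝ} {t : ℝ} (ht : 0 < t) :
    D.sys.Dir (m + n) x (t • z) ↔ D.sys.Dir (m + n) x z := by
  have key : ∀ {z : Fin n → ℝ} {t : ℝ}, 0 < t → D.sys.Dir (m + n) x z →
      D.sys.Dir (m + n) x (t • z) := by
    intro z t ht h
    have hT : D.sys.T (m + n) x (t • z) = D.sys.T (m + n) x z := by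
      unfold Sys.T
      apply List.filter_congr
      intro i _
      rw [decide_eq_decide, map_smul, smul_eq_mul, mul_eq_zero, or_iff_right ht.ne']
    refine ⟨fun i hi h0 => ?_, smul_ne_zero ht.ne' h.2.1, ?_⟩
    · rw [map_smul, smul_eq_mul]
      exact mul_nonneg ht.le (h.1 i hi h0)
    · rw [hT]
      refine ⟨fun i hi => ?_, fun q hq => ?_⟩
      · rw [map_smul, h.2.2.1 i hi, smul_zero]
      · obtain ⟨r, hr⟩ := h.2.2.2 q hq
        refine ⟨r / t, ?_⟩
        rw [smul_smul, div_mul_cancel₀ _ ht.ne', hr]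
  refine ⟨fun h => ?_, key ht⟩
  have := key (inv_pos.2 ht) h
  rwa [smul_smul, inv_mul_cancel₀ ht.ne', one_smul] at this

theorem edgeName_smul {D : RLP m n} {x z : Fin n → ℝ} {t : ℝ} (ht : t ≠ 0) :
    D.edgeName x (t • z) = D.edgeName x z := by
  rw [edgeName_congr]
  intro i _
  rw [map_smul, smul_eq_mul, mul_eq_zero, or_iff_right ht]

/-- An edge direction of a vertex is unbounded, or it leads to another vertex. -/
theorem Vertex.dir_cases {D : RLP m n} {x z : Fin n → ℝ} (hx : D.Vertex x)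
    (hz : D.sys.Dir (m + n) x z) : D.Ray x z ∨ ∃ t : ℝ, 0 < t ∧ D.Edge x (x + t • z) := by
  by_cases hb : ∃ i < m + n, D.sys.ln i z < 0
  · right
    obtain ⟨t, ht, h1, h2, -⟩ := D.sys.dir_end hx.mem hx.vx hz hb
    refine ⟨t, ht, D.edge_iff.2 ⟨hx, D.vertex_iff.2 ⟨h1, h2⟩, ?_, ?_⟩⟩
    · intro h
      have : t • z = 0 := by
        have h3 : x + t • z = x + 0 := by rw [add_zero]; exact h.symm
        exact add_left_cancel h3
      exact hz.2.1 ((smul_eq_zero.1 this).resolve_left ht.ne')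
    · rw [add_sub_cancel_left, dir_smul ht]
      exact hz
  · left
    push Not at hb
    exact (D.ray_iff hz.2.1).2 ⟨hx, hz, hb⟩

/-- A direction of an unbounded edge does not lead to a vertex. -/
theorem Vertex.not_ray {D : RLP m n} {x z : Fin n → ℝ} (hr : D.Ray x z) (hz : z ≠ 0) {t : ℝ}
    (ht : 0 < t) : ¬ D.Vertex (x + t • z) := by
  intro h
  have h1 := (D.ray_iff hz).1 hr
  have h2 : x + (2 * t) • z ∈ D.sys.P (m + n) := by
    rw [Sys.mem_P]
    intro i hi
    rw [D.sys.smul_add]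
    exact add_nonneg (((Sys.mem_P _).1 hr.1.mem) i hi) (mul_nonneg (by linarith) (h1.2.2 i hi))
  have h3 : x + t • z ∈ openSegment ℝ x (x + (2 * t) • z) := by
    refine ⟨1 / 2, 1 / 2, by norm_num, by norm_num, by norm_num, ?_⟩
    rw [smul_add, smul_smul]
    have e1 : (1 / 2 : ℝ) • x + ((1 / 2 : ℝ) • x + (1 / 2 * (2 * t)) • z) =
        ((1 / 2 : ℝ) • x + (1 / 2 : ℝ) • x) + (1 / 2 * (2 * t)) • z := by abel
    rw [e1, ← add_smul, show (1 / 2 * (2 * t) : ℝ) = t by ring,
      show (1 / 2 + 1 / 2 : ℝ) = 1 by norm_num, one_smul]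
  have h4 := h.2 (D.mem_P.1 hr.1.mem) (D.mem_P.1 h2) h3
  have h5 : t • z = 0 := by
    have : x + t • z = x + 0 := by rw [add_zero]; exact h4.symm
    exact add_left_cancel this
  exact hz ((smul_eq_zero.1 h5).resolve_left ht.ne')

/-- The two ends of an edge in a given direction are unique. -/
theorem Vertex.end_unique {D : RLP m n} {x y w : Fin n → ℝ} (hy : D.Edge x y) (hw : D.Edge x w)
    (h : D.edgeName x (y - x) = D.edgeName x (w - x)) : y = w := by
  obtain ⟨hx, hy1, hxy, hy2⟩ := D.edge_iff.1 hy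
  obtain ⟨-, hw1, hxw, hw2⟩ := D.edge_iff.1 hw
  obtain ⟨t, ht, h1⟩ := hx.dir_inj hy2 hw2 h
  have e1 : x + (1 : ℝ) • (y - x) = y := by rw [one_smul, add_sub_cancel]
  have e2 : x + t • (y - x) = w := by rw [← h1, add_sub_cancel]
  have h2 := D.sys.dir_unique_end hx.mem hy2.2.1 one_pos ht (by rw [e1]; exact hy1.mem)
    (by rw [e2]; exact hw1.mem) (by rw [e1]; exact hy1.vx) (by rw [e2]; exact hw1.vx)
  rw [← e1, ← e2, h2]

/-- A vertex is optimal, or has an improving edge direction. -/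
theorem Vertex.optimal_or_dir {D : RLP m n} {x : Fin n → ℝ} (hx : D.Vertex x) :
    D.Optimal x ∨ ∃ z, D.sys.Dir (m + n) x z ∧ 0 < D.obj z := by
  by_cases h : D.Optimal x
  · exact Or.inl h
  · right
    unfold Optimal at h
    push Not at h
    obtain ⟨y, hy, hlt⟩ := h (D.mem_P.1 hx.mem)
    obtain ⟨z, h1, h2⟩ := D.sys.exists_dir hx.mem hx.vx (D.mem_P.2 hy)
      (by rw [D.c_sys, D.c_sys]; exact hlt)
    exact ⟨z, h1, by rw [← D.c_sys]; exact h2⟩

theorem obj_add (x z : Fin n → ℝ) : D.obj (x + z) = D.obj x + D.obj z := by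
  rw [← D.c_sys, map_add, D.c_sys, D.c_sys]

theorem obj_sub (x z : Fin n → ℝ) : D.obj (x - z) = D.obj x - D.obj z := by
  rw [← D.c_sys, map_sub, D.c_sys, D.c_sys]

theorem obj_smul (t : ℝ) (z : Fin n → ℝ) : D.obj (t • z) = t * D.obj z := by
  rw [← D.c_sys, map_smul, D.c_sys, smul_eq_mul]

/-- A vertex is final, or has an improving edge. -/
theorem Vertex.final_or_improving {D : RLP m n} {x : Fin n → ℝ} (hx : D.Vertex x) :
    D.Final x ∨ ∃ y, D.Improving x y := by
  rcases hx.optimal_or_dir with h | ⟨z, hz, hc⟩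
  · exact Or.inl ⟨hx, Or.inl h⟩
  · rcases hx.dir_cases hz with h | ⟨t, ht, h⟩
    · exact Or.inl ⟨hx, Or.inr ⟨z, hc, h⟩⟩
    · refine Or.inr ⟨_, h, ?_⟩
      rw [obj_add, obj_smul]
      have := mul_pos ht hc
      linarith

/-- An optimal point has no improving direction. -/
theorem Optimal.not_dir {D : RLP m n} {x : Fin n → ℝ} (h : D.Optimal x) {z : Fin n → ℝ}
    (hz : D.sys.Dir (m + n) x z) : D.obj z ≤ 0 := by
  by_contra hc
  push Not at hc
  obtain ⟨e, he, h1⟩ := D.sys.pert_P (D.mem_P.2 h.1) hz.1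
  have h2 := h.2 _ (D.mem_P.1 (h1 e he.le le_rfl))
  rw [obj_add, obj_smul] at h2
  have := mul_pos he hc
  linarith

/-- A vertex is optimal exactly if no edge direction is improving. -/
theorem Vertex.optimal_iff {D : RLP m n} {x : Fin n → ℝ} (hx : D.Vertex x) :
    D.Optimal x ↔ ∀ z, D.sys.Dir (m + n) x z → D.obj z ≤ 0 := by
  refine ⟨fun h z hz => h.not_dir hz, fun h => ?_⟩
  rcases hx.optimal_or_dir with h1 | ⟨z, hz, hc⟩
  · exact h1
  · exact absurd (h z hz) (not_le.2 hc)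

end RLP

/-- a rational program as a real program -/
def ofQ (D : QLP m n) : RLP m n := ⟨D.A, fun i => (D.b i : ℝ), fun j => (D.c j : ℝ)⟩

section ofQ

variable (D : QLP m n)

theorem ofQ_feasible : (ofQ D).feasible = D.feasible := rfl

theorem ofQ_obj (x : Fin n → ℝ) : (ofQ D).obj x = D.obj x := rfl

theorem ofQ_vertex (x : Fin n → ℝ) : (ofQ D).Vertex x ↔ D.Vertex x := Iff.rfl

theorem ofQ_edge (x y : Fin n → ℝ) : (ofQ D).Edge x y ↔ D.Edge x y := Iff.rfl

theorem ofQ_improving (x y : Fin n → ℝ) : (ofQ D).Improving x y ↔ D.Improving x y := Iff.rfl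

theorem ofQ_optimal (x : Fin n → ℝ) : (ofQ D).Optimal x ↔ D.Optimal x := Iff.rfl

theorem ofQ_unbounded (x : Fin n → ℝ) :
    D.Unbounded x ↔ D.Vertex x ∧ ∃ z, 0 < (ofQ D).obj z ∧ (ofQ D).Ray x z :=
  ⟨fun h => ⟨h.1, h.2.imp fun _ hz => ⟨hz.1, h.1, hz.2⟩⟩,
    fun h => ⟨h.1, h.2.imp fun _ hz => ⟨hz.1, hz.2.2⟩⟩⟩

theorem ofQ_final (x : Fin n → ℝ) :
    (ofQ D).Final x ↔ D.Vertex x ∧ D.Optimal x ∨ D.Unbounded x := by
  rw [ofQ_unbounded]
  constructor
  · rintro ⟨h1, h2 | h2⟩
    · exact Or.inl ⟨h1, h2⟩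
    · exact Or.inr ⟨h1, h2⟩
  · rintro (⟨h1, h2⟩ | ⟨h1, h2⟩)
    · exact ⟨h1, Or.inl h2⟩
    · exact ⟨h1, Or.inr h2⟩

/-- the matrix of a rational program -/
theorem ofQ_mat : (ofQ D).mat = (n, List.ofFn fun i => List.ofFn (D.A i)) := rfl

end ofQ

theorem size_ofQ (I : Input) : (ofQ I.lp).size = matSize I := rfl

/-- A play is at a vertex. -/
theorem Play.vertex {ρ : BlindRule} {D : RLP m n} {x₀ : Fin n → ℝ} (h0 : D.Vertex x₀)
    {h : List Answer} {x : Fin n → ℝ} (hp : Play ρ D x₀ h x) : D.Vertex x := by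
  induction hp with
  | start => exact h0
  | moved _ h1 _ _ => exact h1.1.2.1
  | refused _ _ _ _ ih => exact ih

end Pool.Agent.Simplex.EB
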