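import Pool.Agent.Lib.MP_4d246d_lc.QP.PolySolver

/-!
# Learning an objective by cuts of simplices: the algorithm and its running time

The state is the list of the `m = n + 1` facets of a simplex in the space of dimension `n`: integer
functionals on the homogeneous coordinates `(x, 1)`. The vertex opposite to a facet is computed
(up to a positive factor) as the last row of the projector onto the common kernel of the other
facets. A cut adds an integer multiple of the violated constraint to one of the facets.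

The constraints of the learner are integer vectors `h` with `h • c ≥ 0`. Those which vanish on the
whole cone of the constraints are found by linear programming; everything is projected onto their
common kernel, where the cone has interior points.
-/

set_option autoImplicit false

namespace Pool.Agent.Lib.MP_4d246d_lc.EB

open Pool.Agent.Simplex.QP Pool.Agent.Lib.PolyTime

/-! ### The algorithm -/

/-- `u + c v` -/
def addZ (c : ℤ) (u v : List ℤ) : List ℤ := List.zipWith (fun a b => a + c * b) u v

/-- a positive multiple of the vertex opposite to the facet `i` -/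
def vert (m : ℕ) (Y : List (List ℤ)) (i : ℕ) : List ℤ :=
  (projZ m ((Y.take i ++ Y.drop (i + 1)).map fun r => padZ m r)).2.getD (m - 1) []

/-- its last coordinate -/
def den (m : ℕ) (Y : List (List ℤ)) (i : ℕ) : ℤ := (vert m Y i).getD (m - 1) 0

/-- the product of the last coordinates -/
def dall (m : ℕ) (Y : List (List ℤ)) : ℤ := ((List.range m).map fun i => den m Y i).prod

/-- a positive multiple of the sum of the vertices -/
def cen (m : ℕ) (Y : List (List ℤ)) : List ℤ :=
  (List.range m).map fun j =>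
    ((List.range m).map fun i => (vert m Y i).getD j 0 * (dall m Y / den m Y i)).sum

/-- the index of a vertex at which the functional `a` is largest -/
def best (m : ℕ) (Y : List (List ℤ)) (a : List ℤ) : Option ℕ :=
  (List.range m).find? fun k => (List.range m).all fun i =>
    decide (dotZ a (vert m Y i) * den m Y k ≤ dotZ a (vert m Y k) * den m Y i)

/-- the facet `k` after the cut with the functional `a` -/
def facet (m : ℕ) (Y : List (List ℤ)) (a : List ℤ) (k : ℕ) : List ℤ :=
  addZ (dotZ (Y.getD k []) (vert m Y k) / (2 * (m : ℤ) ^ 2 * dotZ a (vert m Y k)))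
    (Y.getD k []) a

/-- the facets after the cut with the functional `a` -/
def cutY (m : ℕ) (Y : List (List ℤ)) (a : List ℤ) : List (List ℤ) :=
  match best m Y a with
  | none => Y
  | some k => Y.set k (facet m Y a k)

/-- the entries are less than `2 ^ B` in absolute value -/
def okY (m B : ℕ) (Y : List (List ℤ)) : Bool :=
  decide (Y.length ≤ m) &&
    Y.all fun r => decide (r.length ≤ m) && r.all fun z => decide (Nat.size z.natAbs ≤ B)

/-- one step: the cut with the first violated constraint, if there is one -/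
def learnStep (m B : ℕ) (A Y : List (List ℤ)) : List (List ℤ) :=
  match A.find? fun a => decide (dotZ a (cen m Y) ≤ 0) with
  | none => Y
  | some a => if okY m B (cutY m Y a) then cutY m Y a else Y

/-- the simplex `x_i ≥ -1`, `∑ x_i ≤ n` with facets multiplied by `2 ^ E` -/
def startY (n E : ℕ) : List (List ℤ) :=
  (List.range (n + 1)).map fun i => (List.range (n + 1)).map fun j =>
    if i < n then (if j = i ∨ j = n then 2 ^ E else 0)
    else (if j < n then -(2 : ℤ) ^ E else (n : ℤ) * 2 ^ E)

/-- the run of the algorithm -/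
def runY (n E N B : ℕ) (A : List (List ℤ)) : List (List ℤ) :=
  (fun Y => learnStep (n + 1) B A Y)^[N] (startY n E)

/-- `h` vanishes on the cone of all points where all elements of `H` are nonnegative -/
def isImpl (n : ℕ) (H : List (List ℤ)) (h : List ℤ) : Bool :=
  match lpsolve n [] ((h, 1) :: H.map fun g => (negZ g, 0)) h with
  | .opt x _ => decide (dotZ (padZ n h) x ≤ 0)
  | .infeas => false
  | .unb => false

/-- multiple of the projector onto the common kernel of the constraints which vanish on the cone -/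
def projOf (n : ℕ) (H : List (List ℤ)) : List (List ℤ) :=
  (projZ n ((H.filter fun h => isImpl n H h).map fun h => padZ n h)).2

/-- the other constraints, projected, as functionals on the homogeneous coordinates -/
def cutsOf (n : ℕ) (H : List (List ℤ)) : List (List ℤ) :=
  (H.filter fun h => !isImpl n H h).map fun h => mulVecZ (projOf n H) (padZ n h) ++ [0]

/-- the guess with parameters `E`, `N`, `B` -/
def guess (n E N B : ℕ) (H : List (List ℤ)) : List ℤ :=
  mulVecZ (projOf n H) ((cen (n + 1) (runY n E N B (cutsOf n H))).take n)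

/-! ### The running time -/

section

variable {α : Type*} [TEnc α]

theorem polyF_addZ {c : α → ℤ} {u v : α → List ℤ} (hc : PolyF c) (hu : PolyF u) (hv : PolyF v) :
    PolyF (fun x => addZ (c x) (u x) (v x)) :=
  hu.zipWith (h := fun x a b => a + c x * b) hv
    (PolyF.snd'.fst.intAdd ((hc.comp PolyF.fst').intMul PolyF.snd'.snd))

theorem polyF_vert {m i : α → ℕ} {Y : α → List (List ℤ)} (hm : PolyF m) (hY : PolyF Y)
    (hi : PolyF i) : PolyF (fun x => vert (m x) (Y x) (i x)) := by
  have h1 : PolyF (fun x => ((Y x).take (i x) ++ (Y x).drop (i x + 1)).map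
      fun r => padZ (m x) r) :=
    ((hi.take hY).append (hi.succ.drop hY)).map (h := fun x r => padZ (m x) r)
      (PolyF.padZ (hm.comp PolyF.fst') PolyF.snd')
  refine ((PolyF.projZ projBound hm h1 ?_).snd).getDL hm.pred (PolyF.const [])
  intro x r hr
  obtain ⟨s, _, rfl⟩ := List.mem_map.1 hr
  simp [padZ]

theorem polyF_den {m i : α → ℕ} {Y : α → List (List ℤ)} (hm : PolyF m) (hY : PolyF Y)
    (hi : PolyF i) : PolyF (fun x => den (m x) (Y x) (i x)) :=
  (polyF_vert hm hY hi).getDZ hm.pred

theorem polyF_dall {m : α → ℕ} {Y : α → List (List ℤ)} (hm : PolyF m) (hY : PolyF Y) :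
    PolyF (fun x => dall (m x) (Y x)) :=
  (hm.range.map (h := fun x i => den (m x) (Y x) i)
    (polyF_den (hm.comp PolyF.fst') (hY.comp PolyF.fst') PolyF.snd')).intProd

theorem polyF_cen {m : α → ℕ} {Y : α → List (List ℤ)} (hm : PolyF m) (hY : PolyF Y) :
    PolyF (fun x => cen (m x) (Y x)) := by
  refine hm.range.map (h := fun x j => ((List.range (m x)).map fun i =>
    (vert (m x) (Y x) i).getD j 0 * (dall (m x) (Y x) / den (m x) (Y x) i)).sum) ?_
  refine PolyF.intSum ((hm.comp PolyF.fst').range.map (h := fun (p : α × ℕ) i =>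
    (vert (m p.1) (Y p.1) i).getD p.2 0 * (dall (m p.1) (Y p.1) / den (m p.1) (Y p.1) i)) ?_)
  have hm' : PolyF (fun p : (α × ℕ) × ℕ => m p.1.1) := hm.comp PolyF.fst'.fst
  have hY' : PolyF (fun p : (α × ℕ) × ℕ => Y p.1.1) := hY.comp PolyF.fst'.fst
  exact ((polyF_vert hm' hY' PolyF.snd').getDZ PolyF.fst'.snd).intMul
    ((polyF_dall hm' hY').intEdiv (polyF_den hm' hY' PolyF.snd'))

theorem polyF_best {m : α → ℕ} {Y : α → List (List ℤ)} {a : α → List ℤ} (hm : PolyF m)
    (hY : PolyF Y) (ha : PolyF a) : PolyF (fun x => best (m x) (Y x) (a x)) := by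
  refine hm.range.find? (p := fun x k => (List.range (m x)).all fun i =>
    decide (dotZ (a x) (vert (m x) (Y x) i) * den (m x) (Y x) k ≤
      dotZ (a x) (vert (m x) (Y x) k) * den (m x) (Y x) i)) ?_
  refine (hm.comp PolyF.fst').range.all (p := fun (p : α × ℕ) i =>
    decide (dotZ (a p.1) (vert (m p.1) (Y p.1) i) * den (m p.1) (Y p.1) p.2 ≤
      dotZ (a p.1) (vert (m p.1) (Y p.1) p.2) * den (m p.1) (Y p.1) i)) ?_
  have hm' : PolyF (fun p : (α × ℕ) × ℕ => m p.1.1) := hm.comp PolyF.fst'.fst
  have hY' : PolyF (fun p : (α × ℕ) × ℕ => Y p.1.1) := hY.comp PolyF.fst'.fst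
  have ha' : PolyF (fun p : (α × ℕ) × ℕ => a p.1.1) := ha.comp PolyF.fst'.fst
  exact ((PolyF.dotZ ha' (polyF_vert hm' hY' PolyF.snd')).intMul
    (polyF_den hm' hY' PolyF.fst'.snd)).intLe
    ((PolyF.dotZ ha' (polyF_vert hm' hY' PolyF.fst'.snd)).intMul (polyF_den hm' hY' PolyF.snd'))

theorem polyF_facet {m k : α → ℕ} {Y : α → List (List ℤ)} {a : α → List ℤ} (hm : PolyF m)
    (hY : PolyF Y) (ha : PolyF a) (hk : PolyF k) :
    PolyF (fun x => facet (m x) (Y x) (a x) (k x)) := by
  have hr : PolyF (fun x => (Y x).getD (k x) []) := hY.getDL hk (PolyF.const [])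
  have hv := polyF_vert hm hY hk
  refine polyF_addZ ((PolyF.dotZ hr hv).intEdiv (((PolyF.const (2 : ℤ)).intMul ?_).intMul
    (PolyF.dotZ ha hv))) hr ha
  exact (hm.intOfNat.intMul hm.intOfNat).congr fun x => by ring

theorem polyF_cutY {m : α → ℕ} {Y : α → List (List ℤ)} {a : α → List ℤ} (hm : PolyF m)
    (hY : PolyF Y) (ha : PolyF a) : PolyF (fun x => cutY (m x) (Y x) (a x)) := by
  refine PolyF.optionCases (o := fun x => best (m x) (Y x) (a x)) (g := fun x => Y x)
    (h := fun p : α × ℕ => (Y p.1).set p.2 (facet (m p.1) (Y p.1) (a p.1) p.2))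
    (polyF_best hm hY ha) hY ?_ (fun x h => ?_) (fun x b h => ?_)
  · exact PolyF.snd'.set (hY.comp PolyF.fst') (polyF_facet (hm.comp PolyF.fst')
      (hY.comp PolyF.fst') (ha.comp PolyF.fst') PolyF.snd')
  · simp only [cutY, h]
  · simp only [cutY, h]

theorem polyF_okY {m B : α → ℕ} {Y : α → List (List ℤ)} (hm : PolyF m) (hB : PolyF B)
    (hY : PolyF Y) : PolyF (fun x => okY (m x) (B x) (Y x)) := by
  refine (hY.length.natLe hm).and (hY.all (p := fun x r => decide (r.length ≤ m x) &&
    r.all fun z => decide (Nat.size z.natAbs ≤ B x)) ?_)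
  refine (PolyF.snd'.length.natLe (hm.comp PolyF.fst')).and (PolyF.snd'.all
    (p := fun (p : α × List ℤ) z => decide (Nat.size z.natAbs ≤ B p.1)) ?_)
  exact PolyF.snd'.intSize.natLe (hB.comp PolyF.fst'.fst)

theorem polyF_learnStep {m B : α → ℕ} {A Y : α → List (List ℤ)} (hm : PolyF m) (hB : PolyF B)
    (hA : PolyF A) (hY : PolyF Y) : PolyF (fun x => learnStep (m x) (B x) (A x) (Y x)) := by
  have hf : PolyF (fun x => (A x).find? fun a => decide (dotZ a (cen (m x) (Y x)) ≤ 0)) := by
    refine hA.find? (p := fun x a => decide (dotZ a (cen (m x) (Y x)) ≤ 0)) ?_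
    exact (PolyF.dotZ PolyF.snd' ((polyF_cen hm hY).comp PolyF.fst')).intLe (PolyF.const 0)
  refine PolyF.optionCases (g := fun x => Y x) (h := fun p : α × List ℤ =>
    if okY (m p.1) (B p.1) (cutY (m p.1) (Y p.1) p.2) then cutY (m p.1) (Y p.1) p.2 else Y p.1)
    hf hY ?_ (fun x h => ?_) (fun x b h => ?_)
  · have hc : PolyF (fun p : α × List ℤ => cutY (m p.1) (Y p.1) p.2) :=
      polyF_cutY (hm.comp PolyF.fst') (hY.comp PolyF.fst') PolyF.snd'
    exact PolyF.iteBool (polyF_okY (hm.comp PolyF.fst') (hB.comp PolyF.fst') hc) hc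
      (hY.comp PolyF.fst')
  · simp only [learnStep, h]
  · simp only [learnStep, h]

theorem polyF_startY {n E : α → ℕ} (hn : PolyF n) (hE : PolyF E) :
    PolyF (fun x => startY (n x) (E x)) := by
  refine hn.succ.range.map (h := fun x i => (List.range (n x + 1)).map fun j =>
    if i < n x then (if j = i ∨ j = n x then 2 ^ E x else 0)
    else (if j < n x then -(2 : ℤ) ^ E x else (n x : ℤ) * 2 ^ E x)) ?_
  refine (hn.comp PolyF.fst').succ.range.map (h := fun (p : α × ℕ) j =>
    if p.2 < n p.1 then (if j = p.2 ∨ j = n p.1 then 2 ^ E p.1 else 0)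
    else (if j < n p.1 then -(2 : ℤ) ^ E p.1 else (n p.1 : ℤ) * 2 ^ E p.1)) ?_
  have hn' : PolyF (fun p : (α × ℕ) × ℕ => n p.1.1) := hn.comp PolyF.fst'.fst
  have hE' : PolyF (fun p : (α × ℕ) × ℕ => (2 : ℤ) ^ E p.1.1) :=
    (hE.comp PolyF.fst'.fst).intTwoPow
  exact PolyF.ite (PolyF.fst'.snd.natLt hn')
    (PolyF.ite (PolyF.decide_or (PolyF.snd'.natEq PolyF.fst'.snd) (PolyF.snd'.natEq hn')) hE'
      (PolyF.const 0))
    (PolyF.ite (PolyF.snd'.natLt hn') hE'.intNeg (hn'.intOfNat.intMul hE'))

theorem okY_startY (n E : ℕ) : okY (n + 1) (E + n + 1) (startY n E) = true := by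
  have h1 : ∀ z : ℤ, |z| < 2 ^ (E + n + 1) → Nat.size z.natAbs ≤ E + n + 1 := fun z hz =>
    (isize_le_iff z _).2 hz
  have h0 : (0 : ℤ) < 2 ^ E := by positivity
  have h2 : (2 : ℤ) ^ E < 2 ^ (E + n + 1) := pow_lt_pow_right₀ (by norm_num) (by omega)
  have h3 : (n : ℤ) * 2 ^ E < 2 ^ (E + n + 1) := by
    have h4 : (n : ℤ) < 2 ^ n := by exact_mod_cast Nat.lt_two_pow_self
    have h5 : (2 : ℤ) ^ (E + n + 1) = 2 ^ n * 2 ^ E * 2 := by ring
    rw [h5]
    nlinarith [mul_lt_mul_of_pos_right h4 h0]
  unfold okY startY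
  rw [Bool.and_eq_true, decide_eq_true_iff, List.length_map, List.length_range]
  refine ⟨le_rfl, ?_⟩
  rw [List.all_eq_true]
  intro r hr
  obtain ⟨i, -, rfl⟩ := List.mem_map.1 hr
  rw [Bool.and_eq_true, decide_eq_true_iff, List.length_map, List.length_range]
  refine ⟨le_rfl, ?_⟩
  rw [List.all_eq_true]
  intro z hz
  obtain ⟨j, -, rfl⟩ := List.mem_map.1 hz
  rw [decide_eq_true_iff]
  refine h1 _ ?_
  split_ifs
  · rw [abs_of_pos h0]; exact h2
  · simp
  · rw [abs_neg, abs_of_pos h0]; exact h2
  · rw [abs_of_nonneg (by positivity)]; exact h3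

theorem okY_mono {m B B' : ℕ} (hB : B ≤ B') {Y : List (List ℤ)} (h : okY m B Y = true) :
    okY m B' Y = true := by
  unfold okY at h ⊢
  rw [Bool.and_eq_true, List.all_eq_true] at h ⊢
  refine ⟨h.1, fun r hr => ?_⟩
  have h1 := h.2 r hr
  rw [Bool.and_eq_true, List.all_eq_true] at h1 ⊢
  refine ⟨h1.1, fun z hz => ?_⟩
  have h2 := h1.2 z hz
  rw [decide_eq_true_iff] at h2 ⊢
  omega

theorem sz_of_okY {m B : ℕ} {Y : List (List ℤ)} (h : okY m B Y = true) :
    sz Y ≤ ((2 * B + 3) * m + 1) * m := by
  unfold okY at h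
  rw [Bool.and_eq_true, List.all_eq_true, decide_eq_true_iff] at h
  refine sz_matZ_le h.1 (fun r hr => ?_) (fun r hr a ha => ?_)
  · have h1 := h.2 r hr
    rw [Bool.and_eq_true, decide_eq_true_iff] at h1
    exact h1.1
  · have h1 := h.2 r hr
    rw [Bool.and_eq_true, List.all_eq_true] at h1
    have h2 := h1.2 a ha
    rw [decide_eq_true_iff] at h2
    exact (isize_le_iff a _).1 h2

theorem okY_learnStep {m B B' : ℕ} (hB : B ≤ B') (A : List (List ℤ)) {Y : List (List ℤ)}
    (h : okY m B' Y = true) : okY m B' (learnStep m B A Y) = true := by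
  unfold learnStep
  cases A.find? fun a => decide (dotZ a (cen m Y) ≤ 0) with
  | none => exact h
  | some a =>
    by_cases h1 : okY m B (cutY m Y a) = true
    · simp only [if_pos h1]
      exact okY_mono hB h1
    · simp only [if_neg h1]
      exact h

theorem okY_iterate (n E B : ℕ) (A : List (List ℤ)) (i : ℕ) :
    okY (n + 1) (max (E + n + 1) B)
      ((fun Y => learnStep (n + 1) B A Y)^[i] (startY n E)) = true := by
  induction i with
  | zero => exact okY_mono (le_max_left _ _) (okY_startY n E)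
  | succ i ih =>
    rw [Function.iterate_succ_apply']
    exact okY_learnStep (le_max_right _ _) A ih

theorem polyF_runY {n E N B : α → ℕ} {A : α → List (List ℤ)} (hn : PolyF n) (hE : PolyF E)
    (hN : PolyF N) (hB : PolyF B) (hA : PolyF A) :
    PolyF (fun x => runY (n x) (E x) (N x) (B x) (A x)) := by
  refine PolyF.natIterate (f := fun x Y => learnStep (n x + 1) (B x) (A x) Y)
    (g := fun x => startY (n x) (E x)) hN (polyF_learnStep (hn.comp PolyF.fst').succ
      (hB.comp PolyF.fst') (hA.comp PolyF.fst') PolyF.snd') (polyF_startY hn hE) ?_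
  have h1 : PBd (fun x => ((2 * (max (E x + n x + 1) (B x)) + 3) * (n x + 1) + 1) * (n x + 1)) := by
    have hM : PBd (fun x => max (E x + n x + 1) (B x)) :=
      (((hE.pbdNat.add hn.pbdNat).add (PBd.const 1)).add hB.pbdNat).of_le fun x => by omega
    have hn1 : PBd (fun x => n x + 1) := hn.pbdNat.add (PBd.const 1)
    exact ((((((PBd.const 2).mul hM).add (PBd.const 3)).mul hn1).add (PBd.const 1)).mul hn1)
  refine h1.imp fun P hP x i _ => ?_
  exact (sz_of_okY (okY_iterate (n x) (E x) (B x) (A x) i)).trans (hP x)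

theorem polyF_isImpl {n : α → ℕ} {H : α → List (List ℤ)} {h : α → List ℤ} (hn : PolyF n)
    (hH : PolyF H) (hh : PolyF h) : PolyF (fun x => isImpl (n x) (H x) (h x)) := by
  have h1 : PolyF (fun x => lpsolve (n x) [] ((h x, 1) :: (H x).map fun g => (negZ g, 0))
      (h x)) := by
    refine PolyF.lpsolve hn PolyF.nil ((hh.pair (PolyF.const 1)).cons ?_) hh
    exact hH.map (h := fun _ g => (negZ g, (0 : ℤ))) ((PolyF.negZ PolyF.snd').pair
      (PolyF.const 0))
  refine PolyF.resCases (f := fun x => isImpl (n x) (H x) (h x)) (g1 := fun _ => false)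
    (g2 := fun _ => false)
    (h := fun p : α × List ℤ × ℤ => decide (dotZ (padZ (n p.1) (h p.1)) p.2.1 ≤ 0)) h1
    (PolyF.const _) (PolyF.const _) ?_ (fun x hx => ?_) (fun x hx => ?_) (fun x v d hx => ?_)
  · exact (PolyF.dotZ (PolyF.padZ (hn.comp PolyF.fst') (hh.comp PolyF.fst'))
      PolyF.snd'.fst).intLe (PolyF.const 0)
  · simp only [isImpl, hx]
  · simp only [isImpl, hx]
  · simp only [isImpl, hx]

theorem polyF_projOf {n : α → ℕ} {H : α → List (List ℤ)} (hn : PolyF n) (hH : PolyF H) :
    PolyF (fun x => projOf (n x) (H x)) := by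
  have h1 : PolyF (fun x => ((H x).filter fun h => isImpl (n x) (H x) h).map
      fun h => padZ (n x) h) := by
    refine (hH.filter (p := fun x h => isImpl (n x) (H x) h) ?_).map
      (h := fun x h => padZ (n x) h) (PolyF.padZ (hn.comp PolyF.fst') PolyF.snd')
    exact polyF_isImpl (hn.comp PolyF.fst') (hH.comp PolyF.fst') PolyF.snd'
  refine (PolyF.projZ projBound hn h1 ?_).snd
  intro x r hr
  obtain ⟨s, _, rfl⟩ := List.mem_map.1 hr
  simp [padZ]

theorem polyF_cutsOf {n : α → ℕ} {H : α → List (List ℤ)} (hn : PolyF n) (hH : PolyF H) :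
    PolyF (fun x => cutsOf (n x) (H x)) := by
  refine (hH.filter (p := fun x h => !isImpl (n x) (H x) h) ?_).map
    (h := fun x h => mulVecZ (projOf (n x) (H x)) (padZ (n x) h) ++ [0]) ?_
  · exact (polyF_isImpl (hn.comp PolyF.fst') (hH.comp PolyF.fst') PolyF.snd').not
  · exact (PolyF.mulVecZ ((polyF_projOf hn hH).comp PolyF.fst')
      (PolyF.padZ (hn.comp PolyF.fst') PolyF.snd')).append (PolyF.const [0])

/-- The guess is computed in polynomial time. -/
theorem polyF_guess {n E N B : α → ℕ} {H : α → List (List ℤ)} (hn : PolyF n) (hE : PolyF E)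
    (hN : PolyF N) (hB : PolyF B) (hH : PolyF H) :
    PolyF (fun x => guess (n x) (E x) (N x) (B x) (H x)) :=
  PolyF.mulVecZ (polyF_projOf hn hH)
    (hn.take (polyF_cen hn.succ (polyF_runY hn hE hN hB (polyF_cutsOf hn hH))))

end

end Pool.Agent.Lib.MP_4d246d_lc.EB
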