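import Pool.Agent.Lib.MP_4d246d_lc.EB.SlimDef

/-!
# Line sums of the table of a program
-/

namespace Pool.Agent.Simplex.EB

open Pool.Agent.Lib.PolyTime Pool.Agent.Simplex.QP

theorem tab_add (X : Mat) (U U' : ℝ) (w w' : ℕ → ℝ) (q : ℕ) :
    tab X (U + U') (fun v => w v + w' v) q = tab X U w q + tab X U' w' q := by
  unfold tab
  split_ifs <;> ring

theorem tab_smul (X : Mat) (t U : ℝ) (w : ℕ → ℝ) (q : ℕ) :
    tab X (t * U) (fun v => t * w v) q = t * tab X U w q := by
  unfold tab
  split_ifs <;> ring

/-- sign of a kind -/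
private noncomputable def ksg (k : ℕ) : ℝ := if k = 1 then 1 else if k = 2 then -1 else 0

private theorem ksg_zero : ksg 0 = 0 := by unfold ksg; norm_num

private theorem ksg_one : ksg 1 = 1 := by unfold ksg; norm_num

private theorem ksg_two : ksg 2 = -1 := by unfold ksg; norm_num

/-- value of a cell, `U = 0` -/
private noncomputable def yv (X : Mat) (w : ℕ → ℝ) (e : ℕ) : ℝ :=
  if e % 2 = 0 then w (cV X e) else - w (cV X e)

private theorem kind_lt (X : Mat) (e J K : ℕ) : kind X e J K < 3 := by
  unfold kind
  split_ifs <;> omega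

private theorem tab0 {X : Mat} (w : ℕ → ℝ) (e : ℕ) {J K : ℕ} (hJ : J < slc X) (hK : K < 3) :
    tab X 0 w (ix (slc X) e J K) = ksg (kind X e J K) * yv X w e := by
  obtain ⟨h1, h2, h3⟩ := ix_div (e := e) hJ hK
  unfold tab tk yv
  rw [h1, h2, h3]
  have hk := kind_lt X e J K
  generalize kind X e J K = k at hk
  by_cases he : e % 2 = 0
  · simp only [if_pos he]
    interval_cases k
    · simp [ksg_zero]
    · simp [ksg_one]
    · simp [ksg_two]
  · simp only [if_neg he]
    interval_cases k
    · simp [ksg_zero]
    · simp [ksg_one]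
    · simp [ksg_two]

private theorem sum_two (R : ℕ) (f : ℕ → ℝ) : ∑ e ∈ Finset.range (2 * R), f e =
    ∑ p ∈ Finset.range R, (f (2 * p) + f (2 * p + 1)) := by
  induction R with
  | zero => simp
  | succ R ih =>
    rw [show 2 * (R + 1) = 2 * R + 1 + 1 by ring, Finset.sum_range_succ, Finset.sum_range_succ, ih,
      Finset.sum_range_succ, add_assoc]

private theorem sum_pair (N m : ℕ) (f : ℕ → ℝ) : ∑ p ∈ Finset.range (N * m), f p =
    ∑ v ∈ Finset.range N, ∑ s ∈ Finset.range m, f (v * m + s) := by
  induction N with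
  | zero => simp
  | succ N ih =>
    rw [Nat.succ_mul, Finset.sum_range_add, ih, Finset.sum_range_succ]

private theorem pair_div {m v s : ℕ} (hs : s < m) : (v * m + s) / m = v ∧ (v * m + s) % m = s := by
  have hm : 0 < m := by omega
  constructor
  · rw [Nat.add_comm, Nat.add_mul_div_right _ _ hm, Nat.div_eq_of_lt hs, zero_add]
  · rw [Nat.add_comm, Nat.add_mul_mod_self_right, Nat.mod_eq_of_lt hs]

private theorem cV_even (X : Mat) (p : ℕ) : cV X (2 * p) = p / X.2.length := by
  unfold cV
  rw [show 2 * p / 2 = p by omega]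

private theorem cV_odd (X : Mat) (p : ℕ) : cV X (2 * p + 1) = p / X.2.length := by
  unfold cV
  rw [show (2 * p + 1) / 2 = p by omega]

private theorem cS_even (X : Mat) (p : ℕ) : cS X (2 * p) = p % X.2.length := by
  unfold cS
  rw [show 2 * p / 2 = p by omega]

private theorem cS_odd (X : Mat) (p : ℕ) : cS X (2 * p + 1) = p % X.2.length := by
  unfold cS
  rw [show (2 * p + 1) / 2 = p by omega]

private theorem yv_even (X : Mat) (w : ℕ → ℝ) (p : ℕ) : yv X w (2 * p) = w (p / X.2.length) := by
  unfold yv
  rw [if_pos (by omega), cV_even]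

private theorem yv_odd (X : Mat) (w : ℕ → ℝ) (p : ℕ) : yv X w (2 * p + 1) = - w (p / X.2.length) := by
  unfold yv
  rw [if_neg (by omega), cV_odd]

private theorem hgt_le_len {X : Mat} (hm : 0 < X.2.length) (e : ℕ) : hgt X e ≤ X.2.length := by
  unfold hgt
  split_ifs
  · unfold cS
    exact (Nat.mod_lt _ hm).le
  · exact le_rfl

private theorem len_pos {X : Mat} {p : ℕ} (hp : p < slR X) : 0 < X.2.length := by
  unfold slR at hp
  rcases Nat.eq_zero_or_pos X.2.length with h | h
  · rw [h, mul_zero] at hp
    omega
  · exact h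

private theorem colc_lt {X : Mat} {e : ℕ} (he : e / 2 < slR X) : colc X e < slR X := by
  have hm := len_pos he
  unfold colc
  split_ifs
  · exact he
  · unfold slR at he ⊢
    have h1 : cV X e < X.1 + X.2.length := by
      unfold cV
      exact Nat.div_lt_of_lt_mul (by rw [mul_comm]; exact he)
    have h2 := Nat.mod_lt (cS X e + (X.2.length - 1)) hm
    calc cV X e * X.2.length + (cS X e + (X.2.length - 1)) % X.2.length
        < cV X e * X.2.length + X.2.length := by omega
      _ = (cV X e + 1) * X.2.length := by ring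
      _ ≤ (X.1 + X.2.length) * X.2.length := Nat.mul_le_mul_right _ h1

/-- sum of the values of the cells with `hgt e = J` -/
private noncomputable def HS (X : Mat) (w : ℕ → ℝ) (J : ℕ) : ℝ :=
  ∑ e ∈ Finset.range (slr X), if J = hgt X e then yv X w e else 0

/-- all cells -/
private theorem sum_yv (X : Mat) (w : ℕ → ℝ) : ∑ e ∈ Finset.range (slr X), yv X w e = 0 := by
  unfold slr
  rw [sum_two]
  refine Finset.sum_eq_zero fun p _ => ?_
  rw [yv_even, yv_odd]
  ring

private theorem HS_eqn {X : Mat} (hX : UnitsM X) (w : ℕ → ℝ) {s : ℕ} (hs : s < X.2.length) :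
    HS X w s = ∑ v ∈ Finset.range (X.1 + X.2.length), (cof X s v : ℝ) * w v := by
  unfold HS slr slR
  rw [sum_two, sum_pair]
  refine Finset.sum_congr rfl fun v _ => ?_
  rw [Finset.sum_eq_single s]
  · obtain ⟨h1, h2⟩ := pair_div (v := v) hs
    have e1 : hgt X (2 * (v * X.2.length + s)) = if cof X s v = 1 then s else X.2.length := by
      unfold hgt
      rw [cS_even, cV_even, h1, h2]
      refine if_congr ?_ rfl rfl
      constructor
      · rintro (h | h)
        · exact h.2
        · omega
      · intro h
        exact Or.inl ⟨by omega, h⟩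
    have e2 : hgt X (2 * (v * X.2.length + s) + 1) = if cof X s v = -1 then s else X.2.length := by
      unfold hgt
      rw [cS_odd, cV_odd, h1, h2]
      refine if_congr ?_ rfl rfl
      constructor
      · rintro (h | h)
        · omega
        · exact h.2
      · intro h
        exact Or.inr ⟨by omega, h⟩
    rw [e1, e2, yv_even, yv_odd, h1]
    rcases hX s v with h | h | h
    · rw [h, if_neg (by norm_num : ¬ (0 : ℚ) = 1), if_neg (by norm_num : ¬ (0 : ℚ) = -1),
        if_neg (by omega), if_neg (by omega)]
      push_cast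
      ring
    · rw [h, if_pos rfl, if_neg (by norm_num : ¬ (1 : ℚ) = -1), if_pos rfl, if_neg (by omega)]
      push_cast
      ring
    · rw [h, if_neg (by norm_num : ¬ (-1 : ℚ) = 1), if_pos rfl, if_neg (by omega), if_pos rfl]
      push_cast
      ring
  · intro s' hs' hne
    rw [Finset.mem_range] at hs'
    obtain ⟨h1, h2⟩ := pair_div (v := v) hs'
    have e1 : ¬ s = hgt X (2 * (v * X.2.length + s')) := by
      unfold hgt
      rw [cS_even, h2]
      split_ifs
      · exact fun h => hne h.symm
      · omega
    have e2 : ¬ s = hgt X (2 * (v * X.2.length + s') + 1) := by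
      unfold hgt
      rw [cS_odd, h2]
      split_ifs
      · exact fun h => hne h.symm
      · omega
    rw [if_neg e1, if_neg e2, add_zero]
  · intro h
    exact absurd (Finset.mem_range.2 hs) h

private theorem HS_last {X : Mat} (hX : UnitsM X) {w : ℕ → ℝ}
    (hw : ∀ s < X.2.length, ∑ v ∈ Finset.range (X.1 + X.2.length), (cof X s v : ℝ) * w v = 0) :
    HS X w X.2.length = 0 := by
  have h1 : ∑ J ∈ Finset.range (X.2.length + 1), HS X w J = 0 := by
    unfold HS
    rw [Finset.sum_comm]
    refine (Finset.sum_congr rfl fun e he => ?_).trans (sum_yv X w)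
    rw [Finset.mem_range] at he
    have hm : 0 < X.2.length := len_pos (p := e / 2) (by unfold slr at he; omega)
    rw [Finset.sum_ite_eq', if_pos]
    rw [Finset.mem_range]
    have := hgt_le_len hm e
    omega
  rw [Finset.sum_range_succ, Finset.sum_eq_zero fun s hs => ?_, zero_add] at h1
  · exact h1
  · rw [Finset.mem_range] at hs
    rw [HS_eqn hX w hs, hw s hs]

private theorem kind_le {X : Mat} {e J : ℕ} (hJ : J ≤ X.2.length) (K : ℕ) :
    kind X e J K = if J = hgt X e then (if K = 0 then 1 else if K = 1 then 2 else 0) else 0 := by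
  unfold kind
  rw [if_neg (show ¬ J = X.2.length + 1 + e / 2 by omega),
    if_neg (show ¬ J = X.2.length + 1 + (slR X + colc X e) by omega)]

private theorem lt_slc {X : Mat} {J : ℕ} (hJ : J ≤ X.2.length) : J < slc X := by
  unfold slc
  omega

private theorem lsum_HS {X : Mat} (w : ℕ → ℝ) {J : ℕ} (hJ : J ≤ X.2.length) {K : ℕ} (hK : K < 3) :
    lsum (slr X) (slc X) (slr X * slc X + (3 * J + K)) (tab X 0 w) =
      ksg (if K = 0 then 1 else if K = 1 then 2 else 0) * HS X w J := by
  rw [lsum_B (lt_slc hJ) hK]
  unfold HS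
  rw [Finset.mul_sum]
  refine Finset.sum_congr rfl fun e _ => ?_
  rw [tab0 w e (lt_slc hJ) hK, kind_le hJ]
  by_cases h : J = hgt X e
  · rw [if_pos h, if_pos h]
  · rw [if_neg h, if_neg h, ksg_zero, zero_mul, mul_zero]

/-- the line of the first `m` columns in layer `0` gives the equation -/
theorem lsum_eqn {X : Mat} (hX : UnitsM X) (w : ℕ → ℝ) {s : ℕ} (hs : s < X.2.length) :
    lsum (slr X) (slc X) (slr X * slc X + (3 * s + 0)) (tab X 0 w) =
      ∑ v ∈ Finset.range (X.1 + X.2.length), (cof X s v : ℝ) * w v := by
  rw [lsum_HS w hs.le (by norm_num), if_pos rfl, ksg_one, one_mul, HS_eqn hX w hs]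

/-- the lines of the columns of the second kind -/
private theorem lsum_B2 {X : Mat} (w : ℕ → ℝ) {i : ℕ} (hi : i < slR X) {K : ℕ} (hK : K < 3) :
    lsum (slr X) (slc X) (slr X * slc X + (3 * (X.2.length + 1 + i) + K)) (tab X 0 w) = 0 := by
  have hm := len_pos hi
  have hJ : X.2.length + 1 + i < slc X := by unfold slc; omega
  rw [lsum_B hJ hK]
  have h1 : ∀ e ∈ Finset.range (slr X), tab X 0 w (ix (slc X) e (X.2.length + 1 + i) K) =
      if e / 2 = i then ksg (if K = 0 then 2 else if K = 1 then 0 else 1) * yv X w e else 0 := by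
    intro e he
    rw [Finset.mem_range] at he
    rw [tab0 w e hJ hK]
    unfold kind
    have := hgt_le_len hm e
    rw [if_neg (show ¬ X.2.length + 1 + i = hgt X e by omega)]
    by_cases h : e / 2 = i
    · rw [if_pos (by omega), if_pos h]
    · rw [if_neg (by omega), if_neg (by omega), if_neg h, ksg_zero, zero_mul]
  rw [Finset.sum_congr rfl h1]
  unfold slr
  rw [sum_two, Finset.sum_eq_single i]
  · rw [if_pos (show 2 * i / 2 = i by omega), if_pos (show (2 * i + 1) / 2 = i by omega), yv_even,
      yv_odd]
    ring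
  · intro p _ hne
    rw [if_neg (show ¬ 2 * p / 2 = i by omega), if_neg (show ¬ (2 * p + 1) / 2 = i by omega),
      add_zero]
  · intro h
    exact absurd (Finset.mem_range.2 hi) h

/-- the even cell in the column `j` of the third kind -/
private theorem colc_even {X : Mat} (hm : 0 < X.2.length) (p j : ℕ) : colc X (2 * p) = j ↔
    p = j / X.2.length * X.2.length + (j % X.2.length + 1) % X.2.length := by
  unfold colc
  rw [if_neg (by omega), cV_even, cS_even]
  set m := X.2.length with hmdef
  have hp := Nat.div_add_mod p m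
  have hj := Nat.div_add_mod j m
  have hp2 := Nat.mod_lt p hm
  have hj2 := Nat.mod_lt j hm
  rw [mul_comm] at hp hj
  constructor
  · intro h
    obtain ⟨h1, h2⟩ := pair_div (v := p / m) (Nat.mod_lt (p % m + (m - 1)) hm)
    rw [h] at h1 h2
    rw [h1, h2]
    have h3 : ((p % m + (m - 1)) % m + 1) % m = p % m := by
      rw [Nat.mod_add_mod, show p % m + (m - 1) + 1 = p % m + m by omega, Nat.add_mod_right,
        Nat.mod_mod]
    rw [h3]
    exact hp.symm
  · intro h
    obtain ⟨h1, h2⟩ := pair_div (v := j / m) (Nat.mod_lt (j % m + 1) hm)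
    rw [← h] at h1 h2
    rw [h1, h2]
    have h3 : ((j % m + 1) % m + (m - 1)) % m = j % m := by
      rw [Nat.mod_add_mod, show j % m + 1 + (m - 1) = j % m + m by omega, Nat.add_mod_right,
        Nat.mod_mod]
    rw [h3]
    exact hj

/-- the lines of the columns of the third kind -/
private theorem lsum_B3 {X : Mat} (w : ℕ → ℝ) {j : ℕ} (hj : j < slR X) {K : ℕ} (hK : K < 3) :
    lsum (slr X) (slc X) (slr X * slc X + (3 * (X.2.length + 1 + (slR X + j)) + K))
      (tab X 0 w) = 0 := by
  have hm := len_pos hj
  have hJ : X.2.length + 1 + (slR X + j) < slc X := by unfold slc; omega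
  rw [lsum_B hJ hK]
  have h1 : ∀ e ∈ Finset.range (slr X),
      tab X 0 w (ix (slc X) e (X.2.length + 1 + (slR X + j)) K) =
      if colc X e = j then ksg (if K = 0 then 0 else if K = 1 then 1 else 2) * yv X w e
        else 0 := by
    intro e he
    rw [Finset.mem_range] at he
    unfold slr at he
    rw [tab0 w e hJ hK]
    unfold kind
    have := hgt_le_len hm e
    rw [if_neg (show ¬ X.2.length + 1 + (slR X + j) = hgt X e by omega),
      if_neg (show ¬ X.2.length + 1 + (slR X + j) = X.2.length + 1 + e / 2 by omega)]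
    by_cases h : colc X e = j
    · rw [if_pos (by omega), if_pos h]
    · rw [if_neg (by omega), if_neg h, ksg_zero, zero_mul]
  rw [Finset.sum_congr rfl h1]
  unfold slr
  rw [sum_two, Finset.sum_add_distrib]
  set p := j / X.2.length * X.2.length + (j % X.2.length + 1) % X.2.length with hp
  have hpm : p / X.2.length = j / X.2.length := (pair_div (Nat.mod_lt _ hm)).1
  have hpR : p < slR X := by
    unfold slR at hj ⊢
    have h2 : j / X.2.length < X.1 + X.2.length :=
      Nat.div_lt_of_lt_mul (by rw [mul_comm]; exact hj)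
    have h3 := Nat.mod_lt (j % X.2.length + 1) hm
    calc p < j / X.2.length * X.2.length + X.2.length := by omega
      _ = (j / X.2.length + 1) * X.2.length := by ring
      _ ≤ _ := Nat.mul_le_mul_right _ h2
  have a1 : ∑ x ∈ Finset.range (slR X), (if colc X (2 * x) = j then
      ksg (if K = 0 then 0 else if K = 1 then 1 else 2) * yv X w (2 * x) else 0) =
      ksg (if K = 0 then 0 else if K = 1 then 1 else 2) * w (j / X.2.length) := by
    rw [Finset.sum_eq_single p]
    · rw [if_pos ((colc_even hm p j).2 hp), yv_even, hpm]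
    · intro x _ hne
      rw [if_neg (fun h => hne ((colc_even hm x j).1 h))]
    · intro h
      exact absurd (Finset.mem_range.2 hpR) h
  have a2 : ∑ x ∈ Finset.range (slR X), (if colc X (2 * x + 1) = j then
      ksg (if K = 0 then 0 else if K = 1 then 1 else 2) * yv X w (2 * x + 1) else 0) =
      ksg (if K = 0 then 0 else if K = 1 then 1 else 2) * (- w (j / X.2.length)) := by
    have h4 : ∀ x, colc X (2 * x + 1) = x := by
      intro x
      unfold colc
      rw [if_pos (by omega)]
      omega
    rw [Finset.sum_eq_single j]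
    · rw [h4, if_pos rfl, yv_odd]
    · intro x _ hne
      rw [h4, if_neg hne]
    · intro h
      exact absurd (Finset.mem_range.2 hj) h
  rw [a1, a2]
  ring

/-- a sum with three nonzero terms -/
private theorem sum_three {c a b d : ℕ} (ha : a < c) (hb : b < c) (hd : d < c) (hab : a ≠ b) (had : a ≠ d)
    (hbd : b ≠ d) (α β γ : ℝ) :
    ∑ J ∈ Finset.range c, (if J = a then α else if J = b then β else if J = d then γ else 0) =
      α + β + γ := by
  have h1 : ∀ J ∈ Finset.range c, (if J = a then α else if J = b then β else if J = d then γ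
      else 0) = (if J = a then α else 0) + (if J = b then β else 0) + (if J = d then γ else 0) := by
    intro J _
    by_cases h1 : J = a
    · rw [if_pos h1, if_pos h1, if_neg (by omega), if_neg (by omega)]
      ring
    · rw [if_neg h1, if_neg h1]
      by_cases h2 : J = b
      · rw [if_pos h2, if_pos h2, if_neg (by omega)]
        ring
      · rw [if_neg h2, if_neg h2]
        ring
  rw [Finset.sum_congr rfl h1, Finset.sum_add_distrib, Finset.sum_add_distrib,
    Finset.sum_ite_eq', Finset.sum_ite_eq', Finset.sum_ite_eq', if_pos (Finset.mem_range.2 ha),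
    if_pos (Finset.mem_range.2 hb), if_pos (Finset.mem_range.2 hd)]

/-- the linear part has the line sums zero -/
theorem lsum_zero {X : Mat} (hX : UnitsM X) {w : ℕ → ℝ}
    (hw : ∀ s < X.2.length, ∑ v ∈ Finset.range (X.1 + X.2.length), (cof X s v : ℝ) * w v = 0) :
    ∀ p < lines (slr X) (slc X), lsum (slr X) (slc X) p (tab X 0 w) = 0 := by
  rw [forall_lines]
  refine ⟨?_, ?_, ?_⟩
  · intro e he J hJ
    rw [lsum_A he hJ, Finset.sum_range_succ, Finset.sum_range_succ, Finset.sum_range_one,
      tab0 w e hJ (by norm_num), tab0 w e hJ (by norm_num), tab0 w e hJ (by norm_num)]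
    have h1 : ksg (kind X e J 0) + ksg (kind X e J 1) + ksg (kind X e J 2) = 0 := by
      unfold kind
      split_ifs <;> simp_all [ksg_zero, ksg_one, ksg_two]
    rw [← add_mul, ← add_mul, h1, zero_mul]
  · intro J hJ K hK
    rcases Nat.lt_or_ge J (X.2.length + 1) with h | h
    · rw [lsum_HS w (by omega) hK]
      rcases Nat.lt_or_ge J X.2.length with h2 | h2
      · rw [HS_eqn hX w h2, hw J h2, mul_zero]
      · rw [show J = X.2.length by omega, HS_last hX hw, mul_zero]
    · obtain ⟨i, rfl⟩ := Nat.exists_eq_add_of_le h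
      rcases Nat.lt_or_ge i (slR X) with h2 | h2
      · exact lsum_B2 w h2 hK
      · obtain ⟨j, rfl⟩ := Nat.exists_eq_add_of_le h2
        exact lsum_B3 w (by unfold slc at hJ; omega) hK
  · intro e he K hK
    have he2 : e / 2 < slR X := by unfold slr at he; omega
    have hm := len_pos he2
    rw [lsum_C he hK]
    have h1 : ∀ J ∈ Finset.range (slc X), tab X 0 w (ix (slc X) e J K) =
        (if J = hgt X e then ksg (if K = 0 then 1 else if K = 1 then 2 else 0) else
          if J = X.2.length + 1 + e / 2 then ksg (if K = 0 then 2 else if K = 1 then 0 else 1) else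
          if J = X.2.length + 1 + (slR X + colc X e) then
            ksg (if K = 0 then 0 else if K = 1 then 1 else 2) else 0) * yv X w e := by
      intro J hJ
      rw [tab0 w e (Finset.mem_range.1 hJ) hK]
      congr 1
      unfold kind
      by_cases c1 : J = hgt X e
      · rw [if_pos c1, if_pos c1]
      · rw [if_neg c1, if_neg c1]
        by_cases c2 : J = X.2.length + 1 + e / 2
        · rw [if_pos c2, if_pos c2]
        · rw [if_neg c2, if_neg c2]
          by_cases c3 : J = X.2.length + 1 + (slR X + colc X e)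
          · rw [if_pos c3, if_pos c3]
          · rw [if_neg c3, if_neg c3, ksg_zero]
    rw [Finset.sum_congr rfl h1, ← Finset.sum_mul]
    have h2 := hgt_le_len hm e
    have h3 := colc_lt he2
    rw [sum_three (by unfold slc; omega) (by unfold slc; omega) (by unfold slc; omega)
      (by omega) (by omega) (by omega)]
    interval_cases K
    · simp [ksg_zero, ksg_one, ksg_two]
    · simp [ksg_zero, ksg_one, ksg_two]
    · simp [ksg_zero, ksg_one, ksg_two]

end Pool.Agent.Simplex.EB
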