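import Pool.Agent.Lib.MP_4d246d_lc.EB.IsoA
import Pool.Agent.Lib.MP_4d246d_lc.EB.SimPoly

/-!
# Affine isomorphisms with a positive factor for the objective
-/

namespace Pool.Agent.Simplex.EB

open Pool.Agent.Lib.PolyTime Pool.Agent.Simplex.QP

/-- `x ↦ L x + a` maps the polyhedron of `D` bijectively onto that of `D'`; the new objective is
`κ` times the old one plus `β` -/
structure PIso {m n m' n' : ℕ} (D : RLP m n) (D' : RLP m' n') where
  /-- the linear part -/
  L : (Fin n → ℝ) →ₗ[ℝ] (Fin n' → ℝ)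
  /-- the image of the origin -/
  a : Fin n' → ℝ
  inj : Function.Injective L
  feas : D'.feasible = (fun x => L x + a) '' D.feasible
  /-- the factor -/
  κ : ℝ
  pos : 0 < κ
  /-- the shift -/
  β : ℝ
  obj : ∀ x, D'.obj (L x + a) = κ * D.obj x + β

namespace PIso

variable {m n m' n' m'' n'' : ℕ} {D : RLP m n} {D' : RLP m' n'} {D'' : RLP m'' n''}

/-- the map -/
def map (e : PIso D D') (x : Fin n → ℝ) : Fin n' → ℝ := e.L x + e.a

/-- from an isomorphism with the same objective -/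
def ofAIso (e : AIso D D') : PIso D D' where
  L := e.L
  a := e.a
  inj := e.inj
  feas := e.feas
  κ := 1
  pos := one_pos
  β := 0
  obj x := by rw [e.obj, one_mul, add_zero]

/-- composition -/
def trans (e : PIso D D') (e' : PIso D' D'') : PIso D D'' where
  L := e'.L ∘ₗ e.L
  a := e'.L e.a + e'.a
  inj := by
    rw [LinearMap.coe_comp]
    exact e'.inj.comp e.inj
  feas := by
    rw [e'.feas, e.feas, Set.image_image]
    refine Set.image_congr' fun x => ?_
    rw [map_add, LinearMap.comp_apply, add_assoc]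
  κ := e'.κ * e.κ
  pos := mul_pos e'.pos e.pos
  β := e'.κ * e.β + e'.β
  obj x := by
    have h1 : (e'.L ∘ₗ e.L) x + (e'.L e.a + e'.a) = e'.L (e.L x + e.a) + e'.a := by
      rw [map_add, LinearMap.comp_apply, add_assoc]
    rw [h1, e'.obj, e.obj]
    ring

theorem map_inj (e : PIso D D') : Function.Injective e.map := injective_add e.L e.inj e.a

theorem feas' (e : PIso D D') : D'.feasible = e.map '' D.feasible := e.feas

theorem map_obj (e : PIso D D') (x : Fin n → ℝ) : D'.obj (e.map x) = e.κ * D.obj x + e.β :=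
  e.obj x

theorem extreme (e : PIso D D') (A B : Set (Fin n → ℝ)) :
    IsExtreme ℝ (e.map '' A) (e.map '' B) ↔ IsExtreme ℝ A B := extreme_imageA e.L e.inj e.a A B

theorem map_sub_map (e : PIso D D') (x y : Fin n → ℝ) : e.map y - e.map x = e.L (y - x) := by
  unfold map
  rw [map_sub]
  abel

theorem obj_L (e : PIso D D') (z : Fin n → ℝ) : D'.obj (e.L z) = e.κ * D.obj z := by
  have h1 := e.obj z
  have h2 := e.obj 0
  rw [RLP.obj_add] at h1 h2
  rw [map_zero] at h2
  have h3 : D.obj 0 = 0 := by simp [RLP.obj]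
  have h4 : D'.obj (0 : Fin n' → ℝ) = 0 := by simp [RLP.obj]
  rw [h3, h4, zero_add, mul_zero, zero_add] at h2
  rw [h2] at h1
  exact add_right_cancel h1

theorem obj_lt (e : PIso D D') {x y : Fin n → ℝ} :
    D'.obj (e.map x) < D'.obj (e.map y) ↔ D.obj x < D.obj y := by
  rw [e.map_obj, e.map_obj, add_lt_add_iff_right, mul_lt_mul_iff_right₀ e.pos]

theorem obj_le (e : PIso D D') {x y : Fin n → ℝ} :
    D'.obj (e.map x) ≤ D'.obj (e.map y) ↔ D.obj x ≤ D.obj y := by
  rw [e.map_obj, e.map_obj, add_le_add_iff_right, mul_le_mul_iff_right₀ e.pos]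

theorem vertex (e : PIso D D') {x : Fin n → ℝ} : D'.Vertex (e.map x) ↔ D.Vertex x := by
  unfold RLP.Vertex
  rw [← isExtreme_singleton, ← isExtreme_singleton, e.feas', ← Set.image_singleton]
  exact e.extreme _ _

theorem of_vertex (e : PIso D D') {y : Fin n' → ℝ} (hy : D'.Vertex y) :
    ∃ x, D.Vertex x ∧ e.map x = y := by
  have h1 : y ∈ e.map '' D.feasible := by
    rw [← e.feas']
    exact hy.1
  obtain ⟨x, -, rfl⟩ := h1
  exact ⟨x, e.vertex.1 hy, rfl⟩

theorem edge (e : PIso D D') {x y : Fin n → ℝ} : D'.Edge (e.map x) (e.map y) ↔ D.Edge x y := by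
  unfold RLP.Edge
  have h1 : e.map '' segment ℝ x y = segment ℝ (e.map x) (e.map y) :=
    image_segmentA e.L e.a x y
  rw [e.vertex, e.vertex, e.map_inj.ne_iff, e.feas', ← h1, e.extreme]

theorem improving (e : PIso D D') {x y : Fin n → ℝ} :
    D'.Improving (e.map x) (e.map y) ↔ D.Improving x y := by
  unfold RLP.Improving
  rw [e.edge, e.obj_lt]

theorem optimal (e : PIso D D') {x : Fin n → ℝ} : D'.Optimal (e.map x) ↔ D.Optimal x := by
  unfold RLP.Optimal
  rw [e.feas', e.map_inj.mem_set_image]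
  refine and_congr Iff.rfl ?_
  constructor
  · intro h y hy
    exact e.obj_le.1 (h (e.map y) (Set.mem_image_of_mem _ hy))
  · rintro h _ ⟨y, hy, rfl⟩
    exact e.obj_le.2 (h y hy)

theorem ray (e : PIso D D') {x z : Fin n → ℝ} : D'.Ray (e.map x) (e.L z) ↔ D.Ray x z := by
  unfold RLP.Ray
  have h1 : {w | ∃ s : ℝ, 0 ≤ s ∧ w = e.map x + s • e.L z} =
      e.map '' {w | ∃ s : ℝ, 0 ≤ s ∧ w = x + s • z} := by
    have h2 : ∀ s : ℝ, e.map (x + s • z) = e.map x + s • e.L z := by
      intro s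
      unfold map
      rw [map_add, map_smul]
      abel
    ext w
    constructor
    · rintro ⟨s, hs, rfl⟩
      exact ⟨x + s • z, ⟨s, hs, rfl⟩, h2 s⟩
    · rintro ⟨_, ⟨s, hs, rfl⟩, rfl⟩
      exact ⟨s, hs, h2 s⟩
  rw [e.vertex, h1, e.feas', e.extreme]

theorem of_ray (e : PIso D D') {x : Fin n → ℝ} {z' : Fin n' → ℝ} (h : D'.Ray (e.map x) z')
    (hz : 0 < D'.obj z') : ∃ z, 0 < D.obj z ∧ D.Ray x z := by
  have h1 : e.map x + z' ∈ D'.feasible := h.2.1 ⟨1, zero_le_one, by rw [one_smul]⟩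
  rw [e.feas'] at h1
  obtain ⟨w, -, hw⟩ := h1
  have h2 : e.L (w - x) = z' := by
    rw [← e.map_sub_map, hw, add_sub_cancel_left]
  rw [← h2] at h hz
  rw [e.obj_L] at hz
  exact ⟨w - x, (pos_iff_pos_of_mul_pos hz).1 e.pos, e.ray.1 h⟩

end PIso

/-- Runs are carried back along an isomorphism. -/
theorem run_of_piso {I I' : Input} (e : PIso (ofQ I.lp) (ofQ I'.lp))
    (hv : toReal I'.v = e.map (toReal I.v)) {back : (Fin I'.n → ℚ) → Fin I.n → ℚ}
    (hback : ∀ (x : Fin I.n → ℝ) (w : Fin I'.n → ℚ), toReal w = e.map x → toReal (back w) = x)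
    {N : ℕ} {x : ℕ → Fin I'.n → ℚ} {s : Verdict} (h : SimplexRun I' N x s) :
    SimplexRun I N (fun t => back (x t)) s := by
  have hvert : ∀ w : Fin I'.n → ℚ, I'.lp.Vertex (toReal w) → toReal w = e.map (toReal (back w)) ∧
      I.lp.Vertex (toReal (back w)) := by
    intro w hw
    obtain ⟨y, hy, hyw⟩ := e.of_vertex (y := toReal w) hw
    have h1 := hback y w hyw.symm
    refine ⟨?_, ?_⟩
    · rw [h1, hyw]
    · rw [h1]
      exact hy
  constructor
  · rw [h.start]
    have h1 := hback (toReal I.v) I'.v hv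
    funext j
    have h2 := congrFun h1 j
    unfold toReal at h2
    exact_mod_cast h2
  · intro t ht
    have h1 := h.pivot t ht
    obtain ⟨h2, -⟩ := hvert _ h1.1.1
    obtain ⟨h3, -⟩ := hvert _ h1.1.2.1
    rw [h2, h3] at h1
    exact e.improving.1 h1
  · rcases h.stop with ⟨h1, h2, h3⟩ | ⟨h1, h2⟩
    · obtain ⟨h4, h5⟩ := hvert _ h2
      rw [h4] at h3
      exact Or.inl ⟨h1, h5, e.optimal.1 h3⟩
    · obtain ⟨h3, z', hz, hext⟩ := h2
      obtain ⟨h4, h5⟩ := hvert _ h3
      have hr : (ofQ I'.lp).Ray (e.map (toReal (back (x N)))) z' := by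
        rw [← h4]
        exact ⟨h3, hext⟩
      obtain ⟨z, hz0, hz1⟩ := e.of_ray hr hz
      exact Or.inr ⟨h1, h5, z, hz0, hz1.2⟩

end Pool.Agent.Simplex.EB
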