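import Pool.Agent.Lib.MP_4d246d_lc.EB.Iso

/-!
# Programs that are affinely isomorphic
-/

namespace Pool.Agent.Simplex.EB

open Pool.Agent.Lib.PolyTime Pool.Agent.Simplex.QP

section

variable {E F : Type*} [AddCommGroup E] [Module ℝ E] [AddCommGroup F] [Module ℝ F]

theorem mem_openSegment_imageA (L : E →ₗ[ℝ] F) (hL : Function.Injective L) (a : F) {x y z : E} :
    L z + a ∈ openSegment ℝ (L x + a) (L y + a) ↔ z ∈ openSegment ℝ x y := by
  rw [add_comm _ a, add_comm _ a, add_comm _ a, mem_openSegment_translate,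
    mem_openSegment_image L hL]

theorem injective_add (L : E →ₗ[ℝ] F) (hL : Function.Injective L) (a : F) :
    Function.Injective (fun x => L x + a) := fun _ _ h => hL (add_right_cancel h)

/-- an injective affine map takes extreme subsets to extreme subsets -/
theorem extreme_imageA (L : E →ₗ[ℝ] F) (hL : Function.Injective L) (a : F) (A B : Set E) :
    IsExtreme ℝ ((fun x => L x + a) '' A) ((fun x => L x + a) '' B) ↔ IsExtreme ℝ A B := by
  have hi := injective_add L hL a
  constructor
  · rintro ⟨h1, h2⟩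
    refine ⟨fun b hb => ?_, fun x hx y hy z hz hzxy => ?_⟩
    · have := h1 (Set.mem_image_of_mem (fun x => L x + a) hb)
      rwa [hi.mem_set_image] at this
    · have := h2 (Set.mem_image_of_mem (fun x => L x + a) hx)
        (Set.mem_image_of_mem (fun x => L x + a) hy)
        (Set.mem_image_of_mem (fun x => L x + a) hz) ((mem_openSegment_imageA L hL a).2 hzxy)
      rwa [hi.mem_set_image] at this
  · rintro ⟨h1, h2⟩
    refine ⟨Set.image_mono h1, ?_⟩
    rintro _ ⟨x, hx, rfl⟩ _ ⟨y, hy, rfl⟩ _ ⟨z, hz, rfl⟩ hzxy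
    exact Set.mem_image_of_mem (fun x => L x + a)
      (h2 hx hy hz ((mem_openSegment_imageA L hL a).1 hzxy))

theorem image_segmentA (L : E →ₗ[ℝ] F) (a : F) (x y : E) :
    (fun x => L x + a) '' segment ℝ x y = segment ℝ (L x + a) (L y + a) := by
  have h1 : L '' segment ℝ x y = segment ℝ (L x) (L y) := image_segment ℝ L.toAffineMap x y
  have h2 := segment_translate_image ℝ a (L x) (L y)
  rw [add_comm _ a, add_comm _ a, ← h2, ← h1, Set.image_image]
  refine Set.image_congr' fun z => ?_
  rw [add_comm]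

end

/-- `x ↦ L x + a` maps the polyhedron of `D` bijectively onto that of `D'`, objective to
objective -/
structure AIso {m n m' n' : ℕ} (D : RLP m n) (D' : RLP m' n') where
  /-- the linear part -/
  L : (Fin n → ℝ) →ₗ[ℝ] (Fin n' → ℝ)
  /-- the translation -/
  a : Fin n' → ℝ
  inj : Function.Injective L
  feas : D'.feasible = (fun x => L x + a) '' D.feasible
  obj : ∀ x, D'.obj (L x + a) = D.obj x

namespace AIso

variable {m n m' n' : ℕ} {D : RLP m n} {D' : RLP m' n'} (e : AIso D D')

/-- the affine map -/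
def map (x : Fin n → ℝ) : Fin n' → ℝ := e.L x + e.a

theorem map_inj : Function.Injective e.map := injective_add e.L e.inj e.a

theorem feas' : D'.feasible = e.map '' D.feasible := e.feas

theorem map_obj (x : Fin n → ℝ) : D'.obj (e.map x) = D.obj x := e.obj x

theorem extreme (A B : Set (Fin n → ℝ)) : IsExtreme ℝ (e.map '' A) (e.map '' B) ↔
    IsExtreme ℝ A B := extreme_imageA e.L e.inj e.a A B

theorem map_sub_map (x y : Fin n → ℝ) : e.map y - e.map x = e.L (y - x) := by
  unfold map
  rw [map_sub]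
  abel

theorem obj_L (z : Fin n → ℝ) : D'.obj (e.L z) = D.obj z := by
  have h1 := e.obj z
  have h2 := e.obj 0
  rw [RLP.obj_add] at h1 h2
  rw [map_zero] at h2
  have h3 : D.obj 0 = 0 := by simp [RLP.obj]
  have h4 : D'.obj (0 : Fin n' → ℝ) = 0 := by simp [RLP.obj]
  rw [h3, h4, zero_add] at h2
  rw [h2, add_zero] at h1
  exact h1

theorem vertex {x : Fin n → ℝ} : D'.Vertex (e.map x) ↔ D.Vertex x := by
  unfold RLP.Vertex
  rw [← isExtreme_singleton, ← isExtreme_singleton, e.feas', ← Set.image_singleton]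
  exact e.extreme _ _

theorem of_vertex {y : Fin n' → ℝ} (hy : D'.Vertex y) : ∃ x, D.Vertex x ∧ e.map x = y := by
  have h1 : y ∈ e.map '' D.feasible := by
    rw [← e.feas']
    exact hy.1
  obtain ⟨x, -, rfl⟩ := h1
  exact ⟨x, e.vertex.1 hy, rfl⟩

theorem edge {x y : Fin n → ℝ} : D'.Edge (e.map x) (e.map y) ↔ D.Edge x y := by
  unfold RLP.Edge
  have h1 : e.map '' segment ℝ x y = segment ℝ (e.map x) (e.map y) :=
    image_segmentA e.L e.a x y
  rw [e.vertex, e.vertex, e.map_inj.ne_iff, e.feas', ← h1, e.extreme]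

theorem improving {x y : Fin n → ℝ} : D'.Improving (e.map x) (e.map y) ↔ D.Improving x y := by
  unfold RLP.Improving
  rw [e.edge, e.map_obj, e.map_obj]

theorem optimal {x : Fin n → ℝ} : D'.Optimal (e.map x) ↔ D.Optimal x := by
  unfold RLP.Optimal
  rw [e.feas', e.map_inj.mem_set_image]
  refine and_congr Iff.rfl ?_
  constructor
  · intro h y hy
    have := h (e.map y) (Set.mem_image_of_mem _ hy)
    rwa [e.map_obj, e.map_obj] at this
  · rintro h _ ⟨y, hy, rfl⟩
    rw [e.map_obj, e.map_obj]
    exact h y hy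

theorem ray {x z : Fin n → ℝ} : D'.Ray (e.map x) (e.L z) ↔ D.Ray x z := by
  unfold RLP.Ray
  have h1 : {w | ∃ s : ℝ, 0 ≤ s ∧ w = e.map x + s • e.L z} =
      e.map '' {w | ∃ s : ℝ, 0 ≤ s ∧ w = x + s • z} := by
    have h2 : ∀ s : ℝ, e.map (x + s • z) = e.map x + s • e.L z := by
      intro s
      unfold map
      rw [map_add, map_smul]
      abel
    ext w
    constructor
    · rintro ⟨s, hs, rfl⟩
      exact ⟨x + s • z, ⟨s, hs, rfl⟩, h2 s⟩
    · rintro ⟨_, ⟨s, hs, rfl⟩, rfl⟩
      exact ⟨s, hs, h2 s⟩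
  rw [e.vertex, h1, e.feas', e.extreme]

theorem of_ray {x : Fin n → ℝ} {z' : Fin n' → ℝ} (h : D'.Ray (e.map x) z') :
    ∃ z, e.L z = z' ∧ D.Ray x z := by
  have h1 : e.map x + z' ∈ D'.feasible := h.2.1 ⟨1, zero_le_one, by rw [one_smul]⟩
  rw [e.feas'] at h1
  obtain ⟨w, -, hw⟩ := h1
  have h2 : e.L (w - x) = z' := by
    rw [← e.map_sub_map, hw, add_sub_cancel_left]
  refine ⟨w - x, h2, ?_⟩
  rw [← h2] at h
  exact e.ray.1 h

end AIso

/-- names correspond -/
structure NamesA {m n m' n' : ℕ} {D : RLP m n} {D' : RLP m' n'} (e : AIso D D')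
    (f g : List Bool → List Bool) : Prop where
  name : ∀ x, D.Vertex x → D'.name (e.L x + e.a) = f (D.name x)
  edge : ∀ x z, D.Vertex x → D.sys.Dir (m + n) x z →
    D'.edgeName (e.L x + e.a) (e.L z) = f (D.edgeName x z)
  gf : ∀ S : List Bool, S.length = m + n → g (f S) = S

theorem play_isoA {F : Mat → Mat} {f g : Mat → List Bool → List Bool} {ρ : BlindRule}
    {m n m' n' : ℕ} {D : RLP m n} {D' : RLP m' n'} (e : AIso D D') (hF : D'.mat = F D.mat)
    (hn : NamesA e (f D.mat) (g D.mat)) {x₀ : Fin n → ℝ} (hx₀ : D.Vertex x₀) {h : List Answer}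
    {x : Fin n → ℝ} (hp : Play (isoRule F f g ρ) D x₀ h x) :
    Play ρ D' (e.map x₀) (h.map (mapA (f D.mat))) (e.map x) := by
  have hname : ∀ x, D.Vertex x → D'.name (e.map x) = f D.mat (D.name x) := hn.name
  have hedge : ∀ x z, D.Vertex x → D.sys.Dir (m + n) x z →
      D'.edgeName (e.map x) (e.L z) = f D.mat (D.edgeName x z) := hn.edge
  have hrule : ∀ h : List Answer, isoRule F f g ρ (D.mat, D.name x₀, h) =
      match ρ (D'.mat, D'.name (e.map x₀), h.map (mapA (f D.mat))) with
      | some T => if T = f D.mat (g D.mat T) then some (g D.mat T) else none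
      | none => none := by
    intro h
    unfold isoRule
    dsimp only
    rw [hF, hname x₀ hx₀]
    rfl
  have hlow : ∀ x z, g D.mat (f D.mat (D.edgeName x z)) = D.edgeName x z := fun x z =>
    hn.gf _ (D.length_edgeName x z)
  induction hp with
  | start => exact Play.start
  | @moved h x y hp hxy hr ih =>
    have hx := hxy.1.1
    rw [List.map_append, List.map_singleton]
    show Play ρ D' (e.map x₀) (h.map (mapA (f D.mat)) ++ [.moved (f D.mat (D.name y))]) (e.map y)
    rw [← hname y hxy.1.2.1]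
    refine Play.moved ih (e.improving.2 hxy) ?_
    have hE := hedge x (y - x) hx (D.improving_iff.1 hxy).2.2.1
    rw [← e.map_sub_map] at hE
    rw [hrule] at hr
    revert hr
    cases ρ (D'.mat, D'.name (e.map x₀), h.map (mapA (f D.mat))) with
    | none => intro hr; simp at hr
    | some T =>
      intro hr
      dsimp only at hr
      split_ifs at hr with h1
      rw [Option.some.inj hr] at h1
      rw [hE, ← h1]
  | @refused h x y hp hxy h1 h2 ih =>
    have hx := hxy.1.1
    rw [List.map_append, List.map_singleton]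
    show Play ρ D' (e.map x₀) (h.map (mapA (f D.mat)) ++ [.refused (f D.mat (D.name y))])
      (e.map x)
    rw [← hname y hxy.1.2.1]
    refine Play.refused ih (e.improving.2 hxy) ?_ ?_
    · intro w' hw' he
      obtain ⟨w, -, rfl⟩ := e.of_vertex hw'.1.2.1
      have hw := e.improving.1 hw'
      have hE := hedge x (w - x) hx (D.improving_iff.1 hw).2.2.1
      rw [← e.map_sub_map] at hE
      refine h1 w hw ?_
      rw [hrule, he, hE]
      dsimp only
      rw [hlow, if_pos rfl]
    · intro z' hz' hr he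
      obtain ⟨z, rfl, hr'⟩ := e.of_ray hr
      rw [e.obj_L] at hz'
      have hz0 : z ≠ 0 := by
        rintro rfl
        simp [RLP.obj] at hz'
      have hE := hedge x z hx ((D.ray_iff hz0).1 hr').2.1
      refine h2 z hz' hr' ?_
      rw [hrule, he, hE]
      dsimp only
      rw [hlow, if_pos rfl]

theorem solves_isoA {F : Mat → Mat} {f g : Mat → List Bool → List Bool} {ρ : BlindRule}
    {m n m' n' B : ℕ} {D : RLP m n} {D' : RLP m' n'} (e : AIso D D') (hF : D'.mat = F D.mat)
    (hn : NamesA e (f D.mat) (g D.mat)) (h : Solves ρ D' B) : Solves (isoRule F f g ρ) D B := by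
  rw [solves_iff] at h ⊢
  intro x₀ hx₀ hh x hp
  have h1 := h (e.map x₀) (e.vertex.2 hx₀) _ _ (play_isoA e hF hn hx₀ hp)
  rwa [List.length_map] at h1

end Pool.Agent.Simplex.EB
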