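import Pool.Agent.Lib.MP_4d246d_lc.EB.Statement

/-!
# Programs with entries 0, 1, -1 and three nonzero entries per row
-/

namespace Pool.Agent.Simplex.EB

open Pool.Agent.Lib.PolyTime Turing

/-- All entries are `0`, `1` or `-1`, and each row has at most three nonzero entries. -/
def Sparse {m n : ℕ} (A : Fin m → Fin n → ℚ) : Prop :=
  (∀ i j, A i j = 0 ∨ A i j = 1 ∨ A i j = -1) ∧ ∀ i, {j | A i j ≠ 0}.ncard ≤ 3

/-- Question 1 for the programs with a sparse matrix: a version of the simplex method with
polynomial total running time on these programs. -/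
def SparseSimplex : Prop :=
  ∃ (N : Input → ℕ) (x : (I : Input) → ℕ → Fin I.n → ℚ) (s : Input → Verdict),
    (∀ I, Sparse I.lp.A → SimplexRun I (N I) (x I) (s I)) ∧
    Nonempty (TM2ComputableInPolyTime (fun I : {I : Input // Sparse I.lp.A} => code I.1)
      (code (α := List (List ℚ × Verdict)))
      (fun I => protocol (N I.1) (x I.1) (s I.1)))

/-- There is one blind rule, computed in polynomial time, that solves all programs with a sparse
matrix with a number of answers polynomial in the dimensions alone. -/
def SparseBlind : Prop :=
  ∃ (ρ : BlindRule) (P : Polynomial ℕ), ρ.Poly ∧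
    ∀ (m n : ℕ) (D : RLP m n), Sparse D.A → Solves ρ D (P.eval (m + n))

end Pool.Agent.Simplex.EB
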