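import Pool.Agent.Lib.MP_4d246d_lc.EB.Lines
import Pool.Agent.Lib.MP_4d246d_lc.EB.IsoA
import Pool.Agent.Lib.MP_4d246d_lc.EB.Statement2
import Pool.Agent.Lib.MP_4d246d_lc.EB.SlpNames

/-!
# The table of a program (definitions)

Let `X` be a matrix with `m` rows, `n` columns and entries `0`, `1`, `-1`. The variables are
`w_v`, `v < n + m`; for `v = n + i` it is the slack of the row `i`. For each pair `(v, s)`,
`s < m`, with the number `p = v m + s`, there are two cells `e = 2 p` and `e = 2 p + 1`; the value
`y_e` of the first one is `w_v`, that of the second one is `U - w_v`. The cells are the rows of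
the table. The row `e` has six nonzero entries: `y_e` and `U - y_e` in the layers `0`, `1` of the
column `hgt e`; `U - y_e` and `y_e` in the layers `0`, `2` of the column `m + 1 + e / 2`; `y_e`
and `U - y_e` in the layers `1`, `2` of the column `m + 1 + R + colc e`.
-/

namespace Pool.Agent.Simplex.EB

open Pool.Agent.Lib.PolyTime Pool.Agent.Simplex.QP

/-- number of pairs -/
def slR (X : Mat) : ℕ := (X.1 + X.2.length) * X.2.length

/-- number of rows of the table -/
def slr (X : Mat) : ℕ := 2 * slR X

/-- number of columns of the table -/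
def slc (X : Mat) : ℕ := X.2.length + 1 + (slR X + slR X)

/-- coefficient of the variable `v` in the equation `s` -/
def cof (X : Mat) (s v : ℕ) : ℚ :=
  if v < X.1 then (X.2.getD s []).getD v 0 else if v = X.1 + s then 1 else 0

/-- the variable of a cell -/
def cV (X : Mat) (e : ℕ) : ℕ := e / 2 / X.2.length

/-- the equation of a cell -/
def cS (X : Mat) (e : ℕ) : ℕ := e / 2 % X.2.length

/-- the column of the first kind of the cell `e` -/
def hgt (X : Mat) (e : ℕ) : ℕ :=
  if (e % 2 = 0 ∧ cof X (cS X e) (cV X e) = 1) ∨ (e % 2 = 1 ∧ cof X (cS X e) (cV X e) = -1) then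
    cS X e
  else X.2.length

/-- the column of the third kind of the cell `e`: the cells `2 p + 1` of the pair `(v, s)` and
`2 p'` of the pair `(v, s + 1)` have the same one -/
def colc (X : Mat) (e : ℕ) : ℕ :=
  if e % 2 = 1 then e / 2
  else cV X e * X.2.length + (cS X e + (X.2.length - 1)) % X.2.length

/-- what stands at the place `(e, J, K)`: `0` for zero, `1` for `y_e`, `2` for `U - y_e` -/
def kind (X : Mat) (e J K : ℕ) : ℕ :=
  if J = hgt X e then (if K = 0 then 1 else if K = 1 then 2 else 0)
  else if J = X.2.length + 1 + e / 2 then (if K = 0 then 2 else if K = 1 then 0 else 1)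
  else if J = X.2.length + 1 + (slR X + colc X e) then
    (if K = 0 then 0 else if K = 1 then 1 else 2)
  else 0

/-- what stands at the place `q`: `0` for zero, `1` for `w_v`, `2` for `U - w_v` -/
def tk (X : Mat) (q : ℕ) : ℕ :=
  if q / 3 / slc X % 2 = 0 then kind X (q / 3 / slc X) (q / 3 % slc X) (q % 3)
  else (3 - kind X (q / 3 / slc X) (q / 3 % slc X) (q % 3)) % 3

/-- the table -/
noncomputable def tab (X : Mat) (U : ℝ) (w : ℕ → ℝ) (q : ℕ) : ℝ :=
  if tk X q = 1 then w (cV X (q / 3 / slc X))
  else if tk X q = 2 then U - w (cV X (q / 3 / slc X))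
  else 0

/-- a place where `w_v` stands -/
def slp0 (X : Mat) (v : ℕ) : ℕ :=
  ix (slc X) (2 * (v * X.2.length)) (X.2.length + 1 + v * X.2.length) 2

/-- the matrix of the transportation programs -/
def tmat (r c : ℕ) : Mat :=
  (3 * (r * c), (List.range (lines r c + lines r c)).map (fun p =>
    (List.range (3 * (r * c))).map (fun q =>
      if p < lines r c then (if OnLine r c p q then 1 else 0)
      else (if OnLine r c (p - lines r c) q then -1 else 0))))

theorem transport_mat (r c : ℕ) (s : Fin (lines r c) → ℝ) (cost : Fin (3 * (r * c)) → ℝ) :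
    (transport r c s cost).mat = tmat r c := by
  unfold RLP.mat tmat
  refine Prod.ext rfl ?_
  dsimp only
  rw [← ofFn_range]
  refine congrArg List.ofFn (funext fun p => ?_)
  rw [← ofFn_range]
  refine congrArg List.ofFn (funext fun q => ?_)
  show (Fin.addCases (fun p q => if OnLine r c p q then 1 else 0)
    (fun p q => if OnLine r c p q then -1 else 0) p :
      Fin (3 * (r * c)) → ℚ) q = _
  induction p using Fin.addCases with
  | left p =>
    rw [Fin.addCases_left, Fin.val_castAdd, if_pos p.2]
  | right p =>
    have h1 : ¬ (lines r c + (p : ℕ) < lines r c) := by omega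
    rw [Fin.addCases_right, Fin.val_natAdd, if_neg h1, Nat.add_sub_cancel_left]

/-- the new matrix -/
def slF (X : Mat) : Mat := tmat (slr X) (slc X)

/-- the entry of the name for the variable `v` -/
def ps (X : Mat) (v : ℕ) : ℕ := if v < X.1 then X.2.length + v else v - X.1

/-- the new name -/
def slf (X : Mat) (S : List Bool) : List Bool :=
  List.replicate (lines (slr X) (slc X) + lines (slr X) (slc X)) true ++
    (List.range (3 * (slr X * slc X))).map (fun q =>
      if tk X q = 0 then true
      else if tk X q = 1 then S.getD (ps X (cV X (q / 3 / slc X))) false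
      else false)

/-- the old name -/
def slg (X : Mat) (S : List Bool) : List Bool :=
  (List.range (X.2.length + X.1)).map (fun i =>
    S.getD (lines (slr X) (slc X) + lines (slr X) (slc X) +
      slp0 X (if i < X.2.length then X.1 + i else i - X.2.length)) false)

/-- all entries are `0`, `1` or `-1` -/
def Units {m n : ℕ} (A : Fin m → Fin n → ℚ) : Prop := ∀ i j, A i j = 0 ∨ A i j = 1 ∨ A i j = -1

/-- the same for the list form -/
def UnitsM (X : Mat) : Prop := ∀ s v, cof X s v = 0 ∨ cof X s v = 1 ∨ cof X s v = -1

namespace RLP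

variable {m n : ℕ} (D : RLP m n)

/-- linear part of the variable `v` -/
noncomputable def lval (v : ℕ) : (Fin n → ℝ) →ₗ[ℝ] ℝ :=
  if h : v < n then LinearMap.proj ⟨v, h⟩
  else if h : v - n < m then
    - ∑ j, (D.A ⟨v - n, h⟩ j : ℝ) • (LinearMap.proj j : (Fin n → ℝ) →ₗ[ℝ] ℝ)
  else 0

/-- its value at the origin -/
noncomputable def cval (v : ℕ) : ℝ :=
  if v < n then 0 else if h : v - n < m then D.b ⟨v - n, h⟩ else 0

/-- the transportation program -/
noncomputable def slim (U : ℝ) :
    RLP (lines (slr D.mat) (slc D.mat) + lines (slr D.mat) (slc D.mat))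
      (3 * (slr D.mat * slc D.mat)) :=
  transport (slr D.mat) (slc D.mat)
    (fun p => lsum (slr D.mat) (slc D.mat) p (tab D.mat U D.cval))
    (fun q => ∑ j : Fin n, if (q : ℕ) = slp0 D.mat j then D.c j else 0)

/-- `U` is larger than all variables -/
def Under (U : ℝ) : Prop := ∀ x ∈ D.feasible, ∀ v < n + m, D.lval v x + D.cval v < U

end RLP

end Pool.Agent.Simplex.EB
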