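import Pool.Agent.Lib.MP_4d246d_lc.EB.Lines
import Pool.Agent.Lib.MP_4d246d_lc.EB.PIso
import Pool.Agent.Lib.MP_4d246d_lc.EB.SlimDef

/-!
# The table of a system of equations (definitions)

Let `X` be a matrix with `M` rows, `n` columns and entries `0`, `1`, `-1`; it stands for the
equations `∑_v X_(s,v) w_v = b_s`, `0 ≤ w_v ≤ U`. For each pair `(v, s)` with the number
`p = v M + s` there are two cells `2 p` (value `w_v`) and `2 p + 1` (value `U - w_v`), the rows of
the table. The columns: `s < M`: the cells used in the equation `s` (`2 p` if the coefficient is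
`1`, `2 p + 1` if it is `-1`); `M + s`: the complementary cells of these; `2 M + p`: both cells
of the pair `p` if the coefficient is `0`; then `R` columns `2 M + R + p` for the two cells of the
pair `p`, and `R` columns that link the cell `2 p + 1` with the cell `2 p'` of the next pair with
the same variable.
-/

namespace Pool.Agent.Simplex.EB.Tab

open Pool.Agent.Lib.PolyTime Pool.Agent.Simplex.QP

/-- number of pairs -/
def slR (X : Mat) : ℕ := X.1 * X.2.length

/-- number of rows of the table -/
def slr (X : Mat) : ℕ := 2 * slR X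

/-- number of columns of the table -/
def slc (X : Mat) : ℕ := 2 * X.2.length + slR X + (slR X + slR X)

/-- coefficient -/
def cof (X : Mat) (s v : ℕ) : ℚ := (X.2.getD s []).getD v 0

/-- the variable of a cell -/
def cV (X : Mat) (e : ℕ) : ℕ := e / 2 / X.2.length

/-- the equation of a cell -/
def cS (X : Mat) (e : ℕ) : ℕ := e / 2 % X.2.length

/-- the column of the first kind of the cell `e` -/
def hgt (X : Mat) (e : ℕ) : ℕ :=
  if (e % 2 = 0 ∧ cof X (cS X e) (cV X e) = 1) ∨ (e % 2 = 1 ∧ cof X (cS X e) (cV X e) = -1) then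
    cS X e
  else if (e % 2 = 1 ∧ cof X (cS X e) (cV X e) = 1) ∨
      (e % 2 = 0 ∧ cof X (cS X e) (cV X e) = -1) then
    X.2.length + cS X e
  else 2 * X.2.length + e / 2

/-- the column of the third kind of the cell `e` -/
def colc (X : Mat) (e : ℕ) : ℕ :=
  if e % 2 = 1 then e / 2
  else cV X e * X.2.length + (cS X e + (X.2.length - 1)) % X.2.length

/-- what stands at the place `(e, J, K)`: `0` for zero, `1` for `y_e`, `2` for `U - y_e` -/
def kind (X : Mat) (e J K : ℕ) : ℕ :=
  if J = hgt X e then (if K = 0 then 1 else if K = 1 then 2 else 0)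
  else if J = 2 * X.2.length + slR X + e / 2 then (if K = 0 then 2 else if K = 1 then 0 else 1)
  else if J = 2 * X.2.length + slR X + (slR X + colc X e) then
    (if K = 0 then 0 else if K = 1 then 1 else 2)
  else 0

/-- what stands at the place `q`: `0` for zero, `1` for `w_v`, `2` for `U - w_v` -/
def tk (X : Mat) (q : ℕ) : ℕ :=
  if q / 3 / slc X % 2 = 0 then kind X (q / 3 / slc X) (q / 3 % slc X) (q % 3)
  else (3 - kind X (q / 3 / slc X) (q / 3 % slc X) (q % 3)) % 3

/-- the table -/
noncomputable def tab (X : Mat) (U : ℝ) (w : ℕ → ℝ) (q : ℕ) : ℝ :=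
  if tk X q = 1 then w (cV X (q / 3 / slc X))
  else if tk X q = 2 then U - w (cV X (q / 3 / slc X))
  else 0

/-- a place where `w_v` stands -/
def slp0 (X : Mat) (v : ℕ) : ℕ :=
  ix (slc X) (2 * (v * X.2.length)) (2 * X.2.length + slR X + v * X.2.length) 2

/-- all coefficients are `0`, `1` or `-1` -/
def UnitsM (X : Mat) : Prop := ∀ s v, cof X s v = 0 ∨ cof X s v = 1 ∨ cof X s v = -1

/-- contribution of the right-hand sides `β` to the line sum of the line `p` -/
noncomputable def corr (X : Mat) (β : ℕ → ℝ) (p : ℕ) : ℝ :=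
  if p < slr X * slc X then 0
  else if (p - slr X * slc X) / 3 < X.2.length then
    (if (p - slr X * slc X) % 3 = 0 then β ((p - slr X * slc X) / 3)
      else if (p - slr X * slc X) % 3 = 1 then - β ((p - slr X * slc X) / 3) else 0)
  else if (p - slr X * slc X) / 3 < 2 * X.2.length then
    (if (p - slr X * slc X) % 3 = 0 then - β ((p - slr X * slc X) / 3 - X.2.length)
      else if (p - slr X * slc X) % 3 = 1 then β ((p - slr X * slc X) / 3 - X.2.length) else 0)
  else 0

/-- the left-hand sides of the equations -/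
noncomputable def lhs (X : Mat) (w : ℕ → ℝ) (s : ℕ) : ℝ :=
  ∑ v ∈ Finset.range X.1, (cof X s v : ℝ) * w v

end Pool.Agent.Simplex.EB.Tab
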