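import Pool.Agent.Lib.MP_4d246d_lc.EB.Statement7
import Pool.Agent.Lib.MP_4d246d_lc.EB.SlimLin
import Pool.Agent.Lib.MP_4d246d_lc.EB.TabDef

/-!
# Slice sums of cubical arrays

An array is a function of the index `q < N³`; `ix3 N a b c = (a N + b) N + c`; `crd N κ q` is the
coordinate number `κ` (`0`, `1`, `2`) of the entry `q`.
-/

open Finset

namespace Pool.Agent.Simplex.EB.Tab.Ax

open Pool.Agent.Lib.PolyTime Pool.Agent.Simplex.QP

/-- index of the entry `(a, b, c)` -/
def ix3 (N a b c : ℕ) : ℕ := (a * N + b) * N + c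

/-- the coordinates of an entry -/
def crd (N κ q : ℕ) : ℕ := if κ = 0 then q / N / N else if κ = 1 then q / N % N else q % N

/-- sum of the array `f` over the slice where the coordinate `κ` is `a` -/
noncomputable def ssum (N κ a : ℕ) (f : ℕ → ℝ) : ℝ :=
  ∑ q ∈ range (N * (N * N)), if crd N κ q = a then f q else 0

theorem ix3_lt {N a b c : ℕ} (ha : a < N) (hb : b < N) (hc : c < N) :
    ix3 N a b c < N * (N * N) := by
  rw [← Nat.mul_assoc]
  exact row_lt (row_lt ha hb) hc

private theorem cu_div {N a b : ℕ} (hb : b < N) : (a * N + b) / N = a := by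
  rw [mul_comm, Nat.mul_add_div (by omega), Nat.div_eq_of_lt hb, add_zero]

private theorem cu_mod {N a b : ℕ} (hb : b < N) : (a * N + b) % N = b := by
  rw [add_comm, Nat.add_mul_mod_self_right, Nat.mod_eq_of_lt hb]

theorem crd_ix3 {N a b c : ℕ} (hb : b < N) (hc : c < N) (κ : ℕ) :
    crd N κ (ix3 N a b c) = if κ = 0 then a else if κ = 1 then b else c := by
  unfold crd ix3
  rw [cu_div hc, cu_mod hc, cu_div hb, cu_mod hb]

private theorem cu_pos {N q : ℕ} (hq : q < N * (N * N)) : 0 < N := by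
  rcases Nat.eq_zero_or_pos N with h | h
  · subst h
    simp at hq
  · exact h

theorem crd_lt {N κ q : ℕ} (hq : q < N * (N * N)) : crd N κ q < N := by
  have hN := cu_pos hq
  unfold crd
  split_ifs
  · rw [Nat.div_lt_iff_lt_mul hN, Nat.div_lt_iff_lt_mul hN, Nat.mul_assoc]
    exact hq
  · exact Nat.mod_lt _ hN
  · exact Nat.mod_lt _ hN

private theorem crd_zero (N q : ℕ) : crd N 0 q = q / N / N := rfl

private theorem crd_one (N q : ℕ) : crd N 1 q = q / N % N := rfl

private theorem crd_two (N q : ℕ) : crd N 2 q = q % N := rfl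

theorem ix3_crd {N q : ℕ} (hq : q < N * (N * N)) :
    ix3 N (crd N 0 q) (crd N 1 q) (crd N 2 q) = q := by
  rw [crd_zero, crd_one, crd_two]
  unfold ix3
  have h1 := Nat.div_add_mod (q / N) N
  have h2 := Nat.div_add_mod q N
  rw [mul_comm (q / N / N) N, h1, mul_comm (q / N) N, h2]

/-- two entries with the same coordinates are equal -/
theorem ext_crd {N q q' : ℕ} (hq : q < N * (N * N)) (hq' : q' < N * (N * N))
    (h : ∀ κ < 3, crd N κ q = crd N κ q') : q = q' := by
  rw [← ix3_crd hq, ← ix3_crd hq', h 0 (by norm_num), h 1 (by norm_num), h 2 (by norm_num)]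

private theorem cu_sum {ι : Type*} (N κ a : ℕ) (s : Finset ι) (f : ι → ℕ → ℝ) :
    ssum N κ a (fun q => ∑ i ∈ s, f i q) = ∑ i ∈ s, ssum N κ a (f i) := by
  unfold ssum
  rw [Finset.sum_comm]
  refine Finset.sum_congr rfl fun q _ => ?_
  split_ifs
  · rfl
  · simp

/-- slice sums of a sum of point masses -/
theorem ssum_points {ι : Type*} {N κ a : ℕ} (s : Finset ι) (pt : ι → ℕ) (t : ι → ℝ)
    (hpt : ∀ i ∈ s, pt i < N * (N * N)) :
    ssum N κ a (fun q => ∑ i ∈ s, if q = pt i then t i else 0) =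
      ∑ i ∈ s, if crd N κ (pt i) = a then t i else 0 := by
  rw [cu_sum]
  refine Finset.sum_congr rfl fun i hi => ?_
  unfold ssum
  rw [Finset.sum_eq_single (pt i)]
  · dsimp only
    rw [if_pos rfl]
  · intro q _ hne
    dsimp only
    rw [if_neg hne, ite_self]
  · intro h
    exact absurd (Finset.mem_range.2 (hpt i hi)) h

theorem ssum_congr {N κ a : ℕ} {f g : ℕ → ℝ} (h : ∀ q < N * (N * N), f q = g q) :
    ssum N κ a f = ssum N κ a g := by
  unfold ssum
  refine Finset.sum_congr rfl fun i hi => ?_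
  rw [h i (Finset.mem_range.1 hi)]

theorem ssum_add (N κ a : ℕ) (f g : ℕ → ℝ) :
    ssum N κ a (fun q => f q + g q) = ssum N κ a f + ssum N κ a g := by
  unfold ssum
  rw [← Finset.sum_add_distrib]
  refine Finset.sum_congr rfl fun q _ => ?_
  split_ifs
  · rfl
  · rw [add_zero]

theorem ssum_sum {ι : Type*} (N κ a : ℕ) (s : Finset ι) (f : ι → ℕ → ℝ) :
    ssum N κ a (fun q => ∑ i ∈ s, f i q) = ∑ i ∈ s, ssum N κ a (f i) := cu_sum N κ a s f

private theorem cu_slice {N p q : ℕ} (hp : p < 3 * N) (hq : q < N * (N * N)) :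
    InSlice N p q ↔ crd N (p / N) q = p % N := by
  have hN := cu_pos hq
  have h1 := Nat.div_add_mod p N
  have h2 := Nat.mod_lt p hN
  have h3 : p / N < 3 := (Nat.div_lt_iff_lt_mul hN).2 hp
  have x1 : q / N / N < N := crd_lt (κ := 0) hq
  have x2 : q / N % N < N := crd_lt (κ := 1) hq
  have x3 : q % N < N := crd_lt (κ := 2) hq
  unfold InSlice
  generalize p / N = κ at h1 h3
  generalize p % N = a at h1 h2
  rw [← h1]
  interval_cases κ
  · rw [crd_zero]
    omega
  · rw [crd_one]
    omega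
  · rw [crd_two]
    omega

private theorem cu_fin (N κ a : ℕ) (f : ℕ → ℝ) :
    ssum N κ a f = ∑ q : Fin (N * (N * N)), if crd N κ q = a then f q else 0 := by
  unfold ssum
  rw [Finset.sum_range]

/-- the feasible arrays -/
theorem assign_feasible {N : ℕ} {cost : Fin (N * (N * N)) → ℝ} {f : ℕ → ℝ} :
    (fun q : Fin (N * (N * N)) => f q) ∈ (assign N cost).feasible ↔
      (∀ κ < 3, ∀ a < N, ssum N κ a f = 1) ∧ ∀ q < N * (N * N), 0 ≤ f q := by
  have e1 : ∀ p : Fin (3 * N), ∑ q : Fin (N * (N * N)),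
      ((assign N cost).A (Fin.castAdd (3 * N) p) q : ℝ) * f q = ssum N (p / N) (p % N) f := by
    intro p
    rw [cu_fin]
    refine Finset.sum_congr rfl fun q _ => ?_
    show (((Fin.addCases (fun p (q : Fin (N * (N * N))) => if InSlice N p q then (1 : ℚ) else 0)
      (fun p (q : Fin (N * (N * N))) => if InSlice N p q then (-1 : ℚ) else 0)
        (Fin.castAdd (3 * N) p) :
        Fin (N * (N * N)) → ℚ) q : ℚ) : ℝ) * f q = _
    rw [Fin.addCases_left]
    simp only [cu_slice p.2 q.2]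
    split_ifs <;> simp
  have e2 : ∀ p : Fin (3 * N), ∑ q : Fin (N * (N * N)),
      ((assign N cost).A (Fin.natAdd (3 * N) p) q : ℝ) * f q = - ssum N (p / N) (p % N) f := by
    intro p
    rw [cu_fin, ← Finset.sum_neg_distrib]
    refine Finset.sum_congr rfl fun q _ => ?_
    show (((Fin.addCases (fun p (q : Fin (N * (N * N))) => if InSlice N p q then (1 : ℚ) else 0)
      (fun p (q : Fin (N * (N * N))) => if InSlice N p q then (-1 : ℚ) else 0)
        (Fin.natAdd (3 * N) p) :
        Fin (N * (N * N)) → ℚ) q : ℚ) : ℝ) * f q = _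
    rw [Fin.addCases_right]
    simp only [cu_slice p.2 q.2]
    split_ifs <;> simp
  have e3 : ∀ p : Fin (3 * N), (assign N cost).b (Fin.castAdd (3 * N) p) = 1 := by
    intro p
    show (Fin.addCases (fun _ => 1) (fun _ => -1) (Fin.castAdd (3 * N) p) : ℝ) = _
    rw [Fin.addCases_left]
  have e4 : ∀ p : Fin (3 * N), (assign N cost).b (Fin.natAdd (3 * N) p) = -1 := by
    intro p
    show (Fin.addCases (fun _ => 1) (fun _ => -1) (Fin.natAdd (3 * N) p) : ℝ) = _
    rw [Fin.addCases_right]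
  constructor
  · rintro ⟨h1, h2⟩
    refine ⟨fun κ hκ a ha => ?_, fun q hq => h2 ⟨q, hq⟩⟩
    have hp : κ * N + a < 3 * N := row_lt hκ ha
    have h3 := h1 (Fin.castAdd (3 * N) ⟨κ * N + a, hp⟩)
    have h4 := h1 (Fin.natAdd (3 * N) ⟨κ * N + a, hp⟩)
    rw [e1, e3] at h3
    rw [e2, e4] at h4
    dsimp only at h3 h4
    rw [cu_div ha, cu_mod ha] at h3 h4
    linarith
  · rintro ⟨h1, h2⟩
    have h3 : ∀ p : Fin (3 * N), ssum N (p / N) (p % N) f = 1 := by
      intro p
      have hN : 0 < N := by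
        have := p.2
        omega
      exact h1 _ ((Nat.div_lt_iff_lt_mul hN).2 p.2) _ (Nat.mod_lt _ hN)
    refine ⟨fun i => ?_, fun q => h2 q q.2⟩
    induction i using Fin.addCases with
    | left p => rw [e1, e3, h3]
    | right p => rw [e2, e4, h3]

/-- all entries are at most `1` -/
theorem assign_le_one {N : ℕ} {cost : Fin (N * (N * N)) → ℝ} {y : Fin (N * (N * N)) → ℝ}
    (hy : y ∈ (assign N cost).feasible) (q : Fin (N * (N * N))) : y q ≤ 1 := by
  let f : ℕ → ℝ := fun i => if h : i < N * (N * N) then y ⟨i, h⟩ else 0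
  have h1 : (fun q : Fin (N * (N * N)) => f q) = y := by
    funext i
    show (if h : (i : ℕ) < N * (N * N) then y ⟨i, h⟩ else 0) = _
    rw [dif_pos i.2]
  rw [← h1] at hy
  obtain ⟨h2, h3⟩ := assign_feasible.1 hy
  have h4 := h2 0 (by norm_num) (crd N 0 q) (crd_lt q.2)
  have h5 : (if crd N 0 q = crd N 0 q then f q else 0) ≤ ssum N 0 (crd N 0 q) f := by
    unfold ssum
    refine Finset.single_le_sum (f := fun i => if crd N 0 i = crd N 0 q then f i else 0)
      (fun i hi => ?_) (Finset.mem_range.2 q.2)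
    split_ifs
    · exact h3 i (Finset.mem_range.1 hi)
    · exact le_rfl
  rw [if_pos rfl, h4] at h5
  have h6 : f q = y q := congrFun h1 q
  rw [← h6]
  exact h5

/-- the polytope is bounded: there is no ray -/
theorem assign_no_ray {N : ℕ} {cost : Fin (N * (N * N)) → ℝ} {x z : Fin (N * (N * N)) → ℝ}
    (h : (assign N cost).Ray x z) : z = 0 := by
  have h1 : ∀ s : ℝ, 0 ≤ s → x + s • z ∈ (assign N cost).feasible := fun s hs =>
    h.2.1 ⟨s, hs, rfl⟩
  have h0 : x ∈ (assign N cost).feasible := by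
    have := h1 0 le_rfl
    rwa [zero_smul, add_zero] at this
  funext q
  by_contra hz
  have hz' : z q ≠ 0 := hz
  have hs : (0 : ℝ) ≤ 2 / |z q| := by positivity
  have h2 := assign_le_one (h1 _ hs) q
  have h3 := (h1 _ hs).2 q
  have h4 := assign_le_one h0 q
  have h5 := h0.2 q
  rw [Pi.add_apply, Pi.smul_apply, smul_eq_mul] at h2 h3
  have h6 : |2 / |z q| * z q| = 2 := by
    rw [abs_mul, abs_div, abs_abs, abs_of_pos (by norm_num : (0 : ℝ) < 2)]
    exact div_mul_cancel₀ _ (abs_ne_zero.2 hz')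
  rcases abs_eq (by norm_num : (0 : ℝ) ≤ 2) |>.1 h6 with h7 | h7
  · rw [h7] at h2
    linarith
  · rw [h7] at h3
    linarith

end Pool.Agent.Simplex.EB.Tab.Ax
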