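import Pool.Agent.Lib.MP_4d246d_lc.EB.AxCube
import Pool.Agent.Lib.MP_4d246d_lc.EB.TabInv

/-!
# The cubical array of a system of equations (definitions)

Let `X` be a matrix with `M` rows, `n` columns and entries `0`, `1`, `-1`. The literal of `y` for
the coefficient `1` is `y`, for the coefficient `-1` it is `1 - y`. The system `Sys X w` says that
for each nonzero row the sum of the literals of the variables is `1`.

For each pair `(v, s)` of a variable and a row with the number `p = v M + s` there are two cells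
`e = 2 p` (value `w_v`) and `e = 2 p + 1` (value `1 - w_v`). Each cell has three numbers:
* `num0 e`: this is `s` if the cell is the literal of its pair, otherwise `M + e`;
* `M + 2 R + e / 2`: the same for the two cells of a pair;
* `M + 3 R + colc e`: the same for the cell `2 p + 1` and the cell `2 p'` of the next pair with the
  same variable.
The cell stands at the three places of the cube `N × N × N`, `N = M + 4 R`, that have these three
numbers as coordinates, in the three cyclic orders. On the diagonal there are: at `s < M` the value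
`1` if the row `s` is zero; at `M + e` the value `1 - y_e` if `num0 e = M + e`, otherwise `1`.
All other entries are zero. Then all slice sums are `1` if `Sys X w` holds.
-/

open Finset

namespace Pool.Agent.Simplex.EB.Tab.Ax

open Pool.Agent.Lib.PolyTime Pool.Agent.Simplex.QP

/-- side of the cube -/
def axN (X : Mat) : ℕ := X.2.length + 4 * slR X

/-- the first number of a cell -/
def num0 (X : Mat) (e : ℕ) : ℕ :=
  if (e % 2 = 0 ∧ cof X (cS X e) (cV X e) = 1) ∨ (e % 2 = 1 ∧ cof X (cS X e) (cV X e) = -1) then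
    cS X e
  else X.2.length + e

/-- the three numbers of a cell -/
def num (X : Mat) (i e : ℕ) : ℕ :=
  if i = 0 then num0 X e else if i = 1 then X.2.length + 2 * slR X + e / 2
  else X.2.length + 3 * slR X + colc X e

/-- the place number `ρ < 3` of the cell `e`; its coordinate `κ` is `num X ((κ + 3 - ρ) % 3) e` -/
def pos (X : Mat) (ρ e : ℕ) : ℕ :=
  ix3 (axN X) (num X ((0 + 3 - ρ) % 3) e) (num X ((1 + 3 - ρ) % 3) e) (num X ((2 + 3 - ρ) % 3) e)

/-- a place on the diagonal -/
def dpos (X : Mat) (a : ℕ) : ℕ := ix3 (axN X) a a a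

/-- the row `s` is zero -/
def ZeroRow (X : Mat) (s : ℕ) : Prop := ∀ v < X.1, cof X s v = 0

instance (X : Mat) (s : ℕ) : Decidable (ZeroRow X s) :=
  inferInstanceAs (Decidable (∀ v < X.1, cof X s v = 0))

/-- value of a cell -/
noncomputable def yv (X : Mat) (w : ℕ → ℝ) (e : ℕ) : ℝ :=
  if e % 2 = 0 then w (cV X e) else 1 - w (cV X e)

/-- value on the diagonal -/
noncomputable def dval (X : Mat) (w : ℕ → ℝ) (a : ℕ) : ℝ :=
  if a < X.2.length then (if ZeroRow X a then 1 else 0)
  else if num0 X (a - X.2.length) = a then 1 - yv X w (a - X.2.length) else 1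

/-- the array -/
noncomputable def arr (X : Mat) (w : ℕ → ℝ) (q : ℕ) : ℝ :=
  (∑ ρ ∈ range 3, ∑ e ∈ range (2 * slR X), if q = pos X ρ e then yv X w e else 0) +
    ∑ a ∈ range (X.2.length + 2 * slR X), if q = dpos X a then dval X w a else 0

/-- the places that are used -/
def Supp (X : Mat) (q : ℕ) : Prop :=
  (∃ ρ < 3, ∃ e < 2 * slR X, q = pos X ρ e) ∨
    ∃ a < X.2.length + 2 * slR X, q = dpos X a ∧ (a < X.2.length → ZeroRow X a)

instance (X : Mat) (q : ℕ) : Decidable (Supp X q) := inferInstanceAs (Decidable (_ ∨ _))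

/-- a place where `w_v` stands -/
def vpos (X : Mat) (v : ℕ) : ℕ := pos X 0 (2 * (v * X.2.length))

/-- literal -/
noncomputable def lit (t : ℚ) (y : ℝ) : ℝ := if t = 1 then y else if t = -1 then 1 - y else 0

/-- the system of equations -/
def Sys (X : Mat) (w : ℕ → ℝ) : Prop :=
  ∀ s < X.2.length, ¬ ZeroRow X s → ∑ v ∈ range X.1, lit (cof X s v) (w v) = 1

/-! ### Places -/

variable {X : Mat}

private theorem len_pos {e : ℕ} (he : e < 2 * slR X) : 0 < X.2.length := by
  unfold slR at he
  rcases Nat.eq_zero_or_pos X.2.length with h | h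
  · rw [h, Nat.mul_zero] at he
    omega
  · exact h

theorem num0_lt {e : ℕ} (he : e < 2 * slR X) : num0 X e < X.2.length + 2 * slR X := by
  have h1 : cS X e < X.2.length := Nat.mod_lt _ (len_pos he)
  unfold num0
  split_ifs
  · omega
  · omega

private theorem colc_lt' {e : ℕ} (he : e < 2 * slR X) : colc X e < slR X :=
  TabInv.colc_lt (len_pos he) he

theorem num_lt {e : ℕ} (he : e < 2 * slR X) (i : ℕ) : num X i e < axN X := by
  have h1 := num0_lt he
  have h2 := colc_lt' he
  unfold num axN
  split_ifs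
  · omega
  · omega
  · omega

theorem pos_lt {e : ℕ} (he : e < 2 * slR X) (ρ : ℕ) :
    pos X ρ e < axN X * (axN X * axN X) :=
  ix3_lt (num_lt he _) (num_lt he _) (num_lt he _)

private theorem diag_lt {a : ℕ} (ha : a < X.2.length + 2 * slR X) : a < axN X := by
  unfold axN
  omega

theorem dpos_lt {a : ℕ} (ha : a < X.2.length + 2 * slR X) :
    dpos X a < axN X * (axN X * axN X) :=
  ix3_lt (diag_lt ha) (diag_lt ha) (diag_lt ha)

theorem crd_pos {e ρ κ : ℕ} (he : e < 2 * slR X) (hρ : ρ < 3) (hκ : κ < 3) :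
    crd (axN X) κ (pos X ρ e) = num X ((κ + 3 - ρ) % 3) e := by
  unfold pos
  rw [crd_ix3 (num_lt he _) (num_lt he _)]
  interval_cases κ
  · rfl
  · rfl
  · rfl

theorem crd_dpos {a κ : ℕ} (ha : a < X.2.length + 2 * slR X) :
    crd (axN X) κ (dpos X a) = a := by
  unfold dpos
  rw [crd_ix3 (diag_lt ha) (diag_lt ha)]
  split_ifs <;> rfl

private theorem colc_even_ne (hM : 2 ≤ X.2.length) (p : ℕ) : colc X (2 * p) ≠ p := by
  unfold colc cV cS
  rw [if_neg (by omega), show 2 * p / 2 = p by omega]
  intro h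
  have h1 := Nat.div_add_mod p X.2.length
  rw [Nat.mul_comm] at h1
  have h2 : (p % X.2.length + (X.2.length - 1)) % X.2.length = p % X.2.length := by omega
  have h3 := Nat.mod_lt p (show 0 < X.2.length by omega)
  rcases Nat.eq_zero_or_pos (p % X.2.length) with h4 | h4
  · rw [h4, Nat.zero_add, Nat.mod_eq_of_lt (by omega)] at h2
    omega
  · rw [show p % X.2.length + (X.2.length - 1) = (p % X.2.length - 1) + X.2.length by omega,
      Nat.add_mod_right, Nat.mod_eq_of_lt (by omega)] at h2
    omega

private theorem colc_odd' (p : ℕ) : colc X (2 * p + 1) = p := by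
  unfold colc
  rw [if_pos (by omega)]
  omega

/-- a cell is determined by its second and third number -/
private theorem cell_inj (hM : 2 ≤ X.2.length) {e e' : ℕ} (h1 : e / 2 = e' / 2)
    (h2 : colc X e = colc X e') : e = e' := by
  rcases Nat.even_or_odd' e with ⟨p, hp | hp⟩
  · rcases Nat.even_or_odd' e' with ⟨p', hp' | hp'⟩
    · omega
    · exfalso
      have h3 : p = p' := by omega
      subst h3
      rw [hp, hp', colc_odd'] at h2
      exact colc_even_ne hM p h2
  · rcases Nat.even_or_odd' e' with ⟨p', hp' | hp'⟩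
    · exfalso
      have h3 : p = p' := by omega
      subst h3
      rw [hp, hp', colc_odd'] at h2
      exact colc_even_ne hM p h2.symm
    · omega

private theorem num_zero (e : ℕ) : num X 0 e = num0 X e := by
  unfold num
  rw [if_pos rfl]

private theorem num_one (e : ℕ) : num X 1 e = X.2.length + 2 * slR X + e / 2 := by
  unfold num
  rw [if_neg (by norm_num), if_pos rfl]

private theorem num_two (e : ℕ) : num X 2 e = X.2.length + 3 * slR X + colc X e := by
  unfold num
  rw [if_neg (by norm_num), if_neg (by norm_num)]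

/-- the places of the cells are different -/
theorem pos_inj (hM : 2 ≤ X.2.length) {ρ ρ' e e' : ℕ} (hρ : ρ < 3) (hρ' : ρ' < 3)
    (he : e < 2 * slR X) (he' : e' < 2 * slR X) (h : pos X ρ e = pos X ρ' e') :
    ρ = ρ' ∧ e = e' := by
  have hc : ∀ κ < 3, num X ((κ + 3 - ρ) % 3) e = num X ((κ + 3 - ρ') % 3) e' := by
    intro κ hκ
    rw [← crd_pos he hρ hκ, ← crd_pos he' hρ' hκ, h]
  have a0 := hc 0 (by norm_num)
  have a1 := hc 1 (by norm_num)
  have a2 := hc 2 (by norm_num)
  have b := num0_lt he
  have b' := num0_lt he'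
  have d : e / 2 < slR X := by omega
  have d' : e' / 2 < slR X := by omega
  interval_cases ρ <;> interval_cases ρ' <;>
    simp only [Nat.zero_add, Nat.add_sub_cancel, Nat.reduceAdd, Nat.reduceSub, Nat.reduceMod,
      num_zero, num_one, num_two] at a0 a1 a2
  · exact ⟨rfl, cell_inj hM (by omega) (by omega)⟩
  · omega
  · omega
  · omega
  · exact ⟨rfl, cell_inj hM (by omega) (by omega)⟩
  · omega
  · omega
  · omega
  · exact ⟨rfl, cell_inj hM (by omega) (by omega)⟩

theorem pos_ne_dpos {ρ e a : ℕ} (hρ : ρ < 3) (he : e < 2 * slR X)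
    (ha : a < X.2.length + 2 * slR X) : pos X ρ e ≠ dpos X a := by
  intro h
  have hc : ∀ κ < 3, num X ((κ + 3 - ρ) % 3) e = a := by
    intro κ hκ
    rw [← crd_pos he hρ hκ, h, crd_dpos ha]
  have a0 := hc 0 (by norm_num)
  have a1 := hc 1 (by norm_num)
  have a2 := hc 2 (by norm_num)
  interval_cases ρ <;>
    simp only [Nat.zero_add, Nat.add_sub_cancel, Nat.reduceAdd, Nat.reduceSub, Nat.reduceMod,
      num_zero, num_one, num_two] at a0 a1 a2
  · omega
  · omega
  · omega

theorem dpos_inj {a a' : ℕ} (ha : a < X.2.length + 2 * slR X)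
    (ha' : a' < X.2.length + 2 * slR X) (h : dpos X a = dpos X a') : a = a' := by
  rw [← crd_dpos (κ := 0) ha, ← crd_dpos (κ := 0) ha', h]

/-! ### The array -/

theorem arr_pos (hM : 2 ≤ X.2.length) (w : ℕ → ℝ) {ρ e : ℕ} (hρ : ρ < 3) (he : e < 2 * slR X) :
    arr X w (pos X ρ e) = yv X w e := by
  unfold arr
  have h1 : ∑ a ∈ range (X.2.length + 2 * slR X),
      (if pos X ρ e = dpos X a then dval X w a else 0) = 0 :=
    sum_eq_zero fun a ha => if_neg (pos_ne_dpos hρ he (mem_range.1 ha))
  rw [h1, add_zero, sum_eq_single ρ, sum_eq_single e, if_pos rfl]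
  · intro e' he' hne
    exact if_neg fun h => hne (pos_inj hM hρ hρ he (mem_range.1 he') h).2.symm
  · intro h
    exact absurd (mem_range.2 he) h
  · intro ρ' hρ' hne
    refine sum_eq_zero fun e' he' => if_neg fun h => ?_
    exact hne (pos_inj hM hρ (mem_range.1 hρ') he (mem_range.1 he') h).1.symm
  · intro h
    exact absurd (mem_range.2 hρ) h

theorem arr_dpos (w : ℕ → ℝ) {a : ℕ} (ha : a < X.2.length + 2 * slR X) :
    arr X w (dpos X a) = dval X w a := by
  unfold arr
  have h1 : ∑ ρ ∈ range 3, ∑ e ∈ range (2 * slR X),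
      (if dpos X a = pos X ρ e then yv X w e else 0) = 0 :=
    sum_eq_zero fun ρ hρ => sum_eq_zero fun e he =>
      if_neg fun h => pos_ne_dpos (mem_range.1 hρ) (mem_range.1 he) ha h.symm
  rw [h1, zero_add, sum_eq_single a, if_pos rfl]
  · intro a' ha' hne
    exact if_neg fun h => hne (dpos_inj ha (mem_range.1 ha') h).symm
  · intro h
    exact absurd (mem_range.2 ha) h

theorem arr_supp (w : ℕ → ℝ) {q : ℕ} (h : ¬ Supp X q) : arr X w q = 0 := by
  unfold arr
  have h1 : ∑ ρ ∈ range 3, ∑ e ∈ range (2 * slR X),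
      (if q = pos X ρ e then yv X w e else 0) = 0 :=
    sum_eq_zero fun ρ hρ => sum_eq_zero fun e he =>
      if_neg fun h2 => h (Or.inl ⟨ρ, mem_range.1 hρ, e, mem_range.1 he, h2⟩)
  rw [h1, zero_add]
  refine sum_eq_zero fun a ha => ?_
  split_ifs with h2
  · unfold dval
    by_cases h3 : a < X.2.length
    · have h4 : ¬ ZeroRow X a := fun h5 =>
        h (Or.inr ⟨a, mem_range.1 ha, h2, fun _ => h5⟩)
      rw [if_pos h3, if_neg h4]
    · exact absurd (Or.inr ⟨a, mem_range.1 ha, h2, fun h5 => absurd h5 h3⟩) h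
  · rfl

theorem arr_nonneg {w : ℕ → ℝ} (hw : ∀ v < X.1, 0 ≤ w v ∧ w v ≤ 1) (q : ℕ) :
    0 ≤ arr X w q := by
  have hy : ∀ e < 2 * slR X, 0 ≤ yv X w e ∧ yv X w e ≤ 1 := by
    intro e he
    have h1 := hw _ (TabInv.cV_lt (X := X) (e := e) he)
    unfold yv
    split_ifs
    · exact h1
    · constructor <;> linarith [h1.1, h1.2]
  unfold arr
  refine add_nonneg (sum_nonneg fun ρ _ => sum_nonneg fun e he => ?_)
    (sum_nonneg fun a ha => ?_)
  · split_ifs
    · exact (hy e (mem_range.1 he)).1
    · exact le_rfl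
  · split_ifs
    · unfold dval
      have h3 := mem_range.1 ha
      by_cases h2 : a < X.2.length
      · rw [if_pos h2]
        split_ifs
        · exact zero_le_one
        · exact le_rfl
      · rw [if_neg h2]
        split_ifs
        · have h4 := (hy (a - X.2.length) (by omega)).2
          linarith
        · exact zero_le_one
    · exact le_rfl

private theorem vcell_lt (hM : 0 < X.2.length) {v : ℕ} (hv : v < X.1) :
    2 * (v * X.2.length) < 2 * slR X := by
  have := TabInv.pair_lt (s := 0) hv hM
  omega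

theorem vpos_lt (hM : 0 < X.2.length) {v : ℕ} (hv : v < X.1) :
    vpos X v < axN X * (axN X * axN X) := pos_lt (vcell_lt hM hv) 0

theorem arr_vpos (hM : 2 ≤ X.2.length) (w : ℕ → ℝ) {v : ℕ} (hv : v < X.1) :
    arr X w (vpos X v) = w v := by
  unfold vpos
  rw [arr_pos hM w (by norm_num) (vcell_lt (by omega) hv)]
  unfold yv cV
  rw [if_pos (by omega), show 2 * (v * X.2.length) / 2 = v * X.2.length by omega,
    Nat.mul_div_cancel _ (by omega)]

theorem vpos_inj (hM : 2 ≤ X.2.length) {v v' : ℕ} (hv : v < X.1) (hv' : v' < X.1)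
    (h : vpos X v = vpos X v') : v = v' := by
  have h1 := (pos_inj hM (by norm_num) (by norm_num) (vcell_lt (by omega) hv)
    (vcell_lt (by omega) hv') h).2
  have h2 : v * X.2.length = v' * X.2.length := by omega
  exact Nat.eq_of_mul_eq_mul_right (by omega) h2

theorem supp_vpos (hM : 0 < X.2.length) {v : ℕ} (hv : v < X.1) : Supp X (vpos X v) :=
  Or.inl ⟨0, by norm_num, _, vcell_lt hM hv, rfl⟩

end Pool.Agent.Simplex.EB.Tab.Ax
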