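import Pool.Agent.Lib.MP_4d246d_lc.EB.PIso

/-!
# Isomorphisms with a face that improving edges do not leave
-/

namespace Pool.Agent.Simplex.EB

open Pool.Agent.Lib.PolyTime Pool.Agent.Simplex.QP

/-- the feasible set is convex -/
private theorem feas_convex {m n : ℕ} (D : RLP m n) : Convex ℝ D.feasible := by
  intro x hx y hy a b ha hb hab
  refine ⟨fun i => ?_, fun j => ?_⟩
  · have h1 : ∑ j, (D.A i j : ℝ) * (a • x + b • y) j =
        a * ∑ j, (D.A i j : ℝ) * x j + b * ∑ j, (D.A i j : ℝ) * y j := by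
      rw [Finset.mul_sum, Finset.mul_sum, ← Finset.sum_add_distrib]
      refine Finset.sum_congr rfl fun j _ => ?_
      simp only [Pi.add_apply, Pi.smul_apply, smul_eq_mul]
      ring
    rw [h1]
    have h2 := mul_le_mul_of_nonneg_left (hx.1 i) ha
    have h3 := mul_le_mul_of_nonneg_left (hy.1 i) hb
    have h4 : a * D.b i + b * D.b i = D.b i := by
      rw [← add_mul, hab, one_mul]
    linarith
  · simp only [Pi.add_apply, Pi.smul_apply, smul_eq_mul]
    exact add_nonneg (mul_nonneg ha (hx.2 j)) (mul_nonneg hb (hy.2 j))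

/-- `x ↦ L x + a` maps the polyhedron of `D` bijectively onto the face `F` of the polyhedron of
`D'`; on the image the new objective is `κ` times the old one plus `β`; improving edges of `D'`
that begin in `F` end in `F`; there are no improving rays in `D'` -/
structure FIso {m n m' n' : ℕ} (D : RLP m n) (D' : RLP m' n') where
  /-- the linear part -/
  L : (Fin n → ℝ) →ₗ[ℝ] (Fin n' → ℝ)
  /-- the image of the origin -/
  a : Fin n' → ℝ
  inj : Function.Injective L
  /-- the face -/
  F : Set (Fin n' → ℝ)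
  face : IsExtreme ℝ D'.feasible F
  feas : F = (fun x => L x + a) '' D.feasible
  /-- the factor -/
  κ : ℝ
  pos : 0 < κ
  /-- the shift -/
  β : ℝ
  obj : ∀ x, D'.obj (L x + a) = κ * D.obj x + β
  stay : ∀ x ∈ F, ∀ y, D'.Improving x y → y ∈ F
  noray : ∀ x z, 0 < D'.obj z → ¬ D'.Ray x z

namespace FIso

variable {m n m' n' : ℕ} {D : RLP m n} {D' : RLP m' n'}

/-- the map -/
def map (e : FIso D D') (x : Fin n → ℝ) : Fin n' → ℝ := e.L x + e.a

theorem map_inj (e : FIso D D') : Function.Injective e.map := injective_add e.L e.inj e.a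

theorem feas' (e : FIso D D') : e.F = e.map '' D.feasible := e.feas

theorem extreme (e : FIso D D') (A B : Set (Fin n → ℝ)) :
    IsExtreme ℝ (e.map '' A) (e.map '' B) ↔ IsExtreme ℝ A B := extreme_imageA e.L e.inj e.a A B

theorem obj_lt (e : FIso D D') {x y : Fin n → ℝ} :
    D'.obj (e.map x) < D'.obj (e.map y) ↔ D.obj x < D.obj y := by
  unfold map
  rw [e.obj, e.obj, add_lt_add_iff_right, mul_lt_mul_iff_right₀ e.pos]

theorem obj_le (e : FIso D D') {x y : Fin n → ℝ} :
    D'.obj (e.map x) ≤ D'.obj (e.map y) ↔ D.obj x ≤ D.obj y := by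
  unfold map
  rw [e.obj, e.obj, add_le_add_iff_right, mul_le_mul_iff_right₀ e.pos]

theorem mem_F (e : FIso D D') {x : Fin n → ℝ} : e.map x ∈ e.F ↔ x ∈ D.feasible := by
  rw [e.feas', e.map_inj.mem_set_image]

/-- vertices of `D` and vertices of `D'` in the face -/
theorem vertex_iff (e : FIso D D') {x : Fin n → ℝ} (hx : x ∈ D.feasible) :
    D'.Vertex (e.map x) ↔ D.Vertex x := by
  unfold RLP.Vertex
  rw [← isExtreme_singleton, ← isExtreme_singleton, ← e.extreme D.feasible {x}, ← e.feas',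
    Set.image_singleton]
  constructor
  · intro h
    exact h.mono e.face.1 (Set.singleton_subset_iff.2 (e.mem_F.2 hx))
  · exact fun h => e.face.trans h

/-- a vertex of `D` gives a vertex of `D'` -/
theorem vertex (e : FIso D D') {x : Fin n → ℝ} (h : D.Vertex x) : D'.Vertex (e.map x) :=
  (e.vertex_iff h.1).2 h

theorem of_vertex (e : FIso D D') {y : Fin n' → ℝ} (hy : D'.Vertex y) (hF : y ∈ e.F) :
    ∃ x, D.Vertex x ∧ e.map x = y := by
  have hF' := hF
  rw [e.feas'] at hF'
  obtain ⟨x, hx, rfl⟩ := hF'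
  exact ⟨x, (e.vertex_iff hx).1 hy, rfl⟩

theorem improving (e : FIso D D') {x y : Fin n → ℝ} (hx : x ∈ D.feasible)
    (hy : y ∈ D.feasible) (h : D'.Improving (e.map x) (e.map y)) : D.Improving x y := by
  obtain ⟨⟨h1, h2, h3, h4⟩, h5⟩ := h
  refine ⟨⟨(e.vertex_iff hx).1 h1, (e.vertex_iff hy).1 h2, fun h => h3 (congrArg e.map h), ?_⟩,
    e.obj_lt.1 h5⟩
  have h6 : e.map '' segment ℝ x y = segment ℝ (e.map x) (e.map y) :=
    image_segmentA e.L e.a x y
  rw [← h6] at h4
  rw [← e.extreme, ← e.feas']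
  refine h4.mono e.face.1 ?_
  rw [e.feas']
  refine Set.image_mono ?_
  exact (feas_convex D).segment_subset hx hy

theorem optimal (e : FIso D D') {x : Fin n → ℝ} (hx : x ∈ D.feasible)
    (h : D'.Optimal (e.map x)) : D.Optimal x :=
  ⟨hx, fun _ hy => e.obj_le.1 (h.2 _ (e.face.1 (e.mem_F.2 hy)))⟩

end FIso

/-- Runs are carried back. -/
theorem run_of_fiso {I I' : Input} (e : FIso (ofQ I.lp) (ofQ I'.lp))
    (hv : toReal I'.v = e.map (toReal I.v)) {back : (Fin I'.n → ℚ) → Fin I.n → ℚ}
    (hback : ∀ (x : Fin I.n → ℝ) (w : Fin I'.n → ℚ), toReal w = e.map x → toReal (back w) = x)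
    {N : ℕ} {x : ℕ → Fin I'.n → ℚ} {s : Verdict} (h : SimplexRun I' N x s) :
    SimplexRun I N (fun t => back (x t)) s := by
  have hF : ∀ t ≤ N, toReal (x t) ∈ e.F := by
    intro t
    induction t with
    | zero =>
      intro _
      rw [h.start, hv, e.mem_F]
      exact I.vertex.1
    | succ t ih =>
      intro ht
      exact e.stay _ (ih (by omega)) _ (h.pivot t (by omega))
  have hback' : ∀ w : Fin I'.n → ℚ, toReal w ∈ e.F →
      toReal w = e.map (toReal (back w)) ∧ toReal (back w) ∈ (ofQ I.lp).feasible := by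
    intro w hw
    have hw' := hw
    rw [e.feas'] at hw'
    obtain ⟨y, hy, hyw⟩ := hw'
    have h1 := hback y w hyw.symm
    rw [h1]
    exact ⟨hyw.symm, hy⟩
  constructor
  · rw [h.start]
    have h1 := hback (toReal I.v) I'.v hv
    funext j
    have h2 := congrFun h1 j
    unfold toReal at h2
    exact_mod_cast h2
  · intro t ht
    have h1 := h.pivot t ht
    obtain ⟨h2, h2'⟩ := hback' _ (hF t (by omega))
    obtain ⟨h3, h3'⟩ := hback' _ (hF (t + 1) (by omega))
    rw [h2, h3] at h1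
    exact e.improving h2' h3' h1
  · obtain ⟨h4, h5⟩ := hback' _ (hF N le_rfl)
    rcases h.stop with ⟨h1, h2, h3⟩ | ⟨h1, h2⟩
    · rw [h4] at h2 h3
      exact Or.inl ⟨h1, (e.vertex_iff h5).1 h2, e.optimal h5 h3⟩
    · obtain ⟨h3, z', hz, hext⟩ := h2
      exact absurd ⟨h3, hext⟩ (e.noray _ z' hz)

end Pool.Agent.Simplex.EB
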