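import Pool.Agent.Lib.MP_4d246d_lc.EB.Statement7
import Pool.Agent.Lib.MP_4d246d_lc.EB.SlimPoly

/-!
# The size of the matrix of the assignment programs
-/

namespace Pool.Agent.Simplex.EB.Tab.Ax

open Pool.Agent.Lib.PolyTime Pool.Agent.Simplex.QP

/-- the matrix of the assignment programs -/
def amat (N : ℕ) : Mat :=
  (N * (N * N), (List.range (3 * N + 3 * N)).map (fun p =>
    (List.range (N * (N * N))).map (fun q =>
      if p < 3 * N then (if InSlice N p q then 1 else 0)
      else (if InSlice N (p - 3 * N) q then -1 else 0))))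

theorem assign_mat (N : ℕ) (cost : Fin (N * (N * N)) → ℝ) : (assign N cost).mat = amat N := by
  unfold RLP.mat amat
  refine Prod.ext rfl ?_
  dsimp only
  rw [← ofFn_range]
  refine congrArg List.ofFn (funext fun p => ?_)
  rw [← ofFn_range]
  refine congrArg List.ofFn (funext fun q => ?_)
  show (Fin.addCases (fun p q => if InSlice N p q then 1 else 0)
    (fun p q => if InSlice N p q then -1 else 0) p :
      Fin (N * (N * N)) → ℚ) q = _
  induction p using Fin.addCases with
  | left p =>
    rw [Fin.addCases_left, Fin.val_castAdd, if_pos p.2]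
  | right p =>
    have h1 : ¬ (3 * N + (p : ℕ) < 3 * N) := by omega
    rw [Fin.addCases_right, Fin.val_natAdd, if_neg h1, Nat.add_sub_cancel_left]

section

variable {α : Type*} [TEnc α]

theorem polyF_inSlice {N p q : α → ℕ} (hN : PolyF N) (hp : PolyF p) (hq : PolyF q) :
    PolyF (fun a => decide (InSlice (N a) (p a) (q a))) :=
  (hp.natEq ((hq.natDiv hN).natDiv hN)).decide_or
    ((hp.natEq (hN.natAdd ((hq.natDiv hN).natMod hN))).decide_or
      (hp.natEq (((PolyF.const 2).natMul hN).natAdd (hq.natMod hN))))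

theorem polyF_amat {N : α → ℕ} (hN : PolyF N) : PolyF (fun a => amat (N a)) := by
  have hn : PolyF (fun a => N a * (N a * N a)) := hN.natMul (hN.natMul hN)
  have hl : PolyF (fun a => 3 * N a) := (PolyF.const 3).natMul hN
  refine hn.pair ((hl.natAdd hl).range.map (h := fun a p => (List.range (N a * (N a * N a))).map
    (fun q => if p < 3 * N a then (if InSlice (N a) p q then (1 : ℚ) else 0)
      else (if InSlice (N a) (p - 3 * N a) q then -1 else 0))) ?_)
  have hn1 : PolyF (fun x : α × ℕ => N x.1 * (N x.1 * N x.1)) := hn.comp PolyF.fst'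
  refine hn1.range.map (h := fun (x : α × ℕ) q =>
    if x.2 < 3 * N x.1 then (if InSlice (N x.1) x.2 q then (1 : ℚ) else 0)
      else (if InSlice (N x.1) (x.2 - 3 * N x.1) q then -1 else 0)) ?_
  have hN2 : PolyF (fun x : (α × ℕ) × ℕ => N x.1.1) := hN.comp (PolyF.fst'.comp PolyF.fst')
  have hp2 : PolyF (fun x : (α × ℕ) × ℕ => x.1.2) := PolyF.snd'.comp PolyF.fst'
  have hl2 : PolyF (fun x : (α × ℕ) × ℕ => 3 * N x.1.1) := (PolyF.const 3).natMul hN2
  exact PolyF.ite (hp2.natLt hl2) (polyF_ind (polyF_inSlice hN2 hp2 PolyF.snd'))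
    (PolyF.ite (polyF_inSlice hN2 (hp2.natSub hl2) PolyF.snd') (PolyF.const (-1))
      (PolyF.const 0))

end

theorem size_amat : ∃ P : Polynomial ℕ, ∀ N : ℕ, sz (amat N) ≤ P.eval N := by
  obtain ⟨Q, hQ⟩ := (polyF_amat (α := ℕ) (N := fun n => n) PolyF.id).bound
  refine ⟨Q, fun N => ?_⟩
  have h := hQ N
  rw [sz_nat] at h
  exact h

end Pool.Agent.Simplex.EB.Tab.Ax
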