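import Pool.Agent.Lib.MP_4d246d_lc.EB.AxPoly
import Pool.Agent.Lib.MP_4d246d_lc.EB.AxSize
import Pool.Agent.Lib.MP_4d246d_lc.EB.OnBlind

/-!
# Question 1 for the three-dimensional assignment program
-/

namespace Pool.Agent.Simplex.EB

open Pool.Agent.Lib.PolyTime Pool.Agent.Simplex.QP Turing

/-- Question 1 for the assignment programs implies it for all transportation programs. -/
theorem slimSimplex_of_assign (h : SimplexOn IsAssign) : SlimSimplex :=
  SimplexOn.of_red (Q := IsAssign) (P := IsTransport) Tab.Ax.redX_assign (back := Tab.Ax.backX)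
    (backL := Tab.Ax.backLX) Tab.Ax.ofFn_backX Tab.Ax.polyF_redX Tab.Ax.polyF_backLX
    (fun _ _ _ _ h => Tab.Ax.run_of_redX h) h

/-- **Question 1 is equivalent to Question 1 for the linear program of the three-dimensional
assignment problem.** -/
theorem polySimplex_iff_assign : PolySimplex ↔ SimplexOn IsAssign :=
  ⟨fun h => h.on _, fun h => polySimplex_iff_slim.2 (slimSimplex_of_assign h)⟩

/-- **Question 1 is the question whether the optimal rule is polynomial on the polytopes of the
three-dimensional assignment problem.** -/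
theorem Optimal.assign_iff {U : BlindRule} (hU : Optimal U) (hp : U.Poly) :
    PolySimplex ↔ ∃ P : Polynomial ℕ, ∀ (N : ℕ) (cost : Fin (N * (N * N)) → ℝ),
      Solves U (assign N cost) (P.eval N) := by
  constructor
  · intro h
    obtain ⟨P, hP⟩ := (hU.poly_iff hp).1 h
    obtain ⟨Q, hQ⟩ := Tab.Ax.size_amat
    refine ⟨P.comp (2 * Q + 1), fun N cost => (hP _ _ _).mono ?_⟩
    rw [Polynomial.eval_comp]
    refine peval_mono P ?_
    have h1 : (assign N cost).size = 2 * sz (assign N cost).mat + 1 := length_wd _ _ _
    rw [Tab.Ax.assign_mat] at h1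
    have h2 := hQ N
    rw [h1]
    simp only [Polynomial.eval_add, Polynomial.eval_mul, Polynomial.eval_ofNat,
      Polynomial.eval_one]
    omega
  · rintro ⟨P, hP⟩
    refine polySimplex_iff_assign.2 (simplexOn_of_blind hp (P := P) ?_)
    rintro I ⟨N, cost, v, hv, rfl⟩
    show Solves U (ofQ (assignQ N cost)) _
    rw [Tab.Ax.ofQ_assignQ]
    refine (hP N _).mono (peval_mono P ?_)
    have h3 : N * (N * N) ≤ matSize ⟨_, _, assignQ N cost, v, hv⟩ := by
      unfold matSize
      have h4 := length_wd false true ((N * (N * N) : ℕ), List.ofFn fun i => List.ofFn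
        ((assignQ N cost).A i))
      have h5 := sz_prod ((N * (N * N) : ℕ), List.ofFn fun i => List.ofFn
        ((assignQ N cost).A i))
      rw [sz_nat] at h5
      refine le_trans ?_ h4.ge
      dsimp only at h5 ⊢
      omega
    refine le_trans ?_ h3
    rcases Nat.eq_zero_or_pos N with h | h
    · rw [h]
    · exact Nat.le_mul_of_pos_right N (Nat.mul_pos h h)

end Pool.Agent.Simplex.EB
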