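import Pool.Agent.Lib.MP_4d246d_lc.EB.SlimIso

/-!
# Names of vertices of transportation programs
-/

namespace Pool.Agent.Simplex.EB

open Pool.Agent.Lib.PolyTime Pool.Agent.Simplex.QP

variable {m n : ℕ} {D : RLP m n}

private theorem sn_ofFn {α : Type*} (k : ℕ) (Q : ℕ → α) :
    List.ofFn (fun j : Fin k => Q j) = (List.range k).map Q := by
  refine List.ext_getElem (by simp) (fun i h1 h2 => ?_)
  simp

private theorem sn_transport_mat (r c : ℕ) (s : Fin (lines r c) → ℝ)
    (cost : Fin (3 * (r * c)) → ℝ) : (transport r c s cost).mat = tmat r c := by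
  unfold RLP.mat tmat
  congr 1
  rw [← sn_ofFn]
  congr 1
  funext p
  rw [← sn_ofFn]
  congr 1
  funext q
  show (transport r c s cost).A p q = _
  unfold transport
  dsimp only
  by_cases hp : (p : ℕ) < lines r c
  · rw [if_pos hp]
    obtain ⟨p', rfl⟩ : ∃ p' : Fin (lines r c), p = Fin.castAdd (lines r c) p' := ⟨⟨p, hp⟩, rfl⟩
    rw [Fin.addCases_left]
    rfl
  · rw [if_neg hp]
    obtain ⟨p', rfl⟩ : ∃ p' : Fin (lines r c), p = Fin.natAdd (lines r c) p' := by
      refine ⟨⟨p - lines r c, by omega⟩, Fin.ext ?_⟩
      rw [Fin.val_natAdd]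
      dsimp only
      omega
    rw [Fin.addCases_right, Fin.val_natAdd, Nat.add_sub_cancel_left]

theorem slim_mat (D : RLP m n) (U : ℝ) : (D.slim U).mat = slF D.mat :=
  sn_transport_mat _ _ _ _

/-- the rows of a transportation program are the line sums -/
theorem transport_row {r c : ℕ} {s : Fin (lines r c) → ℝ} {cost : Fin (3 * (r * c)) → ℝ}
    (f : ℕ → ℝ) (p : Fin (lines r c)) :
    ∑ q : Fin (3 * (r * c)), ((transport r c s cost).A (Fin.castAdd (lines r c) p) q : ℝ) * f q =
        lsum r c p f ∧
      ∑ q : Fin (3 * (r * c)),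
        ((transport r c s cost).A (Fin.natAdd (lines r c) p) q : ℝ) * f q = - lsum r c p f := by
  unfold lsum
  rw [Finset.sum_range, ← Finset.sum_neg_distrib]
  constructor
  · refine Finset.sum_congr rfl fun q _ => ?_
    unfold transport
    dsimp only
    rw [Fin.addCases_left]
    split_ifs <;> simp
  · refine Finset.sum_congr rfl fun q _ => ?_
    unfold transport
    dsimp only
    rw [Fin.addCases_right]
    split_ifs <;> simp

/-- all line constraints are tight -/
theorem slim_rows {U : ℝ} {f : ℕ → ℝ}
    (h : ∀ p < lines (slr D.mat) (slc D.mat), lsum (slr D.mat) (slc D.mat) p f =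
      lsum (slr D.mat) (slc D.mat) p (tab D.mat U D.cval))
    (i : Fin (lines (slr D.mat) (slc D.mat) + lines (slr D.mat) (slc D.mat))) :
    ∑ q : Fin (3 * (slr D.mat * slc D.mat)), ((D.slim U).A i q : ℝ) * f q = (D.slim U).b i := by
  refine Fin.addCases (fun p => ?_) (fun p => ?_) i
  · refine ((transport_row f p).1).trans ?_
    rw [h p p.2]
    unfold RLP.slim transport
    dsimp only
    rw [Fin.addCases_left]
  · refine ((transport_row f p).2).trans ?_
    rw [h p p.2]
    unfold RLP.slim transport
    dsimp only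
    rw [Fin.addCases_right]

/-- and stay tight -/
theorem slim_rows0 {U : ℝ} {f : ℕ → ℝ}
    (h : ∀ p < lines (slr D.mat) (slc D.mat), lsum (slr D.mat) (slc D.mat) p f = 0)
    (i : Fin (lines (slr D.mat) (slc D.mat) + lines (slr D.mat) (slc D.mat))) :
    ∑ q : Fin (3 * (slr D.mat * slc D.mat)), ((D.slim U).A i q : ℝ) * f q = 0 := by
  refine Fin.addCases (fun p => ?_) (fun p => ?_) i
  · refine ((transport_row f p).1).trans ?_
    rw [h p p.2]
  · refine ((transport_row f p).2).trans ?_
    rw [h p p.2, neg_zero]

private theorem sn_kind (X : Mat) (e J K : ℕ) : kind X e J K < 3 := by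
  unfold kind
  split_ifs <;> norm_num

theorem tk_lt (X : Mat) (q : ℕ) : tk X q < 3 := by
  unfold tk
  split_ifs
  · exact sn_kind _ _ _ _
  · exact Nat.mod_lt _ (by norm_num)

theorem slim_length : D.mat.2.length = m := by
  unfold RLP.mat
  rw [List.length_ofFn]

/-- the entry of the name for the variable `v` -/
theorem name_ps (x : Fin n → ℝ) {v : ℕ} (hv : v < n + m) :
    open Classical in (D.name x).getD (ps D.mat v) false =
      decide (D.lval v x + D.cval v = 0) := by
  classical
  have hm : (List.ofFn (fun i : Fin m => decide (∑ j, (D.A i j : ℝ) * x j = D.b i))).length =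
    m := List.length_ofFn
  unfold RLP.name ps
  rw [slim_length]
  by_cases h : v < n
  · rw [if_pos (show v < D.mat.1 from h), List.getD_append_right _ _ _ _ (by rw [hm]; omega), hm,
      Nat.add_sub_cancel_left,
      List.getD_eq_getElem _ _ (by rw [List.length_ofFn]; exact h), List.getElem_ofFn]
    have h1 := lval_lt (D := D) x ⟨v, h⟩
    dsimp only at h1
    rw [h1]
  · obtain ⟨i, rfl⟩ := Nat.exists_eq_add_of_le (not_lt.1 h)
    have hi : i < m := by omega
    rw [if_neg (show ¬ n + i < D.mat.1 from h), show n + i - D.mat.1 = i from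
      Nat.add_sub_cancel_left (n := n) (m := i), List.getD_append _ _ _ _ (by rw [hm]; exact hi),
      List.getD_eq_getElem _ _ (by rw [hm]; exact hi), List.getElem_ofFn]
    have h1 := lval_ge (D := D) x ⟨i, hi⟩
    dsimp only at h1
    rw [h1, decide_eq_decide, sub_eq_zero]
    exact eq_comm

/-- the entry of the name of an edge for the variable `v` -/
theorem edgeName_ps (x z : Fin n → ℝ) {v : ℕ} (hv : v < n + m) :
    open Classical in (D.edgeName x z).getD (ps D.mat v) false =
      decide (D.lval v x + D.cval v = 0 ∧ D.lval v z = 0) := by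
  classical
  have hm : (List.ofFn (fun i : Fin m => decide (∑ j, (D.A i j : ℝ) * x j = D.b i ∧
    ∑ j, (D.A i j : ℝ) * z j = 0))).length = m := List.length_ofFn
  unfold RLP.edgeName ps
  rw [slim_length]
  by_cases h : v < n
  · rw [if_pos (show v < D.mat.1 from h), List.getD_append_right _ _ _ _ (by rw [hm]; omega), hm,
      Nat.add_sub_cancel_left,
      List.getD_eq_getElem _ _ (by rw [List.length_ofFn]; exact h), List.getElem_ofFn]
    have h1 := lval_lt (D := D) x ⟨v, h⟩
    dsimp only at h1
    rw [h1, lval_of_lt z h]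
  · obtain ⟨i, rfl⟩ := Nat.exists_eq_add_of_le (not_lt.1 h)
    have hi : i < m := by omega
    rw [if_neg (show ¬ n + i < D.mat.1 from h), show n + i - D.mat.1 = i from
      Nat.add_sub_cancel_left (n := n) (m := i), List.getD_append _ _ _ _ (by rw [hm]; exact hi),
      List.getD_eq_getElem _ _ (by rw [hm]; exact hi), List.getElem_ofFn]
    have h1 := lval_ge (D := D) x ⟨i, hi⟩
    dsimp only at h1
    rw [h1, lval_of_ge z hi, decide_eq_decide, sub_eq_zero, neg_eq_zero]
    exact and_congr_left fun _ => eq_comm

/-- the line sums of a table of the program -/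
theorem slim_lsum (hA : Units D.A) (U : ℝ) (x : Fin n → ℝ) :
    (∀ p < lines (slr D.mat) (slc D.mat), lsum (slr D.mat) (slc D.mat) p
        (fun q => tab D.mat U (fun v => D.lval v x + D.cval v) q) =
      lsum (slr D.mat) (slc D.mat) p (tab D.mat U D.cval)) ∧
    ∀ p < lines (slr D.mat) (slc D.mat), lsum (slr D.mat) (slc D.mat) p
        (fun q => tab D.mat 0 (fun v => D.lval v x) q) = 0 := by
  have h2 : ∀ p < lines (slr D.mat) (slc D.mat), lsum (slr D.mat) (slc D.mat) p
      (fun q => tab D.mat 0 (fun v => D.lval v x) q) = 0 := by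
    intro p hp
    refine lsum_zero (units_mat hA) (w := fun v => D.lval v x) (fun s hs => ?_) p hp
    rw [slim_length] at hs
    rw [slim_length]
    exact cof_eqn x hs
  refine ⟨fun p hp => ?_, h2⟩
  rw [← zero_add (lsum _ _ p (tab D.mat U D.cval)), ← h2 p hp, ← lsum_add]
  exact lsum_congr fun q _ => (slimL_add U x q).symm

theorem slim_names (hA : Units D.A) (hm : 0 < m) {U : ℝ} (hU : D.Under U) :
    NamesA (slimIso hA hm hU) (slf D.mat) (slg D.mat) := by
  classical
  have hl : D.mat.2.length = m := slim_length
  have hmap : ∀ x : Fin n → ℝ, (slimL D x + fun q : Fin _ => tab D.mat U D.cval q) =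
      fun q : Fin (3 * (slr D.mat * slc D.mat)) =>
        tab D.mat U (fun v => D.lval v x + D.cval v) q := by
    intro x
    funext q
    rw [Pi.add_apply, slimL_apply, slimL_add]
  have hcV : ∀ q < 3 * (slr D.mat * slc D.mat), cV D.mat (q / 3 / slc D.mat) < n + m := by
    intro q hq
    have h1 := cV_lt D.mat hq
    rw [hl] at h1
    exact h1
  refine ⟨fun x hx => ?_, fun x z hx hz => ?_, fun S hS => ?_⟩
  · show (D.slim U).name (slimL D x + fun q : Fin _ => tab D.mat U D.cval q) = _
    rw [hmap x]
    unfold slf
    conv_lhs => unfold RLP.name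
    congr 1
    · rw [← List.ofFn_const]
      congr 1
      funext i
      rw [decide_eq_true_iff]
      exact slim_rows (slim_lsum hA U x).1 i
    · refine (sn_ofFn (3 * (slr D.mat * slc D.mat)) (fun q =>
        decide (tab D.mat U (fun v => D.lval v x + D.cval v) q = 0))).trans ?_
      refine List.map_congr_left fun q hq => ?_
      rw [List.mem_range] at hq
      have h1 := hcV q hq
      have h2 := hU x hx.1 _ h1
      rw [name_ps x h1]
      have h3 := tk_lt D.mat q
      unfold tab
      by_cases h4 : tk D.mat q = 0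
      · rw [if_pos h4, if_neg (by omega), if_neg (by omega)]
        simp
      · rw [if_neg h4]
        by_cases h5 : tk D.mat q = 1
        · rw [if_pos h5, if_pos h5]
        · rw [if_neg h5, if_neg h5, if_pos (by omega), decide_eq_false_iff_not]
          intro h6
          linarith
  · show (D.slim U).edgeName (slimL D x + fun q : Fin _ => tab D.mat U D.cval q)
      (slimL D z) = _
    rw [hmap x, show slimL D z = fun q : Fin (3 * (slr D.mat * slc D.mat)) =>
      tab D.mat 0 (fun v => D.lval v z) q from rfl]
    unfold slf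
    conv_lhs => unfold RLP.edgeName
    congr 1
    · rw [← List.ofFn_const]
      congr 1
      funext i
      rw [decide_eq_true_iff]
      exact ⟨slim_rows (slim_lsum hA U x).1 i, slim_rows0 (slim_lsum hA U z).2 i⟩
    · refine (sn_ofFn (3 * (slr D.mat * slc D.mat)) (fun q =>
        decide (tab D.mat U (fun v => D.lval v x + D.cval v) q = 0 ∧
          tab D.mat 0 (fun v => D.lval v z) q = 0))).trans ?_
      refine List.map_congr_left fun q hq => ?_
      rw [List.mem_range] at hq
      have h1 := hcV q hq
      have h2 := hU x hx.1 _ h1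
      rw [edgeName_ps x z h1]
      have h3 := tk_lt D.mat q
      unfold tab
      by_cases h4 : tk D.mat q = 0
      · rw [if_pos h4, if_neg (by omega), if_neg (by omega), if_neg (by omega), if_neg (by omega)]
        simp
      · rw [if_neg h4]
        by_cases h5 : tk D.mat q = 1
        · rw [if_pos h5, if_pos h5, if_pos h5]
        · rw [if_neg h5, if_neg h5, if_neg h5, if_pos (by omega), decide_eq_false_iff_not]
          rintro ⟨h6, -⟩
          linarith
  · unfold slg slf
    rw [hl]
    refine List.ext_getElem ?_ (fun i h1 h2 => ?_)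
    · rw [List.length_map, List.length_range, hS]
      rfl
    · rw [List.getElem_map, List.getElem_range]
      have hi : i < m + n := by
        rw [← hS]
        exact h2
      -- the variable
      obtain ⟨v, hv⟩ : ∃ v, v = if i < m then D.mat.1 + i else i - m := ⟨_, rfl⟩
      have hvlt : v < n + m := by
        rw [hv]
        split_ifs with h
        · show n + i < n + m
          omega
        · omega
      have hps : ps D.mat v = i := by
        unfold ps
        rw [hl, hv]
        show (if (if i < m then n + i else i - m) < n then m + (if i < m then n + i else i - m)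
          else (if i < m then n + i else i - m) - n) = i
        split_ifs <;> omega
      rw [← hv]
      have hsp := slp0_spec D.mat (by rw [hl]; exact hm) (v := v) (by rw [hl]; exact hvlt)
      rw [List.getD_append_right _ _ _ _ (by rw [List.length_replicate]; omega),
        List.length_replicate, Nat.add_sub_cancel_left, List.getD_eq_getElem _ _ (by
          rw [List.length_map, List.length_range]; exact hsp.1), List.getElem_map,
        List.getElem_range, if_neg (by rw [hsp.2.1]; norm_num), if_pos hsp.2.1, hsp.2.2, hps,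
        List.getD_eq_getElem _ _ h2]

/-- a rule for transportation programs gives a rule for bounded programs with entries `0, 1, -1` -/
theorem solves_slim {ρ : BlindRule} {B : ℕ} (hA : Units D.A) (hm : 0 < m) {U : ℝ}
    (hU : D.Under U) (h : Solves ρ (D.slim U) B) : Solves (isoRule slF slf slg ρ) D B :=
  solves_isoA (slimIso hA hm hU) (slim_mat D U) (slim_names hA hm hU) h

/-- bounded programs have an upper bound for all variables -/
theorem exists_under {M : ℝ} (hM : ∀ x ∈ D.feasible, ∀ j, x j ≤ M) : ∃ U, D.Under U := by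
  obtain ⟨N, hN, hN0⟩ : ∃ N : ℝ, M ≤ N ∧ 0 ≤ N := ⟨max M 0, le_max_left _ _, le_max_right _ _⟩
  set R : Fin m → ℝ := fun i => |D.b i| + ∑ j, |(D.A i j : ℝ)| * N with hR
  have hR0 : ∀ i, 0 ≤ R i := fun i => add_nonneg (abs_nonneg _)
    (Finset.sum_nonneg fun j _ => mul_nonneg (abs_nonneg _) hN0)
  have hS0 : 0 ≤ ∑ i, R i := Finset.sum_nonneg fun i _ => hR0 i
  refine ⟨N + ∑ i, R i + 1, fun x hx v hv => ?_⟩
  by_cases h : v < n
  · have h1 := lval_lt (D := D) x ⟨v, h⟩
    dsimp only at h1
    rw [h1]
    have h2 := hM x hx ⟨v, h⟩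
    linarith
  · obtain ⟨i, rfl⟩ := Nat.exists_eq_add_of_le (not_lt.1 h)
    have hi : i < m := by omega
    have h1 := lval_ge (D := D) x ⟨i, hi⟩
    dsimp only at h1
    rw [h1]
    have h2 : R ⟨i, hi⟩ ≤ ∑ i, R i :=
      Finset.single_le_sum (fun i _ => hR0 i) (Finset.mem_univ _)
    have h3 : -(∑ j, (D.A ⟨i, hi⟩ j : ℝ) * x j) ≤ ∑ j, |(D.A ⟨i, hi⟩ j : ℝ)| * N := by
      rw [← Finset.sum_neg_distrib]
      refine Finset.sum_le_sum fun j _ => ?_
      refine (neg_le_abs _).trans ?_
      rw [abs_mul]
      refine mul_le_mul_of_nonneg_left ?_ (abs_nonneg _)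
      rw [abs_of_nonneg (hx.2 j)]
      exact (hM x hx j).trans hN
    have h4 : D.b ⟨i, hi⟩ ≤ |D.b ⟨i, hi⟩| := le_abs_self _
    have h5 : R ⟨i, hi⟩ = |D.b ⟨i, hi⟩| + ∑ j, |(D.A ⟨i, hi⟩ j : ℝ)| * N := rfl
    linarith

end Pool.Agent.Simplex.EB
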