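import Pool.Agent.Lib.MP_4d246d_lc.EB.Statement3

/-!
# Tables with small line sums
-/

namespace Pool.Agent.Simplex.EB

open Pool.Agent.Lib.PolyTime Turing

/-- The input is: maximise one entry (with the index `e`) of a nonnegative `r × c × 3` table
whose line sums are given natural numbers `s p ≤ 2 (r + c)`, starting at a vertex `v`. -/
def IsTiny (I : Input) : Prop :=
  ∃ (r c : ℕ) (s : Fin (lines r c) → ℕ) (e : Fin (3 * (r * c)))
    (v : Fin (3 * (r * c)) → ℚ)
    (hv : (transportQ r c (fun p => (s p : ℚ)) (fun q => if q = e then 1 else 0)).Vertex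
      (toReal v)),
    (∀ p, s p ≤ 2 * (r + c)) ∧
    I = ⟨_, _, transportQ r c (fun p => (s p : ℚ)) (fun q => if q = e then 1 else 0), v, hv⟩

/-- Question 1 for these inputs: a version of the simplex method with polynomial total running
time on them. -/
def TinySimplex : Prop :=
  ∃ (N : Input → ℕ) (x : (I : Input) → ℕ → Fin I.n → ℚ) (s : Input → Verdict),
    (∀ I, IsTiny I → SimplexRun I (N I) (x I) (s I)) ∧
    Nonempty (TM2ComputableInPolyTime (fun I : {I : Input // IsTiny I} => code I.1)
      (code (α := List (List ℚ × Verdict)))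
      (fun I => protocol (N I.1) (x I.1) (s I.1)))

end Pool.Agent.Simplex.EB
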