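import Pool.Agent.Lib.MP_4d246d_lc.EB.PIso
import Pool.Agent.Lib.MP_4d246d_lc.EB.SlimNames
import Pool.Agent.Lib.MP_4d246d_lc.EB.Statement4

/-!
# The table of a rational program
-/

namespace Pool.Agent.Simplex.EB

open Pool.Agent.Lib.PolyTime Pool.Agent.Simplex.QP

/-- the table with rational entries -/
def tabQ (X : Mat) (U : ℚ) (w : ℕ → ℚ) (q : ℕ) : ℚ :=
  if tk X q = 1 then w (cV X (q / 3 / slc X))
  else if tk X q = 2 then U - w (cV X (q / 3 / slc X))
  else 0

/-- the variables at the origin, from the list of the right-hand sides -/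
def cvalQ (X : Mat) (b : List ℚ) (v : ℕ) : ℚ := if v < X.1 then 0 else b.getD (v - X.1) 0

/-- the line sums -/
def lsumQ (r c p : ℕ) (f : ℕ → ℚ) : ℚ :=
  ((List.range (3 * (r * c))).map (fun q => if OnLine r c p q then f q else 0)).sum

/-- the transportation program with `U = 2` -/
def slimQLP {m n : ℕ} (D : QLP m n) : QLP
    (lines (slr (ofQ D).mat) (slc (ofQ D).mat) + lines (slr (ofQ D).mat) (slc (ofQ D).mat))
    (3 * (slr (ofQ D).mat * slc (ofQ D).mat)) :=
  transportQ (slr (ofQ D).mat) (slc (ofQ D).mat)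
    (fun p => lsumQ (slr (ofQ D).mat) (slc (ofQ D).mat) p
      (tabQ (ofQ D).mat 2 (cvalQ (ofQ D).mat (List.ofFn D.b))))
    (fun q => ∑ j : Fin n, if (q : ℕ) = slp0 (ofQ D).mat j then D.c j else 0)

theorem cast_tabQ (X : Mat) (U : ℚ) (w : ℕ → ℚ) (q : ℕ) :
    (tabQ X U w q : ℝ) = tab X U (fun v => (w v : ℝ)) q := by
  unfold tabQ tab
  split_ifs
  · rfl
  · exact Rat.cast_sub _ _
  · exact Rat.cast_zero

theorem list_sum_range (k : ℕ) (g : ℕ → ℚ) :
    ((List.range k).map g).sum = ∑ q ∈ Finset.range k, g q := by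
  induction k with
  | zero => rfl
  | succ k ih =>
    rw [List.range_succ, List.map_append, List.sum_append, ih, Finset.sum_range_succ,
      List.map_singleton, List.sum_singleton]

theorem cast_lsumQ (r c p : ℕ) (f : ℕ → ℚ) :
    (lsumQ r c p f : ℝ) = lsum r c p (fun q => (f q : ℝ)) := by
  unfold lsumQ lsum
  rw [list_sum_range, Rat.cast_sum]
  refine Finset.sum_congr rfl fun q _ => ?_
  split_ifs
  · rfl
  · exact Rat.cast_zero

theorem cast_cvalQ {m n : ℕ} (D : QLP m n) (v : ℕ) :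
    (cvalQ (ofQ D).mat (List.ofFn D.b) v : ℝ) = (ofQ D).cval v := by
  unfold cvalQ RLP.cval
  by_cases h : v < n
  · rw [if_pos (show v < (ofQ D).mat.1 from h), if_pos h]
    exact Rat.cast_zero
  · rw [if_neg (show ¬ v < (ofQ D).mat.1 from h), if_neg h]
    show (((List.ofFn D.b).getD (v - n) 0 : ℚ) : ℝ) = _
    by_cases h1 : v - n < m
    · rw [dif_pos h1, List.getD_eq_getElem _ _ (by rw [List.length_ofFn]; exact h1),
        List.getElem_ofFn]
      rfl
    · rw [dif_neg h1, List.getD_eq_default _ _ (by rw [List.length_ofFn]; omega)]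
      exact Rat.cast_zero

theorem ofQ_transportQ (r c : ℕ) (s : Fin (lines r c) → ℚ) (cost : Fin (3 * (r * c)) → ℚ) :
    ofQ (transportQ r c s cost) =
      transport r c (fun p => (s p : ℝ)) (fun q => (cost q : ℝ)) := by
  unfold ofQ transportQ transport
  congr 1
  funext i
  induction i using Fin.addCases with
  | left p => simp only [Fin.addCases_left]
  | right p => simp only [Fin.addCases_right, Rat.cast_neg]

theorem ofQ_slimQLP {m n : ℕ} (D : QLP m n) : ofQ (slimQLP D) = (ofQ D).slim 2 := by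
  have h1 : ∀ q : ℕ, (tabQ (ofQ D).mat 2 (cvalQ (ofQ D).mat (List.ofFn D.b)) q : ℝ) =
      tab (ofQ D).mat 2 (ofQ D).cval q := by
    intro q
    rw [cast_tabQ, Rat.cast_ofNat]
    congr 1
    funext v
    exact cast_cvalQ D v
  unfold slimQLP RLP.slim
  rw [ofQ_transportQ]
  congr 1
  · funext p
    rw [cast_lsumQ]
    exact lsum_congr fun q _ => h1 q
  · funext q
    rw [Rat.cast_sum]
    refine Finset.sum_congr rfl fun j _ => ?_
    split_ifs
    · rfl
    · exact Rat.cast_zero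

/-- the values of all variables at a point where all constraints of the first kind are tight or
not: the slacks are computed -/
def wQ {m n : ℕ} (D : QLP m n) (v : Fin n → ℚ) (k : ℕ) : ℚ :=
  if h : k < n then v ⟨k, h⟩
  else if h : k - n < m then D.b ⟨k - n, h⟩ - ∑ j, D.A ⟨k - n, h⟩ j * v j else 0

/-- the table of a point -/
def slimV {m n : ℕ} (D : QLP m n) (v : Fin n → ℚ) :
    Fin (3 * (slr (ofQ D).mat * slc (ofQ D).mat)) → ℚ :=
  fun q => tabQ (ofQ D).mat 2 (wQ D v) q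

/-- the conditions -/
structure OkS (I : Input) : Prop where
  units : Units I.lp.A
  pos : 0 < I.m
  under : (ofQ I.lp).Under 2
  rhs : ∀ i, I.lp.b i = 0 ∨ I.lp.b i = 1 ∨ I.lp.b i = -1
  cost : ∃ e : Fin I.n, ∀ j, I.lp.c j = if j = e then 1 else 0

/-- the isomorphism -/
noncomputable def slimPIso {I : Input} (h : OkS I) : PIso (ofQ I.lp) (ofQ (slimQLP I.lp)) :=
  PIso.ofAIso ((ofQ_slimQLP I.lp).symm ▸ slimIso (D := ofQ I.lp) h.units h.pos h.under)

private theorem sq_cast {m n m' n' : ℕ} {D : RLP m n} {D' D'' : RLP m' n'} (h : D' = D'')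
    (e : AIso D D') (x : Fin n → ℝ) : (PIso.ofAIso (h ▸ e : AIso D D'')).map x = e.L x + e.a := by
  subst h
  rfl

theorem slimPIso_apply {I : Input} (h : OkS I) (x : Fin I.n → ℝ)
    (q : Fin (3 * (slr (ofQ I.lp).mat * slc (ofQ I.lp).mat))) :
    (slimPIso h).map x q =
      tab (ofQ I.lp).mat 2 (fun v => (ofQ I.lp).lval v x + (ofQ I.lp).cval v) q := by
  have h1 : (slimPIso h).map x = slimL (ofQ I.lp) x +
      fun q : Fin (3 * (slr (ofQ I.lp).mat * slc (ofQ I.lp).mat)) =>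
        tab (ofQ I.lp).mat 2 (ofQ I.lp).cval q := sq_cast _ _ _
  rw [h1, Pi.add_apply, slimL_apply, slimL_add]

theorem cast_wQ {m n : ℕ} (D : QLP m n) (v : Fin n → ℚ) {k : ℕ} (hk : k < n + m) :
    (wQ D v k : ℝ) = (ofQ D).lval k (toReal v) + (ofQ D).cval k := by
  by_cases h : k < n
  · have h1 := lval_lt (D := ofQ D) (toReal v) ⟨k, h⟩
    dsimp only at h1
    rw [h1]
    unfold wQ
    rw [dif_pos h]
    rfl
  · obtain ⟨i, rfl⟩ := Nat.exists_eq_add_of_le (not_lt.1 h)
    have hi : i < m := by omega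
    have h1 := lval_ge (D := ofQ D) (toReal v) ⟨i, hi⟩
    dsimp only at h1
    rw [h1]
    unfold wQ
    have h2 : n + i - n = i := by omega
    rw [dif_neg h, dif_pos (by omega)]
    simp only [h2]
    rw [Rat.cast_sub, Rat.cast_sum]
    congr 1
    refine Finset.sum_congr rfl fun j _ => ?_
    exact Rat.cast_mul _ _

theorem slimPIso_map {I : Input} (h : OkS I) (v : Fin I.n → ℚ) :
    (slimPIso h).map (toReal v) = toReal (slimV I.lp v) := by
  funext q
  rw [slimPIso_apply]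
  unfold toReal slimV
  rw [cast_tabQ, Rat.cast_ofNat]
  refine tab_congr (fun k hk => ?_) q.2
  rw [slim_length] at hk
  exact (cast_wQ I.lp v hk).symm

/-- the input -/
def redS (I : {I : Input // OkS I}) : Input :=
  ⟨_, _, slimQLP I.1.lp, slimV I.1.lp I.1.v, by
    rw [← ofQ_vertex, ← slimPIso_map I.2, PIso.vertex]
    exact I.1.vertex⟩

private theorem sq_input {m n : ℕ} {D D' : QLP m n} (h : D = D') (v : Fin n → ℚ)
    (hv : D.Vertex (toReal v)) :
    (⟨m, n, D, v, hv⟩ : Input) = ⟨m, n, D', v, h ▸ hv⟩ := by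
  subst h
  rfl

theorem int_cvalQ {m n : ℕ} {D : QLP m n} (hb : ∀ i, D.b i = 0 ∨ D.b i = 1 ∨ D.b i = -1)
    (v : ℕ) : ∃ z : ℤ, cvalQ (ofQ D).mat (List.ofFn D.b) v = z := by
  unfold cvalQ
  split_ifs with h
  · exact ⟨0, by norm_num⟩
  · by_cases h1 : v - (ofQ D).mat.1 < m
    · rw [List.getD_eq_getElem _ _ (by rw [List.length_ofFn]; exact h1), List.getElem_ofFn]
      rcases hb ⟨v - (ofQ D).mat.1, h1⟩ with h2 | h2 | h2
      · exact ⟨0, by rw [h2]; norm_num⟩
      · exact ⟨1, by rw [h2]; norm_num⟩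
      · exact ⟨-1, by rw [h2]; norm_num⟩
    · rw [List.getD_eq_default _ _ (by rw [List.length_ofFn]; omega)]
      exact ⟨0, by norm_num⟩

theorem int_tabQ {X : Mat} {w : ℕ → ℚ} (hw : ∀ v, ∃ z : ℤ, w v = z) (q : ℕ) :
    ∃ z : ℤ, tabQ X 2 w q = z := by
  obtain ⟨z, hz⟩ := hw (cV X (q / 3 / slc X))
  unfold tabQ
  split_ifs
  · exact ⟨z, hz⟩
  · exact ⟨2 - z, by rw [hz]; push_cast; rfl⟩
  · exact ⟨0, by norm_num⟩

theorem int_lsumQ {r c p : ℕ} {f : ℕ → ℚ} (hf : ∀ q, ∃ z : ℤ, f q = z) :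
    ∃ z : ℤ, lsumQ r c p f = z := by
  choose g hg using hf
  refine ⟨∑ q ∈ Finset.range (3 * (r * c)), if OnLine r c p q then g q else 0, ?_⟩
  unfold lsumQ
  rw [list_sum_range, Int.cast_sum]
  refine Finset.sum_congr rfl fun q _ => ?_
  split_ifs
  · exact hg q
  · norm_num

/-- line sums of a table with entries between `0` and `2` -/
theorem lsum_le {r c : ℕ} (hc : 3 ≤ r + c) {f : ℕ → ℝ} (hf : ∀ q < 3 * (r * c), f q ≤ 2) :
    ∀ p < lines r c, lsum r c p f ≤ 2 * ((r : ℝ) + c) := by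
  have hc' : (3 : ℝ) ≤ (r : ℝ) + c := by exact_mod_cast hc
  have hr0 : (0 : ℝ) ≤ r := Nat.cast_nonneg _
  have hc0 : (0 : ℝ) ≤ c := Nat.cast_nonneg _
  rw [forall_lines (Q := fun p => lsum r c p f ≤ 2 * ((r : ℝ) + c))]
  refine ⟨fun e he J hJ => ?_, fun J hJ K hK => ?_, fun e he K hK => ?_⟩
  · rw [lsum_A he hJ]
    have h1 : ∑ K ∈ Finset.range 3, f (ix c e J K) ≤ ∑ _K ∈ Finset.range 3, (2 : ℝ) :=
      Finset.sum_le_sum fun K hK => hf _ (ix_lt he hJ (Finset.mem_range.1 hK))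
    rw [Finset.sum_const, Finset.card_range, nsmul_eq_mul] at h1
    push_cast at h1
    linarith
  · rw [lsum_B hJ hK]
    have h1 : ∑ e ∈ Finset.range r, f (ix c e J K) ≤ ∑ _e ∈ Finset.range r, (2 : ℝ) :=
      Finset.sum_le_sum fun e he => hf _ (ix_lt (Finset.mem_range.1 he) hJ hK)
    rw [Finset.sum_const, Finset.card_range, nsmul_eq_mul] at h1
    linarith
  · rw [lsum_C he hK]
    have h1 : ∑ J ∈ Finset.range c, f (ix c e J K) ≤ ∑ _J ∈ Finset.range c, (2 : ℝ) :=
      Finset.sum_le_sum fun J hJ => hf _ (ix_lt he (Finset.mem_range.1 hJ) hK)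
    rw [Finset.sum_const, Finset.card_range, nsmul_eq_mul] at h1
    linarith

theorem lsum_nonneg {r c p : ℕ} {f : ℕ → ℝ} (hf : ∀ q < 3 * (r * c), 0 ≤ f q) :
    0 ≤ lsum r c p f := by
  unfold lsum
  refine Finset.sum_nonneg fun q hq => ?_
  split_ifs
  · exact hf q (Finset.mem_range.1 hq)
  · exact le_rfl

/-- the line sums are small natural numbers -/
theorem slim_small {I : Input} (h : OkS I) {p : ℕ}
    (hp : p < lines (slr (ofQ I.lp).mat) (slc (ofQ I.lp).mat)) :
    ∃ s : ℕ, s ≤ 2 * (slr (ofQ I.lp).mat + slc (ofQ I.lp).mat) ∧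
      lsumQ (slr (ofQ I.lp).mat) (slc (ofQ I.lp).mat) p
        (tabQ (ofQ I.lp).mat 2 (cvalQ (ofQ I.lp).mat (List.ofFn I.lp.b))) = s := by
  set D := ofQ I.lp with hD
  have hm : D.mat.2.length = I.m := slim_length
  obtain ⟨z, hz⟩ := int_lsumQ (r := slr D.mat) (c := slc D.mat) (p := p)
    (int_tabQ (X := D.mat) (int_cvalQ h.rhs))
  have h1 : (z : ℝ) = lsum (slr D.mat) (slc D.mat) p
      (fun q => tab D.mat 2 (fun v => D.lval v (toReal I.v) + D.cval v) q) := by
    rw [(slim_lsum (D := D) h.units 2 (toReal I.v)).1 p hp]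
    have h2 : ((lsumQ (slr D.mat) (slc D.mat) p
        (tabQ D.mat 2 (cvalQ D.mat (List.ofFn I.lp.b))) : ℚ) : ℝ) = z := by
      rw [hz, Rat.cast_intCast]
    rw [← h2, cast_lsumQ]
    refine lsum_congr fun q _ => ?_
    rw [cast_tabQ, Rat.cast_ofNat]
    congr 1
    funext v
    exact cast_cvalQ I.lp v
  have hfe : toReal I.v ∈ D.feasible := I.vertex.1
  have hmap : (slimPIso h).map (toReal I.v) ∈ (ofQ (slimQLP I.lp)).feasible := by
    rw [(slimPIso h).feas']
    exact Set.mem_image_of_mem _ hfe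
  have h0 : ∀ q < 3 * (slr D.mat * slc D.mat),
      0 ≤ tab D.mat 2 (fun v => D.lval v (toReal I.v) + D.cval v) q := by
    intro q hq
    have h3 := hmap.2 ⟨q, hq⟩
    rw [slimPIso_apply] at h3
    exact h3
  have hw : ∀ v < I.n + I.m, 0 ≤ D.lval v (toReal I.v) + D.cval v := by
    intro v hv
    have h3 := h0 _ (slp0_lt (D := D) h.pos hv)
    rw [tab_slp0 h.pos _ _ hv] at h3
    exact h3
  have h2 : ∀ q < 3 * (slr D.mat * slc D.mat),
      tab D.mat 2 (fun v => D.lval v (toReal I.v) + D.cval v) q ≤ 2 := by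
    intro q hq
    have h3 := cV_lt D.mat hq
    rw [hm] at h3
    have h4 := hw _ h3
    have h5 := h.under _ hfe _ h3
    unfold tab
    split_ifs
    · exact h5.le
    · linarith
    · norm_num
  have hc : 3 ≤ slr D.mat + slc D.mat := by
    have h3 : 0 < slR D.mat := by
      unfold slR
      rw [hm]
      exact Nat.mul_pos (by have := h.pos; omega) h.pos
    have h4 := h.pos
    unfold slr slc
    omega
  have hle := lsum_le hc h2 p hp
  have hge := lsum_nonneg (p := p) h0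
  rw [← h1] at hle hge
  have hz0 : 0 ≤ z := by exact_mod_cast hge
  obtain ⟨s, rfl⟩ := Int.eq_ofNat_of_zero_le hz0
  refine ⟨s, ?_, ?_⟩
  · have h3 : ((s : ℤ) : ℝ) ≤ ((2 * (slr D.mat + slc D.mat) : ℕ) : ℝ) := by
      push_cast
      push_cast at hle
      exact hle
    exact_mod_cast h3
  · rw [hz]
    exact Int.cast_natCast _

theorem redS_tiny (I : {I : Input // OkS I}) : IsTiny (redS I) := by
  obtain ⟨I, h⟩ := I
  choose s hs1 hs2 using fun p : Fin (lines (slr (ofQ I.lp).mat) (slc (ofQ I.lp).mat)) =>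
    slim_small h p.2
  obtain ⟨e, he⟩ := h.cost
  have hlt : slp0 (ofQ I.lp).mat e < 3 * (slr (ofQ I.lp).mat * slc (ofQ I.lp).mat) :=
    slp0_lt h.pos (by have := e.2; omega)
  have h1 : slimQLP I.lp = transportQ (slr (ofQ I.lp).mat) (slc (ofQ I.lp).mat)
      (fun p => (s p : ℚ)) (fun q => if q = ⟨slp0 (ofQ I.lp).mat e, hlt⟩ then 1 else 0) := by
    unfold slimQLP
    congr 1
    · funext p
      exact hs2 p
    · funext q
      rw [Finset.sum_eq_single e]
      · rw [he e, if_pos rfl]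
        simp only [Fin.ext_iff]
      · intro j _ hj
        rw [he j, if_neg hj, ite_self]
      · intro h2
        exact absurd (Finset.mem_univ _) h2
  exact ⟨_, _, s, ⟨_, hlt⟩, slimV I.lp I.v, h1 ▸ (redS ⟨I, h⟩).vertex, hs1, sq_input h1 _ _⟩

/-- the way back -/
def backS (I : Input) (w : Fin (3 * (slr (ofQ I.lp).mat * slc (ofQ I.lp).mat)) → ℚ)
    (j : Fin I.n) : ℚ :=
  if h : slp0 (ofQ I.lp).mat j < 3 * (slr (ofQ I.lp).mat * slc (ofQ I.lp).mat) then
    w ⟨slp0 (ofQ I.lp).mat j, h⟩ else 0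

theorem backS_map {I : Input} (h : OkS I) (x : Fin I.n → ℝ)
    (w : Fin (3 * (slr (ofQ I.lp).mat * slc (ofQ I.lp).mat)) → ℚ)
    (hw : toReal w = (slimPIso h).map x) : toReal (backS I w) = x := by
  funext j
  have hj : (j : ℕ) < I.n + I.m := by omega
  have hlt : slp0 (ofQ I.lp).mat j < 3 * (slr (ofQ I.lp).mat * slc (ofQ I.lp).mat) :=
    slp0_lt h.pos hj
  have h1 := congrFun hw ⟨slp0 (ofQ I.lp).mat j, hlt⟩
  rw [slimPIso_apply] at h1
  dsimp only at h1
  rw [tab_slp0 h.pos _ _ hj, lval_lt] at h1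
  unfold toReal backS
  rw [dif_pos hlt]
  exact h1

end Pool.Agent.Simplex.EB
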