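import Pool.Agent.Lib.MP_4d246d_lc.EB.HomUnder
import Pool.Agent.Lib.MP_4d246d_lc.EB.SlimQLP

/-!
# The reduction of transportation programs to tables with small line sums
-/

namespace Pool.Agent.Simplex.EB

open Pool.Agent.Lib.PolyTime Pool.Agent.Simplex.QP

section

variable {m n m' n' m'' n'' : ℕ} {D : RLP m n} {D' : RLP m' n'} {D'' : RLP m'' n''}

/-- from a linear isomorphism -/
def PIso.ofIso (e : Iso D D') : PIso D D' where
  L := e.φ
  a := 0
  inj := e.inj
  feas := by
    rw [e.feas]
    refine Set.image_congr' fun x => ?_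
    rw [add_zero]
  κ := 1
  pos := one_pos
  β := 0
  obj x := by rw [add_zero, e.obj, one_mul, add_zero]

theorem PIso.ofIso_map (e : Iso D D') (x : Fin n → ℝ) : (PIso.ofIso e).map x = e.φ x := by
  show e.φ x + 0 = e.φ x
  rw [add_zero]

/-- equal programs -/
def PIso.cast {D₁ D₂ : RLP m' n'} (h : D₁ = D₂) (e : PIso D D₁) : PIso D D₂ := h ▸ e

theorem PIso.cast_map {D₁ D₂ : RLP m' n'} (h : D₁ = D₂) (e : PIso D D₁) (x : Fin n → ℝ) :
    (PIso.cast h e).map x = e.map x := by
  subst h
  rfl

theorem PIso.trans_map (e : PIso D D') (e' : PIso D' D'') (x : Fin n → ℝ) :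
    (e.trans e').map x = e'.map (e.map x) := by
  show e'.L (e.L x) + (e'.L e.a + e'.a) = e'.L (e.L x + e.a) + e'.a
  rw [map_add, add_assoc]

end

/-- the homogenised input -/
def redH (I : {I : Input // IsTransport I}) : Input :=
  ⟨_, _, hom (kOf I.1) I.1.lp, homV (kOf I.1) I.1.lp I.1.v, by
    rw [← homIso_map (omega_ok I.2), ← ofQ_vertex]
    exact (homIso (omega_ok I.2)).vertex.2 I.1.vertex⟩

theorem okS_red (I : {I : Input // IsTransport I}) : OkS (redI (redH I)) where
  units := (redI_sparse (redH I)).1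
  pos := by
    show 0 < I.1.m + 4 + _
    omega
  under := hom_under I.2
  rhs := hom_rhs _ _
  cost := ⟨⟨I.1.n + 1, by
    show I.1.n + 1 < I.1.n + 2 + _
    omega⟩, fun j => by
      have h := hom_obj (kOf I.1) I.1.lp j
      refine h.trans ?_
      by_cases h3 : (j : ℕ) = I.1.n + 1
      · rw [if_pos h3, if_pos (Fin.ext h3)]
      · rw [if_neg h3, if_neg (fun h4 => h3 (congrArg Fin.val h4))]⟩

/-- the table input -/
def redT (I : {I : Input // IsTransport I}) : Input := redS ⟨redI (redH I), okS_red I⟩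

theorem redT_tiny (I : {I : Input // IsTransport I}) : IsTiny (redT I) := redS_tiny _

theorem lt_dim (I : {I : Input // IsTransport I}) (j : Fin I.1.n) :
    (j : ℕ) < (redI (redH I)).n := by
  show (j : ℕ) < I.1.n + 2 + _
  omega

/-- the way back: the first entries of the sparse vector, divided by `τ` -/
def backT (I : {I : Input // IsTransport I}) (w : Fin (redT I).n → ℚ) (j : Fin I.1.n) : ℚ :=
  2 ^ kOf I.1 * backS (redI (redH I)) w ⟨j, lt_dim I j⟩

/-- the isomorphism with the homogenised program -/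
noncomputable def isoH (I : {I : Input // IsTransport I}) :
    PIso (ofQ I.1.lp) (ofQ (redH I).lp) := homIso (omega_ok I.2)

theorem isoH_v (I : {I : Input // IsTransport I}) :
    (isoH I).map (toReal I.1.v) = toReal (redH I).v := homIso_map (omega_ok I.2) I.1.v

theorem isoH_lt (I : {I : Input // IsTransport I}) (x : Fin I.1.n → ℝ) (j : Fin I.1.n)
    (h : (j : ℕ) < (redH I).n) : (isoH I).map x ⟨j, h⟩ = x j / 2 ^ kOf I.1 := by
  show (if h : (j : ℕ) < I.1.n then x ⟨j, h⟩ / 2 ^ kOf I.1
    else if (j : ℕ) = I.1.n then 0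
      else (∑ j, (intC I.1.lp.c j : ℝ) * x j) / 2 ^ kOf I.1) +
    (if (j : ℕ) < I.1.n then 0 else if (j : ℕ) = I.1.n then 1 / 2 ^ kOf I.1 else 1) = _
  rw [dif_pos j.2, if_pos j.2, add_zero]

/-- the isomorphism with the sparse program -/
noncomputable def isoI (I : Input) : PIso (ofQ I.lp) (ofQ (redI I).lp) :=
  PIso.cast (ofQ_spQLP I.lp).symm (PIso.ofIso (spIso (ofQ I.lp)))

theorem isoI_map (I : Input) (x : Fin I.n → ℝ) : (isoI I).map x = (spIso (ofQ I.lp)).φ x :=
  (PIso.cast_map (ofQ_spQLP I.lp).symm (PIso.ofIso (spIso (ofQ I.lp))) x).trans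
    (PIso.ofIso_map _ _)

theorem isoI_v (I : Input) : (isoI I).map (toReal I.v) = toReal (redI I).v :=
  (isoI_map I _).trans (toReal_spVals I.lp I.v).symm

/-- the isomorphism with the table program -/
noncomputable def isoS (I : {I : Input // IsTransport I}) :
    PIso (ofQ (redI (redH I)).lp) (ofQ (redT I).lp) := slimPIso (okS_red I)

theorem isoS_v (I : {I : Input // IsTransport I}) :
    (isoS I).map (toReal (redI (redH I)).v) = toReal (redT I).v :=
  slimPIso_map (okS_red I) (redI (redH I)).v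

/-- the whole isomorphism -/
noncomputable def isoT (I : {I : Input // IsTransport I}) :
    PIso (ofQ I.1.lp) (ofQ (redT I).lp) :=
  ((isoH I).trans (isoI (redH I))).trans (isoS I)

theorem isoT_map (I : {I : Input // IsTransport I}) (x : Fin I.1.n → ℝ) :
    (isoT I).map x = (isoS I).map ((isoI (redH I)).map ((isoH I).map x)) := by
  unfold isoT
  rw [PIso.trans_map, PIso.trans_map]

theorem redT_v (I : {I : Input // IsTransport I}) :
    toReal (redT I).v = (isoT I).map (toReal I.1.v) := by
  rw [isoT_map, isoH_v, isoI_v, isoS_v]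

theorem backT_map (I : {I : Input // IsTransport I}) (x : Fin I.1.n → ℝ)
    (w : Fin (redT I).n → ℚ) (hw : toReal w = (isoT I).map x) : toReal (backT I w) = x := by
  rw [isoT_map] at hw
  have h1 : toReal (backS (redI (redH I)) w) = (isoI (redH I)).map ((isoH I).map x) :=
    backS_map (okS_red I) _ w hw
  rw [isoI_map] at h1
  funext j
  have h2 := congrFun h1 ⟨j, lt_dim I j⟩
  have h3 : (spIso (ofQ (redH I).lp)).φ ((isoH I).map x) ⟨j, lt_dim I j⟩ =
      x j / 2 ^ kOf I.1 := by
    have hj : (j : ℕ) < (redH I).n := by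
      show (j : ℕ) < I.1.n + 2
      omega
    have h4 := spIso_castLE (ofQ (redH I).lp) ((isoH I).map x) ⟨j, hj⟩
    exact h4.trans (isoH_lt I x j hj)
  have h5 : toReal (backT I w) j =
      2 ^ kOf I.1 * toReal (backS (redI (redH I)) w) ⟨j, lt_dim I j⟩ := by
    show ((2 ^ kOf I.1 * backS (redI (redH I)) w ⟨j, lt_dim I j⟩ : ℚ) : ℝ) = _
    push_cast
    rfl
  have h7 := h2.trans h3
  rw [h5, h7]
  have h6 : (2 : ℝ) ^ kOf I.1 ≠ 0 := by positivity
  field_simp

/-- runs are carried back -/
theorem run_of_redT {I : {I : Input // IsTransport I}} {N : ℕ} {x : ℕ → Fin (redT I).n → ℚ}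
    {s : Verdict} (h : SimplexRun (redT I) N x s) :
    SimplexRun I.1 N (fun t => backT I (x t)) s :=
  run_of_piso (isoT I) (redT_v I) (backT_map I) h

end Pool.Agent.Simplex.EB
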