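import Pool.Agent.Lib.MP_4d246d_lc.EB.AxQ
import Pool.Agent.Lib.MP_4d246d_lc.EB.OneDef

/-!
# The sparse form of the homogenised transportation program is a system of literals
-/

open Finset

namespace Pool.Agent.Simplex.EB.Tab.Ax

open Pool.Agent.Lib.PolyTime Pool.Agent.Simplex.QP

theorem ah_getD {α : Type*} {k : ℕ} (f : Fin k → α) (d : α) {i : ℕ} (h : i < k) :
    (List.ofFn f).getD i d = f ⟨i, h⟩ := by
  rw [List.getD_eq_getElem _ _ (by rw [List.length_ofFn]; exact h), List.getElem_ofFn]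

theorem ah_count {n : ℕ} (f : Fin n → ℚ) (p : ℚ → Bool) :
    ((List.ofFn f).filter p).length = (univ.filter fun j => p (f j) = true).card := by
  induction n with
  | zero => simp
  | succ n ih =>
    rw [List.ofFn_succ, List.filter_cons, Fin.card_filter_univ_succ]
    by_cases h : p (f 0) = true
    · rw [if_pos h, if_pos h, List.length_cons, ih]
    · rw [if_neg h, if_neg h, ih]

section

variable {m n : ℕ} (D : QLP m n) {s : ℕ} (hs : s < m)

theorem ah_cof (v : ℕ) : cof (nmat D) s v =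
    (nrow (D.b ⟨s, hs⟩) (List.ofFn (D.A ⟨s, hs⟩))).getD v 0 := by
  show ((List.ofFn fun i => nrow (D.b i) (List.ofFn (D.A i))).getD s []).getD v 0 = _
  rw [ah_getD _ _ hs]

include hs

theorem ah_cof_keep (hb : D.b ⟨s, hs⟩ = 0)
    (hc : (univ.filter fun j => D.A ⟨s, hs⟩ j = -1).card = 1) {v : ℕ} (hv : v < n) :
    cof (nmat D) s v = D.A ⟨s, hs⟩ ⟨v, hv⟩ := by
  rw [ah_cof D hs]
  unfold nrow
  rw [if_pos]
  · exact ah_getD _ _ hv
  · refine ⟨hb, ?_⟩
    rw [ah_count]
    simpa using hc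

theorem ah_getD_map {g : ℚ → ℚ} (a : Fin n → ℚ) {v : ℕ} (hv : v < n) :
    ((List.ofFn a).map g).getD v 0 = g (a ⟨v, hv⟩) := by
  have _ := hs
  rw [List.map_ofFn, ah_getD _ _ hv]
  rfl

theorem ah_cof_abs (hb : D.b ⟨s, hs⟩ = -1) {v : ℕ} (hv : v < n) :
    cof (nmat D) s v = if D.A ⟨s, hs⟩ ⟨v, hv⟩ = 0 then 0 else 1 := by
  rw [ah_cof D hs]
  unfold nrow
  rw [if_neg, if_pos hb, ah_getD_map hs _ hv]
  rintro ⟨h1, -⟩
  rw [h1] at hb
  norm_num at hb

theorem ah_cof_drop (h1 : ¬ (D.b ⟨s, hs⟩ = 0 ∧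
    (univ.filter fun j => D.A ⟨s, hs⟩ j = -1).card = 1)) (h2 : D.b ⟨s, hs⟩ ≠ -1) {v : ℕ}
    (hv : v < n) : cof (nmat D) s v = 0 := by
  rw [ah_cof D hs]
  unfold nrow
  rw [if_neg, if_neg h2, ah_getD_map hs _ hv]
  rintro ⟨h3, h4⟩
  refine h1 ⟨h3, ?_⟩
  rw [ah_count] at h4
  simpa using h4

end

/-- sums of literals -/
theorem ah_lit {N : ℕ} {a : Fin N → ℚ} (ha : ∀ j, a j = 0 ∨ a j = 1 ∨ a j = -1)
    (x : Fin N → ℝ) : ∑ j, lit (a j) (x j) =
      ∑ j, (a j : ℝ) * x j + ((univ.filter fun j => a j = -1).card : ℝ) := by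
  rw [Finset.card_filter]
  push_cast
  rw [← Finset.sum_add_distrib]
  refine Finset.sum_congr rfl fun j _ => ?_
  unfold lit
  rcases ha j with h | h | h
  · rw [h]
    norm_num
  · rw [h]
    norm_num
  · rw [h]
    norm_num
    ring

section

variable {m n : ℕ} (D : QLP m n) {s : ℕ} (hs : s < m)

theorem ah_keep_sum (hU : Units D.A) (hb : D.b ⟨s, hs⟩ = 0)
    (hc : (univ.filter fun j => D.A ⟨s, hs⟩ j = -1).card = 1) (x : Fin n → ℝ) :
    ∑ v ∈ range (nmat D).1, lit (cof (nmat D) s v) (vfun x v) =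
      ∑ j, (D.A ⟨s, hs⟩ j : ℝ) * x j + 1 := by
  show ∑ v ∈ range n, lit (cof (nmat D) s v) (vfun x v) = _
  rw [Finset.sum_range]
  have h1 : ∀ j : Fin n, lit (cof (nmat D) s j) (vfun x j) = lit (D.A ⟨s, hs⟩ j) (x j) := by
    intro j
    rw [ah_cof_keep D hs hb hc j.2]
    unfold vfun
    rw [dif_pos j.2]
  rw [Finset.sum_congr rfl fun j _ => h1 j, ah_lit (hU _), hc, Nat.cast_one]

theorem ah_abs_sum (hU : Units D.A) (hb : D.b ⟨s, hs⟩ = -1) (x : Fin n → ℝ) :
    ∑ v ∈ range (nmat D).1, lit (cof (nmat D) s v) (vfun x v) =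
      ∑ j, |(D.A ⟨s, hs⟩ j : ℝ)| * x j := by
  show ∑ v ∈ range n, lit (cof (nmat D) s v) (vfun x v) = _
  rw [Finset.sum_range]
  refine Finset.sum_congr rfl fun j _ => ?_
  have h2 : vfun x j = x j := by
    unfold vfun
    rw [dif_pos j.2]
  rw [ah_cof_abs D hs hb j.2, h2]
  unfold lit
  rcases hU ⟨s, hs⟩ j with h | h | h
  · rw [show (⟨(j : ℕ), j.2⟩ : Fin n) = j from rfl, h]
    norm_num
  · rw [show (⟨(j : ℕ), j.2⟩ : Fin n) = j from rfl, h]
    norm_num
  · rw [show (⟨(j : ℕ), j.2⟩ : Fin n) = j from rfl, h]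
    norm_num

end

/-! ### The sparse form -/

section

variable {m n : ℕ} (D : QLP m n)

theorem ah_units : Units (spQLP D).A := by
  have h := sp_sparse (ofQ D)
  rw [← ofQ_spQLP] at h
  exact h.1

/-- the entry `-1` of an old row -/
theorem ah_old_count {i : Fin (m + (spT (ofQ D).mat + spT (ofQ D).mat))} (hi : (i : ℕ) < m) :
    (univ.filter fun j => (spQLP D).A i j = -1).card = 1 := by
  have hpq := spPQ_ok (ofQ D) ⟨i, hi⟩
  rw [Finset.card_eq_one]
  refine ⟨⟨spQ (ofQ D).mat i, hpq.2.1⟩, ?_⟩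
  ext j
  rw [Finset.mem_filter, Finset.mem_singleton]
  have hA : (spQLP D).A i j = (if (j : ℕ) = spP (ofQ D).mat i then 1 else 0) -
      (if (j : ℕ) = spQ (ofQ D).mat i then 1 else 0) := by
    show ent m n _ _ _ _ i j = _
    unfold ent
    rw [if_pos hi]
  rw [hA]
  have hne : spP (ofQ D).mat i ≠ spQ (ofQ D).mat i := hpq.2.2.1
  constructor
  · rintro ⟨-, h⟩
    apply Fin.ext
    by_contra hc
    change ¬ (j : ℕ) = spQ (ofQ D).mat i at hc
    rw [if_neg hc] at h
    split_ifs at h <;> norm_num at h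
  · intro h
    refine ⟨Finset.mem_univ _, ?_⟩
    have h1 : (j : ℕ) = spQ (ofQ D).mat i := by rw [h]
    rw [if_neg (by rw [h1]; exact hne.symm), if_pos h1]
    norm_num

/-- the entry `-1` of a definition row of the second kind -/
theorem ah_def_count {t : ℕ} (ht : t < spT (ofQ D).mat)
    {i : Fin (m + (spT (ofQ D).mat + spT (ofQ D).mat))}
    (hi : (i : ℕ) = m + spT (ofQ D).mat + t) :
    (univ.filter fun j => (spQLP D).A i j = -1).card = 1 := by
  have hins := spIns_ok (ofQ D).mat t ht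
  have hlt : ∀ a ∈ spIns (ofQ D).mat t, a < n + t := hins.2.1
  rw [Finset.card_eq_one]
  refine ⟨⟨n + t, by omega⟩, ?_⟩
  ext j
  rw [Finset.mem_filter, Finset.mem_singleton]
  have hA : (spQLP D).A i j = (if (j : ℕ) ∈ spIns (ofQ D).mat t then 1 else 0) -
      (if (j : ℕ) = n + t then 1 else 0) := by
    show ent m n _ _ _ _ i j = _
    unfold ent
    rw [if_neg (by omega), if_neg (by omega),
      show (i : ℕ) - m - spT (ofQ D).mat = t by omega]
  rw [hA]
  constructor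
  · rintro ⟨-, h⟩
    apply Fin.ext
    by_contra hc
    change ¬ (j : ℕ) = n + t at hc
    rw [if_neg hc] at h
    split_ifs at h <;> norm_num at h
  · intro h
    refine ⟨Finset.mem_univ _, ?_⟩
    have h1 : (j : ℕ) = n + t := by rw [h]
    rw [if_neg (by rw [h1]; exact fun h2 => absurd (hlt _ h2) (lt_irrefl _)), if_pos h1]
    norm_num

theorem ah_b {i : Fin (m + (spT (ofQ D).mat + spT (ofQ D).mat))} (hi : ¬ (i : ℕ) < m) :
    (spQLP D).b i = 0 := dif_neg hi

/-- the rows as sums -/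
theorem ah_sum (x : Fin (n + spT (ofQ D).mat) → ℝ)
    (i : Fin (m + (spT (ofQ D).mat + spT (ofQ D).mat))) :
    ∑ j, ((spQLP D).A i j : ℝ) * x j = ∑ j : Fin (n + spT (ofQ D).mat),
      ((ent m n (spT (ofQ D).mat) (spIns (ofQ D).mat) (spP (ofQ D).mat)
        (spQ (ofQ D).mat) i j : ℚ) : ℝ) * vfun x j := by
  refine Finset.sum_congr rfl fun j _ => ?_
  unfold vfun
  rw [dif_pos j.2]
  rfl

/-- an old row -/
theorem ah_sum_old (x : Fin (n + spT (ofQ D).mat) → ℝ)
    {i : Fin (m + (spT (ofQ D).mat + spT (ofQ D).mat))} (hi : (i : ℕ) < m) :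
    ∑ j, ((spQLP D).A i j : ℝ) * x j =
      vfun x (spP (ofQ D).mat i) - vfun x (spQ (ofQ D).mat i) := by
  have hpq := spPQ_ok (ofQ D) ⟨i, hi⟩
  rw [ah_sum, row_old hi hpq.1 hpq.2.1]

theorem ah_abs_old (x : Fin (n + spT (ofQ D).mat) → ℝ)
    {i : Fin (m + (spT (ofQ D).mat + spT (ofQ D).mat))} (hi : (i : ℕ) < m) :
    ∑ j, |((spQLP D).A i j : ℝ)| * x j =
      vfun x (spP (ofQ D).mat i) + vfun x (spQ (ofQ D).mat i) := by
  have hpq := spPQ_ok (ofQ D) ⟨i, hi⟩
  have hp : spP (ofQ D).mat i < n + spT (ofQ D).mat := hpq.1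
  have hq : spQ (ofQ D).mat i < n + spT (ofQ D).mat := hpq.2.1
  have hne : spP (ofQ D).mat i ≠ spQ (ofQ D).mat i := hpq.2.2.1
  rw [← sum_one hp (vfun x), ← sum_one hq (vfun x), ← Finset.sum_add_distrib]
  refine Finset.sum_congr rfl fun j _ => ?_
  have hA : (spQLP D).A i j = (if (j : ℕ) = spP (ofQ D).mat i then 1 else 0) -
      (if (j : ℕ) = spQ (ofQ D).mat i then 1 else 0) := by
    show ent m n _ _ _ _ i j = _
    unfold ent
    rw [if_pos hi]
  have hv : vfun x j = x j := by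
    unfold vfun
    rw [dif_pos j.2]
  rw [hA, hv]
  by_cases h1 : (j : ℕ) = spP (ofQ D).mat i
  · have h2 : ¬ (j : ℕ) = spQ (ofQ D).mat i := by
      rw [h1]
      exact hne
    rw [if_pos h1, if_neg h2, if_pos h1, if_neg h2]
    norm_num
  · rw [if_neg h1, if_neg h1]
    split_ifs <;> norm_num

/-- **The system of literals.** -/
theorem ah_sys (hb : ∀ i, (spQLP D).b i = 0 ∨ (spQLP D).b i = 1 ∨ (spQLP D).b i = -1)
    (heq : Eqs (ofQ (spQLP D))) (hle : ∀ x ∈ (ofQ (spQLP D)).feasible, ∀ j, x j ≤ 1)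
    (hneg : ∀ i, D.b i < 0 → ∀ j, D.A i j ≤ 0) :
    (ofQ (spQLP D)).feasible = {x : Fin (n + spT (ofQ D).mat) → ℝ |
      (∀ j, 0 ≤ x j ∧ x j ≤ 1) ∧ Sys (nmat (spQLP D)) (vfun x)} := by
  have hins : OkI n (spT (ofQ D).mat) (spIns (ofQ D).mat) := spIns_ok (ofQ D).mat
  have hM : (nmat (spQLP D)).2.length = m + (spT (ofQ D).mat + spT (ofQ D).mat) :=
    List.length_ofFn
  have hvx : ∀ (x : Fin (n + spT (ofQ D).mat) → ℝ), (∀ j, 0 ≤ x j ∧ x j ≤ 1) →
      ∀ v, 0 ≤ vfun x v ∧ vfun x v ≤ 1 := by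
    intro x hx v
    unfold vfun
    split_ifs with h
    · exact hx _
    · exact ⟨le_rfl, zero_le_one⟩
  apply Set.Subset.antisymm
  · intro x hx
    have h01 : ∀ j, 0 ≤ x j ∧ x j ≤ 1 := fun j => ⟨hx.2 j, hle x hx j⟩
    refine ⟨h01, ?_⟩
    intro s hs hz
    rw [hM] at hs
    have he : ∑ j, ((spQLP D).A ⟨s, hs⟩ j : ℝ) * x j = (((spQLP D).b ⟨s, hs⟩ : ℚ) : ℝ) :=
      heq x hx ⟨s, hs⟩
    by_cases h1 : (spQLP D).b ⟨s, hs⟩ = 0 ∧
        (univ.filter fun j => (spQLP D).A ⟨s, hs⟩ j = -1).card = 1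
    · rw [ah_keep_sum _ hs (ah_units D) h1.1 h1.2, he, h1.1, Rat.cast_zero, zero_add]
    by_cases h2 : (spQLP D).b ⟨s, hs⟩ = -1
    · have hsm : s < m := by
        by_contra hc
        rw [ah_b D (i := ⟨s, hs⟩) hc] at h2
        norm_num at h2
      rw [ah_abs_sum _ hs (ah_units D) h2, ah_abs_old D x (i := ⟨s, hs⟩) hsm]
      rw [ah_sum_old D x (i := ⟨s, hs⟩) hsm, h2] at he
      push_cast at he
      have h3 := hvx x h01 (spP (ofQ D).mat s)
      have h4 := hvx x h01 (spQ (ofQ D).mat s)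
      dsimp only at he ⊢
      linarith [h3.1, h4.2]
    · exact absurd (fun v hv => ah_cof_drop _ hs h1 h2 hv) hz
  · rintro x ⟨h01, hsys⟩
    have hw := hvx x h01
    have hN : ∀ j : Fin (n + spT (ofQ D).mat), vfun x j = x j := fun j => by
      unfold vfun
      rw [dif_pos j.2]
    -- a row that is kept
    have hkeep : ∀ s (hs : s < m + (spT (ofQ D).mat + spT (ofQ D).mat)),
        (spQLP D).b ⟨s, hs⟩ = 0 →
        (univ.filter fun j => (spQLP D).A ⟨s, hs⟩ j = -1).card = 1 →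
        ∑ j, ((spQLP D).A ⟨s, hs⟩ j : ℝ) * x j = 0 := by
      intro s hs h1 h2
      have hz : ¬ ZeroRow (nmat (spQLP D)) s := by
        intro hz
        obtain ⟨j, hj⟩ := Finset.card_pos.1 (by rw [h2]; exact one_pos :
          0 < (univ.filter fun j => (spQLP D).A ⟨s, hs⟩ j = -1).card)
        rw [Finset.mem_filter] at hj
        have h3 := hz j j.2
        rw [ah_cof_keep _ hs h1 h2 j.2] at h3
        have h4 : (spQLP D).A ⟨s, hs⟩ j = 0 := h3
        rw [hj.2] at h4
        norm_num at h4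
      have h3 := hsys s (by rw [hM]; exact hs) hz
      rw [ah_keep_sum _ hs (ah_units D) h1 h2] at h3
      linarith
    -- the definitions
    have hdef : ∀ t < spT (ofQ D).mat,
        vfun x (n + t) = ((spIns (ofQ D).mat t).map (vfun x)).sum := by
      intro t ht
      have hs : m + spT (ofQ D).mat + t < m + (spT (ofQ D).mat + spT (ofQ D).mat) := by omega
      have h1 := hkeep _ hs (ah_b D (by dsimp only; omega)) (ah_def_count D ht rfl)
      rw [ah_sum, row_ge hins ht] at h1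
      linarith
    refine ⟨fun i => ?_, fun j => (h01 j).1⟩
    show ∑ j, ((spQLP D).A i j : ℝ) * x j ≤ (((spQLP D).b i : ℚ) : ℝ)
    by_cases hi : (i : ℕ) < m
    · rcases hb i with h | h | h
      · rw [hkeep i i.2 h (ah_old_count D hi), h, Rat.cast_zero]
      · rw [ah_sum_old D x hi, h, Rat.cast_one]
        linarith [(hw (spP (ofQ D).mat i)).2, (hw (spQ (ofQ D).mat i)).1]
      · -- the positive part vanishes
        have hlen : (ofQ D).mat.2.length = m := mat_len _
        have hBi : ((denZ (List.ofFn (D.A ⟨i, hi⟩)) : ℤ) : ℚ) * D.b ⟨i, hi⟩ = -1 := by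
          have h1 : (spQLP D).b i =
              ((denZ (List.ofFn (D.A ⟨i, hi⟩)) : ℤ) : ℚ) * D.b ⟨i, hi⟩ := dif_pos hi
          rw [← h1, h]
        have hd0 : (0 : ℚ) < ((denZ (List.ofFn (D.A ⟨i, hi⟩)) : ℤ) : ℚ) := by
          exact_mod_cast denZ_pos _
        have hbneg : D.b ⟨i, hi⟩ < 0 := by
          by_contra hc
          have := mul_nonneg hd0.le (not_lt.1 hc)
          rw [hBi] at this
          norm_num at this
        have hp := block_value (ofQ D).mat (r := 2 * (i : ℕ)) (by rw [hlen]; omega)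
          (w := vfun x) hdef
        have g1 : 2 * (i : ℕ) % 2 = 0 := by omega
        have g2 : 2 * (i : ℕ) / 2 = i := by omega
        rw [g1, g2] at hp
        have hp0 : vfun x (spP (ofQ D).mat i) = 0 := by
          refine hp.trans (Finset.sum_eq_zero fun j hj => ?_)
          have hj' : j < n := Finset.mem_range.1 hj
          have h1 := hu_getD_irow (ofQ D) ⟨i, hi⟩ ⟨j, hj'⟩
          have h2 : (((irow (ofQ D).mat i).getD j 0 : ℤ) : ℝ) ≤ 0 := by
            have h3 : (((irow (ofQ D).mat i).getD j 0 : ℤ) : ℝ) =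
                ((denZ (List.ofFn (D.A ⟨i, hi⟩)) : ℤ) : ℝ) *
                  ((D.A ⟨i, hi⟩ ⟨j, hj'⟩ : ℚ) : ℝ) := h1
            rw [h3]
            refine mul_nonpos_of_nonneg_of_nonpos (by exact_mod_cast hd0.le) ?_
            exact_mod_cast hneg _ hbneg ⟨j, hj'⟩
          have h3 : (irow (ofQ D).mat i).getD j 0 ≤ 0 := by exact_mod_cast h2
          unfold part
          rw [if_pos rfl, max_eq_right h3, Int.cast_zero, zero_mul]
        have hz : ¬ ZeroRow (nmat (spQLP D)) i := by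
          intro hz
          obtain ⟨j, hj⟩ := Finset.card_pos.1 (by rw [ah_old_count D hi]; exact one_pos :
            0 < (univ.filter fun j => (spQLP D).A i j = -1).card)
          rw [Finset.mem_filter] at hj
          have h3 := hz j j.2
          rw [ah_cof_abs _ i.2 h j.2] at h3
          have h5 : (if (spQLP D).A i j = 0 then (0 : ℚ) else 1) = 0 := h3
          rw [hj.2] at h5
          norm_num at h5
        have h3 := hsys i (by rw [hM]; exact i.2) hz
        rw [ah_abs_sum _ i.2 (ah_units D) h] at h3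
        have h4 := ah_abs_old D x hi
        have h5 := h4.symm.trans h3
        rw [hp0, zero_add] at h5
        rw [ah_sum_old D x hi, hp0, h5, h]
        push_cast
        linarith
    · rw [ah_b D hi, Rat.cast_zero, ah_sum]
      have hi3 := i.2
      by_cases hi2 : (i : ℕ) < m + spT (ofQ D).mat
      · obtain ⟨t, ht⟩ := Nat.exists_eq_add_of_le (not_lt.1 hi)
        rw [ht, row_le hins (by omega), hdef t (by omega), sub_self]
      · obtain ⟨t, ht⟩ := Nat.exists_eq_add_of_le (not_lt.1 hi2)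
        rw [ht, row_ge hins (by omega), hdef t (by omega), sub_self]

end

/-- Rows of the sparse form: (1) `w_p - w_q ≤ b` (`p ≠ q`) with `b = 0` (kept: `w_p` and
`1 - w_q`), `b = 1` (dropped, follows from `0 ≤ w ≤ 1`), `b = -1` (absolute values:
`w_p + w_q = 1`; as `w_p = 0` by the definitions, `w_q = 1`); (2) `w_t - ∑ ins ≤ 0` (dropped if
`ins` has two or no elements, kept, as an equation, if it has one); (3) `∑ ins - w_t ≤ 0` (always
kept: literals of `ins` and `1 - w_t`). -/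
theorem hom_sys (I : {I : Input // IsTransport I}) :
    (ofQ (redI (redH I)).lp).feasible =
      {x : Fin (redI (redH I)).n → ℝ |
        (∀ j, 0 ≤ x j ∧ x j ≤ 1) ∧ Sys (nmat (redI (redH I)).lp) (vfun x)} := by
  refine ah_sys (hom (kOf I.1) I.1.lp) (hom_rhs _ _) (hom_eqs I.2) (hom_le I.2) ?_
  intro i hi j
  rcases ho_hom_row (kOf I.1) I.1.lp i with ⟨i', h1, h2⟩ | ⟨h1, h2⟩ | ⟨h1, h2⟩ | ⟨h1, h2⟩ |
    ⟨h1, h2⟩
  · rw [h2] at hi
    exact absurd hi (lt_irrefl _)
  · rw [h2] at hi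
    norm_num at hi
  · rw [h1]
    unfold homRow
    split_ifs
    · exact le_rfl
    · have : (0 : ℚ) ≤ 2 ^ (kOf I.1 + 1) := by positivity
      linarith
    · exact le_rfl
  · rw [h2] at hi
    exact absurd hi (lt_irrefl _)
  · rw [h2] at hi
    exact absurd hi (lt_irrefl _)

theorem okA_red (I : {I : Input // IsTransport I}) : OkA (redI (redH I)) where
  units := (redI_sparse (redH I)).1
  two := by
    have h1 : (redI (redH I)).m = I.1.m + 4 + (spT (ofQ (redH I).lp).mat +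
      spT (ofQ (redH I).lp).mat) := rfl
    rw [h1]
    omega
  cost := (okT_red I).cost
  sys := hom_sys I

end Pool.Agent.Simplex.EB.Tab.Ax
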