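import Pool.Agent.Lib.MP_4d246d_lc.EB.AxSum

/-!
# Arrays with slice sums one on the used places come from the variables
-/

open Finset

namespace Pool.Agent.Simplex.EB.Tab.Ax

open Pool.Agent.Lib.PolyTime Pool.Agent.Simplex.QP

variable {X : Mat}

/-- An array that is zero at the unused places is given by its values at the places of the cells
and on the diagonal. -/
theorem eq_cells (hM : 2 ≤ X.2.length) {z : ℕ → ℝ}
    (h0 : ∀ q < axN X * (axN X * axN X), ¬ Supp X q → z q = 0) :
    ∀ q < axN X * (axN X * axN X), z q =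
      (∑ ρ ∈ range 3, ∑ e ∈ range (2 * slR X), if q = pos X ρ e then z (pos X ρ e) else 0) +
        ∑ a ∈ range (X.2.length + 2 * slR X), if q = dpos X a then z (dpos X a) else 0 := by
  intro q hq
  by_cases hA : ∃ ρ < 3, ∃ e < 2 * slR X, q = pos X ρ e
  · obtain ⟨ρ, hρ, e, he, rfl⟩ := hA
    have h1 : ∑ a ∈ range (X.2.length + 2 * slR X),
        (if pos X ρ e = dpos X a then z (dpos X a) else 0) = 0 := by
      refine Finset.sum_eq_zero fun a ha => if_neg ?_
      exact pos_ne_dpos hρ he (Finset.mem_range.1 ha)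
    have h2 : ∑ ρ' ∈ range 3, ∑ e' ∈ range (2 * slR X),
        (if pos X ρ e = pos X ρ' e' then z (pos X ρ' e') else 0) = z (pos X ρ e) := by
      rw [Finset.sum_eq_single ρ, Finset.sum_eq_single e, if_pos rfl]
      · intro e' he' hne
        exact if_neg fun h => hne (pos_inj hM hρ hρ he (Finset.mem_range.1 he') h).2.symm
      · intro h
        exact absurd (Finset.mem_range.2 he) h
      · intro ρ' hρ' hne
        refine Finset.sum_eq_zero fun e' he' => if_neg fun h => hne ?_
        exact (pos_inj hM hρ (Finset.mem_range.1 hρ') he (Finset.mem_range.1 he') h).1.symm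
      · intro h
        exact absurd (Finset.mem_range.2 hρ) h
    rw [h1, h2, add_zero]
  by_cases hB : ∃ a < X.2.length + 2 * slR X, q = dpos X a
  · obtain ⟨a, ha, rfl⟩ := hB
    have h1 : ∑ a' ∈ range (X.2.length + 2 * slR X),
        (if dpos X a = dpos X a' then z (dpos X a') else 0) = z (dpos X a) := by
      rw [Finset.sum_eq_single a, if_pos rfl]
      · intro a' ha' hne
        exact if_neg fun h => hne (dpos_inj ha (Finset.mem_range.1 ha') h).symm
      · intro h
        exact absurd (Finset.mem_range.2 ha) h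
    have h2 : ∑ ρ' ∈ range 3, ∑ e' ∈ range (2 * slR X),
        (if dpos X a = pos X ρ' e' then z (pos X ρ' e') else 0) = 0 := by
      refine Finset.sum_eq_zero fun ρ' hρ' => Finset.sum_eq_zero fun e' he' => if_neg fun h => ?_
      exact pos_ne_dpos (Finset.mem_range.1 hρ') (Finset.mem_range.1 he') ha h.symm
    rw [h1, h2, zero_add]
  · have h1 : ∑ a' ∈ range (X.2.length + 2 * slR X),
        (if q = dpos X a' then z (dpos X a') else 0) = 0 :=
      Finset.sum_eq_zero fun a' ha' => if_neg fun h => hB ⟨a', Finset.mem_range.1 ha', h⟩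
    have h2 : ∑ ρ' ∈ range 3, ∑ e' ∈ range (2 * slR X),
        (if q = pos X ρ' e' then z (pos X ρ' e') else 0) = 0 :=
      Finset.sum_eq_zero fun ρ' hρ' => Finset.sum_eq_zero fun e' he' => if_neg fun h =>
        hA ⟨ρ', Finset.mem_range.1 hρ', e', Finset.mem_range.1 he', h⟩
    rw [h1, h2, add_zero]
    refine h0 q hq ?_
    rintro (⟨ρ, hρ, e, he, h⟩ | ⟨a, ha, h, -⟩)
    · exact hA ⟨ρ, hρ, e, he, h⟩
    · exact hB ⟨a, ha, h⟩

/-- Chains: from the pair equations and the link equations. -/
theorem chain (hM : 2 ≤ X.2.length) {y : ℕ → ℝ}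
    (h1 : ∀ p < slR X, y (2 * p) + y (2 * p + 1) = 1)
    (h2 : ∀ j < slR X, y (2 * j + 1) + y (2 * nxt X j) = 1) :
    ∃ w : ℕ → ℝ, ∀ e < 2 * slR X, y e = yv X w e := by
  have hm : 0 < X.2.length := by omega
  have key : ∀ v < X.1, ∀ t < X.2.length,
      y (2 * (v * X.2.length + t)) = y (2 * (v * X.2.length)) := by
    intro v hv t
    induction t with
    | zero =>
      intro _
      rw [Nat.add_zero]
    | succ t ih =>
      intro ht
      have ht' : t < X.2.length := by omega
      have hj := TabInv.pair_lt hv ht'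
      have hn : nxt X (v * X.2.length + t) = v * X.2.length + (t + 1) := by
        unfold nxt
        have e1 : (v * X.2.length + t) % X.2.length = t := by
          rw [Nat.mul_comm, Nat.mul_add_mod, Nat.mod_eq_of_lt ht']
        rw [TabInv.Flat.div_pair ht', e1, Nat.mod_eq_of_lt ht]
      have a1 := h1 _ hj
      have a2 := h2 _ hj
      rw [hn] at a2
      have a3 := ih ht'
      linarith
  refine ⟨fun v => y (2 * (v * X.2.length)), fun e he => ?_⟩
  have he' : e < slr X := he
  have hv := TabInv.cV_lt he'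
  have ht : cS X e < X.2.length := Nat.mod_lt _ hm
  have hp : e / 2 = cV X e * X.2.length + cS X e := by
    rw [Nat.mul_comm]
    exact (Nat.div_add_mod (e / 2) X.2.length).symm
  have a1 := key _ hv _ ht
  unfold yv
  dsimp only
  split_ifs with h3
  · rw [← a1, ← hp]
    congr 1
    omega
  · have a2 := h1 (e / 2) (TabInv.half_lt he')
    have a3 : 2 * (e / 2) + 1 = e := by omega
    rw [a3] at a2
    rw [← a1, ← hp]
    linarith

/-- the cells of a pair: one of them has the first number `M + e` -/
private theorem inv_free (p : ℕ) :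
    num0 X (2 * p) = X.2.length + 2 * p ∨ num0 X (2 * p + 1) = X.2.length + (2 * p + 1) := by
  have e1 : cS X (2 * p + 1) = cS X (2 * p) := by
    unfold cS
    rw [show (2 * p + 1) / 2 = p by omega, show 2 * p / 2 = p by omega]
  have e2 : cV X (2 * p + 1) = cV X (2 * p) := by
    unfold cV
    rw [show (2 * p + 1) / 2 = p by omega, show 2 * p / 2 = p by omega]
  by_cases h : cof X (cS X (2 * p)) (cV X (2 * p)) = 1
  · right
    unfold num0
    rw [if_neg]
    rintro (⟨h1, -⟩ | ⟨-, h1⟩)
    · omega
    · rw [e1, e2, h] at h1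
      norm_num at h1
  · left
    unfold num0
    rw [if_neg]
    rintro (⟨-, h1⟩ | ⟨h1, -⟩)
    · exact h h1
    · omega

private theorem inv_csum_congr {y y' : ℕ → ℝ} (h : ∀ e < 2 * slR X, y e = y' e) (i a : ℕ) :
    csum X y i a = csum X y' i a := by
  unfold csum
  refine Finset.sum_congr rfl fun e he => ?_
  rw [h e (Finset.mem_range.1 he)]

/-- `dpos a` is not used if the row `a` is not zero -/
private theorem inv_not_supp {a : ℕ} (ha : a < X.2.length) (h : ¬ ZeroRow X a) :
    ¬ Supp X (dpos X a) := by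
  have ha' : a < X.2.length + 2 * slR X := by omega
  rintro (⟨ρ, hρ, e, he, h1⟩ | ⟨a', ha2, h1, h2⟩)
  · exact pos_ne_dpos hρ he ha' h1.symm
  · have h3 := dpos_inj ha' ha2 h1
    subst h3
    exact h (h2 ha)

/-- **The inverse.** -/
theorem of_ssum (hX : UnitsM X) (hM : 2 ≤ X.2.length) {z : ℕ → ℝ}
    (hz : ∀ q < axN X * (axN X * axN X), 0 ≤ z q)
    (h0 : ∀ q < axN X * (axN X * axN X), ¬ Supp X q → z q = 0)
    (h1 : ∀ κ < 3, ∀ a < axN X, ssum (axN X) κ a z = 1) :
    ∃ w : ℕ → ℝ, (∀ q < axN X * (axN X * axN X), z q = arr X w q) ∧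
      (∀ v < X.1, 0 ≤ w v ∧ w v ≤ 1) ∧ Sys X w := by
  have hm : 0 < X.2.length := by omega
  obtain ⟨y, hy⟩ : ∃ y : ℕ → ℕ → ℝ, ∀ ρ e, y ρ e = z (pos X ρ e) := ⟨_, fun _ _ => rfl⟩
  obtain ⟨d, hd⟩ : ∃ d : ℕ → ℝ, ∀ a, d a = z (dpos X a) := ⟨_, fun _ => rfl⟩
  have hN : axN X = X.2.length + 4 * slR X := rfl
  have hcell : ∀ q < axN X * (axN X * axN X), z q =
      (∑ ρ ∈ range 3, ∑ e ∈ range (2 * slR X), if q = pos X ρ e then y ρ e else 0) +
        ∑ b ∈ range (X.2.length + 2 * slR X), if q = dpos X b then d b else 0 := by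
    intro q hq
    simp only [hy, hd]
    exact eq_cells hM h0 q hq
  have hsl : ∀ κ < 3, ∀ a < axN X, csum X (y κ) 0 a + csum X (y ((κ + 2) % 3)) 1 a +
      csum X (y ((κ + 1) % 3)) 2 a + (if a < X.2.length + 2 * slR X then d a else 0) = 1 := by
    intro κ hκ a ha
    rw [← ssum_cells y d hκ, ← ssum_congr hcell]
    exact h1 κ hκ a ha
  -- the pair equations
  have hpair : ∀ ρ < 3, ∀ p < slR X, y ρ (2 * p) + y ρ (2 * p + 1) = 1 := by
    intro ρ hρ p hp
    have a1 := hsl ((ρ + 1) % 3) (Nat.mod_lt _ (by norm_num)) (X.2.length + 2 * slR X + p)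
      (by omega)
    have e1 : ((ρ + 1) % 3 + 2) % 3 = ρ := by omega
    rw [e1, csum_num0_high _ (by omega), csum_pair _ hp, csum_link_low _ (by omega),
      if_neg (by omega)] at a1
    linarith
  have hlink : ∀ ρ < 3, ∀ j < slR X, y ρ (2 * j + 1) + y ρ (2 * nxt X j) = 1 := by
    intro ρ hρ j hj
    have a1 := hsl ((ρ + 2) % 3) (Nat.mod_lt _ (by norm_num)) (X.2.length + 3 * slR X + j)
      (by omega)
    have e1 : ((ρ + 2) % 3 + 1) % 3 = ρ := by omega
    rw [e1, csum_num0_high _ (by omega), csum_pair_high _ (by omega), csum_link _ hj,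
      if_neg (by omega)] at a1
    linarith
  -- the slices `M + e`
  have hfree : ∀ κ < 3, ∀ e < 2 * slR X,
      (if num0 X e = X.2.length + e then y κ e else 0) + d (X.2.length + e) = 1 := by
    intro κ hκ e he
    have a1 := hsl κ hκ (X.2.length + e) (by omega)
    rw [csum_rest _ he, csum_pair_low _ (by omega), csum_link_low _ (by omega),
      if_pos (by omega : X.2.length + e < X.2.length + 2 * slR X)] at a1
    linarith
  -- all three copies agree
  have hsame : ∀ κ < 3, ∀ e < 2 * slR X, y κ e = y 0 e := by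
    intro κ hκ e he
    have hp : e / 2 < slR X := by omega
    have a1 := hpair κ hκ _ hp
    have a2 := hpair 0 (by norm_num) _ hp
    have a3 : y κ (2 * (e / 2)) = y 0 (2 * (e / 2)) := by
      rcases inv_free (e / 2) with h3 | h3
      · have b1 := hfree κ hκ (2 * (e / 2)) (by omega)
        have b2 := hfree 0 (by norm_num) (2 * (e / 2)) (by omega)
        rw [if_pos h3] at b1 b2
        linarith
      · have b1 := hfree κ hκ (2 * (e / 2) + 1) (by omega)
        have b2 := hfree 0 (by norm_num) (2 * (e / 2) + 1) (by omega)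
        rw [if_pos h3] at b1 b2
        linarith
    rcases Nat.mod_two_eq_zero_or_one e with h4 | h4
    · have h5 : 2 * (e / 2) = e := by omega
      rw [h5] at a3
      exact a3
    · have h5 : 2 * (e / 2) + 1 = e := by omega
      rw [h5] at a1 a2
      linarith
  obtain ⟨w, hw⟩ := chain hM (hpair 0 (by norm_num)) (hlink 0 (by norm_num))
  -- the rows
  have hrow : ∀ t < X.2.length,
      ∑ v ∈ range X.1, lit (cof X t v) (w v) + d t = 1 := by
    intro t ht
    have a1 := hsl 0 (by norm_num) t (by omega)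
    rw [inv_csum_congr hw, csum_num0 hX w ht, csum_pair_low _ (by omega),
      csum_link_low _ (by omega), if_pos (by omega : t < X.2.length + 2 * slR X)] at a1
    linarith
  have hd0 : ∀ t < X.2.length, ¬ ZeroRow X t → d t = 0 := by
    intro t ht hZ
    rw [hd]
    exact h0 _ (dpos_lt (by omega)) (inv_not_supp ht hZ)
  have hdv : ∀ a < X.2.length + 2 * slR X, d a = dval X w a := by
    intro a ha
    unfold dval
    by_cases h3 : a < X.2.length
    · rw [if_pos h3]
      split_ifs with h4
      · have a1 := hrow a h3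
        rw [Finset.sum_eq_zero (fun v hv => ?_), zero_add] at a1
        · exact a1
        · rw [h4 v (Finset.mem_range.1 hv)]
          unfold lit
          norm_num
      · exact hd0 a h3 h4
    · rw [if_neg h3]
      have h5 : X.2.length + (a - X.2.length) = a := by omega
      have h6 : a - X.2.length < 2 * slR X := by omega
      have a1 := hfree 0 (by norm_num) _ h6
      rw [h5] at a1
      rw [← hw _ h6]
      split_ifs with h4
      · rw [if_pos h4] at a1
        linarith
      · rw [if_neg h4] at a1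
        linarith
  refine ⟨w, fun q hq => ?_, fun v hv => ?_, fun t ht hZ => ?_⟩
  · rw [hcell q hq]
    unfold arr
    congr 1
    · refine Finset.sum_congr rfl fun ρ hρ => Finset.sum_congr rfl fun e he => ?_
      rw [hsame ρ (Finset.mem_range.1 hρ) e (Finset.mem_range.1 he), hw e (Finset.mem_range.1 he)]
    · refine Finset.sum_congr rfl fun a ha => ?_
      rw [hdv a (Finset.mem_range.1 ha)]
  · have hp := TabInv.pair_lt hv hm
    rw [Nat.add_zero] at hp
    have e1 : cV X (2 * (v * X.2.length)) = v := by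
      unfold cV
      rw [Nat.mul_div_cancel_left _ (by norm_num), Nat.mul_div_cancel _ hm]
    have a1 := hw (2 * (v * X.2.length)) (by omega)
    unfold yv at a1
    rw [if_pos (by omega), e1] at a1
    have a2 := hpair 0 (by norm_num) _ hp
    have a3 : 0 ≤ y 0 (2 * (v * X.2.length)) := by
      rw [hy]
      exact hz _ (pos_lt (by omega) 0)
    have a4 : 0 ≤ y 0 (2 * (v * X.2.length) + 1) := by
      rw [hy]
      exact hz _ (pos_lt (by omega) 0)
    constructor
    · linarith
    · linarith
  · have a1 := hrow t ht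
    rw [hd0 t ht hZ, add_zero] at a1
    exact a1

end Pool.Agent.Simplex.EB.Tab.Ax
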