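import Pool.Agent.Lib.MP_4d246d_lc.EB.AxCube
import Pool.Agent.Lib.MP_4d246d_lc.QP.LowerBd
import Pool.Agent.Lib.MP_4d246d_lc.EB.Bridge

/-!
# A penalty that keeps a face of the assignment polytope

The positive entries of a vertex `y` of the polytope of the `N × N × N` arrays with the slice sums
`1` are at least `2 ^ (- penExp N)`. Proof: let `A` be the homogeneous integer system in the
`N³ + 1` variables `x_q`, `t`: slice sums `- t = 0` (`3 N` rows), `x_q = 0` for the `q` with
`y_q = 0` (at most `N³` rows). `(y, 1)` is a nonnegative solution. By `QP.exists_large` there is a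
solution in the unit cube with `x_k ≥ 1 / ((N³ + 1)! (sqSum A + 1) ^ (N³ + 1))`. Its coordinate
`t` is positive (otherwise all slice sums are zero) and at most `1`; `x / t` is a feasible array
which vanishes where `y` does, so it is `y` (`y` is a vertex: `y` is in the open segment between
`x / t` and `y + ε (y - x / t)`). Hence `y_k = x_k / t ≥ x_k`.
-/

open Finset

namespace Pool.Agent.Simplex.EB.Tab.Ax

open Pool.Agent.Lib.PolyTime Pool.Agent.Simplex.QP

/-- the exponent of the penalty -/
def penExp (N : ℕ) : ℕ := 6 * (N * (N * N) + 1) ^ 2 + 1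

private theorem pen_left {N : ℕ} {cost : Fin (N * (N * N)) → ℝ} (p : Fin (3 * N))
    (q : Fin (N * (N * N))) :
    (assign N cost).A (Fin.castAdd (3 * N) p) q = if InSlice N p q then 1 else 0 := by
  unfold assign
  dsimp only
  rw [Fin.addCases_left]

private theorem pen_right {N : ℕ} {cost : Fin (N * (N * N)) → ℝ} (p : Fin (3 * N))
    (q : Fin (N * (N * N))) :
    (assign N cost).A (Fin.natAdd (3 * N) p) q = if InSlice N p q then -1 else 0 := by
  unfold assign
  dsimp only
  rw [Fin.addCases_right]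

private theorem pen_b_left {N : ℕ} {cost : Fin (N * (N * N)) → ℝ} (p : Fin (3 * N)) :
    (assign N cost).b (Fin.castAdd (3 * N) p) = 1 := by
  unfold assign
  dsimp only
  rw [Fin.addCases_left]

private theorem pen_b_right {N : ℕ} {cost : Fin (N * (N * N)) → ℝ} (p : Fin (3 * N)) :
    (assign N cost).b (Fin.natAdd (3 * N) p) = -1 := by
  unfold assign
  dsimp only
  rw [Fin.addCases_right]

/-- the feasible arrays -/
private theorem pen_feas {N : ℕ} {cost : Fin (N * (N * N)) → ℝ} {x : Fin (N * (N * N)) → ℝ} :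
    x ∈ (assign N cost).feasible ↔
      (∀ p : Fin (3 * N), ∑ q : Fin (N * (N * N)), (if InSlice N p q then x q else 0) = 1) ∧
        ∀ q, 0 ≤ x q := by
  have e1 : ∀ p : Fin (3 * N), ∑ j, ((assign N cost).A (Fin.castAdd (3 * N) p) j : ℝ) * x j =
      ∑ q : Fin (N * (N * N)), (if InSlice N p q then x q else 0) := by
    intro p
    refine Finset.sum_congr rfl fun q _ => ?_
    rw [pen_left]
    split_ifs <;> simp
  have e2 : ∀ p : Fin (3 * N), ∑ j, ((assign N cost).A (Fin.natAdd (3 * N) p) j : ℝ) * x j =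
      - ∑ q : Fin (N * (N * N)), (if InSlice N p q then x q else 0) := by
    intro p
    rw [← Finset.sum_neg_distrib]
    refine Finset.sum_congr rfl fun q _ => ?_
    rw [pen_right]
    split_ifs <;> simp
  constructor
  · rintro ⟨h1, h2⟩
    refine ⟨fun p => ?_, h2⟩
    have a1 := h1 (Fin.castAdd (3 * N) p)
    have a2 := h1 (Fin.natAdd (3 * N) p)
    rw [e1, pen_b_left] at a1
    rw [e2, pen_b_right] at a2
    linarith
  · rintro ⟨h1, h2⟩
    refine ⟨fun i => ?_, h2⟩
    induction i using Fin.addCases with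
    | left p => rw [e1, pen_b_left, h1 p]
    | right p => rw [e2, pen_b_right, h1 p]

/-- the rows are tight at all feasible points -/
private theorem pen_tight {N : ℕ} {cost : Fin (N * (N * N)) → ℝ} {x : Fin (N * (N * N)) → ℝ}
    (hx : x ∈ (assign N cost).feasible) (i : Fin (3 * N + 3 * N)) :
    ∑ j, ((assign N cost).A i j : ℝ) * x j = (assign N cost).b i := by
  have e3 : ∀ p : Fin (3 * N), ∑ j, ((assign N cost).A (Fin.natAdd (3 * N) p) j : ℝ) * x j =
      - ∑ j, ((assign N cost).A (Fin.castAdd (3 * N) p) j : ℝ) * x j := by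
    intro p
    rw [← Finset.sum_neg_distrib]
    refine Finset.sum_congr rfl fun q _ => ?_
    rw [pen_left, pen_right]
    split_ifs <;> simp
  have e4 : ∀ p : Fin (3 * N), ∑ j, ((assign N cost).A (Fin.castAdd (3 * N) p) j : ℝ) * x j =
      1 := by
    intro p
    have a1 := hx.1 (Fin.castAdd (3 * N) p)
    have a2 := hx.1 (Fin.natAdd (3 * N) p)
    rw [pen_b_left] at a1
    rw [e3, pen_b_right] at a2
    linarith
  induction i using Fin.addCases with
  | left p => rw [e4, pen_b_left]
  | right p => rw [e3, e4, pen_b_right]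

/-- two feasible points of a program, the first one a vertex and the second one zero where the
first one is, and with the same tight rows: they are equal -/
theorem eq_of_supp {N : ℕ} {cost : Fin (N * (N * N)) → ℝ} {x y : Fin (N * (N * N)) → ℝ}
    (hy : (assign N cost).Vertex y) (hx : x ∈ (assign N cost).feasible)
    (h : ∀ q, y q = 0 → x q = 0) : x = y := by
  have h1 : x - y = 0 := hy.vx _ fun i hi h0 => by
    rw [(assign N cost).sys.ln_sub, h0, sub_zero]
    by_cases him : i < 3 * N + 3 * N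
    · rw [(assign N cost).sl_row ⟨i, him⟩, pen_tight hx ⟨i, him⟩, sub_self]
    · obtain ⟨j, rfl⟩ := Nat.exists_eq_add_of_le (not_lt.1 him)
      have hj : j < N * (N * N) := by
        have : 3 * N + 3 * N + j < 3 * N + 3 * N + N * (N * N) := hi
        omega
      have a1 := (assign N cost).sl_var ⟨j, hj⟩ y
      have a2 := (assign N cost).sl_var ⟨j, hj⟩ x
      dsimp only at a1 a2
      rw [a2]
      rw [a1] at h0
      exact h ⟨j, hj⟩ h0
  exact sub_eq_zero.1 h1

/-- the numbers -/
theorem pen_bound {N : ℕ} {s : ℤ} (h0 : 0 ≤ s)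
    (h : s ≤ (3 * N + N * (N * N)) * (N * (N * N) + 1)) :
    (((N * (N * N) + 1).factorial : ℝ) * ((s : ℝ) + 1) ^ (N * (N * N) + 1)) <
      2 ^ penExp N := by
  obtain ⟨V, hV⟩ : ∃ V, V = N * (N * N) := ⟨_, rfl⟩
  obtain ⟨W, hW⟩ : ∃ W, W = V + 1 := ⟨_, rfl⟩
  have hNV : N ≤ V := by
    rw [hV]
    rcases Nat.eq_zero_or_pos N with h1 | h1
    · rw [h1]
    · exact Nat.le_mul_of_pos_right N (Nat.mul_pos h1 h1)
  unfold penExp
  rw [← hV, ← hW]
  have hs : s ≤ ((3 * N + V) * W : ℕ) := by
    push_cast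
    rw [hW, hV]
    push_cast
    exact h
  have hs1 : s + 1 ≤ ((4 * W ^ 2 : ℕ) : ℤ) := by
    have a1 : (3 * N + V) * W + 1 ≤ 4 * W ^ 2 := by
      have a2 : 3 * N + V ≤ 4 * V := by omega
      have a3 : (3 * N + V) * W ≤ 4 * V * W := Nat.mul_le_mul_right W a2
      have a4 : 4 * V * W + 4 * W = 4 * W ^ 2 := by
        rw [hW]
        ring
      omega
    have a5 : (((3 * N + V) * W + 1 : ℕ) : ℤ) ≤ ((4 * W ^ 2 : ℕ) : ℤ) := by exact_mod_cast a1
    push_cast at a5 hs ⊢
    linarith
  have hsr : (s : ℝ) + 1 ≤ 4 * (W : ℝ) ^ 2 := by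
    have a1 : ((s + 1 : ℤ) : ℝ) ≤ (((4 * W ^ 2 : ℕ) : ℤ) : ℝ) := by exact_mod_cast hs1
    push_cast at a1
    exact a1
  have h0r : (0 : ℝ) ≤ s := by exact_mod_cast h0
  have hW2 : (W : ℝ) ≤ 2 ^ W := by
    have a1 : W ≤ 2 ^ W := Nat.lt_two_pow_self.le
    exact_mod_cast a1
  have hW0 : (0 : ℝ) ≤ W := Nat.cast_nonneg W
  have hfac : ((W.factorial : ℕ) : ℝ) ≤ 2 ^ (W * W) := by
    have a1 : W.factorial ≤ W ^ W := Nat.factorial_le_pow W
    calc ((W.factorial : ℕ) : ℝ) ≤ (W : ℝ) ^ W := by exact_mod_cast a1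
      _ ≤ (2 ^ W) ^ W := pow_le_pow_left₀ hW0 hW2 W
      _ = 2 ^ (W * W) := (pow_mul 2 W W).symm
  have hpow : ((s : ℝ) + 1) ^ W ≤ 2 ^ ((2 * W + 2) * W) := by
    rw [pow_mul]
    refine pow_le_pow_left₀ (by linarith) (hsr.trans ?_) W
    calc 4 * (W : ℝ) ^ 2 ≤ 4 * (2 ^ W) ^ 2 := by
          have := pow_le_pow_left₀ hW0 hW2 2
          linarith
      _ = 2 ^ (2 * W + 2) := by ring
  calc ((W.factorial : ℕ) : ℝ) * ((s : ℝ) + 1) ^ W ≤ 2 ^ (W * W) * 2 ^ ((2 * W + 2) * W) :=
        mul_le_mul hfac hpow (by positivity) (by positivity)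
    _ = 2 ^ (W * W + (2 * W + 2) * W) := (pow_add 2 _ _).symm
    _ < 2 ^ (6 * W ^ 2 + 1) := by
        refine pow_lt_pow_right₀ (by norm_num) ?_
        have : W * W + (2 * W + 2) * W = 3 * W ^ 2 + 2 * W := by ring
        have h5 : 2 * W ≤ 3 * W ^ 2 := by nlinarith [Nat.zero_le W, (by omega : 1 ≤ W)]
        omega

/-- the homogeneous integer system: slice sums minus the last variable, and `x_q = 0` for the
`q` with `y_q = 0` -/
private noncomputable def penA {N : ℕ} (y : Fin (N * (N * N)) → ℝ) :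
    Fin (3 * N) ⊕ Fin (N * (N * N)) → Fin (N * (N * N) + 1) → ℤ :=
  open Classical in
  Sum.elim
    (fun p => Fin.snoc (α := fun _ => ℤ) (fun q => if InSlice N p q then 1 else 0) (-1))
    (fun r => Fin.snoc (α := fun _ => ℤ) (fun q => if q = r ∧ y r = 0 then 1 else 0) 0)

private theorem penA_inl {N : ℕ} (y : Fin (N * (N * N)) → ℝ) (p : Fin (3 * N))
    (x : Fin (N * (N * N) + 1) → ℝ) :
    ∑ j, (penA y (Sum.inl p) j : ℝ) * x j =
      ∑ q : Fin (N * (N * N)), (if InSlice N p q then x q.castSucc else 0) -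
        x (Fin.last _) := by
  rw [Fin.sum_univ_castSucc]
  simp only [penA, Sum.elim_inl, Fin.snoc_castSucc, Fin.snoc_last]
  push_cast
  have e1 : ∀ q : Fin (N * (N * N)), (if InSlice N p q then (1 : ℝ) else 0) * x q.castSucc =
      if InSlice N p q then x q.castSucc else 0 := fun q => by split_ifs <;> simp
  rw [Finset.sum_congr rfl fun q _ => e1 q]
  ring

private theorem penA_inr {N : ℕ} (y : Fin (N * (N * N)) → ℝ) (r : Fin (N * (N * N)))
    (x : Fin (N * (N * N) + 1) → ℝ) :
    ∑ j, (penA y (Sum.inr r) j : ℝ) * x j = if y r = 0 then x r.castSucc else 0 := by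
  classical
  rw [Fin.sum_univ_castSucc]
  simp only [penA, Sum.elim_inr, Fin.snoc_castSucc, Fin.snoc_last]
  push_cast
  rw [zero_mul, add_zero]
  by_cases h : y r = 0
  · simp [h]
  · simp [h]

private theorem penA_abs {N : ℕ} (y : Fin (N * (N * N)) → ℝ)
    (i : Fin (3 * N) ⊕ Fin (N * (N * N))) (j : Fin (N * (N * N) + 1)) :
    penA y i j * penA y i j ≤ 1 := by
  classical
  rcases i with p | r
  · induction j using Fin.lastCases with
    | last => simp [penA]
    | cast q =>
      simp only [penA, Sum.elim_inl, Fin.snoc_castSucc]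
      split_ifs <;> norm_num
  · induction j using Fin.lastCases with
    | last => simp [penA]
    | cast q =>
      simp only [penA, Sum.elim_inr, Fin.snoc_castSucc]
      split_ifs <;> norm_num

/-- positive entries of a vertex are not small -/
theorem vertex_lower {N : ℕ} {cost : Fin (N * (N * N)) → ℝ} {y : Fin (N * (N * N)) → ℝ}
    (hy : (assign N cost).Vertex y) {k : Fin (N * (N * N))} (hk : 0 < y k) :
    1 < y k * 2 ^ penExp N := by
  classical
  have hyf : y ∈ (assign N cost).feasible := hy.1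
  obtain ⟨hy1, hy2⟩ := pen_feas.1 hyf
  have h0 : RSol (penA y) (Fin.snoc (α := fun _ => ℝ) y 1) := by
    refine ⟨fun j => ?_, fun i => ?_⟩
    · induction j using Fin.lastCases with
      | last =>
        rw [Fin.snoc_last]
        exact zero_le_one
      | cast q =>
        rw [Fin.snoc_castSucc]
        exact hy2 q
    · rcases i with p | r
      · rw [penA_inl]
        simp only [Fin.snoc_castSucc, Fin.snoc_last]
        rw [hy1 p, sub_self]
      · rw [penA_inr, Fin.snoc_castSucc]
        split_ifs with h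
        · exact h
        · rfl
  obtain ⟨x, hx, hx1, hxk⟩ := exists_large (k := k.castSucc) h0 (by
    rw [Fin.snoc_castSucc]
    exact hk)
  have hs : sqSum (penA y) ≤ (3 * N + N * (N * N)) * (N * (N * N) + 1) := by
    unfold sqSum
    calc ∑ i, ∑ j, penA y i j ^ 2
        ≤ ∑ _i : Fin (3 * N) ⊕ Fin (N * (N * N)), ∑ _j : Fin (N * (N * N) + 1), (1 : ℤ) := by
          refine Finset.sum_le_sum fun i _ => Finset.sum_le_sum fun j _ => ?_
          rw [sq]
          exact penA_abs y i j
      _ = (3 * N + N * (N * N)) * (N * (N * N) + 1) := by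
          simp only [Finset.sum_const, Finset.card_univ, Fintype.card_sum, Fintype.card_fin,
            nsmul_eq_mul, mul_one]
          push_cast
          ring
  have hb := pen_bound (N := N) sqSum_nonneg hs
  have hxk0 : 0 < x k.castSucc := by
    rcases (hx.1 k.castSucc).lt_or_eq with h | h
    · exact h
    · rw [← h, zero_mul] at hxk
      norm_num at hxk
  have hxk2 : 1 < x k.castSucc * 2 ^ penExp N :=
    lt_of_le_of_lt hxk (mul_lt_mul_of_pos_left hb hxk0)
  obtain ⟨t, ht⟩ : ∃ t, t = x (Fin.last _) := ⟨_, rfl⟩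
  have hrow : ∀ p : Fin (3 * N),
      ∑ q : Fin (N * (N * N)), (if InSlice N p q then x q.castSucc else 0) = t := by
    intro p
    have a1 := hx.2 (Sum.inl p)
    rw [penA_inl, ← ht] at a1
    linarith
  have hkN : (k : ℕ) / N / N < N := by
    have h1 := k.2
    exact Nat.div_lt_of_lt_mul (Nat.div_lt_of_lt_mul h1)
  have hkt : x k.castSucc ≤ t := by
    rw [← hrow ⟨(k : ℕ) / N / N, by omega⟩]
    have a1 : (if InSlice N ((⟨(k : ℕ) / N / N, by omega⟩ : Fin (3 * N)) : ℕ) k
        then x k.castSucc else 0) = x k.castSucc := if_pos (Or.inl rfl)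
    conv_lhs => rw [← a1]
    refine Finset.single_le_sum (f := fun q : Fin (N * (N * N)) =>
      if InSlice N ((⟨(k : ℕ) / N / N, by omega⟩ : Fin (3 * N)) : ℕ) q
        then x q.castSucc else 0) (fun q _ => ?_) (Finset.mem_univ k)
    dsimp only
    split_ifs
    · exact hx.1 _
    · exact le_rfl
  have ht0 : 0 < t := lt_of_lt_of_le hxk0 hkt
  have ht1 : t ≤ 1 := ht ▸ hx1 _
  have hfeas : (fun q : Fin (N * (N * N)) => x q.castSucc / t) ∈ (assign N cost).feasible := by
    rw [pen_feas]
    refine ⟨fun p => ?_, fun q => div_nonneg (hx.1 _) ht0.le⟩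
    have a1 : ∑ q : Fin (N * (N * N)), (if InSlice N p q then x q.castSucc / t else 0) =
        (∑ q : Fin (N * (N * N)), (if InSlice N p q then x q.castSucc else 0)) / t := by
      rw [Finset.sum_div]
      refine Finset.sum_congr rfl fun q _ => ?_
      split_ifs
      · rfl
      · rw [zero_div]
    rw [a1, hrow p, div_self ht0.ne']
  have heq := eq_of_supp hy hfeas (fun q hq => by
    have a1 := hx.2 (Sum.inr q)
    rw [penA_inr, if_pos hq] at a1
    rw [a1, zero_div])
  have hyk : y k = x k.castSucc / t := (congrFun heq k).symm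
  have hle : x k.castSucc ≤ y k := by
    rw [hyk, le_div_iff₀ ht0]
    nlinarith
  have hP : (0 : ℝ) < 2 ^ penExp N := by positivity
  exact lt_of_lt_of_le hxk2 (mul_le_mul_of_nonneg_right hle hP.le)

/-- **The penalty.** If the objective is one entry minus `2 ^ penExp N` times the sum of the
entries outside `S`, then no improving edge leaves the face of the arrays that vanish outside
`S`. (The objective is nonnegative at `x`. If `y` does not vanish outside `S`, then by
`vertex_lower` the objective at `y` is less than `1 - 1 = 0`.) -/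
theorem stay_of_pen {N : ℕ} {cost : Fin (N * (N * N)) → ℝ} {S : Fin (N * (N * N)) → Prop}
    [DecidablePred S] {q₀ : Fin (N * (N * N))}
    (hcost : ∀ q, cost q = (if q = q₀ then 1 else 0) - if S q then 0 else 2 ^ penExp N)
    {x y : Fin (N * (N * N)) → ℝ} (hx : ∀ q, ¬ S q → x q = 0)
    (h : (assign N cost).Improving x y) : ∀ q, ¬ S q → y q = 0 := by
  have hyv : (assign N cost).Vertex y := h.1.2.1
  have hxf : x ∈ (assign N cost).feasible := h.1.1.1
  have hyf : y ∈ (assign N cost).feasible := hyv.1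
  have hobj : ∀ w : Fin (N * (N * N)) → ℝ, (assign N cost).obj w =
      w q₀ - ∑ q, (if S q then 0 else 2 ^ penExp N * w q) := by
    intro w
    show ∑ q, cost q * w q = _
    have e1 : ∀ q, cost q * w q = (if q = q₀ then w q else 0) -
        (if S q then 0 else 2 ^ penExp N * w q) := by
      intro q
      rw [hcost q]
      split_ifs <;> ring
    rw [Finset.sum_congr rfl fun q _ => e1 q, Finset.sum_sub_distrib, Finset.sum_ite_eq',
      if_pos (Finset.mem_univ _)]
  intro q₁ hq₁
  by_contra hne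
  have hpos : 0 < y q₁ := lt_of_le_of_ne (hyf.2 q₁) (Ne.symm hne)
  have h1 := vertex_lower hyv hpos
  have h2 : 0 ≤ (assign N cost).obj x := by
    rw [hobj x, Finset.sum_eq_zero, sub_zero]
    · exact hxf.2 q₀
    · intro q _
      split_ifs with hS
      · rfl
      · rw [hx q hS, mul_zero]
  have h3 : (assign N cost).obj y < 0 := by
    rw [hobj y]
    have a1 : (if S q₁ then (0 : ℝ) else 2 ^ penExp N * y q₁) ≤
        ∑ q, (if S q then 0 else 2 ^ penExp N * y q) := by
      refine Finset.single_le_sum (f := fun q => if S q then (0 : ℝ) else 2 ^ penExp N * y q)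
        (fun q _ => ?_) (Finset.mem_univ q₁)
      split_ifs
      · exact le_rfl
      · exact mul_nonneg (by positivity) (hyf.2 q)
    rw [if_neg hq₁] at a1
    have a2 := assign_le_one hyf q₀
    linarith
  have h4 := h.2
  linarith

/-- the arrays that vanish outside `S` are a face -/
theorem face_of_supp {N : ℕ} {cost : Fin (N * (N * N)) → ℝ} (S : Fin (N * (N * N)) → Prop) :
    IsExtreme ℝ (assign N cost).feasible
      {x | x ∈ (assign N cost).feasible ∧ ∀ q, ¬ S q → x q = 0} := by
  refine ⟨fun x hx => hx.1, ?_⟩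
  intro x₁ hx₁ x₂ hx₂ x hx hseg
  refine ⟨hx₁, fun q hq => ?_⟩
  obtain ⟨a, b, ha, hb, -, hab⟩ := hseg
  have h1 := congrFun hab q
  rw [Pi.add_apply, Pi.smul_apply, Pi.smul_apply, smul_eq_mul, smul_eq_mul, hx.2 q hq] at h1
  have h2 : 0 ≤ a * x₁ q := mul_nonneg ha.le (hx₁.2 q)
  have h3 : 0 ≤ b * x₂ q := mul_nonneg hb.le (hx₂.2 q)
  have h4 : a * x₁ q = 0 := by linarith
  rcases mul_eq_zero.1 h4 with h5 | h5
  · exact absurd h5 ha.ne'
  · exact h5

end Pool.Agent.Simplex.EB.Tab.Ax
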