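import Pool.Agent.Lib.MP_4d246d_lc.EB.TabInv
import Pool.Agent.Lib.MP_4d246d_lc.EB.SlimNames

/-!
# The isomorphism with a transportation program
-/

namespace Pool.Agent.Simplex.EB.Tab

open Pool.Agent.Lib.PolyTime Pool.Agent.Simplex.QP TabInv

variable {m n : ℕ}

/-- on the polyhedron all rows are equalities -/
def Eqs (D : RLP m n) : Prop := ∀ x ∈ D.feasible, ∀ i, ∑ j, (D.A i j : ℝ) * x j = D.b i

/-- the right-hand side as a function of the number of the row -/
noncomputable def rhsN (D : RLP m n) (s : ℕ) : ℝ := if h : s < m then D.b ⟨s, h⟩ else 0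

/-- the transportation program -/
noncomputable def table (D : RLP m n) (U : ℝ) :
    RLP (lines (slr D.mat) (slc D.mat) + lines (slr D.mat) (slc D.mat))
      (3 * (slr D.mat * slc D.mat)) :=
  transport (slr D.mat) (slc D.mat)
    (fun p => lsum (slr D.mat) (slc D.mat) p (tab D.mat U (fun _ => 0)) +
      corr D.mat (rhsN D) p)
    (fun q => ∑ j : Fin n, if (q : ℕ) = slp0 D.mat j then D.c j else 0)

variable {D : RLP m n}

private theorem ti_mid {X : Mat} {e : ℕ} (he : e < slr X) :
    2 * X.2.length + slR X + e / 2 < slc X := by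
  have h := half_lt he
  unfold slc
  omega

private theorem ti_e {X : Mat} (hm : 0 < X.2.length) {v : ℕ} (hv : v < X.1) :
    2 * (v * X.2.length) < slr X := by
  have h1 := pair_lt hv hm
  unfold slr
  omega

theorem slp0_spec (X : Mat) (hm : 0 < X.2.length) {v : ℕ} (hv : v < X.1) :
    slp0 X v < 3 * (slr X * slc X) ∧ tk X (slp0 X v) = 1 ∧
      cV X (slp0 X v / 3 / slc X) = v := by
  have he := ti_e hm hv
  have h2 : 2 * (v * X.2.length) / 2 = v * X.2.length :=
    Nat.mul_div_cancel_left _ (by norm_num)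
  have hJ : 2 * X.2.length + slR X + v * X.2.length < slc X := by
    have := ti_mid he
    rw [h2] at this
    exact this
  obtain ⟨e1, e2, e3⟩ := ix_div (e := 2 * (v * X.2.length)) hJ (by norm_num : 2 < 3)
  refine ⟨ix_lt he hJ (by norm_num), ?_, ?_⟩
  · have h3 := kind_mid hm he 2
    rw [h2] at h3
    unfold tk slp0
    rw [e1, e2, e3, if_pos (by omega), h3]
    norm_num
  · unfold slp0
    rw [e1]
    unfold cV
    rw [h2, Nat.mul_div_cancel _ hm]

/-- the variables of a point as a function on the natural numbers -/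
noncomputable def vfun (x : Fin n → ℝ) (v : ℕ) : ℝ := if h : v < n then x ⟨v, h⟩ else 0

theorem vfun_lt (x : Fin n → ℝ) {v : ℕ} (hv : v < n) : vfun x v = x ⟨v, hv⟩ := by
  unfold vfun
  rw [dif_pos hv]

theorem vfun_fin (x : Fin n → ℝ) (j : Fin n) : vfun x j = x j := vfun_lt x j.2

/-- the variable of a cell -/
theorem cV_lt' (X : Mat) {q : ℕ} (hq : q < 3 * (slr X * slc X)) :
    cV X (q / 3 / slc X) < X.1 := by
  obtain ⟨e, J, K, he, hJ, hK, rfl⟩ := exists_ix hq
  rw [(ix_div hJ hK).1]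
  exact TabInv.cV_lt he

theorem tab_congr {X : Mat} {U : ℝ} {w w' : ℕ → ℝ} (h : ∀ v < X.1, w v = w' v) {q : ℕ}
    (hq : q < 3 * (slr X * slc X)) : tab X U w q = tab X U w' q := by
  unfold tab
  rw [h _ (cV_lt' X hq)]

theorem corr_congr {X : Mat} {β β' : ℕ → ℝ} (h : ∀ s < X.2.length, β s = β' s) (p : ℕ) :
    corr X β p = corr X β' p := by
  unfold corr
  split_ifs with h1 h2 h3 h4 h5 h6 h7
  · rfl
  · exact h _ h2
  · rw [h _ h2]
  · rfl
  · rw [h _ (by omega)]
  · exact h _ (by omega)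
  · rfl
  · rfl

private theorem ti_getD_lt {β : Type*} {k : ℕ} (f : Fin k → β) (d : β) {i : ℕ} (hi : i < k) :
    (List.ofFn f).getD i d = f ⟨i, hi⟩ := by
  rw [List.getD_eq_getElem _ _ (by rw [List.length_ofFn]; exact hi), List.getElem_ofFn]

private theorem ti_getD_ge {β : Type*} {k : ℕ} (f : Fin k → β) (d : β) {i : ℕ} (hi : k ≤ i) :
    (List.ofFn f).getD i d = d :=
  List.getD_eq_default _ _ (by rw [List.length_ofFn]; exact hi)

theorem cof_mat {s v : ℕ} (hs : s < m) (hv : v < n) : cof D.mat s v = D.A ⟨s, hs⟩ ⟨v, hv⟩ := by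
  unfold cof RLP.mat
  dsimp only
  rw [ti_getD_lt _ _ hs, ti_getD_lt _ _ hv]

theorem units_mat (hA : Units D.A) : UnitsM D.mat := by
  intro s v
  by_cases hs : s < m
  · by_cases hv : v < n
    · rw [cof_mat hs hv]
      exact hA _ _
    · left
      unfold cof RLP.mat
      dsimp only
      rw [ti_getD_lt _ _ hs, ti_getD_ge _ _ (not_lt.1 hv)]
  · left
    unfold cof RLP.mat
    dsimp only
    rw [ti_getD_ge _ _ (not_lt.1 hs)]
    rfl

theorem lhs_mat (w : ℕ → ℝ) {s : ℕ} (hs : s < m) :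
    lhs D.mat w s = ∑ j : Fin n, (D.A ⟨s, hs⟩ j : ℝ) * w j := by
  unfold lhs
  show ∑ v ∈ Finset.range n, (cof D.mat s v : ℝ) * w v = _
  rw [Finset.sum_range]
  refine Finset.sum_congr rfl fun j _ => ?_
  rw [cof_mat hs j.2]

theorem rhsN_lt {s : ℕ} (hs : s < m) : rhsN D s = D.b ⟨s, hs⟩ := by
  unfold rhsN
  rw [dif_pos hs]

/-- linear part of the map to tables -/
noncomputable def tabL (D : RLP m n) :
    (Fin n → ℝ) →ₗ[ℝ] (Fin (3 * (slr D.mat * slc D.mat)) → ℝ) where
  toFun x q := tab D.mat 0 (vfun x) q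
  map_add' x y := by
    funext q
    have h1 := tab_add D.mat 0 0 (vfun x) (vfun y) q
    rw [add_zero] at h1
    rw [Pi.add_apply, ← h1]
    refine tab_congr (fun v hv => ?_) q.2
    have hv' : v < n := hv
    rw [vfun_lt _ hv', vfun_lt _ hv', vfun_lt _ hv']
    rfl
  map_smul' t x := by
    funext q
    have h1 := tab_smul D.mat t 0 (vfun x) q
    rw [mul_zero] at h1
    rw [RingHom.id_apply, Pi.smul_apply, smul_eq_mul, ← h1]
    refine tab_congr (fun v hv => ?_) q.2
    have hv' : v < n := hv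
    rw [vfun_lt _ hv', vfun_lt _ hv']
    rfl

theorem tabL_apply (x : Fin n → ℝ) (q : Fin (3 * (slr D.mat * slc D.mat))) :
    tabL D x q = tab D.mat 0 (vfun x) q := rfl

theorem tabL_add (X : Mat) (U : ℝ) (w : ℕ → ℝ) (q : ℕ) :
    tab X 0 w q + tab X U (fun _ => 0) q = tab X U w q := by
  rw [← tab_add, zero_add]
  simp only [add_zero]

theorem tab_slp0 (hm : 0 < m) (U : ℝ) (w : ℕ → ℝ) {v : ℕ} (hv : v < n) :
    tab D.mat U w (slp0 D.mat v) = w v := by
  have h1 := slp0_spec D.mat (by rw [slim_length]; exact hm) (v := v) hv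
  unfold tab
  rw [if_pos h1.2.1, h1.2.2]

theorem slp0_lt (hm : 0 < m) {v : ℕ} (hv : v < n) :
    slp0 D.mat v < 3 * (slr D.mat * slc D.mat) :=
  (slp0_spec D.mat (by rw [slim_length]; exact hm) (v := v) hv).1

theorem tab_inj (hm : 0 < m) : Function.Injective (tabL D) := by
  intro x y hxy
  funext j
  have h1 := congrFun hxy ⟨slp0 D.mat j, slp0_lt hm j.2⟩
  rw [tabL_apply, tabL_apply] at h1
  dsimp only at h1
  rw [tab_slp0 hm _ _ j.2, tab_slp0 hm _ _ j.2, vfun_fin, vfun_fin] at h1
  exact h1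

theorem tab_feas (hA : Units D.A) (hm : 0 < m) (hE : Eqs D) {U : ℝ}
    (hU : ∀ x ∈ D.feasible, ∀ j, x j ≤ U) :
    (table D U).feasible = (fun x => tabL D x + fun q : Fin _ => tab D.mat U (fun _ => 0) q) ''
      D.feasible := by
  have hl : D.mat.2.length = m := slim_length
  have hn : D.mat.1 = n := rfl
  have hX := units_mat hA
  have hadd : ∀ x : Fin n → ℝ, (tabL D x + fun q : Fin _ => tab D.mat U (fun _ => 0) q) =
      fun q : Fin (3 * (slr D.mat * slc D.mat)) => tab D.mat U (vfun x) q := by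
    intro x
    funext q
    rw [Pi.add_apply, tabL_apply, tabL_add]
  ext z
  constructor
  · intro hz
    set z' : ℕ → ℝ := fun q => if h : q < 3 * (slr D.mat * slc D.mat) then z ⟨q, h⟩ else 0
      with hz'
    have hzz : z = fun q : Fin (3 * (slr D.mat * slc D.mat)) => z' q := by
      funext q
      rw [hz']
      dsimp only
      rw [dif_pos q.2]
    rw [hzz] at hz
    unfold table at hz
    rw [transport_feasible] at hz
    obtain ⟨h1, h2⟩ := hz
    obtain ⟨w, h3, h4, h5⟩ := tab_of_lsum hX (by rw [hl]; exact hm) (β := rhsN D) h2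
      (fun p hp => h1 ⟨p, hp⟩)
    rw [hl] at h5
    have hw : ∀ v < D.mat.1, w v = vfun (fun j : Fin n => w j) v := fun v hv =>
      (vfun_lt (n := n) (fun j : Fin n => w j) hv).symm
    refine ⟨fun j => w j, ⟨fun i => ?_, fun j => h4 j j.2⟩, ?_⟩
    · have h6 := h5 i i.2
      rw [lhs_mat w i.2, rhsN_lt i.2] at h6
      exact h6.le
    · show (tabL D (fun j => w j) + fun q : Fin _ => tab D.mat U (fun _ => 0) q) = z
      rw [hadd, hzz]
      funext q
      rw [h3 q q.2]
      exact (tab_congr hw q.2).symm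
  · rintro ⟨x, hx, rfl⟩
    show (tabL D x + fun q : Fin _ => tab D.mat U (fun _ => 0) q) ∈ _
    rw [hadd x]
    unfold table
    rw [transport_feasible]
    constructor
    · intro p
      rw [lsum_tab hX U (vfun x) p p.2]
      congr 1
      refine corr_congr (fun s hs => ?_) p
      rw [hl] at hs
      rw [lhs_mat _ hs, rhsN_lt hs, ← hE x hx ⟨s, hs⟩]
      refine Finset.sum_congr rfl fun j _ => ?_
      rw [vfun_fin]
    · intro q hq
      have h1 : cV D.mat (q / 3 / slc D.mat) < n := cV_lt' D.mat hq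
      have h2 := hx.2 ⟨_, h1⟩
      have h3 := hU x hx ⟨_, h1⟩
      unfold tab
      rw [vfun_lt x h1]
      split_ifs
      · exact h2
      · linarith
      · exact le_rfl

/-- the isomorphism -/
noncomputable def tabIso (hA : Units D.A) (hm : 0 < m) (hE : Eqs D) {U : ℝ}
    (hU : ∀ x ∈ D.feasible, ∀ j, x j ≤ U) : AIso D (table D U) where
  L := tabL D
  a q := tab D.mat U (fun _ => 0) q
  inj := tab_inj hm
  feas := tab_feas hA hm hE hU
  obj x := by
    have hadd : ∀ q : Fin (3 * (slr D.mat * slc D.mat)),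
        (tabL D x + fun q : Fin (3 * (slr D.mat * slc D.mat)) =>
          tab D.mat U (fun _ => 0) q) q = tab D.mat U (vfun x) q := by
      intro q
      rw [Pi.add_apply, tabL_apply, tabL_add]
    unfold RLP.obj
    simp only [hadd]
    have h0 : ∀ q : Fin (3 * (slr D.mat * slc D.mat)), (table D U).c q =
        ∑ j : Fin n, if (q : ℕ) = slp0 D.mat j then D.c j else 0 := fun _ => rfl
    simp only [h0, Finset.sum_mul]
    rw [Finset.sum_comm]
    refine Finset.sum_congr rfl fun j _ => ?_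
    rw [Finset.sum_eq_single (⟨slp0 D.mat j, slp0_lt hm j.2⟩ :
      Fin (3 * (slr D.mat * slc D.mat)))]
    · dsimp only
      rw [if_pos rfl, tab_slp0 hm _ _ j.2, vfun_fin]
    · intro q _ hq
      rw [if_neg, zero_mul]
      intro h
      exact hq (Fin.ext h)
    · intro h
      exact absurd (Finset.mem_univ _) h

theorem tabIso_map (hA : Units D.A) (hm : 0 < m) (hE : Eqs D) {U : ℝ}
    (hU : ∀ x ∈ D.feasible, ∀ j, x j ≤ U) (x : Fin n → ℝ)
    (q : Fin (3 * (slr D.mat * slc D.mat))) :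
    ((tabIso hA hm hE hU).L x + (tabIso hA hm hE hU).a) q = tab D.mat U (vfun x) q := by
  rw [Pi.add_apply]
  exact tabL_add _ _ _ _

end Pool.Agent.Simplex.EB.Tab
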