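import Pool.Agent.Lib.MP_4d246d_lc.EB.AxInv
import Pool.Agent.Lib.MP_4d246d_lc.EB.AxPen
import Pool.Agent.Lib.MP_4d246d_lc.EB.AxFace
import Pool.Agent.Lib.MP_4d246d_lc.EB.TabIso

/-!
# The isomorphism with a face of the assignment polytope
-/

open Finset

namespace Pool.Agent.Simplex.EB.Tab.Ax

open Pool.Agent.Lib.PolyTime Pool.Agent.Simplex.QP

variable {m n : ℕ}

/-- the costs for the matrix `X` and the variable `v` -/
noncomputable def pcost (X : Mat) (v : ℕ) (q : ℕ) : ℝ :=
  (if q = vpos X v then 1 else 0) - if Supp X q then 0 else 2 ^ penExp (axN X)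

private theorem yv_comb (X : Mat) (t : ℝ) (w w' : ℕ → ℝ) (e : ℕ) :
    yv X (fun v => t * w v + (1 - t) * w' v) e = t * yv X w e + (1 - t) * yv X w' e := by
  unfold yv
  split_ifs <;> ring

private theorem dval_comb (X : Mat) (t : ℝ) (w w' : ℕ → ℝ) (a : ℕ) :
    dval X (fun v => t * w v + (1 - t) * w' v) a = t * dval X w a + (1 - t) * dval X w' a := by
  unfold dval
  split_ifs
  · ring
  · ring
  · rw [yv_comb]
    ring
  · ring

/-- the array is affine in `w` -/
private theorem arr_comb (X : Mat) (t : ℝ) (w w' : ℕ → ℝ) (q : ℕ) :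
    arr X (fun v => t * w v + (1 - t) * w' v) q = t * arr X w q + (1 - t) * arr X w' q := by
  unfold arr
  rw [mul_add, mul_add, mul_sum, mul_sum, mul_sum, mul_sum]
  have h1 : ∑ ρ ∈ range 3, ∑ e ∈ range (2 * slR X), (if q = pos X ρ e then
      yv X (fun v => t * w v + (1 - t) * w' v) e else 0) =
      (∑ ρ ∈ range 3, t * ∑ e ∈ range (2 * slR X), if q = pos X ρ e then yv X w e else 0) +
      ∑ ρ ∈ range 3, (1 - t) * ∑ e ∈ range (2 * slR X),
        if q = pos X ρ e then yv X w' e else 0 := by
    rw [← sum_add_distrib]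
    refine sum_congr rfl fun ρ _ => ?_
    rw [mul_sum, mul_sum, ← sum_add_distrib]
    refine sum_congr rfl fun e _ => ?_
    split_ifs
    · rw [yv_comb]
    · ring
  have h2 : ∑ a ∈ range (X.2.length + 2 * slR X), (if q = dpos X a then
      dval X (fun v => t * w v + (1 - t) * w' v) a else 0) =
      (∑ a ∈ range (X.2.length + 2 * slR X), t * if q = dpos X a then dval X w a else 0) +
      ∑ a ∈ range (X.2.length + 2 * slR X),
        (1 - t) * if q = dpos X a then dval X w' a else 0 := by
    rw [← sum_add_distrib]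
    refine sum_congr rfl fun a _ => ?_
    split_ifs
    · rw [dval_comb]
    · ring
  rw [h1, h2]
  ring

theorem arr_affine (X : Mat) (w w' : ℕ → ℝ) (q : ℕ) :
    arr X (fun v => w v + w' v) q - arr X w' q = arr X w q - arr X (fun _ => 0) q := by
  have h1 := arr_comb X 2 (fun v => (w v + w' v) / 2) (fun _ => 0) q
  have h2 := arr_comb X (1 / 2) w w' q
  have e1 : (fun v => (2 : ℝ) * ((w v + w' v) / 2) + (1 - 2) * 0) = fun v => w v + w' v := by
    funext v
    ring
  have e2 : (fun v => (1 / 2 : ℝ) * w v + (1 - 1 / 2) * w' v) = fun v => (w v + w' v) / 2 := by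
    funext v
    ring
  rw [e1] at h1
  rw [e2] at h2
  rw [h1, h2]
  ring

theorem arr_smul (X : Mat) (t : ℝ) (w : ℕ → ℝ) (q : ℕ) :
    arr X (fun v => t * w v) q - arr X (fun _ => 0) q =
      t * (arr X w q - arr X (fun _ => 0) q) := by
  have h1 := arr_comb X t w (fun _ => 0) q
  have e1 : (fun v => t * w v + (1 - t) * 0) = fun v => t * w v := by
    funext v
    ring
  rw [e1] at h1
  rw [h1]
  ring

theorem arr_congr {X : Mat} {w w' : ℕ → ℝ} (h : ∀ v < X.1, w v = w' v) (q : ℕ) :
    arr X w q = arr X w' q := by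
  have hy : ∀ e < 2 * slR X, yv X w e = yv X w' e := by
    intro e he
    unfold yv
    rw [h _ (TabInv.cV_lt (X := X) (e := e) he)]
  unfold arr
  congr 1
  · refine sum_congr rfl fun ρ _ => sum_congr rfl fun e he => ?_
    rw [hy e (mem_range.1 he)]
  · refine sum_congr rfl fun a ha => ?_
    have ha' := mem_range.1 ha
    unfold dval
    by_cases h2 : a < X.2.length
    · rw [if_pos h2, if_pos h2]
    · rw [if_neg h2, if_neg h2, hy (a - X.2.length) (by omega)]

private theorem vfun_lt {x : Fin n → ℝ} {v : ℕ} (hv : v < n) : vfun x v = x ⟨v, hv⟩ := by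
  unfold vfun
  rw [dif_pos hv]

private theorem sys_congr {X : Mat} {w w' : ℕ → ℝ} (h : ∀ v < X.1, w v = w' v)
    (hw : Sys X w) : Sys X w' := by
  intro s hs hz
  rw [← hw s hs hz]
  refine sum_congr rfl fun v hv => ?_
  rw [h v (mem_range.1 hv)]

section

variable {D : RLP m n} {X : Mat}

private theorem ax_feas (hn : X.1 = n) (hX : UnitsM X)
    (hM : 2 ≤ X.2.length) (cost : Fin (axN X * (axN X * axN X)) → ℝ)
    (hD : D.feasible = {x | (∀ j, 0 ≤ x j ∧ x j ≤ 1) ∧ Sys X (vfun x)}) :
    {x | x ∈ (assign (axN X) cost).feasible ∧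
      ∀ q : Fin (axN X * (axN X * axN X)), ¬ Supp X q → x q = 0} =
    (fun x : Fin n → ℝ => fun q : Fin (axN X * (axN X * axN X)) => arr X (vfun x) q) ''
      D.feasible := by
  ext z
  constructor
  · rintro ⟨h1, h2⟩
    have e1 : z = fun q : Fin (axN X * (axN X * axN X)) => vfun z q := by
      funext q
      rw [vfun_lt q.2]
    rw [e1, assign_feasible] at h1
    have h3 : ∀ q < axN X * (axN X * axN X), ¬ Supp X q → vfun z q = 0 := by
      intro q hq hs
      rw [vfun_lt hq]
      exact h2 ⟨q, hq⟩ hs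
    obtain ⟨w, hw1, hw2, hw3⟩ := of_ssum hX hM h1.2 h3 h1.1
    have e2 : ∀ v < X.1, w v = vfun (fun j : Fin n => w j) v := by
      intro v hv
      rw [vfun_lt (hn ▸ hv)]
    refine ⟨fun j => w j, ?_, ?_⟩
    · rw [hD]
      exact ⟨fun j => hw2 j (hn.symm ▸ j.2), sys_congr e2 hw3⟩
    · funext q
      have h4 := hw1 q q.2
      rw [vfun_lt q.2] at h4
      dsimp only
      rw [← arr_congr e2 q]
      exact h4.symm
  · rintro ⟨x, hx, rfl⟩
    rw [hD] at hx
    obtain ⟨h1, h2⟩ := hx
    have h3 : ∀ v < X.1, 0 ≤ vfun x v ∧ vfun x v ≤ 1 := by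
      intro v hv
      rw [vfun_lt (hn ▸ hv)]
      exact h1 _
    exact ⟨assign_feasible.2 ⟨fun κ hκ a ha => ssum_arr hX h2 hκ ha,
      fun q _ => arr_nonneg h3 q⟩, fun q hq => arr_supp _ hq⟩

private theorem ax_obj (hn : X.1 = n) (hM : 2 ≤ X.2.length) (e₀ : Fin n)
    (hc : ∀ j, D.c j = if j = e₀ then 1 else 0) (x : Fin n → ℝ) :
    (assign (axN X) (fun q => pcost X e₀ q)).obj (fun q => arr X (vfun x) q) = D.obj x := by
  have hv : (e₀ : ℕ) < X.1 := hn.symm ▸ e₀.2
  have h1 : D.obj x = x e₀ := by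
    unfold RLP.obj
    rw [sum_eq_single e₀]
    · rw [hc, if_pos rfl, one_mul]
    · intro j _ hj
      rw [hc, if_neg hj, zero_mul]
    · intro h
      exact absurd (mem_univ _) h
  rw [h1]
  show ∑ q : Fin (axN X * (axN X * axN X)), pcost X e₀ q * arr X (vfun x) q = _
  have h2 : ∀ q : Fin (axN X * (axN X * axN X)), pcost X e₀ q * arr X (vfun x) q =
      if q = ⟨vpos X e₀, vpos_lt (by omega) hv⟩ then arr X (vfun x) q else 0 := by
    intro q
    unfold pcost
    by_cases hs : Supp X q
    · rw [if_pos hs, sub_zero]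
      by_cases h3 : q = ⟨vpos X e₀, vpos_lt (by omega) hv⟩
      · rw [if_pos h3, h3, if_pos rfl, one_mul]
      · rw [if_neg h3, if_neg fun h => h3 (Fin.ext h), zero_mul]
    · rw [arr_supp _ hs, mul_zero, ite_self]
  rw [sum_congr rfl fun q _ => h2 q, sum_ite_eq' univ, if_pos (mem_univ _)]
  show arr X (vfun x) (vpos X e₀) = _
  rw [arr_vpos hM _ hv, vfun_lt e₀.2]

end

/-- **The isomorphism.** Let `D` be a program whose polyhedron is given by `0 ≤ x ≤ 1` and the
system of the matrix `X`, with the objective `x_(e₀)`. -/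
noncomputable def axIso {D : RLP m n} {X : Mat} (hn : X.1 = n) (hX : UnitsM X)
    (hM : 2 ≤ X.2.length) (e₀ : Fin n) (hc : ∀ j, D.c j = if j = e₀ then 1 else 0)
    (hD : D.feasible = {x | (∀ j, 0 ≤ x j ∧ x j ≤ 1) ∧ Sys X (vfun x)}) :
    FIso D (assign (axN X) (fun q => pcost X e₀ q)) where
  L :=
    { toFun := fun x q => arr X (vfun x) q - arr X (fun _ => 0) q
      map_add' := by
        intro x y
        funext q
        have e1 : vfun (x + y) = fun v => vfun x v + vfun y v := by
          funext v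
          unfold vfun
          split_ifs
          · rfl
          · rw [add_zero]
        have h1 := arr_affine X (vfun x) (vfun y) q
        show arr X (vfun (x + y)) q - arr X (fun _ => 0) q =
          (arr X (vfun x) q - arr X (fun _ => 0) q) + (arr X (vfun y) q - arr X (fun _ => 0) q)
        rw [e1]
        linarith
      map_smul' := by
        intro t x
        funext q
        have e1 : vfun (t • x) = fun v => t * vfun x v := by
          funext v
          unfold vfun
          split_ifs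
          · rfl
          · rw [mul_zero]
        show arr X (vfun (t • x)) q - arr X (fun _ => 0) q =
          t * (arr X (vfun x) q - arr X (fun _ => 0) q)
        rw [e1, arr_smul] }
  a q := arr X (fun _ => 0) q
  inj := by
    intro x y h
    funext j
    have hv : (j : ℕ) < X.1 := hn.symm ▸ j.2
    have h1 := congrFun h ⟨vpos X j, vpos_lt (by omega) hv⟩
    change arr X (vfun x) (vpos X j) - arr X (fun _ => 0) (vpos X j) =
      arr X (vfun y) (vpos X j) - arr X (fun _ => 0) (vpos X j) at h1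
    have h2 := sub_left_injective h1
    rw [arr_vpos hM _ hv, arr_vpos hM _ hv, vfun_lt j.2, vfun_lt j.2] at h2
    exact h2
  F := {x | x ∈ (assign (axN X) (fun q => pcost X e₀ q)).feasible ∧
    ∀ q : Fin (axN X * (axN X * axN X)), ¬ Supp X q → x q = 0}
  face := face_of_supp (fun q : Fin (axN X * (axN X * axN X)) => Supp X q)
  feas := by
    rw [ax_feas hn hX hM _ hD]
    refine Set.image_congr' fun x => ?_
    funext q
    show arr X (vfun x) q = (arr X (vfun x) q - arr X (fun _ => 0) q) + arr X (fun _ => 0) q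
    rw [sub_add_cancel]
  κ := 1
  pos := one_pos
  β := 0
  obj x := by
    have h1 : (fun q : Fin (axN X * (axN X * axN X)) =>
        (arr X (vfun x) q - arr X (fun _ => 0) q) + arr X (fun _ => 0) q) =
        fun q : Fin (axN X * (axN X * axN X)) => arr X (vfun x) q :=
      funext fun q => sub_add_cancel _ _
    exact ((congrArg (assign (axN X) (fun q => pcost X e₀ q)).obj h1).trans
      (ax_obj hn hM e₀ hc x)).trans ((add_zero _).trans (one_mul _)).symm
  stay x hx y h := by
    have hv : (e₀ : ℕ) < X.1 := hn.symm ▸ e₀.2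
    refine ⟨h.1.2.1.1, stay_of_pen (S := fun q : Fin (axN X * (axN X * axN X)) => Supp X q)
      (q₀ := ⟨vpos X e₀, vpos_lt (by omega) hv⟩) (fun q => ?_) hx.2 h⟩
    show pcost X e₀ q = _
    unfold pcost
    congr 1
    exact if_congr ⟨fun h => Fin.ext h, fun h => congrArg Fin.val h⟩ rfl rfl
  noray x z hz h := by
    rw [assign_no_ray h] at hz
    simp [RLP.obj] at hz

theorem axIso_map {D : RLP m n} {X : Mat} (hn : X.1 = n) (hX : UnitsM X)
    (hM : 2 ≤ X.2.length) (e₀ : Fin n) (hc : ∀ j, D.c j = if j = e₀ then 1 else 0)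
    (hD : D.feasible = {x | (∀ j, 0 ≤ x j ∧ x j ≤ 1) ∧ Sys X (vfun x)}) (x : Fin n → ℝ)
    (q : Fin (axN X * (axN X * axN X))) :
    (axIso hn hX hM e₀ hc hD).map x q = arr X (vfun x) q := by
  show (arr X (vfun x) q - arr X (fun _ => 0) q) + arr X (fun _ => 0) q = arr X (vfun x) q
  rw [sub_add_cancel]

end Pool.Agent.Simplex.EB.Tab.Ax
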