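import Pool.Agent.Lib.MP_4d246d_lc.EB.TinyDef
import Pool.Agent.Lib.MP_4d246d_lc.EB.SlimPoly

/-!
# The reduction is computed in polynomial time
-/

namespace Pool.Agent.Simplex.EB

open Pool.Agent.Lib.PolyTime Pool.Agent.Simplex.QP

/-! ### Sums of rational numbers -/

theorem sum_eq_clr (l : List ℚ) :
    ((((clr (denZ l) l).sum : ℤ) : ℚ) / ((denZ l : ℤ) : ℚ)) = l.sum := by
  conv_rhs => rw [← clr_map l]
  generalize clr (denZ l) l = w
  generalize ((denZ l : ℤ) : ℚ) = d
  induction w with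
  | nil => simp
  | cons a w ih => rw [List.sum_cons, List.map_cons, List.sum_cons, ← ih]; push_cast; ring

section

variable {α : Type*} [TEnc α]

theorem polyF_ratSum {l : α → List ℚ} (hl : PolyF l) : PolyF (fun x => (l x).sum) :=
  ((PolyF.intSum (PolyF.clr (PolyF.denZ hl) hl)).ratOfInt.ratDiv (PolyF.denZ hl).ratOfInt).congr
    fun x => sum_eq_clr (l x)

theorem polyF_ratTwoPow {k : α → ℕ} (hk : PolyF k) : PolyF (fun x => (2 : ℚ) ^ k x) :=
  hk.intTwoPow.ratOfInt.congr fun x => by push_cast; rfl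

/-- the sum of the products -/
def dotQ (u v : List ℚ) : ℚ := (List.zipWith (fun a b => a * b) u v).sum

theorem polyF_dotQ {u v : α → List ℚ} (hu : PolyF u) (hv : PolyF v) :
    PolyF (fun x => dotQ (u x) (v x)) :=
  polyF_ratSum (PolyF.zipWith (h := fun (_ : α) (a b : ℚ) => a * b) hu hv
    (PolyF.snd'.fst.ratMul PolyF.snd'.snd))

end

theorem dotQ_ofFn {n : ℕ} (u v : Fin n → ℚ) : dotQ (List.ofFn u) (List.ofFn v) =
    ∑ j, u j * v j := by
  unfold dotQ
  rw [← List.sum_ofFn]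
  congr 1
  apply List.ext_getElem
  · simp
  · intro i h1 h2
    simp

/-! ### The homogenised program -/

theorem ofFn_homRow {n : ℕ} (a : Fin n → ℚ) (u w : ℚ) :
    List.ofFn (homRow a u w) = List.ofFn a ++ [u, w] := by
  rw [List.ofFn_add]
  congr 1
  · refine congrArg List.ofFn (funext fun j => ?_)
    exact dif_pos (show (j : ℕ) < n from j.2)
  · simp [List.ofFn_succ, homRow]

theorem ofFn_zero (n : ℕ) : List.ofFn (0 : Fin n → ℚ) = List.replicate n 0 :=
  List.ofFn_const n 0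

/-- the rows of the homogenised program, from the data -/
def homRows (K : ℕ) (d : ℕ × List (List ℚ) × List ℚ × List ℚ × List ℚ) : List (List ℚ) :=
  List.zipWith (fun (a : List ℚ) (β : ℚ) => a ++ [-β, 0]) d.2.1 d.2.2.1 ++
    [List.replicate d.1 0 ++ [2 ^ K, 0], List.replicate d.1 0 ++ [- 2 ^ K, 0],
      (d.2.2.2.1.map fun q => - (((denZ d.2.2.2.1 : ℤ) : ℚ) * q)) ++ [- 2 ^ K, 1],
      (d.2.2.2.1.map fun q => ((denZ d.2.2.2.1 : ℤ) : ℚ) * q) ++ [2 ^ K, -1]]

theorem ofFn_intC {n : ℕ} (c : Fin n → ℚ) : List.ofFn (intC c) =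
    (List.ofFn c).map fun q => ((denZ (List.ofFn c) : ℤ) : ℚ) * q := by
  rw [List.map_ofFn]
  rfl

theorem ofFn_negIntC {n : ℕ} (c : Fin n → ℚ) : List.ofFn (fun j => - intC c j) =
    (List.ofFn c).map fun q => - (((denZ (List.ofFn c) : ℤ) : ℚ) * q) := by
  rw [List.map_ofFn]
  rfl

theorem ofFn_hom (K : ℕ) {m n : ℕ} (D : QLP m n) (v : List ℚ) :
    List.ofFn (fun i => List.ofFn ((hom K D).A i)) =
      homRows K (n, List.ofFn (fun i => List.ofFn (D.A i)), List.ofFn D.b, List.ofFn D.c, v) := by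
  unfold homRows
  dsimp only
  rw [List.ofFn_add]
  congr 1
  · apply List.ext_getElem
    · simp
    · intro i h1 h2
      have hi : i < m := by simpa using h1
      rw [List.getElem_ofFn, List.getElem_zipWith, List.getElem_ofFn, List.getElem_ofFn,
        ← ofFn_homRow]
      exact congrArg List.ofFn (dif_pos (show i < m from hi))
  · have e : ∀ (f : Fin 4 → List ℚ), List.ofFn f = [f 0, f 1, f 2, f 3] := by
      intro f
      simp [List.ofFn_succ]
    rw [e]
    have h0 : (hom K D).A (Fin.natAdd m 0) = homRow 0 (2 ^ K) 0 := by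
      unfold hom
      simp
    have h1 : (hom K D).A (Fin.natAdd m 1) = homRow 0 (- 2 ^ K) 0 := by
      unfold hom
      simp
    have h2 : (hom K D).A (Fin.natAdd m 2) = homRow (fun j => - intC D.c j) (- 2 ^ K) 1 := by
      unfold hom
      simp
    have h3 : (hom K D).A (Fin.natAdd m 3) = homRow (intC D.c) (2 ^ K) (-1) := by
      unfold hom
      simp
    rw [h0, h1, h2, h3, ofFn_homRow, ofFn_homRow, ofFn_homRow, ofFn_homRow, ofFn_zero, ofFn_intC,
      ofFn_negIntC]

theorem ofFn_hom_b (K : ℕ) {m n : ℕ} (D : QLP m n) : List.ofFn (hom K D).b =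
    List.replicate m 0 ++ [1, -1, 0, 0] := by
  rw [List.ofFn_add]
  congr 1
  · rw [← ofFn_zero]
    refine congrArg List.ofFn (funext fun i => ?_)
    have := i.2
    exact (if_neg (show ¬ ((i : ℕ) = m) by omega)).trans
      (if_neg (show ¬ ((i : ℕ) = m + 1) by omega))
  · unfold hom
    simp [List.ofFn_succ]

theorem ofFn_hom_c (K : ℕ) {m n : ℕ} (D : QLP m n) : List.ofFn (hom K D).c =
    List.replicate n 0 ++ [0, 1] := by
  rw [List.ofFn_add]
  congr 1
  · rw [← ofFn_zero]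
    refine congrArg List.ofFn (funext fun i => ?_)
    have := i.2
    exact if_neg (show ¬ ((i : ℕ) = n + 1) by omega)
  · unfold hom
    simp [List.ofFn_succ]

theorem ofFn_homV (K : ℕ) {m n : ℕ} (D : QLP m n) (v : Fin n → ℚ) : List.ofFn (homV K D v) =
    (List.ofFn v).map (fun q => q / 2 ^ K) ++
      [1 / 2 ^ K, dotQ ((List.ofFn D.c).map fun q => ((denZ (List.ofFn D.c) : ℤ) : ℚ) * q)
        (List.ofFn v) / 2 ^ K + 1] := by
  unfold homV
  rw [ofFn_homRow, ← ofFn_intC, dotQ_ofFn, List.map_ofFn]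
  rfl

/-- the data of the homogenised program -/
def homData (K : ℕ) (d : ℕ × List (List ℚ) × List ℚ × List ℚ × List ℚ) :
    ℕ × List (List ℚ) × List ℚ × List ℚ × List ℚ :=
  (d.1 + 2, homRows K d, List.replicate d.2.1.length 0 ++ [1, -1, 0, 0],
    List.replicate d.1 0 ++ [0, 1], d.2.2.2.2.map (fun q => q / 2 ^ K) ++
      [1 / 2 ^ K, dotQ (d.2.2.2.1.map fun q => ((denZ d.2.2.2.1 : ℤ) : ℚ) * q)
        d.2.2.2.2 / 2 ^ K + 1])

theorem redH_data (I : {I : Input // IsTransport I}) :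
    (redH I).data = homData (kOf I.1) I.1.data := by
  show (I.1.n + 2, List.ofFn (fun i => List.ofFn ((hom (kOf I.1) I.1.lp).A i)),
    List.ofFn (hom (kOf I.1) I.1.lp).b, List.ofFn (hom (kOf I.1) I.1.lp).c,
    List.ofFn (homV (kOf I.1) I.1.lp I.1.v)) = _
  rw [ofFn_hom (kOf I.1) I.1.lp (List.ofFn I.1.v), ofFn_hom_b, ofFn_hom_c, ofFn_homV]
  unfold homData Input.data
  dsimp only
  rw [List.length_ofFn]

section

variable {α : Type*} [TEnc α]

theorem polyF_homRows {K : α → ℕ} {d : α → ℕ × List (List ℚ) × List ℚ × List ℚ × List ℚ}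
    (hK : PolyF K) (hd : PolyF d) : PolyF (fun x => homRows (K x) (d x)) := by
  have h2 := polyF_ratTwoPow hK
  have hr : PolyF (fun x => List.replicate (d x).1 (0 : ℚ)) :=
    PolyF.replicate hd.fst (PolyF.const 0)
  have hc : PolyF (fun x => (d x).2.2.2.1) := hd.snd.snd.snd.fst
  have hD : PolyF (fun p : α × ℚ => ((denZ (d p.1).2.2.2.1 : ℤ) : ℚ) * p.2) :=
    (((PolyF.denZ hc).ratOfInt).comp PolyF.fst').ratMul PolyF.snd'
  have hzip : PolyF (fun x => List.zipWith (fun (a : List ℚ) (β : ℚ) => a ++ [-β, 0]) (d x).2.1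
      (d x).2.2.1) :=
    PolyF.zipWith (h := fun (_ : α) (a : List ℚ) (β : ℚ) => a ++ [-β, 0]) hd.snd.fst
      hd.snd.snd.fst (PolyF.snd'.fst.append (PolyF.snd'.snd.ratNeg.cons
        (PolyF.singleton (PolyF.const 0))))
  exact hzip.append ((hr.append (h2.cons (PolyF.singleton (PolyF.const 0)))).cons
    ((hr.append (h2.ratNeg.cons (PolyF.singleton (PolyF.const 0)))).cons
      (((hc.map (h := fun x (q : ℚ) => - (((denZ (d x).2.2.2.1 : ℤ) : ℚ) * q)) hD.ratNeg).append
        (h2.ratNeg.cons (PolyF.singleton (PolyF.const 1)))).cons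
        (PolyF.singleton ((hc.map (h := fun x (q : ℚ) => ((denZ (d x).2.2.2.1 : ℤ) : ℚ) * q)
          hD).append (h2.cons (PolyF.singleton (PolyF.const (-1)))))))))

theorem polyF_homData {K : α → ℕ} {d : α → ℕ × List (List ℚ) × List ℚ × List ℚ × List ℚ}
    (hK : PolyF K) (hd : PolyF d) : PolyF (fun x => homData (K x) (d x)) := by
  have h2 := polyF_ratTwoPow hK
  have hc : PolyF (fun x => (d x).2.2.2.1) := hd.snd.snd.snd.fst
  have hv : PolyF (fun x => (d x).2.2.2.2) := hd.snd.snd.snd.snd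
  have hD : PolyF (fun p : α × ℚ => ((denZ (d p.1).2.2.2.1 : ℤ) : ℚ) * p.2) :=
    (((PolyF.denZ hc).ratOfInt).comp PolyF.fst').ratMul PolyF.snd'
  have hic : PolyF (fun x => (d x).2.2.2.1.map fun q => ((denZ (d x).2.2.2.1 : ℤ) : ℚ) * q) :=
    hc.map (h := fun x (q : ℚ) => ((denZ (d x).2.2.2.1 : ℤ) : ℚ) * q) hD
  refine (hd.fst.natAdd (PolyF.const 2)).pair ((polyF_homRows hK hd).pair
    (((PolyF.replicate hd.snd.fst.length (PolyF.const 0)).append (PolyF.const [1, -1, 0, 0])).pair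
      (((PolyF.replicate hd.fst (PolyF.const 0)).append (PolyF.const [0, 1])).pair
        ((hv.map (h := fun x (q : ℚ) => q / 2 ^ K x)
          (PolyF.snd'.ratDiv (h2.comp PolyF.fst'))).append ?_))))
  exact ((PolyF.const 1).ratDiv h2).cons (PolyF.singleton
    (((polyF_dotQ hic hv).ratDiv h2).ratAdd (PolyF.const 1)))

end

theorem polyF_sub : PolyF (fun I : {I : Input // IsTransport I} => I.1) :=
  (PolyF.id (α := Input)).of_enc (fun x => x.1) (fun _ => rfl) fun _ => rfl

theorem polyF_kOf : PolyF (fun I : Input => kOf I) :=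
  ((PolyF.const 8).natMul (PolyF.id (α := Input)).szFun).natAdd (PolyF.const 8)

theorem polyF_redH : PolyF redH := by
  have h1 : PolyF (fun I : {I : Input // IsTransport I} => (redH I).data) :=
    (polyF_homData (polyF_kOf.comp polyF_sub) (polyF_data.comp polyF_sub)).congr fun I =>
      (redH_data I).symm
  exact h1.of_enc (fun x => x) (fun _ => rfl) fun _ => rfl

/-! ### The table -/

/-- the right-hand sides -/
def slB (X : Mat) (b : List ℚ) : List ℚ :=
  (List.range (lines (slr X) (slc X) + lines (slr X) (slc X))).map (fun p =>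
    if p < lines (slr X) (slc X) then lsumQ (slr X) (slc X) p (tabQ X 2 (cvalQ X b))
    else - lsumQ (slr X) (slc X) (p - lines (slr X) (slc X)) (tabQ X 2 (cvalQ X b)))

/-- the costs -/
def slC (X : Mat) (c : List ℚ) : List ℚ :=
  (List.range (3 * (slr X * slc X))).map (fun q =>
    ((List.range X.1).map (fun j => if q = slp0 X j then c.getD j 0 else 0)).sum)

/-- the values of all variables, from the data -/
def wL (X : Mat) (b v : List ℚ) (k : ℕ) : ℚ :=
  if k < X.1 then v.getD k 0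
  else if k - X.1 < X.2.length then b.getD (k - X.1) 0 - dotQ (X.2.getD (k - X.1) []) v
  else 0

/-- the vertex -/
def slV (X : Mat) (b v : List ℚ) : List ℚ :=
  (List.range (3 * (slr X * slc X))).map (tabQ X 2 (wL X b v))

theorem ofFn_slim_b {m n : ℕ} (D : QLP m n) :
    List.ofFn (slimQLP D).b = slB (ofQ D).mat (List.ofFn D.b) := by
  unfold slB
  rw [← ofFn_range]
  refine congrArg List.ofFn (funext fun p => ?_)
  unfold slimQLP transportQ
  dsimp only
  induction p using Fin.addCases with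
  | left p =>
    rw [Fin.addCases_left, Fin.val_castAdd, if_pos p.2]
  | right p =>
    have h1 : ¬ (lines (slr (ofQ D).mat) (slc (ofQ D).mat) + (p : ℕ) <
      lines (slr (ofQ D).mat) (slc (ofQ D).mat)) := by omega
    rw [Fin.addCases_right, Fin.val_natAdd, if_neg h1, Nat.add_sub_cancel_left]

theorem ofFn_slim_c {m n : ℕ} (D : QLP m n) :
    List.ofFn (slimQLP D).c = slC (ofQ D).mat (List.ofFn D.c) := by
  unfold slC
  rw [← ofFn_range]
  refine congrArg List.ofFn (funext fun q => ?_)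
  show (∑ j : Fin n, if (q : ℕ) = slp0 (ofQ D).mat j then D.c j else 0) =
    ((List.range n).map _).sum
  rw [← ofFn_range, List.sum_ofFn]
  refine Finset.sum_congr rfl fun j _ => ?_
  rw [List.getD_eq_getElem _ _ (by simp), List.getElem_ofFn]

theorem wQ_eq {m n : ℕ} (D : QLP m n) (v : Fin n → ℚ) (k : ℕ) :
    wQ D v k = wL (ofQ D).mat (List.ofFn D.b) (List.ofFn v) k := by
  have hlen : (ofQ D).mat.2.length = m := mat_len _
  have hfst : (ofQ D).mat.1 = n := rfl
  unfold wQ wL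
  rw [hlen, hfst]
  by_cases h1 : k < n
  · rw [dif_pos h1, if_pos h1, List.getD_eq_getElem _ _ (by simpa using h1), List.getElem_ofFn]
  · rw [dif_neg h1, if_neg h1]
    by_cases h2 : k - n < m
    · rw [dif_pos h2, if_pos h2, List.getD_eq_getElem _ _ (by simpa using h2),
        List.getElem_ofFn, List.getD_eq_getElem _ _ (by rw [hlen]; exact h2)]
      have h3 : (ofQ D).mat.2[k - n]'(by rw [hlen]; exact h2) = List.ofFn (D.A ⟨k - n, h2⟩) :=
        List.getElem_ofFn _
      rw [h3, dotQ_ofFn]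
    · rw [dif_neg h2, if_neg h2]

theorem ofFn_slimV {m n : ℕ} (D : QLP m n) (v : Fin n → ℚ) :
    List.ofFn (slimV D v) = slV (ofQ D).mat (List.ofFn D.b) (List.ofFn v) := by
  unfold slV
  rw [← ofFn_range]
  refine congrArg List.ofFn (funext fun q => ?_)
  show tabQ _ _ (wQ D v) q = _
  rw [show wQ D v = wL (ofQ D).mat (List.ofFn D.b) (List.ofFn v) from funext (wQ_eq D v)]

/-- the data of the table program -/
def slData (X : Mat) (b c v : List ℚ) : ℕ × List (List ℚ) × List ℚ × List ℚ × List ℚ :=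
  ((slF X).1, (slF X).2, slB X b, slC X c, slV X b v)

theorem redS_data (I : {I : Input // OkS I}) : (redS I).data =
    slData (ofQ I.1.lp).mat I.1.data.2.2.1 I.1.data.2.2.2.1 I.1.data.2.2.2.2 := by
  have h1 : (ofQ (slimQLP I.1.lp)).mat = slF (ofQ I.1.lp).mat :=
    transport_mat (slr (ofQ I.1.lp).mat) (slc (ofQ I.1.lp).mat) (fun _ => 0) (fun _ => 0)
  show ((ofQ (slimQLP I.1.lp)).mat.1, (ofQ (slimQLP I.1.lp)).mat.2,
    List.ofFn (slimQLP I.1.lp).b, List.ofFn (slimQLP I.1.lp).c,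
    List.ofFn (slimV I.1.lp I.1.v)) = _
  rw [h1, ofFn_slim_b, ofFn_slim_c, ofFn_slimV]
  rfl

section

variable {α : Type*} [TEnc α]

theorem polyF_tabQ {X : α → Mat} {w : α → ℕ → ℚ} (hX : PolyF X)
    (hw : PolyF (fun p : α × ℕ => w p.1 p.2)) {q : α → ℕ} (hq : PolyF q) :
    PolyF (fun a => tabQ (X a) 2 (w a) (q a)) := by
  have hk := polyF_tk hX hq
  have hc : PolyF (fun a => cV (X a) (q a / 3 / slc (X a))) :=
    polyF_cV hX ((hq.natDiv (PolyF.const 3)).natDiv (polyF_slc hX))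
  have hv : PolyF (fun a => w a (cV (X a) (q a / 3 / slc (X a)))) :=
    hw.comp (g := fun a => (a, cV (X a) (q a / 3 / slc (X a)))) (PolyF.id.pair hc)
  have h1 : PolyF (fun a => decide (tk (X a) (q a) = 1)) := hk.natEq (PolyF.const 1)
  have h2 : PolyF (fun a => decide (tk (X a) (q a) = 2)) := hk.natEq (PolyF.const 2)
  have h3 : PolyF (fun a => (2 : ℚ) - w a (cV (X a) (q a / 3 / slc (X a)))) :=
    (PolyF.const 2).ratSub hv
  unfold tabQ
  exact PolyF.ite h1 hv (PolyF.ite h2 h3 (PolyF.const 0))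

theorem polyF_cvalQ {X : α → Mat} {b : α → List ℚ} (hX : PolyF X) (hb : PolyF b) :
    PolyF (fun p : α × ℕ => cvalQ (X p.1) (b p.1) p.2) := by
  have hX1 : PolyF (fun p : α × ℕ => X p.1) := hX.comp PolyF.fst'
  have hb1 : PolyF (fun p : α × ℕ => b p.1) := hb.comp PolyF.fst'
  exact PolyF.ite (PolyF.snd'.natLt hX1.fst) (PolyF.const 0)
    (hb1.getDL (PolyF.snd'.natSub hX1.fst) (PolyF.const 0))

theorem polyF_wL {X : α → Mat} {b v : α → List ℚ} (hX : PolyF X) (hb : PolyF b)
    (hv : PolyF v) : PolyF (fun p : α × ℕ => wL (X p.1) (b p.1) (v p.1) p.2) := by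
  have hX1 : PolyF (fun p : α × ℕ => X p.1) := hX.comp PolyF.fst'
  have hb1 : PolyF (fun p : α × ℕ => b p.1) := hb.comp PolyF.fst'
  have hv1 : PolyF (fun p : α × ℕ => v p.1) := hv.comp PolyF.fst'
  have hk : PolyF (fun p : α × ℕ => p.2 - (X p.1).1) := PolyF.snd'.natSub hX1.fst
  exact PolyF.ite (PolyF.snd'.natLt hX1.fst) (hv1.getDL PolyF.snd' (PolyF.const 0))
    (PolyF.ite (hk.natLt hX1.snd.length) ((hb1.getDL hk (PolyF.const 0)).ratSub
      (polyF_dotQ (hX1.snd.getDL hk (PolyF.const [])) hv1)) (PolyF.const 0))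

theorem polyF_lsumQ {r c p : α → ℕ} {f : α → ℕ → ℚ} (hr : PolyF r) (hc : PolyF c)
    (hp : PolyF p) (hf : PolyF (fun x : α × ℕ => f x.1 x.2)) :
    PolyF (fun a => lsumQ (r a) (c a) (p a) (f a)) := by
  refine polyF_ratSum (((PolyF.const 3).natMul (hr.natMul hc)).range.map
    (h := fun a q => if OnLine (r a) (c a) (p a) q then f a q else 0) ?_)
  exact PolyF.ite (polyF_onLine (hr.comp PolyF.fst') (hc.comp PolyF.fst') (hp.comp PolyF.fst')
    PolyF.snd') hf (PolyF.const 0)

theorem polyF_slB {X : α → Mat} {b : α → List ℚ} (hX : PolyF X) (hb : PolyF b) :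
    PolyF (fun a => slB (X a) (b a)) := by
  have hl := polyF_lines (polyF_slr hX) (polyF_slc hX)
  refine (hl.natAdd hl).range.map (h := fun a p =>
    if p < lines (slr (X a)) (slc (X a)) then
      lsumQ (slr (X a)) (slc (X a)) p (tabQ (X a) 2 (cvalQ (X a) (b a)))
    else - lsumQ (slr (X a)) (slc (X a)) (p - lines (slr (X a)) (slc (X a)))
      (tabQ (X a) 2 (cvalQ (X a) (b a)))) ?_
  have hX1 : PolyF (fun p : α × ℕ => X p.1) := hX.comp PolyF.fst'
  have hb1 : PolyF (fun p : α × ℕ => b p.1) := hb.comp PolyF.fst'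
  have hl1 := polyF_lines (polyF_slr hX1) (polyF_slc hX1)
  have hX2 : PolyF (fun p : (α × ℕ) × ℕ => X p.1.1) := hX1.comp PolyF.fst'
  have hb2 : PolyF (fun p : (α × ℕ) × ℕ => b p.1.1) := hb1.comp PolyF.fst'
  have hcv : PolyF (fun y : ((α × ℕ) × ℕ) × ℕ => cvalQ (X y.1.1.1) (b y.1.1.1) y.2) :=
    polyF_cvalQ (X := fun x : (α × ℕ) × ℕ => X x.1.1) (b := fun x : (α × ℕ) × ℕ => b x.1.1)
      hX2 hb2
  have hf : PolyF (fun x : (α × ℕ) × ℕ => tabQ (X x.1.1) 2 (cvalQ (X x.1.1) (b x.1.1)) x.2) :=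
    polyF_tabQ (X := fun x : (α × ℕ) × ℕ => X x.1.1)
      (w := fun x : (α × ℕ) × ℕ => cvalQ (X x.1.1) (b x.1.1)) (q := fun x => x.2) hX2 hcv
      PolyF.snd'
  have h1 : PolyF (fun x : α × ℕ => lsumQ (slr (X x.1)) (slc (X x.1)) x.2
      (tabQ (X x.1) 2 (cvalQ (X x.1) (b x.1)))) :=
    polyF_lsumQ (r := fun x : α × ℕ => slr (X x.1)) (c := fun x : α × ℕ => slc (X x.1))
      (p := fun x : α × ℕ => x.2)
      (f := fun x : α × ℕ => tabQ (X x.1) 2 (cvalQ (X x.1) (b x.1)))
      (polyF_slr hX1) (polyF_slc hX1) PolyF.snd' hf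
  have h2 : PolyF (fun x : α × ℕ => lsumQ (slr (X x.1)) (slc (X x.1))
      (x.2 - lines (slr (X x.1)) (slc (X x.1))) (tabQ (X x.1) 2 (cvalQ (X x.1) (b x.1)))) :=
    polyF_lsumQ (r := fun x : α × ℕ => slr (X x.1)) (c := fun x : α × ℕ => slc (X x.1))
      (p := fun x : α × ℕ => x.2 - lines (slr (X x.1)) (slc (X x.1)))
      (f := fun x : α × ℕ => tabQ (X x.1) 2 (cvalQ (X x.1) (b x.1)))
      (polyF_slr hX1) (polyF_slc hX1) (PolyF.snd'.natSub hl1) hf
  exact PolyF.ite (PolyF.snd'.natLt hl1) h1 h2.ratNeg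

theorem polyF_slC {X : α → Mat} {c : α → List ℚ} (hX : PolyF X) (hc : PolyF c) :
    PolyF (fun a => slC (X a) (c a)) := by
  refine ((PolyF.const 3).natMul ((polyF_slr hX).natMul (polyF_slc hX))).range.map
    (h := fun a q => ((List.range (X a).1).map
      (fun j => if q = slp0 (X a) j then (c a).getD j 0 else 0)).sum) ?_
  have hX1 : PolyF (fun p : α × ℕ => X p.1) := hX.comp PolyF.fst'
  refine polyF_ratSum (hX1.fst.range.map (h := fun (p : α × ℕ) j =>
    if p.2 = slp0 (X p.1) j then (c p.1).getD j 0 else 0) ?_)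
  have hX2 : PolyF (fun p : (α × ℕ) × ℕ => X p.1.1) := hX1.comp PolyF.fst'
  have hc2 : PolyF (fun p : (α × ℕ) × ℕ => c p.1.1) := hc.comp (PolyF.fst'.comp PolyF.fst')
  have hq2 : PolyF (fun p : (α × ℕ) × ℕ => p.1.2) := PolyF.snd'.comp PolyF.fst'
  exact PolyF.ite (hq2.natEq (polyF_slp0 hX2 PolyF.snd')) (hc2.getDL PolyF.snd' (PolyF.const 0))
    (PolyF.const 0)

theorem polyF_slV {X : α → Mat} {b v : α → List ℚ} (hX : PolyF X) (hb : PolyF b)
    (hv : PolyF v) : PolyF (fun a => slV (X a) (b a) (v a)) := by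
  refine ((PolyF.const 3).natMul ((polyF_slr hX).natMul (polyF_slc hX))).range.map
    (h := fun a q => tabQ (X a) 2 (wL (X a) (b a) (v a)) q) ?_
  have hX1 : PolyF (fun p : α × ℕ => X p.1) := hX.comp PolyF.fst'
  have hb1 : PolyF (fun p : α × ℕ => b p.1) := hb.comp PolyF.fst'
  have hv1 : PolyF (fun p : α × ℕ => v p.1) := hv.comp PolyF.fst'
  have hw : PolyF (fun y : (α × ℕ) × ℕ => wL (X y.1.1) (b y.1.1) (v y.1.1) y.2) :=
    polyF_wL (X := fun x : α × ℕ => X x.1) (b := fun x : α × ℕ => b x.1)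
      (v := fun x : α × ℕ => v x.1) hX1 hb1 hv1
  exact polyF_tabQ (X := fun x : α × ℕ => X x.1)
    (w := fun x : α × ℕ => wL (X x.1) (b x.1) (v x.1)) (q := fun x : α × ℕ => x.2) hX1 hw
    PolyF.snd'

theorem polyF_slData {X : α → Mat} {b c v : α → List ℚ} (hX : PolyF X) (hb : PolyF b)
    (hc : PolyF c) (hv : PolyF v) : PolyF (fun a => slData (X a) (b a) (c a) (v a)) :=
  (polyF_slF hX).fst.pair ((polyF_slF hX).snd.pair ((polyF_slB hX hb).pair
    ((polyF_slC hX hc).pair (polyF_slV hX hb hv))))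

end

theorem polyF_redS : PolyF redS := by
  have h0 : PolyF (fun I : {I : Input // OkS I} => I.1) :=
    (PolyF.id (α := Input)).of_enc (fun x => x.1) (fun _ => rfl) fun _ => rfl
  have hd := polyF_data.comp h0
  have h1 : PolyF (fun I : {I : Input // OkS I} => (redS I).data) :=
    (polyF_slData (polyF_mat.comp h0) hd.snd.snd.fst hd.snd.snd.snd.fst
      hd.snd.snd.snd.snd).congr fun I => (redS_data I).symm
  exact h1.of_enc (fun x => x) (fun _ => rfl) fun _ => rfl

theorem polyF_redIH : PolyF (fun I : {I : Input // IsTransport I} => redI (redH I)) :=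
  polyF_redI.comp polyF_redH

theorem polyF_redT : PolyF redT := by
  have h1 : PolyF (fun I : {I : Input // IsTransport I} =>
      (⟨redI (redH I), okS_red I⟩ : {I : Input // OkS I})) :=
    polyF_redIH.of_enc (fun x => x) (fun _ => rfl) fun _ => rfl
  exact polyF_redS.comp h1

/-- the way back on lists -/
def backL (I : {I : Input // IsTransport I}) (w : List ℚ) : List ℚ :=
  (List.range I.1.n).map (fun j =>
    2 ^ kOf I.1 * w.getD (slp0 (ofQ (redI (redH I)).lp).mat j) 0)

theorem backS_getD (J : Input) (w : Fin (3 * (slr (ofQ J.lp).mat * slc (ofQ J.lp).mat)) → ℚ)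
    (j : Fin J.n) : backS J w j = (List.ofFn w).getD (slp0 (ofQ J.lp).mat j) 0 := by
  unfold backS
  split_ifs with h
  · rw [List.getD_eq_getElem _ _ (by rw [List.length_ofFn]; exact h), List.getElem_ofFn]
  · rw [List.getD_eq_default _ _ (by rw [List.length_ofFn]; exact not_lt.1 h)]

theorem ofFn_backT (I : {I : Input // IsTransport I}) (w : Fin (redT I).n → ℚ) :
    List.ofFn (backT I w) = backL I (List.ofFn w) := by
  unfold backL
  rw [← ofFn_range]
  refine congrArg List.ofFn (funext fun j => ?_)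
  exact congrArg (fun t : ℚ => 2 ^ kOf I.1 * t) (backS_getD (redI (redH I)) w _)

theorem polyF_backL : PolyF (fun x : {I : Input // IsTransport I} × List ℚ =>
    backL x.1 x.2) := by
  have hI : PolyF (fun x : {I : Input // IsTransport I} × List ℚ => x.1.1) :=
    polyF_sub.comp PolyF.fst'
  have hn : PolyF (fun x : {I : Input // IsTransport I} × List ℚ => x.1.1.n) :=
    (polyF_data.comp hI).fst
  refine hn.range.map (h := fun (x : {I : Input // IsTransport I} × List ℚ) j =>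
    2 ^ kOf x.1.1 * x.2.getD (slp0 (ofQ (redI (redH x.1)).lp).mat j) 0) ?_
  have h1 : PolyF (fun p : ({I : Input // IsTransport I} × List ℚ) × ℕ => p.1.1) :=
    PolyF.fst'.comp PolyF.fst'
  have hX : PolyF (fun p : ({I : Input // IsTransport I} × List ℚ) × ℕ =>
      (ofQ (redI (redH p.1.1)).lp).mat) := polyF_mat.comp (polyF_redIH.comp h1)
  have hw : PolyF (fun p : ({I : Input // IsTransport I} × List ℚ) × ℕ => p.1.2) :=
    PolyF.snd'.comp PolyF.fst'
  exact (polyF_ratTwoPow (polyF_kOf.comp (polyF_sub.comp h1))).ratMul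
    (hw.getDL (polyF_slp0 hX PolyF.snd') (PolyF.const 0))

end Pool.Agent.Simplex.EB
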