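import Pool.Agent.Lib.MP_4d246d_lc.EB.OneDef
import Pool.Agent.Lib.MP_4d246d_lc.EB.TinyPoly

/-!
# The reduction is computed in polynomial time
-/

namespace Pool.Agent.Simplex.EB.Tab

open Pool.Agent.Lib.PolyTime Pool.Agent.Simplex.QP

/-! ### The homogenised program -/

/-- the rows of the homogenised program, from the data -/
def homRows (K : ℕ) (d : ℕ × List (List ℚ) × List ℚ × List ℚ × List ℚ) : List (List ℚ) :=
  List.zipWith (fun (a : List ℚ) (β : ℚ) => a ++ [-β, 0]) d.2.1 d.2.2.1 ++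
    [List.replicate d.1 0 ++ [2 ^ (K + 1), 0], List.replicate d.1 0 ++ [- 2 ^ (K + 1), 0],
      (d.2.2.2.1.map fun q => - (((denZ d.2.2.2.1 : ℤ) : ℚ) * q)) ++ [- 2 ^ K, 1],
      (d.2.2.2.1.map fun q => ((denZ d.2.2.2.1 : ℤ) : ℚ) * q) ++ [2 ^ K, -1]]

theorem ofFn_hom (K : ℕ) {m n : ℕ} (D : QLP m n) (v : List ℚ) :
    List.ofFn (fun i => List.ofFn ((hom K D).A i)) =
      homRows K (n, List.ofFn (fun i => List.ofFn (D.A i)), List.ofFn D.b, List.ofFn D.c, v) := by
  unfold homRows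
  dsimp only
  rw [List.ofFn_add]
  congr 1
  · apply List.ext_getElem
    · simp
    · intro i h1 h2
      have hi : i < m := by simpa using h1
      rw [List.getElem_ofFn, List.getElem_zipWith, List.getElem_ofFn, List.getElem_ofFn,
        ← ofFn_homRow]
      exact congrArg List.ofFn (dif_pos (show i < m from hi))
  · have e : ∀ (f : Fin 4 → List ℚ), List.ofFn f = [f 0, f 1, f 2, f 3] := by
      intro f
      simp [List.ofFn_succ]
    rw [e]
    have h0 : (hom K D).A (Fin.natAdd m 0) = homRow 0 (2 ^ (K + 1)) 0 := by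
      unfold hom
      simp
    have h1 : (hom K D).A (Fin.natAdd m 1) = homRow 0 (- 2 ^ (K + 1)) 0 := by
      unfold hom
      simp
    have h2 : (hom K D).A (Fin.natAdd m 2) = homRow (fun j => - intC D.c j) (- 2 ^ K) 1 := by
      unfold hom
      simp
    have h3 : (hom K D).A (Fin.natAdd m 3) = homRow (intC D.c) (2 ^ K) (-1) := by
      unfold hom
      simp
    rw [h0, h1, h2, h3, ofFn_homRow, ofFn_homRow, ofFn_homRow, ofFn_homRow, ofFn_zero, ofFn_intC,
      ofFn_negIntC]

theorem ofFn_hom_b (K : ℕ) {m n : ℕ} (D : QLP m n) : List.ofFn (hom K D).b =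
    List.replicate m 0 ++ [1, -1, 0, 0] := by
  rw [List.ofFn_add]
  congr 1
  · rw [← ofFn_zero]
    refine congrArg List.ofFn (funext fun i => ?_)
    have := i.2
    exact (if_neg (show ¬ ((i : ℕ) = m) by omega)).trans
      (if_neg (show ¬ ((i : ℕ) = m + 1) by omega))
  · unfold hom
    simp [List.ofFn_succ]

theorem ofFn_hom_c (K : ℕ) {m n : ℕ} (D : QLP m n) : List.ofFn (hom K D).c =
    List.replicate n 0 ++ [0, 1] := by
  rw [List.ofFn_add]
  congr 1
  · rw [← ofFn_zero]
    refine congrArg List.ofFn (funext fun i => ?_)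
    have := i.2
    exact if_neg (show ¬ ((i : ℕ) = n + 1) by omega)
  · unfold hom
    simp [List.ofFn_succ]

theorem ofFn_homV (K : ℕ) {m n : ℕ} (D : QLP m n) (v : Fin n → ℚ) : List.ofFn (homV K D v) =
    (List.ofFn v).map (fun q => q / 2 ^ (K + 1)) ++
      [1 / 2 ^ (K + 1), dotQ ((List.ofFn D.c).map fun q =>
        ((denZ (List.ofFn D.c) : ℤ) : ℚ) * q) (List.ofFn v) / 2 ^ (K + 1) + 1 / 2] := by
  unfold homV
  rw [ofFn_homRow, ← ofFn_intC, dotQ_ofFn, List.map_ofFn]
  rfl

/-- the data of the homogenised program -/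
def homData (K : ℕ) (d : ℕ × List (List ℚ) × List ℚ × List ℚ × List ℚ) :
    ℕ × List (List ℚ) × List ℚ × List ℚ × List ℚ :=
  (d.1 + 2, homRows K d, List.replicate d.2.1.length 0 ++ [1, -1, 0, 0],
    List.replicate d.1 0 ++ [0, 1], d.2.2.2.2.map (fun q => q / 2 ^ (K + 1)) ++
      [1 / 2 ^ (K + 1), dotQ (d.2.2.2.1.map fun q => ((denZ d.2.2.2.1 : ℤ) : ℚ) * q)
        d.2.2.2.2 / 2 ^ (K + 1) + 1 / 2])

theorem redH_data (I : {I : Input // IsTransport I}) :
    (redH I).data = homData (kOf I.1) I.1.data := by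
  show (I.1.n + 2, List.ofFn (fun i => List.ofFn ((hom (kOf I.1) I.1.lp).A i)),
    List.ofFn (hom (kOf I.1) I.1.lp).b, List.ofFn (hom (kOf I.1) I.1.lp).c,
    List.ofFn (homV (kOf I.1) I.1.lp I.1.v)) = _
  rw [ofFn_hom (kOf I.1) I.1.lp (List.ofFn I.1.v), ofFn_hom_b, ofFn_hom_c, ofFn_homV]
  unfold homData Input.data
  dsimp only
  rw [List.length_ofFn]

section

variable {α : Type*} [TEnc α]

theorem polyF_homRows {K : α → ℕ} {d : α → ℕ × List (List ℚ) × List ℚ × List ℚ × List ℚ}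
    (hK : PolyF K) (hd : PolyF d) : PolyF (fun x => homRows (K x) (d x)) := by
  have h2 := polyF_ratTwoPow hK
  have h3 : PolyF (fun x => (2 : ℚ) ^ (K x + 1)) :=
    polyF_ratTwoPow (hK.natAdd (PolyF.const 1))
  have hr : PolyF (fun x => List.replicate (d x).1 (0 : ℚ)) :=
    PolyF.replicate hd.fst (PolyF.const 0)
  have hc : PolyF (fun x => (d x).2.2.2.1) := hd.snd.snd.snd.fst
  have hD : PolyF (fun p : α × ℚ => ((denZ (d p.1).2.2.2.1 : ℤ) : ℚ) * p.2) :=
    (((PolyF.denZ hc).ratOfInt).comp PolyF.fst').ratMul PolyF.snd'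
  have hzip : PolyF (fun x => List.zipWith (fun (a : List ℚ) (β : ℚ) => a ++ [-β, 0]) (d x).2.1
      (d x).2.2.1) :=
    PolyF.zipWith (h := fun (_ : α) (a : List ℚ) (β : ℚ) => a ++ [-β, 0]) hd.snd.fst
      hd.snd.snd.fst (PolyF.snd'.fst.append (PolyF.snd'.snd.ratNeg.cons
        (PolyF.singleton (PolyF.const 0))))
  exact hzip.append ((hr.append (h3.cons (PolyF.singleton (PolyF.const 0)))).cons
    ((hr.append (h3.ratNeg.cons (PolyF.singleton (PolyF.const 0)))).cons
      (((hc.map (h := fun x (q : ℚ) => - (((denZ (d x).2.2.2.1 : ℤ) : ℚ) * q)) hD.ratNeg).append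
        (h2.ratNeg.cons (PolyF.singleton (PolyF.const 1)))).cons
        (PolyF.singleton ((hc.map (h := fun x (q : ℚ) => ((denZ (d x).2.2.2.1 : ℤ) : ℚ) * q)
          hD).append (h2.cons (PolyF.singleton (PolyF.const (-1)))))))))

theorem polyF_homData {K : α → ℕ} {d : α → ℕ × List (List ℚ) × List ℚ × List ℚ × List ℚ}
    (hK : PolyF K) (hd : PolyF d) : PolyF (fun x => homData (K x) (d x)) := by
  have h2 : PolyF (fun x => (2 : ℚ) ^ (K x + 1)) :=
    polyF_ratTwoPow (hK.natAdd (PolyF.const 1))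
  have hc : PolyF (fun x => (d x).2.2.2.1) := hd.snd.snd.snd.fst
  have hv : PolyF (fun x => (d x).2.2.2.2) := hd.snd.snd.snd.snd
  have hD : PolyF (fun p : α × ℚ => ((denZ (d p.1).2.2.2.1 : ℤ) : ℚ) * p.2) :=
    (((PolyF.denZ hc).ratOfInt).comp PolyF.fst').ratMul PolyF.snd'
  have hic : PolyF (fun x => (d x).2.2.2.1.map fun q => ((denZ (d x).2.2.2.1 : ℤ) : ℚ) * q) :=
    hc.map (h := fun x (q : ℚ) => ((denZ (d x).2.2.2.1 : ℤ) : ℚ) * q) hD
  refine (hd.fst.natAdd (PolyF.const 2)).pair ((polyF_homRows hK hd).pair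
    (((PolyF.replicate hd.snd.fst.length (PolyF.const 0)).append (PolyF.const [1, -1, 0, 0])).pair
      (((PolyF.replicate hd.fst (PolyF.const 0)).append (PolyF.const [0, 1])).pair
        ((hv.map (h := fun x (q : ℚ) => q / 2 ^ (K x + 1))
          (PolyF.snd'.ratDiv (h2.comp PolyF.fst'))).append ?_))))
  exact ((PolyF.const 1).ratDiv h2).cons (PolyF.singleton
    (((polyF_dotQ hic hv).ratDiv h2).ratAdd (PolyF.const (1 / 2))))

end

theorem polyF_redH : PolyF redH := by
  have h1 : PolyF (fun I : {I : Input // IsTransport I} => (redH I).data) :=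
    (polyF_homData (polyF_kOf.comp polyF_sub) (polyF_data.comp polyF_sub)).congr fun I =>
      (redH_data I).symm
  exact h1.of_enc (fun x => x) (fun _ => rfl) fun _ => rfl

/-! ### The table -/

section

variable {α : Type*} [TEnc α]

theorem polyF_slR {X : α → Mat} (hX : PolyF X) : PolyF (fun a => slR (X a)) :=
  hX.fst.natMul hX.snd.length

theorem polyF_slr {X : α → Mat} (hX : PolyF X) : PolyF (fun a => slr (X a)) :=
  (PolyF.const 2).natMul (polyF_slR hX)

theorem polyF_slc {X : α → Mat} (hX : PolyF X) : PolyF (fun a => slc (X a)) :=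
  (((PolyF.const 2).natMul hX.snd.length).natAdd (polyF_slR hX)).natAdd
    ((polyF_slR hX).natAdd (polyF_slR hX))

theorem polyF_cof {X : α → Mat} {s v : α → ℕ} (hX : PolyF X) (hs : PolyF s) (hv : PolyF v) :
    PolyF (fun a => cof (X a) (s a) (v a)) :=
  (hX.snd.getDL hs (PolyF.const [])).getDL hv (PolyF.const 0)

theorem polyF_cV {X : α → Mat} {e : α → ℕ} (hX : PolyF X) (he : PolyF e) :
    PolyF (fun a => cV (X a) (e a)) :=
  (he.natDiv (PolyF.const 2)).natDiv hX.snd.length

theorem polyF_cS {X : α → Mat} {e : α → ℕ} (hX : PolyF X) (he : PolyF e) :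
    PolyF (fun a => cS (X a) (e a)) :=
  (he.natDiv (PolyF.const 2)).natMod hX.snd.length

theorem polyF_hgt {X : α → Mat} {e : α → ℕ} (hX : PolyF X) (he : PolyF e) :
    PolyF (fun a => hgt (X a) (e a)) := by
  have h2 : PolyF (fun a => e a % 2) := he.natMod (PolyF.const 2)
  have hc : PolyF (fun a => cof (X a) (cS (X a) (e a)) (cV (X a) (e a))) :=
    polyF_cof hX (polyF_cS hX he) (polyF_cV hX he)
  have e0 : PolyF (fun a => decide (e a % 2 = 0)) := h2.natEq (PolyF.const 0)
  have e1 : PolyF (fun a => decide (e a % 2 = 1)) := h2.natEq (PolyF.const 1)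
  have c1 : PolyF (fun a => decide (cof (X a) (cS (X a) (e a)) (cV (X a) (e a)) = 1)) :=
    hc.eq (PolyF.const 1)
  have c2 : PolyF (fun a => decide (cof (X a) (cS (X a) (e a)) (cV (X a) (e a)) = -1)) :=
    hc.eq (PolyF.const (-1))
  exact PolyF.ite ((e0.decide_and c1).decide_or (e1.decide_and c2)) (polyF_cS hX he)
    (PolyF.ite ((e1.decide_and c1).decide_or (e0.decide_and c2))
      (hX.snd.length.natAdd (polyF_cS hX he))
      (((PolyF.const 2).natMul hX.snd.length).natAdd (he.natDiv (PolyF.const 2))))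

theorem polyF_colc {X : α → Mat} {e : α → ℕ} (hX : PolyF X) (he : PolyF e) :
    PolyF (fun a => colc (X a) (e a)) :=
  PolyF.ite ((he.natMod (PolyF.const 2)).natEq (PolyF.const 1)) (he.natDiv (PolyF.const 2))
    (((polyF_cV hX he).natMul hX.snd.length).natAdd (((polyF_cS hX he).natAdd
      (hX.snd.length.natSub (PolyF.const 1))).natMod hX.snd.length))

theorem polyF_kind {X : α → Mat} {e J K : α → ℕ} (hX : PolyF X) (he : PolyF e) (hJ : PolyF J)
    (hK : PolyF K) : PolyF (fun a => kind (X a) (e a) (J a) (K a)) := by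
  have h3 : ∀ p q r : ℕ, PolyF (fun a => if K a = 0 then p else if K a = 1 then q else r) :=
    fun p q r => PolyF.ite (hK.natEq (PolyF.const 0)) (PolyF.const p)
      (PolyF.ite (hK.natEq (PolyF.const 1)) (PolyF.const q) (PolyF.const r))
  have hm : PolyF (fun a => 2 * (X a).2.length + slR (X a)) :=
    ((PolyF.const 2).natMul hX.snd.length).natAdd (polyF_slR hX)
  exact PolyF.ite (hJ.natEq (polyF_hgt hX he)) (h3 1 2 0)
    (PolyF.ite (hJ.natEq (hm.natAdd (he.natDiv (PolyF.const 2)))) (h3 2 0 1)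
      (PolyF.ite (hJ.natEq (hm.natAdd ((polyF_slR hX).natAdd (polyF_colc hX he)))) (h3 0 1 2)
        (PolyF.const 0)))

theorem polyF_tk {X : α → Mat} {q : α → ℕ} (hX : PolyF X) (hq : PolyF q) :
    PolyF (fun a => tk (X a) (q a)) := by
  have h3 : PolyF (fun a => q a / 3) := hq.natDiv (PolyF.const 3)
  have he : PolyF (fun a => q a / 3 / slc (X a)) := h3.natDiv (polyF_slc hX)
  have hk : PolyF (fun a => kind (X a) (q a / 3 / slc (X a)) (q a / 3 % slc (X a)) (q a % 3)) :=
    polyF_kind hX he (h3.natMod (polyF_slc hX)) (hq.natMod (PolyF.const 3))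
  exact PolyF.ite ((he.natMod (PolyF.const 2)).natEq (PolyF.const 0)) hk
    (((PolyF.const 3).natSub hk).natMod (PolyF.const 3))

theorem polyF_slp0 {X : α → Mat} {v : α → ℕ} (hX : PolyF X) (hv : PolyF v) :
    PolyF (fun a => slp0 (X a) (v a)) := by
  have hvm : PolyF (fun a => v a * (X a).2.length) := hv.natMul hX.snd.length
  exact polyF_ix (polyF_slc hX) ((PolyF.const 2).natMul hvm)
    ((((PolyF.const 2).natMul hX.snd.length).natAdd (polyF_slR hX)).natAdd hvm) (PolyF.const 2)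

end

/-- the right-hand sides -/
def slB (X : Mat) (b : List ℚ) : List ℚ :=
  (List.range (lines (slr X) (slc X) + lines (slr X) (slc X))).map (fun p =>
    if p < lines (slr X) (slc X) then
      lsumQ (slr X) (slc X) p (tabQ X (fun _ => 0)) + corrQ X b p
    else - (lsumQ (slr X) (slc X) (p - lines (slr X) (slc X)) (tabQ X (fun _ => 0)) +
      corrQ X b (p - lines (slr X) (slc X))))

/-- the costs -/
def slC (X : Mat) (c : List ℚ) : List ℚ :=
  (List.range (3 * (slr X * slc X))).map (fun q =>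
    ((List.range X.1).map (fun j => if q = slp0 X j then c.getD j 0 else 0)).sum)

/-- the vertex -/
def slV (X : Mat) (v : List ℚ) : List ℚ :=
  (List.range (3 * (slr X * slc X))).map (tabQ X (fun k => v.getD k 0))

theorem ofFn_table_b {m n : ℕ} (D : QLP m n) :
    List.ofFn (tableQ D).b = slB (ofQ D).mat (List.ofFn D.b) := by
  unfold slB
  rw [← ofFn_range]
  refine congrArg List.ofFn (funext fun p => ?_)
  unfold tableQ transportQ
  dsimp only
  induction p using Fin.addCases with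
  | left p =>
    rw [Fin.addCases_left, Fin.val_castAdd, if_pos p.2]
  | right p =>
    have h1 : ¬ (lines (slr (ofQ D).mat) (slc (ofQ D).mat) + (p : ℕ) <
      lines (slr (ofQ D).mat) (slc (ofQ D).mat)) := by omega
    rw [Fin.addCases_right, Fin.val_natAdd, if_neg h1, Nat.add_sub_cancel_left]

theorem ofFn_table_c {m n : ℕ} (D : QLP m n) :
    List.ofFn (tableQ D).c = slC (ofQ D).mat (List.ofFn D.c) := by
  unfold slC
  rw [← ofFn_range]
  refine congrArg List.ofFn (funext fun q => ?_)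
  show (∑ j : Fin n, if (q : ℕ) = slp0 (ofQ D).mat j then D.c j else 0) =
    ((List.range n).map _).sum
  rw [← ofFn_range, List.sum_ofFn]
  refine Finset.sum_congr rfl fun j _ => ?_
  rw [List.getD_eq_getElem _ _ (by simp), List.getElem_ofFn]

theorem ofFn_tableV {m n : ℕ} (D : QLP m n) (v : Fin n → ℚ) :
    List.ofFn (tableV D v) = slV (ofQ D).mat (List.ofFn v) := by
  unfold slV
  rw [← ofFn_range]
  refine congrArg List.ofFn (funext fun q => ?_)
  show tabQ _ (fun k => if h : k < n then v ⟨k, h⟩ else 0) q = _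
  congr 1
  funext k
  by_cases h : k < n
  · rw [dif_pos h, List.getD_eq_getElem _ _ (by simpa using h), List.getElem_ofFn]
  · rw [dif_neg h, List.getD_eq_default _ _ (by simpa using h)]

/-- the data of the table program -/
def slData (X : Mat) (b c v : List ℚ) : ℕ × List (List ℚ) × List ℚ × List ℚ × List ℚ :=
  ((tmat (slr X) (slc X)).1, (tmat (slr X) (slc X)).2, slB X b, slC X c, slV X v)

theorem redS_data (I : {I : Input // OkT I}) : (redS I).data =
    slData (ofQ I.1.lp).mat I.1.data.2.2.1 I.1.data.2.2.2.1 I.1.data.2.2.2.2 := by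
  have h1 : (ofQ (tableQ I.1.lp)).mat = tmat (slr (ofQ I.1.lp).mat) (slc (ofQ I.1.lp).mat) :=
    transport_mat (slr (ofQ I.1.lp).mat) (slc (ofQ I.1.lp).mat) (fun _ => 0) (fun _ => 0)
  show ((ofQ (tableQ I.1.lp)).mat.1, (ofQ (tableQ I.1.lp)).mat.2,
    List.ofFn (tableQ I.1.lp).b, List.ofFn (tableQ I.1.lp).c,
    List.ofFn (tableV I.1.lp I.1.v)) = _
  rw [h1, ofFn_table_b, ofFn_table_c, ofFn_tableV]
  rfl

section

variable {α : Type*} [TEnc α]

theorem polyF_tabQ {X : α → Mat} {w : α → ℕ → ℚ} (hX : PolyF X)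
    (hw : PolyF (fun p : α × ℕ => w p.1 p.2)) {q : α → ℕ} (hq : PolyF q) :
    PolyF (fun a => tabQ (X a) (w a) (q a)) := by
  have hk := polyF_tk hX hq
  have hc : PolyF (fun a => cV (X a) (q a / 3 / slc (X a))) :=
    polyF_cV hX ((hq.natDiv (PolyF.const 3)).natDiv (polyF_slc hX))
  have hv : PolyF (fun a => w a (cV (X a) (q a / 3 / slc (X a)))) :=
    hw.comp (g := fun a => (a, cV (X a) (q a / 3 / slc (X a)))) (PolyF.id.pair hc)
  have h1 : PolyF (fun a => decide (tk (X a) (q a) = 1)) := hk.natEq (PolyF.const 1)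
  have h2 : PolyF (fun a => decide (tk (X a) (q a) = 2)) := hk.natEq (PolyF.const 2)
  have h3 : PolyF (fun a => (1 : ℚ) - w a (cV (X a) (q a / 3 / slc (X a)))) :=
    (PolyF.const 1).ratSub hv
  unfold tabQ
  exact PolyF.ite h1 hv (PolyF.ite h2 h3 (PolyF.const 0))

theorem polyF_corrQ {X : α → Mat} {b : α → List ℚ} {p : α → ℕ} (hX : PolyF X) (hb : PolyF b)
    (hp : PolyF p) : PolyF (fun a => corrQ (X a) (b a) (p a)) := by
  have hrc : PolyF (fun a => slr (X a) * slc (X a)) := (polyF_slr hX).natMul (polyF_slc hX)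
  have hd : PolyF (fun a => p a - slr (X a) * slc (X a)) := hp.natSub hrc
  have hd3 : PolyF (fun a => (p a - slr (X a) * slc (X a)) / 3) := hd.natDiv (PolyF.const 3)
  have hm3 : PolyF (fun a => (p a - slr (X a) * slc (X a)) % 3) := hd.natMod (PolyF.const 3)
  have hM : PolyF (fun a => (X a).2.length) := hX.snd.length
  have hb1 : PolyF (fun a => (b a).getD ((p a - slr (X a) * slc (X a)) / 3) 0) :=
    hb.getDL hd3 (PolyF.const 0)
  have hb2 : PolyF (fun a => (b a).getD ((p a - slr (X a) * slc (X a)) / 3 -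
      (X a).2.length) 0) := hb.getDL (hd3.natSub hM) (PolyF.const 0)
  have m0 : PolyF (fun a => decide ((p a - slr (X a) * slc (X a)) % 3 = 0)) :=
    hm3.natEq (PolyF.const 0)
  have m1 : PolyF (fun a => decide ((p a - slr (X a) * slc (X a)) % 3 = 1)) :=
    hm3.natEq (PolyF.const 1)
  unfold corrQ
  exact PolyF.ite (hp.natLt hrc) (PolyF.const 0) (PolyF.ite (hd3.natLt hM)
    (PolyF.ite m0 hb1 (PolyF.ite m1 hb1.ratNeg (PolyF.const 0)))
    (PolyF.ite (hd3.natLt ((PolyF.const 2).natMul hM))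
      (PolyF.ite m0 hb2.ratNeg (PolyF.ite m1 hb2 (PolyF.const 0))) (PolyF.const 0)))

theorem polyF_slB {X : α → Mat} {b : α → List ℚ} (hX : PolyF X) (hb : PolyF b) :
    PolyF (fun a => slB (X a) (b a)) := by
  have hl := polyF_lines (polyF_slr hX) (polyF_slc hX)
  refine (hl.natAdd hl).range.map (h := fun a p =>
    if p < lines (slr (X a)) (slc (X a)) then
      lsumQ (slr (X a)) (slc (X a)) p (tabQ (X a) (fun _ => 0)) + corrQ (X a) (b a) p
    else - (lsumQ (slr (X a)) (slc (X a)) (p - lines (slr (X a)) (slc (X a)))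
      (tabQ (X a) (fun _ => 0)) + corrQ (X a) (b a) (p - lines (slr (X a)) (slc (X a))))) ?_
  have hX1 : PolyF (fun p : α × ℕ => X p.1) := hX.comp PolyF.fst'
  have hb1 : PolyF (fun p : α × ℕ => b p.1) := hb.comp PolyF.fst'
  have hl1 := polyF_lines (polyF_slr hX1) (polyF_slc hX1)
  have hX2 : PolyF (fun p : (α × ℕ) × ℕ => X p.1.1) := hX1.comp PolyF.fst'
  have hcv : PolyF (fun _ : ((α × ℕ) × ℕ) × ℕ => (0 : ℚ)) := PolyF.const 0
  have hf : PolyF (fun x : (α × ℕ) × ℕ => tabQ (X x.1.1) (fun _ => 0) x.2) :=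
    polyF_tabQ (X := fun x : (α × ℕ) × ℕ => X x.1.1)
      (w := fun _ : (α × ℕ) × ℕ => fun _ => 0) (q := fun x => x.2) hX2 hcv PolyF.snd'
  have hpl : PolyF (fun x : α × ℕ => x.2 - lines (slr (X x.1)) (slc (X x.1))) :=
    PolyF.snd'.natSub hl1
  have h1 : PolyF (fun x : α × ℕ => lsumQ (slr (X x.1)) (slc (X x.1)) x.2
      (tabQ (X x.1) (fun _ => 0))) :=
    polyF_lsumQ (r := fun x : α × ℕ => slr (X x.1)) (c := fun x : α × ℕ => slc (X x.1))
      (p := fun x : α × ℕ => x.2) (f := fun x : α × ℕ => tabQ (X x.1) (fun _ => 0))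
      (polyF_slr hX1) (polyF_slc hX1) PolyF.snd' hf
  have h2 : PolyF (fun x : α × ℕ => lsumQ (slr (X x.1)) (slc (X x.1))
      (x.2 - lines (slr (X x.1)) (slc (X x.1))) (tabQ (X x.1) (fun _ => 0))) :=
    polyF_lsumQ (r := fun x : α × ℕ => slr (X x.1)) (c := fun x : α × ℕ => slc (X x.1))
      (p := fun x : α × ℕ => x.2 - lines (slr (X x.1)) (slc (X x.1)))
      (f := fun x : α × ℕ => tabQ (X x.1) (fun _ => 0))
      (polyF_slr hX1) (polyF_slc hX1) hpl hf
  have h3 : PolyF (fun x : α × ℕ => corrQ (X x.1) (b x.1) x.2) :=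
    polyF_corrQ (X := fun x : α × ℕ => X x.1) (b := fun x : α × ℕ => b x.1)
      (p := fun x : α × ℕ => x.2) hX1 hb1 PolyF.snd'
  have h4 : PolyF (fun x : α × ℕ => corrQ (X x.1) (b x.1)
      (x.2 - lines (slr (X x.1)) (slc (X x.1)))) :=
    polyF_corrQ (X := fun x : α × ℕ => X x.1) (b := fun x : α × ℕ => b x.1)
      (p := fun x : α × ℕ => x.2 - lines (slr (X x.1)) (slc (X x.1))) hX1 hb1 hpl
  exact PolyF.ite (PolyF.snd'.natLt hl1) (h1.ratAdd h3) (h2.ratAdd h4).ratNeg

theorem polyF_slC {X : α → Mat} {c : α → List ℚ} (hX : PolyF X) (hc : PolyF c) :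
    PolyF (fun a => slC (X a) (c a)) := by
  refine ((PolyF.const 3).natMul ((polyF_slr hX).natMul (polyF_slc hX))).range.map
    (h := fun a q => ((List.range (X a).1).map
      (fun j => if q = slp0 (X a) j then (c a).getD j 0 else 0)).sum) ?_
  have hX1 : PolyF (fun p : α × ℕ => X p.1) := hX.comp PolyF.fst'
  refine polyF_ratSum (hX1.fst.range.map (h := fun (p : α × ℕ) j =>
    if p.2 = slp0 (X p.1) j then (c p.1).getD j 0 else 0) ?_)
  have hX2 : PolyF (fun p : (α × ℕ) × ℕ => X p.1.1) := hX1.comp PolyF.fst'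
  have hc2 : PolyF (fun p : (α × ℕ) × ℕ => c p.1.1) := hc.comp (PolyF.fst'.comp PolyF.fst')
  have hq2 : PolyF (fun p : (α × ℕ) × ℕ => p.1.2) := PolyF.snd'.comp PolyF.fst'
  exact PolyF.ite (hq2.natEq (polyF_slp0 hX2 PolyF.snd')) (hc2.getDL PolyF.snd' (PolyF.const 0))
    (PolyF.const 0)

theorem polyF_slV {X : α → Mat} {v : α → List ℚ} (hX : PolyF X) (hv : PolyF v) :
    PolyF (fun a => slV (X a) (v a)) := by
  refine ((PolyF.const 3).natMul ((polyF_slr hX).natMul (polyF_slc hX))).range.map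
    (h := fun a q => tabQ (X a) (fun k => (v a).getD k 0) q) ?_
  have hX1 : PolyF (fun p : α × ℕ => X p.1) := hX.comp PolyF.fst'
  have hv2 : PolyF (fun p : (α × ℕ) × ℕ => v p.1.1) := hv.comp (PolyF.fst'.comp PolyF.fst')
  have hw : PolyF (fun y : (α × ℕ) × ℕ => (v y.1.1).getD y.2 0) :=
    hv2.getDL PolyF.snd' (PolyF.const 0)
  exact polyF_tabQ (X := fun x : α × ℕ => X x.1)
    (w := fun x : α × ℕ => fun k => (v x.1).getD k 0) (q := fun x : α × ℕ => x.2) hX1 hw
    PolyF.snd'

theorem polyF_slData {X : α → Mat} {b c v : α → List ℚ} (hX : PolyF X) (hb : PolyF b)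
    (hc : PolyF c) (hv : PolyF v) : PolyF (fun a => slData (X a) (b a) (c a) (v a)) := by
  have ht : PolyF (fun a => tmat (slr (X a)) (slc (X a))) :=
    polyF_tmat (polyF_slr hX) (polyF_slc hX)
  exact ht.fst.pair (ht.snd.pair ((polyF_slB hX hb).pair ((polyF_slC hX hc).pair
    (polyF_slV hX hv))))

end

theorem polyF_redS : PolyF redS := by
  have h0 : PolyF (fun I : {I : Input // OkT I} => I.1) :=
    (PolyF.id (α := Input)).of_enc (fun x => x.1) (fun _ => rfl) fun _ => rfl
  have hd := polyF_data.comp h0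
  have h1 : PolyF (fun I : {I : Input // OkT I} => (redS I).data) :=
    (polyF_slData (polyF_mat.comp h0) hd.snd.snd.fst hd.snd.snd.snd.fst
      hd.snd.snd.snd.snd).congr fun I => (redS_data I).symm
  exact h1.of_enc (fun x => x) (fun _ => rfl) fun _ => rfl

theorem polyF_redIH : PolyF (fun I : {I : Input // IsTransport I} => redI (redH I)) :=
  polyF_redI.comp polyF_redH

theorem polyF_redT : PolyF redT := by
  have h1 : PolyF (fun I : {I : Input // IsTransport I} =>
      (⟨redI (redH I), okT_red I⟩ : {I : Input // OkT I})) :=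
    polyF_redIH.of_enc (fun x => x) (fun _ => rfl) fun _ => rfl
  exact polyF_redS.comp h1

/-- the way back on lists -/
def backL (I : {I : Input // IsTransport I}) (w : List ℚ) : List ℚ :=
  (List.range I.1.n).map (fun j =>
    2 ^ (kOf I.1 + 1) * w.getD (slp0 (ofQ (redI (redH I)).lp).mat j) 0)

theorem backS_getD (J : Input) (w : Fin (3 * (slr (ofQ J.lp).mat * slc (ofQ J.lp).mat)) → ℚ)
    (j : Fin J.n) : backS J w j = (List.ofFn w).getD (slp0 (ofQ J.lp).mat j) 0 := by
  unfold backS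
  split_ifs with h
  · rw [List.getD_eq_getElem _ _ (by rw [List.length_ofFn]; exact h), List.getElem_ofFn]
  · rw [List.getD_eq_default _ _ (by rw [List.length_ofFn]; exact not_lt.1 h)]

theorem ofFn_backT (I : {I : Input // IsTransport I}) (w : Fin (redT I).n → ℚ) :
    List.ofFn (backT I w) = backL I (List.ofFn w) := by
  unfold backL
  rw [← ofFn_range]
  refine congrArg List.ofFn (funext fun j => ?_)
  exact congrArg (fun t : ℚ => 2 ^ (kOf I.1 + 1) * t) (backS_getD (redI (redH I)) w _)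

theorem polyF_backL : PolyF (fun x : {I : Input // IsTransport I} × List ℚ =>
    backL x.1 x.2) := by
  have hI : PolyF (fun x : {I : Input // IsTransport I} × List ℚ => x.1.1) :=
    polyF_sub.comp PolyF.fst'
  have hn : PolyF (fun x : {I : Input // IsTransport I} × List ℚ => x.1.1.n) :=
    (polyF_data.comp hI).fst
  refine hn.range.map (h := fun (x : {I : Input // IsTransport I} × List ℚ) j =>
    2 ^ (kOf x.1.1 + 1) * x.2.getD (slp0 (ofQ (redI (redH x.1)).lp).mat j) 0) ?_
  have h1 : PolyF (fun p : ({I : Input // IsTransport I} × List ℚ) × ℕ => p.1.1) :=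
    PolyF.fst'.comp PolyF.fst'
  have hX : PolyF (fun p : ({I : Input // IsTransport I} × List ℚ) × ℕ =>
      (ofQ (redI (redH p.1.1)).lp).mat) := polyF_mat.comp (polyF_redIH.comp h1)
  have hw : PolyF (fun p : ({I : Input // IsTransport I} × List ℚ) × ℕ => p.1.2) :=
    PolyF.snd'.comp PolyF.fst'
  exact (polyF_ratTwoPow ((polyF_kOf.comp (polyF_sub.comp h1)).natAdd (PolyF.const 1))).ratMul
    (hw.getDL (polyF_slp0 hX PolyF.snd') (PolyF.const 0))

end Pool.Agent.Simplex.EB.Tab
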