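import Pool.Agent.Lib.MP_4d246d_lc.EB.AxRed
import Pool.Agent.Lib.MP_4d246d_lc.EB.AxSize
import Pool.Agent.Lib.MP_4d246d_lc.EB.OnePoly

/-!
# The reduction to assignment programs is computed in polynomial time
-/

namespace Pool.Agent.Simplex.EB.Tab.Ax

open Pool.Agent.Lib.PolyTime Pool.Agent.Simplex.QP

section

variable {α : Type*} [TEnc α] {X : α → Mat} {e i q s v a ρ : α → ℕ}

theorem polyF_axN (hX : PolyF X) : PolyF (fun x => axN (X x)) :=
  hX.snd.length.natAdd ((PolyF.const 4).natMul (polyF_slR hX))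

private theorem polyF_num0 (hX : PolyF X) (he : PolyF e) : PolyF (fun x => num0 (X x) (e x)) := by
  have h2 : PolyF (fun x => e x % 2) := he.natMod (PolyF.const 2)
  have hc : PolyF (fun x => cof (X x) (cS (X x) (e x)) (cV (X x) (e x))) :=
    polyF_cof hX (polyF_cS hX he) (polyF_cV hX he)
  have e0 : PolyF (fun x => decide (e x % 2 = 0)) := h2.natEq (PolyF.const 0)
  have e1 : PolyF (fun x => decide (e x % 2 = 1)) := h2.natEq (PolyF.const 1)
  have c1 : PolyF (fun x => decide (cof (X x) (cS (X x) (e x)) (cV (X x) (e x)) = 1)) :=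
    hc.eq (PolyF.const 1)
  have c2 : PolyF (fun x => decide (cof (X x) (cS (X x) (e x)) (cV (X x) (e x)) = -1)) :=
    hc.eq (PolyF.const (-1))
  exact PolyF.ite ((e0.decide_and c1).decide_or (e1.decide_and c2)) (polyF_cS hX he)
    (hX.snd.length.natAdd he)

private theorem polyF_num (hX : PolyF X) (hi : PolyF i) (he : PolyF e) :
    PolyF (fun x => num (X x) (i x) (e x)) :=
  PolyF.ite (hi.natEq (PolyF.const 0)) (polyF_num0 hX he)
    (PolyF.ite (hi.natEq (PolyF.const 1))
      ((hX.snd.length.natAdd ((PolyF.const 2).natMul (polyF_slR hX))).natAdd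
        (he.natDiv (PolyF.const 2)))
      ((hX.snd.length.natAdd ((PolyF.const 3).natMul (polyF_slR hX))).natAdd
        (polyF_colc hX he)))

private theorem polyF_ix3 {N a b c : α → ℕ} (hN : PolyF N) (ha : PolyF a) (hb : PolyF b)
    (hc : PolyF c) : PolyF (fun x => ix3 (N x) (a x) (b x) (c x)) :=
  (((ha.natMul hN).natAdd hb).natMul hN).natAdd hc

private theorem polyF_pos (hX : PolyF X) (hρ : PolyF ρ) (he : PolyF e) :
    PolyF (fun x => pos (X x) (ρ x) (e x)) :=
  polyF_ix3 (polyF_axN hX)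
    (polyF_num hX (((PolyF.const (0 + 3)).natSub hρ).natMod (PolyF.const 3)) he)
    (polyF_num hX (((PolyF.const (1 + 3)).natSub hρ).natMod (PolyF.const 3)) he)
    (polyF_num hX (((PolyF.const (2 + 3)).natSub hρ).natMod (PolyF.const 3)) he)

private theorem polyF_dpos (hX : PolyF X) (ha : PolyF a) : PolyF (fun x => dpos (X x) (a x)) :=
  polyF_ix3 (polyF_axN hX) ha ha ha

theorem polyF_vpos (hX : PolyF X) (hv : PolyF v) : PolyF (fun x => vpos (X x) (v x)) :=
  polyF_pos hX (PolyF.const 0) ((PolyF.const 2).natMul (hv.natMul hX.snd.length))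

private theorem polyF_zeroRow (hX : PolyF X) (hs : PolyF s) :
    PolyF (fun x => decide (ZeroRow (X x) (s x))) := by
  refine (PolyF.forallLt (n := fun x => (X x).1) (p := fun x v => cof (X x) (s x) v = 0) hX.fst
    ?_).decide_congr fun x => Iff.rfl
  exact (polyF_cof (hX.comp PolyF.fst') (hs.comp PolyF.fst') PolyF.snd').eq (PolyF.const 0)

theorem polyF_supp (hX : PolyF X) (hq : PolyF q) :
    PolyF (fun x => decide (Supp (X x) (q x))) := by
  have hX1 : PolyF (fun p : α × ℕ => X p.1) := hX.comp PolyF.fst'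
  have hq1 : PolyF (fun p : α × ℕ => q p.1) := hq.comp PolyF.fst'
  have hX2 : PolyF (fun p : (α × ℕ) × ℕ => X p.1.1) := hX1.comp PolyF.fst'
  have hq2 : PolyF (fun p : (α × ℕ) × ℕ => q p.1.1) := hq1.comp PolyF.fst'
  have hR2 : PolyF (fun x => 2 * slR (X x)) := (PolyF.const 2).natMul (polyF_slR hX)
  have hR21 : PolyF (fun p : α × ℕ => 2 * slR (X p.1)) := hR2.comp PolyF.fst'
  have h1 : PolyF (fun p : α × ℕ => decide (∃ e < 2 * slR (X p.1), q p.1 = pos (X p.1) p.2 e)) :=
    PolyF.existsLt (n := fun p : α × ℕ => 2 * slR (X p.1))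
      (p := fun p e => q p.1 = pos (X p.1) p.2 e) hR21
      (hq2.natEq (polyF_pos hX2 (PolyF.snd'.comp PolyF.fst') PolyF.snd'))
  have h2 := PolyF.existsLt (n := fun _ : α => 3)
    (p := fun x ρ => ∃ e < 2 * slR (X x), q x = pos (X x) ρ e) (PolyF.const 3) h1
  have h3 : PolyF (fun x => decide (∃ a < (X x).2.length + 2 * slR (X x), q x = dpos (X x) a ∧
      (a < (X x).2.length → ZeroRow (X x) a))) :=
    PolyF.existsLt (n := fun x => (X x).2.length + 2 * slR (X x))
      (p := fun x a => q x = dpos (X x) a ∧ (a < (X x).2.length → ZeroRow (X x) a))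
      (hX.snd.length.natAdd hR2)
      (PolyF.decide_and (hq1.natEq (polyF_dpos hX1 PolyF.snd'))
        (PolyF.decide_imp (PolyF.snd'.natLt hX1.snd.length) (polyF_zeroRow hX1 PolyF.snd')))
  exact (h2.decide_or h3).decide_congr fun x => Iff.rfl

private theorem sum_range_list (n : ℕ) (f : ℕ → ℚ) :
    ∑ i ∈ Finset.range n, f i = ((List.range n).map f).sum :=
  Multiset.sum_coe _

private theorem polyF_finSum {n : α → ℕ} {f : α → ℕ → ℚ} (hn : PolyF n)
    (hf : PolyF (fun p : α × ℕ => f p.1 p.2)) :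
    PolyF (fun x => ∑ i ∈ Finset.range (n x), f x i) :=
  (polyF_ratSum (hn.range.map (h := f) hf)).congr fun _ => (sum_range_list _ _).symm

private theorem polyF_yvQ {w : α → ℕ → ℚ} (hX : PolyF X)
    (hw : PolyF (fun p : α × ℕ => w p.1 p.2)) (he : PolyF e) :
    PolyF (fun x => yvQ (X x) (w x) (e x)) := by
  have h1 : PolyF (fun x => w x (cV (X x) (e x))) :=
    hw.comp (g := fun x => (x, cV (X x) (e x))) (PolyF.id.pair (polyF_cV hX he))
  exact PolyF.ite ((he.natMod (PolyF.const 2)).natEq (PolyF.const 0)) h1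
    ((PolyF.const 1).ratSub h1)

private theorem polyF_dvalQ {w : α → ℕ → ℚ} (hX : PolyF X)
    (hw : PolyF (fun p : α × ℕ => w p.1 p.2)) (ha : PolyF a) :
    PolyF (fun x => dvalQ (X x) (w x) (a x)) := by
  have h1 : PolyF (fun x => a x - (X x).2.length) := ha.natSub hX.snd.length
  exact PolyF.ite (ha.natLt hX.snd.length) (polyF_ind (polyF_zeroRow hX ha))
    (PolyF.ite ((polyF_num0 hX h1).natEq ha) ((PolyF.const 1).ratSub (polyF_yvQ hX hw h1))
      (PolyF.const 1))

theorem polyF_arrQ {w : α → ℕ → ℚ} (hX : PolyF X)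
    (hw : PolyF (fun p : α × ℕ => w p.1 p.2)) (hq : PolyF q) :
    PolyF (fun x => arrQ (X x) (w x) (q x)) := by
  have hX1 : PolyF (fun p : α × ℕ => X p.1) := hX.comp PolyF.fst'
  have hq1 : PolyF (fun p : α × ℕ => q p.1) := hq.comp PolyF.fst'
  have hw1 : PolyF (fun p : (α × ℕ) × ℕ => w p.1.1 p.2) :=
    hw.comp (g := fun p : (α × ℕ) × ℕ => (p.1.1, p.2))
      ((PolyF.fst'.comp PolyF.fst').pair PolyF.snd')
  have hX2 : PolyF (fun p : (α × ℕ) × ℕ => X p.1.1) := hX1.comp PolyF.fst'
  have hq2 : PolyF (fun p : (α × ℕ) × ℕ => q p.1.1) := hq1.comp PolyF.fst'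
  have hw2 : PolyF (fun p : ((α × ℕ) × ℕ) × ℕ => w p.1.1.1 p.2) :=
    hw.comp (g := fun p : ((α × ℕ) × ℕ) × ℕ => (p.1.1.1, p.2))
      ((PolyF.fst'.comp (PolyF.fst'.comp PolyF.fst')).pair PolyF.snd')
  have hR2 : PolyF (fun x => 2 * slR (X x)) := (PolyF.const 2).natMul (polyF_slR hX)
  have hR21 : PolyF (fun p : α × ℕ => 2 * slR (X p.1)) := hR2.comp PolyF.fst'
  have h1 : PolyF (fun p : α × ℕ => ∑ e ∈ Finset.range (2 * slR (X p.1)),
      if q p.1 = pos (X p.1) p.2 e then yvQ (X p.1) (w p.1) e else 0) :=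
    polyF_finSum (f := fun (p : α × ℕ) e =>
      if q p.1 = pos (X p.1) p.2 e then yvQ (X p.1) (w p.1) e else 0) hR21
      (PolyF.ite (hq2.natEq (polyF_pos hX2 (PolyF.snd'.comp PolyF.fst') PolyF.snd'))
        (polyF_yvQ (X := fun p : (α × ℕ) × ℕ => X p.1.1) (w := fun p => w p.1.1)
          (e := fun p => p.2) hX2 hw2 PolyF.snd') (PolyF.const 0))
  have h2 : PolyF (fun x => ∑ ρ ∈ Finset.range 3, ∑ e ∈ Finset.range (2 * slR (X x)),
      if q x = pos (X x) ρ e then yvQ (X x) (w x) e else 0) :=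
    polyF_finSum (f := fun x ρ => ∑ e ∈ Finset.range (2 * slR (X x)),
      if q x = pos (X x) ρ e then yvQ (X x) (w x) e else 0) (PolyF.const 3) h1
  have h3 : PolyF (fun x => ∑ a ∈ Finset.range ((X x).2.length + 2 * slR (X x)),
      if q x = dpos (X x) a then dvalQ (X x) (w x) a else 0) :=
    polyF_finSum (f := fun x a => if q x = dpos (X x) a then dvalQ (X x) (w x) a else 0)
      (hX.snd.length.natAdd hR2)
      (PolyF.ite (hq1.natEq (polyF_dpos hX1 PolyF.snd'))
        (polyF_dvalQ (X := fun p : α × ℕ => X p.1) (w := fun p => w p.1) (a := fun p => p.2)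
          hX1 hw1 PolyF.snd') (PolyF.const 0))
  exact h2.ratAdd h3

private theorem polyF_penExp {N : α → ℕ} (hN : PolyF N) : PolyF (fun x => penExp (N x)) := by
  have h1 : PolyF (fun x => N x * (N x * N x) + 1) :=
    (hN.natMul (hN.natMul hN)).natAdd (PolyF.const 1)
  refine (((PolyF.const 6).natMul (h1.natMul h1)).natAdd (PolyF.const 1)).congr fun x => ?_
  unfold penExp
  rw [sq]

end

/-! ### The data -/

/-- the matrix of the system of literals from the data -/
private def nmatL (n : ℕ) (A : List (List ℚ)) (b : List ℚ) : Mat := (n, List.zipWith nrow b A)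

private theorem nmat_eq {m n : ℕ} (D : QLP m n) :
    nmat D = nmatL n (List.ofFn fun i => List.ofFn (D.A i)) (List.ofFn D.b) := by
  unfold nmat nmatL
  refine Prod.ext rfl ?_
  apply List.ext_getElem
  · simp
  · intro i h1 h2
    simp

private theorem nmat_data (I : Input) : nmat I.lp = nmatL I.data.1 I.data.2.1 I.data.2.2.1 :=
  nmat_eq I.lp

private theorem polyF_nrow {α : Type*} [TEnc α] {b : α → ℚ} {r : α → List ℚ} (hb : PolyF b)
    (hr : PolyF r) : PolyF (fun x => nrow (b x) (r x)) := by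
  have h1 : PolyF (fun x => ((r x).filter (fun a => decide (a = -1))).length) :=
    (hr.filter (p := fun (_ : α) (a : ℚ) => decide (a = -1))
      (PolyF.snd'.eq (PolyF.const (-1)))).length
  have h2 : PolyF (fun x => (r x).map (fun a => if a = 0 then (0 : ℚ) else 1)) :=
    hr.map (h := fun (_ : α) (a : ℚ) => if a = 0 then (0 : ℚ) else 1)
      (PolyF.ite (PolyF.snd'.eq (PolyF.const 0)) (PolyF.const 0) (PolyF.const 1))
  have h3 : PolyF (fun x => (r x).map (fun _ => (0 : ℚ))) :=
    hr.map (h := fun (_ : α) (_ : ℚ) => (0 : ℚ)) (PolyF.const 0)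
  exact PolyF.ite ((hb.eq (PolyF.const 0)).decide_and (h1.natEq (PolyF.const 1))) hr
    (PolyF.ite (hb.eq (PolyF.const (-1))) h2 h3)

theorem polyF_nmat : PolyF (fun I : Input => nmat I.lp) := by
  have hd := polyF_data
  have h1 : PolyF (fun I : Input => List.zipWith nrow I.data.2.2.1 I.data.2.1) :=
    PolyF.zipWith (h := fun (_ : Input) (b : ℚ) (r : List ℚ) => nrow b r) hd.snd.snd.fst
      hd.snd.fst (polyF_nrow PolyF.snd'.fst PolyF.snd'.snd)
  exact (hd.fst.pair h1).congr fun I => (nmat_data I).symm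

/-- the costs -/
private def pcL (X : Mat) (c : List ℚ) : List ℚ :=
  (List.range (axN X * (axN X * axN X))).map (fun q =>
    ((List.range X.1).map (fun j => if q = vpos X j then c.getD j 0 else 0)).sum -
      if Supp X q then 0 else 2 ^ penExp (axN X))

/-- the vertex -/
private def arL (X : Mat) (v : List ℚ) : List ℚ :=
  (List.range (axN X * (axN X * axN X))).map (arrQ X (fun k => v.getD k 0))

private theorem ofFn_pc {m n : ℕ} (D : QLP m n) :
    List.ofFn (assignD D).c = pcL (nmat D) (List.ofFn D.c) := by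
  unfold pcL
  rw [← ofFn_range]
  refine congrArg List.ofFn (funext fun q => ?_)
  show (∑ j : Fin n, if (q : ℕ) = vpos (nmat D) j then D.c j else 0) - _ =
    ((List.range n).map _).sum - _
  congr 1
  rw [← ofFn_range, List.sum_ofFn]
  refine Finset.sum_congr rfl fun j _ => ?_
  rw [List.getD_eq_getElem _ _ (by simp), List.getElem_ofFn]

private theorem ofFn_ar {m n : ℕ} (D : QLP m n) (v : Fin n → ℚ) :
    List.ofFn (assignV D v) = arL (nmat D) (List.ofFn v) := by
  unfold arL
  rw [← ofFn_range]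
  refine congrArg List.ofFn (funext fun q => ?_)
  show arrQ _ (fun k => if h : k < n then v ⟨k, h⟩ else 0) q = _
  congr 1
  funext k
  by_cases h : k < n
  · rw [dif_pos h, List.getD_eq_getElem _ _ (by simpa using h), List.getElem_ofFn]
  · rw [dif_neg h, List.getD_eq_default _ _ (by simpa using h)]

private theorem ofFn_ab {m n : ℕ} (D : QLP m n) :
    List.ofFn (assignD D).b = List.replicate (3 * axN (nmat D)) 1 ++
      List.replicate (3 * axN (nmat D)) (-1) := by
  rw [List.ofFn_add]
  congr 1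
  · rw [← List.ofFn_const]
    refine congrArg List.ofFn (funext fun i => ?_)
    exact Fin.addCases_left (motive := fun _ => ℚ) (left := fun _ => (1 : ℚ))
      (right := fun _ : Fin (3 * axN (nmat D)) => (-1 : ℚ)) i
  · rw [← List.ofFn_const]
    refine congrArg List.ofFn (funext fun i => ?_)
    exact Fin.addCases_right (motive := fun _ => ℚ)
      (left := fun _ : Fin (3 * axN (nmat D)) => (1 : ℚ)) (right := fun _ => (-1 : ℚ)) i

/-- the data of the assignment program -/
private def axData (X : Mat) (c v : List ℚ) : ℕ × List (List ℚ) × List ℚ × List ℚ × List ℚ :=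
  ((amat (axN X)).1, (amat (axN X)).2, List.replicate (3 * axN X) 1 ++
    List.replicate (3 * axN X) (-1), pcL X c, arL X v)

private theorem redA_data (I : {I : Input // OkA I}) : (redA I).data =
    axData (nmat I.1.lp) I.1.data.2.2.2.1 I.1.data.2.2.2.2 := by
  have h1 : (ofQ (assignD I.1.lp)).mat = amat (axN (nmat I.1.lp)) :=
    assign_mat (axN (nmat I.1.lp)) (fun _ => 0)
  show ((ofQ (assignD I.1.lp)).mat.1, (ofQ (assignD I.1.lp)).mat.2,
    List.ofFn (assignD I.1.lp).b, List.ofFn (assignD I.1.lp).c,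
    List.ofFn (assignV I.1.lp I.1.v)) = _
  rw [h1, ofFn_ab, ofFn_pc, ofFn_ar]
  rfl

section

variable {α : Type*} [TEnc α]

private theorem polyF_pcL {X : α → Mat} {c : α → List ℚ} (hX : PolyF X) (hc : PolyF c) :
    PolyF (fun x => pcL (X x) (c x)) := by
  have hN := polyF_axN hX
  refine (hN.natMul (hN.natMul hN)).range.map (h := fun x q =>
    ((List.range (X x).1).map (fun j => if q = vpos (X x) j then (c x).getD j 0 else 0)).sum -
      if Supp (X x) q then 0 else 2 ^ penExp (axN (X x))) ?_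
  have hX1 : PolyF (fun p : α × ℕ => X p.1) := hX.comp PolyF.fst'
  have hX2 : PolyF (fun p : (α × ℕ) × ℕ => X p.1.1) := hX1.comp PolyF.fst'
  have hc2 : PolyF (fun p : (α × ℕ) × ℕ => c p.1.1) := hc.comp (PolyF.fst'.comp PolyF.fst')
  have hq2 : PolyF (fun p : (α × ℕ) × ℕ => p.1.2) := PolyF.snd'.comp PolyF.fst'
  have h1 : PolyF (fun p : α × ℕ => ((List.range (X p.1).1).map
      (fun j => if p.2 = vpos (X p.1) j then (c p.1).getD j 0 else 0)).sum) := by
    refine polyF_ratSum (hX1.fst.range.map (h := fun (p : α × ℕ) j =>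
      if p.2 = vpos (X p.1) j then (c p.1).getD j 0 else 0) ?_)
    exact PolyF.ite (hq2.natEq (polyF_vpos hX2 PolyF.snd')) (hc2.getDL PolyF.snd'
      (PolyF.const 0)) (PolyF.const 0)
  exact h1.ratSub (PolyF.ite (polyF_supp hX1 PolyF.snd') (PolyF.const 0)
    (polyF_ratTwoPow (polyF_penExp (polyF_axN hX1))))

private theorem polyF_arL {X : α → Mat} {v : α → List ℚ} (hX : PolyF X) (hv : PolyF v) :
    PolyF (fun x => arL (X x) (v x)) := by
  have hN := polyF_axN hX
  refine (hN.natMul (hN.natMul hN)).range.map (h := fun x q =>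
    arrQ (X x) (fun k => (v x).getD k 0) q) ?_
  have hX1 : PolyF (fun p : α × ℕ => X p.1) := hX.comp PolyF.fst'
  have hv2 : PolyF (fun p : (α × ℕ) × ℕ => v p.1.1) := hv.comp (PolyF.fst'.comp PolyF.fst')
  have hw : PolyF (fun y : (α × ℕ) × ℕ => (v y.1.1).getD y.2 0) :=
    hv2.getDL PolyF.snd' (PolyF.const 0)
  exact polyF_arrQ (X := fun x : α × ℕ => X x.1)
    (w := fun x : α × ℕ => fun k => (v x.1).getD k 0) (q := fun x : α × ℕ => x.2) hX1 hw
    PolyF.snd'

private theorem polyF_axData {X : α → Mat} {c v : α → List ℚ} (hX : PolyF X) (hc : PolyF c)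
    (hv : PolyF v) : PolyF (fun x => axData (X x) (c x) (v x)) := by
  have hN := polyF_axN hX
  have ha : PolyF (fun x => amat (axN (X x))) := polyF_amat hN
  have hl : PolyF (fun x => 3 * axN (X x)) := (PolyF.const 3).natMul hN
  exact ha.fst.pair (ha.snd.pair (((PolyF.replicate hl (PolyF.const 1)).append
    (PolyF.replicate hl (PolyF.const (-1)))).pair ((polyF_pcL hX hc).pair (polyF_arL hX hv))))

end

private theorem polyF_redA : PolyF redA := by
  have h0 : PolyF (fun I : {I : Input // OkA I} => I.1) :=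
    (PolyF.id (α := Input)).of_enc (fun x => x.1) (fun _ => rfl) fun _ => rfl
  have hd := polyF_data.comp h0
  have h1 : PolyF (fun I : {I : Input // OkA I} => (redA I).data) :=
    (polyF_axData (polyF_nmat.comp h0) hd.snd.snd.snd.fst hd.snd.snd.snd.snd).congr
      fun I => (redA_data I).symm
  exact h1.of_enc (fun x => x) (fun _ => rfl) fun _ => rfl

/-- the input is computed in polynomial time -/
theorem polyF_redX : PolyF redX := by
  have h1 : PolyF (fun I : {I : Input // IsTransport I} =>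
      (⟨redI (redH I), okA_red I⟩ : {I : Input // OkA I})) :=
    polyF_redIH.of_enc (fun x => x) (fun _ => rfl) fun _ => rfl
  exact polyF_redA.comp h1

/-- the list form of the way back -/
def backLX (I : {I : Input // IsTransport I}) (w : List ℚ) : List ℚ :=
  (List.range I.1.n).map fun j =>
    2 ^ (kOf I.1 + 1) * w.getD (vpos (nmat (redI (redH I)).lp) j) 0

private theorem backA_getD (J : Input)
    (w : Fin (axN (nmat J.lp) * (axN (nmat J.lp) * axN (nmat J.lp))) → ℚ) (j : Fin J.n) :
    backA J w j = (List.ofFn w).getD (vpos (nmat J.lp) j) 0 := by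
  unfold backA
  split_ifs with h
  · rw [List.getD_eq_getElem _ _ (by rw [List.length_ofFn]; exact h), List.getElem_ofFn]
  · rw [List.getD_eq_default _ _ (by rw [List.length_ofFn]; exact not_lt.1 h)]

theorem ofFn_backX (I : {I : Input // IsTransport I}) (w : Fin (redX I).n → ℚ) :
    List.ofFn (backX I w) = backLX I (List.ofFn w) := by
  unfold backLX
  rw [← ofFn_range]
  refine congrArg List.ofFn (funext fun j => ?_)
  exact congrArg (fun t : ℚ => 2 ^ (kOf I.1 + 1) * t) (backA_getD (redI (redH I)) w _)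

theorem polyF_backLX : PolyF (fun x : {I : Input // IsTransport I} × List ℚ =>
    backLX x.1 x.2) := by
  have hI : PolyF (fun x : {I : Input // IsTransport I} × List ℚ => x.1.1) :=
    polyF_sub.comp PolyF.fst'
  have hn : PolyF (fun x : {I : Input // IsTransport I} × List ℚ => x.1.1.n) :=
    (polyF_data.comp hI).fst
  refine hn.range.map (h := fun (x : {I : Input // IsTransport I} × List ℚ) j =>
    2 ^ (kOf x.1.1 + 1) * x.2.getD (vpos (nmat (redI (redH x.1)).lp) j) 0) ?_
  have h1 : PolyF (fun p : ({I : Input // IsTransport I} × List ℚ) × ℕ => p.1.1) :=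
    PolyF.fst'.comp PolyF.fst'
  have hX : PolyF (fun p : ({I : Input // IsTransport I} × List ℚ) × ℕ =>
      nmat (redI (redH p.1.1)).lp) := polyF_nmat.comp (polyF_redIH.comp h1)
  have hw : PolyF (fun p : ({I : Input // IsTransport I} × List ℚ) × ℕ => p.1.2) :=
    PolyF.snd'.comp PolyF.fst'
  exact (polyF_ratTwoPow ((polyF_kOf.comp (polyF_sub.comp h1)).natAdd (PolyF.const 1))).ratMul
    (hw.getDL (polyF_vpos hX PolyF.snd') (PolyF.const 0))

end Pool.Agent.Simplex.EB.Tab.Ax
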