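import Pool.Agent.Lib.MP_4d246d_lc.EB.SimPoly

/-!
# Reductions between classes of inputs
-/

namespace Pool.Agent.Simplex.EB

open Pool.Agent.Lib.PolyTime Pool.Agent.Simplex.QP Turing

/-- Question 1 for a class of inputs -/
def SimplexOn (Q : Input → Prop) : Prop :=
  ∃ (N : Input → ℕ) (x : (I : Input) → ℕ → Fin I.n → ℚ) (s : Input → Verdict),
    (∀ I, Q I → SimplexRun I (N I) (x I) (s I)) ∧
    Nonempty (TM2ComputableInPolyTime (fun I : {I : Input // Q I} => code I.1)
      (code (α := List (List ℚ × Verdict)))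
      (fun I => protocol (N I.1) (x I.1) (s I.1)))

/-- the protocol of a run that is carried back -/
theorem protocol_back {n n' : ℕ} (N : ℕ) (x : ℕ → Fin n' → ℚ) (s : Verdict)
    (back : (Fin n' → ℚ) → Fin n → ℚ) (backL : List ℚ → List ℚ)
    (hb : ∀ w, List.ofFn (back w) = backL (List.ofFn w)) :
    protocol N (fun t => back (x t)) s = (protocol N x s).map (fun q => (backL q.1, q.2)) := by
  unfold protocol
  rw [List.map_map]
  refine List.map_congr_left fun t _ => ?_
  unfold reportAt
  rw [hb]
  rfl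

/-- **Reduction.** A polynomial-time map from one class of inputs to another one, with a way back
for the runs. -/
theorem SimplexOn.of_red {P Q : Input → Prop} {f : {I : Input // P I} → Input}
    (hf : ∀ I, Q (f I)) {back : (I : {I : Input // P I}) → (Fin (f I).n → ℚ) → Fin I.1.n → ℚ}
    {backL : {I : Input // P I} → List ℚ → List ℚ}
    (hb : ∀ I w, List.ofFn (back I w) = backL I (List.ofFn w)) (pf : PolyF f)
    (pb : PolyF (fun x : {I : Input // P I} × List ℚ => backL x.1 x.2))
    (hrun : ∀ I N x s, SimplexRun (f I) N x s → SimplexRun I.1 N (fun t => back I (x t)) s)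
    (h : SimplexOn Q) : SimplexOn P := by
  classical
  obtain ⟨N, x, s, hr, hM⟩ := h
  have hp : PolyF (fun I : {I : Input // Q I} => protocol (N I.1) (x I.1) (s I.1)) :=
    polyF_of_tm2 hM
  have hg : PolyF (fun I : {I : Input // P I} => (⟨f I, hf I⟩ : {I : Input // Q I})) :=
    pf.of_enc (fun I => I) (fun _ => rfl) fun _ => rfl
  have hq : PolyF (fun I : {I : Input // P I} => protocol (N (f I)) (x (f I)) (s (f I))) :=
    hp.comp hg
  have hc : PolyF (fun I : {I : Input // P I} =>
      (protocol (N (f I)) (x (f I)) (s (f I))).map (fun q => (backL I q.1, q.2))) := by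
    refine hq.map (h := fun (I : {I : Input // P I}) (q : List ℚ × Verdict) =>
      (backL I q.1, q.2)) ?_
    exact (pb.comp (PolyF.fst'.pair PolyF.snd'.fst)).pair PolyF.snd'.snd
  refine ⟨fun I => if h : P I then N (f ⟨I, h⟩) else 0,
    fun I t => if h : P I then back ⟨I, h⟩ (x (f ⟨I, h⟩) t) else 0,
    fun I => if h : P I then s (f ⟨I, h⟩) else .pivot, fun I hI => ?_, ?_⟩
  · simp only [dif_pos hI]
    exact hrun ⟨I, hI⟩ _ _ _ (hr _ (hf ⟨I, hI⟩))
  · refine (hc.congr fun I => ?_).tm2_word
    obtain ⟨I, hI⟩ := I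
    simp only [dif_pos hI]
    exact (protocol_back _ _ _ _ _ (hb ⟨I, hI⟩)).symm

end Pool.Agent.Simplex.EB
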