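import Pool.Agent.Lib.MP_4d246d_lc.EB.Statement3
import Pool.Agent.Lib.MP_4d246d_lc.EB.OnRed

/-!
# Tables with the line sums 0, 1, 2
-/

namespace Pool.Agent.Simplex.EB

open Pool.Agent.Lib.PolyTime Turing

/-- The input is: maximise one entry (with the index `e`) of a nonnegative `r × c × 3` table
all of whose line sums are given numbers `0`, `1` or `2`, starting at a vertex `v`. -/
def IsOneEntry (I : Input) : Prop :=
  ∃ (r c : ℕ) (s : Fin (lines r c) → ℕ) (e : Fin (3 * (r * c)))
    (v : Fin (3 * (r * c)) → ℚ)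
    (hv : (transportQ r c (fun p => (s p : ℚ)) (fun q => if q = e then 1 else 0)).Vertex
      (toReal v)),
    (∀ p, s p ≤ 2) ∧
    I = ⟨_, _, transportQ r c (fun p => (s p : ℚ)) (fun q => if q = e then 1 else 0), v, hv⟩

end Pool.Agent.Simplex.EB
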