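import Pool.Agent.Lib.MP_4d246d_lc.EB.TabIso
import Pool.Agent.Lib.MP_4d246d_lc.EB.Statement5
import Pool.Agent.Lib.MP_4d246d_lc.EB.SlimQLP

/-!
# The table of a rational program
-/

namespace Pool.Agent.Simplex.EB.Tab

open Pool.Agent.Lib.PolyTime Pool.Agent.Simplex.QP

/-- the table with rational entries, `U = 1` -/
def tabQ (X : Mat) (w : ℕ → ℚ) (q : ℕ) : ℚ :=
  if tk X q = 1 then w (cV X (q / 3 / slc X))
  else if tk X q = 2 then 1 - w (cV X (q / 3 / slc X))
  else 0

/-- contribution of the right-hand sides -/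
def corrQ (X : Mat) (b : List ℚ) (p : ℕ) : ℚ :=
  if p < slr X * slc X then 0
  else if (p - slr X * slc X) / 3 < X.2.length then
    (if (p - slr X * slc X) % 3 = 0 then b.getD ((p - slr X * slc X) / 3) 0
      else if (p - slr X * slc X) % 3 = 1 then - b.getD ((p - slr X * slc X) / 3) 0 else 0)
  else if (p - slr X * slc X) / 3 < 2 * X.2.length then
    (if (p - slr X * slc X) % 3 = 0 then - b.getD ((p - slr X * slc X) / 3 - X.2.length) 0
      else if (p - slr X * slc X) % 3 = 1 then b.getD ((p - slr X * slc X) / 3 - X.2.length) 0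
      else 0)
  else 0

/-- the transportation program with `U = 1` -/
def tableQ {m n : ℕ} (D : QLP m n) : QLP
    (lines (slr (ofQ D).mat) (slc (ofQ D).mat) + lines (slr (ofQ D).mat) (slc (ofQ D).mat))
    (3 * (slr (ofQ D).mat * slc (ofQ D).mat)) :=
  transportQ (slr (ofQ D).mat) (slc (ofQ D).mat)
    (fun p => lsumQ (slr (ofQ D).mat) (slc (ofQ D).mat) p (tabQ (ofQ D).mat (fun _ => 0)) +
      corrQ (ofQ D).mat (List.ofFn D.b) p)
    (fun q => ∑ j : Fin n, if (q : ℕ) = slp0 (ofQ D).mat j then D.c j else 0)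

theorem cast_tabQ (X : Mat) (w : ℕ → ℚ) (q : ℕ) :
    (tabQ X w q : ℝ) = tab X 1 (fun v => (w v : ℝ)) q := by
  unfold tabQ tab
  split_ifs
  · rfl
  · rw [Rat.cast_sub, Rat.cast_one]
  · exact Rat.cast_zero

theorem cast_tabQ0 (X : Mat) (q : ℕ) :
    (tabQ X (fun _ => 0) q : ℝ) = tab X 1 (fun _ => 0) q := by
  rw [cast_tabQ]
  simp only [Rat.cast_zero]

theorem cast_corrQ {X : Mat} {b : List ℚ} {β : ℕ → ℝ}
    (h : ∀ s < X.2.length, (b.getD s 0 : ℝ) = β s) (p : ℕ) :
    (corrQ X b p : ℝ) = corr X β p := by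
  unfold corrQ corr
  split_ifs with h1 h2 h3 h4 h5 h6 h7
  · exact Rat.cast_zero
  · exact h _ h2
  · rw [Rat.cast_neg, h _ h2]
  · exact Rat.cast_zero
  · rw [Rat.cast_neg, h _ (by omega)]
  · exact h _ (by omega)
  · exact Rat.cast_zero
  · exact Rat.cast_zero

theorem getD_ofFn_rhsN {m n : ℕ} (D : QLP m n) {s : ℕ} (hs : s < m) :
    (((List.ofFn D.b).getD s 0 : ℚ) : ℝ) = rhsN (ofQ D) s := by
  rw [rhsN_lt hs, List.getD_eq_getElem _ _ (by rw [List.length_ofFn]; exact hs),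
    List.getElem_ofFn]
  rfl

theorem ofQ_tableQ {m n : ℕ} (D : QLP m n) : ofQ (tableQ D) = table (ofQ D) 1 := by
  unfold tableQ table
  rw [ofQ_transportQ]
  congr 1
  · funext p
    rw [Rat.cast_add, cast_lsumQ]
    congr 1
    · exact lsum_congr fun q _ => cast_tabQ0 _ q
    · exact cast_corrQ (fun s hs => getD_ofFn_rhsN D (by rw [slim_length] at hs; exact hs)) p
  · funext q
    rw [Rat.cast_sum]
    refine Finset.sum_congr rfl fun j _ => ?_
    split_ifs
    · rfl
    · exact Rat.cast_zero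

/-- the table of a point -/
def tableV {m n : ℕ} (D : QLP m n) (v : Fin n → ℚ) :
    Fin (3 * (slr (ofQ D).mat * slc (ofQ D).mat)) → ℚ :=
  fun q => tabQ (ofQ D).mat (fun k => if h : k < n then v ⟨k, h⟩ else 0) q

/-- the row has at most two nonzero entries, or at most three nonzero entries, of both signs, and
the right-hand side zero -/
def GoodRow {n : ℕ} (a : Fin n → ℚ) (b : ℚ) : Prop :=
  {j | a j ≠ 0}.ncard ≤ 2 ∨
    ({j | a j ≠ 0}.ncard ≤ 3 ∧ b = 0 ∧ (∃ j, a j = 1) ∧ ∃ j, a j = -1)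

/-- the conditions -/
structure OkT (I : Input) : Prop where
  units : Units I.lp.A
  pos : 0 < I.m
  eqs : Eqs (ofQ I.lp)
  under : ∀ x ∈ (ofQ I.lp).feasible, ∀ j, x j ≤ 1
  rhs : ∀ i, I.lp.b i = 0 ∨ I.lp.b i = 1 ∨ I.lp.b i = -1
  rows : ∀ i, GoodRow (I.lp.A i) (I.lp.b i)
  cost : ∃ e : Fin I.n, ∀ j, I.lp.c j = if j = e then 1 else 0

/-- the isomorphism -/
noncomputable def tabPIso {I : Input} (h : OkT I) : PIso (ofQ I.lp) (ofQ (tableQ I.lp)) :=
  PIso.ofAIso ((ofQ_tableQ I.lp).symm ▸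
    tabIso (D := ofQ I.lp) h.units h.pos h.eqs (U := 1) h.under)

private theorem tq_cast {m n m' n' : ℕ} {D : RLP m n} {D' D'' : RLP m' n'} (h : D' = D'')
    (e : AIso D D') (x : Fin n → ℝ) : (PIso.ofAIso (h ▸ e : AIso D D'')).map x = e.L x + e.a := by
  subst h
  rfl

theorem tabPIso_apply {I : Input} (h : OkT I) (x : Fin I.n → ℝ)
    (q : Fin (3 * (slr (ofQ I.lp).mat * slc (ofQ I.lp).mat))) :
    (tabPIso h).map x q = tab (ofQ I.lp).mat 1 (vfun x) q := by
  have h1 : (tabPIso h).map x =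
      (tabIso (D := ofQ I.lp) h.units h.pos h.eqs (U := 1) h.under).L x +
        (tabIso (D := ofQ I.lp) h.units h.pos h.eqs (U := 1) h.under).a := tq_cast _ _ _
  rw [h1]
  exact tabIso_map h.units h.pos h.eqs (U := 1) h.under x q

theorem tabPIso_map {I : Input} (h : OkT I) (v : Fin I.n → ℚ) :
    (tabPIso h).map (toReal v) = toReal (tableV I.lp v) := by
  funext q
  rw [tabPIso_apply]
  unfold toReal tableV
  rw [cast_tabQ]
  refine tab_congr (fun k hk => ?_) q.2
  have hk' : k < I.n := hk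
  rw [vfun_lt _ hk', dif_pos hk']

/-- the input -/
def redS (I : {I : Input // OkT I}) : Input :=
  ⟨_, _, tableQ I.1.lp, tableV I.1.lp I.1.v, by
    rw [← ofQ_vertex, ← tabPIso_map I.2, PIso.vertex]
    exact I.1.vertex⟩

/-! ### The line sums are `0`, `1` or `2` -/

private theorem tq_input {m n : ℕ} {D D' : QLP m n} (h : D = D') (v : Fin n → ℚ)
    (hv : D.Vertex (toReal v)) :
    (⟨m, n, D, v, hv⟩ : Input) = ⟨m, n, D', v, h ▸ hv⟩ := by
  subst h
  rfl

private theorem tq_sum {r : ℕ} {f : ℕ → ℝ} {C : Finset ℕ} (h1 : ∀ i < r, f i ≤ 1)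
    (h2 : ∀ i < r, i ∉ C → f i ≤ 0) : ∑ i ∈ Finset.range r, f i ≤ C.card := by
  have h3 : ∑ i ∈ Finset.range r, f i ≤
      ∑ i ∈ Finset.range r, if i ∈ C then (1 : ℝ) else 0 := by
    refine Finset.sum_le_sum fun i hi => ?_
    rw [Finset.mem_range] at hi
    split_ifs with h
    · exact h1 i hi
    · exact h2 i hi h
  refine h3.trans ?_
  rw [Finset.sum_ite_mem, Finset.sum_const, nsmul_eq_mul, mul_one]
  exact_mod_cast Finset.card_le_card Finset.inter_subset_right

private theorem tq_sum2 {r : ℕ} {f : ℕ → ℝ} {a b : ℕ} (h1 : ∀ i < r, f i ≤ 1)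
    (h2 : ∀ i < r, i ≠ a → i ≠ b → f i ≤ 0) : ∑ i ∈ Finset.range r, f i ≤ 2 := by
  have h3 := tq_sum (C := {a, b}) h1 fun i hi hn => by
    simp only [Finset.mem_insert, Finset.mem_singleton, not_or] at hn
    exact h2 i hi hn.1 hn.2
  refine h3.trans ?_
  exact_mod_cast Finset.card_le_two

/-- entries of the table are at most `1` -/
theorem tab_le_one {X : Mat} {w : ℕ → ℝ} (h0 : ∀ v < X.1, 0 ≤ w v) (h1 : ∀ v < X.1, w v ≤ 1)
    {q : ℕ} (hq : q < 3 * (slr X * slc X)) : tab X 1 w q ≤ 1 := by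
  have h2 := cV_lt' X hq
  have h3 := h0 _ h2
  have h4 := h1 _ h2
  unfold tab
  split_ifs
  · exact h4
  · linarith
  · norm_num

theorem tab_kind0 {X : Mat} (w : ℕ → ℝ) {e J K : ℕ} (hJ : J < slc X) (hK : K < 3)
    (hk : kind X e J K = 0) : tab X 1 w (ix (slc X) e J K) ≤ 0 :=
  (TabInv.tab_zero 1 w hJ hK hk).le

private theorem tq_div {M v s : ℕ} (hs : s < M) : (v * M + s) / M = v := by
  rw [mul_comm, Nat.mul_add_div (by omega), Nat.div_eq_of_lt hs, add_zero]

/-- the two cells of a column of the third kind -/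
theorem colc_cells {X : Mat} (hm : 0 < X.2.length) {e j : ℕ} (h : colc X e = j) :
    e = 2 * j + 1 ∨
      e = 2 * (j / X.2.length * X.2.length + (j % X.2.length + 1) % X.2.length) := by
  unfold colc at h
  split_ifs at h with h1
  · left
    omega
  · right
    have hs : cS X e < X.2.length := Nat.mod_lt _ hm
    have h2 : cV X e * X.2.length + cS X e = e / 2 := by
      unfold cV cS
      rw [mul_comm]
      exact Nat.div_add_mod _ _
    have h3 : (cS X e + (X.2.length - 1)) % X.2.length < X.2.length := Nat.mod_lt _ hm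
    have h4 : j / X.2.length = cV X e := by
      rw [← h]
      exact tq_div h3
    have h5 : j % X.2.length = (cS X e + (X.2.length - 1)) % X.2.length := by
      rw [← h, Nat.mul_comm, Nat.mul_add_mod, Nat.mod_mod]
    have h6 : (j % X.2.length + 1) % X.2.length = cS X e := by
      rw [h5, Nat.mod_add_mod]
      have h7 : cS X e + (X.2.length - 1) + 1 = cS X e + X.2.length := by omega
      rw [h7, Nat.add_mod_right, Nat.mod_eq_of_lt hs]
    rw [h4, h6, h2]
    omega

/-- a column of the second or third kind meets two cells -/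
theorem two_cells {X : Mat} (hm : 0 < X.2.length) {J : ℕ} (h2M : 2 * X.2.length ≤ J) :
    ∃ a b, ∀ e < slr X, e ≠ a → e ≠ b → ∀ K, kind X e J K = 0 := by
  by_cases h1 : J < 2 * X.2.length + slR X
  · refine ⟨2 * (J - 2 * X.2.length), 2 * (J - 2 * X.2.length) + 1, fun e he ha hb K => ?_⟩
    refine TabInv.kind_else ?_ (by omega) (by omega) K
    intro h
    have hs : cS X e < X.2.length := Nat.mod_lt _ hm
    unfold hgt at h
    split_ifs at h <;> omega
  by_cases h2 : J < 2 * X.2.length + slR X + slR X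
  · refine ⟨2 * (J - (2 * X.2.length + slR X)), 2 * (J - (2 * X.2.length + slR X)) + 1,
      fun e he ha hb K => ?_⟩
    have h3 := TabInv.hgt_lt' hm he
    exact TabInv.kind_else (by omega) (by omega) (by omega) K
  · obtain ⟨j, hj⟩ : ∃ j, j = J - (2 * X.2.length + slR X + slR X) := ⟨_, rfl⟩
    refine ⟨2 * j + 1, 2 * (j / X.2.length * X.2.length + (j % X.2.length + 1) % X.2.length),
      fun e he ha hb K => TabInv.kind_else ?_ ?_ ?_ K⟩
    · have h3 := TabInv.hgt_lt' hm he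
      omega
    · have h3 := TabInv.half_lt he
      omega
    · intro h
      rcases colc_cells hm (e := e) (j := j) (by omega) with h3 | h3
      · exact ha h3
      · exact hb h3

variable {m n : ℕ}

/-- the cell of the variable `j` in the column `J < 2 M` -/
private def tq_cell (M J s : ℕ) (a : ℚ) (j : ℕ) : ℕ :=
  2 * (j * M + s) + if J < M then (if a = 1 then 0 else 1) else (if a = 1 then 1 else 0)

private theorem tq_half {M s j r : ℕ} (hs : s < M) (hr : r < 2) :
    (2 * (j * M + s) + r) / 2 / M = j ∧ (2 * (j * M + s) + r) / 2 % M = s ∧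
      (2 * (j * M + s) + r) % 2 = r := by
  have h1 : (2 * (j * M + s) + r) / 2 = j * M + s := by omega
  refine ⟨?_, ?_, by omega⟩
  · rw [h1]
    exact tq_div hs
  · rw [h1, Nat.mul_comm, Nat.mul_add_mod, Nat.mod_eq_of_lt hs]

/-- the cells of a column of the first kind belong to the nonzero entries of a row -/
private theorem tq_cells {D : RLP m n} {J s : ℕ} (hs : s < m) (hJ : J = s ∨ J = m + s) {e : ℕ}
    (he : e < slr D.mat) (hh : hgt D.mat e = J) :
    ∃ j : Fin n, D.A ⟨s, hs⟩ j ≠ 0 ∧ e = tq_cell m J s (D.A ⟨s, hs⟩ j) j := by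
  have hl : D.mat.2.length = m := slim_length
  have hm : 0 < m := by omega
  have h1 : cS D.mat e < m := by
    unfold cS
    rw [hl]
    exact Nat.mod_lt _ hm
  have h2 : cV D.mat e * m + cS D.mat e = e / 2 := by
    unfold cV cS
    rw [hl, mul_comm]
    exact Nat.div_add_mod _ _
  have h3 : cV D.mat e < n := TabInv.cV_lt he
  unfold hgt at hh
  rw [hl] at hh
  split_ifs at hh with g1 g2
  · have hs' : s = cS D.mat e := by omega
    subst hs'
    rw [cof_mat h1 h3] at g1
    refine ⟨⟨_, h3⟩, ?_, ?_⟩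
    · rcases g1 with g1 | g1 <;> rw [g1.2] <;> norm_num
    · unfold tq_cell
      dsimp only
      rw [if_pos (by omega)]
      rcases g1 with g1 | g1
      · rw [if_pos g1.2]
        omega
      · rw [if_neg (by rw [g1.2]; norm_num)]
        omega
  · have hs' : s = cS D.mat e := by omega
    subst hs'
    rw [cof_mat h1 h3] at g2
    refine ⟨⟨_, h3⟩, ?_, ?_⟩
    · rcases g2 with g2 | g2 <;> rw [g2.2] <;> norm_num
    · unfold tq_cell
      dsimp only
      rw [if_neg (by omega)]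
      rcases g2 with g2 | g2
      · rw [if_pos g2.2]
        omega
      · rw [if_neg (by rw [g2.2]; norm_num)]
        omega
  · omega

/-- number of cells of a column of the first kind -/
private theorem tq_card {D : RLP m n} {J s : ℕ} (hs : s < m) (hJ : J = s ∨ J = m + s) :
    ((Finset.range (slr D.mat)).filter fun e => hgt D.mat e = J).card ≤
      {j | D.A ⟨s, hs⟩ j ≠ 0}.ncard := by
  classical
  have h1 : {j | D.A ⟨s, hs⟩ j ≠ 0}.ncard =
      (Finset.univ.filter fun j : Fin n => D.A ⟨s, hs⟩ j ≠ 0).card := by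
    rw [← Set.ncard_coe_finset]
    congr 1
    ext j
    simp
  rw [h1]
  refine (Finset.card_le_card (t := (Finset.univ.filter fun j : Fin n =>
    D.A ⟨s, hs⟩ j ≠ 0).image fun j : Fin n => tq_cell m J s (D.A ⟨s, hs⟩ j) j) ?_).trans
    Finset.card_image_le
  intro e he
  rw [Finset.mem_filter, Finset.mem_range] at he
  obtain ⟨j, h2, h3⟩ := tq_cells hs hJ he.1 he.2
  exact Finset.mem_image.2 ⟨j, Finset.mem_filter.2 ⟨Finset.mem_univ _, h2⟩, h3.symm⟩

/-- the column of the first kind of a cell -/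
private theorem tq_hgt {D : RLP m n} {s j r : ℕ} (hs : s < m) (hj : j < n) (hr : r < 2)
    {a : ℚ} (ha : D.A ⟨s, hs⟩ ⟨j, hj⟩ = a) :
    2 * (j * m + s) + r < slr D.mat ∧
    ((r = 0 ∧ a = 1 ∨ r = 1 ∧ a = -1) → hgt D.mat (2 * (j * m + s) + r) = s) ∧
    ((r = 1 ∧ a = 1 ∨ r = 0 ∧ a = -1) → hgt D.mat (2 * (j * m + s) + r) = m + s) := by
  have hl : D.mat.2.length = m := slim_length
  obtain ⟨h1, h2, h3⟩ := tq_half (j := j) hs hr
  have hV : cV D.mat (2 * (j * m + s) + r) = j := by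
    unfold cV
    rw [hl]
    exact h1
  have hS : cS D.mat (2 * (j * m + s) + r) = s := by
    unfold cS
    rw [hl]
    exact h2
  refine ⟨?_, fun h => ?_, fun h => ?_⟩
  · have h4 := TabInv.pair_lt (X := D.mat) (v := j) (s := s) hj (by rw [hl]; exact hs)
    rw [hl] at h4
    unfold slr
    omega
  · unfold hgt
    rw [hV, hS, h3, hl, cof_mat hs hj, ha, if_pos h]
  · unfold hgt
    rw [hV, hS, h3, hl, cof_mat hs hj, ha, if_neg, if_pos h]
    rintro (⟨h4, h5⟩ | ⟨h4, h5⟩) <;> rcases h with ⟨h6, h7⟩ | ⟨h6, h7⟩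
    · omega
    · rw [h5] at h7
      norm_num at h7
    · rw [h5] at h7
      norm_num at h7
    · omega

/-- the sum over a line of a column of the first kind -/
private theorem tq_first {D : RLP m n} {J s K : ℕ} (hs : s < m) (hJ : J = s ∨ J = m + s)
    (hJc : J < slc D.mat) (hK : K < 3) {w : ℕ → ℝ} (h0 : ∀ v < n, 0 ≤ w v)
    (h1 : ∀ v < n, w v ≤ 1) {b : ℚ} (hb : (b : ℝ) = D.b ⟨s, hs⟩)
    (hrow : GoodRow (D.A ⟨s, hs⟩) b)
    (hsum : lsum (slr D.mat) (slc D.mat) (slr D.mat * slc D.mat + (3 * J + K))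
        (tab D.mat 1 w) = lsum (slr D.mat) (slc D.mat) (slr D.mat * slc D.mat + (3 * J + K))
        (tab D.mat 1 (fun _ => 0)) + corr D.mat (rhsN D) (slr D.mat * slc D.mat + (3 * J + K))) :
    lsum (slr D.mat) (slc D.mat) (slr D.mat * slc D.mat + (3 * J + K)) (tab D.mat 1 w) ≤ 2 := by
  have hl : D.mat.2.length = m := slim_length
  have hm : 0 < m := by omega
  have hz : ∀ w : ℕ → ℝ, ∀ e < slr D.mat,
      e ∉ ((Finset.range (slr D.mat)).filter fun e => hgt D.mat e = J) →
      tab D.mat 1 w (ix (slc D.mat) e J K) ≤ 0 := by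
    intro w e he hn
    rw [Finset.mem_filter, Finset.mem_range, not_and] at hn
    refine tab_kind0 w hJc hK (TabInv.kind_else (fun h => hn he h.symm) ?_ ?_ K)
    · rw [hl]
      omega
    · rw [hl]
      omega
  rcases hrow with h2 | ⟨h2, hb0, ⟨j₁, hj₁⟩, ⟨j₂, hj₂⟩⟩
  · rw [lsum_B hJc hK]
    refine (tq_sum (C := (Finset.range (slr D.mat)).filter fun e => hgt D.mat e = J)
      (fun e he => tab_le_one h0 h1 (ix_lt he hJc hK)) (hz w)).trans ?_
    exact_mod_cast (tq_card hs hJ).trans h2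
  · rw [hsum]
    have hc : corr D.mat (rhsN D) (slr D.mat * slc D.mat + (3 * J + K)) = 0 := by
      have e1 : (slr D.mat * slc D.mat + (3 * J + K) - slr D.mat * slc D.mat) / 3 = J := by omega
      have e2 : rhsN D s = 0 := by
        rw [rhsN_lt hs, ← hb, hb0, Rat.cast_zero]
      unfold corr
      rw [e1, hl, if_neg (by omega)]
      rcases hJ with rfl | rfl
      · rw [if_pos hs, e2]
        split_ifs <;> norm_num
      · have e3 : m + s - m = s := by omega
        rw [if_neg (by omega), if_pos (by omega), e3, e2]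
        split_ifs <;> norm_num
    rw [hc, add_zero, lsum_B hJc hK]
    -- a cell with the entry `0`
    have hcell : ∃ e₀, e₀ < slr D.mat ∧ hgt D.mat e₀ = J ∧
        tab D.mat 1 (fun _ => 0) (ix (slc D.mat) e₀ J K) ≤ 0 := by
      have hval : ∀ r < 2, ∀ j : Fin n, hgt D.mat (2 * (j * m + s) + r) = J →
          (K = 2 ∨ r = K) →
          tab D.mat 1 (fun _ => 0) (ix (slc D.mat) (2 * (j * m + s) + r) J K) ≤ 0 := by
        intro r hr j hj hrK
        have h3 : (2 * ((j : ℕ) * m + s) + r) % 2 = r := by omega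
        rw [TabInv.tab_ix 1 _ hJc hK, ← hj, TabInv.kind_hgt]
        unfold TabInv.yv
        rw [h3]
        interval_cases K
        · rcases hrK with h | h
          · omega
          · subst h
            norm_num
        · rcases hrK with h | h
          · omega
          · subst h
            norm_num
        · norm_num
      rcases hJ with rfl | rfl
      · by_cases hK1 : K = 1
        · obtain ⟨g1, g2, -⟩ := tq_hgt (r := 1) hs j₂.2 (by norm_num) hj₂
          have g3 := g2 (Or.inr ⟨rfl, rfl⟩)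
          exact ⟨_, g1, g3, hval 1 (by norm_num) j₂ g3 (Or.inr hK1.symm)⟩
        · obtain ⟨g1, g2, -⟩ := tq_hgt (r := 0) hs j₁.2 (by norm_num) hj₁
          have g3 := g2 (Or.inl ⟨rfl, rfl⟩)
          exact ⟨_, g1, g3, hval 0 (by norm_num) j₁ g3 (by omega)⟩
      · by_cases hK1 : K = 1
        · obtain ⟨g1, -, g2⟩ := tq_hgt (r := 1) hs j₁.2 (by norm_num) hj₁
          have g3 := g2 (Or.inl ⟨rfl, rfl⟩)
          exact ⟨_, g1, g3, hval 1 (by norm_num) j₁ g3 (Or.inr hK1.symm)⟩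
        · obtain ⟨g1, -, g2⟩ := tq_hgt (r := 0) hs j₂.2 (by norm_num) hj₂
          have g3 := g2 (Or.inr ⟨rfl, rfl⟩)
          exact ⟨_, g1, g3, hval 0 (by norm_num) j₂ g3 (by omega)⟩
    obtain ⟨e₀, he₀, hh₀, ht₀⟩ := hcell
    refine (tq_sum (C := ((Finset.range (slr D.mat)).filter fun e => hgt D.mat e = J).erase e₀)
      (fun e he => tab_le_one (fun _ _ => le_rfl) (fun _ _ => zero_le_one)
        (ix_lt he hJc hK)) (fun e he hn => ?_)).trans ?_
    · by_cases h3 : e = e₀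
      · rw [h3]
        exact ht₀
      · refine hz _ e he fun h4 => hn ?_
        exact Finset.mem_erase.2 ⟨h3, h4⟩
    · rw [Finset.card_erase_of_mem (Finset.mem_filter.2 ⟨Finset.mem_range.2 he₀, hh₀⟩)]
      have h3 := (tq_card (D := D) hs hJ).trans h2
      have h4 : ((Finset.range (slr D.mat)).filter fun e => hgt D.mat e = J).card - 1 ≤ 2 := by
        omega
      exact_mod_cast h4

/-- all line sums are at most `2` -/
theorem line_le {I : Input} (h : OkT I) : ∀ p < lines (slr (ofQ I.lp).mat) (slc (ofQ I.lp).mat),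
    lsum (slr (ofQ I.lp).mat) (slc (ofQ I.lp).mat) p
      (tab (ofQ I.lp).mat 1 (vfun (toReal I.v))) ≤ 2 := by
  have hl : (ofQ I.lp).mat.2.length = I.m := slim_length
  have hm : 0 < (ofQ I.lp).mat.2.length := by
    rw [hl]
    exact h.pos
  have hfe : toReal I.v ∈ (ofQ I.lp).feasible := I.vertex.1
  have h0 : ∀ v < (ofQ I.lp).mat.1, 0 ≤ vfun (toReal I.v) v := by
    intro v hv
    have hv' : v < I.n := hv
    rw [vfun_lt _ hv']
    exact hfe.2 _
  have h1 : ∀ v < (ofQ I.lp).mat.1, vfun (toReal I.v) v ≤ 1 := by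
    intro v hv
    have hv' : v < I.n := hv
    rw [vfun_lt _ hv']
    exact h.under _ hfe _
  have hX := units_mat (D := ofQ I.lp) h.units
  have hsum : ∀ p < lines (slr (ofQ I.lp).mat) (slc (ofQ I.lp).mat),
      lsum (slr (ofQ I.lp).mat) (slc (ofQ I.lp).mat) p
        (tab (ofQ I.lp).mat 1 (vfun (toReal I.v))) =
      lsum (slr (ofQ I.lp).mat) (slc (ofQ I.lp).mat) p (tab (ofQ I.lp).mat 1 (fun _ => 0)) +
        corr (ofQ I.lp).mat (rhsN (ofQ I.lp)) p := by
    intro p hp
    rw [lsum_tab hX 1 _ p hp]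
    congr 1
    refine corr_congr (fun s hs => ?_) p
    rw [hl] at hs
    rw [lhs_mat _ hs, rhsN_lt hs, ← h.eqs _ hfe ⟨s, hs⟩]
    refine Finset.sum_congr rfl fun j _ => ?_
    rw [vfun_fin]
  rw [forall_lines (Q := fun p => lsum (slr (ofQ I.lp).mat) (slc (ofQ I.lp).mat) p
      (tab (ofQ I.lp).mat 1 (vfun (toReal I.v))) ≤ 2)]
  refine ⟨fun e he J hJ => ?_, fun J hJ K hK => ?_, fun e he K hK => ?_⟩
  · -- the lines `(e, J, ·)`
    rw [lsum_A he hJ]
    obtain ⟨K₀, hK₀, hk⟩ : ∃ K₀ < 3, kind (ofQ I.lp).mat e J K₀ = 0 := by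
      by_cases g1 : J = hgt (ofQ I.lp).mat e
      · refine ⟨2, by norm_num, ?_⟩
        rw [g1, TabInv.kind_hgt]
        norm_num
      by_cases g2 : J = 2 * (ofQ I.lp).mat.2.length + slR (ofQ I.lp).mat + e / 2
      · refine ⟨1, by norm_num, ?_⟩
        rw [g2, TabInv.kind_mid hm he]
        norm_num
      by_cases g3 : J = 2 * (ofQ I.lp).mat.2.length + slR (ofQ I.lp).mat +
          (slR (ofQ I.lp).mat + colc (ofQ I.lp).mat e)
      · refine ⟨0, by norm_num, ?_⟩
        rw [g3, TabInv.kind_col hm he]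
        norm_num
      · exact ⟨0, by norm_num, TabInv.kind_else g1 g2 g3 0⟩
    refine tq_sum2 (a := (K₀ + 1) % 3) (b := (K₀ + 2) % 3)
      (fun K hK => tab_le_one h0 h1 (ix_lt he hJ hK)) fun K hK ha hb => ?_
    have : K = K₀ := by omega
    subst this
    exact tab_kind0 _ hJ hK hk
  · -- the lines `(·, J, K)`
    by_cases g1 : J < 2 * (ofQ I.lp).mat.2.length
    · have hp : slr (ofQ I.lp).mat * slc (ofQ I.lp).mat + (3 * J + K) <
          lines (slr (ofQ I.lp).mat) (slc (ofQ I.lp).mat) := by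
        unfold lines
        omega
      rw [hl] at g1
      by_cases g2 : J < I.m
      · exact tq_first (D := ofQ I.lp) g2 (Or.inl rfl) hJ hK h0 h1 (b := I.lp.b ⟨J, g2⟩) rfl
          (h.rows ⟨J, g2⟩) (hsum _ hp)
      · have hs : J - I.m < I.m := by omega
        exact tq_first (D := ofQ I.lp) hs (Or.inr (by omega)) hJ hK h0 h1
          (b := I.lp.b ⟨J - I.m, hs⟩) rfl (h.rows ⟨J - I.m, hs⟩) (hsum _ hp)
    · rw [lsum_B hJ hK]
      obtain ⟨a, b, hab⟩ := two_cells hm (not_lt.1 g1)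
      exact tq_sum2 (fun e he => tab_le_one h0 h1 (ix_lt he hJ hK)) fun e he ha hb =>
        tab_kind0 _ hJ hK (hab e he ha hb K)
  · -- the lines `(e, ·, K)`
    rw [lsum_C he hK]
    by_cases hK0 : K = 0
    · subst hK0
      refine tq_sum2 (a := hgt (ofQ I.lp).mat e)
        (b := 2 * (ofQ I.lp).mat.2.length + slR (ofQ I.lp).mat + e / 2)
        (fun J hJ => tab_le_one h0 h1 (ix_lt he hJ hK)) fun J hJ ha hb => tab_kind0 _ hJ hK ?_
      by_cases g3 : J = 2 * (ofQ I.lp).mat.2.length + slR (ofQ I.lp).mat +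
          (slR (ofQ I.lp).mat + colc (ofQ I.lp).mat e)
      · rw [g3, TabInv.kind_col hm he]
        norm_num
      · exact TabInv.kind_else ha hb g3 0
    by_cases hK1 : K = 1
    · subst hK1
      refine tq_sum2 (a := hgt (ofQ I.lp).mat e)
        (b := 2 * (ofQ I.lp).mat.2.length + slR (ofQ I.lp).mat +
          (slR (ofQ I.lp).mat + colc (ofQ I.lp).mat e))
        (fun J hJ => tab_le_one h0 h1 (ix_lt he hJ hK)) fun J hJ ha hb => tab_kind0 _ hJ hK ?_
      by_cases g3 : J = 2 * (ofQ I.lp).mat.2.length + slR (ofQ I.lp).mat + e / 2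
      · rw [g3, TabInv.kind_mid hm he]
        norm_num
      · exact TabInv.kind_else ha g3 hb 1
    · have hK2 : K = 2 := by omega
      subst hK2
      refine tq_sum2 (a := 2 * (ofQ I.lp).mat.2.length + slR (ofQ I.lp).mat + e / 2)
        (b := 2 * (ofQ I.lp).mat.2.length + slR (ofQ I.lp).mat +
          (slR (ofQ I.lp).mat + colc (ofQ I.lp).mat e))
        (fun J hJ => tab_le_one h0 h1 (ix_lt he hJ hK)) fun J hJ ha hb => tab_kind0 _ hJ hK ?_
      by_cases g3 : J = hgt (ofQ I.lp).mat e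
      · rw [g3, TabInv.kind_hgt]
        norm_num
      · exact TabInv.kind_else g3 ha hb 2

theorem int_tabQ0 (X : Mat) (q : ℕ) : ∃ z : ℤ, tabQ X (fun _ => 0) q = z := by
  unfold tabQ
  split_ifs
  · exact ⟨0, by norm_num⟩
  · exact ⟨1, by norm_num⟩
  · exact ⟨0, by norm_num⟩

theorem int_corrQ {X : Mat} {b : List ℚ} (hb : ∀ s, ∃ z : ℤ, b.getD s 0 = z) (p : ℕ) :
    ∃ z : ℤ, corrQ X b p = z := by
  unfold corrQ
  split_ifs
  · exact ⟨0, by norm_num⟩
  · exact hb _
  · obtain ⟨z, hz⟩ := hb ((p - slr X * slc X) / 3)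
    exact ⟨-z, by rw [hz, Int.cast_neg]⟩
  · exact ⟨0, by norm_num⟩
  · obtain ⟨z, hz⟩ := hb ((p - slr X * slc X) / 3 - X.2.length)
    exact ⟨-z, by rw [hz, Int.cast_neg]⟩
  · exact hb _
  · exact ⟨0, by norm_num⟩
  · exact ⟨0, by norm_num⟩

/-- the line sums are the natural numbers `0`, `1`, `2` -/
theorem table_small {I : Input} (h : OkT I) {p : ℕ}
    (hp : p < lines (slr (ofQ I.lp).mat) (slc (ofQ I.lp).mat)) :
    ∃ s : ℕ, s ≤ 2 ∧
      lsumQ (slr (ofQ I.lp).mat) (slc (ofQ I.lp).mat) p (tabQ (ofQ I.lp).mat (fun _ => 0)) +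
        corrQ (ofQ I.lp).mat (List.ofFn I.lp.b) p = s := by
  have hl : (ofQ I.lp).mat.2.length = I.m := slim_length
  have hfe : toReal I.v ∈ (ofQ I.lp).feasible := I.vertex.1
  have hb : ∀ s, ∃ z : ℤ, (List.ofFn I.lp.b).getD s 0 = z := by
    intro s
    by_cases hs : s < I.m
    · rw [List.getD_eq_getElem _ _ (by rw [List.length_ofFn]; exact hs), List.getElem_ofFn]
      rcases h.rhs ⟨s, hs⟩ with h2 | h2 | h2
      · exact ⟨0, by rw [h2]; norm_num⟩
      · exact ⟨1, by rw [h2]; norm_num⟩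
      · exact ⟨-1, by rw [h2]; norm_num⟩
    · rw [List.getD_eq_default _ _ (by rw [List.length_ofFn]; omega)]
      exact ⟨0, by norm_num⟩
  obtain ⟨z₁, hz₁⟩ := int_lsumQ (r := slr (ofQ I.lp).mat) (c := slc (ofQ I.lp).mat) (p := p)
    (int_tabQ0 (ofQ I.lp).mat)
  obtain ⟨z₂, hz₂⟩ := int_corrQ (X := (ofQ I.lp).mat) hb p
  have hX := units_mat (D := ofQ I.lp) h.units
  have h1 : ((z₁ + z₂ : ℤ) : ℝ) = lsum (slr (ofQ I.lp).mat) (slc (ofQ I.lp).mat) p
      (tab (ofQ I.lp).mat 1 (vfun (toReal I.v))) := by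
    rw [lsum_tab hX 1 _ p hp]
    have h2 : (((lsumQ (slr (ofQ I.lp).mat) (slc (ofQ I.lp).mat) p
        (tabQ (ofQ I.lp).mat (fun _ => 0)) : ℚ)) : ℝ) = z₁ := by
      rw [hz₁, Rat.cast_intCast]
    have h3 : ((corrQ (ofQ I.lp).mat (List.ofFn I.lp.b) p : ℚ) : ℝ) = z₂ := by
      rw [hz₂, Rat.cast_intCast]
    rw [Int.cast_add, ← h2, ← h3, cast_lsumQ]
    congr 1
    · exact lsum_congr fun q _ => cast_tabQ0 _ q
    · refine cast_corrQ (fun s hs => ?_) p
      rw [hl] at hs
      rw [getD_ofFn_rhsN I.lp hs, rhsN_lt hs, lhs_mat _ hs, ← h.eqs _ hfe ⟨s, hs⟩]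
      refine Finset.sum_congr rfl fun j _ => ?_
      rw [vfun_fin]
  have hle := line_le h p hp
  have hge : 0 ≤ lsum (slr (ofQ I.lp).mat) (slc (ofQ I.lp).mat) p
      (tab (ofQ I.lp).mat 1 (vfun (toReal I.v))) := by
    refine lsum_nonneg fun q hq => ?_
    have h2 : cV (ofQ I.lp).mat (q / 3 / slc (ofQ I.lp).mat) < I.n := cV_lt' _ hq
    have h3 := hfe.2 ⟨_, h2⟩
    have h4 := h.under _ hfe ⟨_, h2⟩
    unfold tab
    rw [vfun_lt _ h2]
    split_ifs
    · exact h3
    · linarith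
    · exact le_rfl
  rw [← h1] at hle hge
  have hz0 : 0 ≤ z₁ + z₂ := by exact_mod_cast hge
  obtain ⟨s, hs⟩ := Int.eq_ofNat_of_zero_le hz0
  refine ⟨s, ?_, ?_⟩
  · rw [hs] at hle
    have h3 : ((s : ℤ) : ℝ) ≤ ((2 : ℕ) : ℝ) := by
      push_cast
      push_cast at hle
      exact hle
    exact_mod_cast h3
  · rw [hz₁, hz₂, ← Int.cast_add, hs]
    exact Int.cast_natCast _

theorem redS_oneEntry (I : {I : Input // OkT I}) : IsOneEntry (redS I) := by
  obtain ⟨I, h⟩ := I
  choose s hs1 hs2 using fun p : Fin (lines (slr (ofQ I.lp).mat) (slc (ofQ I.lp).mat)) =>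
    table_small h p.2
  obtain ⟨e, he⟩ := h.cost
  have hlt : slp0 (ofQ I.lp).mat e < 3 * (slr (ofQ I.lp).mat * slc (ofQ I.lp).mat) :=
    slp0_lt h.pos e.2
  have h1 : tableQ I.lp = transportQ (slr (ofQ I.lp).mat) (slc (ofQ I.lp).mat)
      (fun p => (s p : ℚ)) (fun q => if q = ⟨slp0 (ofQ I.lp).mat e, hlt⟩ then 1 else 0) := by
    unfold tableQ
    congr 1
    · funext p
      exact hs2 p
    · funext q
      rw [Finset.sum_eq_single e]
      · rw [he e, if_pos rfl]
        simp only [Fin.ext_iff]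
      · intro j _ hj
        rw [he j, if_neg hj, ite_self]
      · intro h2
        exact absurd (Finset.mem_univ _) h2
  exact ⟨_, _, s, ⟨_, hlt⟩, tableV I.lp I.v, h1 ▸ (redS ⟨I, h⟩).vertex, hs1, tq_input h1 _ _⟩

/-- the way back -/
def backS (I : Input) (w : Fin (3 * (slr (ofQ I.lp).mat * slc (ofQ I.lp).mat)) → ℚ)
    (j : Fin I.n) : ℚ :=
  if h : slp0 (ofQ I.lp).mat j < 3 * (slr (ofQ I.lp).mat * slc (ofQ I.lp).mat) then
    w ⟨slp0 (ofQ I.lp).mat j, h⟩ else 0

theorem backS_map {I : Input} (h : OkT I) (x : Fin I.n → ℝ)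
    (w : Fin (3 * (slr (ofQ I.lp).mat * slc (ofQ I.lp).mat)) → ℚ)
    (hw : toReal w = (tabPIso h).map x) : toReal (backS I w) = x := by
  funext j
  have hlt : slp0 (ofQ I.lp).mat j < 3 * (slr (ofQ I.lp).mat * slc (ofQ I.lp).mat) :=
    slp0_lt h.pos j.2
  have h1 := congrFun hw ⟨slp0 (ofQ I.lp).mat j, hlt⟩
  rw [tabPIso_apply] at h1
  dsimp only at h1
  rw [tab_slp0 h.pos _ _ j.2, vfun_fin] at h1
  unfold toReal backS
  rw [dif_pos hlt]
  exact h1

end Pool.Agent.Simplex.EB.Tab
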