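import Pool.Agent.Lib.MP_4d246d_lc.EB.AxIso
import Pool.Agent.Lib.MP_4d246d_lc.EB.TabQLP

/-!
# The assignment program of a rational program
-/

open Finset

namespace Pool.Agent.Simplex.EB.Tab.Ax

open Pool.Agent.Lib.PolyTime Pool.Agent.Simplex.QP

/-- value of a cell -/
def yvQ (X : Mat) (w : ℕ → ℚ) (e : ℕ) : ℚ :=
  if e % 2 = 0 then w (cV X e) else 1 - w (cV X e)

/-- value on the diagonal -/
def dvalQ (X : Mat) (w : ℕ → ℚ) (a : ℕ) : ℚ :=
  if a < X.2.length then (if ZeroRow X a then 1 else 0)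
  else if num0 X (a - X.2.length) = a then 1 - yvQ X w (a - X.2.length) else 1

/-- the array with rational entries -/
def arrQ (X : Mat) (w : ℕ → ℚ) (q : ℕ) : ℚ :=
  (∑ ρ ∈ range 3, ∑ e ∈ range (2 * slR X), if q = pos X ρ e then yvQ X w e else 0) +
    ∑ a ∈ range (X.2.length + 2 * slR X), if q = dpos X a then dvalQ X w a else 0

/-- The normalised row. A row `a x ≤ 0` with exactly one entry `-1` says that the sum of the
literals is `1`, and so does a row `a x ≤ -1` for the absolute values; all other rows follow from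
these and from `0 ≤ x ≤ 1` (in our programs). -/
def nrow (b : ℚ) (r : List ℚ) : List ℚ :=
  if b = 0 ∧ (r.filter (fun a => decide (a = -1))).length = 1 then r
  else if b = -1 then r.map (fun a => if a = 0 then 0 else 1)
  else r.map (fun _ => 0)

/-- the matrix of the system of literals -/
def nmat {m n : ℕ} (D : QLP m n) : Mat := (n, List.ofFn fun i => nrow (D.b i) (List.ofFn (D.A i)))

/-- the costs -/
def pcostQ {n : ℕ} (X : Mat) (c : Fin n → ℚ) (q : ℕ) : ℚ :=
  (∑ j : Fin n, if q = vpos X j then c j else 0) - if Supp X q then 0 else 2 ^ penExp (axN X)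

/-- the assignment program -/
def assignD {m n : ℕ} (D : QLP m n) :
    QLP (3 * axN (nmat D) + 3 * axN (nmat D))
      (axN (nmat D) * (axN (nmat D) * axN (nmat D))) :=
  assignQ (axN (nmat D)) (fun q => pcostQ (nmat D) D.c q)

/-- the array of a point -/
def assignV {m n : ℕ} (D : QLP m n) (v : Fin n → ℚ)
    (q : Fin (axN (nmat D) * (axN (nmat D) * axN (nmat D)))) : ℚ :=
  arrQ (nmat D) (fun k => if h : k < n then v ⟨k, h⟩ else 0) q

/-- the conditions -/
structure OkA (I : Input) : Prop where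
  units : Units I.lp.A
  two : 2 ≤ I.m
  cost : ∃ e : Fin I.n, ∀ j, I.lp.c j = if j = e then 1 else 0
  sys : (ofQ I.lp).feasible = {x | (∀ j, 0 ≤ x j ∧ x j ≤ 1) ∧ Sys (nmat I.lp) (vfun x)}

private theorem aq_getD (r : List ℚ) (f : ℚ → ℚ) (hf : f 0 = 0) (v : ℕ) :
    (r.map f).getD v 0 = f (r.getD v 0) := by
  rw [← hf, List.getD_map, hf]

private theorem aq_nrow {b : ℚ} {r : List ℚ}
    (h : ∀ v, r.getD v 0 = 0 ∨ r.getD v 0 = 1 ∨ r.getD v 0 = -1) (v : ℕ) :
    (nrow b r).getD v 0 = 0 ∨ (nrow b r).getD v 0 = 1 ∨ (nrow b r).getD v 0 = -1 := by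
  unfold nrow
  split_ifs
  · exact h v
  · rw [aq_getD _ (fun a => if a = 0 then 0 else 1) (if_pos rfl)]
    split_ifs
    · exact Or.inl rfl
    · exact Or.inr (Or.inl rfl)
  · rw [aq_getD _ _ rfl]
    exact Or.inl rfl

theorem nmat_row {m n : ℕ} (D : QLP m n) {s : ℕ} (hs : s < m) :
    (nmat D).2.getD s [] = nrow (D.b ⟨s, hs⟩) (List.ofFn (D.A ⟨s, hs⟩)) := by
  show (List.ofFn fun i => nrow (D.b i) (List.ofFn (D.A i))).getD s [] = _
  rw [List.getD_eq_getElem _ _ (by rw [List.length_ofFn]; exact hs), List.getElem_ofFn]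

theorem unitsM_nmat {m n : ℕ} {D : QLP m n} (h : Units D.A) : UnitsM (nmat D) := by
  intro s v
  unfold cof
  by_cases hs : s < m
  · rw [nmat_row D hs]
    refine aq_nrow (fun v => ?_) v
    by_cases hv : v < n
    · rw [List.getD_eq_getElem _ _ (by rw [List.length_ofFn]; exact hv), List.getElem_ofFn]
      exact h _ _
    · rw [List.getD_eq_default _ _ (by rw [List.length_ofFn]; omega)]
      exact Or.inl rfl
  · have h1 : (nmat D).2.getD s [] = [] := by
      refine List.getD_eq_default _ _ ?_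
      show (List.ofFn _).length ≤ s
      rw [List.length_ofFn]
      omega
    rw [h1]
    exact Or.inl List.getD_nil

theorem ofQ_assignQ (N : ℕ) (cost : Fin (N * (N * N)) → ℚ) :
    ofQ (assignQ N cost) = assign N (fun q => (cost q : ℝ)) := by
  unfold ofQ assignQ assign
  congr 1
  funext i
  induction i using Fin.addCases with
  | left p => simp only [Fin.addCases_left, Rat.cast_one]
  | right p => simp only [Fin.addCases_right, Rat.cast_neg, Rat.cast_one]

theorem cast_yvQ (X : Mat) (w : ℕ → ℚ) (e : ℕ) :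
    ((yvQ X w e : ℚ) : ℝ) = yv X (fun v => (w v : ℝ)) e := by
  unfold yvQ yv
  split_ifs
  · rfl
  · rw [Rat.cast_sub, Rat.cast_one]

theorem cast_dvalQ (X : Mat) (w : ℕ → ℚ) (a : ℕ) :
    ((dvalQ X w a : ℚ) : ℝ) = dval X (fun v => (w v : ℝ)) a := by
  unfold dvalQ dval
  split_ifs
  · exact Rat.cast_one
  · exact Rat.cast_zero
  · rw [Rat.cast_sub, Rat.cast_one, cast_yvQ]
  · exact Rat.cast_one

theorem cast_arrQ (X : Mat) (w : ℕ → ℚ) (q : ℕ) :
    ((arrQ X w q : ℚ) : ℝ) = arr X (fun v => (w v : ℝ)) q := by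
  unfold arrQ arr
  rw [Rat.cast_add, Rat.cast_sum, Rat.cast_sum]
  congr 1
  · refine Finset.sum_congr rfl fun ρ _ => ?_
    rw [Rat.cast_sum]
    refine Finset.sum_congr rfl fun e _ => ?_
    split_ifs
    · exact cast_yvQ X w e
    · exact Rat.cast_zero
  · refine Finset.sum_congr rfl fun a _ => ?_
    split_ifs
    · exact cast_dvalQ X w a
    · exact Rat.cast_zero

theorem ofQ_assignD {I : Input} (h : OkA I) : ofQ (assignD I.lp) =
    assign (axN (nmat I.lp)) (fun q => pcost (nmat I.lp) h.cost.choose q) := by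
  unfold assignD
  rw [ofQ_assignQ]
  congr 1
  funext q
  unfold pcostQ pcost
  have h1 : (∑ j : Fin I.n, if (q : ℕ) = vpos (nmat I.lp) j then I.lp.c j else 0) =
      if (q : ℕ) = vpos (nmat I.lp) h.cost.choose then 1 else 0 := by
    rw [Finset.sum_eq_single h.cost.choose]
    · rw [h.cost.choose_spec, if_pos rfl]
    · intro j _ hj
      rw [h.cost.choose_spec, if_neg hj, ite_self]
    · intro h2
      exact absurd (Finset.mem_univ _) h2
  rw [h1, Rat.cast_sub]
  congr 1
  · split_ifs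
    · exact Rat.cast_one
    · exact Rat.cast_zero
  · split_ifs
    · exact Rat.cast_zero
    · rw [Rat.cast_pow, Rat.cast_ofNat]

/-- the isomorphism with a face -/
noncomputable def assignFIso {I : Input} (h : OkA I) : FIso (ofQ I.lp) (ofQ (assignD I.lp)) :=
  (ofQ_assignD h).symm ▸ axIso (D := ofQ I.lp) (X := nmat I.lp) rfl (unitsM_nmat h.units)
    (by
      show 2 ≤ (List.ofFn _).length
      rw [List.length_ofFn]
      exact h.two) h.cost.choose
    (fun j => by
      show ((I.lp.c j : ℚ) : ℝ) = _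
      rw [h.cost.choose_spec j]
      split_ifs <;> simp) h.sys

private theorem aq_cast {m n m' n' : ℕ} {D : RLP m n} {D' D'' : RLP m' n'} (h : D' = D'')
    (e : FIso D D') (x : Fin n → ℝ) : (h ▸ e : FIso D D'').map x = e.map x := by
  subst h
  rfl

theorem two_le_nmat {I : Input} (h : OkA I) : 2 ≤ (nmat I.lp).2.length := by
  show 2 ≤ (List.ofFn _).length
  rw [List.length_ofFn]
  exact h.two

theorem assignFIso_apply {I : Input} (h : OkA I) (x : Fin I.n → ℝ)
    (q : Fin (axN (nmat I.lp) * (axN (nmat I.lp) * axN (nmat I.lp)))) :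
    (assignFIso h).map x q = arr (nmat I.lp) (vfun x) q := by
  unfold assignFIso
  rw [aq_cast]
  exact axIso_map _ _ _ _ _ _ x q

theorem assignFIso_map {I : Input} (h : OkA I) (v : Fin I.n → ℚ) :
    (assignFIso h).map (toReal v) = toReal (assignV I.lp v) := by
  funext q
  rw [assignFIso_apply]
  unfold toReal assignV
  rw [cast_arrQ]
  refine arr_congr (fun k hk => ?_) q
  have hk' : k < I.n := hk
  rw [vfun_lt _ hk', dif_pos hk']

/-- the input -/
def redA (I : {I : Input // OkA I}) : Input :=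
  ⟨_, _, assignD I.1.lp, assignV I.1.lp I.1.v, by
    rw [← assignFIso_map I.2, ← ofQ_vertex]
    exact (assignFIso I.2).vertex I.1.vertex⟩

theorem redA_assign (I : {I : Input // OkA I}) : IsAssign (redA I) :=
  ⟨_, _, _, (redA I).vertex, rfl⟩

/-- the way back -/
def backA (I : Input) (w : Fin (axN (nmat I.lp) * (axN (nmat I.lp) * axN (nmat I.lp))) → ℚ)
    (j : Fin I.n) : ℚ :=
  if h : vpos (nmat I.lp) j < axN (nmat I.lp) * (axN (nmat I.lp) * axN (nmat I.lp)) then
    w ⟨vpos (nmat I.lp) j, h⟩ else 0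

theorem backA_map {I : Input} (h : OkA I) (x : Fin I.n → ℝ)
    (w : Fin (axN (nmat I.lp) * (axN (nmat I.lp) * axN (nmat I.lp))) → ℚ)
    (hw : toReal w = (assignFIso h).map x) : toReal (backA I w) = x := by
  funext j
  have hj : (j : ℕ) < (nmat I.lp).1 := j.2
  have hM := two_le_nmat h
  have h1 : vpos (nmat I.lp) j < axN (nmat I.lp) * (axN (nmat I.lp) * axN (nmat I.lp)) :=
    vpos_lt (by omega) hj
  have h2 := congrFun hw ⟨_, h1⟩
  rw [assignFIso_apply, arr_vpos hM _ hj, vfun_fin] at h2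
  unfold toReal backA
  rw [dif_pos h1]
  exact h2

end Pool.Agent.Simplex.EB.Tab.Ax
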