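import Pool.Agent.Lib.MP_4d246d_lc.EB.AxHom

/-!
# The reduction of transportation programs to assignment programs
-/

namespace Pool.Agent.Simplex.EB.Tab.Ax

open Pool.Agent.Lib.PolyTime Pool.Agent.Simplex.QP

/-- the assignment input -/
def redX (I : {I : Input // IsTransport I}) : Input := redA ⟨redI (redH I), okA_red I⟩

theorem redX_assign (I : {I : Input // IsTransport I}) : IsAssign (redX I) := redA_assign _

/-- the way back -/
def backX (I : {I : Input // IsTransport I}) (w : Fin (redX I).n → ℚ) (j : Fin I.1.n) : ℚ :=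
  2 ^ (kOf I.1 + 1) * backA (redI (redH I)) w ⟨j, lt_dim I j⟩

/-- the way back from the sparse program -/
def backSp (I : {I : Input // IsTransport I}) (w : Fin (redI (redH I)).n → ℚ) (j : Fin I.1.n) : ℚ :=
  2 ^ (kOf I.1 + 1) * w ⟨j, lt_dim I j⟩

/-- the isomorphism with the sparse program -/
noncomputable def isoSp (I : {I : Input // IsTransport I}) :
    PIso (ofQ I.1.lp) (ofQ (redI (redH I)).lp) := (isoH I).trans (isoI (redH I))

theorem isoSp_map (I : {I : Input // IsTransport I}) (x : Fin I.1.n → ℝ) :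
    (isoSp I).map x = (isoI (redH I)).map ((isoH I).map x) := by
  unfold isoSp
  rw [PIso.trans_map]

theorem isoSp_v (I : {I : Input // IsTransport I}) :
    toReal (redI (redH I)).v = (isoSp I).map (toReal I.1.v) := by
  rw [isoSp_map, isoH_v, isoI_v]

theorem backSp_map (I : {I : Input // IsTransport I}) (x : Fin I.1.n → ℝ)
    (w : Fin (redI (redH I)).n → ℚ) (hw : toReal w = (isoSp I).map x) :
    toReal (backSp I w) = x := by
  rw [isoSp_map, isoI_map] at hw
  funext j
  have h2 := congrFun hw ⟨j, lt_dim I j⟩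
  have h3 : (spIso (ofQ (redH I).lp)).φ ((isoH I).map x) ⟨j, lt_dim I j⟩ =
      x j / 2 ^ (kOf I.1 + 1) := by
    have hj : (j : ℕ) < (redH I).n := by
      show (j : ℕ) < I.1.n + 2
      omega
    have h4 := spIso_castLE (ofQ (redH I).lp) ((isoH I).map x) ⟨j, hj⟩
    exact h4.trans (isoH_lt I x j hj)
  have h5 : toReal (backSp I w) j = 2 ^ (kOf I.1 + 1) * toReal w ⟨j, lt_dim I j⟩ := by
    show ((2 ^ (kOf I.1 + 1) * w ⟨j, lt_dim I j⟩ : ℚ) : ℝ) = _
    push_cast
    rfl
  have h7 := h2.trans h3
  rw [h5, h7]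
  have h6 : (2 : ℝ) ^ (kOf I.1 + 1) ≠ 0 := by positivity
  field_simp

/-- runs are carried back -/
theorem run_of_redX {I : {I : Input // IsTransport I}} {N : ℕ} {x : ℕ → Fin (redX I).n → ℚ}
    {s : Verdict} (h : SimplexRun (redX I) N x s) :
    SimplexRun I.1 N (fun t => backX I (x t)) s := by
  have h1 : SimplexRun (redI (redH I)) N (fun t => backA (redI (redH I)) (x t)) s :=
    run_of_fiso (I := redI (redH I)) (I' := redX I) (assignFIso (okA_red I))
      (assignFIso_map (okA_red I) (redI (redH I)).v).symm (backA_map (okA_red I)) h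
  exact run_of_piso (I' := redI (redH I)) (isoSp I) (isoSp_v I) (backSp_map I) h1

end Pool.Agent.Simplex.EB.Tab.Ax
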