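import Pool.Agent.Lib.MP_4d246d_lc.EB.AxDef

/-!
# Slice sums of the array
-/

open Finset

namespace Pool.Agent.Simplex.EB.Tab.Ax

open Pool.Agent.Lib.PolyTime Pool.Agent.Simplex.QP

variable {X : Mat}

/-! ### Auxiliary facts -/

private theorem su_two (R : ℕ) (f : ℕ → ℝ) : ∑ e ∈ range (2 * R), f e =
    ∑ p ∈ range R, (f (2 * p) + f (2 * p + 1)) := by
  induction R with
  | zero => simp
  | succ R ih =>
    rw [show 2 * (R + 1) = 2 * R + 1 + 1 by ring, sum_range_succ, sum_range_succ, ih,
      sum_range_succ, add_assoc]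

private theorem su_pair (N m : ℕ) (f : ℕ → ℝ) : ∑ p ∈ range (N * m), f p =
    ∑ v ∈ range N, ∑ s ∈ range m, f (v * m + s) := by
  induction N with
  | zero => simp
  | succ N ih =>
    rw [Nat.succ_mul, sum_range_add, ih, sum_range_succ]

private theorem su_div {m v s : ℕ} (hs : s < m) : (v * m + s) / m = v ∧ (v * m + s) % m = s := by
  have hm : 0 < m := by omega
  constructor
  · rw [Nat.add_comm, Nat.add_mul_div_right _ _ hm, Nat.div_eq_of_lt hs, zero_add]
  · rw [Nat.add_comm, Nat.add_mul_mod_self_right, Nat.mod_eq_of_lt hs]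

private theorem su_cV0 (X : Mat) (p : ℕ) : cV X (2 * p) = p / X.2.length := by
  unfold cV
  rw [show 2 * p / 2 = p by omega]

private theorem su_cV1 (X : Mat) (p : ℕ) : cV X (2 * p + 1) = p / X.2.length := by
  unfold cV
  rw [show (2 * p + 1) / 2 = p by omega]

private theorem su_cS0 (X : Mat) (p : ℕ) : cS X (2 * p) = p % X.2.length := by
  unfold cS
  rw [show 2 * p / 2 = p by omega]

private theorem su_cS1 (X : Mat) (p : ℕ) : cS X (2 * p + 1) = p % X.2.length := by
  unfold cS
  rw [show (2 * p + 1) / 2 = p by omega]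

private theorem su_yv0 (X : Mat) (w : ℕ → ℝ) (p : ℕ) :
    yv X w (2 * p) = w (p / X.2.length) := by
  unfold yv
  rw [if_pos (by omega), su_cV0]

private theorem su_yv1 (X : Mat) (w : ℕ → ℝ) (p : ℕ) :
    yv X w (2 * p + 1) = 1 - w (p / X.2.length) := by
  unfold yv
  rw [if_neg (by omega), su_cV1]

private theorem su_len {X : Mat} {p : ℕ} (hp : p < slR X) : 0 < X.2.length := by
  unfold slR at hp
  rcases Nat.eq_zero_or_pos X.2.length with h | h
  · rw [h, mul_zero] at hp
    omega
  · exact h

private theorem su_cS {X : Mat} (hm : 0 < X.2.length) (e : ℕ) : cS X e < X.2.length := by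
  unfold cS
  exact Nat.mod_lt _ hm

private theorem su_num0 (X : Mat) (e : ℕ) : num0 X e = cS X e ∨ num0 X e = X.2.length + e := by
  unfold num0
  split_ifs
  · exact Or.inl rfl
  · exact Or.inr rfl

private theorem su_n0 (X : Mat) (e : ℕ) : num X 0 e = num0 X e := rfl

private theorem su_n1 (X : Mat) (e : ℕ) : num X 1 e = X.2.length + 2 * slR X + e / 2 := rfl

private theorem su_n2 (X : Mat) (e : ℕ) : num X 2 e = X.2.length + 3 * slR X + colc X e := rfl

/-- sum over the cells with a given number of each kind -/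
noncomputable def csum (X : Mat) (y : ℕ → ℝ) (i a : ℕ) : ℝ :=
  ∑ e ∈ range (2 * slR X), if num X i e = a then y e else 0

/-- the cells of a row -/
theorem csum_num0 (hX : UnitsM X) (w : ℕ → ℝ) {s : ℕ} (hs : s < X.2.length) :
    csum X (yv X w) 0 s = ∑ v ∈ range X.1, lit (cof X s v) (w v) := by
  unfold csum
  rw [su_two]
  unfold slR
  rw [su_pair]
  refine sum_congr rfl fun v _ => ?_
  rw [sum_eq_single s]
  · obtain ⟨h1, h2⟩ := su_div (v := v) hs
    have e1 : num X 0 (2 * (v * X.2.length + s)) = s ↔ cof X s v = 1 := by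
      rw [su_n0]
      unfold num0
      rw [su_cS0, su_cV0, h1, h2]
      split_ifs with a1
      · rcases a1 with a | a
        · exact ⟨fun _ => a.2, fun _ => rfl⟩
        · omega
      · constructor
        · intro h
          omega
        · intro h
          exact absurd (Or.inl ⟨by omega, h⟩) a1
    have e2 : num X 0 (2 * (v * X.2.length + s) + 1) = s ↔ cof X s v = -1 := by
      rw [su_n0]
      unfold num0
      rw [su_cS1, su_cV1, h1, h2]
      split_ifs with a1
      · rcases a1 with a | a
        · omega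
        · exact ⟨fun _ => a.2, fun _ => rfl⟩
      · constructor
        · intro h
          omega
        · intro h
          exact absurd (Or.inr ⟨by omega, h⟩) a1
    simp only [e1, e2]
    rw [su_yv0, su_yv1, h1]
    unfold lit
    rcases hX s v with h | h | h
    · rw [h, if_neg (by norm_num : ¬ (0 : ℚ) = 1), if_neg (by norm_num : ¬ (0 : ℚ) = -1),
        if_neg (by norm_num : ¬ (0 : ℚ) = 1), add_zero]
    · rw [h, if_pos rfl, if_neg (by norm_num : ¬ (1 : ℚ) = -1), if_pos rfl, add_zero]
    · rw [h, if_neg (by norm_num : ¬ (-1 : ℚ) = 1), if_pos rfl,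
        if_neg (by norm_num : ¬ (-1 : ℚ) = 1), zero_add]
  · intro s' hs' hne
    rw [mem_range] at hs'
    obtain ⟨h1, h2⟩ := su_div (v := v) hs'
    have e1 : ¬ num X 0 (2 * (v * X.2.length + s')) = s := by
      have h3 := su_num0 X (2 * (v * X.2.length + s'))
      rw [su_cS0, h2] at h3
      rw [su_n0]
      omega
    have e2 : ¬ num X 0 (2 * (v * X.2.length + s') + 1) = s := by
      have h3 := su_num0 X (2 * (v * X.2.length + s') + 1)
      rw [su_cS1, h2] at h3
      rw [su_n0]
      omega
    rw [if_neg e1, if_neg e2, add_zero]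
  · intro h
    exact absurd (mem_range.2 hs) h

/-- the cells with the first number `M + e` -/
theorem csum_rest (y : ℕ → ℝ) {e : ℕ} (he : e < 2 * slR X) :
    csum X y 0 (X.2.length + e) = if num0 X e = X.2.length + e then y e else 0 := by
  have hm : 0 < X.2.length := su_len (p := e / 2) (by omega)
  unfold csum
  rw [sum_eq_single e]
  · rw [su_n0]
  · intro e' _ hne
    have h1 := su_num0 X e'
    have h2 := su_cS hm e'
    rw [if_neg]
    rw [su_n0]
    omega
  · intro h
    exact absurd (mem_range.2 he) h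

theorem csum_num0_high (y : ℕ → ℝ) {a : ℕ} (ha : X.2.length + 2 * slR X ≤ a) :
    csum X y 0 a = 0 := by
  unfold csum
  refine sum_eq_zero fun e he => ?_
  rw [mem_range] at he
  have hm : 0 < X.2.length := su_len (p := e / 2) (by omega)
  have h1 := su_num0 X e
  have h2 := su_cS hm e
  rw [if_neg]
  rw [su_n0]
  omega

/-- the two cells of a pair -/
theorem csum_pair (y : ℕ → ℝ) {p : ℕ} (hp : p < slR X) :
    csum X y 1 (X.2.length + 2 * slR X + p) = y (2 * p) + y (2 * p + 1) := by
  unfold csum
  rw [su_two, sum_eq_single p]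
  · rw [su_n1, su_n1, if_pos (by omega), if_pos (by omega)]
  · intro q _ hne
    rw [su_n1, su_n1, if_neg (by omega), if_neg (by omega), add_zero]
  · intro h
    exact absurd (mem_range.2 hp) h

theorem csum_pair_low (y : ℕ → ℝ) {a : ℕ} (ha : a < X.2.length + 2 * slR X) :
    csum X y 1 a = 0 := by
  unfold csum
  refine sum_eq_zero fun e _ => ?_
  rw [su_n1, if_neg (by omega)]

theorem csum_pair_high (y : ℕ → ℝ) {a : ℕ} (ha : X.2.length + 3 * slR X ≤ a) :
    csum X y 1 a = 0 := by
  unfold csum
  refine sum_eq_zero fun e he => ?_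
  rw [mem_range] at he
  rw [su_n1, if_neg (by omega)]

/-- the next pair with the same variable, cyclically -/
def nxt (X : Mat) (j : ℕ) : ℕ :=
  j / X.2.length * X.2.length + (j % X.2.length + 1) % X.2.length

private theorem su_nxt {j : ℕ} (hm : 0 < X.2.length) :
    nxt X j / X.2.length = j / X.2.length ∧
      nxt X j % X.2.length = (j % X.2.length + 1) % X.2.length :=
  su_div (Nat.mod_lt _ hm)

theorem nxt_lt {j : ℕ} (hj : j < slR X) : nxt X j < slR X := by
  have hm := su_len hj
  unfold nxt
  unfold slR at hj ⊢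
  have h1 : j / X.2.length < X.1 := (Nat.div_lt_iff_lt_mul hm).2 hj
  exact row_lt h1 (Nat.mod_lt _ hm)

private theorem su_colc1 (X : Mat) (p : ℕ) : colc X (2 * p + 1) = p := by
  unfold colc
  rw [if_pos (by omega)]
  omega

private theorem su_cyc {M s t : ℕ} (hs : s < M) (ht : t < M) :
    (s + (M - 1)) % M = t ↔ s = (t + 1) % M := by
  have h1 : (s + (M - 1)) % M = if s = 0 then M - 1 else s - 1 := by
    split_ifs with h
    · subst h
      rw [zero_add]
      exact Nat.mod_eq_of_lt (by omega)
    · rw [show s + (M - 1) = s - 1 + M by omega, Nat.add_mod_right]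
      exact Nat.mod_eq_of_lt (by omega)
  have h2 : (t + 1) % M = if t + 1 = M then 0 else t + 1 := by
    split_ifs with h
    · rw [h, Nat.mod_self]
    · exact Nat.mod_eq_of_lt (by omega)
  rw [h1, h2]
  split_ifs <;> omega

private theorem su_colc0 {p j : ℕ} (hp : p < slR X) (_hj : j < slR X) :
    colc X (2 * p) = j ↔ p = nxt X j := by
  have hm := su_len hp
  have h1 : colc X (2 * p) = p / X.2.length * X.2.length +
      (p % X.2.length + (X.2.length - 1)) % X.2.length := by
    unfold colc
    rw [if_neg (by omega), su_cV0, su_cS0]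
  obtain ⟨h2, h3⟩ := su_nxt (X := X) (j := j) hm
  have ha := Nat.mod_lt p hm
  have hb := Nat.mod_lt j hm
  have h4 := su_cyc ha hb
  have hq1 : p / X.2.length * X.2.length + p % X.2.length = p := by
    rw [mul_comm]
    exact Nat.div_add_mod p _
  have hq2 : j / X.2.length * X.2.length + j % X.2.length = j := by
    rw [mul_comm]
    exact Nat.div_add_mod j _
  have hq3 : nxt X j / X.2.length * X.2.length + nxt X j % X.2.length = nxt X j := by
    rw [mul_comm]
    exact Nat.div_add_mod _ _
  rw [h1]
  constructor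
  · intro h
    rw [← hq2] at h
    obtain ⟨h5, h6⟩ := row_inj (Nat.mod_lt _ hm) hb h
    rw [← hq1, ← hq3, h2, h3, h5, h4.1 h6]
  · intro h
    rw [← hq1, ← hq3] at h
    obtain ⟨h5, h6⟩ := row_inj ha (Nat.mod_lt _ hm) h
    rw [h2] at h5
    rw [h3] at h6
    rw [h5, h4.2 h6, hq2]

/-- the two cells of a link -/
theorem csum_link (y : ℕ → ℝ) {j : ℕ} (hj : j < slR X) :
    csum X y 2 (X.2.length + 3 * slR X + j) = y (2 * j + 1) + y (2 * nxt X j) := by
  have h0 := nxt_lt hj
  unfold csum
  rw [su_two, sum_add_distrib, add_comm]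
  congr 1
  · rw [sum_eq_single j]
    · rw [su_n2, su_colc1, if_pos rfl]
    · intro q _ hne
      rw [su_n2, su_colc1, if_neg (by omega)]
    · intro h
      exact absurd (mem_range.2 hj) h
  · rw [sum_eq_single (nxt X j)]
    · rw [su_n2, (su_colc0 h0 hj).2 rfl, if_pos rfl]
    · intro q hq hne
      rw [mem_range] at hq
      rw [su_n2, if_neg]
      intro h
      exact hne ((su_colc0 hq hj).1 (by omega))
    · intro h
      exact absurd (mem_range.2 h0) h

theorem csum_link_low (y : ℕ → ℝ) {a : ℕ} (ha : a < X.2.length + 3 * slR X) :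
    csum X y 2 a = 0 := by
  unfold csum
  refine sum_eq_zero fun e _ => ?_
  rw [su_n2, if_neg (by omega)]

/-- the slice sums of an array given by the values `y ρ e` at the places of the cells and `d a` on
the diagonal -/
theorem ssum_cells (y : ℕ → ℕ → ℝ) (d : ℕ → ℝ) {κ a : ℕ} (hκ : κ < 3) :
    ssum (axN X) κ a (fun q =>
      (∑ ρ ∈ range 3, ∑ e ∈ range (2 * slR X), if q = pos X ρ e then y ρ e else 0) +
        ∑ b ∈ range (X.2.length + 2 * slR X), if q = dpos X b then d b else 0) =
    csum X (y κ) 0 a + csum X (y ((κ + 2) % 3)) 1 a + csum X (y ((κ + 1) % 3)) 2 a +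
      if a < X.2.length + 2 * slR X then d a else 0 := by
  rw [ssum_add, ssum_sum]
  congr 1
  · have h1 : ∀ ρ ∈ range 3, ssum (axN X) κ a
        (fun q => ∑ e ∈ range (2 * slR X), if q = pos X ρ e then y ρ e else 0) =
        csum X (y ρ) ((κ + 3 - ρ) % 3) a := by
      intro ρ hρ
      rw [ssum_points _ _ _ fun e he => pos_lt (mem_range.1 he) ρ]
      unfold csum
      refine sum_congr rfl fun e he => ?_
      rw [crd_pos (mem_range.1 he) (mem_range.1 hρ) hκ]
    rw [sum_congr rfl h1]
    simp only [sum_range_succ, range_zero, sum_empty, zero_add]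
    interval_cases κ
    · norm_num
      ring
    · norm_num
      ring
    · norm_num
      ring
  · rw [ssum_points _ _ _ fun b hb => dpos_lt (mem_range.1 hb)]
    have h1 : ∀ b ∈ range (X.2.length + 2 * slR X),
        (if crd (axN X) κ (dpos X b) = a then d b else 0) = if a = b then d b else 0 := by
      intro b hb
      rw [crd_dpos (mem_range.1 hb)]
      simp only [eq_comm]
    rw [sum_congr rfl h1, sum_ite_eq]
    simp only [mem_range]

/-- **All slice sums are `1`.** -/
theorem ssum_arr (hX : UnitsM X) {w : ℕ → ℝ} (hw : Sys X w) {κ a : ℕ} (hκ : κ < 3)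
    (ha : a < axN X) : ssum (axN X) κ a (arr X w) = 1 := by
  have h0 := ssum_cells (X := X) (fun _ => yv X w) (dval X w) (a := a) hκ
  have h1 : ssum (axN X) κ a (arr X w) = csum X (yv X w) 0 a + csum X (yv X w) 1 a +
      csum X (yv X w) 2 a + if a < X.2.length + 2 * slR X then dval X w a else 0 := h0
  rw [h1]
  unfold axN at ha
  rcases lt_or_ge a X.2.length with h2 | h2
  · rw [csum_num0 hX w h2, csum_pair_low _ (by omega), csum_link_low _ (by omega),
      if_pos (by omega), add_zero, add_zero]
    unfold dval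
    rw [if_pos h2]
    by_cases hz : ZeroRow X a
    · rw [if_pos hz, sum_eq_zero, zero_add]
      intro v hv
      unfold lit
      rw [hz v (mem_range.1 hv), if_neg (by norm_num : ¬ (0 : ℚ) = 1),
        if_neg (by norm_num : ¬ (0 : ℚ) = -1)]
    · rw [if_neg hz, hw a h2 hz, add_zero]
  rcases lt_or_ge a (X.2.length + 2 * slR X) with h3 | h3
  · obtain ⟨e, rfl⟩ : ∃ e, a = X.2.length + e := ⟨a - X.2.length, by omega⟩
    rw [csum_rest _ (by omega), csum_pair_low _ h3, csum_link_low _ (by omega), if_pos h3,
      add_zero, add_zero]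
    unfold dval
    rw [if_neg (show ¬ X.2.length + e < X.2.length by omega), Nat.add_sub_cancel_left]
    split_ifs
    · ring
    · ring
  rcases lt_or_ge a (X.2.length + 3 * slR X) with h4 | h4
  · obtain ⟨p, rfl⟩ : ∃ p, a = X.2.length + 2 * slR X + p :=
      ⟨a - (X.2.length + 2 * slR X), by omega⟩
    rw [csum_num0_high _ h3, csum_pair _ (by omega), csum_link_low _ h4,
      if_neg (by omega), su_yv0, su_yv1]
    ring
  · obtain ⟨j, rfl⟩ : ∃ j, a = X.2.length + 3 * slR X + j :=
      ⟨a - (X.2.length + 3 * slR X), by omega⟩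
    have hj : j < slR X := by omega
    rw [csum_num0_high _ h3, csum_pair_high _ h4, csum_link _ hj,
      if_neg (by omega), su_yv0, su_yv1, (su_nxt (su_len hj)).1]
    ring

end Pool.Agent.Simplex.EB.Tab.Ax
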