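import Pool.Agent.Lib.MP_4d246d_lc.EB.Rule

/-!
# Runs of the simulated machine on a guessed program
-/

namespace Pool.Agent.Simplex.EB

open Pool.Agent.Lib.PolyTime Pool.Agent.Simplex.QP

variable {m n : ℕ}

/-- the guessed program: the matrix `A`, scaled right-hand sides `w`, objective `c` -/
def guessQ (A : Fin m → Fin n → ℚ) (w c : List ℤ) : QLP m n where
  A := A
  b i := ((w.getD i 0 : ℤ) : ℚ) / ((denZ (List.ofFn (A i)) : ℤ) : ℚ)
  c j := ((c.getD j 0 : ℤ) : ℚ)

/-- the guessed program as a real program -/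
noncomputable def guessR (A : Fin m → Fin n → ℚ) (w c : List ℤ) : RLP m n := ofQ (guessQ A w c)

theorem guessR_A (A : Fin m → Fin n → ℚ) (w c : List ℤ) : (guessR A w c).A = A := rfl

theorem guessR_rhs (A : Fin m → Fin n → ℚ) (w c : List ℤ) : (guessR A w c).rhs = realZ m w := by
  funext i
  show sc A i * ((((w.getD i 0 : ℤ) : ℚ) / ((denZ (List.ofFn (A i)) : ℤ) : ℚ) : ℚ) : ℝ) =
    ((w.getD i 0 : ℤ) : ℝ)
  have h1 : (0 : ℝ) < ((denZ (List.ofFn (A i)) : ℤ) : ℝ) := by exact_mod_cast denZ_pos _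
  have h2 : sc A i = ((denZ (List.ofFn (A i)) : ℤ) : ℝ) := by
    rw [sc, dif_pos i.2]
  rw [h2]
  push_cast
  field_simp

theorem guessR_c (A : Fin m → Fin n → ℚ) (w c : List ℤ) : (guessR A w c).c = realZ n c := by
  funext j
  show (((c.getD j 0 : ℤ) : ℚ) : ℝ) = ((c.getD j 0 : ℤ) : ℝ)
  push_cast
  rfl

/-- the name computed by the rule -/
theorem nmZ_eq (A : Fin m → Fin n → ℚ) {w : List ℤ} (hw : w.length = m) (c : List ℤ)
    (q : Fin n → ℚ) : nmZ (genM (guessR A w c).mat) w (List.ofFn q) =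
      (guessR A w c).name (toReal q) := by
  classical
  have hG : genM (guessR A w c).mat = (guessR A w c).gen := rfl
  rw [hG, RLP.name_eq]
  unfold nmZ
  rw [RLP.gen_len]
  refine List.map_congr_left fun i hi => ?_
  have hi' := List.mem_range.1 hi
  rw [decide_eq_decide]
  have hd : (0 : ℝ) < ((denZ (List.ofFn q) : ℤ) : ℝ) := by exact_mod_cast denZ_pos _
  have hlen : ((guessR A w c).gen.getD i []).length = n := by
    rw [List.getD_eq_getElem _ _ (by rw [RLP.gen_len]; exact hi')]
    exact (guessR A w c).mem_gen_len (List.getElem_mem _)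
  have h1 : ext0 m (guessR A w c).rhs i = ((w.getD i 0 : ℤ) : ℝ) := by
    rw [guessR_rhs]
    unfold ext0 realZ
    split_ifs with h
    · rfl
    · rw [List.getD_eq_default _ _ (by omega)]
      simp
  have h2 : ((dotZ ((guessR A w c).gen.getD i []) (clr (denZ (List.ofFn q)) (List.ofFn q)) : ℤ) : ℝ) =
      ((denZ (List.ofFn q) : ℤ) : ℝ) * rdot n ((guessR A w c).gen.getD i []) (toReal q) := by
    rw [dotZ_eq_fin _ _ n (Or.inl hlen.le)]
    unfold rdot toReal
    push_cast
    rw [Finset.mul_sum]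
    refine Finset.sum_congr rfl fun j _ => ?_
    rw [getD_clr q (fun j => den_dvd (List.mem_ofFn.2 ⟨j, rfl⟩)) j]
    ring
  have h3 := (guessR A w c).slack_eq hi' (toReal q)
  rw [h1] at h3
  have h4 : (((w.getD i 0 * denZ (List.ofFn q) + dotZ ((guessR A w c).gen.getD i [])
      (clr (denZ (List.ofFn q)) (List.ofFn q)) : ℤ)) : ℝ) =
      ((denZ (List.ofFn q) : ℤ) : ℝ) * (sc (guessR A w c).A i * (guessR A w c).sys.sl i (toReal q)) := by
    rw [← h3]
    push_cast at h2 ⊢
    rw [h2]
    ring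
  have h5 := sc_pos (guessR A w c).A i
  constructor
  · intro h
    rw [h] at h4
    have h6 : ((denZ (List.ofFn q) : ℤ) : ℝ) *
        (sc (guessR A w c).A i * (guessR A w c).sys.sl i (toReal q)) = 0 := by
      rw [← h4]
      simp
    rcases mul_eq_zero.1 h6 with h7 | h7
    · exact absurd h7 hd.ne'
    · rcases mul_eq_zero.1 h7 with h8 | h8
      · exact absurd h8 h5.ne'
      · exact h8
  · intro h
    rw [h, mul_zero, mul_zero] at h4
    exact_mod_cast h4

/-- a bounded program has no unbounded edge -/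
theorem not_ray_bdd {D : RLP m n} (hB : Bdd D.A) {x z : Fin n → ℝ} (hz : z ≠ 0) : ¬ D.Ray x z := by
  intro h
  have h1 := ((D.ray_iff hz).1 h).2.2
  refine hz (hB.eq_zero (fun j => ?_) fun i => ?_)
  · have h3 := h1 (m + j) (by omega)
    rwa [D.sys_ln, lnA_var] at h3
  · have h3 := h1 i (by omega)
    rwa [D.sys_ln, lnA_row, neg_nonneg] at h3

/-- the lists of the input -/
theorem unsc_eq (A : Fin m → Fin n → ℚ) {w : List ℤ} (hw : w.length = m) (c : List ℤ) :
    unsc (guessR A w c).mat w = List.ofFn (guessQ A w c).b := by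
  unfold unsc
  apply List.ext_getElem
  · simp [guessR, ofQ_mat, hw]
  · intro i h1 h2
    simp only [List.length_ofFn] at h2
    rw [List.getElem_zipWith, List.getElem_ofFn]
    show _ = ((w.getD i 0 : ℤ) : ℚ) / ((denZ (List.ofFn (A ⟨i, h2⟩)) : ℤ) : ℚ)
    rw [List.getD_eq_getElem _ _ (by omega)]
    congr 3
    exact List.getElem_ofFn _

theorem cast_eq (A : Fin m → Fin n → ℚ) (w : List ℤ) {c : List ℤ} (hc : c.length = n) :
    c.map (fun a : ℤ => (a : ℚ)) = List.ofFn (guessQ A w c).c := by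
  apply List.ext_getElem
  · simp [hc]
  · intro i h1 h2
    simp only [List.length_map] at h1
    rw [List.getElem_map, List.getElem_ofFn]
    show _ = ((c.getD i 0 : ℤ) : ℚ)
    rw [List.getD_eq_getElem _ _ h1]

/-- The run of the machine on the guessed program started at the vertex `x'`: `x t` are the
vertices, `N` is the number of pivots. -/
theorem hyp_run (W : Engine) {A : Fin m → Fin n → ℚ} (hB : Bdd A) {w c : List ℤ}
    (hw : w.length = m) (hc : c.length = n) {x' : Fin n → ℝ}
    (hx' : (guessR A w c).Vertex x') :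
    ∃ (N : ℕ) (x : ℕ → Fin n → ℝ),
      N = W.N (mkInput (guessR A w c).mat (unsc (guessR A w c).mat w)
        (c.map (fun a : ℤ => (a : ℚ))) ((guessR A w c).name x')) ∧
      x 0 = x' ∧
      (∀ t < N, (guessR A w c).Improving (x t) (x (t + 1))) ∧
      (∀ t ≤ N, (guessR A w c).Vertex (x t)) ∧
      (guessR A w c).Optimal (x N) ∧
      ∀ t ≤ N, nmZ (genM (guessR A w c).mat) w (W.report (W.next^[t] (W.init
          (mkInput (guessR A w c).mat (unsc (guessR A w c).mat w)
            (c.map (fun a : ℤ => (a : ℚ))) ((guessR A w c).name x'))))).1 =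
          (guessR A w c).name (x t) ∧
        ((W.report (W.next^[t] (W.init (mkInput (guessR A w c).mat (unsc (guessR A w c).mat w)
            (c.map (fun a : ℤ => (a : ℚ))) ((guessR A w c).name x'))))).2 = .pivot ↔ t < N) := by
  obtain ⟨v, hv, hvx, hI⟩ := mkInput_spec (guessQ A w c) hx'
  have hI' : mkInput (guessR A w c).mat (unsc (guessR A w c).mat w)
      (c.map (fun a : ℤ => (a : ℚ))) ((guessR A w c).name x') = ⟨m, n, guessQ A w c, v, hv⟩ := by
    rw [unsc_eq A hw c, cast_eq A w hc]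
    exact hI
  rw [hI']
  have hrun := W.run ⟨m, n, guessQ A w c, v, hv⟩
  have hrep := W.rep ⟨m, n, guessQ A w c, v, hv⟩
  have hpiv : ∀ t < W.N ⟨m, n, guessQ A w c, v, hv⟩, (guessR A w c).Improving
      (toReal (W.x ⟨m, n, guessQ A w c, v, hv⟩ t)) (toReal (W.x ⟨m, n, guessQ A w c, v, hv⟩ (t + 1))) :=
    fun t ht => hrun.pivot t ht
  have h0 : toReal (W.x ⟨m, n, guessQ A w c, v, hv⟩ 0) = x' := by
    rw [hrun.start]
    exact hvx
  refine ⟨W.N ⟨m, n, guessQ A w c, v, hv⟩, fun t => toReal (W.x ⟨m, n, guessQ A w c, v, hv⟩ t),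
    rfl, h0, hpiv, fun t ht => ?_, ?_, fun t ht => ⟨?_, ?_⟩⟩
  · cases t with
    | zero =>
      show (guessR A w c).Vertex (toReal (W.x ⟨m, n, guessQ A w c, v, hv⟩ 0))
      rw [h0]
      exact hx'
    | succ t => exact (hpiv t (by omega)).1.2.1
  · rcases hrun.stop with ⟨_, _, h⟩ | ⟨_, h⟩
    · exact h
    · obtain ⟨h1, z, h2, h3⟩ := (ofQ_unbounded (guessQ A w c) _).1 h
      exfalso
      refine not_ray_bdd (D := guessR A w c) hB (z := z) ?_ h3
      rintro rfl
      have h4 : (ofQ (guessQ A w c)).obj 0 = 0 := by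
        unfold RLP.obj
        simp
      rw [h4] at h2
      exact lt_irrefl _ h2
  · rw [hrep t ht]
    exact nmZ_eq A hw c _
  · rw [hrep t ht]
    show (if t < W.N ⟨m, n, guessQ A w c, v, hv⟩ then Verdict.pivot else
      W.s ⟨m, n, guessQ A w c, v, hv⟩) = .pivot ↔ _
    split_ifs with h
    · simp [h]
    · simp only [h, iff_false]
      rcases hrun.stop with ⟨h1, _⟩ | ⟨h1, _⟩
      · rw [h1]
        simp
      · rw [h1]
        simp

end Pool.Agent.Simplex.EB
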