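import Pool.Agent.Lib.MP_4d246d_lc.EB.Sync
import Pool.Agent.Lib.MP_4d246d_lc.EB.HypRun
import Pool.Agent.Lib.MP_4d246d_lc.EB.Mis

/-!
# The invariant of the blind rule
-/

namespace Pool.Agent.Simplex.EB

open Pool.Agent.Lib.PolyTime Pool.Agent.Simplex.QP Pool.Agent.Lib.MP_4d246d_lc.EB

variable (W : Engine) (e : ℕ) {m n : ℕ} (D : RLP m n) (B : ℕ)

/-- the guessed program of a state -/
noncomputable def guessS (Hb Hc : List Fact) : RLP m n :=
  guessR D.A (gb e D.mat Hb) (gc e D.mat Hc)

/-- the input of the machine -/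
noncomputable def inpS (Hb Hc : List Fact) (x' : Fin n → ℝ) : Input :=
  inp e D.mat Hb Hc ((guessS e D Hb Hc).name x')

/-- `x'` is a vertex of the guessed program, and its name is the name of a vertex -/
def GV (Hb Hc : List Fact) (x' : Fin n → ℝ) : Prop :=
  (guessS e D Hb Hc).Vertex x' ∧ ∃ y, D.Vertex y ∧ (guessS e D Hb Hc).name x' = D.name y

/-- all runs of the machine on guesses have at most `B` pivots -/
def RunBd : Prop :=
  ∀ (Hb Hc : List Fact) (x' : Fin n → ℝ), Used e D.mat.2.length D.mat Hb → Used e n D.mat Hc →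
    GV e D Hb Hc x' → W.N (inpS e D Hb Hc x') ≤ B

/-- The invariant: `h` is the list of the answers, `x` the current vertex, `s` the state. -/
structure Inv (h : List Answer) (x : Fin n → ℝ) (s : RSt W) : Prop where
  vert : D.Vertex x
  name : s.2.2.1 = D.name x
  goodb : ∀ f ∈ s.1, GoodF m (bits e D.mat) f ∧ Holds m D.rhs f
  chainb : MChain (gb e D.mat) s.1
  goodc : ∀ f ∈ s.2.1, GoodF n (bits e D.mat) f ∧ Holds n D.c f
  chainc : MChain (gc e D.mat) s.2.1
  run : ∃ (x' : Fin n → ℝ) (t : ℕ), GV e D s.1 s.2.1 x' ∧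
      s.2.2.2 = W.next^[t] (W.init (inpS e D s.1 s.2.1 x')) ∧
      t ≤ W.N (inpS e D s.1 s.2.1 x') ∧
      nameR W e D.mat s.1 s.2.2.2 = s.2.2.1 ∧
      h.length ≤ (s.1.length + s.2.1.length) * (B + 1) + t

section

variable {D}

theorem length_mat : D.mat.2.length = m := by
  simp [RLP.mat]

theorem gb_len (H : List Fact) : (gb e D.mat H).length = m := by
  unfold gb
  rw [length_learnerGuess, length_mat]

theorem gc_len (H : List Fact) : (gc e D.mat H).length = n := by
  unfold gc
  rw [length_learnerGuess]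
  rfl

theorem gb_fun : gb e D.mat = learnerGuess m (bits e D.mat) := by
  funext H
  unfold gb
  rw [length_mat]

theorem gc_fun : gc e D.mat = learnerGuess n (bits e D.mat) := rfl

theorem guessS_rhs (Hb Hc : List Fact) : (guessS e D Hb Hc).rhs = realZ m (gb e D.mat Hb) :=
  guessR_rhs _ _ _

theorem guessS_c (Hb Hc : List Fact) : (guessS e D Hb Hc).c = realZ n (gc e D.mat Hc) :=
  guessR_c _ _ _

theorem guessS_A (Hb Hc : List Fact) : D.A = (guessS e D Hb Hc).A := rfl

/-- the facts of a name -/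
theorem mem_facts {S : List Bool} {f : Fact}
    (hf : f ∈ nameFacts D.mat.2.length D.mat.1 (genM D.mat) S) : f ∈ D.nameFacts S := by
  rw [length_mat] at hf
  exact hf

theorem facts_len {S : List Bool} {f : Fact} (hf : f ∈ D.nameFacts S) : f.2.length = m :=
  nameFacts_len hf

/-- facts that hold for the guess are not violated -/
theorem viol_b {Hb Hc : List Fact} {f : Fact} (hf : f.2.length = m) :
    viol f (gb e D.mat Hb) = false ↔ Holds m (guessS e D Hb Hc).rhs f := by
  rw [viol_iff hf, guessS_rhs]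

theorem viol_c {Hb Hc : List Fact} {f : Fact} (hf : f.2.length = n) :
    viol f (gc e D.mat Hc) = false ↔ Holds n (guessS e D Hb Hc).c f := by
  rw [viol_iff hf, guessS_c]

/-- the facts of the name of a vertex hold -/
theorem facts_hold {x : Fin n → ℝ} (hx : D.Vertex x) :
    ∀ f ∈ D.nameFacts (D.name x), Holds m D.rhs f :=
  (RLP.name_vertex_iff rfl hx).2 ⟨x, hx, rfl⟩

theorem lt_fuel_b {Hb : List Fact} (hg : ∀ f ∈ Hb, GoodF m (bits e D.mat) f ∧ Holds m D.rhs f)
    (hc : MChain (gb e D.mat) Hb) : Hb.length < fuel e D.mat := by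
  rw [gb_fun] at hc
  exact chain_lt_fuel (by rw [length_mat]; omega) (fun f hf => (hg f hf).1)
    (fun f hf => (hg f hf).2) hc

theorem lt_fuel_c {Hc : List Fact} (hg : ∀ f ∈ Hc, GoodF n (bits e D.mat) f ∧ Holds n D.c f)
    (hc : MChain (gc e D.mat) Hc) : Hc.length < fuel e D.mat := by
  rw [gc_fun] at hc
  exact chain_lt_fuel (by show n ≤ _ + n; omega) (fun f hf => (hg f hf).1)
    (fun f hf => (hg f hf).2) hc

end

/-- the machine on the guess -/
theorem run_guess (hbd : Bdd D.A) {Hb Hc : List Fact} {x' : Fin n → ℝ}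
    (hx' : (guessS e D Hb Hc).Vertex x') : ∃ xs : ℕ → Fin n → ℝ, xs 0 = x' ∧
      (∀ t < W.N (inpS e D Hb Hc x'), (guessS e D Hb Hc).Improving (xs t) (xs (t + 1))) ∧
      (∀ t ≤ W.N (inpS e D Hb Hc x'), (guessS e D Hb Hc).Vertex (xs t)) ∧
      (guessS e D Hb Hc).Optimal (xs (W.N (inpS e D Hb Hc x'))) ∧
      ∀ t ≤ W.N (inpS e D Hb Hc x'),
        nameR W e D.mat Hb (W.next^[t] (W.init (inpS e D Hb Hc x'))) =
          (guessS e D Hb Hc).name (xs t) ∧
        ((W.report (W.next^[t] (W.init (inpS e D Hb Hc x')))).2 = .pivot ↔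
          t < W.N (inpS e D Hb Hc x')) := by
  obtain ⟨N, xs, hN, h0, h1, h2, h3, h4⟩ := hyp_run W hbd (gb_len e (D := D) Hb)
    (gc_len e (D := D) Hc) hx'
  have hN' : N = W.N (inpS e D Hb Hc x') := hN
  subst hN'
  exact ⟨xs, h0, h1, h2, h3, h4⟩

variable {W e D B}

theorem Inv.N_le (hB : RunBd W e D B) {h : List Answer} {x : Fin n → ℝ} {s : RSt W}
    (hI : Inv W e D B h x s) {x' : Fin n → ℝ} (hx' : GV e D s.1 s.2.1 x') :
    W.N (inpS e D s.1 s.2.1 x') ≤ B := by
  refine hB _ _ _ ⟨fun f hf => ?_, lt_fuel_b e hI.goodb hI.chainb⟩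
    ⟨fun f hf => (hI.goodc f hf).1, lt_fuel_c e hI.goodc hI.chainc⟩ hx'
  rw [length_mat]
  exact (hI.goodb f hf).1

/-- starting the machine at the current vertex -/
theorem inv_start (hbd : Bdd D.A) {h : List Answer} {x : Fin n → ℝ} (hx : D.Vertex x)
    {Hb Hc : List Fact}
    (hb : ∀ f ∈ Hb, GoodF m (bits e D.mat) f ∧ Holds m D.rhs f)
    (cb : MChain (gb e D.mat) Hb)
    (hc : ∀ f ∈ Hc, GoodF n (bits e D.mat) f ∧ Holds n D.c f)
    (cc : MChain (gc e D.mat) Hc)
    (hi : ∀ f ∈ D.nameFacts (D.name x), viol f (gb e D.mat Hb) = false)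
    (hcount : h.length ≤ (Hb.length + Hc.length) * (B + 1)) :
    Inv W e D B h x (startR W e D.mat Hb Hc (D.name x)) := by
  obtain ⟨x', hx', hn⟩ := (RLP.name_vertex_iff (guessS_A e Hb Hc) hx).1 fun f hf =>
    (viol_b e (facts_len hf)).1 (hi f hf)
  have hq : W.init (inp e D.mat Hb Hc (D.name x)) = W.init (inpS e D Hb Hc x') := by
    unfold inpS
    rw [hn]
  obtain ⟨xs, h0, -, -, -, h4⟩ := run_guess W e D hbd hx'
  refine ⟨hx, rfl, hb, cb, hc, cc, x', 0, ⟨hx', x, hx, hn⟩, hq, Nat.zero_le _, ?_, hcount⟩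
  have h5 := (h4 0 (Nat.zero_le _)).1
  rw [h0, hn] at h5
  show nameR W e D.mat Hb (W.init (inp e D.mat Hb Hc (D.name x))) = D.name x
  rw [hq]
  exact h5

/-- learning the name of a vertex -/
theorem sync_name (hS : Small e D.mat) {y : Fin n → ℝ} (hy : D.Vertex y) {Hb : List Fact}
    (hb : ∀ f ∈ Hb, GoodF m (bits e D.mat) f ∧ Holds m D.rhs f)
    (cb : MChain (gb e D.mat) Hb) :
    (∀ f ∈ syncB e D.mat (D.name y) Hb, GoodF m (bits e D.mat) f ∧ Holds m D.rhs f) ∧
      MChain (gb e D.mat) (syncB e D.mat (D.name y) Hb) ∧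
      (∀ f ∈ D.nameFacts (D.name y),
        viol f (gb e D.mat (syncB e D.mat (D.name y) Hb)) = false) ∧
      Hb.length ≤ (syncB e D.mat (D.name y) Hb).length ∧
      ((∃ f ∈ D.nameFacts (D.name y), viol f (gb e D.mat Hb) = true) →
        Hb.length < (syncB e D.mat (D.name y) Hb).length) := by
  have hF : ∀ f ∈ nameFacts D.mat.2.length D.mat.1 (genM D.mat) (D.name y),
      GoodF m (bits e D.mat) f ∧ Holds m D.rhs f := by
    intro f hf
    have h1 := hS.1 (D.name y) (by rw [RLP.length_name]; exact (D.gen_len).symm) f hf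
    rw [length_mat] at h1
    exact ⟨h1, facts_hold hy f (mem_facts hf)⟩
  have h := sync_spec (g := gb e D.mat) (fuel := fuel e D.mat)
    (p := fun f => GoodF m (bits e D.mat) f ∧ Holds m D.rhs f)
    (fun H h1 h2 => lt_fuel_b e h1 h2) hF hb cb
  have hset : D.nameFacts (D.name y) =
      nameFacts D.mat.2.length D.mat.1 (genM D.mat) (D.name y) := by
    rw [length_mat]
    rfl
  rw [hset]
  exact h

theorem inv_begin (hbd : Bdd D.A) (hS : Small e D.mat) {x : Fin n → ℝ} (hx : D.Vertex x) :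
    Inv W e D B [] x (begin W e D.mat (D.name x)) := by
  obtain ⟨h1, h2, h3, -, -⟩ := sync_name (e := e) hS hx (Hb := []) (by simp)
    (fun t ht => by simp at ht)
  exact inv_start hbd hx h1 h2 (by simp) (fun t ht => by simp at ht) h3 (by simp)

/-- the target is the name of the next edge of the guess -/
theorem Inv.target (hbd : Bdd D.A) {h : List Answer} {x : Fin n → ℝ} {s : RSt W}
    (hI : Inv W e D B h x s) : ∃ (x' : Fin n → ℝ) (t : ℕ) (p : Fin n → ℝ),
      GV e D s.1 s.2.1 x' ∧
      s.2.2.2 = W.next^[t] (W.init (inpS e D s.1 s.2.1 x')) ∧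
      t ≤ W.N (inpS e D s.1 s.2.1 x') ∧
      h.length ≤ (s.1.length + s.2.1.length) * (B + 1) + t ∧
      (guessS e D s.1 s.2.1).Vertex p ∧ D.name x = (guessS e D s.1 s.2.1).name p ∧
      ((EB.target W e D.mat s = none ∧ (guessS e D s.1 s.2.1).Optimal p) ∨
        ∃ y', (guessS e D s.1 s.2.1).Improving p y' ∧ t < W.N (inpS e D s.1 s.2.1 x') ∧
          EB.target W e D.mat s = some ((guessS e D s.1 s.2.1).edgeName p (y' - p)) ∧
          nameR W e D.mat s.1 (W.next s.2.2.2) = (guessS e D s.1 s.2.1).name y') := by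
  obtain ⟨x', t, hx', hq, ht, hn, hc⟩ := hI.run
  obtain ⟨xs, h0, h1, h2, h3, h4⟩ := run_guess W e D hbd hx'.1
  obtain ⟨h5, h6⟩ := h4 t ht
  rw [← hq] at h5 h6
  have hname : D.name x = (guessS e D s.1 s.2.1).name (xs t) := by
    rw [← h5, hn, hI.name]
  refine ⟨x', t, xs t, hx', hq, ht, hc, h2 t ht, hname, ?_⟩
  by_cases hlt : t < W.N (inpS e D s.1 s.2.1 x')
  · right
    obtain ⟨h7, -⟩ := h4 (t + 1) hlt
    rw [Function.iterate_succ_apply', ← hq] at h7
    refine ⟨xs (t + 1), h1 t hlt, hlt, ?_, h7⟩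
    unfold EB.target
    rw [if_pos (h6.2 hlt), h5, h7, RLP.edgeName_sub]
    rfl
  · left
    have hN : t = W.N (inpS e D s.1 s.2.1 x') := by omega
    refine ⟨?_, by rw [hN]; exact h3⟩
    unfold EB.target
    rw [if_neg (fun h => hlt (h6.1 h))]

/-- the proposed edge is followed -/
theorem inv_moved (hbd : Bdd D.A) (hS : Small e D.mat) (hB : RunBd W e D B)
    {h : List Answer} {x y : Fin n → ℝ} {s : RSt W} (hI : Inv W e D B h x s)
    (hxy : D.Improving x y) (hp : EB.target W e D.mat s = some (D.edgeName x (y - x))) :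
    Inv W e D B (h ++ [.moved (D.name y)]) y (upd W e D.mat s (.moved (D.name y))) := by
  obtain ⟨x', t, p, hx', hq, ht, hc, hp', hn, ⟨h1, -⟩ | ⟨y', h1, h2, h3, h4⟩⟩ := hI.target hbd
  · rw [h1] at hp
    simp at hp
  have hy : D.Vertex y := hxy.1.2.1
  have hT : D.edgeName x (y - x) = (guessS e D s.1 s.2.1).edgeName p (y' - p) := by
    rw [hp] at h3
    exact Option.some.inj h3
  unfold upd
  simp only
  split_ifs with hcase
  · refine ⟨hy, rfl, hI.goodb, hI.chainb, hI.goodc, hI.chainc, x', t + 1, hx', ?_, h2, hcase, ?_⟩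
    · simp only
      rw [Function.iterate_succ_apply', ← hq]
    · simp only [List.length_append, List.length_singleton]
      omega
  · obtain ⟨f, hf, hf'⟩ := fact_of_mismatch (guessS_A e s.1 s.2.1) hxy.1 h1.1 hn hT
      (fun h5 => hcase (by rw [h4, h5]))
    obtain ⟨g1, g2, g3, g4, g5⟩ := sync_name (e := e) hS hy hI.goodb hI.chainb
    have g6 := g5 ⟨f, hf, by
      rw [← Bool.not_eq_false]
      exact fun h6 => hf' ((viol_b e (facts_len hf)).1 h6)⟩
    refine inv_start hbd hy g1 g2 hI.goodc hI.chainc g3 ?_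
    have hN := hI.N_le hB hx'
    have h7 : (s.1.length + s.2.1.length + 1) * (B + 1) ≤
        ((syncB e D.mat (D.name y) s.1).length + s.2.1.length) * (B + 1) :=
      Nat.mul_le_mul_right _ (by omega)
    have h8 : (s.1.length + s.2.1.length + 1) * (B + 1) =
        (s.1.length + s.2.1.length) * (B + 1) + (B + 1) := by ring
    simp only [List.length_append, List.length_singleton]
    omega

/-- the proposal is rejected -/
theorem inv_refused (hbd : Bdd D.A) (hS : Small e D.mat) (hB : RunBd W e D B)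
    {h : List Answer} {x y : Fin n → ℝ} {s : RSt W} (hI : Inv W e D B h x s)
    (hxy : D.Improving x y)
    (h1 : ∀ w, D.Improving x w → EB.target W e D.mat s ≠ some (D.edgeName x (w - x))) :
    Inv W e D B (h ++ [.refused (D.name y)]) x
      (upd W e D.mat s (.refused (D.name y))) := by
  obtain ⟨x', t, p, hx', hq, ht, hc, hp', hn, hcases⟩ := hI.target hbd
  have hN := hI.N_le hB hx'
  have hlenx : (D.name x).length = (genM D.mat).length := by
    rw [RLP.length_name]; exact (D.gen_len).symm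
  have hi : ∀ f ∈ D.nameFacts (D.name x), viol f (gb e D.mat s.1) = false := fun f hf =>
    (viol_b e (facts_len hf)).2 ((RLP.name_vertex_iff (guessS_A e s.1 s.2.1) hI.vert).2
      ⟨p, hp', hn.symm⟩ f hf)
  have hcount : (h ++ [Answer.refused (D.name y)]).length ≤
      (s.1.length + (s.2.1.length + 1)) * (B + 1) := by
    have h8 : (s.1.length + (s.2.1.length + 1)) * (B + 1) =
        (s.1.length + s.2.1.length) * (B + 1) + (B + 1) := by ring
    simp only [List.length_append, List.length_singleton]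
    omega
  have key : ∀ f : Fact, GoodF n (bits e D.mat) f → Holds n D.c f →
      ¬ Holds n (guessS e D s.1 s.2.1).c f →
      Inv W e D B (h ++ [.refused (D.name y)]) x
        (startR W e D.mat s.1 (s.2.1 ++ [f]) (D.name x)) := by
    intro f hf1 hf2 hf3
    refine inv_start hbd hI.vert hI.goodb hI.chainb (fun f' hf' => ?_) ?_ hi ?_
    · rcases List.mem_append.1 hf' with h5 | h5
      · exact hI.goodc f' h5
      · rw [List.mem_singleton] at h5
        rw [h5]
        exact ⟨hf1, hf2⟩
    · refine mchain_append hI.chainc ?_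
      rw [← Bool.not_eq_false]
      exact fun h6 => hf3 ((viol_c e hf1.1).1 h6)
    · simpa using hcount
  rcases hcases with ⟨h2, h3⟩ | ⟨y', h2, h3, h4, h5⟩
  · have hu : upd W e D.mat s (.refused (D.name y)) = startR W e D.mat s.1
        (s.2.1 ++ [(true, dirZ n D.gen (D.name x) (meet (D.name x) (D.name y)))])
        (D.name x) := by
      unfold upd
      simp only [h2, hI.name]
      rfl
    rw [hu]
    obtain ⟨g1, g2⟩ := fact_of_refused_none (guessS_A e s.1 s.2.1) hxy hn h3
    refine key _ ?_ g1 g2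
    exact (hS.2 _ _ hlenx (by
      unfold meet
      rw [List.length_zipWith, RLP.length_name, RLP.length_name, min_self]
      exact (D.gen_len).symm) true).1
  · have hu : upd W e D.mat s (.refused (D.name y)) = startR W e D.mat s.1
        (s.2.1 ++ [(false, negZ (dirZ n D.gen (D.name x)
          ((guessS e D s.1 s.2.1).edgeName p (y' - p))))]) (D.name x) := by
      unfold upd
      simp only [h4, hI.name]
      rfl
    rw [hu]
    obtain ⟨g1, g2⟩ := fact_of_refused_some (guessS_A e s.1 s.2.1) hbd hI.vert hn h2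
      (fun w hw h6 => h1 w hw (by rw [h4, h6]))
    refine key _ ?_ g1 g2
    exact (hS.2 _ _ hlenx (by
      rw [RLP.length_edgeName]
      exact (D.gen_len).symm) false).2

/-- the invariant holds in all plays -/
theorem inv_play (hbd : Bdd D.A) (hS : Small e D.mat) (hB : RunBd W e D B) {x₀ : Fin n → ℝ}
    (hx₀ : D.Vertex x₀) {h : List Answer} {x : Fin n → ℝ}
    (hp : Play (rule W e) D x₀ h x) :
    Inv W e D B h x (h.foldl (upd W e D.mat) (begin W e D.mat (D.name x₀))) := by
  induction hp with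
  | start => exact inv_begin hbd hS hx₀
  | moved _ h1 h2 ih =>
    rw [List.foldl_append]
    exact inv_moved hbd hS hB ih h1 h2
  | refused _ h1 h2 _ ih =>
    rw [List.foldl_append]
    exact inv_refused hbd hS hB ih h1 h2

/-- **The number of answers.** -/
theorem play_le (hbd : Bdd D.A) (hS : Small e D.mat) (hB : RunBd W e D B) {x₀ : Fin n → ℝ}
    (hx₀ : D.Vertex x₀) {h : List Answer} {x : Fin n → ℝ}
    (hp : Play (rule W e) D x₀ h x) : h.length ≤ 2 * fuel e D.mat * (B + 1) := by
  have hI := inv_play hbd hS hB hx₀ hp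
  obtain ⟨x', t, hx', -, ht, -, hc⟩ := hI.run
  have h1 := hI.N_le hB hx'
  have h2 := lt_fuel_b e hI.goodb hI.chainb
  have h3 := lt_fuel_c e hI.goodc hI.chainc
  generalize (h.foldl (upd W e D.mat) (begin W e D.mat (D.name x₀))).1.length = a at hc h2
  generalize (h.foldl (upd W e D.mat) (begin W e D.mat (D.name x₀))).2.1.length = b at hc h3
  have h4 : (a + b + 1) * (B + 1) ≤ 2 * fuel e D.mat * (B + 1) :=
    Nat.mul_le_mul_right _ (by omega)
  have h5 : (a + b + 1) * (B + 1) = (a + b) * (B + 1) + (B + 1) := by ring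
  omega

end Pool.Agent.Simplex.EB
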