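import Mathlib

/-!
# Small solutions of strict homogeneous inequalities

If finitely many strict inequalities `a i • x > 0` with integer coefficients of absolute value at
most `L` in `n` variables have a real solution, then they have an integer solution `z` with
`a i • z ≥ 1` for all `i` and `|z j| ≤ n * n! * L ^ n`; the bound does not depend on the number of
inequalities.
-/

set_option autoImplicit false

open Finset Matrix Module

namespace Pool.Agent.Lib.MP_4d246d_lc.EB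

variable {n : ℕ} {ι : Type*} [Finite ι]

/-- A determinant with entries of absolute value at most `L`. -/
theorem abs_det_le_of_abs_le {m : ℕ} {M : Matrix (Fin m) (Fin m) ℤ} {L : ℤ}
    (h : ∀ i j, |M i j| ≤ L) : |M.det| ≤ (m.factorial : ℤ) * L ^ m := by
  classical
  rw [Matrix.det_apply]
  refine (Finset.abs_sum_le_sum_abs _ _).trans ?_
  have h1 : ∀ σ ∈ (Finset.univ : Finset (Equiv.Perm (Fin m))),
      |Equiv.Perm.sign σ • ∏ i, M (σ i) i| ≤ L ^ m := by
    intro σ _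
    have h2 : |Equiv.Perm.sign σ • ∏ i, M (σ i) i| = ∏ i, |M (σ i) i| := by
      rcases Int.units_eq_one_or (Equiv.Perm.sign σ) with h | h <;> rw [h]
      · rw [one_smul, Finset.abs_prod]
      · rw [Units.neg_smul, one_smul, abs_neg, Finset.abs_prod]
    rw [h2]
    refine (Finset.prod_le_prod (fun i _ => abs_nonneg _) fun i _ => h (σ i) i).trans ?_
    rw [Finset.prod_const, Finset.card_univ, Fintype.card_fin]
  refine (Finset.sum_le_card_nsmul _ _ _ h1).trans ?_
  rw [Finset.card_univ, Fintype.card_perm, Fintype.card_fin, nsmul_eq_mul]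

/-- the real vector of an integer vector -/
def rv (a : Fin n → ℤ) : Fin n → ℝ := fun j => (a j : ℝ)

theorem rv_dot (a z : Fin n → ℤ) : rv a ⬝ᵥ rv z = ((a ⬝ᵥ z : ℤ) : ℝ) := by
  simp [rv, dotProduct]

/-- If the rows which are tight at `x` do not span all rows then there is another feasible point
whose tight rows span more. -/
theorem exists_more {a : ι → Fin n → ℝ} {x : Fin n → ℝ} (hx : ∀ i, 1 ≤ a i ⬝ᵥ x) {j : ι}
    (hj : a j ∉ Submodule.span ℝ (a '' {i | a i ⬝ᵥ x = 1})) :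
    ∃ y : Fin n → ℝ, (∀ i, 1 ≤ a i ⬝ᵥ y) ∧
      Submodule.span ℝ (a '' {i | a i ⬝ᵥ x = 1}) < Submodule.span ℝ (a '' {i | a i ⬝ᵥ y = 1}) := by
  classical
  cases nonempty_fintype ι
  set W := Submodule.span ℝ (a '' {i | a i ⬝ᵥ x = 1}) with hW
  obtain ⟨f, hf1, hf2⟩ : ∃ f : Module.Dual ℝ (Fin n → ℝ), f (a j) ≠ 0 ∧ W ≤ LinearMap.ker f := by
    obtain ⟨f, hf1, hf2⟩ := Submodule.exists_le_ker_of_notMem hj
    exact ⟨f, hf1, hf2⟩
  -- the functional as a vector
  obtain ⟨z₀, hz₀⟩ : ∃ z : Fin n → ℝ, ∀ v, f v = v ⬝ᵥ z := by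
    refine ⟨fun i => f (fun j => if i = j then 1 else 0), fun v => ?_⟩
    rw [LinearMap.pi_apply_eq_sum_univ f v]
    simp only [dotProduct, smul_eq_mul]
  obtain ⟨z, hz1, hz2⟩ : ∃ z : Fin n → ℝ, a j ⬝ᵥ z < 0 ∧ ∀ w ∈ W, w ⬝ᵥ z = 0 := by
    rcases lt_or_gt_of_ne hf1 with h | h
    · exact ⟨z₀, by rw [← hz₀]; exact h, fun w hw => by rw [← hz₀]; exact hf2 hw⟩
    · refine ⟨-z₀, by rw [dotProduct_neg, ← hz₀]; linarith, fun w hw => ?_⟩
      rw [dotProduct_neg, ← hz₀, neg_eq_zero]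
      exact hf2 hw
  -- the first row which becomes tight
  set s : Finset ι := Finset.univ.filter (fun i => a i ⬝ᵥ z < 0) with hs
  have hne : s.Nonempty := ⟨j, by simp [hs, hz1]⟩
  obtain ⟨k, hk, hmin⟩ := Finset.exists_min_image s (fun i => (a i ⬝ᵥ x - 1) / (-(a i ⬝ᵥ z))) hne
  have hkz : a k ⬝ᵥ z < 0 := by simpa [hs] using hk
  set t := (a k ⬝ᵥ x - 1) / (-(a k ⬝ᵥ z)) with ht
  have ht0 : 0 ≤ t := div_nonneg (by linarith [hx k]) (by linarith)
  have hval : ∀ i, a i ⬝ᵥ (x + t • z) = a i ⬝ᵥ x + t * (a i ⬝ᵥ z) := by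
    intro i
    rw [dotProduct_add, dotProduct_smul, smul_eq_mul]
  have hk1 : a k ⬝ᵥ (x + t • z) = 1 := by
    rw [hval, ht]
    have : a k ⬝ᵥ z ≠ 0 := hkz.ne
    field_simp
    ring
  refine ⟨x + t • z, fun i => ?_, ?_⟩
  · rw [hval]
    by_cases hi : a i ⬝ᵥ z < 0
    · have h1 := hmin i (by simp [hs, hi])
      have h2 : t ≤ (a i ⬝ᵥ x - 1) / (-(a i ⬝ᵥ z)) := h1
      rw [le_div_iff₀ (by linarith)] at h2
      linarith
    · have h1 : 0 ≤ t * (a i ⬝ᵥ z) := mul_nonneg ht0 (by linarith)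
      linarith [hx i]
  · refine lt_of_le_of_ne (Submodule.span_mono ?_) fun heq => ?_
    · rintro _ ⟨i, hi, rfl⟩
      refine ⟨i, ?_, rfl⟩
      have hi' : a i ⬝ᵥ x = 1 := hi
      have h1 : a i ⬝ᵥ z = 0 := hz2 _ (Submodule.subset_span ⟨i, hi, rfl⟩)
      change a i ⬝ᵥ (x + t • z) = 1
      rw [hval, h1, hi']
      ring
    · have h1 : a k ∈ W := by
        rw [heq]
        exact Submodule.subset_span ⟨k, hk1, rfl⟩
      exact hkz.ne (hz2 _ h1)

/-- There is a feasible point whose tight rows span all rows. -/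
theorem exists_tight {a : ι → Fin n → ℝ} (h : ∃ x : Fin n → ℝ, ∀ i, 1 ≤ a i ⬝ᵥ x) :
    ∃ x : Fin n → ℝ, (∀ i, 1 ≤ a i ⬝ᵥ x) ∧
      ∀ j, a j ∈ Submodule.span ℝ (a '' {i | a i ⬝ᵥ x = 1}) := by
  classical
  by_contra hno
  push Not at hno
  have key : ∀ k : ℕ, ∃ x : Fin n → ℝ, (∀ i, 1 ≤ a i ⬝ᵥ x) ∧
      k ≤ finrank ℝ (Submodule.span ℝ (a '' {i | a i ⬝ᵥ x = 1})) := by
    intro k
    induction k with
    | zero =>
      obtain ⟨x, hx⟩ := h
      exact ⟨x, hx, Nat.zero_le _⟩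
    | succ k ih =>
      obtain ⟨x, hx, hk⟩ := ih
      obtain ⟨j, hj⟩ := hno x hx
      obtain ⟨y, hy, hlt⟩ := exists_more hx hj
      exact ⟨y, hy, Nat.succ_le_of_lt (hk.trans_lt (Submodule.finrank_lt_finrank_of_lt hlt))⟩
  obtain ⟨x, _, hx⟩ := key (n + 1)
  have h1 := (Submodule.finrank_le (Submodule.span ℝ (a '' {i | a i ⬝ᵥ x = 1})))
  rw [Module.finrank_fin_fun] at h1
  omega

/-- **Small solutions.** -/
theorem small_solution (a : ι → Fin n → ℤ) {L : ℤ} (hL1 : 1 ≤ L) (hL : ∀ i j, |a i j| ≤ L)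
    (h : ∃ x : Fin n → ℝ, ∀ i, 0 < rv (a i) ⬝ᵥ x) :
    ∃ z : Fin n → ℤ, (∀ i, 1 ≤ a i ⬝ᵥ z) ∧ ∀ j, |z j| ≤ (n : ℤ) * (n.factorial * L ^ n) := by
  classical
  cases nonempty_fintype ι
  -- a real point with `a i • x ≥ 1`
  have h1 : ∃ x : Fin n → ℝ, ∀ i, 1 ≤ rv (a i) ⬝ᵥ x := by
    obtain ⟨x, hx⟩ := h
    rcases isEmpty_or_nonempty ι with hι | hι
    · exact ⟨x, fun i => (hι.false i).elim⟩
    obtain ⟨k, _, hk⟩ := Finset.exists_min_image (Finset.univ : Finset ι)
      (fun i => rv (a i) ⬝ᵥ x) Finset.univ_nonempty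
    have hk0 := hx k
    refine ⟨(rv (a k) ⬝ᵥ x)⁻¹ • x, fun i => ?_⟩
    rw [dotProduct_smul, smul_eq_mul, inv_mul_eq_div, le_div_iff₀ hk0, one_mul]
    exact hk i (Finset.mem_univ i)
  obtain ⟨x, hx, hspan⟩ := exists_tight h1
  -- the rows and the unit vectors
  let vi : ι ⊕ Fin n → Fin n → ℤ := Sum.elim a (fun j => Pi.single j 1)
  set v : ι ⊕ Fin n → Fin n → ℝ := fun k => rv (vi k) with hv
  have hvi : ∀ k j, |vi k j| ≤ L := by
    rintro (i | i) j
    · exact hL i j
    · change |(Pi.single i 1 : Fin n → ℤ) j| ≤ L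
      by_cases hj : j = i
      · subst hj; simpa using hL1
      · simp only [Pi.single_apply, if_neg hj, abs_zero]; linarith
  set t : Set (ι ⊕ Fin n) := Sum.inl '' {i | rv (a i) ⬝ᵥ x = 1} with ht
  obtain ⟨b, hbt, -, htb, hb⟩ := exists_linearIndepOn_extension (K := ℝ) (v := v)
    (linearIndepOn_empty ℝ v) (Set.empty_subset t)
  obtain ⟨c, hct, hbc, htc, hc⟩ := exists_linearIndepOn_extension (K := ℝ) (v := v) hb
    (show b ⊆ b ∪ Set.range Sum.inr from Set.subset_union_left)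
  have htop : ⊤ ≤ Submodule.span ℝ (v '' c) := by
    rw [← (Pi.basisFun ℝ (Fin n)).span_eq, Submodule.span_le]
    rintro _ ⟨i, rfl⟩
    refine htc ⟨Sum.inr i, Or.inr ⟨i, rfl⟩, ?_⟩
    funext j
    by_cases hj : j = i
    · subst hj; simp [hv, vi, rv]
    · simp [hv, vi, rv, hj]
  have : Fintype c := Fintype.ofFinite c
  have hspan' : ⊤ ≤ Submodule.span ℝ (Set.range fun k : c => v k) := by
    rw [← Set.image_eq_range]
    exact htop
  set B : Basis c ℝ (Fin n → ℝ) := Basis.mk hc hspan' with hB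
  have hcard : Fintype.card c = n := by
    rw [← Module.finrank_eq_card_basis B, Module.finrank_fin_fun]
  let e : Fin n ≃ c := (Fintype.equivFinOfCardEq hcard).symm
  let M : Matrix (Fin n) (Fin n) ℤ := Matrix.of fun i => vi (e i)
  let r : Fin n → ℤ := fun i => if ((e i : c) : ι ⊕ Fin n) ∈ b then 1 else 0
  have hli : LinearIndependent ℝ (fun i => rv (M i)) := by
    have : (fun i => rv (M i)) = (fun k : c => v k) ∘ e := rfl
    rw [this]
    exact LinearIndependent.comp hc _ e.injective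
  have hdetR : (M.map (Int.cast : ℤ → ℝ)).det ≠ 0 := by
    have h2 : LinearIndependent ℝ (M.map (Int.cast : ℤ → ℝ)).row := hli
    rw [Matrix.linearIndependent_rows_iff_isUnit, Matrix.isUnit_iff_isUnit_det] at h2
    exact h2.ne_zero
  have hdet : M.det ≠ 0 := by
    intro h2
    apply hdetR
    have h3 := RingHom.map_det (Int.castRingHom ℝ) M
    rw [h2, map_zero] at h3
    exact h3.symm
  have hd1 : 1 ≤ |M.det| := Int.one_le_abs hdet
  -- the solution
  set z : Fin n → ℤ := M.det.sign • (M.adjugate *ᵥ r) with hz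
  have hMz : ∀ i, M i ⬝ᵥ z = |M.det| * r i := by
    intro i
    have h2 : (M *ᵥ (M.adjugate *ᵥ r)) i = M.det * r i := by
      rw [Matrix.mulVec_mulVec, Matrix.mul_adjugate, Matrix.smul_mulVec, Matrix.one_mulVec]
      rfl
    have h3 : M i ⬝ᵥ z = M.det.sign * (M *ᵥ (M.adjugate *ᵥ r)) i := by
      rw [hz, dotProduct_smul, smul_eq_mul]
      rfl
    rw [h3, h2, ← mul_assoc, Int.sign_mul_self_eq_abs]
  -- all rows have the same value as at `|det| x`
  have hval : ∀ w ∈ Submodule.span ℝ (v '' b), w ⬝ᵥ rv z = |M.det| * (w ⬝ᵥ x) := by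
    intro w hw
    induction hw using Submodule.span_induction with
    | mem w hw =>
      obtain ⟨k, hk, rfl⟩ := hw
      have hkc : k ∈ c := hbc hk
      obtain ⟨i, hi⟩ := e.surjective ⟨k, hkc⟩
      have h2 := hMz i
      have h3 : r i = 1 := by
        simp only [r]
        rw [hi, if_pos hk]
      have h4 : M i = vi k := by
        change vi (e i) = vi k
        rw [hi]
      rw [h3, mul_one, h4] at h2
      have h5 : v k ⬝ᵥ x = 1 := by
        obtain ⟨i', hi', rfl⟩ := hbt hk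
        exact hi'
      have h6 : v k ⬝ᵥ rv z = ((vi k ⬝ᵥ z : ℤ) : ℝ) := rv_dot _ _
      rw [h6, h2, h5]
      push_cast
      ring
    | zero => simp
    | add u w _ _ hu hw => rw [add_dotProduct, add_dotProduct, hu, hw]; ring
    | smul s w _ hw => rw [smul_dotProduct, smul_dotProduct, hw, smul_eq_mul, smul_eq_mul]; ring
  have hall : ∀ i, rv (a i) ⬝ᵥ rv z = |M.det| * (rv (a i) ⬝ᵥ x) := by
    intro i
    refine hval _ ?_
    have h2 : Submodule.span ℝ ((fun i => rv (a i)) '' {i | rv (a i) ⬝ᵥ x = 1}) ≤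
        Submodule.span ℝ (v '' b) := by
      rw [Submodule.span_le]
      rintro _ ⟨k, hk, rfl⟩
      exact htb ⟨Sum.inl k, ⟨k, hk, rfl⟩, rfl⟩
    exact h2 (hspan i)
  refine ⟨z, fun i => ?_, fun j => ?_⟩
  · have h2 := hall i
    rw [rv_dot] at h2
    have h3 : (1 : ℝ) ≤ |M.det| * (rv (a i) ⬝ᵥ x) := by
      have h4 : (1 : ℝ) ≤ ((|M.det| : ℤ) : ℝ) := by exact_mod_cast hd1
      nlinarith [hx i]
    rw [← h2] at h3
    exact_mod_cast h3
  · have h2 : |z j| ≤ |(M.adjugate *ᵥ r) j| := by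
      rw [hz, Pi.smul_apply, smul_eq_mul, abs_mul]
      have h3 : |M.det.sign| ≤ 1 := by
        rcases lt_trichotomy M.det 0 with h4 | h4 | h4
        · rw [Int.sign_eq_neg_one_of_neg h4]; simp
        · exact absurd h4 hdet
        · rw [Int.sign_eq_one_of_pos h4]; simp
      nlinarith [abs_nonneg ((M.adjugate *ᵥ r) j)]
    refine h2.trans ?_
    have h3 : |(M.adjugate *ᵥ r) j| ≤ ∑ k : Fin n, |M.adjugate j k * r k| := by
      have h4 : (M.adjugate *ᵥ r) j = ∑ k : Fin n, M.adjugate j k * r k := rfl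
      rw [h4]
      exact Finset.abs_sum_le_sum_abs _ _
    refine h3.trans ?_
    refine (Finset.sum_le_card_nsmul _ _ ((n.factorial : ℤ) * L ^ n) fun k _ => ?_).trans ?_
    · have h4 : |r k| ≤ 1 := by
        simp only [r]
        split_ifs <;> simp
      have h5 : |M.adjugate j k| ≤ (n.factorial : ℤ) * L ^ n := by
        rw [Matrix.adjugate_apply]
        refine abs_det_le_of_abs_le fun i l => ?_
        by_cases hi : i = k
        · subst hi
          rw [Matrix.updateRow_self]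
          by_cases hj : l = j
          · subst hj; simpa using hL1
          · simp only [Pi.single_apply, if_neg hj, abs_zero]; linarith
        · rw [Matrix.updateRow_ne hi]
          exact hvi _ _
      rw [abs_mul]
      calc |M.adjugate j k| * |r k| ≤ |M.adjugate j k| * 1 :=
            mul_le_mul_of_nonneg_left h4 (abs_nonneg _)
        _ ≤ _ := by rw [mul_one]; exact h5
    · rw [Finset.card_univ, Fintype.card_fin, nsmul_eq_mul]

end Pool.Agent.Lib.MP_4d246d_lc.EB
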