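import Pool.Agent.Lib.MP_4d246d_lc.QP.Proj

/-!
Ties. From a learner for strict inequalities (`core`) to a learner for strict and non-strict inequalities
(`centre`): the inequalities which vanish on all solutions are collected (`eqList`), the others (`rest`) are
projected to the space where they vanish; `core` is applied to the projected ones and its answer is projected.
-/

set_option autoImplicit false

namespace Pool.Agent.Lib.MP_4d246d_lc.EB.Ties

open Pool.Agent.Simplex.QP

/-- `w` satisfies the inequalities: `(true, a)` is `a w > 0`, `(false, a)` is `a w ≥ 0` -/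
def Sat (H : List (Bool × List ℤ)) (w : ℕ → ℝ) : Prop :=
  ∀ h ∈ H, (h.1 = true → 0 < ldot h.2 w) ∧ 0 ≤ ldot h.2 w

/-- `a` vanishes on all solutions of `H` -/
def Impl (H : List (Bool × List ℤ)) (a : List ℤ) : Prop := ∀ w, Sat H w → ldot a w = 0

/-- the inequality `h` is violated by the integer vector `c` -/
def Viol (h : Bool × List ℤ) (c : List ℤ) : Prop := dotZ h.2 c < 0 ∨ (h.1 = true ∧ dotZ h.2 c ≤ 0)

/-- the inequalities `h` of `H` with `t H h = true` -/
def eqList (t : List (Bool × List ℤ) → Bool × List ℤ → Bool) (H : List (Bool × List ℤ)) : List (List ℤ) :=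
  (H.filter fun h => t H h).map Prod.snd

/-- the other inequalities -/
def rest (t : List (Bool × List ℤ) → Bool × List ℤ → Bool) (H : List (Bool × List ℤ)) : List (List ℤ) :=
  (H.filter fun h => !t H h).map Prod.snd

/-- the projection (times a positive number) -/
def projP (t : List (Bool × List ℤ) → Bool × List ℤ → Bool) (N : ℕ) (H : List (Bool × List ℤ)) : List (List ℤ) :=
  (projZ N (eqList t H)).2

/-- the projected inequalities -/
def coreList (t : List (Bool × List ℤ) → Bool × List ℤ → Bool) (N : ℕ) (H : List (Bool × List ℤ)) : List (List ℤ) :=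
  (rest t H).map (mulVecZ (projP t N H))

/-- the answer of the learner -/
def centre (t : List (Bool × List ℤ) → Bool × List ℤ → Bool) (core : List (List ℤ) → List ℤ) (N : ℕ)
    (H : List (Bool × List ℤ)) : List ℤ :=
  mulVecZ (projP t N H) (core (coreList t N H))

theorem Sat.mono {H H' : List (Bool × List ℤ)} {w : ℕ → ℝ} (h : Sat H' w) (hs : ∀ x ∈ H, x ∈ H') : Sat H w :=
  fun x hx => h x (hs x hx)

theorem Sat.add {H : List (Bool × List ℤ)} {v w : ℕ → ℝ} (hv : Sat H v) (hw : Sat H w) :
    Sat H (fun j => v j + w j) := by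
  intro h hh
  obtain ⟨h1, h2⟩ := hv h hh
  obtain ⟨h3, h4⟩ := hw h hh
  rw [ldot_add]
  exact ⟨fun hb => add_pos (h1 hb) (h3 hb), add_nonneg h2 h4⟩

/-- one solution with all inequalities of the list `l` strict which are not implicit equalities -/
theorem exists_strict {H : List (Bool × List ℤ)} (hH : ∃ w, Sat H w) (l : List (List ℤ))
    (hl : ∀ a ∈ l, (∃ b, (b, a) ∈ H) ∧ ¬ Impl H a) : ∃ w, Sat H w ∧ ∀ a ∈ l, 0 < ldot a w := by
  induction l with
  | nil =>
    obtain ⟨w, hw⟩ := hH
    exact ⟨w, hw, by simp⟩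
  | cons a l ih =>
    obtain ⟨v, hv, hv'⟩ := ih fun x hx => hl x (List.mem_cons_of_mem _ hx)
    obtain ⟨⟨b, hb⟩, ha⟩ := hl a (by simp)
    unfold Impl at ha
    push Not at ha
    obtain ⟨u, hu, hu'⟩ := ha
    have h1 : 0 < ldot a u := lt_of_le_of_ne (hu _ hb).2 (Ne.symm hu')
    refine ⟨fun j => v j + u j, hv.add hu, fun x hx => ?_⟩
    rw [ldot_add]
    rcases List.mem_cons.mp hx with rfl | hx
    · exact add_pos_of_nonneg_of_pos (hv _ hb).2 h1
    · obtain ⟨⟨b', hb'⟩, _⟩ := hl x (List.mem_cons_of_mem _ hx)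
      exact add_pos_of_pos_of_nonneg (hv' x hx) (hu _ hb').2

section proj

variable {N : ℕ} {rows : List (List ℤ)}

/-- the projection is symmetric -/
theorem dot_proj (hlen : ∀ r ∈ rows, r.length = N) {a u : List ℤ} (ha : a.length = N) (hu : u.length = N) :
    dotZ a (mulVecZ (projZ N rows).2 u) = dotZ (mulVecZ (projZ N rows).2 a) u := by
  obtain ⟨_, hl, hr, hs, _, _⟩ := projZ_spec N rows hlen
  rw [dotZ_eq_sum a _ N (Or.inl ha.le), dotZ_eq_sum _ u N (Or.inr hu.le)]
  have e1 : ∀ i ∈ Finset.range N, a.getD i 0 * (mulVecZ (projZ N rows).2 u).getD i 0 =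
      ∑ j ∈ Finset.range N, a.getD i 0 * (((projZ N rows).2.getD i []).getD j 0 * u.getD j 0) := by
    intro i _
    rw [getD_mulVecZ, dotZ_eq_sum _ u N (Or.inr hu.le), Finset.mul_sum]
  have e2 : ∀ i ∈ Finset.range N, (mulVecZ (projZ N rows).2 a).getD i 0 * u.getD i 0 =
      ∑ j ∈ Finset.range N, ((projZ N rows).2.getD i []).getD j 0 * a.getD j 0 * u.getD i 0 := by
    intro i _
    rw [getD_mulVecZ, dotZ_eq_sum _ a N (Or.inr ha.le), Finset.sum_mul]
  rw [Finset.sum_congr rfl e1, Finset.sum_congr rfl e2, Finset.sum_comm]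
  refine Finset.sum_congr rfl fun i _ => Finset.sum_congr rfl fun j _ => ?_
  rw [hs j i]
  ring

/-- the projected functional at a vector of the subspace -/
theorem ldot_proj (hlen : ∀ r ∈ rows, r.length = N) {a : List ℤ} (ha : a.length = N) {x : ℕ → ℝ}
    (hx : ∀ r ∈ rows, ldot r x = 0) :
    ldot (mulVecZ (projZ N rows).2 a) x = ((projZ N rows).1 : ℝ) * ldot a x := by
  obtain ⟨_, hl, hr, hs, _, hk⟩ := projZ_spec N rows hlen
  rw [ldot_eq_sum _ x N (by rw [length_mulVecZ, hl]), ldot_eq_sum a x N ha.le, Finset.mul_sum]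
  have e1 : ∀ i ∈ Finset.range N, (((mulVecZ (projZ N rows).2 a).getD i 0 : ℤ) : ℝ) * x i =
      ∑ j ∈ Finset.range N, (((projZ N rows).2.getD i []).getD j 0 : ℝ) * (a.getD j 0 : ℝ) * x i := by
    intro i _
    rw [getD_mulVecZ, dotZ_eq_sum _ a N (Or.inr ha.le), Int.cast_sum, Finset.sum_mul]
    exact Finset.sum_congr rfl fun j _ => by push_cast; ring
  rw [Finset.sum_congr rfl e1, Finset.sum_comm]
  refine Finset.sum_congr rfl fun j hj => ?_
  have h1 := hk x hx j (Finset.mem_range.mp hj)
  rw [ldot_eq_sum _ x N (by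
    rw [List.getD_eq_getElem _ _ (by rw [hl]; exact Finset.mem_range.mp hj)]
    exact (hr _ (List.getElem_mem _)).le)] at h1
  calc ∑ i ∈ Finset.range N, (((projZ N rows).2.getD i []).getD j 0 : ℝ) * (a.getD j 0 : ℝ) * x i
      = (a.getD j 0 : ℝ) * ∑ i ∈ Finset.range N, (((projZ N rows).2.getD j []).getD i 0 : ℝ) * x i := by
        rw [Finset.mul_sum]
        refine Finset.sum_congr rfl fun i _ => ?_
        rw [hs i j]
        ring
    _ = _ := by rw [h1]; ring

/-- the projection kills the rows -/
theorem dot_proj_row (hlen : ∀ r ∈ rows, r.length = N) {a u : List ℤ} (ha : a ∈ rows) (hu : u.length = N) :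
    dotZ a (mulVecZ (projZ N rows).2 u) = 0 := by
  obtain ⟨_, hl, hr, hs, hz, _⟩ := projZ_spec N rows hlen
  rw [dot_proj hlen (hlen a ha) hu, dotZ_eq_sum _ u N (Or.inr hu.le)]
  refine Finset.sum_eq_zero fun i hi => ?_
  rw [getD_mulVecZ, List.getD_eq_getElem _ _ (by rw [hl]; exact Finset.mem_range.mp hi),
    hz a ha _ (List.getElem_mem _), zero_mul]

theorem length_proj (hlen : ∀ r ∈ rows, r.length = N) (a : List ℤ) :
    (mulVecZ (projZ N rows).2 a).length = N := by
  rw [length_mulVecZ, (projZ_spec N rows hlen).2.1]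

end proj

/-! ### Sizes -/

/-- length `N`, all entries smaller than `2 ^ l` -/
def Short (N l : ℕ) (a : List ℤ) : Prop := a.length = N ∧ ∀ x ∈ a, |x| < 2 ^ l

/-- the exponent for the projected inequalities -/
def lexp (N l : ℕ) : ℕ := N + (N * N + N * (N + 2 * l + 1) + 1 + l)

theorem abs_dot_le {u v : List ℤ} {A B : ℤ} (hA : 0 ≤ A) (hB : 0 ≤ B)
    (hu : ∀ a ∈ u, |a| ≤ A) (hv : ∀ b ∈ v, |b| ≤ B) : |dotZ u v| ≤ u.length * (A * B) := by
  induction u generalizing v with
  | nil => simp
  | cons a u ih =>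
    cases v with
    | nil => simp; positivity
    | cons b v =>
      have h1 := ih (v := v) (fun a ha => hu a (by simp [ha])) (fun b hb => hv b (by simp [hb]))
      have h2 : |a * b| ≤ A * B := by
        rw [abs_mul]
        exact mul_le_mul (hu a (by simp)) (hv b (by simp)) (abs_nonneg _) hA
      rw [dotZ_cons, List.length_cons]
      push_cast
      linarith [abs_add_le (a * b) (dotZ u v)]

theorem short_proj {N l : ℕ} {rows : List (List ℤ)} (hr : ∀ r ∈ rows, Short N l r) {a : List ℤ}
    (ha : Short N l a) : Short N (lexp N l) (mulVecZ (projZ N rows).2 a) := by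
  have hlen : ∀ r ∈ rows, r.length = N := fun r h => (hr r h).1
  refine ⟨length_proj hlen a, fun x hx => ?_⟩
  obtain ⟨hD, hl, hrl, _, _, _⟩ := projZ_spec N rows hlen
  obtain ⟨hb1, hb2⟩ := projZ_bound N rows hlen (2 ^ l) (fun r h x hx => by
    have := (hr r h).2 x hx
    push_cast
    exact this.le)
  unfold mulVecZ at hx
  obtain ⟨p, hp, rfl⟩ := List.mem_map.1 hx
  have h1 := abs_dot_le (u := p) (v := a) hD.le (by positivity : (0 : ℤ) ≤ 2 ^ l) (hb2 p hp)
    (fun b hb => (ha.2 b hb).le)
  rw [hrl p hp] at h1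
  have h6 : (N.factorial * (N * (2 ^ l) ^ 2 + 1) ^ N : ℕ) < 2 ^ (N * N + N * (N + 2 * l + 1) + 1) := by
    have e1 : N.factorial ≤ 2 ^ (N * N) := by
      refine (Nat.factorial_le_pow N).trans ?_
      rw [pow_mul]
      exact Nat.pow_le_pow_left Nat.lt_two_pow_self.le N
    have e2 : N * (2 ^ l) ^ 2 + 1 ≤ 2 ^ (N + 2 * l + 1) := by
      have e3 : (2 ^ l) ^ 2 = 2 ^ (2 * l) := by rw [← pow_mul, mul_comm]
      have e4 : N * 2 ^ (2 * l) ≤ 2 ^ (N + 2 * l) := by
        rw [pow_add]
        exact Nat.mul_le_mul_right _ Nat.lt_two_pow_self.le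
      have e5 : 1 ≤ 2 ^ (N + 2 * l) := Nat.one_le_two_pow
      rw [e3, pow_succ]
      omega
    have e3 : (N * (2 ^ l) ^ 2 + 1) ^ N ≤ 2 ^ (N * (N + 2 * l + 1)) := by
      rw [mul_comm N (N + 2 * l + 1), pow_mul]
      exact Nat.pow_le_pow_left e2 N
    have e4 := Nat.mul_le_mul e1 e3
    rw [← pow_add] at e4
    refine e4.trans_lt ?_
    exact Nat.pow_lt_pow_right (by norm_num) (by omega)
  have h7 : (projZ N rows).1 < 2 ^ (N * N + N * (N + 2 * l + 1) + 1) := hb1.trans_lt (by exact_mod_cast h6)
  have h8 : (N : ℤ) < 2 ^ N := by exact_mod_cast Nat.lt_two_pow_self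
  have h9 : (0 : ℤ) < 2 ^ l := by positivity
  have h10 : (0 : ℤ) < 2 ^ N := by positivity
  calc |dotZ p a| ≤ N * ((projZ N rows).1 * 2 ^ l) := h1
    _ ≤ 2 ^ N * ((projZ N rows).1 * 2 ^ l) := by
        exact mul_le_mul_of_nonneg_right h8.le (mul_nonneg hD.le h9.le)
    _ < 2 ^ N * (2 ^ (N * N + N * (N + 2 * l + 1) + 1) * 2 ^ l) :=
        mul_lt_mul_of_pos_left (mul_lt_mul_of_pos_right h7 h9) h10
    _ = 2 ^ lexp N l := by
        rw [← pow_add, ← pow_add, lexp]

/-! ### The answer satisfies the inequalities -/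

section main

variable {t : List (Bool × List ℤ) → Bool × List ℤ → Bool} {core : List (List ℤ) → List ℤ} {N l : ℕ}

/-- the test for implicit equalities is right -/
def TestOK (t : List (Bool × List ℤ) → Bool × List ℤ → Bool) (N l : ℕ) : Prop :=
  ∀ H, (∀ h ∈ H, Short N l h.2) → (∃ w, Sat H w) → ∀ h ∈ H, (t H h = true ↔ Impl H h.2)

/-- the core satisfies the strict inequalities -/
def CoreSat (core : List (List ℤ) → List ℤ) (N L : ℕ) : Prop :=
  ∀ G, (∀ g ∈ G, Short N L g) → (∃ w, ∀ g ∈ G, 0 < ldot g w) → ∀ g ∈ G, 0 < dotZ g (core G)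

/-- the core learns: from any start at most `B` mistakes -/
def CoreLearn (core : List (List ℤ) → List ℤ) (N L B : ℕ) : Prop :=
  ∀ (G : List (List ℤ)) (g : ℕ → List ℤ) (m : ℕ), (∀ x ∈ G, Short N L x) → (∀ i < m, Short N L (g i)) →
    (∃ w, (∀ x ∈ G, 0 < ldot x w) ∧ ∀ i < m, 0 < ldot (g i) w) →
    (∀ i < m, dotZ (g i) (core (G ++ (List.range i).map g)) ≤ 0) → m ≤ B

theorem mem_eqList {H : List (Bool × List ℤ)} {a : List ℤ} :
    a ∈ eqList t H ↔ ∃ b, (b, a) ∈ H ∧ t H (b, a) = true := by
  unfold eqList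
  simp only [List.mem_map, List.mem_filter]
  constructor
  · rintro ⟨⟨b, a'⟩, ⟨h1, h2⟩, rfl⟩
    exact ⟨b, h1, h2⟩
  · rintro ⟨b, h1, h2⟩
    exact ⟨(b, a), ⟨h1, h2⟩, rfl⟩

theorem mem_rest {H : List (Bool × List ℤ)} {a : List ℤ} :
    a ∈ rest t H ↔ ∃ b, (b, a) ∈ H ∧ ¬ t H (b, a) = true := by
  unfold rest
  simp only [List.mem_map, List.mem_filter]
  constructor
  · rintro ⟨⟨b, a'⟩, ⟨h1, h2⟩, rfl⟩
    exact ⟨b, h1, by simpa using h2⟩
  · rintro ⟨b, h1, h2⟩
    exact ⟨(b, a), ⟨h1, by simpa using h2⟩, rfl⟩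

theorem short_eqList {H : List (Bool × List ℤ)} (hH : ∀ h ∈ H, Short N l h.2) :
    ∀ a ∈ eqList t H, Short N l a := by
  intro a ha
  obtain ⟨b, hb, _⟩ := mem_eqList.mp ha
  exact hH _ hb

theorem short_rest {H : List (Bool × List ℤ)} (hH : ∀ h ∈ H, Short N l h.2) :
    ∀ a ∈ rest t H, Short N l a := by
  intro a ha
  obtain ⟨b, hb, _⟩ := mem_rest.mp ha
  exact hH _ hb

theorem short_coreList {H : List (Bool × List ℤ)} (hH : ∀ h ∈ H, Short N l h.2) :
    ∀ a ∈ coreList t N H, Short N (lexp N l) a := by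
  intro a ha
  unfold coreList at ha
  obtain ⟨a', h', rfl⟩ := List.mem_map.mp ha
  exact short_proj (short_eqList hH) (short_rest hH a' h')

/-- a solution at which the inequalities of `rest` are strict -/
theorem exists_strict_rest (ht : TestOK t N l) {H : List (Bool × List ℤ)} (hH : ∀ h ∈ H, Short N l h.2)
    (hw : ∃ w, Sat H w) : ∃ w, Sat H w ∧ ∀ a ∈ rest t H, 0 < ldot a w := by
  refine exists_strict hw _ fun a ha => ?_
  obtain ⟨b, hb, h1⟩ := mem_rest.mp ha
  exact ⟨⟨b, hb⟩, fun h => h1 ((ht H hH hw _ hb).mpr h)⟩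

theorem zero_eqList (ht : TestOK t N l) {H : List (Bool × List ℤ)} (hH : ∀ h ∈ H, Short N l h.2)
    {w : ℕ → ℝ} (hw : Sat H w) : ∀ a ∈ eqList t H, ldot a w = 0 := by
  intro a ha
  obtain ⟨b, hb, h1⟩ := mem_eqList.mp ha
  exact (ht H hH ⟨w, hw⟩ _ hb).mp h1 w hw

/-- the projected strict inequalities at a solution of `H` -/
theorem ldot_coreList (ht : TestOK t N l) {H : List (Bool × List ℤ)} (hH : ∀ h ∈ H, Short N l h.2)
    {w : ℕ → ℝ} (hw : Sat H w) {a : List ℤ} (ha : a.length = N) (h0 : 0 < ldot a w) :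
    0 < ldot (mulVecZ (projP t N H) a) w := by
  have hlen : ∀ r ∈ eqList t H, r.length = N := fun r h => (short_eqList hH r h).1
  unfold projP
  rw [ldot_proj hlen ha (zero_eqList ht hH hw)]
  exact mul_pos (by exact_mod_cast (projZ_spec N _ hlen).1) h0

theorem length_centre {H : List (Bool × List ℤ)} (hH : ∀ h ∈ H, Short N l h.2) :
    (centre t core N H).length = N :=
  length_proj (fun r h => (short_eqList (t := t) hH r h).1) _

theorem centre_eq (hc0 : ∀ G, (core G).length = N) {H : List (Bool × List ℤ)}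
    (hH : ∀ h ∈ H, Short N l h.2) {a : List ℤ} (ha : a ∈ eqList t H) : dotZ a (centre t core N H) = 0 :=
  dot_proj_row (fun r h => (short_eqList hH r h).1) ha (hc0 _)

theorem centre_rest (ht : TestOK t N l) (hc0 : ∀ G, (core G).length = N)
    (hc2 : CoreSat core N (lexp N l)) {H : List (Bool × List ℤ)}
    (hH : ∀ h ∈ H, Short N l h.2) (hw : ∃ w, Sat H w) {a : List ℤ} (ha : a ∈ rest t H) :
    0 < dotZ a (centre t core N H) := by
  obtain ⟨w, h1, h2⟩ := exists_strict_rest ht hH hw
  have h3 := hc2 (coreList t N H) (short_coreList hH) ⟨w, fun g hg => by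
    unfold coreList at hg
    obtain ⟨a', h', rfl⟩ := List.mem_map.mp hg
    exact ldot_coreList ht hH h1 (short_rest hH a' h').1 (h2 a' h')⟩ (mulVecZ (projP t N H) a)
    (List.mem_map_of_mem ha)
  unfold centre projP
  rw [dot_proj (fun r h => (short_eqList hH r h).1) (short_rest hH a ha).1 (hc0 _)]
  exact h3

/-- **The answer satisfies all inequalities.** -/
theorem centre_sat (ht : TestOK t N l) (hc0 : ∀ G, (core G).length = N)
    (hc2 : CoreSat core N (lexp N l)) {H : List (Bool × List ℤ)}
    (hH : ∀ h ∈ H, Short N l h.2) (hw : ∃ w, Sat H w) : ∀ h ∈ H, ¬ Viol h (centre t core N H) := by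
  rintro ⟨b, a⟩ hh
  by_cases h1 : t H (b, a) = true
  · have h2 := centre_eq hc0 hH (mem_eqList.mpr ⟨b, hh, h1⟩)
    obtain ⟨w, hw⟩ := hw
    have h3 := (ht H hH ⟨w, hw⟩ _ hh).mp h1 w hw
    rintro (h4 | ⟨h4, _⟩)
    · simp only at h4
      omega
    · have h5 := (hw _ hh).1 h4
      simp only at h3 h5
      exact absurd h3 h5.ne'
  · have h2 := centre_rest ht hc0 hc2 hH hw (mem_rest.mpr ⟨b, hh, h1⟩)
    rintro (h4 | ⟨_, h4⟩)
    · simp only at h4
      omega
    · simp only at h4
      omega

/-! ### The number of mistakes -/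

/-- the functional as a real vector -/
def rvec (N : ℕ) (a : List ℤ) : Fin N → ℝ := fun j => (a.getD j 0 : ℝ)

/-- the space spanned by the implicit equalities -/
def spanE (t : List (Bool × List ℤ) → Bool × List ℤ → Bool) (N : ℕ) (H : List (Bool × List ℤ)) :
    Submodule ℝ (Fin N → ℝ) :=
  Submodule.span ℝ (rvec N '' {a | a ∈ eqList t H})

theorem ldot_span {S : Set (List ℤ)} (hS : ∀ a ∈ S, a.length = N) {x : ℕ → ℝ} (hx : ∀ a ∈ S, ldot a x = 0)
    {b : List ℤ} (hb : b.length = N) (h : rvec N b ∈ Submodule.span ℝ (rvec N '' S)) : ldot b x = 0 := by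
  have key : ∀ v ∈ Submodule.span ℝ (rvec N '' S), ∑ j : Fin N, v j * x j = 0 := by
    intro v hv
    induction hv using Submodule.span_induction with
    | mem v hv =>
      obtain ⟨a, ha, rfl⟩ := hv
      have h1 := hx a ha
      rw [ldot_eq_fin a x N (hS a ha).le] at h1
      exact h1
    | zero => simp
    | add u v _ _ hu hv =>
      simp only [Pi.add_apply, add_mul, Finset.sum_add_distrib, hu, hv, add_zero]
    | smul c v _ hv =>
      simp only [Pi.smul_apply, smul_eq_mul, mul_assoc, ← Finset.mul_sum, hv, mul_zero]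
  rw [ldot_eq_fin b x N hb.le]
  exact key _ h

/-- in one level nothing changes but the new inequalities -/
theorem level (ht : TestOK t N l) (hc0 : ∀ G, (core G).length = N)
    (h : ℕ → Bool × List ℤ) (i n : ℕ)
    (hs : ∀ k < i + n, Short N l (h k).2) (hw : ∃ w, Sat ((List.range (i + n)).map h) w)
    (hv : ∀ k < i + n, Viol (h k) (centre t core N ((List.range k).map h)))
    (hd : ∀ q ≤ n, spanE t N ((List.range (i + q)).map h) = spanE t N ((List.range i).map h)) :
    ∀ q ≤ n, eqList t ((List.range (i + q)).map h) = eqList t ((List.range i).map h) ∧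
      rest t ((List.range (i + q)).map h) =
        rest t ((List.range i).map h) ++ (List.range q).map (fun p => (h (i + p)).2) := by
  obtain ⟨w, hw⟩ := hw
  have hshort : ∀ k ≤ i + n, ∀ x ∈ (List.range k).map h, Short N l x.2 := by
    intro k hk x hx
    obtain ⟨p, hp, rfl⟩ := List.mem_map.mp hx
    exact hs p (by have := List.mem_range.mp hp; omega)
  have hmono : ∀ k₁ k₂, k₁ ≤ k₂ → ∀ x ∈ (List.range k₁).map h, x ∈ (List.range k₂).map h := by
    intro k₁ k₂ hk x hx
    obtain ⟨p, hp, rfl⟩ := List.mem_map.mp hx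
    exact List.mem_map_of_mem (List.mem_range.mpr (by have := List.mem_range.mp hp; omega))
  have hsat : ∀ k ≤ i + n, Sat ((List.range k).map h) w := fun k hk => hw.mono (hmono k _ hk)
  intro q hq
  have hsplit : (List.range (i + q)).map h =
      (List.range i).map h ++ (List.range q).map (fun p => h (i + p)) := by
    rw [List.range_add, List.map_append, List.map_map]
    rfl
  -- an inequality which is implicit at `i + q` lies in the span at the time `i`
  have hin : ∀ b a, (b, a) ∈ (List.range (i + q)).map h → Impl ((List.range (i + q)).map h) a →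
      rvec N a ∈ spanE t N ((List.range i).map h) := by
    intro b a hba hI
    rw [← hd q hq]
    refine Submodule.subset_span ⟨a, ?_, rfl⟩
    exact mem_eqList.mpr ⟨b, hba, (ht _ (hshort _ (by omega)) ⟨w, hsat _ (by omega)⟩ _ hba).mpr hI⟩
  -- the old inequalities
  have hold : ∀ x ∈ (List.range i).map h,
      t ((List.range (i + q)).map h) x = t ((List.range i).map h) x := by
    intro x hx
    have hx' := hmono i (i + q) (by omega) x hx
    rw [Bool.eq_iff_iff, ht _ (hshort (i + q) (by omega)) ⟨w, hsat _ (by omega)⟩ x hx',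
      ht _ (hshort i (by omega)) ⟨w, hsat _ (by omega)⟩ x hx]
    constructor
    · intro hI v hv'
      refine ldot_span (S := {a | a ∈ eqList t ((List.range i).map h)})
        (fun a ha => (short_eqList (hshort i (by omega)) a ha).1)
        (fun a ha => zero_eqList ht (hshort i (by omega)) hv' a ha)
        (hshort i (by omega) x hx).1 ?_
      exact hin x.1 x.2 hx' hI
    · intro hI v hv'
      exact hI v (hv'.mono (hmono i (i + q) (by omega)))
  -- the new inequalities
  have hnew : ∀ x ∈ (List.range q).map (fun p => h (i + p)),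
      t ((List.range (i + q)).map h) x = false := by
    intro x hx
    obtain ⟨p, hp, rfl⟩ := List.mem_map.mp hx
    have hp' := List.mem_range.mp hp
    have hx' : h (i + p) ∈ (List.range (i + q)).map h :=
      List.mem_map_of_mem (List.mem_range.mpr (by omega))
    rw [Bool.eq_false_iff, Ne, ht _ (hshort (i + q) (by omega)) ⟨w, hsat _ (by omega)⟩ _ hx']
    intro hI
    have h1 : rvec N (h (i + p)).2 ∈ spanE t N ((List.range (i + p)).map h) := by
      rw [hd p (by omega)]
      exact hin _ _ hx' hI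
    have h2 : dotZ (h (i + p)).2 (centre t core N ((List.range (i + p)).map h)) = 0 := by
      have h3 := ldot_span (S := {a | a ∈ eqList t ((List.range (i + p)).map h)})
        (x := fun j => (((centre t core N ((List.range (i + p)).map h)).getD j 0 : ℤ) : ℝ))
        (fun a ha => (short_eqList (hshort (i + p) (by omega)) a ha).1)
        (fun a ha => by
          rw [ldot_intVec, centre_eq hc0 (hshort (i + p) (by omega)) ha]
          simp)
        (hs (i + p) (by omega)).1 h1
      rw [ldot_intVec] at h3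
      exact_mod_cast h3
    rcases hv (i + p) (by omega) with h3 | ⟨h3, _⟩
    · omega
    · exact absurd (hI w (hsat _ (by omega))) ((hsat _ (by omega) _ hx').1 h3).ne'
  have f1 : ((List.range q).map (fun p => h (i + p))).filter
      (fun x => t ((List.range (i + q)).map h) x) = [] :=
    List.filter_eq_nil_iff.mpr fun x hx => by rw [hnew x hx]; simp
  have f2 : ((List.range q).map (fun p => h (i + p))).filter
      (fun x => !t ((List.range (i + q)).map h) x) = (List.range q).map (fun p => h (i + p)) :=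
    List.filter_eq_self.mpr fun x hx => by rw [hnew x hx]; simp
  have f3 : ((List.range i).map h).filter (fun x => t ((List.range (i + q)).map h) x) =
      ((List.range i).map h).filter (fun x => t ((List.range i).map h) x) :=
    List.filter_congr hold
  have f4 : ((List.range i).map h).filter (fun x => !t ((List.range (i + q)).map h) x) =
      ((List.range i).map h).filter (fun x => !t ((List.range i).map h) x) :=
    List.filter_congr fun x hx => by rw [hold x hx]
  constructor
  · unfold eqList
    rw [← f3, ← List.append_nil (((List.range i).map h).filter _), ← f1, ← List.filter_append, ← hsplit]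
  · unfold rest
    rw [← f4]
    have e : (List.range q).map (fun p => (h (i + p)).2) =
        ((List.range q).map (fun p => h (i + p))).map Prod.snd := by
      rw [List.map_map]
      rfl
    rw [e, ← List.map_append]
    congr 1
    conv_rhs => rw [← f2]
    rw [← List.filter_append, ← hsplit]

/-- the number of mistakes in one level -/
theorem level_le (ht : TestOK t N l) (hc0 : ∀ G, (core G).length = N) {B : ℕ}
    (hc3 : CoreLearn core N (lexp N l) B) (h : ℕ → Bool × List ℤ) (i n : ℕ)
    (hs : ∀ k < i + n, Short N l (h k).2) (hw : ∃ w, Sat ((List.range (i + n)).map h) w)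
    (hv : ∀ k < i + n, Viol (h k) (centre t core N ((List.range k).map h)))
    (hd : ∀ q ≤ n, spanE t N ((List.range (i + q)).map h) = spanE t N ((List.range i).map h)) :
    n ≤ B := by
  have hlev := level ht hc0 h i n hs hw hv hd
  have hshort : ∀ k ≤ i + n, ∀ x ∈ (List.range k).map h, Short N l x.2 := by
    intro k hk x hx
    obtain ⟨p, hp, rfl⟩ := List.mem_map.mp hx
    exact hs p (by have := List.mem_range.mp hp; omega)
  have hcore : ∀ q ≤ n, coreList t N ((List.range (i + q)).map h) = coreList t N ((List.range i).map h) ++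
      (List.range q).map (fun p => mulVecZ (projP t N ((List.range i).map h)) (h (i + p)).2) := by
    intro q hq
    unfold coreList projP
    rw [(hlev q hq).1, (hlev q hq).2, List.map_append, List.map_map]
    rfl
  refine hc3 (coreList t N ((List.range i).map h))
    (fun p => mulVecZ (projP t N ((List.range i).map h)) (h (i + p)).2) n
    (short_coreList (hshort i (by omega)))
    (fun p hp => short_proj (short_eqList (hshort i (by omega))) (hs (i + p) (by omega))) ?_ ?_
  · -- one solution of all strict inequalities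
    obtain ⟨w, h1, h2⟩ := exists_strict_rest ht (hshort (i + n) le_rfl) hw
    have h3 : ∀ g ∈ coreList t N ((List.range (i + n)).map h), 0 < ldot g w := by
      intro g hg
      unfold coreList at hg
      obtain ⟨a', h', rfl⟩ := List.mem_map.mp hg
      exact ldot_coreList ht (hshort (i + n) le_rfl) h1 (short_rest (hshort (i + n) le_rfl) a' h').1
        (h2 a' h')
    rw [hcore n le_rfl] at h3
    refine ⟨w, fun x hx => h3 x (List.mem_append_left _ hx), fun p hp => h3 _ ?_⟩
    exact List.mem_append_right _ (List.mem_map_of_mem (List.mem_range.mpr hp))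
  · intro q hq
    have h1 : dotZ (h (i + q)).2 (centre t core N ((List.range (i + q)).map h)) ≤ 0 := by
      rcases hv (i + q) (by omega) with h1 | ⟨_, h1⟩
      · exact h1.le
      · exact h1
    unfold centre projP at h1
    rw [dot_proj (fun r h' => (short_eqList (hshort (i + q) (by omega)) r h').1)
      (hs (i + q) (by omega)).1 (hc0 _), hcore q (by omega), (hlev q (by omega)).1] at h1
    exact h1

/-- **The number of mistakes.** -/
theorem centre_learn (ht : TestOK t N l) (hc0 : ∀ G, (core G).length = N) {B : ℕ}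
    (hc3 : CoreLearn core N (lexp N l) B) (h : ℕ → Bool × List ℤ) (m : ℕ)
    (hs : ∀ k < m, Short N l (h k).2) (hw : ∃ w, ∀ k < m, ((h k).1 = true → 0 < ldot (h k).2 w) ∧
      0 ≤ ldot (h k).2 w)
    (hv : ∀ k < m, Viol (h k) (centre t core N ((List.range k).map h))) :
    m < (N + 1) * (B + 1) := by
  obtain ⟨w, hw⟩ := hw
  have hsat : ∀ k ≤ m, Sat ((List.range k).map h) w := by
    intro k hk x hx
    obtain ⟨p, hp, rfl⟩ := List.mem_map.mp hx
    exact hw p (by have := List.mem_range.mp hp; omega)
  have hshort : ∀ k ≤ m, ∀ x ∈ (List.range k).map h, Short N l x.2 := by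
    intro k hk x hx
    obtain ⟨p, hp, rfl⟩ := List.mem_map.mp hx
    exact hs p (by have := List.mem_range.mp hp; omega)
  have hmono : ∀ i j, i ≤ j → j ≤ m →
      spanE t N ((List.range i).map h) ≤ spanE t N ((List.range j).map h) := by
    intro i j hij hj
    refine Submodule.span_mono (Set.image_mono ?_)
    intro a ha
    obtain ⟨b, hb, h1⟩ := mem_eqList.mp ha
    have hb' : (b, a) ∈ (List.range j).map h := by
      obtain ⟨p, hp, hp'⟩ := List.mem_map.mp hb
      rw [← hp']
      exact List.mem_map_of_mem (List.mem_range.mpr (by have := List.mem_range.mp hp; omega))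
    refine mem_eqList.mpr ⟨b, hb', (ht _ (hshort j hj) ⟨w, hsat j hj⟩ _ hb').mpr ?_⟩
    intro v hv'
    refine (ht _ (hshort i (by omega)) ⟨w, hsat i (by omega)⟩ _ hb).mp h1 v (hv'.mono ?_)
    intro x hx
    obtain ⟨p, hp, rfl⟩ := List.mem_map.mp hx
    exact List.mem_map_of_mem (List.mem_range.mpr (by have := List.mem_range.mp hp; omega))
  set d : ℕ → ℕ := fun i => Module.finrank ℝ (spanE t N ((List.range i).map h)) with hddef
  have hdle : ∀ i, d i ≤ N := by
    intro i
    have h1 := Submodule.finrank_le (spanE t N ((List.range i).map h))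
    rw [Module.finrank_fin_fun] at h1
    exact h1
  -- equal dimensions: at most `B` apart
  have hclose : ∀ i j, i ≤ j → j ≤ m → d i = d j → j ≤ i + B := by
    intro i j hij hj hdd
    obtain ⟨n, rfl⟩ := Nat.exists_eq_add_of_le hij
    have h1 : n ≤ B := by
      refine level_le ht hc0 hc3 h i n (fun k hk => hs k (by omega)) ⟨w, hsat _ hj⟩
        (fun k hk => hv k (by omega)) fun q hq => ?_
      have e1 := hmono i (i + q) (by omega) (by omega)
      have e2 := hmono (i + q) (i + n) (by omega) hj
      refine (Submodule.eq_of_le_of_finrank_le e1 ?_).symm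
      exact (Submodule.finrank_mono e2).trans (by rw [← hddef] at *; exact hdd.ge)
    omega
  have h1 := Finset.card_le_mul_card_image (f := d) (Finset.range (m + 1)) (B + 1) (by
    intro b hb
    obtain ⟨i0, hi0, rfl⟩ := Finset.mem_image.mp hb
    have hne : ((Finset.range (m + 1)).filter (fun a => d a = d i0)).Nonempty :=
      ⟨i0, Finset.mem_filter.mpr ⟨hi0, rfl⟩⟩
    set i := ((Finset.range (m + 1)).filter (fun a => d a = d i0)).min' hne with hi
    have hi1 := Finset.min'_mem _ hne
    rw [← hi, Finset.mem_filter] at hi1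
    have hsub : (Finset.range (m + 1)).filter (fun a => d a = d i0) ⊆ Finset.Icc i (i + B) := by
      intro j hj
      have hj1 := Finset.min'_le _ j hj
      rw [← hi] at hj1
      obtain ⟨hj2, hj3⟩ := Finset.mem_filter.mp hj
      rw [Finset.mem_Icc]
      exact ⟨hj1, hclose i j hj1 (by have := Finset.mem_range.mp hj2; omega) (hi1.2.trans hj3.symm)⟩
    refine (Finset.card_le_card hsub).trans ?_
    rw [Nat.card_Icc]
    omega)
  have h2 : ((Finset.range (m + 1)).image d).card ≤ N + 1 := by
    refine (Finset.card_le_card (t := Finset.range (N + 1)) ?_).trans (by simp)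
    intro x hx
    obtain ⟨i, _, rfl⟩ := Finset.mem_image.mp hx
    exact Finset.mem_range.mpr (Nat.lt_succ_of_le (hdle i))
  rw [Finset.card_range] at h1
  have h3 : (B + 1) * ((Finset.range (m + 1)).image d).card ≤ (B + 1) * (N + 1) :=
    Nat.mul_le_mul_left _ h2
  calc m < m + 1 := Nat.lt_succ_self m
    _ ≤ (B + 1) * (N + 1) := h1.trans h3
    _ = (N + 1) * (B + 1) := mul_comm _ _

end main

end Pool.Agent.Lib.MP_4d246d_lc.EB.Ties
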