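import Pool.Agent.Lib.MP_4d246d_lc.EB.Guess
import Pool.Agent.Lib.MP_4d246d_lc.EB.Small
import Pool.Agent.Lib.MP_4d246d_lc.EB.Ties

/-!
The core of the learner is right: it satisfies a strictly solvable system of strict inequalities, and from any
start it makes at most `parK * parS ^ 2` mistakes.
-/

set_option autoImplicit false
set_option linter.unusedSectionVars false

open Matrix

namespace Pool.Agent.Lib.MP_4d246d_lc.EB

open Pool.Agent.Simplex.QP

variable {N : ℕ}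

/-! ### Bounds for `nrm` and the exponent -/

theorem isUnit_of_pd {M : Matrix (Fin N) (Fin N) ℚ} (h : Pd (rM M)) : IsUnit M.det := by
  have h2 : (rM M).det = ((M.det : ℚ) : ℝ) := by
    have := RingHom.map_det (Rat.castHom ℝ) M
    rw [RingHom.mapMatrix_apply] at this
    exact this.symm
  have h3 := h.det_pos
  rw [h2] at h3
  have h4 : 0 < M.det := by exact_mod_cast h3
  exact isUnit_iff_ne_zero.mpr h4.ne'

theorem nrm_le {M : Matrix (Fin N) (Fin N) ℚ} (hU : IsUnit M.det)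
    (hM1 : ∀ x : Fin N → ℚ, x ⬝ᵥ x ≤ x ⬝ᵥ M *ᵥ x) (g : Fin N → ℤ) : nrm M g ≤ qv g ⬝ᵥ qv g := by
  have h2 : M *ᵥ (M⁻¹ *ᵥ qv g) = qv g := by
    rw [mulVec_mulVec, mul_nonsing_inv _ hU, one_mulVec]
  have h1 := hM1 (M⁻¹ *ᵥ qv g)
  rw [h2, dotProduct_comm (M⁻¹ *ᵥ qv g) (qv g)] at h1
  have h3 : 0 ≤ (qv g - M⁻¹ *ᵥ qv g) ⬝ᵥ (qv g - M⁻¹ *ᵥ qv g) :=
    Finset.sum_nonneg fun i _ => mul_self_nonneg _
  rw [sub_dotProduct, dotProduct_sub, dotProduct_sub, dotProduct_comm (M⁻¹ *ᵥ qv g) (qv g)] at h3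
  unfold nrm
  linarith

theorem sq_quad (N E : ℕ) (cs : List (ℕ × List ℤ)) (x : Fin N → ℚ) : 0 ≤ x ⬝ᵥ sqOf N E cs *ᵥ x := by
  induction cs with
  | nil => simp [sqOf]
  | cons p cs ih =>
    have h1 : sqOf N E (p :: cs) = vecMulVec (hatOf N E p) (hatOf N E p) + sqOf N E cs := by
      simp [sqOf]
    rw [h1, add_mulVec, dotProduct_add, vecMulVec_mulVec]
    have h2 : x ⬝ᵥ (MulOpposite.op (hatOf N E p ⬝ᵥ x)) • hatOf N E p = (hatOf N E p ⬝ᵥ x) ^ 2 := by
      rw [op_smul_eq_smul, dotProduct_smul, smul_eq_mul, dotProduct_comm x, sq]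
    rw [h2]
    positivity

theorem mat_quad (N E s : ℕ) (ds : List (ℕ × List ℤ)) (x : Fin N → ℚ) :
    x ⬝ᵥ x ≤ x ⬝ᵥ matOf N E s ds *ᵥ x := by
  rw [matOf, add_mulVec, dotProduct_add, one_mulVec, smul_mulVec, dotProduct_smul, smul_eq_mul]
  have := sq_quad N E ds x
  have h2 : (0 : ℚ) ≤ ((s * s : ℕ) : ℚ)⁻¹ := by positivity
  nlinarith [mul_nonneg h2 this]

/-- the lower bound -/
theorem le_nrm {M : Matrix (Fin N) (Fin N) ℚ} (hM : Pd (rM M)) {w : Fin N → ℝ}
    (hw : w ⬝ᵥ rM M *ᵥ w ≤ 3) {ε : ℝ} (hε : 0 < ε) {g : Fin N → ℤ} (hg : ε ≤ rV (qv g) ⬝ᵥ w) :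
    ε ^ 2 / 3 ≤ ((nrm M g : ℚ) : ℝ) := by
  have h1 := hM.cs (rV (qv g)) w
  rw [← nrm_cast] at h1
  have h2 : 0 ≤ ((nrm M g : ℚ) : ℝ) := by
    rw [nrm_cast]
    exact hM.inv_nonneg _
  have h3 : ε ^ 2 ≤ (rV (qv g) ⬝ᵥ w) ^ 2 := pow_le_pow_left₀ hε.le hg 2
  have h4 : ((nrm M g : ℚ) : ℝ) * (w ⬝ᵥ rM M *ᵥ w) ≤ ((nrm M g : ℚ) : ℝ) * 3 :=
    mul_le_mul_of_nonneg_left hw h2
  linarith

/-! ### The parameters -/

/-- exponent for the small solution -/
def zexp (N l : ℕ) : ℕ := N + N * N + l * N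

theorem parE_eq (N l : ℕ) : parE N l = 2 * (2 * N + 2 + zexp N l + l) := by
  unfold parE zexp
  ring

/-- the margin -/
noncomputable def eps (N l : ℕ) : ℝ := ((2 : ℝ) ^ (N + 1 + zexp N l))⁻¹

/-- the bound for the norm -/
noncomputable def bnd (N l : ℕ) : ℝ := (2 : ℝ) ^ (N + l)

theorem eps_pos (N l : ℕ) : 0 < eps N l := by unfold eps; positivity

theorem bnd_pos (N l : ℕ) : 0 < bnd N l := by unfold bnd; positivity

theorem two_eps_le (N l : ℕ) : 2 * eps N l ≤ bnd N l := by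
  unfold eps bnd
  have h1 : (1 : ℝ) ≤ 2 ^ (N + l) := one_le_pow₀ (by norm_num)
  have h2 : (2 : ℝ) ≤ 2 ^ (N + 1 + zexp N l) := by
    calc (2 : ℝ) = 2 ^ 1 := by norm_num
      _ ≤ _ := pow_le_pow_right₀ (by norm_num) (by omega)
  have h3 : 2 * ((2 : ℝ) ^ (N + 1 + zexp N l))⁻¹ ≤ 1 := by
    rw [← div_eq_mul_inv, div_le_one (by positivity)]
    exact h2
  linarith

theorem ratio_le (N l : ℕ) : 3 / (eps N l / bnd N l) ^ 2 ≤ 2 ^ parE N l := by
  have h1 : eps N l / bnd N l = ((2 : ℝ) ^ (2 * N + 1 + zexp N l + l))⁻¹ := by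
    unfold eps bnd
    rw [div_eq_mul_inv, ← mul_inv, ← pow_add]
    congr 2
    ring
  have h2 : 3 / (eps N l / bnd N l) ^ 2 = 3 * (2 : ℝ) ^ (2 * (2 * N + 1 + zexp N l + l)) := by
    rw [h1, inv_pow, div_inv_eq_mul, ← pow_mul]
    congr 2
    ring
  rw [h2, parE_eq]
  have h3 : (2 : ℝ) ^ (2 * (2 * N + 2 + zexp N l + l)) = 4 * 2 ^ (2 * (2 * N + 1 + zexp N l + l)) := by
    rw [show 2 * (2 * N + 2 + zexp N l + l) = 2 + 2 * (2 * N + 1 + zexp N l + l) by ring, pow_add]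
    norm_num
  rw [h3]
  have : (0 : ℝ) < 2 ^ (2 * (2 * N + 1 + zexp N l + l)) := by positivity
  linarith

theorem par_lt (N l : ℕ) : (3 / (eps N l / bnd N l) ^ 2) ^ N < (5 / 4 : ℝ) ^ parK N l := by
  have h0 : 0 ≤ 3 / (eps N l / bnd N l) ^ 2 := by positivity
  calc (3 / (eps N l / bnd N l) ^ 2) ^ N ≤ ((2 : ℝ) ^ parE N l) ^ N := pow_le_pow_left₀ h0 (ratio_le N l) N
    _ = 2 ^ (N * parE N l) := by rw [← pow_mul, mul_comm]
    _ < 2 ^ (N * parE N l + 1) := pow_lt_pow_right₀ (by norm_num) (by omega)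
    _ ≤ ((5 / 4 : ℝ) ^ 4) ^ (N * parE N l + 1) := pow_le_pow_left₀ (by norm_num) (by norm_num) _
    _ = (5 / 4 : ℝ) ^ parK N l := by rw [← pow_mul]; rfl

theorem parS_pos (N l : ℕ) : 0 < parS N l := by
  unfold parS parK
  omega

theorem parT_ok (N l : ℕ) : 2 * parK N l ^ 2 ≤ parS N l * parS N l := by
  unfold parS
  nlinarith [Nat.zero_le (parK N l ^ 2)]

/-! ### The unknown vector -/

theorem getD_abs_le {N l : ℕ} {a : List ℤ} (ha : Ties.Short N l a) (j : Fin N) :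
    |toV N a j| ≤ 2 ^ l := by
  unfold toV
  refine (ha.2 _ (getD_mem ?_)).le
  rw [ha.1]
  exact j.2

theorem exists_unknown {l : ℕ} {G : List (List ℤ)} (hG : ∀ g ∈ G, Ties.Short N l g)
    (h : ∃ w, ∀ g ∈ G, 0 < ldot g w) :
    ∃ w : Fin N → ℝ, w ⬝ᵥ w ≤ 1 / 4 ∧ ∀ g ∈ G, eps N l ≤ rV (qv (toV N g)) ⬝ᵥ w := by
  obtain ⟨x, hx⟩ := h
  obtain ⟨z, hz1, hz2⟩ := small_solution (ι := Fin G.length) (n := N) (fun i => toV N G[i]) (L := 2 ^ l)
    (one_le_pow₀ (by norm_num)) (fun i j => getD_abs_le (hG _ (List.getElem_mem _)) j)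
    ⟨fun j => x j, fun i => by
      have h1 := hx G[i] (List.getElem_mem _)
      have h2 := ldot_eq_fin G[i] x N (hG _ (List.getElem_mem _)).1.le
      rw [h2] at h1
      exact h1⟩
  have hzb : ∀ j, |z j| ≤ 2 ^ zexp N l := by
    intro j
    refine (hz2 j).trans ?_
    have e1 : N.factorial ≤ 2 ^ (N * N) := by
      refine (Nat.factorial_le_pow N).trans ?_
      rw [pow_mul]
      exact Nat.pow_le_pow_left Nat.lt_two_pow_self.le N
    have e2 : (N.factorial : ℤ) ≤ 2 ^ (N * N) := by exact_mod_cast e1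
    have e3 : (N : ℤ) ≤ 2 ^ N := by exact_mod_cast Nat.lt_two_pow_self.le
    have e4 : ((2 : ℤ) ^ l) ^ N = 2 ^ (l * N) := by rw [← pow_mul]
    rw [e4]
    calc (N : ℤ) * ((N.factorial : ℤ) * 2 ^ (l * N)) ≤ 2 ^ N * (2 ^ (N * N) * 2 ^ (l * N)) :=
          mul_le_mul e3 (mul_le_mul_of_nonneg_right e2 (by positivity)) (by positivity) (by positivity)
      _ = 2 ^ zexp N l := by
          rw [← pow_add, ← pow_add, zexp]
          congr 1
          ring
  refine ⟨fun j => eps N l * (z j : ℝ), ?_, fun g hg => ?_⟩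
  · have h1 : ∀ j : Fin N, eps N l * (z j : ℝ) * (eps N l * (z j : ℝ)) ≤
        (eps N l * 2 ^ zexp N l) ^ 2 := by
      intro j
      have h2 : |(z j : ℝ)| ≤ 2 ^ zexp N l := by exact_mod_cast hzb j
      have h3 : (z j : ℝ) ^ 2 ≤ (2 ^ zexp N l) ^ 2 := by
        rw [← sq_abs]
        exact pow_le_pow_left₀ (abs_nonneg _) h2 2
      rw [mul_pow]
      nlinarith [sq_nonneg (eps N l)]
    have h2 : (fun j => eps N l * (z j : ℝ)) ⬝ᵥ (fun j => eps N l * (z j : ℝ)) ≤
        N * (eps N l * 2 ^ zexp N l) ^ 2 := by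
      unfold dotProduct
      refine (Finset.sum_le_sum fun j _ => h1 j).trans ?_
      simp
    refine h2.trans ?_
    have h3 : eps N l * 2 ^ zexp N l = ((2 : ℝ) ^ (N + 1))⁻¹ := by
      unfold eps
      rw [pow_add, mul_inv, mul_assoc, inv_mul_cancel₀ (by positivity), mul_one]
    rw [h3, inv_pow, ← pow_mul]
    have h4 : (N : ℝ) ≤ 2 ^ N := by exact_mod_cast Nat.lt_two_pow_self.le
    have h5 : (2 : ℝ) ^ ((N + 1) * 2) = 2 ^ N * (4 * 2 ^ N) := by
      rw [show (N + 1) * 2 = N + (2 + N) by ring, pow_add, pow_add]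
      norm_num
    have h6 : (1 : ℝ) ≤ 2 ^ N := one_le_pow₀ (by norm_num)
    rw [← div_eq_mul_inv, div_le_iff₀ (by positivity), h5]
    nlinarith
  · obtain ⟨i, hi, rfl⟩ := List.mem_iff_getElem.mp hg
    have h1 := hz1 ⟨i, hi⟩
    have h2 : rV (qv (toV N G[i])) ⬝ᵥ (fun j => eps N l * (z j : ℝ)) =
        eps N l * ((toV N G[i] ⬝ᵥ z : ℤ) : ℝ) := by
      simp only [dotProduct, rV, qv, Rat.cast_intCast, Int.cast_sum, Int.cast_mul, Finset.mul_sum]
      exact Finset.sum_congr rfl fun j _ => by ring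
    rw [h2]
    have h3 : (1 : ℝ) ≤ ((toV N G[i] ⬝ᵥ z : ℤ) : ℝ) := by exact_mod_cast h1
    nlinarith [eps_pos N l]

theorem norm_le {l : ℕ} {g : List ℤ} (hg : Ties.Short N l g) :
    qv (toV N g) ⬝ᵥ qv (toV N g) ≤ 4 ^ (N + l) := by
  have h1 : ∀ j : Fin N, qv (toV N g) j * qv (toV N g) j ≤ 4 ^ l := by
    intro j
    have h2 := getD_abs_le hg j
    have h3 : |qv (toV N g) j| ≤ 2 ^ l := by
      unfold qv
      exact_mod_cast h2
    have h4 : (qv (toV N g) j) ^ 2 ≤ (2 ^ l) ^ 2 := by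
      rw [← sq_abs]
      exact pow_le_pow_left₀ (abs_nonneg _) h3 2
    rw [← sq]
    refine h4.trans (le_of_eq ?_)
    rw [← pow_mul, mul_comm, pow_mul]
    norm_num
  calc qv (toV N g) ⬝ᵥ qv (toV N g) ≤ ∑ _j : Fin N, (4 : ℚ) ^ l := Finset.sum_le_sum fun j _ => h1 j
    _ = N * 4 ^ l := by simp
    _ ≤ 4 ^ N * 4 ^ l := by
        refine mul_le_mul_of_nonneg_right ?_ (by positivity)
        have h5 : (N : ℚ) ≤ 2 ^ N := by exact_mod_cast Nat.lt_two_pow_self.le
        exact h5.trans (pow_le_pow_left₀ (by norm_num) (by norm_num) N)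
    _ = 4 ^ (N + l) := by rw [pow_add]

theorem norm_le_real {l : ℕ} {g : List ℤ} (hg : Ties.Short N l g) :
    rV (qv (toV N g)) ⬝ᵥ rV (qv (toV N g)) ≤ bnd N l ^ 2 := by
  rw [rV_dot]
  have h1 := norm_le hg
  have h2 : ((qv (toV N g) ⬝ᵥ qv (toV N g) : ℚ) : ℝ) ≤ (4 : ℝ) ^ (N + l) := by exact_mod_cast h1
  refine h2.trans (le_of_eq ?_)
  unfold bnd
  rw [← pow_mul, mul_comm, pow_mul]
  norm_num

/-! ### The exponent -/

theorem expo_bounds {l : ℕ} {M : Matrix (Fin N) (Fin N) ℚ} (hM : Pd (rM M))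
    (hM1 : ∀ x : Fin N → ℚ, x ⬝ᵥ x ≤ x ⬝ᵥ M *ᵥ x) {w : Fin N → ℝ} (hw : w ⬝ᵥ rM M *ᵥ w ≤ 3)
    {g : List ℤ} (hg : Ties.Short N l g) (hgw : eps N l ≤ rV (qv (toV N g)) ⬝ᵥ w) :
    0 < nrm M (toV N g) ∧ -(parE N l : ℤ) ≤ expo M (toV N g) ∧ expo M (toV N g) ≤ parE N l := by
  have h1 := le_nrm hM hw (eps_pos N l) hgw
  have h2 := nrm_le (isUnit_of_pd hM) hM1 (toV N g)
  have h3 : (0 : ℝ) < ((nrm M (toV N g) : ℚ) : ℝ) := lt_of_lt_of_le (by have := eps_pos N l; positivity) h1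
  have h4 : 0 < nrm M (toV N g) := by exact_mod_cast h3
  refine ⟨h4, ?_, ?_⟩
  · -- lower bound
    have h5 : ((4 : ℕ) : ℝ) ^ (-((N + 2 + zexp N l : ℕ) : ℤ)) ≤ ((nrm M (toV N g) : ℚ) : ℝ) := by
      refine le_trans ?_ h1
      have e1 : eps N l ^ 2 = ((4 : ℝ) ^ (N + 1 + zexp N l))⁻¹ := by
        unfold eps
        rw [inv_pow, ← pow_mul, mul_comm, pow_mul]
        norm_num
      have e2 : ((4 : ℕ) : ℝ) ^ (-((N + 2 + zexp N l : ℕ) : ℤ)) = ((4 : ℝ) ^ (N + 1 + zexp N l))⁻¹ / 4 := by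
        rw [_root_.zpow_neg, zpow_natCast, show N + 2 + zexp N l = (N + 1 + zexp N l) + 1 by ring, pow_succ,
          mul_inv]
        norm_num
        ring
      rw [e1, e2]
      have : (0 : ℝ) < ((4 : ℝ) ^ (N + 1 + zexp N l))⁻¹ := by positivity
      linarith
    have h6 : ((4 : ℕ) : ℚ) ^ (-((N + 2 + zexp N l : ℕ) : ℤ)) ≤ nrm M (toV N g) := by
      have h7 : (((((4 : ℕ) : ℚ) ^ (-((N + 2 + zexp N l : ℕ) : ℤ)) : ℚ)) : ℝ) ≤
          ((nrm M (toV N g) : ℚ) : ℝ) := by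
        push_cast at h5 ⊢
        exact h5
      exact_mod_cast h7
    rw [Int.zpow_le_iff_le_log (by norm_num) h4] at h6
    unfold expo
    rw [parE_eq]
    push_cast at h6 ⊢
    have : (0 : ℤ) ≤ (zexp N l : ℤ) := Int.natCast_nonneg _
    omega
  · -- upper bound
    have h5 : nrm M (toV N g) < ((4 : ℕ) : ℚ) ^ (((N + l + 1 : ℕ) : ℤ)) := by
      rw [zpow_natCast, pow_succ]
      push_cast
      have h6 := h2.trans (norm_le hg)
      have h7 : (0 : ℚ) < 4 ^ (N + l) := by positivity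
      linarith
    rw [Int.lt_zpow_iff_log_lt (by norm_num) h4] at h5
    unfold expo
    rw [parE_eq]
    push_cast at h5 ⊢
    have : (0 : ℤ) ≤ (zexp N l : ℤ) := Int.natCast_nonneg _
    omega

/-! ### The run -/

/-- the state on lists is the state of the learner after legal mistakes from `G` -/
structure RunInv (N l : ℕ) (G : List (List ℤ)) (st : List (ℕ × List ℤ) × List (ℕ × List ℤ)) : Prop where
  rep : Rep N (parE N l) (parS N l) st (learn (parS N l * parS N l) (updsOf N st))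
  legal : Legal (parS N l * parS N l) (updsOf N st)
  mem : ∀ v ∈ updsOf N st, ∃ a ∈ G, v = toV N a

theorem runInv_init (N l : ℕ) (G : List (List ℤ)) : RunInv N l G ([], []) := by
  have h1 : updsOf N (([], []) : List (ℕ × List ℤ) × List (ℕ × List ℤ)) = [] := rfl
  refine ⟨?_, ?_, ?_⟩
  · rw [h1]
    exact rep_init N _ _
  · rw [h1]
    exact legal_nil _
  · rw [h1]
    simp

section run

variable {l : ℕ} {G : List (List ℤ)} {w : Fin N → ℝ} {st : List (ℕ × List ℤ) × List (ℕ × List ℤ)}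

theorem RunInv.margin (h : RunInv N l G st) (hw : ∀ g ∈ G, eps N l ≤ rV (qv (toV N g)) ⬝ᵥ w) :
    ∀ g ∈ updsOf N st, eps N l ≤ rV (qv g) ⬝ᵥ w := by
  intro g hg
  obtain ⟨a, ha, rfl⟩ := h.mem g hg
  exact hw a ha

theorem RunInv.norm (h : RunInv N l G st) (hG : ∀ g ∈ G, Ties.Short N l g) :
    ∀ g ∈ updsOf N st, rV (qv g) ⬝ᵥ rV (qv g) ≤ bnd N l ^ 2 := by
  intro g hg
  obtain ⟨a, ha, rfl⟩ := h.mem g hg
  exact norm_le_real (hG a ha)

theorem RunInv.len_lt (h : RunInv N l G st) (hG : ∀ g ∈ G, Ties.Short N l g) (hw0 : w ⬝ᵥ w ≤ 1 / 4)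
    (hw : ∀ g ∈ G, eps N l ≤ rV (qv (toV N g)) ⬝ᵥ w) :
    (updsOf N st).length < parK N l * (parS N l * parS N l) :=
  mistakes_lt (Nat.mul_pos (parS_pos N l) (parS_pos N l)) (parT_ok N l) _ h.legal (eps_pos N l)
    (bnd_pos N l) (two_eps_le N l) w hw0 (h.margin hw) (h.norm hG) (par_lt N l)

theorem RunInv.push (h : RunInv N l G st) (hG : ∀ g ∈ G, Ties.Short N l g) (hw0 : w ⬝ᵥ w ≤ 1 / 4)
    (hw : ∀ g ∈ G, eps N l ≤ rV (qv (toV N g)) ⬝ᵥ w) {a : List ℤ} (ha : a ∈ G)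
    (hd : dotZ a (hypOf N (parE N l) (parS N l) st) ≤ 0) :
    RunInv N l G (pushOf (parS N l) st (expOf N (parE N l) (parS N l) st.1 a, a)) := by
  obtain ⟨hP, hwM, _, _⟩ := state_inv (Nat.mul_pos (parS_pos N l) (parS_pos N l)) (parT_ok N l) _ h.legal
    (eps_pos N l) (bnd_pos N l) (two_eps_le N l) w hw0 (h.margin hw) (h.norm hG) (par_lt N l)
  have hU := isUnit_of_pd hP
  have hM1 : ∀ x : Fin N → ℚ, x ⬝ᵥ x ≤
      x ⬝ᵥ (learn (parS N l * parS N l) (updsOf N st)).M *ᵥ x := by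
    intro x
    rw [h.rep.hM]
    exact mat_quad _ _ _ _ x
  obtain ⟨hn, he1, he2⟩ := expo_bounds hP hM1 hwM (hG a ha) (hw a ha)
  refine ⟨?_, ?_, ?_⟩
  · rw [updsOf_push, learn_snoc]
    exact rep_push (parS_pos N l) h.rep hU a (hG a ha).1 hn he1 he2
  · rw [updsOf_push]
    refine legal_snoc h.legal ⟨?_, ?_⟩
    · intro h0
      have h1 := hw a ha
      have h2 : rV (qv (toV N a)) ⬝ᵥ w = 0 := by
        simp only at h0
        rw [h0]
        simp [rV, qv, dotProduct]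
      rw [h2] at h1
      linarith [eps_pos N l]
    · have h1 := (hyp_le (parS_pos N l) h.rep hU a (hG a ha).1.le).mp hd
      have h2 : ghat (learn (parS N l * parS N l) (updsOf N st)).M (toV N a) ⬝ᵥ
          hyp (parS N l * parS N l) (updsOf N st) ≤ 0 := by
        unfold ghat hyp
        rw [smul_dotProduct, smul_eq_mul]
        exact mul_nonpos_of_nonneg_of_nonpos (by positivity) h1
      refine h2.trans (by norm_num)
  · rw [updsOf_push]
    intro v hv
    rcases List.mem_append.mp hv with hv | hv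
    · exact h.mem v hv
    · rw [List.mem_singleton] at hv
      exact ⟨a, ha, hv⟩

/-- nothing is violated -/
def Done (N l : ℕ) (G : List (List ℤ)) (st : List (ℕ × List ℤ) × List (ℕ × List ℤ)) : Prop :=
  (G.find? fun g => decide (dotZ g (hypOf N (parE N l) (parS N l) st) ≤ 0)) = none

theorem step_done (h : Done N l G st) : stepOf N (parE N l) (parS N l) G st = st := by
  unfold Done at h
  unfold stepOf
  rw [h]

theorem step_not_done (h : ¬ Done N l G st) : ∃ a ∈ G, dotZ a (hypOf N (parE N l) (parS N l) st) ≤ 0 ∧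
    stepOf N (parE N l) (parS N l) G st =
      pushOf (parS N l) st (expOf N (parE N l) (parS N l) st.1 a, a) := by
  unfold Done at h
  obtain ⟨a, ha⟩ := Option.ne_none_iff_exists'.mp h
  refine ⟨a, List.mem_of_find?_eq_some ha, ?_, ?_⟩
  · simpa using List.find?_some ha
  · unfold stepOf
    rw [ha]

theorem step_append (h : ¬ Done N l G st) (g : List ℤ) :
    stepOf N (parE N l) (parS N l) (G ++ [g]) st = stepOf N (parE N l) (parS N l) G st := by
  unfold Done at h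
  obtain ⟨a, ha⟩ := Option.ne_none_iff_exists'.mp h
  unfold stepOf
  rw [List.find?_append, ha]
  rfl

theorem not_done_append (h : ¬ Done N l G st) (g : List ℤ) : ¬ Done N l (G ++ [g]) st := by
  unfold Done at h ⊢
  obtain ⟨a, ha⟩ := Option.ne_none_iff_exists'.mp h
  rw [List.find?_append, ha]
  simp

theorem coreRun_succ (N E s k : ℕ) (G : List (List ℤ)) :
    coreRun N E s (k + 1) G = stepOf N E s G (coreRun N E s k G) := by
  unfold coreRun
  rw [Function.iterate_succ_apply']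

theorem runInv_run (hG : ∀ g ∈ G, Ties.Short N l g) (hw0 : w ⬝ᵥ w ≤ 1 / 4)
    (hw : ∀ g ∈ G, eps N l ≤ rV (qv (toV N g)) ⬝ᵥ w) (k : ℕ) :
    RunInv N l G (coreRun N (parE N l) (parS N l) k G) := by
  induction k with
  | zero => exact runInv_init N l G
  | succ k ih =>
    rw [coreRun_succ]
    by_cases h : Done N l G (coreRun N (parE N l) (parS N l) k G)
    · rw [step_done h]
      exact ih
    · obtain ⟨a, ha, h1, h2⟩ := step_not_done h
      rw [h2]
      exact ih.push hG hw0 hw ha h1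

theorem len_of_not_done (k : ℕ) (h : ∀ j < k, ¬ Done N l G (coreRun N (parE N l) (parS N l) j G)) :
    (updsOf N (coreRun N (parE N l) (parS N l) k G)).length = k := by
  induction k with
  | zero => rfl
  | succ k ih =>
    obtain ⟨a, ha, h1, h2⟩ := step_not_done (h k (Nat.lt_succ_self k))
    rw [coreRun_succ, h2, updsOf_push, List.length_append, ih fun j hj => h j (by omega)]
    rfl

/-- the first time at which nothing is violated -/
def First (N l : ℕ) (G : List (List ℤ)) (k : ℕ) : Prop :=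
  Done N l G (coreRun N (parE N l) (parS N l) k G) ∧
    ∀ j < k, ¬ Done N l G (coreRun N (parE N l) (parS N l) j G)

theorem first_lt (hG : ∀ g ∈ G, Ties.Short N l g) (hw0 : w ⬝ᵥ w ≤ 1 / 4)
    (hw : ∀ g ∈ G, eps N l ≤ rV (qv (toV N g)) ⬝ᵥ w) {k : ℕ}
    (h : ∀ j < k, ¬ Done N l G (coreRun N (parE N l) (parS N l) j G)) :
    k < parK N l * (parS N l * parS N l) := by
  have h1 := (runInv_run hG hw0 hw k).len_lt hG hw0 hw
  rwa [len_of_not_done k h] at h1

theorem exists_first (hG : ∀ g ∈ G, Ties.Short N l g) (hw0 : w ⬝ᵥ w ≤ 1 / 4)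
    (hw : ∀ g ∈ G, eps N l ≤ rV (qv (toV N g)) ⬝ᵥ w) : ∃ k, First N l G k := by
  classical
  have h1 : ∃ k, Done N l G (coreRun N (parE N l) (parS N l) k G) := by
    by_contra hno
    push Not at hno
    exact absurd (first_lt hG hw0 hw (k := parK N l * (parS N l * parS N l)) fun j _ => hno j)
      (lt_irrefl _)
  exact ⟨Nat.find h1, Nat.find_spec h1, fun j hj => Nat.find_min h1 hj⟩

theorem first_final {k m : ℕ} (h : First N l G k) (hm : k ≤ m) :
    coreRun N (parE N l) (parS N l) m G = coreRun N (parE N l) (parS N l) k G := by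
  induction m, hm using Nat.le_induction with
  | base => rfl
  | succ m _ ih => rw [coreRun_succ, ih, step_done h.1]

theorem coreGuess_first {k : ℕ} (h : First N l G k) (hk : k ≤ parK N l * (parS N l * parS N l)) :
    coreGuess N l G = hypOf N (parE N l) (parS N l) (coreRun N (parE N l) (parS N l) k G) := by
  unfold coreGuess
  rw [first_final h hk]

theorem run_append {k : ℕ} (h : ∀ j < k, ¬ Done N l G (coreRun N (parE N l) (parS N l) j G)) (g : List ℤ) :
    coreRun N (parE N l) (parS N l) k (G ++ [g]) = coreRun N (parE N l) (parS N l) k G := by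
  induction k with
  | zero => rfl
  | succ k ih =>
    rw [coreRun_succ, coreRun_succ, ih fun j hj => h j (by omega),
      step_append (h k (Nat.lt_succ_self k))]

end run

/-- **The core satisfies a strictly solvable system.** -/
theorem coreGuess_sat (N l : ℕ) : Ties.CoreSat (coreGuess N l) N l := by
  intro G hG hx g hg
  obtain ⟨w, hw0, hw⟩ := exists_unknown hG hx
  obtain ⟨k, hk⟩ := exists_first hG hw0 hw
  rw [coreGuess_first hk (first_lt hG hw0 hw hk.2).le]
  have h1 := hk.1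
  unfold Done at h1
  rw [List.find?_eq_none] at h1
  have h2 := h1 g hg
  simpa using h2

/-- **The core learns.** -/
theorem coreGuess_learn (N l : ℕ) :
    Ties.CoreLearn (coreGuess N l) N l (parK N l * (parS N l * parS N l)) := by
  intro G g m hG hg hx hv
  obtain ⟨x, hx1, hx2⟩ := hx
  -- all systems are strictly solvable
  have hGi : ∀ i ≤ m, ∀ a ∈ G ++ (List.range i).map g, Ties.Short N l a ∧ 0 < ldot a x := by
    intro i hi a ha
    rcases List.mem_append.mp ha with ha | ha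
    · exact ⟨hG a ha, hx1 a ha⟩
    · obtain ⟨p, hp, rfl⟩ := List.mem_map.mp ha
      have hp' : p < m := by
        have := List.mem_range.mp hp
        omega
      exact ⟨hg p hp', hx2 p hp'⟩
  obtain ⟨w, hw0, hw⟩ := exists_unknown (fun a ha => (hGi m le_rfl a ha).1)
    ⟨x, fun a ha => (hGi m le_rfl a ha).2⟩
  have hwi : ∀ i ≤ m, ∀ a ∈ G ++ (List.range i).map g, eps N l ≤ rV (qv (toV N a)) ⬝ᵥ w := by
    intro i hi a ha
    refine hw a ?_
    rcases List.mem_append.mp ha with ha | ha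
    · exact List.mem_append_left _ ha
    · obtain ⟨p, hp, rfl⟩ := List.mem_map.mp ha
      refine List.mem_append_right _ (List.mem_map_of_mem (List.mem_range.mpr ?_))
      have := List.mem_range.mp hp
      omega
  have key : ∀ i ≤ m, ∃ k, i ≤ k ∧ First N l (G ++ (List.range i).map g) k := by
    intro i
    induction i with
    | zero =>
      intro _
      obtain ⟨k, hk⟩ := exists_first (fun a ha => (hGi 0 (Nat.zero_le _) a ha).1) hw0
        (hwi 0 (Nat.zero_le _))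
      exact ⟨k, Nat.zero_le _, hk⟩
    | succ i ih =>
      intro hi
      obtain ⟨k, hik, hk⟩ := ih (by omega)
      have hsnoc : G ++ (List.range (i + 1)).map g = (G ++ (List.range i).map g) ++ [g i] := by
        rw [List.range_succ, List.map_append, ← List.append_assoc]
        rfl
      obtain ⟨k', hk'⟩ := exists_first (fun a ha => (hGi (i + 1) hi a ha).1) hw0 (hwi (i + 1) hi)
      refine ⟨k', ?_, hk'⟩
      by_contra hlt
      push Not at hlt
      have hk'k : k' ≤ k := by omega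
      have h1 := hk'.1
      rw [hsnoc] at h1
      rcases hk'k.lt_or_eq with h2 | h2
      · rw [run_append fun j hj => hk.2 j (by omega)] at h1
        exact not_done_append (hk.2 k' h2) (g i) h1
      · subst h2
        rw [run_append fun j hj => hk.2 j hj] at h1
        have h3 := hv i (by omega)
        rw [coreGuess_first hk (first_lt (fun a ha => (hGi i (by omega) a ha).1) hw0
          (hwi i (by omega)) hk.2).le] at h3
        unfold Done at h1
        rw [List.find?_eq_none] at h1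
        have h4 := h1 (g i) (by simp)
        simp only [decide_eq_true_eq] at h4
        exact h4 h3
  obtain ⟨k, hik, hk⟩ := key m le_rfl
  exact hik.trans (first_lt (fun a ha => (hGi m le_rfl a ha).1) hw0 (hwi m le_rfl) hk.2).le

end Pool.Agent.Lib.MP_4d246d_lc.EB
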