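import Pool.Agent.Lib.MP_4d246d_lc.QP.PolyInput
import Pool.Agent.Lib.MP_4d246d_lc.QP.Spec

/-!
# Names of vertices and linear forms in the right hand side

`G` is a list of `M` integer vectors of length `n`; for a real vector `β` the slack of the
constraint `i` at `x` is `β i + G i • x`. For a set `S` of constraints of rank `n` there is a point
at which exactly the constraints of `S` are tight and the others are satisfied, if and only if
`β` satisfies the list of constraints `nameFacts`, whose coefficients depend only on `G` and `S`.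
-/

namespace Pool.Agent.Simplex.EB

open QP Matrix

/-- The projector annihilates only the span of the rows. -/
theorem projZ_mem {N : ℕ} {rows : List (List ℤ)} (hlen : ∀ r ∈ rows, r.length = N)
    (W : Submodule ℝ (Fin N → ℝ)) (hW : ∀ r ∈ rows, (fun j : Fin N => ((r.getD j 0 : ℤ) : ℝ)) ∈ W)
    {β : ℕ → ℝ} (hβ : ∀ i < N, ldot ((projZ N rows).2.getD i []) β = 0) :
    (fun j : Fin N => β j) ∈ W := by
  obtain ⟨hD, hl, hr, ι, _, _, A, hA, hdet, hP, hz⟩ := gs_projZ hlen
  have hD' : ((projZ N rows).1 : ℝ) ≠ 0 := by exact_mod_cast hD.ne'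
  set c : ι → ℝ := fun k => ∑ i : Fin N, ((((A * Aᵀ).adjugate * A) k i : ℤ) : ℝ) * β i with hc
  have key : ∀ j : Fin N, ((projZ N rows).1 : ℝ) * β j = ∑ k, c k * ((A k j : ℤ) : ℝ) := by
    intro j
    have h1 := hβ j j.2
    have hlen' : ((projZ N rows).2.getD j []).length ≤ N := by
      rw [List.getD_eq_getElem _ _ (by omega), hr _ (List.getElem_mem _)]
    rw [ldot_eq_fin _ _ N hlen'] at h1
    have h2 : ∀ i : Fin N, ((projZ N rows).2.getD j []).getD i 0 =
        (if j = i then (projZ N rows).1 else 0) - ∑ k, A k j * ((A * Aᵀ).adjugate * A) k i := by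
      intro i
      have h3 : toM N (projZ N rows).2 j i = pmat A j i := by rw [hP]
      unfold toM pmat at h3
      rw [Matrix.of_apply, Matrix.sub_apply, Matrix.smul_apply, Matrix.mul_assoc,
        Matrix.mul_apply, Matrix.one_apply, hdet] at h3
      rw [h3]
      split_ifs <;> simp [Matrix.transpose_apply]
    have h3 : ∀ i : Fin N, ((((projZ N rows).2.getD j []).getD i 0 : ℤ) : ℝ) * β i =
        (if j = i then ((projZ N rows).1 : ℝ) * β i else 0) -
          ∑ k, ((A k j : ℤ) : ℝ) * (((((A * Aᵀ).adjugate * A) k i : ℤ) : ℝ) * β i) := by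
      intro i
      rw [h2 i]
      push_cast
      rw [sub_mul, Finset.sum_mul]
      congr 1
      · split_ifs <;> simp
      · exact Finset.sum_congr rfl fun k _ => by ring
    rw [Finset.sum_congr rfl fun i _ => h3 i, Finset.sum_sub_distrib, Finset.sum_comm] at h1
    simp only [Finset.sum_ite_eq, Finset.mem_univ, if_true] at h1
    rw [sub_eq_zero] at h1
    rw [h1]
    refine Finset.sum_congr rfl fun k _ => ?_
    rw [← Finset.mul_sum, mul_comm]
  have h4 : (fun j : Fin N => β j) =
      ((projZ N rows).1 : ℝ)⁻¹ • ∑ k, c k • (fun j : Fin N => ((A k j : ℤ) : ℝ)) := by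
    funext j
    rw [Pi.smul_apply, Finset.sum_apply, smul_eq_mul]
    simp only [Pi.smul_apply, smul_eq_mul]
    rw [← key j, ← mul_assoc, inv_mul_cancel₀ hD', one_mul]
  rw [h4]
  refine W.smul_mem _ (W.sum_mem fun k _ => W.smul_mem _ ?_)
  obtain ⟨r, hr1, hr2⟩ := hA k
  have : (fun j : Fin N => ((A k j : ℤ) : ℝ)) = fun j : Fin N => ((r.getD j 0 : ℤ) : ℝ) := by
    funext j
    rw [hr2 j]
    rfl
  rw [this]
  exact hW r hr1

/-- The diagonal of the projector. -/
theorem projZ_diag {N : ℕ} {rows : List (List ℤ)} (hlen : ∀ r ∈ rows, r.length = N) {k : ℕ}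
    (hk : k < N) : 0 ≤ ((projZ N rows).2.getD k []).getD k 0 ∧
      (((projZ N rows).2.getD k []).getD k 0 = 0 →
        ∀ i, ((projZ N rows).2.getD i []).getD k 0 = 0) := by
  obtain ⟨hD, hl, hr, ι, _, _, A, hA, hdet, hP, hz⟩ := gs_projZ hlen
  have hs : ∀ i j, pmat A j i = pmat A i j := fun i j => by
    conv_lhs => rw [← pmat_transpose A]
    rfl
  have h1 : ∑ i, pmat A ⟨k, hk⟩ i * pmat A ⟨k, hk⟩ i = (A * Aᵀ).det * pmat A ⟨k, hk⟩ ⟨k, hk⟩ := by
    have h := congrFun (congrFun (pmat_mul_self A) ⟨k, hk⟩) ⟨k, hk⟩
    rw [Matrix.mul_apply] at h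
    rw [Matrix.smul_apply, smul_eq_mul] at h
    rw [← h]
    exact Finset.sum_congr rfl fun i _ => by rw [hs ⟨k, hk⟩ i]
  have hent : ∀ i (hi : i < N) j (hj : j < N), ((projZ N rows).2.getD i []).getD j 0 =
      pmat A ⟨i, hi⟩ ⟨j, hj⟩ := by
    intro i hi j hj
    rw [← hP]
    rfl
  rw [hent k hk k hk]
  have h2 : 0 ≤ (A * Aᵀ).det * pmat A ⟨k, hk⟩ ⟨k, hk⟩ := by
    rw [← h1]
    exact Finset.sum_nonneg fun i _ => mul_self_nonneg _
  refine ⟨nonneg_of_mul_nonneg_right h2 (by rw [hdet]; exact hD), fun h0 i => ?_⟩
  rw [h0, mul_zero] at h1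
  by_cases hi : i < N
  · rw [hent i hi k hk, hs]
    exact mul_self_eq_zero.1 ((Finset.sum_eq_zero_iff_of_nonneg
      (fun i _ => mul_self_nonneg (pmat A ⟨k, hk⟩ i))).1 h1 ⟨i, hi⟩ (Finset.mem_univ _))
  · rw [List.getD_eq_default _ _ (by omega : (projZ N rows).2.length ≤ i)]
    simp

/-- Generators: the `n` columns of `G`, restricted to `K`, and the unit vectors outside `K`. -/
def genZ (n : ℕ) (G : List (List ℤ)) (K : List Bool) : List (List ℤ) :=
  (List.range n).map (fun j => (List.range G.length).map fun i =>
    if K.getD i false = true then (G.getD i []).getD j 0 else 0) ++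
  ((List.range G.length).filter fun i => !(K.getD i false)).map fun i => unitZ G.length i

/-- A linear relation between the vectors of `K`. -/
def formZ (n : ℕ) (G : List (List ℤ)) (K : List Bool) (k : ℕ) : List ℤ :=
  (projZ G.length (genZ n G K)).2.getD k []

section

variable {n : ℕ} {G : List (List ℤ)} {K : List Bool}

theorem genZ_len {r : List ℤ} (hr : r ∈ genZ n G K) : r.length = G.length := by
  unfold genZ at hr
  rcases List.mem_append.1 hr with hr | hr
  · obtain ⟨j, -, rfl⟩ := List.mem_map.1 hr
    simp
  · obtain ⟨i, -, rfl⟩ := List.mem_map.1 hr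
    simp

theorem formZ_mem {k : ℕ} (hk : k < G.length) :
    formZ n G K k ∈ (projZ G.length (genZ n G K)).2 := by
  obtain ⟨-, h1, -⟩ := projZ_spec G.length (genZ n G K) fun _ => genZ_len
  exact getD_mem (by omega)

theorem formZ_len {k : ℕ} (hk : k < G.length) : (formZ n G K k).length = G.length := by
  obtain ⟨-, -, h1, -⟩ := projZ_spec G.length (genZ n G K) fun _ => genZ_len
  exact h1 _ (formZ_mem hk)

/-- The form vanishes outside `K`. -/
theorem formZ_out {k i : ℕ} (hk : k < G.length) (hi : K.getD i false = false) :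
    (formZ n G K k).getD i 0 = 0 := by
  by_cases him : i < G.length
  · obtain ⟨-, -, -, -, h1, -⟩ := projZ_spec G.length (genZ n G K) fun _ => genZ_len
    have h2 : unitZ G.length i ∈ genZ n G K := by
      unfold genZ
      refine List.mem_append_right _ (List.mem_map.2 ⟨i, ?_, rfl⟩)
      rw [List.mem_filter, List.mem_range, hi]
      exact ⟨him, rfl⟩
    have h3 := h1 _ h2 _ (formZ_mem hk)
    rw [dotZ_eq_sum _ _ G.length (Or.inr (by simp)), Finset.sum_eq_single i] at h3
    · rw [getD_unitZ, if_pos ⟨him, rfl⟩, mul_one] at h3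
      exact h3
    · intro j _ hj
      rw [getD_unitZ, if_neg (fun h => hj h.2), mul_zero]
    · intro h
      exact absurd (Finset.mem_range.2 him) h
  · exact getD_eq_zero (by rw [formZ_len hk]; omega)

/-- The form is a linear relation between the vectors. -/
theorem formZ_rel {k : ℕ} (hk : k < G.length) (x : Fin n → ℝ) :
    ldot (formZ n G K k) (fun i => rdot n (G.getD i []) x) = 0 := by
  have hcol : ∀ j : Fin n, ∑ i ∈ Finset.range G.length,
      (((formZ n G K k).getD i 0 : ℤ) : ℝ) * (((G.getD i []).getD j 0 : ℤ) : ℝ) = 0 := by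
    intro j
    obtain ⟨-, -, -, -, h1, -⟩ := projZ_spec G.length (genZ n G K) fun _ => genZ_len
    have h2 : ((List.range G.length).map fun i =>
        if K.getD i false = true then (G.getD i []).getD j 0 else 0) ∈ genZ n G K := by
      unfold genZ
      exact List.mem_append_left _ (List.mem_map.2 ⟨j, List.mem_range.2 j.2, rfl⟩)
    have h3 := h1 _ h2 _ (formZ_mem hk)
    rw [dotZ_eq_sum _ _ G.length (Or.inr (by simp))] at h3
    have h4 : ∑ i ∈ Finset.range G.length,
        (formZ n G K k).getD i 0 * (G.getD i []).getD j 0 = 0 := by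
      refine (Finset.sum_congr rfl fun i hi => ?_).trans h3
      rw [getD_map_range, if_pos (Finset.mem_range.1 hi)]
      cases hK : K.getD i false with
      | true => simp
      | false => rw [formZ_out hk hK]; simp
    exact_mod_cast h4
  rw [ldot_eq_sum _ _ G.length (formZ_len hk).le]
  unfold rdot
  simp only [Finset.mul_sum]
  rw [Finset.sum_comm]
  refine Finset.sum_eq_zero fun j _ => ?_
  have h5 : ∀ i, (((formZ n G K k).getD i 0 : ℤ) : ℝ) *
      ((((G.getD i []).getD j 0 : ℤ) : ℝ) * x j) =
      (((formZ n G K k).getD i 0 : ℤ) : ℝ) * (((G.getD i []).getD j 0 : ℤ) : ℝ) * x j :=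
    fun i => by ring
  simp only [h5]
  rw [← Finset.sum_mul, hcol j, zero_mul]

/-- The forms of `K` vanish at `β` only if the equations of `K` are solvable. -/
theorem formZ_solve {β : ℕ → ℝ}
    (h : ∀ k < G.length, K.getD k false = true → ldot (formZ n G K k) β = 0) :
    ∃ x : Fin n → ℝ, ∀ i < G.length, K.getD i false = true →
      β i + rdot n (G.getD i []) x = 0 := by
  let W : Submodule ℝ (Fin G.length → ℝ) :=
    { carrier := {y | ∃ x : Fin n → ℝ, ∀ i : Fin G.length, K.getD i false = true →
        y i + rdot n (G.getD i []) x = 0}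
      add_mem' := by
        rintro y y' ⟨x, hx⟩ ⟨x', hx'⟩
        refine ⟨x + x', fun i hi => ?_⟩
        have h1 := hx i hi
        have h2 := hx' i hi
        have h3 : rdot n (G.getD i []) (x + x') =
            rdot n (G.getD i []) x + rdot n (G.getD i []) x' := (rlin n _).map_add x x'
        rw [h3, Pi.add_apply]
        linarith
      zero_mem' := by
        refine ⟨0, fun i hi => ?_⟩
        have h3 : rdot n (G.getD i []) 0 = 0 := (rlin n _).map_zero
        rw [h3, Pi.zero_apply, add_zero]
      smul_mem' := by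
        rintro t y ⟨x, hx⟩
        refine ⟨t • x, fun i hi => ?_⟩
        have h1 := hx i hi
        have h3 : rdot n (G.getD i []) (t • x) = t * rdot n (G.getD i []) x :=
          (rlin n _).map_smul t x
        rw [h3, Pi.smul_apply, smul_eq_mul, ← mul_add, h1, mul_zero] }
  have h1 : (fun j : Fin G.length => β j) ∈ W := by
    refine projZ_mem (rows := genZ n G K) (fun _ => genZ_len) W (fun r hr => ?_) fun i hi => ?_
    · unfold genZ at hr
      rcases List.mem_append.1 hr with hr | hr
      · obtain ⟨j, hj, rfl⟩ := List.mem_map.1 hr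
        have hj' := List.mem_range.1 hj
        refine ⟨-Pi.single ⟨j, hj'⟩ 1, fun i hi => ?_⟩
        have h3 : rdot n (G.getD i []) (-Pi.single ⟨j, hj'⟩ 1) =
            -rdot n (G.getD i []) (Pi.single ⟨j, hj'⟩ 1) := (rlin n _).map_neg _
        beta_reduce
        rw [h3, getD_map_range, if_pos i.2, if_pos hi]
        unfold rdot
        rw [Finset.sum_eq_single (⟨j, hj'⟩ : Fin n)]
        · simp
        · intro k _ hk
          rw [Pi.single_eq_of_ne hk, mul_zero]
        · intro h; exact absurd (Finset.mem_univ _) h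
      · obtain ⟨k, hk, rfl⟩ := List.mem_map.1 hr
        rw [List.mem_filter, List.mem_range, Bool.not_eq_true'] at hk
        refine ⟨0, fun i hi => ?_⟩
        have h3 : rdot n (G.getD i []) 0 = 0 := (rlin n _).map_zero
        beta_reduce
        rw [h3, getD_unitZ, if_neg]
        · simp
        · rintro ⟨-, h4⟩
          rw [h4, hk.2] at hi
          exact Bool.false_ne_true hi
    · cases hK : K.getD i false with
      | true => exact h i hi hK
      | false =>
        obtain ⟨-, -, -, h3, -⟩ := projZ_spec G.length (genZ n G K) fun _ => genZ_len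
        have hh : ((projZ G.length (genZ n G K)).2.getD i []).length ≤ G.length :=
          (formZ_len (n := n) (K := K) hi).le
        rw [ldot_eq_sum _ _ G.length hh]
        refine Finset.sum_eq_zero fun j hj => ?_
        rw [h3 i j]
        have h4 := formZ_out (n := n) (k := j) (Finset.mem_range.1 hj) hK
        unfold formZ at h4
        rw [h4]
        simp
  obtain ⟨x, hx⟩ := h1
  exact ⟨x, fun i hi hK => hx ⟨i, hi⟩ hK⟩

/-- The coefficient of `k` in its own form is positive, if `K` without `k` has full rank. -/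
theorem formZ_pos {k : ℕ} (hk : k < G.length) (hK : K.getD k false = true)
    (hfull : ∀ q : Fin n → ℝ, (∀ i < G.length, i ≠ k → K.getD i false = true →
      rdot n (G.getD i []) q = 0) → q = 0) : 0 < (formZ n G K k).getD k 0 := by
  obtain ⟨h1, h2⟩ := projZ_diag (rows := genZ n G K) (fun _ => genZ_len) hk
  rcases h1.lt_or_eq with h | h
  · exact h
  · exfalso
    have h3 := h2 h.symm
    obtain ⟨x, hx⟩ := formZ_solve (n := n) (G := G) (K := K)
      (β := fun i => if i = k then 1 else 0) (fun i hi _ => by
        rw [ldot_eq_sum _ _ G.length (formZ_len hi).le, Finset.sum_eq_single k]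
        · have := h3 i
          unfold formZ
          rw [this]
          simp
        · intro j _ hj
          rw [if_neg hj, mul_zero]
        · intro h; exact absurd (Finset.mem_range.2 hk) h)
    have h4 : x = 0 := hfull x fun i hi hne hiK => by
      have := hx i hi hiK
      rw [if_neg hne, zero_add] at this
      exact this
    have h5 := hx k hk hK
    rw [h4, if_pos rfl] at h5
    have h6 : rdot n (G.getD k []) 0 = 0 := (rlin n _).map_zero
    rw [h6] at h5
    norm_num at h5

end

/-- Value of a form at a right hand side. -/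
theorem rdot_padZ_ext0 {m : ℕ} (v : List ℤ) (w : Fin m → ℝ) {N : ℕ} (h : v.length ≤ N)
    (hm : m ≤ N) : rdot m (padZ m v) w = ldot v (ext0 m w) := by
  rw [ldot_eq_sum _ _ N h]
  unfold rdot
  have h1 : ∑ j ∈ Finset.range N, ((v.getD j 0 : ℤ) : ℝ) * ext0 m w j =
      ∑ j ∈ Finset.range m, ((v.getD j 0 : ℤ) : ℝ) * ext0 m w j := by
    symm
    refine Finset.sum_subset (Finset.range_subset_range.2 hm) fun j _ hj => ?_
    have : ¬ j < m := fun h => hj (Finset.mem_range.2 h)
    rw [ext0, dif_neg this, mul_zero]
  rw [h1, Finset.sum_range]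
  refine Finset.sum_congr rfl fun j _ => ?_
  rw [getD_padZ, if_pos j.2, ext0_fin]

/-- A constraint `(true, a)` means `a • w > 0`, a constraint `(false, a)` means `a • w ≥ 0`. -/
def Holds (N : ℕ) (w : Fin N → ℝ) (f : Bool × List ℤ) : Prop :=
  (f.1 = true → 0 < rdot N f.2 w) ∧ (f.1 = false → 0 ≤ rdot N f.2 w)

theorem holds_true {N : ℕ} {w : Fin N → ℝ} {a : List ℤ} : Holds N w (true, a) ↔ 0 < rdot N a w :=
  ⟨fun h => h.1 rfl, fun h => ⟨fun _ => h, fun h' => absurd h' (by simp)⟩⟩

theorem holds_false {N : ℕ} {w : Fin N → ℝ} {a : List ℤ} : Holds N w (false, a) ↔ 0 ≤ rdot N a w :=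
  ⟨fun h => h.2 rfl, fun h => ⟨fun h' => absurd h' (by simp), fun _ => h⟩⟩

theorem rdot_neg' (n : ℕ) (a : List ℤ) (x : Fin n → ℝ) : rdot n (negZ a) x = -rdot n a x := by
  unfold rdot
  rw [← Finset.sum_neg_distrib]
  refine Finset.sum_congr rfl fun j _ => ?_
  rw [getD_negZ]
  push_cast
  ring

/-- What the name `S` of a vertex says about the right hand side. -/
def nameFacts (m n : ℕ) (G : List (List ℤ)) (S : List Bool) : List (Bool × List ℤ) :=
  (List.range G.length).flatMap fun k =>
    if S.getD k false = true then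
      [(false, padZ m (formZ n G S k)), (false, negZ (padZ m (formZ n G S k)))]
    else [(true, padZ m (formZ n G (S.set k true) k))]

theorem nameFacts_len {m n : ℕ} {G : List (List ℤ)} {S : List Bool} {f : Bool × List ℤ}
    (hf : f ∈ nameFacts m n G S) : f.2.length = m := by
  unfold nameFacts at hf
  obtain ⟨k, -, hk⟩ := List.mem_flatMap.1 hf
  split_ifs at hk with h
  · rcases List.mem_cons.1 hk with rfl | hk
    · simp
    · rw [List.mem_singleton] at hk
      rw [hk]
      simp
  · rw [List.mem_singleton] at hk
    rw [hk]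
    simp

theorem nameFacts_iff {m n : ℕ} {G : List (List ℤ)} {S : List Bool} (hm : m ≤ G.length)
    (hS : S.length = G.length)
    (hfull : ∀ q : Fin n → ℝ, (∀ i < G.length, S.getD i false = true →
      rdot n (G.getD i []) q = 0) → q = 0) (w : Fin m → ℝ) :
    (∀ f ∈ nameFacts m n G S, Holds m w f) ↔ ∃ x : Fin n → ℝ, ∀ i < G.length,
      (S.getD i false = true → ext0 m w i + rdot n (G.getD i []) x = 0) ∧
      (S.getD i false = false → 0 < ext0 m w i + rdot n (G.getD i []) x) := by
  have hmem : (∀ f ∈ nameFacts m n G S, Holds m w f) ↔ ∀ k < G.length,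
      (S.getD k false = true → ldot (formZ n G S k) (ext0 m w) = 0) ∧
      (S.getD k false = false → 0 < ldot (formZ n G (S.set k true) k) (ext0 m w)) := by
    unfold nameFacts
    simp only [List.mem_flatMap, List.mem_range]
    constructor
    · intro h k hk
      constructor
      · intro h1
        have h2 := h (false, padZ m (formZ n G S k)) ⟨k, hk, by rw [if_pos h1]; simp⟩
        have h3 := h (false, negZ (padZ m (formZ n G S k))) ⟨k, hk, by rw [if_pos h1]; simp⟩
        rw [holds_false] at h2 h3
        rw [rdot_neg'] at h3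
        rw [rdot_padZ_ext0 _ _ (formZ_len hk).le hm] at h2 h3
        linarith
      · intro h1
        have h2 := h (true, padZ m (formZ n G (S.set k true) k)) ⟨k, hk, by
          rw [if_neg (by rw [h1]; simp)]; simp⟩
        rw [holds_true, rdot_padZ_ext0 _ _ (formZ_len hk).le hm] at h2
        exact h2
    · rintro h f ⟨k, hk, hf⟩
      cases h1 : S.getD k false with
      | true =>
        rw [if_pos h1] at hf
        have h2 := (h k hk).1 h1
        rcases List.mem_cons.1 hf with rfl | hf
        · rw [holds_false, rdot_padZ_ext0 _ _ (formZ_len hk).le hm, h2]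
        · rw [List.mem_singleton] at hf
          rw [hf, holds_false, rdot_neg', rdot_padZ_ext0 _ _ (formZ_len hk).le hm, h2, neg_zero]
      | false =>
        rw [if_neg (by rw [h1]; simp), List.mem_singleton] at hf
        rw [hf, holds_true, rdot_padZ_ext0 _ _ (formZ_len hk).le hm]
        exact (h k hk).2 h1
  rw [hmem]
  have hset : ∀ k i, i ≠ k → (S.set k true).getD i false = S.getD i false := by
    intro k i hik
    rw [List.getD_eq_getElem?_getD, List.getD_eq_getElem?_getD, List.getElem?_set_ne hik.symm]
  have hset' : ∀ k < G.length, (S.set k true).getD k false = true := by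
    intro k hk
    rw [List.getD_eq_getElem?_getD, List.getElem?_set_self (by omega)]
    rfl
  -- the value of the form of `k` at a solution
  have hval : ∀ x : Fin n → ℝ, ∀ k < G.length, S.getD k false = false →
      (∀ i < G.length, S.getD i false = true → ext0 m w i + rdot n (G.getD i []) x = 0) →
      ldot (formZ n G (S.set k true) k) (ext0 m w) =
        (((formZ n G (S.set k true) k).getD k 0 : ℤ) : ℝ) *
          (ext0 m w k + rdot n (G.getD k []) x) := by
    intro x k hk hkS hx
    have h1 := formZ_rel (n := n) (G := G) (K := S.set k true) hk x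
    have h2 : ldot (formZ n G (S.set k true) k) (ext0 m w) =
        ldot (formZ n G (S.set k true) k)
          (fun i => ext0 m w i + rdot n (G.getD i []) x) := by
      rw [ldot_add, h1, add_zero]
    rw [h2, ldot_eq_sum _ _ G.length (formZ_len hk).le, Finset.sum_eq_single k]
    · intro i hi hik
      have hi' := Finset.mem_range.1 hi
      cases h3 : S.getD i false with
      | true => rw [hx i hi' h3, mul_zero]
      | false =>
        rw [formZ_out hk (by rw [hset k i hik]; exact h3)]
        simp
    · intro h; exact absurd (Finset.mem_range.2 hk) h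
  have hpos : ∀ k < G.length, S.getD k false = false →
      (0 : ℝ) < (((formZ n G (S.set k true) k).getD k 0 : ℤ) : ℝ) := by
    intro k hk hkS
    have := formZ_pos (n := n) (G := G) (K := S.set k true) hk (hset' k hk) fun q hq => by
      refine hfull q fun i hi hiS => hq i hi ?_ ?_
      · rintro rfl
        rw [hkS] at hiS
        exact Bool.false_ne_true hiS
      · rw [hset k i]
        · exact hiS
        · rintro rfl
          rw [hkS] at hiS
          exact Bool.false_ne_true hiS
    exact_mod_cast this
  constructor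
  · intro h
    obtain ⟨x, hx⟩ := formZ_solve (n := n) (G := G) (K := S) (β := ext0 m w)
      fun k hk hkS => (h k hk).1 hkS
    refine ⟨x, fun i hi => ⟨hx i hi, fun hiS => ?_⟩⟩
    have h1 := (h i hi).2 hiS
    rw [hval x i hi hiS hx] at h1
    exact (mul_pos_iff_of_pos_left (hpos i hi hiS)).1 h1
  · rintro ⟨x, hx⟩ k hk
    have hx' : ∀ i < G.length, S.getD i false = true →
        ext0 m w i + rdot n (G.getD i []) x = 0 := fun i hi => (hx i hi).1
    constructor
    · intro hkS
      have h1 := formZ_rel (n := n) (G := G) (K := S) hk x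
      have h2 : ldot (formZ n G S k) (ext0 m w) =
          ldot (formZ n G S k) (fun i => ext0 m w i + rdot n (G.getD i []) x) := by
        rw [ldot_add, h1, add_zero]
      rw [h2, ldot_eq_sum _ _ G.length (formZ_len hk).le]
      refine Finset.sum_eq_zero fun i hi => ?_
      have hi' := Finset.mem_range.1 hi
      cases h3 : S.getD i false with
      | true => rw [hx' i hi' h3, mul_zero]
      | false =>
        rw [formZ_out hk h3]
        simp
    · intro hkS
      rw [hval x k hk hkS hx']
      exact mul_pos (hpos k hk hkS) ((hx k hk).2 hkS)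

end Pool.Agent.Simplex.EB
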