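import Pool.Agent.Lib.MP_4d246d_lc.QP.Data
import Pool.Agent.Lib.MP_4d246d_lc.EB.Forms
import Pool.Agent.Lib.MP_4d246d_lc.EB.Bridge

/-!
# What names of vertices and edges say about a linear program

The right hand side: `name_vertex_iff`. The objective: `dirZ_spec`, `obj_pos_iff`.
-/

namespace Pool.Agent.Simplex.EB

open QP Pool.Agent.Lib.PolyTime

/-! ### Directions of edges -/

/-- the vectors of the set `T` -/
def selZ (n : ℕ) (G : List (List ℤ)) (T : List Bool) : List (List ℤ) :=
  ((List.range G.length).filter fun i => T.getD i false).map fun i => padZ n (G.getD i [])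

/-- an integer direction of the edge `T` at the vertex `S` -/
def dirZ (n : ℕ) (G : List (List ℤ)) (S T : List Bool) : List ℤ :=
  match (List.range G.length).find? fun i => S.getD i false && !(T.getD i false) with
  | none => List.replicate n 0
  | some k => mulVecZ (projZ n (selZ n G T)).2 (padZ n (G.getD k []))

/-- an integer vector as a real vector -/
def realZ (n : ℕ) (v : List ℤ) : Fin n → ℝ := fun j => ((v.getD j 0 : ℤ) : ℝ)

theorem selZ_len {n : ℕ} {G : List (List ℤ)} {T : List Bool} {r : List ℤ} (hr : r ∈ selZ n G T) :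
    r.length = n := by
  obtain ⟨i, -, rfl⟩ := List.mem_map.1 hr
  simp

theorem dirZ_len (n : ℕ) (G : List (List ℤ)) (S T : List Bool) : (dirZ n G S T).length = n := by
  unfold dirZ
  cases (List.range G.length).find? fun i => S.getD i false && !(T.getD i false) with
  | none => simp
  | some k =>
    simp only [length_mulVecZ]
    exact (projZ_spec n (selZ n G T) fun _ => selZ_len).2.1

theorem rdot_padZ (n : ℕ) (v : List ℤ) (x : Fin n → ℝ) : rdot n (padZ n v) x = rdot n v x := by
  unfold rdot
  refine Finset.sum_congr rfl fun j _ => ?_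
  rw [getD_padZ, if_pos j.2]

theorem rdot_comm (n : ℕ) (u v : List ℤ) : rdot n u (realZ n v) = rdot n v (realZ n u) := by
  unfold rdot realZ
  exact Finset.sum_congr rfl fun j _ => mul_comm _ _

theorem dirZ_spec {n : ℕ} {G : List (List ℤ)} {S T : List Bool} {z : Fin n → ℝ}
    (h1 : ∀ i < G.length, T.getD i false = true → rdot n (G.getD i []) z = 0)
    (h2 : ∀ q : Fin n → ℝ, (∀ i < G.length, T.getD i false = true →
      rdot n (G.getD i []) q = 0) → ∃ t : ℝ, q = t • z)
    (h3 : ∀ i < G.length, S.getD i false = true → T.getD i false = false →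
      0 < rdot n (G.getD i []) z)
    (h4 : ∃ i < G.length, S.getD i false = true ∧ T.getD i false = false) :
    ∃ t : ℝ, 0 < t ∧ realZ n (dirZ n G S T) = t • z := by
  obtain ⟨k, hk⟩ : ∃ k, (List.range G.length).find?
      (fun i => S.getD i false && !(T.getD i false)) = some k := by
    rw [← Option.isSome_iff_exists, List.find?_isSome]
    obtain ⟨i, hi, hS, hT⟩ := h4
    exact ⟨i, List.mem_range.2 hi, by rw [hS, hT]; rfl⟩
  have hkM : k < G.length := List.mem_range.1 (List.mem_of_find?_eq_some hk)
  have hkp := List.find?_some hk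
  rw [Bool.and_eq_true, Bool.not_eq_true'] at hkp
  have hd : dirZ n G S T = mulVecZ (projZ n (selZ n G T)).2 (padZ n (G.getD k [])) := by
    unfold dirZ
    rw [hk]
  obtain ⟨hD, hl, hr, hsym, hann, hfix⟩ := projZ_spec n (selZ n G T) fun _ => selZ_len
  set P := (projZ n (selZ n G T)).2 with hP
  set g := padZ n (G.getD k []) with hg
  have hD' : (0 : ℝ) < ((projZ n (selZ n G T)).1 : ℝ) := by exact_mod_cast hD
  have hu : ∀ j : Fin n, realZ n (dirZ n G S T) j =
      ∑ l : Fin n, (((P.getD j []).getD l 0 : ℤ) : ℝ) * ((g.getD l 0 : ℤ) : ℝ) := by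
    intro j
    unfold realZ
    rw [hd, getD_mulVecZ, dotZ_eq_fin _ _ n (Or.inr (by simp [hg]))]
    push_cast
    rfl
  -- the direction is killed by `T`
  have hTu : ∀ i < G.length, T.getD i false = true →
      rdot n (G.getD i []) (realZ n (dirZ n G S T)) = 0 := by
    intro i hi hiT
    have hmem : padZ n (G.getD i []) ∈ selZ n G T := by
      unfold selZ
      refine List.mem_map.2 ⟨i, ?_, rfl⟩
      rw [List.mem_filter, List.mem_range]
      exact ⟨hi, hiT⟩
    have h5 : ∀ l : Fin n, ∑ j : Fin n, (((G.getD i []).getD j 0 : ℤ) : ℝ) *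
        (((P.getD j []).getD l 0 : ℤ) : ℝ) = 0 := by
      intro l
      have h6 := hann _ hmem (P.getD l []) (getD_mem (by rw [hl]; exact l.2))
      rw [dotZ_eq_fin _ _ n (Or.inr (by simp))] at h6
      have h7 : ((∑ j : Fin n, (P.getD l []).getD j 0 * (padZ n (G.getD i [])).getD j 0 : ℤ) : ℝ)
          = 0 := by exact_mod_cast h6
      push_cast at h7
      rw [← h7]
      refine Finset.sum_congr rfl fun j _ => ?_
      rw [hsym j l, getD_padZ, if_pos j.2, mul_comm]
    unfold rdot
    simp only [hu, Finset.mul_sum]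
    rw [Finset.sum_comm]
    refine Finset.sum_eq_zero fun l _ => ?_
    have h8 : ∀ j : Fin n, (((G.getD i []).getD j 0 : ℤ) : ℝ) *
        ((((P.getD j []).getD l 0 : ℤ) : ℝ) * ((g.getD l 0 : ℤ) : ℝ)) =
        (((G.getD i []).getD j 0 : ℤ) : ℝ) * (((P.getD j []).getD l 0 : ℤ) : ℝ) *
          ((g.getD l 0 : ℤ) : ℝ) := fun j => by ring
    simp only [h8]
    rw [← Finset.sum_mul, h5 l, zero_mul]
  obtain ⟨t, ht⟩ := h2 _ hTu
  refine ⟨t, ?_, ht⟩
  -- the projector fixes `z`
  have hPz : ∀ l : Fin n, ∑ j : Fin n, (((P.getD l []).getD j 0 : ℤ) : ℝ) * z j =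
      ((projZ n (selZ n G T)).1 : ℝ) * z l := by
    intro l
    have h5 := hfix (ext0 n z) (fun r hr' => by
      obtain ⟨i, hi, rfl⟩ := List.mem_map.1 hr'
      rw [List.mem_filter, List.mem_range] at hi
      have h6 := h1 i hi.1 hi.2
      rw [ldot_padZ]
      simp only [ext0_fin]
      exact h6) l l.2
    rw [ldot_eq_fin _ _ n (by rw [hr _ (getD_mem (by rw [hl]; exact l.2))]), ext0_fin] at h5
    rw [← h5]
    exact Finset.sum_congr rfl fun j _ => by rw [ext0_fin]
  have huz : ∑ j : Fin n, realZ n (dirZ n G S T) j * z j =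
      ((projZ n (selZ n G T)).1 : ℝ) * rdot n (G.getD k []) z := by
    simp only [hu, Finset.sum_mul]
    rw [Finset.sum_comm]
    unfold rdot
    rw [Finset.mul_sum]
    refine Finset.sum_congr rfl fun l _ => ?_
    have h8 : ∀ j : Fin n, (((P.getD j []).getD l 0 : ℤ) : ℝ) * ((g.getD l 0 : ℤ) : ℝ) * z j =
        ((g.getD l 0 : ℤ) : ℝ) * ((((P.getD l []).getD j 0 : ℤ) : ℝ) * z j) := fun j => by
      rw [hsym j l]; ring
    simp only [h8]
    rw [← Finset.mul_sum, hPz l, hg, getD_padZ, if_pos l.2]
    ring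
  have hpos : 0 < ∑ j : Fin n, realZ n (dirZ n G S T) j * z j := by
    rw [huz]
    exact mul_pos hD' (h3 k hkM hkp.1 hkp.2)
  rw [ht] at hpos
  have h9 : ∑ j : Fin n, (t • z) j * z j = t * ∑ j : Fin n, z j * z j := by
    rw [Finset.mul_sum]
    refine Finset.sum_congr rfl fun j _ => ?_
    rw [Pi.smul_apply, smul_eq_mul]
    ring
  rw [h9] at hpos
  by_contra hneg
  push Not at hneg
  have h10 : 0 ≤ ∑ j : Fin n, z j * z j := Finset.sum_nonneg fun j _ => mul_self_nonneg _
  have := mul_nonpos_of_nonpos_of_nonneg hneg h10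
  linarith

/-! ### The integer data of a matrix -/

/-- multiples of `-A_i`, then the unit vectors -/
def gZ (n : ℕ) (rows : List (List ℚ)) : List (List ℤ) :=
  rows.map (fun r => negZ (clr (denZ r) r)) ++ idZ n

/-- the positive factors -/
noncomputable def sc {m n : ℕ} (A : Fin m → Fin n → ℚ) (i : ℕ) : ℝ :=
  if h : i < m then ((denZ (List.ofFn (A ⟨i, h⟩)) : ℤ) : ℝ) else 1

theorem sc_pos {m n : ℕ} (A : Fin m → Fin n → ℚ) (i : ℕ) : 0 < sc A i := by
  unfold sc
  split_ifs
  · exact_mod_cast denZ_pos _
  · exact one_pos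

namespace RLP

variable {m n : ℕ} (D : RLP m n)

/-- the integer vectors of a program -/
def gen : List (List ℤ) := gZ D.mat.1 D.mat.2

theorem gen_len : D.gen.length = m + n := by
  simp [gen, gZ, mat]

theorem gen_congr {D D' : RLP m n} (h : D.A = D'.A) : D.gen = D'.gen := by
  simp only [gen, mat, h]

theorem mem_gen_len {g : List ℤ} (hg : g ∈ D.gen) : g.length = n := by
  unfold gen gZ mat at hg
  rcases List.mem_append.1 hg with hg | hg
  · obtain ⟨r, hr, rfl⟩ := List.mem_map.1 hg
    obtain ⟨i, rfl⟩ := List.mem_ofFn.1 hr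
    simp [clr]
  · unfold idZ at hg
    obtain ⟨i, -, rfl⟩ := List.mem_map.1 hg
    simp

theorem rdot_gen {i : ℕ} (hi : i < m + n) (x : Fin n → ℝ) :
    rdot n (D.gen.getD i []) x = sc D.A i * D.sys.ln i x := by
  by_cases him : i < m
  · have h1 : D.gen.getD i [] = negZ (clr (denZ (List.ofFn (D.A ⟨i, him⟩)))
        (List.ofFn (D.A ⟨i, him⟩))) := by
      unfold gen gZ mat
      rw [List.getD_append _ _ _ _ (by simpa using him),
        List.getD_eq_getElem _ _ (by simpa using him)]
      simp
    rw [h1, rdot_neg', rdot_clr _ (fun j => den_dvd (List.mem_ofFn.2 ⟨j, rfl⟩)), D.sys_ln,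
      lnA_row D.A ⟨i, him⟩, sc, dif_pos him]
    ring
  · obtain ⟨j, rfl⟩ := Nat.exists_eq_add_of_le (not_lt.1 him)
    have hj : j < n := by omega
    have h1 : D.gen.getD (m + j) [] = unitZ n j := by
      unfold gen gZ mat
      rw [List.getD_append_right _ _ _ _ (by simp)]
      simp only [List.length_map, List.length_ofFn, add_tsub_cancel_left]
      unfold idZ
      rw [getD_map_range, if_pos hj]
    rw [h1, D.sys_ln, lnA_var D.A ⟨j, hj⟩, sc, dif_neg him, one_mul]
    unfold rdot
    rw [Finset.sum_eq_single (⟨j, hj⟩ : Fin n)]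
    · rw [getD_unitZ, if_pos ⟨hj, rfl⟩]
      simp
    · intro k _ hk
      rw [getD_unitZ, if_neg (fun h => hk (Fin.ext h.2))]
      simp
    · intro h; exact absurd (Finset.mem_univ _) h

/-- the right hand side in the units of the integer vectors -/
noncomputable def rhs : Fin m → ℝ := fun i => sc D.A i * D.b i

theorem ext0_rhs {i : ℕ} : ext0 m D.rhs i = sc D.A i * D.cst i := by
  unfold ext0 rhs cst
  by_cases h : i < m
  · rw [dif_pos h, dif_pos h]
  · rw [dif_neg h, dif_neg h, mul_zero]

theorem slack_eq {i : ℕ} (hi : i < m + n) (x : Fin n → ℝ) :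
    ext0 m D.rhs i + rdot n (D.gen.getD i []) x = sc D.A i * D.sys.sl i x := by
  rw [D.ext0_rhs, D.rdot_gen hi]
  show _ = sc D.A i * (D.cst i + lnA D.A i x)
  rw [D.sys_ln]
  ring

/-- the facts about the right hand side shown by a name -/
def nameFacts (S : List Bool) : List (Bool × List ℤ) := EB.nameFacts m n D.gen S

/-- The facts shown by the name of a vertex of `D` hold for the right hand side of a program `D'`
with the same matrix if and only if `D'` has a vertex with this name. -/
theorem name_vertex_iff {D D' : RLP m n} (hA : D.A = D'.A) {x : Fin n → ℝ} (hx : D.Vertex x) :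
    (∀ f ∈ D.nameFacts (D.name x), Holds m D'.rhs f) ↔
      ∃ x', D'.Vertex x' ∧ D'.name x' = D.name x := by
  have hgen := gen_congr hA
  unfold nameFacts
  rw [nameFacts_iff (by rw [D.gen_len]; omega) (by rw [D.length_name, D.gen_len])]
  · refine exists_congr fun x' => ?_
    rw [D.gen_len, hgen]
    constructor
    · intro h
      have hsl : ∀ i < m + n, (D.sys.sl i x = 0 → D'.sys.sl i x' = 0) ∧
          (D.sys.sl i x ≠ 0 → 0 < D'.sys.sl i x') := by
        intro i hi
        have hsc := sc_pos D'.A i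
        constructor
        · intro h0
          have h1 := (h i hi).1 ((D.getD_name x hi).2 h0)
          rw [D'.slack_eq hi] at h1
          exact (mul_eq_zero.1 h1).resolve_left hsc.ne'
        · intro h0
          have h1 := (h i hi).2 (by
            rw [← Bool.not_eq_true, D.getD_name x hi]
            exact h0)
          rw [D'.slack_eq hi] at h1
          exact (mul_pos_iff_of_pos_left hsc).1 h1
      have hname : D'.name x' = D.name x := by
        rw [name_congr]
        intro i hi
        constructor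
        · intro h0
          by_contra h1
          have := (hsl i hi).2 h1
          rw [h0] at this
          exact lt_irrefl _ this
        · exact (hsl i hi).1
      refine ⟨D'.vertex_iff.2 ⟨(Sys.mem_P _).2 fun i hi => ?_, ?_⟩, hname⟩
      · by_cases h0 : D.sys.sl i x = 0
        · exact ((hsl i hi).1 h0).ge
        · exact ((hsl i hi).2 h0).le
      · exact (vx_congr hA hname.symm).1 hx.vx
    · rintro ⟨hx', hname⟩ i hi
      rw [D'.slack_eq hi, D.getD_name x hi]
      have hsc := sc_pos D'.A i
      have h0 := name_congr.1 hname i hi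
      constructor
      · intro h1
        rw [h0.2 h1, mul_zero]
      · intro h1
        rw [← Bool.not_eq_true, D.getD_name x hi, ← h0] at h1
        exact mul_pos hsc (lt_of_le_of_ne ((Sys.mem_P _).1 hx'.mem i hi) (Ne.symm h1))
  · intro q hq
    refine hx.vx q fun i hi h0 => ?_
    have h1 := hq i (by rw [D.gen_len]; exact hi) ((D.getD_name x hi).2 h0)
    rw [D.rdot_gen hi] at h1
    exact (mul_eq_zero.1 h1).resolve_left (sc_pos D.A i).ne'

/-- The direction of an edge. -/
theorem dir_spec {D : RLP m n} {x z : Fin n → ℝ} (hx : D.Vertex x)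
    (hz : D.sys.Dir (m + n) x z) : ∃ t : ℝ, 0 < t ∧
      realZ n (dirZ n D.gen (D.name x) (D.edgeName x z)) = t • z := by
  apply dirZ_spec
  · intro i hi hT
    rw [D.gen_len] at hi
    rw [D.rdot_gen hi, ((D.getD_edgeName x z hi).1 hT).2, mul_zero]
  · intro q hq
    refine hz.2.2.2 q fun i hi => ?_
    obtain ⟨h1, h2, h3⟩ := D.sys.mem_T.1 hi
    have h4 := hq i (by rw [D.gen_len]; exact h1) ((D.getD_edgeName x z h1).2 ⟨h2, h3⟩)
    rw [D.rdot_gen h1] at h4
    exact (mul_eq_zero.1 h4).resolve_left (sc_pos D.A i).ne'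
  · intro i hi hS hT
    rw [D.gen_len] at hi
    rw [D.getD_name x hi] at hS
    rw [← Bool.not_eq_true, D.getD_edgeName x z hi] at hT
    rw [D.rdot_gen hi]
    exact mul_pos (sc_pos D.A i) (lt_of_le_of_ne (hz.1 i hi hS) fun h => hT ⟨hS, h.symm⟩)
  · obtain ⟨i, hi, h1, h2⟩ := D.sys.exists_tight hx.vx hz.2.1
    refine ⟨i, by rw [D.gen_len]; exact hi, (D.getD_name x hi).2 h1, ?_⟩
    rw [← Bool.not_eq_true, D.getD_edgeName x z hi]
    exact fun h => h2 h.2

theorem rdot_c (v : List ℤ) : rdot n v D.c = D.obj (realZ n v) := by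
  unfold rdot obj realZ
  exact Finset.sum_congr rfl fun j _ => mul_comm _ _

/-- The objective increases along the edge. -/
theorem obj_pos_iff {D D' : RLP m n} {x z : Fin n → ℝ} (hx : D.Vertex x)
    (hz : D.sys.Dir (m + n) x z) :
    Holds n D'.c (true, dirZ n D.gen (D.name x) (D.edgeName x z)) ↔ 0 < D'.obj z := by
  obtain ⟨t, ht, h⟩ := dir_spec hx hz
  rw [holds_true, D'.rdot_c, h, D'.obj_smul]
  exact mul_pos_iff_of_pos_left ht

/-- The objective does not increase along the edge. -/
theorem obj_nonpos_iff {D D' : RLP m n} {x z : Fin n → ℝ} (hx : D.Vertex x)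
    (hz : D.sys.Dir (m + n) x z) :
    Holds n D'.c (false, negZ (dirZ n D.gen (D.name x) (D.edgeName x z))) ↔ D'.obj z ≤ 0 := by
  obtain ⟨t, ht, h⟩ := dir_spec hx hz
  rw [holds_false, rdot_neg', D'.rdot_c, h, D'.obj_smul, neg_nonneg]
  constructor
  · intro h1
    by_contra h2
    push Not at h2
    have := mul_pos ht h2
    linarith
  · intro h1
    exact mul_nonpos_of_nonneg_of_nonpos ht.le h1

/-- The name of the edge to a neighbour. -/
theorem edgeName_sub (x y : Fin n → ℝ) :
    D.edgeName x (y - x) = List.zipWith (fun a b => a && b) (D.name x) (D.name y) := by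
  classical
  rw [D.edgeName_eq, D.name_eq, D.name_eq, List.zipWith_map, List.zipWith_self]
  refine List.map_congr_left fun i _ => ?_
  rw [D.sys.ln_sub]
  by_cases h1 : D.sys.sl i x = 0 <;> by_cases h2 : D.sys.sl i y = 0 <;> simp [h1, h2]

end RLP

end Pool.Agent.Simplex.EB

namespace Pool.Agent.Lib.PolyTime

open Pool.Agent.Simplex.QP Pool.Agent.Simplex.EB

section

variable {α : Type*} [TEnc α]

namespace PolyF

theorem genZ {n : α → ℕ} {G : α → List (List ℤ)} {K : α → List Bool} (hn : PolyF n)
    (hG : PolyF G) (hK : PolyF K) : PolyF (fun x => genZ (n x) (G x) (K x)) := by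
  refine append ?_ ?_
  · refine hn.range.map (h := fun x j => (List.range (G x).length).map fun i =>
      if (K x).getD i false = true then ((G x).getD i []).getD j 0 else 0) ?_
    refine ((hG.comp fst').length.range).map (h := fun (p : α × ℕ) i =>
      if (K p.1).getD i false = true then ((G p.1).getD i []).getD p.2 0 else 0) ?_
    refine ite (p := fun q : (α × ℕ) × ℕ => (K q.1.1).getD q.2 false = true) ?_ ?_ (const 0)
    · exact (((hK.comp fst'.fst).getDL snd' (const false))).congr fun q => by simp
    · exact ((hG.comp fst'.fst).getDL snd' (const [])).getDZ fst'.snd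
  · exact ((hG.length.range.filter (p := fun x i => !((K x).getD i false))
      (((hK.comp fst').getDL snd' (const false)).not)).map
      (h := fun x i => Pool.Agent.Simplex.QP.unitZ (G x).length i)
      (PolyF.unitZ (hG.comp fst').length snd'))

theorem formZ {n k : α → ℕ} {G : α → List (List ℤ)} {K : α → List Bool} (hn : PolyF n)
    (hG : PolyF G) (hK : PolyF K) (hk : PolyF k) : PolyF (fun x => formZ (n x) (G x) (K x) (k x)) :=
  ((PolyF.projZ projBound hG.length (PolyF.genZ hn hG hK) fun _ _ => genZ_len).snd).getDL hk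
    (const [])

theorem nameFacts {m n : α → ℕ} {G : α → List (List ℤ)} {S : α → List Bool} (hm : PolyF m)
    (hn : PolyF n) (hG : PolyF G) (hS : PolyF S) :
    PolyF (fun x => nameFacts (m x) (n x) (G x) (S x)) := by
  refine hG.length.range.flatMap (h := fun x k => if (S x).getD k false = true then
      [(false, Pool.Agent.Simplex.QP.padZ (m x)
          (Pool.Agent.Simplex.EB.formZ (n x) (G x) (S x) k)),
        (false, Pool.Agent.Simplex.QP.negZ (Pool.Agent.Simplex.QP.padZ (m x)
          (Pool.Agent.Simplex.EB.formZ (n x) (G x) (S x) k)))]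
    else [(true, Pool.Agent.Simplex.QP.padZ (m x)
      (Pool.Agent.Simplex.EB.formZ (n x) (G x) ((S x).set k true) k))]) ?_
  have hf : PolyF (fun p : α × ℕ =>
      Pool.Agent.Simplex.EB.formZ (n p.1) (G p.1) (S p.1) p.2) :=
    PolyF.formZ (hn.comp fst') (hG.comp fst') (hS.comp fst') snd'
  have hf' : PolyF (fun p : α × ℕ =>
      Pool.Agent.Simplex.EB.formZ (n p.1) (G p.1) ((S p.1).set p.2 true) p.2) :=
    PolyF.formZ (hn.comp fst') (hG.comp fst') (snd'.set (hS.comp fst') (const true)) snd'
  refine ite (p := fun p : α × ℕ => (S p.1).getD p.2 false = true) ?_ ?_ ?_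
  · exact (((hS.comp fst').getDL snd' (const false))).congr fun q => by simp
  · exact ((const false).pair (PolyF.padZ (hm.comp fst') hf)).cons
      (((const false).pair (PolyF.negZ (PolyF.padZ (hm.comp fst') hf))).singleton)
  · exact ((const true).pair (PolyF.padZ (hm.comp fst') hf')).singleton

theorem selZ {n : α → ℕ} {G : α → List (List ℤ)} {T : α → List Bool} (hn : PolyF n)
    (hG : PolyF G) (hT : PolyF T) : PolyF (fun x => selZ (n x) (G x) (T x)) :=
  (hG.length.range.filter (p := fun x i => (T x).getD i false)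
    ((hT.comp fst').getDL snd' (const false))).map
    (h := fun x i => Pool.Agent.Simplex.QP.padZ (n x) ((G x).getD i []))
    (PolyF.padZ (hn.comp fst') ((hG.comp fst').getDL snd' (const [])))

theorem dirZ {n : α → ℕ} {G : α → List (List ℤ)} {S T : α → List Bool} (hn : PolyF n)
    (hG : PolyF G) (hS : PolyF S) (hT : PolyF T) :
    PolyF (fun x => dirZ (n x) (G x) (S x) (T x)) := by
  refine optionCases (g := fun x => List.replicate (n x) (0 : ℤ))
    (h := fun p : α × ℕ => Pool.Agent.Simplex.QP.mulVecZ
      (Pool.Agent.Simplex.QP.projZ (n p.1) (Pool.Agent.Simplex.EB.selZ (n p.1) (G p.1) (T p.1))).2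
      (Pool.Agent.Simplex.QP.padZ (n p.1) ((G p.1).getD p.2 [])))
    (hG.length.range.find? (p := fun x i => (S x).getD i false && !((T x).getD i false))
      (((hS.comp fst').getDL snd' (const false)).and
        ((hT.comp fst').getDL snd' (const false)).not))
    (PolyF.replicate hn (const 0)) ?_ (fun x h => ?_) (fun x b h => ?_)
  · exact PolyF.mulVecZ ((PolyF.projZ projBound (hn.comp fst')
      ((PolyF.selZ hn hG hT).comp fst') fun _ _ => selZ_len).snd)
      (PolyF.padZ (hn.comp fst') ((hG.comp fst').getDL snd' (const [])))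
  · simp only [Pool.Agent.Simplex.EB.dirZ, h]
  · simp only [Pool.Agent.Simplex.EB.dirZ, h]

theorem gZ {n : α → ℕ} {rows : α → List (List ℚ)} (hn : PolyF n) (hr : PolyF rows) :
    PolyF (fun x => gZ (n x) (rows x)) :=
  (hr.map (h := fun _ r => Pool.Agent.Simplex.QP.negZ (Pool.Agent.Simplex.QP.clr
    (Pool.Agent.Simplex.QP.denZ r) r)) (PolyF.negZ (PolyF.clr (PolyF.denZ snd') snd'))).append
    (PolyF.idZ hn)

end PolyF

end

end Pool.Agent.Lib.PolyTime
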