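import Pool.Agent.Lib.MP_4d246d_lc.EB.Final
import Pool.Agent.Lib.MP_4d246d_lc.QM.WidthDat

/-!
# A blind rule for programs with nested block structure
-/

namespace Pool.Agent.Simplex.EB

open QP Pool.Agent.Lib.PolyTime Turing

/-- Nested block structure of a matrix. -/
def Nested {m n : ℕ} (A : Fin m → Fin n → ℚ) (rs : List ℕ) (s t : ℕ) : Prop :=
  (⟨A, 0, 0⟩ : QLP m n).Nested rs s t

theorem getD_ofFn' {α : Type*} {k : ℕ} (f : Fin k → α) (d : α) {i : ℕ} (h : i < k) :
    (List.ofFn f).getD i d = f ⟨i, h⟩ := by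
  rw [List.getD_eq_getElem _ _ (by rw [List.length_ofFn]; exact h), List.getElem_ofFn]

theorem nested_plus {m n : ℕ} {A : Fin m → Fin n → ℚ} {rs : List ℕ} {s t : ℕ}
    (h : Nested A rs s t) (lp : QLP (m + 1) n)
    (hA : ∀ (i : Fin m) (j : Fin n), lp.A i.castSucc j = A i j) : lp.Nested (1 :: rs) s t := by
  classical
  obtain ⟨f, lv, g, h1, h2, h3, h4, h5⟩ := h
  dsimp only at h3
  let f' : ℕ → Fin n → ℕ := fun l => match l with
    | 0 => fun _ => 0
    | l + 1 => f l
  let lv' : Fin (m + 1) → ℕ := Fin.lastCases 0 (fun i => lv i + 1)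
  let g' : Fin (m + 1) → ℕ := Fin.lastCases 0 g
  have elv : ∀ i : Fin m, lv' i.castSucc = lv i + 1 := fun i => by
    show (Fin.lastCases 0 (fun i => lv i + 1) i.castSucc : ℕ) = _
    rw [Fin.lastCases_castSucc]
  have eg : ∀ i : Fin m, g' i.castSucc = g i := fun i => by
    show (Fin.lastCases 0 g i.castSucc : ℕ) = _
    rw [Fin.lastCases_castSucc]
  have elvl : lv' (Fin.last m) = 0 := by
    show (Fin.lastCases 0 (fun i => lv i + 1) (Fin.last m) : ℕ) = _
    rw [Fin.lastCases_last]
  have egl : g' (Fin.last m) = 0 := by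
    show (Fin.lastCases 0 g (Fin.last m) : ℕ) = _
    rw [Fin.lastCases_last]
  have hcard : ∀ l k, (Finset.univ.filter fun i => lv' i = l + 1 ∧ g' i = k).card =
      (Finset.univ.filter fun i => lv i = l ∧ g i = k).card := by
    intro l k
    refine Eq.trans (b := ((Finset.univ.filter fun i => lv i = l ∧ g i = k).map
      Fin.castSuccEmb).card) (congrArg Finset.card ?_) (Finset.card_map _)
    ext i
    simp only [Finset.mem_filter, Finset.mem_univ, true_and, Finset.mem_map,
      Fin.coe_castSuccEmb]
    constructor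
    · rintro ⟨ha, hb⟩
      induction i using Fin.lastCases with
      | last => rw [elvl] at ha; omega
      | cast i =>
        rw [elv] at ha
        rw [eg] at hb
        exact ⟨i, ⟨by omega, hb⟩, rfl⟩
    · rintro ⟨i, ⟨ha, hb⟩, rfl⟩
      exact ⟨by rw [elv, ha], by rw [eg, hb]⟩
  refine ⟨f', lv', g', fun l j j' => ?_, fun i => ?_, fun i j => ?_, fun l hl k => ?_,
    fun k => ?_⟩
  · cases l with
    | zero => exact fun _ => rfl
    | succ l => exact h1 l j j'
  · induction i using Fin.lastCases with
    | last => rw [elvl]; exact Nat.zero_le _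
    | cast i =>
      rw [elv, List.length_cons]
      exact Nat.succ_le_succ (h2 i)
  · induction i using Fin.lastCases with
    | last => intro _; rw [elvl, egl]
    | cast i =>
      rw [elv, eg, hA]
      exact h3 i j
  · cases l with
    | zero =>
      refine le_trans (Finset.card_le_card (t := {Fin.last m}) ?_) (by simp)
      intro i hi
      rw [Finset.mem_filter] at hi
      rw [Finset.mem_singleton]
      induction i using Fin.lastCases with
      | last => rfl
      | cast i => rw [elv] at hi; omega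
    | succ l =>
      rw [hcard]
      rw [List.length_cons] at hl
      exact h4 l (by omega) k
  · rw [List.length_cons]
    rcases h5 k with h6 | ⟨h6, h7⟩
    · exact Or.inl ((hcard _ _).trans_le h6)
    · exact Or.inr ⟨h6, (hcard _ _).trans_le h7⟩

theorem branch_one (rs : List ℕ) : QLP.branch (1 :: rs) = 3 * QLP.branch rs := by
  unfold QLP.branch
  rw [List.map_cons, List.prod_cons]

/-- The library's version of the simplex method on programs with nested block structure. -/
theorem widthEngine_nested : ∃ Q : Polynomial ℕ, ∀ (m n : ℕ) (D : RLP m n) (rs : List ℕ)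
    (s t : ℕ), Nested D.A rs s t → ∀ L : ℕ, widthEngine.Bound (plusM D.mat) L
      (Q.eval L * pivotBound (3 * QLP.branch rs * (2 * s + 1))
        (3 * QLP.branch rs * (3 * s + t + 2))) := by
  obtain ⟨Q, hQ⟩ := QP.numPB_width
  refine ⟨Q, fun m n D rs s t h L I hI hL => ?_⟩
  have hrows : (plusM D.mat).2.length = m + 1 := by
    unfold plusM RLP.mat
    rw [List.length_append, List.length_ofFn, List.length_singleton]
  have hd := dims_of_mat (m := m + 1) (n := n) (rows := (plusM D.mat).2) hI hrows
  obtain ⟨m', n', lp, v, hv⟩ := I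
  obtain ⟨h1, h2⟩ := hd
  dsimp only at h1 h2 hI
  subst h1
  subst h2
  have hA : ∀ (i : Fin m) (j : Fin n'), lp.A i.castSucc j = D.A i j := by
    intro i j
    have e1 : (ofQ lp).mat.2 = (D.plus 0).mat.2 := by rw [hI, RLP.plus_mat]
    have e2 : ((ofQ lp).mat.2.getD i []).getD j 0 = ((D.plus 0).mat.2.getD i []).getD j 0 := by
      rw [e1]
    unfold RLP.mat at e2
    dsimp only at e2
    rw [getD_ofFn' _ _ (by omega : (i : ℕ) < m + 1), getD_ofFn' _ _ (by omega : (i : ℕ) < m + 1),
      getD_ofFn' _ _ j.2, getD_ofFn' _ _ j.2] at e2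
    have e3 : (D.plus 0).A ⟨i, by omega⟩ ⟨j, j.2⟩ = D.A i j := by
      show (if h : (i : ℕ) < m then D.A ⟨i, h⟩ else fun _ => 1 : Fin n' → ℚ) j = _
      rw [dif_pos i.2]
    exact e2.trans e3
  have hw := (nested_plus h lp hA).width
  rw [branch_one] at hw
  have h1 := hQ ⟨m + 1, n', lp, v, hv⟩ _ _ fun x _ hx ht => QP.faceJ_width _ hw hx ht
  exact h1.trans (Nat.mul_le_mul_right _ (peval_mono Q hL))

/-- **A quasi-polynomial blind rule that is polynomial on programs with a nested block structure
of small width.** -/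
theorem exists_quasi_nested : ∃ (ρ : BlindRule) (P : Polynomial ℕ), ρ.Poly ∧
    ∀ (m n : ℕ) (D : RLP m n),
      Solves ρ D (P.eval D.size * pivotBound (min n (m + 2)) (min (m + n + 1) (2 * m + 3))) ∧
      ∀ rs s t, Nested D.A rs s t → Solves ρ D (P.eval D.size *
        pivotBound (3 * QLP.branch rs * (2 * s + 1)) (3 * QLP.branch rs * (3 * s + t + 2))) := by
  obtain ⟨ρ, P, hρ, hP⟩ := blind_of_engine widthEngine
  obtain ⟨Q, hQ⟩ := widthEngine_nested
  refine ⟨ρ, P * (Q.comp P + 4), hρ.tm2_word, fun m n D => ⟨?_, fun rs s t hD => ?_⟩⟩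
  · have hrows : (plusM D.mat).2.length = m + 1 := by
      unfold plusM RLP.mat
      rw [List.length_append, List.length_ofFn, List.length_singleton]
    have h1 := hP m n D _ (widthEngine_bound (m := m + 1) (n := n) hrows (P.eval D.size))
    refine h1.mono ?_
    have e1 : m + 1 + n = m + n + 1 := by ring
    have e2 : 2 * (m + 1) + 1 = 2 * m + 3 := by ring
    have e3 : m + 1 + 1 = m + 2 := by ring
    rw [e1, e2, e3, Polynomial.eval_mul, Polynomial.eval_add, Polynomial.eval_comp,
      Polynomial.eval_ofNat]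
    have h2 := pivotBound_pos (min n (m + 2)) (min (m + n + 1) (2 * m + 3))
    generalize pivotBound (min n (m + 2)) (min (m + n + 1) (2 * m + 3)) = x at *
    rw [mul_assoc]
    refine Nat.mul_le_mul_left _ ?_
    have h3 : 4 * x ≤ (Q.eval (P.eval D.size) + 4) * x := Nat.mul_le_mul_right _ (by omega)
    omega
  · have h1 := hP m n D _ (hQ m n D rs s t hD (P.eval D.size))
    refine h1.mono ?_
    rw [Polynomial.eval_mul, Polynomial.eval_add, Polynomial.eval_comp, Polynomial.eval_ofNat]
    have h2 := pivotBound_pos (3 * QLP.branch rs * (2 * s + 1))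
      (3 * QLP.branch rs * (3 * s + t + 2))
    generalize pivotBound (3 * QLP.branch rs * (2 * s + 1))
      (3 * QLP.branch rs * (3 * s + t + 2)) = x at *
    rw [mul_assoc]
    refine Nat.mul_le_mul_left _ ?_
    rw [add_mul]
    omega

end Pool.Agent.Simplex.EB
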