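import Pool.Agent.Lib.MP_4d246d_lc.EB.Opt3
import Pool.Agent.Lib.MP_4d246d_lc.EB.SlimFin

/-!
# One optimal blind rule: transportation programs
-/

namespace Pool.Agent.Simplex.EB

open Pool.Agent.Lib.PolyTime Pool.Agent.Simplex.QP Turing

/-- Question 1 is the question whether the optimal rule is polynomial on the transportation
programs for `r × c × 3` tables. -/
theorem Optimal.slim_iff {U : BlindRule} (hU : Optimal U) (hp : U.Poly) :
    PolySimplex ↔ ∃ P : Polynomial ℕ, ∀ (r c : ℕ) (s : Fin (lines r c) → ℝ)
      (cost : Fin (3 * (r * c)) → ℝ), Solves U (transport r c s cost) (P.eval (r + c)) := by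
  constructor
  · intro h
    obtain ⟨P, hP⟩ := (hU.poly_iff hp).1 h
    obtain ⟨Q, hQ⟩ := size_tmat
    refine ⟨P.comp (2 * Q + 1), fun r c s cost => (hP _ _ _).mono ?_⟩
    rw [Polynomial.eval_comp]
    refine peval_mono P ?_
    have h1 : (transport r c s cost).size = 2 * sz (transport r c s cost).mat + 1 :=
      length_wd _ _ _
    rw [transport_mat] at h1
    have h2 := hQ r c
    rw [h1]
    simp only [Polynomial.eval_add, Polynomial.eval_mul, Polynomial.eval_ofNat,
      Polynomial.eval_one]
    omega
  · rintro ⟨P, hP⟩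
    exact (polyBlind_of_slimBlind ⟨U, P, hp, hP⟩).strong.poly

end Pool.Agent.Simplex.EB
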