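import Pool.Agent.Lib.MP_4d246d_lc.EB.SlimQ
import Pool.Agent.Lib.MP_4d246d_lc.EB.Opt4
import Pool.Agent.Lib.MP_4d246d_lc.EB.NestBlind

/-!
# One optimal blind rule, and Question 1 for transportation programs: the assembly
-/

namespace Pool.Agent.Simplex.EB

open Pool.Agent.Lib.PolyTime Pool.Agent.Simplex.QP Turing

/-- There is an optimal blind rule with the quasi-polynomial bound, polynomial for nested block
structure. -/
theorem exists_optimal_nested : ∃ U : BlindRule, U.Poly ∧ Optimal U ∧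
    ∃ P : Polynomial ℕ, ∀ (m n : ℕ) (D : RLP m n),
      Solves U D (P.eval D.size * pivotBound (min n (m + 2)) (min (m + n + 1) (2 * m + 3))) ∧
      ∀ rs s t, Nested D.A rs s t → Solves U D (P.eval D.size *
        pivotBound (3 * QLP.branch rs * (2 * s + 1)) (3 * QLP.branch rs * (3 * s + t + 2))) := by
  obtain ⟨ρ, P, hρ, hP⟩ := exists_quasi_nested
  refine ⟨optRule ρ, (polyF_optRule (polyF_of_tm2 hρ)).tm2_word,
    fun ρ' hρ' => solves_optRule ρ hρ', 6 * P + 3, fun m n D => ⟨?_, fun rs s t h => ?_⟩⟩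
  · refine (solves_optRule_self (hP m n D).1).mono ?_
    have h1 := pivotBound_pos (min n (m + 2)) (min (m + n + 1) (2 * m + 3))
    simp only [Polynomial.eval_add, Polynomial.eval_mul, Polynomial.eval_ofNat]
    nlinarith
  · refine (solves_optRule_self ((hP m n D).2 rs s t h)).mono ?_
    have h1 := pivotBound_pos (3 * QLP.branch rs * (2 * s + 1))
      (3 * QLP.branch rs * (3 * s + t + 2))
    simp only [Polynomial.eval_add, Polynomial.eval_mul, Polynomial.eval_ofNat]
    nlinarith

/-- a version of the simplex method is a version for transportation programs -/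
theorem PolySimplex.slim (h : PolySimplex) : SlimSimplex := by
  obtain ⟨N, x, s, hrun, ⟨M⟩⟩ := h
  exact ⟨N, x, s, fun I _ => hrun I, ⟨⟨M.toTM2ComputableAux, M.time, fun I => M.outputsFun I.1⟩⟩⟩

/-- Question 1 is equivalent to Question 1 for the transportation programs. -/
theorem polySimplex_iff_slim : PolySimplex ↔ SlimSimplex :=
  ⟨fun h => h.slim, fun h => (polyBlind_of_slimBlind (slimBlind_of_slimSimplex h)).strong.poly⟩

/-- **One optimal blind rule, and Question 1.** -/
theorem result_EB3 : ∃ U : BlindRule, U.Poly ∧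
    (∃ P : Polynomial ℕ, ∀ (m n : ℕ) (D : RLP m n),
      Solves U D (P.eval D.size * pivotBound (min n (m + 2)) (min (m + n + 1) (2 * m + 3))) ∧
      ∀ rs s t, Nested D.A rs s t → Solves U D (P.eval D.size *
        pivotBound (3 * QLP.branch rs * (2 * s + 1)) (3 * QLP.branch rs * (3 * s + t + 2)))) ∧
    (∀ ρ : BlindRule, ρ.Poly → ∃ Q : Polynomial ℕ, ∀ (m n : ℕ) (D : RLP m n) (B : ℕ),
      Solves ρ D B → Solves U D (Q.eval (D.size + B))) ∧
    (∀ W : Engine, ∃ Q : Polynomial ℕ, ∀ (m n : ℕ) (D : RLP m n) (K : ℕ),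
      W.Bound (plusM D.mat) (Q.eval D.size) K → Solves U D (Q.eval (D.size + K))) ∧
    (PolySimplex ↔ ∃ P : Polynomial ℕ, ∀ (m n : ℕ) (D : RLP m n), Solves U D (P.eval D.size)) ∧
    (PolySimplex ↔ ∃ P : Polynomial ℕ, ∀ (r c : ℕ) (s : Fin (lines r c) → ℝ)
      (cost : Fin (3 * (r * c)) → ℝ), Solves U (transport r c s cost) (P.eval (r + c))) ∧
    (PolySimplex ↔ SlimSimplex) ∧ (PolySimplex ↔ StrongSimplex) := by
  obtain ⟨U, hp, hU, hP⟩ := exists_optimal_nested
  exact ⟨U, hp, hP, hU, hU.engine, hU.poly_iff hp, hU.slim_iff hp, polySimplex_iff_slim,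
    result_EB.2.1⟩

end Pool.Agent.Simplex.EB
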