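import Pool.Agent.Lib.MP_4d246d_lc.QP.SolverDefs

/-!
# The core of the learner on lists of integers

A state is a pair `(ds, cs)` of lists of pairs `(i, g)`: `g` is a mistake, `i = e + E` with the exponent `e` of
`ĝ = 2 ^ (-e) g`; `ds` are the mistakes of the complete phases, `cs` those of the current phase. A phase has `s * s`
mistakes. The matrix of the state is `M = 1 + (1 / s ^ 2) ∑_{(i, g) ∈ ds} 4 ^ (E - i) g gᵀ`; the first `N` coordinates of
the orthogonal projection of `(v, 0)` onto `{(w, z) : s 2 ^ i_j z_j = 2 ^ E g_j w}` are `M⁻¹ v`.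
-/

set_option autoImplicit false

namespace Pool.Agent.Lib.MP_4d246d_lc.EB

open Pool.Agent.Simplex.QP

/-- the row of the mistake `(i, g)`, which is the number `j` of `m` mistakes -/
def rowOf (N E s m j : ℕ) (p : ℕ × List ℤ) : List ℤ :=
  (padZ N p.2).map (fun a => 2 ^ E * a) ++ (unitZ m j).map (fun a => -((s : ℤ) * 2 ^ p.1) * a)

/-- the rows of the graph -/
def rowsOf (N E s : ℕ) (ds : List (ℕ × List ℤ)) : List (List ℤ) :=
  (List.range ds.length).map fun j => rowOf N E s ds.length j (ds.getD j (0, []))

/-- `D` and the first `N` rows of `P`, `P / D` the projector onto the graph -/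
def invOf (N E s : ℕ) (ds : List (ℕ × List ℤ)) : ℤ × List (List ℤ) :=
  ((projZ (N + ds.length) (rowsOf N E s ds)).1,
    (projZ (N + ds.length) (rowsOf N E s ds)).2.take N)

/-- `2 ^ E y`, where `y` is the sum of the `ĝ` of the current phase -/
def yOf (N E : ℕ) (cs : List (ℕ × List ℤ)) : List ℤ :=
  (List.range N).map fun j => (cs.map fun p => 2 ^ (2 * E - p.1) * p.2.getD j 0).sum

/-- the hypothesis of the state, up to a positive factor -/
def hypOf (N E s : ℕ) (st : List (ℕ × List ℤ) × List (ℕ × List ℤ)) : List ℤ :=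
  mulVecZ (invOf N E s st.1).2 (yOf N E st.2)

/-- the exponent of the mistake `g`, plus `E` -/
def expOf (N E s : ℕ) (ds : List (ℕ × List ℤ)) (g : List ℤ) : ℕ :=
  ((List.range (2 * E + 1)).find? fun i =>
    decide (4 ^ E * dotZ g (mulVecZ (invOf N E s ds).2 g) < (invOf N E s ds).1 * 4 ^ i)).getD 0

/-- a new mistake -/
def pushOf (s : ℕ) (st : List (ℕ × List ℤ) × List (ℕ × List ℤ)) (p : ℕ × List ℤ) :
    List (ℕ × List ℤ) × List (ℕ × List ℤ) :=
  if st.2.length + 1 = s * s then (st.1 ++ (st.2 ++ [p]), []) else (st.1, st.2 ++ [p])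

/-- one step: an update with the first element of `G` on which the hypothesis is not positive -/
def stepOf (N E s : ℕ) (G : List (List ℤ)) (st : List (ℕ × List ℤ) × List (ℕ × List ℤ)) :
    List (ℕ × List ℤ) × List (ℕ × List ℤ) :=
  match G.find? fun g => decide (dotZ g (hypOf N E s st) ≤ 0) with
  | none => st
  | some g => pushOf s st (expOf N E s st.1 g, g)

/-- the state after `k` steps -/
def coreRun (N E s k : ℕ) (G : List (List ℤ)) : List (ℕ × List ℤ) × List (ℕ × List ℤ) :=
  (stepOf N E s G)^[k] ([], [])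

/-- the exponent `E` for vectors of length `N` with entries less than `2 ^ l` -/
def parE (N l : ℕ) : ℕ := 4 + 4 * N + 2 * (N + N * N + l * N) + 2 * l

/-- the bound for the number of phases -/
def parK (N l : ℕ) : ℕ := 4 * (N * parE N l + 1)

/-- a phase has `parS * parS` mistakes -/
def parS (N l : ℕ) : ℕ := 2 * parK N l

/-- the guess of the core, for vectors with entries less than `2 ^ l` -/
def coreGuess (N l : ℕ) (G : List (List ℤ)) : List ℤ :=
  hypOf N (parE N l) (parS N l)
    (coreRun N (parE N l) (parS N l) (parK N l * (parS N l * parS N l)) G)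

end Pool.Agent.Lib.MP_4d246d_lc.EB
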