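import Pool.Agent.Lib.MP_4d246d_lc.EB.Learner

/-!
The deterministic learner over `ℚ`: state, update, number of mistakes.

`learn T gs` is the state after the mistakes `gs` (integer vectors); `hyp` is the hypothesis `M⁻¹ y`; a mistake `g` is
legal if `ĝ M⁻¹ y ≤ 1/2`, `ĝ = 2 ^ (-e) g`, `4 ^ (e - 1) ≤ g M⁻¹ g < 4 ^ e`.
-/

set_option autoImplicit false
set_option linter.unusedSectionVars false

open Matrix

namespace Pool.Agent.Lib.MP_4d246d_lc.EB

variable {N : ℕ}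

/-- the state of the learner: `M`, the sum `P` of the `ĝ ĝᵀ` of the phase, `y`, the number `t` of mistakes of the phase -/
structure LState (N : ℕ) where
  M : Matrix (Fin N) (Fin N) ℚ
  P : Matrix (Fin N) (Fin N) ℚ
  y : Fin N → ℚ
  t : ℕ

/-- the start -/
def LState.init (N : ℕ) : LState N := ⟨1, 0, 0, 0⟩

/-- an integer vector as a rational vector -/
def qv (g : Fin N → ℤ) : Fin N → ℚ := fun i => (g i : ℚ)

/-- `g M⁻¹ g` -/
noncomputable def nrm (M : Matrix (Fin N) (Fin N) ℚ) (g : Fin N → ℤ) : ℚ := qv g ⬝ᵥ M⁻¹ *ᵥ qv g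

/-- the exponent: `4 ^ (e - 1) ≤ g M⁻¹ g < 4 ^ e` -/
noncomputable def expo (M : Matrix (Fin N) (Fin N) ℚ) (g : Fin N → ℤ) : ℤ := Int.log 4 (nrm M g) + 1

/-- `2 ^ (-e) g` -/
noncomputable def ghat (M : Matrix (Fin N) (Fin N) ℚ) (g : Fin N → ℤ) : Fin N → ℚ :=
  ((2 : ℚ) ^ (-(expo M g))) • qv g

/-- one mistake -/
noncomputable def upd (T : ℕ) (st : LState N) (g : Fin N → ℤ) : LState N :=
  if st.t + 1 = T then ⟨st.M + (T : ℚ)⁻¹ • (st.P + vecMulVec (ghat st.M g) (ghat st.M g)), 0, 0, 0⟩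
  else ⟨st.M, st.P + vecMulVec (ghat st.M g) (ghat st.M g), st.y + ghat st.M g, st.t + 1⟩

/-- the state after the mistakes `gs` -/
noncomputable def learn (T : ℕ) (gs : List (Fin N → ℤ)) : LState N := gs.foldl (upd T) (LState.init N)

/-- the hypothesis -/
noncomputable def hyp (T : ℕ) (gs : List (Fin N → ℤ)) : Fin N → ℚ :=
  (learn T gs).M⁻¹ *ᵥ (learn T gs).y

/-- the mistake `g` is legal after `gs` -/
def LegalAt (T : ℕ) (gs : List (Fin N → ℤ)) (g : Fin N → ℤ) : Prop :=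
  g ≠ 0 ∧ ghat (learn T gs).M g ⬝ᵥ hyp T gs ≤ 1 / 2

/-- all mistakes were legal -/
def Legal (T : ℕ) (gs : List (Fin N → ℤ)) : Prop :=
  ∀ i, ∀ h : i < gs.length, LegalAt T (gs.take i) gs[i]

theorem learn_snoc (T : ℕ) (gs : List (Fin N → ℤ)) (g : Fin N → ℤ) :
    learn T (gs ++ [g]) = upd T (learn T gs) g := by
  simp [learn, List.foldl_append]

theorem legal_nil (T : ℕ) : Legal T ([] : List (Fin N → ℤ)) := fun i h => absurd h (by simp)

theorem legal_snoc {T : ℕ} {gs : List (Fin N → ℤ)} {g : Fin N → ℤ} (h : Legal T gs) (hg : LegalAt T gs g) :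
    Legal T (gs ++ [g]) := by
  intro i hi
  rw [List.length_append, List.length_singleton] at hi
  rcases Nat.lt_succ_iff_lt_or_eq.mp hi with h1 | h1
  · have e1 : (gs ++ [g]).take i = gs.take i := by
      rw [List.take_append_of_le_length h1.le]
    have e2 : (gs ++ [g])[i] = gs[i] := List.getElem_append_left h1
    rw [e1, e2]
    exact h i h1
  · subst h1
    have e1 : (gs ++ [g]).take gs.length = gs := by simp
    have e2 : (gs ++ [g])[gs.length] = g := by simp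
    rw [e1, e2]
    exact hg

/-- a rational matrix as a real matrix -/
noncomputable def rM (M : Matrix (Fin N) (Fin N) ℚ) : Matrix (Fin N) (Fin N) ℝ := M.map (Rat.castHom ℝ)

/-- a rational vector as a real vector -/
noncomputable def rV (v : Fin N → ℚ) : Fin N → ℝ := fun i => ((v i : ℚ) : ℝ)

theorem rM_inv (M : Matrix (Fin N) (Fin N) ℚ) : rM M⁻¹ = (rM M)⁻¹ := by
  have h1 : (rM M).adjugate = rM M.adjugate := by
    have := RingHom.map_adjugate (Rat.castHom ℝ) M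
    rw [RingHom.mapMatrix_apply, RingHom.mapMatrix_apply] at this
    exact this.symm
  have h2 : (rM M).det = ((M.det : ℚ) : ℝ) := by
    have := RingHom.map_det (Rat.castHom ℝ) M
    rw [RingHom.mapMatrix_apply] at this
    exact this.symm
  rw [inv_def, inv_def, Ring.inverse_eq_inv', Ring.inverse_eq_inv', h1, h2]
  ext i j
  simp [rM]

theorem rV_dot (u v : Fin N → ℚ) : rV u ⬝ᵥ rV v = ((u ⬝ᵥ v : ℚ) : ℝ) := by
  simp [rV, dotProduct]

theorem rV_mulVec (M : Matrix (Fin N) (Fin N) ℚ) (v : Fin N → ℚ) : rM M *ᵥ rV v = rV (M *ᵥ v) := by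
  funext i
  simp [rM, rV, mulVec, dotProduct]

theorem rV_zero : rV (0 : Fin N → ℚ) = 0 := by
  funext i
  simp [rV]

theorem rV_add (u v : Fin N → ℚ) : rV (u + v) = rV u + rV v := by
  funext i
  simp [rV]

theorem rV_smul (a : ℚ) (v : Fin N → ℚ) : rV (a • v) = (a : ℝ) • rV v := by
  funext i
  simp [rV]

theorem rV_sum (f : ℕ → Fin N → ℚ) (t : ℕ) :
    rV (∑ s ∈ Finset.range t, f s) = ysum (fun s => rV (f s)) t := by
  induction t with
  | zero => simp [ysum, rV_zero]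
  | succ t ih => rw [Finset.sum_range_succ, rV_add, ih]; simp [ysum, Finset.sum_range_succ]

theorem rM_one : rM (1 : Matrix (Fin N) (Fin N) ℚ) = 1 := by
  unfold rM
  exact map_one (Rat.castHom ℝ).mapMatrix

theorem rM_acc (M : Matrix (Fin N) (Fin N) ℚ) (T : ℕ) (f : ℕ → Fin N → ℚ) (t : ℕ) :
    rM (M + (T : ℚ)⁻¹ • ∑ s ∈ Finset.range t, vecMulVec (f s) (f s)) =
      acc (rM M) (T : ℝ)⁻¹ (fun s => rV (f s)) t := by
  ext i j
  simp [rM, acc, Matrix.sum_apply, vecMulVec, rV, Finset.mul_sum, Matrix.add_apply, Matrix.smul_apply]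

theorem rV_qv_ne {g : Fin N → ℤ} (hg : g ≠ 0) : rV (qv g) ≠ 0 := by
  intro h
  apply hg
  funext i
  have := congrFun h i
  simpa [rV, qv] using this

theorem nrm_cast (M : Matrix (Fin N) (Fin N) ℚ) (g : Fin N → ℤ) :
    ((nrm M g : ℚ) : ℝ) = rV (qv g) ⬝ᵥ (rM M)⁻¹ *ᵥ rV (qv g) := by
  rw [← rM_inv, rV_mulVec, rV_dot]
  rfl

theorem nrm_pos {M : Matrix (Fin N) (Fin N) ℚ} (hM : Pd (rM M)) {g : Fin N → ℤ} (hg : g ≠ 0) :
    0 < nrm M g := by
  have h2 : rM M *ᵥ ((rM M)⁻¹ *ᵥ rV (qv g)) = rV (qv g) := by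
    rw [mulVec_mulVec, mul_nonsing_inv _ hM.isUnit, one_mulVec]
  have h3 : (rM M)⁻¹ *ᵥ rV (qv g) ≠ 0 := by
    intro h
    rw [h, mulVec_zero] at h2
    exact rV_qv_ne hg h2.symm
  have h1 := hM.pos _ h3
  rw [h2, dotProduct_comm, ← nrm_cast] at h1
  exact_mod_cast h1

/-- `1/4 ≤ ĝ M⁻¹ ĝ ≤ 1` -/
theorem ghat_norm {M : Matrix (Fin N) (Fin N) ℚ} (hM : Pd (rM M)) {g : Fin N → ℤ} (hg : g ≠ 0) :
    1 / 4 ≤ rV (ghat M g) ⬝ᵥ (rM M)⁻¹ *ᵥ rV (ghat M g) ∧
      rV (ghat M g) ⬝ᵥ (rM M)⁻¹ *ᵥ rV (ghat M g) ≤ 1 := by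
  have hs := nrm_pos hM hg
  have h1 : rV (ghat M g) ⬝ᵥ (rM M)⁻¹ *ᵥ rV (ghat M g) =
      (((2 : ℚ) ^ (-(expo M g)) * (2 : ℚ) ^ (-(expo M g)) * nrm M g : ℚ) : ℝ) := by
    rw [ghat, rV_smul, mulVec_smul, smul_dotProduct, dotProduct_smul, ← nrm_cast]
    push_cast
    simp only [smul_eq_mul]
    ring
  rw [h1]
  have h4 : (2 : ℚ) ^ (-(expo M g)) * (2 : ℚ) ^ (-(expo M g)) = (4 : ℚ) ^ (-(expo M g)) := by
    rw [← mul_zpow]
    norm_num
  rw [h4]
  have h5 : (4 : ℚ) ^ (Int.log 4 (nrm M g)) ≤ nrm M g := by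
    have := Int.zpow_log_le_self (R := ℚ) (b := 4) (by norm_num) hs
    exact_mod_cast this
  have h6 : nrm M g < (4 : ℚ) ^ (Int.log 4 (nrm M g) + 1) := by
    have := Int.lt_zpow_succ_log_self (R := ℚ) (b := 4) (by norm_num) (nrm M g)
    exact_mod_cast this
  have h7 : (0 : ℚ) < (4 : ℚ) ^ (expo M g) := by positivity
  have h8 : (4 : ℚ) ^ (-(expo M g)) * (4 : ℚ) ^ (expo M g) = 1 := by
    rw [← zpow_add₀ (by norm_num)]
    simp
  have h9 : (0 : ℚ) < (4 : ℚ) ^ (-(expo M g)) := by positivity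
  constructor
  · have : (1 / 4 : ℚ) ≤ (4 : ℚ) ^ (-(expo M g)) * nrm M g := by
      calc (1 / 4 : ℚ) = (4 : ℚ) ^ (-(expo M g)) * (4 : ℚ) ^ (Int.log 4 (nrm M g)) := by
            rw [← zpow_add₀ (by norm_num), expo]
            rw [show -(Int.log 4 (nrm M g) + 1) + Int.log 4 (nrm M g) = -1 by ring]
            norm_num
        _ ≤ _ := mul_le_mul_of_nonneg_left h5 h9.le
    calc (1 / 4 : ℝ) = ((1 / 4 : ℚ) : ℝ) := by norm_num
      _ ≤ _ := Rat.cast_le.mpr this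
  · have : (4 : ℚ) ^ (-(expo M g)) * nrm M g ≤ 1 := by
      calc (4 : ℚ) ^ (-(expo M g)) * nrm M g ≤ (4 : ℚ) ^ (-(expo M g)) * (4 : ℚ) ^ (expo M g) :=
            mul_le_mul_of_nonneg_left h6.le h9.le
        _ = 1 := h8
    calc ((((4 : ℚ) ^ (-(expo M g)) * nrm M g : ℚ)) : ℝ) ≤ ((1 : ℚ) : ℝ) := Rat.cast_le.mpr this
      _ = 1 := by norm_num

/-- the state after `i` mistakes -/
noncomputable def st (T : ℕ) (gs : List (Fin N → ℤ)) (i : ℕ) : LState N := learn T (gs.take i)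

theorem st_succ (T : ℕ) (gs : List (Fin N → ℤ)) {i : ℕ} (hi : i < gs.length) :
    st T gs (i + 1) = upd T (st T gs i) gs[i] := by
  unfold st
  rw [List.take_succ_eq_append_getElem hi, learn_snoc]

/-- the `t`-th normalised mistake of the phase `j` -/
noncomputable def gh (T : ℕ) (gs : List (Fin N → ℤ)) (j t : ℕ) : Fin N → ℚ :=
  ghat (st T gs (j * T)).M (gs.getD (j * T + t) 0)

theorem st_phase {T : ℕ} (hT : 0 < T) (gs : List (Fin N → ℤ)) (j : ℕ) (hj : j * T ≤ gs.length)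
    (h0 : st T gs (j * T) = ⟨(st T gs (j * T)).M, 0, 0, 0⟩) (t : ℕ) (ht : t < T)
    (hi : j * T + t ≤ gs.length) :
    st T gs (j * T + t) = ⟨(st T gs (j * T)).M,
      ∑ s ∈ Finset.range t, vecMulVec (gh T gs j s) (gh T gs j s), ∑ s ∈ Finset.range t, gh T gs j s, t⟩ := by
  induction t with
  | zero => simpa using h0
  | succ t ih =>
    have h1 := ih (by omega) (by omega)
    have h2 : j * T + (t + 1) = (j * T + t) + 1 := by ring
    have h3 : j * T + t < gs.length := by omega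
    rw [h2, st_succ T gs h3, h1, upd, if_neg (show ¬ (t + 1 = T) by omega)]
    have h4 : gh T gs j t = ghat (st T gs (j * T)).M gs[j * T + t] := by
      rw [gh, List.getD_eq_getElem _ _ h3]
    simp only [Finset.sum_range_succ, h4]

theorem st_next {T : ℕ} (hT : 0 < T) (gs : List (Fin N → ℤ)) (j : ℕ) (hj : (j + 1) * T ≤ gs.length)
    (h0 : st T gs (j * T) = ⟨(st T gs (j * T)).M, 0, 0, 0⟩) :
    st T gs ((j + 1) * T) = ⟨(st T gs (j * T)).M + (T : ℚ)⁻¹ •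
      ∑ s ∈ Finset.range T, vecMulVec (gh T gs j s) (gh T gs j s), 0, 0, 0⟩ := by
  obtain ⟨t, rfl⟩ : ∃ t, T = t + 1 := ⟨T - 1, by omega⟩
  have h5 : (j + 1) * (t + 1) = j * (t + 1) + t + 1 := by ring
  have h3 : j * (t + 1) + t < gs.length := by omega
  have h1 := st_phase hT gs j (by omega) h0 t (by omega) (by omega)
  rw [h5, st_succ _ gs h3, h1, upd, if_pos rfl]
  have h4 : gh (t + 1) gs j t = ghat (st (t + 1) gs (j * (t + 1))).M gs[j * (t + 1) + t] := by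
    rw [gh, List.getD_eq_getElem _ _ h3]
  rw [Finset.sum_range_succ _ t, h4]

theorem st_start {T : ℕ} (hT : 0 < T) (gs : List (Fin N → ℤ)) (j : ℕ) (hj : j * T ≤ gs.length) :
    st T gs (j * T) = ⟨(st T gs (j * T)).M, 0, 0, 0⟩ ∧ Pd (rM (st T gs (j * T)).M) := by
  induction j with
  | zero =>
    rw [Nat.zero_mul]
    refine ⟨by simp [st, learn, LState.init], ?_⟩
    have : (st T gs 0).M = 1 := by simp [st, learn, LState.init]
    rw [this, rM_one]
    exact Pd.one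
  | succ j ih =>
    have h1 : j * T ≤ gs.length := le_trans (Nat.mul_le_mul_right T (Nat.le_succ j)) hj
    obtain ⟨h2, h3⟩ := ih h1
    have h4 := st_next hT gs j hj h2
    rw [h4]
    refine ⟨rfl, ?_⟩
    simp only
    rw [rM_acc]
    exact acc_pd h3 (by positivity) _ _

/-- Everything about the run. `B` bounds the length of the mistakes, `ε` their value at the unknown vector `w`,
`|w| ≤ 1/2`; the parameters `T`, `k` satisfy `2 k ^ 2 ≤ T`. -/
theorem run_inv {T k : ℕ} (hT : 0 < T) (hk : 2 * k ^ 2 ≤ T) (gs : List (Fin N → ℤ)) (hL : Legal T gs)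
    {ε B : ℝ} (hε : 0 < ε) (hB : 0 < B) (hεB : 2 * ε ≤ B) (w : Fin N → ℝ) (hw : w ⬝ᵥ w ≤ 1 / 4)
    (hg : ∀ g ∈ gs, ε ≤ rV (qv g) ⬝ᵥ w) (hgB : ∀ g ∈ gs, rV (qv g) ⬝ᵥ rV (qv g) ≤ B ^ 2)
    (j : ℕ) (hj : j * T ≤ gs.length) (hjk : j ≤ k) :
    Pd (rM (st T gs (j * T)).M) ∧ w ⬝ᵥ rM (st T gs (j * T)).M *ᵥ w ≤ 3 ∧
      (∀ u, u ⬝ᵥ rM (st T gs (j * T)).M *ᵥ u ≤ 3 / (ε / B) ^ 2 * (u ⬝ᵥ u)) ∧
      (5 / 4 : ℝ) ^ j ≤ (3 / (ε / B) ^ 2) ^ N := by
  have hself : ∀ v : Fin N → ℝ, 0 ≤ v ⬝ᵥ v := fun v => Finset.sum_nonneg fun i _ => mul_self_nonneg _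
  -- the mistakes
  have hlt : ∀ a < j, ∀ t < T, a * T + t < gs.length := by
    intro a ha t ht
    have h1 : (a + 1) * T ≤ j * T := Nat.mul_le_mul_right T ha
    have h2 : (a + 1) * T = a * T + T := by ring
    omega
  have hle : ∀ a < j, a * T ≤ gs.length := by
    intro a ha
    have := hlt a ha 0 hT
    omega
  have hsgn : ∀ (a : ℕ) (M : Matrix (Fin N) (Fin N) ℚ) (g : Fin N → ℤ) (v : Fin N → ℝ),
      0 ≤ rV (qv g) ⬝ᵥ v → 0 ≤ rV (ghat M g) ⬝ᵥ v := by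
    intro _ M g v hv
    rw [ghat, rV_smul, smul_dotProduct, smul_eq_mul]
    have : (0 : ℝ) < (((2 : ℚ) ^ (-(expo M g)) : ℚ) : ℝ) := by
      have : (0 : ℚ) < (2 : ℚ) ^ (-(expo M g)) := by positivity
      exact_mod_cast this
    positivity
  have hleg : ∀ a (ha : a < j), ∀ t (ht : t < T), LegalAt T (gs.take (a * T + t)) (gs[a * T + t]'(hlt a ha t ht)) :=
    fun a ha t ht => hL _ (hlt a ha t ht)
  have hgh : ∀ a (ha : a < j), ∀ t (ht : t < T), gh T gs a t =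
      ghat (st T gs (a * T)).M (gs[a * T + t]'(hlt a ha t ht)) := by
    intro a ha t ht
    rw [gh, List.getD_eq_getElem _ _ (hlt a ha t ht)]
  -- the ball
  have hcs : ∀ u v : Fin N → ℝ, (u ⬝ᵥ v) ^ 2 ≤ (u ⬝ᵥ u) * (v ⬝ᵥ v) := by
    intro u v
    have := (Pd.one (n := Fin N)).cs1 u v
    simpa [one_mulVec] using this
  have hball : ∀ u : Fin N → ℝ, u ⬝ᵥ u ≤ (ε / B) ^ 2 → (w + u) ⬝ᵥ (w + u) ≤ 1 ∧
      ∀ a < j, ∀ t < T, 0 ≤ rV (gh T gs a t) ⬝ᵥ (w + u) := by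
    intro u hu
    constructor
    · have h1 := hcs w u
      have h2 : (ε / B) ≤ 1 / 2 := by
        rw [div_le_iff₀ hB]
        linarith
      have h3 : u ⬝ᵥ u ≤ 1 / 4 := by
        have : (ε / B) ^ 2 ≤ (1 / 2) ^ 2 := pow_le_pow_left₀ (by positivity) h2 2
        linarith
      rw [add_dotProduct, dotProduct_add, dotProduct_add, dotProduct_comm u w]
      have h4 : (w ⬝ᵥ u) ^ 2 ≤ (1 / 4) * (1 / 4) :=
        h1.trans (mul_le_mul hw h3 (hself u) (by norm_num))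
      have h5 : w ⬝ᵥ u ≤ 1 / 4 := by nlinarith [h4]
      linarith
    · intro a ha t ht
      rw [hgh a ha t ht]
      apply hsgn a
      rw [dotProduct_add]
      have hmem : gs[a * T + t]'(hlt a ha t ht) ∈ gs := List.getElem_mem _
      have h1 := hg _ hmem
      have h2 := hgB _ hmem
      have h3 := hcs (rV (qv (gs[a * T + t]'(hlt a ha t ht)))) u
      set x := rV (qv (gs[a * T + t]'(hlt a ha t ht))) with hx
      have h4 : (x ⬝ᵥ u) ^ 2 ≤ ε ^ 2 := by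
        calc (x ⬝ᵥ u) ^ 2 ≤ (x ⬝ᵥ x) * (u ⬝ᵥ u) := h3
          _ ≤ B ^ 2 * (ε / B) ^ 2 := mul_le_mul h2 hu (hself u) (by positivity)
          _ = ε ^ 2 := by field_simp
      have h5 : -ε ≤ x ⬝ᵥ u := by
        have := abs_le_of_sq_le_sq' h4 hε.le
        exact this.1
      linarith
  have main := phases (n := Fin N) (T := T) (k := j) hT
    (le_trans (Nat.mul_le_mul_left 2 (Nat.pow_le_pow_left hjk 2)) hk)
    (fun a => rM (st T gs (a * T)).M) (fun a t => rV (gh T gs a t))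
    (by
      have : (st T gs (0 * T)).M = 1 := by simp [st, learn, LState.init]
      simp only [this, rM_one])
    (by
      intro a ha
      have h1 : (a + 1) * T ≤ gs.length := le_trans (Nat.mul_le_mul_right T ha) hj
      have h2 := st_next hT gs a h1 (st_start hT gs a (hle a ha)).1
      simp only [h2, rM_acc])
    (fun a ha t ht => by
      simp only [hgh a ha t ht]
      exact (ghat_norm (st_start hT gs a (hle a ha)).2 (hleg a ha t ht).1).1)
    (fun a ha t ht => by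
      simp only [hgh a ha t ht]
      exact (ghat_norm (st_start hT gs a (hle a ha)).2 (hleg a ha t ht).1).2)
    (fun a ha t ht => by
      have h1 := (hleg a ha t ht).2
      have h2 := st_phase hT gs a (hle a ha) (st_start hT gs a (hle a ha)).1 t ht (hlt a ha t ht).le
      have h3 : learn T (gs.take (a * T + t)) = st T gs (a * T + t) := rfl
      rw [hyp, h3, h2] at h1
      simp only at h1
      rw [← hgh a ha t ht] at h1
      have h4 : ((gh T gs a t ⬝ᵥ (st T gs (a * T)).M⁻¹ *ᵥ ∑ s ∈ Finset.range t, gh T gs a s : ℚ) : ℝ) ≤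
          ((1 / 2 : ℚ) : ℝ) := Rat.cast_le.mpr h1
      rw [← rV_dot, ← rV_mulVec, rV_sum, rM_inv] at h4
      calc _ ≤ ((1 / 2 : ℚ) : ℝ) := h4
        _ = 1 / 2 := by norm_num)
    (r := ε / B) (by positivity) w hball j le_rfl
  refine ⟨main.1, ?_, main.2.2.2.1, by simpa using main.2.2.2.2⟩
  refine main.2.2.1 w (by linarith) fun a ha t ht => ?_
  rw [hgh a ha t ht]
  exact hsgn a _ _ _ (hε.le.trans (hg _ (List.getElem_mem _)))

/-- the number of mistakes is less than `T k` -/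
theorem mistakes_lt {T k : ℕ} (hT : 0 < T) (hk : 2 * k ^ 2 ≤ T) (gs : List (Fin N → ℤ)) (hL : Legal T gs)
    {ε B : ℝ} (hε : 0 < ε) (hB : 0 < B) (hεB : 2 * ε ≤ B) (w : Fin N → ℝ) (hw : w ⬝ᵥ w ≤ 1 / 4)
    (hg : ∀ g ∈ gs, ε ≤ rV (qv g) ⬝ᵥ w) (hgB : ∀ g ∈ gs, rV (qv g) ⬝ᵥ rV (qv g) ≤ B ^ 2)
    (hkk : (3 / (ε / B) ^ 2) ^ N < (5 / 4 : ℝ) ^ k) : gs.length < k * T := by
  by_contra h
  push Not at h
  have := (run_inv hT hk gs hL hε hB hεB w hw hg hgB k h le_rfl).2.2.2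
  linarith

/-- the form of the state after all mistakes -/
theorem state_inv {T k : ℕ} (hT : 0 < T) (hk : 2 * k ^ 2 ≤ T) (gs : List (Fin N → ℤ)) (hL : Legal T gs)
    {ε B : ℝ} (hε : 0 < ε) (hB : 0 < B) (hεB : 2 * ε ≤ B) (w : Fin N → ℝ) (hw : w ⬝ᵥ w ≤ 1 / 4)
    (hg : ∀ g ∈ gs, ε ≤ rV (qv g) ⬝ᵥ w) (hgB : ∀ g ∈ gs, rV (qv g) ⬝ᵥ rV (qv g) ≤ B ^ 2)
    (hkk : (3 / (ε / B) ^ 2) ^ N < (5 / 4 : ℝ) ^ k) :
    Pd (rM (learn T gs).M) ∧ w ⬝ᵥ rM (learn T gs).M *ᵥ w ≤ 3 ∧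
      (∀ u, u ⬝ᵥ rM (learn T gs).M *ᵥ u ≤ 3 / (ε / B) ^ 2 * (u ⬝ᵥ u)) ∧
      rV (learn T gs).y ⬝ᵥ (rM (learn T gs).M)⁻¹ *ᵥ rV (learn T gs).y ≤ 2 * T := by
  have hlt := mistakes_lt hT hk gs hL hε hB hεB w hw hg hgB hkk
  set j := gs.length / T with hj
  set t := gs.length % T with ht
  have h1 : j * T + t = gs.length := by rw [hj, ht, mul_comm]; exact Nat.div_add_mod _ _
  have h2 : t < T := Nat.mod_lt _ hT
  have h3 : j ≤ k := by
    have : j < k := by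
      rw [hj, Nat.div_lt_iff_lt_mul hT]
      exact hlt
    exact this.le
  have h4 : j * T ≤ gs.length := by omega
  obtain ⟨hP, hw3, hu, _⟩ := run_inv hT hk gs hL hε hB hεB w hw hg hgB j h4 h3
  have h5 := st_phase hT gs j h4 (st_start hT gs j h4).1 t h2 (by omega)
  have h6 : st T gs (j * T + t) = learn T gs := by
    rw [h1, st, List.take_length]
  rw [h6] at h5
  have hM : (learn T gs).M = (st T gs (j * T)).M := by rw [h5]
  have hy : (learn T gs).y = ∑ s ∈ Finset.range t, gh T gs j s := by rw [h5]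
  rw [hM, hy, rV_sum]
  refine ⟨hP, hw3, hu, ?_⟩
  have hlt' : ∀ s < t, j * T + s < gs.length := fun s hs => by omega
  have hgh : ∀ s (hs : s < t), gh T gs j s = ghat (st T gs (j * T)).M (gs[j * T + s]'(hlt' s hs)) := by
    intro s hs
    rw [gh, List.getD_eq_getElem _ _ (hlt' s hs)]
  have h7 := ysum_le hP (fun s => rV (gh T gs j s)) t
    (fun s hs => by
      simp only [hgh s hs]
      exact (ghat_norm hP (hL _ (hlt' s hs)).1).2)
    (fun s hs => by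
      have h1 := (hL _ (hlt' s hs)).2
      have h2 := st_phase hT gs j h4 (st_start hT gs j h4).1 s (by omega) (hlt' s hs).le
      have h3 : learn T (gs.take (j * T + s)) = st T gs (j * T + s) := rfl
      rw [hyp, h3, h2] at h1
      simp only at h1
      rw [← hgh s hs] at h1
      have h4 : ((gh T gs j s ⬝ᵥ (st T gs (j * T)).M⁻¹ *ᵥ ∑ s ∈ Finset.range s, gh T gs j s : ℚ) : ℝ) ≤
          ((1 / 2 : ℚ) : ℝ) := Rat.cast_le.mpr h1
      rw [← rV_dot, ← rV_mulVec, rV_sum, rM_inv] at h4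
      calc _ ≤ ((1 / 2 : ℚ) : ℝ) := h4
        _ = 1 / 2 := by norm_num)
  refine h7.trans ?_
  have : (t : ℝ) ≤ T := by exact_mod_cast h2.le
  linarith

end Pool.Agent.Lib.MP_4d246d_lc.EB
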