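import Pool.Agent.Lib.MP_4d246d_lc.QP.Proj
import Pool.Agent.Lib.MP_4d246d_lc.EB.Run
import Pool.Agent.Lib.MP_4d246d_lc.EB.GuessDefs

/-!
# The core of the learner on lists agrees with the learner over `ℚ`
-/

set_option autoImplicit false
set_option linter.unusedSectionVars false

open Matrix

namespace Pool.Agent.Lib.MP_4d246d_lc.EB

open Pool.Agent.Simplex.QP

/-- a list of integers as an integer vector -/
def toV (N : ℕ) (g : List ℤ) : Fin N → ℤ := fun j => g.getD j 0

/-- `ĝ` for the pair `(i, g)` -/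
noncomputable def hatOf (N E : ℕ) (p : ℕ × List ℤ) : Fin N → ℚ :=
  ((2 : ℚ) ^ ((E : ℤ) - (p.1 : ℤ))) • qv (toV N p.2)

/-- the sum of the `ĝ ĝᵀ` -/
noncomputable def sqOf (N E : ℕ) (cs : List (ℕ × List ℤ)) : Matrix (Fin N) (Fin N) ℚ :=
  (cs.map fun p => vecMulVec (hatOf N E p) (hatOf N E p)).sum

/-- the matrix of the state -/
noncomputable def matOf (N E s : ℕ) (ds : List (ℕ × List ℤ)) : Matrix (Fin N) (Fin N) ℚ :=
  1 + ((s * s : ℕ) : ℚ)⁻¹ • sqOf N E ds

private theorem sum_map_getD {α β : Type*} [AddCommMonoid β] (f : α → β) (L : List α) (d : α) :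
    (L.map f).sum = ∑ j ∈ Finset.range L.length, f (L.getD j d) := by
  induction L with
  | nil => simp
  | cons a L ih =>
    rw [List.map_cons, List.sum_cons, ih, List.length_cons, Finset.sum_range_succ', add_comm]
    simp

private theorem rowOf_length (N E s m j : ℕ) (p : ℕ × List ℤ) : (rowOf N E s m j p).length = N + m := by
  simp [rowOf]

private theorem mem_rowsOf {N E s : ℕ} {ds : List (ℕ × List ℤ)} {r : List ℤ} (h : r ∈ rowsOf N E s ds) :
    ∃ j < ds.length, r = rowOf N E s ds.length j (ds.getD j (0, [])) := by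
  obtain ⟨j, hj, rfl⟩ := List.mem_map.1 h
  exact ⟨j, List.mem_range.1 hj, rfl⟩

private theorem rowsOf_len {N E s : ℕ} {ds : List (ℕ × List ℤ)} :
    ∀ r ∈ rowsOf N E s ds, r.length = N + ds.length := by
  intro r hr
  obtain ⟨j, _, rfl⟩ := mem_rowsOf hr
  exact rowOf_length _ _ _ _ _ _

/-- the value of a row at a vector -/
private theorem ldot_rowOf (N E s m j : ℕ) (hj : j < m) (p : ℕ × List ℤ) (x : ℕ → ℝ) :
    ldot (rowOf N E s m j p) x =
      2 ^ E * (∑ k : Fin N, ((p.2.getD k 0 : ℤ) : ℝ) * x k) - (s : ℝ) * 2 ^ p.1 * x (N + j) := by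
  have h1 : ∀ (c : ℤ) (l : List ℤ) (y : ℕ → ℝ), ldot (l.map fun a => c * a) y = (c : ℝ) * ldot l y := by
    intro c l
    induction l with
    | nil => intro y; simp
    | cons a l ih =>
      intro y
      rw [List.map_cons, ldot_cons, ldot_cons, ih]
      push_cast
      ring
  rw [rowOf, ldot_append, h1, h1, ldot_padZ]
  rw [List.length_map, length_padZ, ldot_unitZ m j hj]
  push_cast
  ring

private theorem mat_mul {N E s : ℕ} (hs : 0 < s) (ds : List (ℕ × List ℤ)) (v : List ℤ)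
    (hv : v.length ≤ N) (a : Fin N) :
    (matOf N E s ds *ᵥ fun j : Fin N =>
      (((mulVecZ (invOf N E s ds).2 v).getD j 0 : ℤ) : ℚ)) a = ((invOf N E s ds).1 : ℚ) * qv (toV N v) a := by
  obtain ⟨hD, hPl, hPr, hsym, hker, hfix⟩ := projZ_spec (N + ds.length) (rowsOf N E s ds) rowsOf_len
  set D := (projZ (N + ds.length) (rowsOf N E s ds)).1 with hDdef
  set P := (projZ (N + ds.length) (rowsOf N E s ds)).2 with hPdef
  set K := ds.length with hK
  have hsR : (0 : ℝ) < s := by exact_mod_cast hs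
  -- the projected vector
  let u : ℕ → ℝ := fun i => ((dotZ (P.getD i []) v : ℤ) : ℝ)
  have hu : ∀ j : Fin N, (mulVecZ (invOf N E s ds).2 v).getD j 0 = dotZ (P.getD j []) v := by
    intro j
    rw [getD_mulVecZ, invOf]
    congr 1
    simp only [List.getD_eq_getElem?_getD]
    rw [List.getElem?_take_of_lt j.2]
  have hv' : ∀ k, N + K ≤ k → v.getD k 0 = 0 := fun k hk => getD_eq_zero (by omega)
  have hudef : ∀ i, u i = ∑ k ∈ Finset.range (N + K), ((((P.getD i []).getD k 0 : ℤ) : ℝ)) * ((v.getD k 0 : ℤ) : ℝ) := by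
    intro i
    simp only [u]
    rw [dotZ_eq_sum _ _ (N + K) (Or.inr (by omega))]
    push_cast
    rfl
  have hswap : ∀ x : ℕ → ℝ, ∑ i ∈ Finset.range (N + K), x i * u i =
      ∑ k ∈ Finset.range (N + K), ((v.getD k 0 : ℤ) : ℝ) * ldot (P.getD k []) x := by
    intro x
    simp only [hudef, Finset.mul_sum]
    rw [Finset.sum_comm]
    refine Finset.sum_congr rfl fun k hk => ?_
    have hk' := Finset.mem_range.1 hk
    rw [ldot_eq_sum (P.getD k []) x (N + K) (by
      rw [hPr _ (getD_mem (by rw [hPl]; exact hk'))]), Finset.mul_sum]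
    refine Finset.sum_congr rfl fun i _ => ?_
    rw [hsym i k]
    ring
  -- the rows vanish at `u`
  have hrow : ∀ j < K, (s : ℝ) * 2 ^ (ds.getD j (0, [])).1 * u (N + j) =
      2 ^ E * ∑ k : Fin N, (((ds.getD j (0, [])).2.getD k 0 : ℤ) : ℝ) * u k := by
    intro j hj
    have hmem : rowOf N E s K j (ds.getD j (0, [])) ∈ rowsOf N E s ds :=
      List.mem_map.2 ⟨j, List.mem_range.2 hj, rfl⟩
    have h1 := ldot_rowOf N E s K j hj (ds.getD j (0, [])) u
    have h2 : ldot (rowOf N E s K j (ds.getD j (0, []))) u = 0 := by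
      rw [ldot_eq_sum _ _ (N + K) (by rw [rowOf_length])]
      have h3 := hswap fun i => (((rowOf N E s K j (ds.getD j (0, []))).getD i 0 : ℤ) : ℝ)
      rw [h3]
      refine Finset.sum_eq_zero fun k hk => ?_
      have hk' := Finset.mem_range.1 hk
      rw [ldot_intVec, hker _ hmem _ (getD_mem (by rw [hPl]; exact hk'))]
      simp
    rw [h2] at h1
    linarith
  -- the test vector
  let x : ℕ → ℝ := fun i => if i < N then (if i = a then 1 else 0) else
    2 ^ E / ((s : ℝ) * 2 ^ (ds.getD (i - N) (0, [])).1) * (((ds.getD (i - N) (0, [])).2.getD a 0 : ℤ) : ℝ)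
  have hxN : ∀ i : Fin N, x i = if i = a then 1 else 0 := by
    intro i
    simp only [x, if_pos i.2]
    by_cases h : i = a
    · rw [if_pos h, if_pos (by rw [h])]
    · rw [if_neg h, if_neg (fun h' => h (Fin.ext h'))]
  have hxK : ∀ j, x (N + j) = 2 ^ E / ((s : ℝ) * 2 ^ (ds.getD j (0, [])).1) *
      (((ds.getD j (0, [])).2.getD a 0 : ℤ) : ℝ) := by
    intro j
    simp only [x]
    rw [if_neg (by omega), Nat.add_sub_cancel_left]
  have hx : ∀ r ∈ rowsOf N E s ds, ldot r x = 0 := by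
    intro r hr
    obtain ⟨j, hj, rfl⟩ := mem_rowsOf hr
    rw [ldot_rowOf N E s _ j hj, hxK]
    have : ∑ k : Fin N, (((ds.getD j (0, [])).2.getD k 0 : ℤ) : ℝ) * x k =
        (((ds.getD j (0, [])).2.getD a 0 : ℤ) : ℝ) := by
      simp only [hxN]
      simp
    rw [this]
    have h2 : (0 : ℝ) < 2 ^ (ds.getD j (0, [])).1 := by positivity
    field_simp
    ring
  -- the identity
  have hmain : u a + ∑ j ∈ Finset.range K, x (N + j) * u (N + j) = (D : ℝ) * ((v.getD a 0 : ℤ) : ℝ) := by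
    have h1 := hswap x
    have h2 : ∑ k ∈ Finset.range (N + K), ((v.getD k 0 : ℤ) : ℝ) * ldot (P.getD k []) x =
        ∑ k ∈ Finset.range (N + K), ((v.getD k 0 : ℤ) : ℝ) * ((D : ℝ) * x k) := by
      refine Finset.sum_congr rfl fun k hk => ?_
      rw [hfix x hx k (Finset.mem_range.1 hk)]
    rw [h2, Finset.sum_range_add, Finset.sum_range_add] at h1
    have h3 : ∑ j ∈ Finset.range K, ((v.getD (N + j) 0 : ℤ) : ℝ) * ((D : ℝ) * x (N + j)) = 0 := by
      refine Finset.sum_eq_zero fun j _ => ?_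
      rw [getD_eq_zero (by omega : v.length ≤ N + j)]
      simp
    have h4 : ∑ i ∈ Finset.range N, x i * u i = u a := by
      rw [Finset.sum_range]
      simp only [hxN]
      simp
    have h5 : ∑ k ∈ Finset.range N, ((v.getD k 0 : ℤ) : ℝ) * ((D : ℝ) * x k) =
        (D : ℝ) * ((v.getD a 0 : ℤ) : ℝ) := by
      rw [Finset.sum_range]
      simp only [hxN]
      simp
      ring
    rw [h3, add_zero, h4, h5] at h1
    exact h1
  -- the left hand side
  have hL : (((matOf N E s ds *ᵥ fun j : Fin N =>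
      (((mulVecZ (invOf N E s ds).2 v).getD j 0 : ℤ) : ℚ)) a : ℚ) : ℝ) =
      u a + ∑ j ∈ Finset.range K, x (N + j) * u (N + j) := by
    have e1 : (matOf N E s ds *ᵥ fun j : Fin N =>
        (((mulVecZ (invOf N E s ds).2 v).getD j 0 : ℤ) : ℚ)) a =
        ((dotZ (P.getD a []) v : ℤ) : ℚ) + ∑ j ∈ Finset.range K, (((s * s : ℕ) : ℚ)⁻¹ *
          ((2 : ℚ) ^ ((E : ℤ) - ((ds.getD j (0, [])).1 : ℤ)) * (((ds.getD j (0, [])).2.getD a 0 : ℤ) : ℚ) *
          ((2 : ℚ) ^ ((E : ℤ) - ((ds.getD j (0, [])).1 : ℤ)) *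
            ∑ k : Fin N, (((ds.getD j (0, [])).2.getD k 0 : ℤ) : ℚ) * ((dotZ (P.getD k []) v : ℤ) : ℚ)))) := by
      rw [matOf, add_mulVec, one_mulVec, smul_mulVec, sqOf, sum_map_getD _ ds (0, []), Pi.add_apply,
        Matrix.sum_mulVec, Pi.smul_apply, Finset.sum_apply, hu a, smul_eq_mul, Finset.mul_sum]
      congr 1
      refine Finset.sum_congr rfl fun j _ => ?_
      simp only [hu]
      rw [vecMulVec_mulVec, Pi.smul_apply]
      simp only [hatOf, Pi.smul_apply, smul_eq_mul, qv, toV, MulOpposite.smul_eq_mul_unop, MulOpposite.unop_op,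
        dotProduct, Finset.mul_sum, mul_assoc]
    rw [e1]
    push_cast
    congr 1
    refine Finset.sum_congr rfl fun j hj => ?_
    have hj' := Finset.mem_range.1 hj
    have e2 := hrow j hj'
    have e3 : (0 : ℝ) < 2 ^ (ds.getD j (0, [])).1 := by positivity
    have e4 : u (N + j) = 2 ^ E / ((s : ℝ) * 2 ^ (ds.getD j (0, [])).1) *
        ∑ k : Fin N, (((ds.getD j (0, [])).2.getD k 0 : ℤ) : ℝ) * u k := by
      rw [div_mul_eq_mul_div, eq_div_iff (by positivity), ← e2]
      ring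
    have e5 : ((2 : ℝ) ^ ((E : ℤ) - ((ds.getD j (0, [])).1 : ℤ))) = 2 ^ E / 2 ^ (ds.getD j (0, [])).1 := by
      rw [zpow_sub₀ (by norm_num), zpow_natCast, zpow_natCast]
    rw [e4, hxK, e5]
    simp only [u]
    field_simp
  have hR : ((((invOf N E s ds).1 : ℚ) * qv (toV N v) a : ℚ) : ℝ) = (D : ℝ) * ((v.getD a 0 : ℤ) : ℝ) := by
    rw [qv, toV, invOf]
    push_cast
    rfl
  have : (((matOf N E s ds *ᵥ fun j : Fin N =>
      (((mulVecZ (invOf N E s ds).2 v).getD j 0 : ℤ) : ℚ)) a : ℚ) : ℝ) =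
      ((((invOf N E s ds).1 : ℚ) * qv (toV N v) a : ℚ) : ℝ) := by
    rw [hL, hR, hmain]
  exact_mod_cast this

/-- the state on lists represents the state over `ℚ` -/
structure Rep (N E s : ℕ) (st : List (ℕ × List ℤ) × List (ℕ × List ℤ)) (ls : LState N) : Prop where
  hM : ls.M = matOf N E s st.1
  hP : ls.P = sqOf N E st.2
  hy : ls.y = (st.2.map fun p => hatOf N E p).sum
  ht : ls.t = st.2.length
  le : ∀ p ∈ st.1 ++ st.2, p.1 ≤ 2 * E ∧ p.2.length = N

theorem rep_init (N E s : ℕ) : Rep N E s ([], []) (LState.init N) :=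
  ⟨by simp [LState.init, matOf, sqOf], by simp [LState.init, sqOf], by simp [LState.init],
    by simp [LState.init], by simp⟩

/-- the product with the inverse matrix -/
theorem inv_mul {N E s : ℕ} (hs : 0 < s) {ds : List (ℕ × List ℤ)} (hU : IsUnit (matOf N E s ds).det)
    (v : List ℤ) (hv : v.length ≤ N) :
    0 < (invOf N E s ds).1 ∧ ∀ j : Fin N, (((mulVecZ (invOf N E s ds).2 v).getD j 0 : ℤ) : ℚ) =
      ((invOf N E s ds).1 : ℚ) * ((matOf N E s ds)⁻¹ *ᵥ qv (toV N v)) j := by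
  refine ⟨(projZ_spec (N + ds.length) (rowsOf N E s ds) rowsOf_len).1, fun j => ?_⟩
  have h1 : (matOf N E s ds *ᵥ fun j : Fin N =>
      (((mulVecZ (invOf N E s ds).2 v).getD j 0 : ℤ) : ℚ)) = ((invOf N E s ds).1 : ℚ) • qv (toV N v) := by
    funext a
    rw [mat_mul hs ds v hv a]
    rfl
  have h2 : (fun j : Fin N => (((mulVecZ (invOf N E s ds).2 v).getD j 0 : ℤ) : ℚ)) =
      (matOf N E s ds)⁻¹ *ᵥ (((invOf N E s ds).1 : ℚ) • qv (toV N v)) := by
    rw [← h1, mulVec_mulVec, nonsing_inv_mul _ hU, one_mulVec]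
  have h3 := congrFun h2 j
  rw [mulVec_smul] at h3
  exact h3

private theorem dot_cast {N : ℕ} (g v : List ℤ) (hg : g.length ≤ N) :
    ((dotZ g v : ℤ) : ℚ) = qv (toV N g) ⬝ᵥ fun j : Fin N => ((v.getD j 0 : ℤ) : ℚ) := by
  rw [dotZ_eq_fin g v N (Or.inl hg)]
  push_cast
  rfl

theorem invOf_pos (N E s : ℕ) (ds : List (ℕ × List ℤ)) : 0 < (invOf N E s ds).1 :=
  (projZ_spec (N + ds.length) (rowsOf N E s ds) rowsOf_len).1

/-- the quadratic form of the inverse matrix -/
theorem dot_inv {N E s : ℕ} (hs : 0 < s) {ds : List (ℕ × List ℤ)} (hU : IsUnit (matOf N E s ds).det)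
    (g v : List ℤ) (hg : g.length ≤ N) (hv : v.length ≤ N) :
    ((dotZ g (mulVecZ (invOf N E s ds).2 v) : ℤ) : ℚ) =
      ((invOf N E s ds).1 : ℚ) * (qv (toV N g) ⬝ᵥ (matOf N E s ds)⁻¹ *ᵥ qv (toV N v)) := by
  have h1 : (fun j : Fin N => (((mulVecZ (invOf N E s ds).2 v).getD j 0 : ℤ) : ℚ)) =
      ((invOf N E s ds).1 : ℚ) • ((matOf N E s ds)⁻¹ *ᵥ qv (toV N v)) :=
    funext fun j => (inv_mul hs hU v hv).2 j
  rw [dot_cast g _ hg, h1, dotProduct_smul, smul_eq_mul]

private theorem yOf_cast {N E : ℕ} {cs : List (ℕ × List ℤ)} (h : ∀ p ∈ cs, p.1 ≤ 2 * E) :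
    qv (toV N (yOf N E cs)) = (2 : ℚ) ^ E • (cs.map fun p => hatOf N E p).sum := by
  funext j
  have h1 : (toV N (yOf N E cs)) j = (cs.map fun p => (2 : ℤ) ^ (2 * E - p.1) * p.2.getD j 0).sum := by
    rw [toV, yOf, getD_map_range, if_pos j.2]
  rw [qv, h1, Pi.smul_apply, smul_eq_mul]
  clear h1
  induction cs with
  | nil => simp
  | cons p cs ih =>
    have h2 := ih fun q hq => h q (List.mem_cons_of_mem _ hq)
    have h3 := h p List.mem_cons_self
    rw [List.map_cons, List.map_cons, List.sum_cons, List.sum_cons, Pi.add_apply, mul_add, ← h2]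
    push_cast
    congr 1
    rw [hatOf, Pi.smul_apply, smul_eq_mul, qv, toV, ← mul_assoc]
    congr 1
    rw [← zpow_natCast (2 : ℚ) E, ← zpow_add₀ (by norm_num), ← zpow_natCast (2 : ℚ) (2 * E - p.1)]
    congr 1
    omega

/-- the hypothesis -/
theorem hyp_link {N E s : ℕ} (hs : 0 < s) {st : List (ℕ × List ℤ) × List (ℕ × List ℤ)} {ls : LState N}
    (h : Rep N E s st ls) (hU : IsUnit ls.M.det) (g : List ℤ) (hg : g.length ≤ N) :
    ((dotZ g (hypOf N E s st) : ℤ) : ℚ) =
      ((invOf N E s st.1).1 : ℚ) * 2 ^ E * (qv (toV N g) ⬝ᵥ ls.M⁻¹ *ᵥ ls.y) := by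
  have hU' : IsUnit (matOf N E s st.1).det := by rw [← h.hM]; exact hU
  rw [hypOf, dot_inv hs hU' g _ hg (by simp [yOf]), yOf_cast fun p hp =>
    (h.le p (List.mem_append_right _ hp)).1, h.hM, h.hy, mulVec_smul, dotProduct_smul, smul_eq_mul]
  ring

/-- the sign of the value at the hypothesis -/
theorem hyp_le {N E s : ℕ} (hs : 0 < s) {st : List (ℕ × List ℤ) × List (ℕ × List ℤ)} {ls : LState N}
    (h : Rep N E s st ls) (hU : IsUnit ls.M.det) (g : List ℤ) (hg : g.length ≤ N) :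
    dotZ g (hypOf N E s st) ≤ 0 ↔ qv (toV N g) ⬝ᵥ ls.M⁻¹ *ᵥ ls.y ≤ 0 := by
  have h1 := hyp_link hs h hU g hg
  have h2 : (0 : ℚ) < ((invOf N E s st.1).1 : ℚ) * 2 ^ E := by
    have := invOf_pos N E s st.1
    have h3 : (0 : ℚ) < ((invOf N E s st.1).1 : ℚ) := by exact_mod_cast this
    positivity
  constructor
  · intro h3
    have h4 : ((dotZ g (hypOf N E s st) : ℤ) : ℚ) ≤ 0 := by exact_mod_cast h3
    rw [h1] at h4
    by_contra h5
    push Not at h5
    have := mul_pos h2 h5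
    linarith
  · intro h3
    have h4 : ((dotZ g (hypOf N E s st) : ℤ) : ℚ) ≤ 0 := by
      rw [h1]
      exact mul_nonpos_of_nonneg_of_nonpos h2.le h3
    exact_mod_cast h4

/-- the exponent -/
theorem expOf_eq {N E s : ℕ} (hs : 0 < s) {st : List (ℕ × List ℤ) × List (ℕ × List ℤ)} {ls : LState N}
    (h : Rep N E s st ls) (hU : IsUnit ls.M.det) (g : List ℤ) (hg : g.length = N)
    (hn : 0 < nrm ls.M (toV N g)) (h1 : -(E : ℤ) ≤ expo ls.M (toV N g)) (h2 : expo ls.M (toV N g) ≤ E) :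
    ((expOf N E s st.1 g : ℕ) : ℤ) = expo ls.M (toV N g) + E := by
  have hU' : IsUnit (matOf N E s st.1).det := by rw [← h.hM]; exact hU
  have hD : (0 : ℚ) < ((invOf N E s st.1).1 : ℚ) := by exact_mod_cast invOf_pos N E s st.1
  -- the test
  have htest : ∀ i : ℕ, (4 ^ E * dotZ g (mulVecZ (invOf N E s st.1).2 g) < (invOf N E s st.1).1 * 4 ^ i) ↔
      expo ls.M (toV N g) + E ≤ i := by
    intro i
    have e1 : (4 ^ E * dotZ g (mulVecZ (invOf N E s st.1).2 g) < (invOf N E s st.1).1 * 4 ^ i) ↔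
        nrm ls.M (toV N g) < (4 : ℚ) ^ ((i : ℤ) - E) := by
      have e2 : ((dotZ g (mulVecZ (invOf N E s st.1).2 g) : ℤ) : ℚ) =
          ((invOf N E s st.1).1 : ℚ) * nrm ls.M (toV N g) := by
        rw [dot_inv hs hU' g g hg.le hg.le, nrm, h.hM]
      rw [zpow_sub₀ (by norm_num), zpow_natCast, zpow_natCast, lt_div_iff₀ (by positivity)]
      rw [← Int.cast_lt (R := ℚ)]
      push_cast
      rw [e2]
      constructor
      · intro h3
        have h4 : ((invOf N E s st.1).1 : ℚ) * (nrm ls.M (toV N g) * 4 ^ E) <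
            ((invOf N E s st.1).1 : ℚ) * 4 ^ i := by linarith
        exact lt_of_mul_lt_mul_left h4 hD.le
      · intro h3
        have := mul_lt_mul_of_pos_left h3 hD
        linarith
    rw [e1, expo]
    have h5 := Int.lt_zpow_iff_log_lt (R := ℚ) (b := 4) (by norm_num) (x := (i : ℤ) - E) hn
    push_cast at h5
    rw [h5]
    constructor <;> intro h6 <;> omega
  obtain ⟨n, hn'⟩ : ∃ n : ℕ, (n : ℤ) = expo ls.M (toV N g) + E := ⟨(expo ls.M (toV N g) + E).toNat, by omega⟩
  have hfind : ((List.range (2 * E + 1)).find? fun i =>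
      decide (4 ^ E * dotZ g (mulVecZ (invOf N E s st.1).2 g) < (invOf N E s st.1).1 * 4 ^ i)) = some n := by
    rw [List.find?_range_eq_some]
    refine ⟨?_, ?_, ?_⟩
    · rw [decide_eq_true_eq, htest]
      omega
    · rw [List.mem_range]
      omega
    · intro j hj
      simp only [Bool.not_eq_true', decide_eq_false_iff_not, htest]
      omega
  rw [expOf, hfind, Option.getD_some]
  exact hn'

/-- an update on lists is an update over `ℚ` -/
theorem rep_push {N E s : ℕ} (hs : 0 < s) {st : List (ℕ × List ℤ) × List (ℕ × List ℤ)} {ls : LState N}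
    (h : Rep N E s st ls) (hU : IsUnit ls.M.det) (g : List ℤ) (hg : g.length = N)
    (hn : 0 < nrm ls.M (toV N g)) (h1 : -(E : ℤ) ≤ expo ls.M (toV N g)) (h2 : expo ls.M (toV N g) ≤ E) :
    Rep N E s (pushOf s st (expOf N E s st.1 g, g)) (upd (s * s) ls (toV N g)) := by
  have he := expOf_eq hs h hU g hg hn h1 h2
  have hhat : ghat ls.M (toV N g) = hatOf N E (expOf N E s st.1 g, g) := by
    rw [ghat, hatOf]
    congr 2
    simp only
    omega
  have hi : expOf N E s st.1 g ≤ 2 * E := by omega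
  have hsq : ∀ cs : List (ℕ × List ℤ), sqOf N E (cs ++ [(expOf N E s st.1 g, g)]) =
      sqOf N E cs + vecMulVec (hatOf N E (expOf N E s st.1 g, g)) (hatOf N E (expOf N E s st.1 g, g)) := by
    intro cs
    simp [sqOf]
  have hsq2 : ∀ as bs : List (ℕ × List ℤ), sqOf N E (as ++ bs) = sqOf N E as + sqOf N E bs := by
    intro as bs
    simp [sqOf]
  have hle : ∀ p ∈ st.1 ++ (st.2 ++ [(expOf N E s st.1 g, g)]), p.1 ≤ 2 * E ∧ p.2.length = N := by
    intro p hp
    rcases List.mem_append.1 hp with hp | hp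
    · exact h.le p (List.mem_append_left _ hp)
    · rcases List.mem_append.1 hp with hp | hp
      · exact h.le p (List.mem_append_right _ hp)
      · rw [List.mem_singleton.1 hp]
        exact ⟨hi, hg⟩
  unfold pushOf upd
  rw [h.ht]
  by_cases hc : st.2.length + 1 = s * s
  · rw [if_pos hc, if_pos hc]
    refine ⟨?_, ?_, ?_, ?_, ?_⟩
    · simp only
      rw [hhat, h.hM, h.hP, matOf, matOf, hsq2, hsq, add_assoc, smul_add, smul_add, smul_add]
    · simp [sqOf]
    · simp
    · simp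
    · simpa using hle
  · rw [if_neg hc, if_neg hc]
    refine ⟨h.hM, ?_, ?_, ?_, hle⟩
    · simp only
      rw [hhat, h.hP, hsq]
    · simp only
      rw [h.hy, hhat]
      simp
    · simp

/-- the updates of a state on lists -/
def updsOf (N : ℕ) (st : List (ℕ × List ℤ) × List (ℕ × List ℤ)) : List (Fin N → ℤ) :=
  (st.1 ++ st.2).map fun p => toV N p.2

theorem updsOf_push (N s : ℕ) (st : List (ℕ × List ℤ) × List (ℕ × List ℤ)) (p : ℕ × List ℤ) :
    updsOf N (pushOf s st p) = updsOf N st ++ [toV N p.2] := by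
  unfold updsOf pushOf
  split <;> simp

end Pool.Agent.Lib.MP_4d246d_lc.EB
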