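import Pool.Agent.Lib.MP_4d246d_lc.QP.PolyProj
import Pool.Agent.Lib.MP_4d246d_lc.EB.GuessDefs

/-!
# The guess of the core is computed in polynomial time
-/

set_option autoImplicit false

namespace Pool.Agent.Lib.MP_4d246d_lc.EB

open Pool.Agent.Simplex.QP Pool.Agent.Lib.PolyTime

section

variable {α : Type*} [TEnc α]

theorem polyF_rowOf {N E s m j : α → ℕ} {p : α → ℕ × List ℤ} (hN : PolyF N) (hE : PolyF E) (hs : PolyF s)
    (hm : PolyF m) (hj : PolyF j) (hp : PolyF p) :
    PolyF (fun x => rowOf (N x) (E x) (s x) (m x) (j x) (p x)) := by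
  refine ((PolyF.padZ hN hp.snd).map (h := fun x a => 2 ^ E x * a) ?_).append
    ((PolyF.unitZ hm hj).map (h := fun x a => -((s x : ℤ) * 2 ^ (p x).1) * a) ?_)
  · exact (hE.comp PolyF.fst').intTwoPow.intMul PolyF.snd'
  · exact ((hs.comp PolyF.fst').intOfNat.intMul (hp.fst.comp PolyF.fst').intTwoPow).intNeg.intMul PolyF.snd'

theorem polyF_rowsOf {N E s : α → ℕ} {ds : α → List (ℕ × List ℤ)} (hN : PolyF N) (hE : PolyF E)
    (hs : PolyF s) (hd : PolyF ds) : PolyF (fun x => rowsOf (N x) (E x) (s x) (ds x)) := by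
  refine hd.length.range.map (h := fun x j => rowOf (N x) (E x) (s x) (ds x).length j ((ds x).getD j (0, []))) ?_
  exact polyF_rowOf (hN.comp PolyF.fst') (hE.comp PolyF.fst') (hs.comp PolyF.fst')
    (hd.length.comp PolyF.fst') PolyF.snd' ((hd.comp PolyF.fst').getDL PolyF.snd' (PolyF.const _))

theorem polyF_invOf {N E s : α → ℕ} {ds : α → List (ℕ × List ℤ)} (hN : PolyF N) (hE : PolyF E)
    (hs : PolyF s) (hd : PolyF ds) : PolyF (fun x => invOf (N x) (E x) (s x) (ds x)) := by
  have h1 : PolyF (fun x => projZ (N x + (ds x).length) (rowsOf (N x) (E x) (s x) (ds x))) := by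
    refine PolyF.projZ projBound (hN.natAdd hd.length) (polyF_rowsOf hN hE hs hd) ?_
    intro x r hr
    obtain ⟨j, _, rfl⟩ := List.mem_map.1 hr
    simp [rowOf]
  exact h1.fst.pair (hN.take h1.snd)

theorem polyF_yOf {N E : α → ℕ} {cs : α → List (ℕ × List ℤ)} (hN : PolyF N) (hE : PolyF E)
    (hc : PolyF cs) : PolyF (fun x => yOf (N x) (E x) (cs x)) := by
  refine hN.range.map (h := fun x j => ((cs x).map fun p => 2 ^ (2 * E x - p.1) * p.2.getD j 0).sum) ?_
  refine PolyF.intSum ((hc.comp PolyF.fst').map (h := fun (q : α × ℕ) p =>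
    2 ^ (2 * E q.1 - p.1) * p.2.getD q.2 0) ?_)
  exact ((((PolyF.const 2).natMul (hE.comp PolyF.fst'.fst)).natSub PolyF.snd'.fst).intTwoPow).intMul
    (PolyF.snd'.snd.getDZ PolyF.fst'.snd)

theorem polyF_hypOf {N E s : α → ℕ} {st : α → List (ℕ × List ℤ) × List (ℕ × List ℤ)} (hN : PolyF N)
    (hE : PolyF E) (hs : PolyF s) (hst : PolyF st) : PolyF (fun x => hypOf (N x) (E x) (s x) (st x)) :=
  PolyF.mulVecZ (polyF_invOf hN hE hs hst.fst).snd (polyF_yOf hN hE hst.snd)

theorem polyF_expOf {N E s : α → ℕ} {ds : α → List (ℕ × List ℤ)} {g : α → List ℤ} (hN : PolyF N)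
    (hE : PolyF E) (hs : PolyF s) (hd : PolyF ds) (hg : PolyF g) :
    PolyF (fun x => expOf (N x) (E x) (s x) (ds x) (g x)) := by
  have hi := polyF_invOf hN hE hs hd
  have hq : PolyF (fun x => (4 : ℤ) ^ E x * dotZ (g x) (mulVecZ (invOf (N x) (E x) (s x) (ds x)).2 (g x))) :=
    ((PolyF.const (4 : ℤ)).intPow hE).intMul (PolyF.dotZ hg (PolyF.mulVecZ hi.snd hg))
  refine PolyF.getD (((PolyF.const 2).natMul hE).succ.range.find? (p := fun x i =>
    decide (4 ^ E x * dotZ (g x) (mulVecZ (invOf (N x) (E x) (s x) (ds x)).2 (g x)) <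
      (invOf (N x) (E x) (s x) (ds x)).1 * 4 ^ i)) ?_) (PolyF.const 0)
  exact (hq.comp PolyF.fst').intLt ((hi.fst.comp PolyF.fst').intMul
    ((PolyF.const (4 : ℤ)).intPow PolyF.snd'))

theorem polyF_pushOf {s : α → ℕ} {st : α → List (ℕ × List ℤ) × List (ℕ × List ℤ)} {p : α → ℕ × List ℤ}
    (hs : PolyF s) (hst : PolyF st) (hp : PolyF p) : PolyF (fun x => pushOf (s x) (st x) (p x)) := by
  refine PolyF.ite (p := fun x => (st x).2.length + 1 = s x * s x)
    (hst.snd.length.succ.natEq (hs.natMul hs)) ?_ ?_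
  · exact (hst.fst.append (hst.snd.append hp.singleton)).pair PolyF.nil
  · exact hst.fst.pair (hst.snd.append hp.singleton)

theorem polyF_stepOf {N E s : α → ℕ} {G : α → List (List ℤ)}
    {st : α → List (ℕ × List ℤ) × List (ℕ × List ℤ)} (hN : PolyF N) (hE : PolyF E) (hs : PolyF s)
    (hG : PolyF G) (hst : PolyF st) : PolyF (fun x => stepOf (N x) (E x) (s x) (G x) (st x)) := by
  have hf : PolyF (fun x => (G x).find? fun g => decide (dotZ g (hypOf (N x) (E x) (s x) (st x)) ≤ 0)) := by
    refine hG.find? (p := fun x g => decide (dotZ g (hypOf (N x) (E x) (s x) (st x)) ≤ 0)) ?_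
    exact (PolyF.dotZ PolyF.snd' ((polyF_hypOf hN hE hs hst).comp PolyF.fst')).intLe (PolyF.const 0)
  refine PolyF.optionCases (g := fun x => st x) (h := fun p : α × List ℤ =>
    pushOf (s p.1) (st p.1) (expOf (N p.1) (E p.1) (s p.1) (st p.1).1 p.2, p.2))
    hf hst ?_ (fun x h => ?_) (fun x b h => ?_)
  · exact polyF_pushOf (hs.comp PolyF.fst') (hst.comp PolyF.fst')
      ((polyF_expOf (hN.comp PolyF.fst') (hE.comp PolyF.fst') (hs.comp PolyF.fst') (hst.fst.comp PolyF.fst')
        PolyF.snd').pair PolyF.snd')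
  · simp only [stepOf, h]
  · simp only [stepOf, h]

theorem expOf_le (N E s : ℕ) (ds : List (ℕ × List ℤ)) (g : List ℤ) : expOf N E s ds g ≤ 2 * E := by
  unfold expOf
  cases h : (List.range (2 * E + 1)).find? fun i =>
      decide (4 ^ E * dotZ g (mulVecZ (invOf N E s ds).2 g) < (invOf N E s ds).1 * 4 ^ i) with
  | none => simp
  | some i =>
    have h1 := List.mem_of_find?_eq_some h
    rw [List.mem_range] at h1
    rw [Option.getD_some]
    omega

/-- the shape of the states -/
theorem coreRun_shape (N E s : ℕ) (G : List (List ℤ)) (k : ℕ) :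
    ((coreRun N E s k G).1 ++ (coreRun N E s k G).2).length ≤ k ∧
      ∀ p ∈ (coreRun N E s k G).1 ++ (coreRun N E s k G).2, p.1 ≤ 2 * E ∧ p.2 ∈ G := by
  induction k with
  | zero => simp [coreRun]
  | succ k ih =>
    have h1 : coreRun N E s (k + 1) G = stepOf N E s G (coreRun N E s k G) := by
      rw [coreRun, Function.iterate_succ_apply']
      rfl
    rw [h1]
    set st := coreRun N E s k G with hst
    unfold stepOf
    cases h : G.find? fun g => decide (dotZ g (hypOf N E s st) ≤ 0) with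
    | none => exact ⟨ih.1.trans (Nat.le_succ k), ih.2⟩
    | some g =>
      have hg := List.mem_of_find?_eq_some h
      have h2 : (pushOf s st (expOf N E s st.1 g, g)).1 ++ (pushOf s st (expOf N E s st.1 g, g)).2 =
          (st.1 ++ st.2) ++ [(expOf N E s st.1 g, g)] := by
        unfold pushOf
        split <;> simp
      simp only [h2]
      refine ⟨by rw [List.length_append, List.length_singleton]; omega, fun p hp => ?_⟩
      rcases List.mem_append.1 hp with hp | hp
      · exact ih.2 p hp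
      · rw [List.mem_singleton.1 hp]
        exact ⟨expOf_le N E s st.1 g, hg⟩

theorem polyF_coreRun {N E s k : α → ℕ} {G : α → List (List ℤ)} (hN : PolyF N) (hE : PolyF E)
    (hs : PolyF s) (hk : PolyF k) (hG : PolyF G) :
    PolyF (fun x => coreRun (N x) (E x) (s x) (k x) (G x)) := by
  refine PolyF.natIterate (f := fun x st => stepOf (N x) (E x) (s x) (G x) st)
    (g := fun _ => (([], []) : List (ℕ × List ℤ) × List (ℕ × List ℤ))) hk
    (polyF_stepOf (hN.comp PolyF.fst') (hE.comp PolyF.fst') (hs.comp PolyF.fst') (hG.comp PolyF.fst')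
      PolyF.snd') (PolyF.const _) ?_
  have h1 : PBd (fun x => 1 + (1 + 2 * E x + sz (G x) + 1) * k x) :=
    (PBd.const 1).add (((((PBd.const 1).add ((PBd.const 2).mul hE.pbdNat)).add hG.pbd).add
      (PBd.const 1)).mul hk.pbdNat)
  refine h1.imp fun P hP x i hi => ?_
  refine le_trans ?_ (hP x)
  have h2 := coreRun_shape (N x) (E x) (s x) (G x) i
  change sz (coreRun (N x) (E x) (s x) i (G x)) ≤ _
  set st := coreRun (N x) (E x) (s x) i (G x) with hst
  have h3 : sz (st.1 ++ st.2) ≤ (1 + 2 * E x + sz (G x) + 1) * (st.1 ++ st.2).length := by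
    refine sz_le_of_forall fun p hp => ?_
    have h4 := h2.2 p hp
    have h5 := sz_mem h4.2
    rw [sz_prod]
    have h6 : sz p.1 = p.1 := by simp
    omega
  have h4 : (1 + 2 * E x + sz (G x) + 1) * (st.1 ++ st.2).length ≤
      (1 + 2 * E x + sz (G x) + 1) * k x := Nat.mul_le_mul_left _ (h2.1.trans hi)
  rw [sz_append] at h3
  rw [sz_prod]
  simp only
  omega

theorem polyF_parE {N l : α → ℕ} (hN : PolyF N) (hl : PolyF l) : PolyF (fun x => parE (N x) (l x)) :=
  ((((PolyF.const 4).natAdd ((PolyF.const 4).natMul hN)).natAdd ((PolyF.const 2).natMul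
    ((hN.natAdd (hN.natMul hN)).natAdd (hl.natMul hN)))).natAdd ((PolyF.const 2).natMul hl))

theorem polyF_parK {N l : α → ℕ} (hN : PolyF N) (hl : PolyF l) : PolyF (fun x => parK (N x) (l x)) :=
  (PolyF.const 4).natMul (hN.natMul (polyF_parE hN hl)).succ

theorem polyF_parS {N l : α → ℕ} (hN : PolyF N) (hl : PolyF l) : PolyF (fun x => parS (N x) (l x)) :=
  (PolyF.const 2).natMul (polyF_parK hN hl)

/-- The guess of the core is computed in polynomial time. -/
theorem polyF_coreGuess {N l : α → ℕ} {G : α → List (List ℤ)} (hN : PolyF N) (hl : PolyF l)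
    (hG : PolyF G) : PolyF (fun x => coreGuess (N x) (l x) (G x)) := by
  have hE := polyF_parE hN hl
  have hK := polyF_parK hN hl
  have hS := polyF_parS hN hl
  exact polyF_hypOf hN hE hS (polyF_coreRun hN hE hS (hK.natMul (hS.natMul hS)) hG)

end

end Pool.Agent.Lib.MP_4d246d_lc.EB
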