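import Pool.Agent.Lib.MP_4d246d_lc.EB.Hom

/-!
# The homogenised program, second form

The variables are `z = x / 2 ^ (K + 1)`, `τ = 1 / 2 ^ (K + 1)` (number `n`) and
`ω = c' x / 2 ^ (K + 1) + 1 / 2` (number `n + 1`), where `c'` is the objective multiplied by its
denominator. The rows are `A z - b τ ≤ 0`, `2 ^ (K + 1) τ ≤ 1`, `- 2 ^ (K + 1) τ ≤ - 1`,
`ω - c' z - 2 ^ K τ ≤ 0` and its negative; the objective is `ω`.
-/

namespace Pool.Agent.Simplex.EB.Tab

open Pool.Agent.Lib.PolyTime Pool.Agent.Simplex.QP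

/-- the homogenised program -/
def hom (K : ℕ) {m n : ℕ} (D : QLP m n) : QLP (m + 4) (n + 2) where
  A i := if h : (i : ℕ) < m then homRow (D.A ⟨i, h⟩) (- D.b ⟨i, h⟩) 0
    else if (i : ℕ) = m then homRow 0 (2 ^ (K + 1)) 0
    else if (i : ℕ) = m + 1 then homRow 0 (- 2 ^ (K + 1)) 0
    else if (i : ℕ) = m + 2 then homRow (fun j => - intC D.c j) (- 2 ^ K) 1
    else homRow (intC D.c) (2 ^ K) (-1)
  b i := if (i : ℕ) = m then 1 else if (i : ℕ) = m + 1 then -1 else 0
  c j := if (j : ℕ) = n + 1 then 1 else 0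

variable {m n : ℕ} {K : ℕ} {D : QLP m n}

/-- `ω` is nonnegative -/
def OmegaOK (K : ℕ) (D : QLP m n) : Prop :=
  ∀ x ∈ D.feasible, - (2 : ℝ) ^ K ≤ ∑ j, (intC D.c j : ℝ) * x j

/-- the homogenised vertex -/
def homV (K : ℕ) (D : QLP m n) (v : Fin n → ℚ) : Fin (n + 2) → ℚ :=
  homRow (fun j => v j / 2 ^ (K + 1)) (1 / 2 ^ (K + 1))
    ((∑ j, intC D.c j * v j) / 2 ^ (K + 1) + 1 / 2)

/-- the points of the homogenised program -/
theorem hm_feasible (y : Fin (n + 2) → ℝ) : y ∈ (ofQ (hom K D)).feasible ↔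
    (∀ i : Fin m, ∑ j : Fin n, (D.A i j : ℝ) * y ⟨j, by omega⟩ ≤ D.b i * y ⟨n, by omega⟩) ∧
      y ⟨n, by omega⟩ = 1 / 2 ^ (K + 1) ∧
      y ⟨n + 1, by omega⟩ = (∑ j : Fin n, (intC D.c j : ℝ) * y ⟨j, by omega⟩) + 1 / 2 ∧
      ∀ j, 0 ≤ y j := by
  have hK : (0 : ℝ) < 2 ^ (K + 1) := by positivity
  have hrow : ∀ i : Fin (m + 4), ∑ j, (((ofQ (hom K D)).A i j : ℚ) : ℝ) * y j ≤
      (ofQ (hom K D)).b i ↔
      (if h : (i : ℕ) < m then
        ∑ j : Fin n, (D.A ⟨i, h⟩ j : ℝ) * y ⟨j, by omega⟩ ≤ D.b ⟨i, h⟩ * y ⟨n, by omega⟩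
      else if (i : ℕ) = m then 2 ^ (K + 1) * y ⟨n, by omega⟩ ≤ 1
      else if (i : ℕ) = m + 1 then - (2 ^ (K + 1) * y ⟨n, by omega⟩) ≤ -1
      else if (i : ℕ) = m + 2 then
        y ⟨n + 1, by omega⟩ ≤ (∑ j : Fin n, (intC D.c j : ℝ) * y ⟨j, by omega⟩) +
          2 ^ K * y ⟨n, by omega⟩
      else (∑ j : Fin n, (intC D.c j : ℝ) * y ⟨j, by omega⟩) + 2 ^ K * y ⟨n, by omega⟩ ≤
        y ⟨n + 1, by omega⟩) := by
    intro i
    change ∑ j, (((hom K D).A i j : ℚ) : ℝ) * y j ≤ (((hom K D).b i : ℚ) : ℝ) ↔ _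
    unfold hom
    dsimp only
    by_cases h1 : (i : ℕ) < m
    · have e1 : ¬ (i : ℕ) = m := by omega
      have e2 : ¬ (i : ℕ) = m + 1 := by omega
      simp only [dif_pos h1, if_neg e1, if_neg e2]
      rw [hm_sum]
      push_cast
      constructor <;> intro h <;> linarith
    · simp only [dif_neg h1]
      by_cases h2 : (i : ℕ) = m
      · simp only [if_pos h2]
        rw [hm_sum]
        simp
      · simp only [if_neg h2]
        by_cases h3 : (i : ℕ) = m + 1
        · simp only [if_pos h3]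
          rw [hm_sum]
          simp
        · simp only [if_neg h3]
          by_cases h4 : (i : ℕ) = m + 2
          · simp only [if_pos h4]
            rw [hm_sum]
            simp only [Rat.cast_neg, neg_mul, Finset.sum_neg_distrib, Rat.cast_pow,
              Rat.cast_ofNat, Rat.cast_one, one_mul, Rat.cast_zero]
            constructor <;> intro h <;> linarith
          · simp only [if_neg h4]
            rw [hm_sum]
            simp only [Rat.cast_neg, neg_mul, Rat.cast_pow,
              Rat.cast_ofNat, Rat.cast_one, one_mul, Rat.cast_zero]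
            constructor <;> intro h <;> linarith
  constructor
  · rintro ⟨h1, h2⟩
    have ha : ∀ i : Fin m, ∑ j : Fin n, (D.A i j : ℝ) * y ⟨j, by omega⟩ ≤
        D.b i * y ⟨n, by omega⟩ := by
      intro i
      have := (hrow ⟨i, by omega⟩).1 (h1 _)
      rwa [dif_pos i.2] at this
    have hb := (hrow ⟨m, by omega⟩).1 (h1 _)
    rw [dif_neg (lt_irrefl m), if_pos rfl] at hb
    have hc := (hrow ⟨m + 1, by omega⟩).1 (h1 _)
    rw [dif_neg (by simp), if_neg (by simp), if_pos rfl] at hc
    have hd := (hrow ⟨m + 2, by omega⟩).1 (h1 _)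
    rw [dif_neg (by simp), if_neg (by simp), if_neg (by simp), if_pos rfl] at hd
    have he := (hrow ⟨m + 3, by omega⟩).1 (h1 _)
    rw [dif_neg (by simp), if_neg (by simp), if_neg (by simp), if_neg (by simp)] at he
    have hf : 2 ^ (K + 1) * y ⟨n, by omega⟩ = 1 := by linarith
    have hg : 2 ^ K * y ⟨n, by omega⟩ = 1 / 2 := by rw [pow_succ] at hf; linarith
    refine ⟨ha, ?_, ?_, h2⟩
    · rw [eq_div_iff hK.ne']; linarith
    · linarith
  · rintro ⟨h1, h2, h3, h4⟩
    have hf : 2 ^ (K + 1) * y ⟨n, by omega⟩ = 1 := by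
      rw [h2, mul_one_div, div_self hK.ne']
    have hg : 2 ^ K * y ⟨n, by omega⟩ = 1 / 2 := by rw [pow_succ] at hf; linarith
    refine ⟨fun i => (hrow i).2 ?_, h4⟩
    by_cases e1 : (i : ℕ) < m
    · rw [dif_pos e1]; exact h1 _
    · rw [dif_neg e1]
      by_cases e2 : (i : ℕ) = m
      · rw [if_pos e2]; linarith
      · rw [if_neg e2]
        by_cases e3 : (i : ℕ) = m + 1
        · rw [if_pos e3]; linarith
        · rw [if_neg e3]
          by_cases e4 : (i : ℕ) = m + 2
          · rw [if_pos e4]; linarith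
          · rw [if_neg e4]; linarith

/-- the isomorphism -/
noncomputable def homIso (hK : OmegaOK K D) : PIso (ofQ D) (ofQ (hom K D)) where
  L :=
    { toFun := fun x j => if h : (j : ℕ) < n then x ⟨j, h⟩ / 2 ^ (K + 1)
        else if (j : ℕ) = n then 0 else (∑ j, (intC D.c j : ℝ) * x j) / 2 ^ (K + 1)
      map_add' := by
        intro x y
        funext j
        simp only [Pi.add_apply]
        by_cases h1 : (j : ℕ) < n
        · simp only [dif_pos h1, add_div]
        · simp only [dif_neg h1]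
          by_cases h2 : (j : ℕ) = n
          · simp only [if_pos h2, add_zero]
          · simp only [if_neg h2, mul_add, Finset.sum_add_distrib, add_div]
      map_smul' := by
        intro r x
        funext j
        simp only [Pi.smul_apply, smul_eq_mul, RingHom.id_apply]
        by_cases h1 : (j : ℕ) < n
        · simp only [dif_pos h1, mul_div_assoc]
        · simp only [dif_neg h1]
          by_cases h2 : (j : ℕ) = n
          · simp only [if_pos h2, mul_zero]
          · simp only [if_neg h2]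
            rw [← mul_div_assoc, Finset.mul_sum]
            congr 1
            refine Finset.sum_congr rfl fun i _ => ?_
            ring }
  a j := if (j : ℕ) < n then 0 else if (j : ℕ) = n then 1 / 2 ^ (K + 1) else 1 / 2
  inj := by
    intro x y h
    funext j
    have hK : (2 : ℝ) ^ (K + 1) ≠ 0 := by positivity
    have h1 := congrFun h ⟨j, by omega⟩
    change (if h : (j : ℕ) < n then x ⟨j, h⟩ / 2 ^ (K + 1) else _) =
      (if h : (j : ℕ) < n then y ⟨j, h⟩ / 2 ^ (K + 1) else _) at h1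
    rw [dif_pos j.2, dif_pos j.2] at h1
    exact (div_left_inj' hK).1 h1
  feas := by
    have hp : (0 : ℝ) < 2 ^ (K + 1) := by positivity
    ext y
    rw [hm_feasible]
    constructor
    · rintro ⟨h1, h2, h3, h4⟩
      refine ⟨fun j => 2 ^ (K + 1) * y ⟨j, by omega⟩, ⟨fun i => ?_, fun j => ?_⟩, ?_⟩
      · have h := h1 i
        rw [h2, mul_one_div, le_div_iff₀ hp] at h
        change ∑ j, (D.A i j : ℝ) * (2 ^ (K + 1) * y ⟨j, by omega⟩) ≤ D.b i
        refine le_trans (le_of_eq ?_) h
        rw [Finset.sum_mul]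
        refine Finset.sum_congr rfl fun j _ => ?_
        ring
      · exact mul_nonneg hp.le (h4 _)
      · funext j
        change (if h : (j : ℕ) < n then 2 ^ (K + 1) * y ⟨j, by omega⟩ / 2 ^ (K + 1)
            else if (j : ℕ) = n then 0
              else (∑ i : Fin n, (intC D.c i : ℝ) * (2 ^ (K + 1) * y ⟨i, by omega⟩)) / 2 ^ (K + 1)) +
          (if (j : ℕ) < n then 0 else if (j : ℕ) = n then 1 / 2 ^ (K + 1) else 1 / 2) = y j
        by_cases e1 : (j : ℕ) < n
        · rw [dif_pos e1, if_pos e1, add_zero, mul_div_assoc, mul_div_cancel₀ _ hp.ne']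
        · rw [dif_neg e1, if_neg e1]
          by_cases e2 : (j : ℕ) = n
          · rw [if_pos e2, if_pos e2, zero_add]
            have e : j = ⟨n, by omega⟩ := Fin.ext e2
            rw [e]; exact h2.symm
          · rw [if_neg e2, if_neg e2]
            have e : j = ⟨n + 1, by omega⟩ := Fin.ext (by have := j.2; simp only; omega)
            rw [e, h3]
            congr 1
            rw [div_eq_iff hp.ne', Finset.sum_mul]
            refine Finset.sum_congr rfl fun i _ => ?_
            ring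
    · rintro ⟨x, hx, rfl⟩
      have g1 : ∀ j : Fin n, ((fun j : Fin (n + 2) => (if h : (j : ℕ) < n then x ⟨j, h⟩ / 2 ^ (K + 1)
            else if (j : ℕ) = n then 0
              else (∑ i : Fin n, (intC D.c i : ℝ) * x i) / 2 ^ (K + 1)) +
          (if (j : ℕ) < n then 0 else if (j : ℕ) = n then 1 / 2 ^ (K + 1) else 1 / 2)) :
            Fin (n + 2) → ℝ) ⟨j, by omega⟩ = x j / 2 ^ (K + 1) := by
        intro j
        dsimp only
        rw [dif_pos j.2, if_pos j.2, add_zero]
      have g2 : ((fun j : Fin (n + 2) => (if h : (j : ℕ) < n then x ⟨j, h⟩ / 2 ^ (K + 1)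
            else if (j : ℕ) = n then 0
              else (∑ i : Fin n, (intC D.c i : ℝ) * x i) / 2 ^ (K + 1)) +
          (if (j : ℕ) < n then 0 else if (j : ℕ) = n then 1 / 2 ^ (K + 1) else 1 / 2)) :
            Fin (n + 2) → ℝ) ⟨n, by omega⟩ = 1 / 2 ^ (K + 1) := by
        dsimp only
        rw [dif_neg (lt_irrefl n), if_pos rfl, if_neg (lt_irrefl n), if_pos rfl, zero_add]
      have g3 : ((fun j : Fin (n + 2) => (if h : (j : ℕ) < n then x ⟨j, h⟩ / 2 ^ (K + 1)
            else if (j : ℕ) = n then 0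
              else (∑ i : Fin n, (intC D.c i : ℝ) * x i) / 2 ^ (K + 1)) +
          (if (j : ℕ) < n then 0 else if (j : ℕ) = n then 1 / 2 ^ (K + 1) else 1 / 2)) :
            Fin (n + 2) → ℝ) ⟨n + 1, by omega⟩ =
            (∑ i : Fin n, (intC D.c i : ℝ) * x i) / 2 ^ (K + 1) + 1 / 2 := by
        dsimp only
        rw [dif_neg (by simp), if_neg (by simp), if_neg (by simp), if_neg (by simp)]
      have hsum : ∀ c : Fin n → ℝ, ∑ j : Fin n, c j * (x j / 2 ^ (K + 1)) =
          (∑ j : Fin n, c j * x j) / 2 ^ (K + 1) := by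
        intro c
        rw [Finset.sum_div]
        refine Finset.sum_congr rfl fun j _ => ?_
        rw [mul_div_assoc]
      refine ⟨fun i => ?_, g2, ?_, ?_⟩
      · refine le_trans (le_of_eq (Finset.sum_congr rfl fun j _ =>
          congrArg (fun t => (D.A i j : ℝ) * t) (g1 j))) ?_
        refine le_trans ?_ (le_of_eq (congrArg (fun t => (D.b i : ℝ) * t) g2.symm))
        rw [hsum, mul_one_div]
        exact div_le_div_of_nonneg_right (hx.1 i) hp.le
      · refine g3.trans ?_
        congr 1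
        refine Eq.trans ?_ (Finset.sum_congr rfl fun j _ =>
          congrArg (fun t => (intC D.c j : ℝ) * t) (g1 j)).symm
        rw [hsum]
      · intro j
        by_cases e1 : (j : ℕ) < n
        · refine le_of_le_of_eq ?_ (g1 ⟨j, e1⟩).symm
          exact div_nonneg (hx.2 _) hp.le
        · by_cases e2 : (j : ℕ) = n
          · have e : j = ⟨n, by omega⟩ := Fin.ext e2
            rw [e]
            refine le_of_le_of_eq ?_ g2.symm
            positivity
          · have e : j = ⟨n + 1, by omega⟩ := Fin.ext (by have := j.2; simp only; omega)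
            rw [e]
            refine le_of_le_of_eq ?_ g3.symm
            have h := hK x hx
            rw [← sub_le_iff_le_add, zero_sub, le_div_iff₀ hp, pow_succ]
            linarith
  κ := ((denZ (List.ofFn D.c) : ℤ) : ℝ) / 2 ^ (K + 1)
  pos := by
    have h : (0 : ℝ) < ((denZ (List.ofFn D.c) : ℤ) : ℝ) := by exact_mod_cast denZ_pos _
    positivity
  β := 1 / 2
  obj x := by
    have h1 : ∀ y : Fin (n + 2) → ℝ, (ofQ (hom K D)).obj y = y ⟨n + 1, by omega⟩ := by
      intro y
      change ∑ j, (((hom K D).c j : ℚ) : ℝ) * y j = _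
      rw [Finset.sum_eq_single (⟨n + 1, by omega⟩ : Fin (n + 2))]
      · simp [hom]
      · intro j _ hj
        have : ¬ (j : ℕ) = n + 1 := fun h => hj (Fin.ext h)
        simp [hom, this]
      · intro h; exact absurd (Finset.mem_univ _) h
    rw [h1]
    change (if h : n + 1 < n then x ⟨n + 1, h⟩ / 2 ^ (K + 1) else if n + 1 = n then 0
      else (∑ j, (intC D.c j : ℝ) * x j) / 2 ^ (K + 1)) +
      (if n + 1 < n then 0 else if n + 1 = n then 1 / 2 ^ (K + 1) else 1 / 2) = _
    rw [dif_neg (by omega), if_neg (by omega), if_neg (by omega), if_neg (by omega)]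
    congr 1
    change _ = ((denZ (List.ofFn D.c) : ℤ) : ℝ) / 2 ^ (K + 1) * ∑ j, (D.c j : ℝ) * x j
    rw [div_mul_eq_mul_div, Finset.mul_sum]
    congr 1
    refine Finset.sum_congr rfl fun j _ => ?_
    unfold intC
    push_cast
    ring

theorem homIso_map (hK : OmegaOK K D) (v : Fin n → ℚ) :
    (homIso hK).map (toReal v) = toReal (homV K D v) := by
  funext j
  change (if h : (j : ℕ) < n then ((v ⟨j, h⟩ : ℚ) : ℝ) / 2 ^ (K + 1)
      else if (j : ℕ) = n then 0 else (∑ j, (intC D.c j : ℝ) * ((v j : ℚ) : ℝ)) / 2 ^ (K + 1)) +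
    (if (j : ℕ) < n then 0 else if (j : ℕ) = n then 1 / 2 ^ (K + 1) else 1 / 2) =
    (((homRow (fun j => v j / 2 ^ (K + 1)) (1 / 2 ^ (K + 1))
      ((∑ j, intC D.c j * v j) / 2 ^ (K + 1) + 1 / 2) j : ℚ)) : ℝ)
  unfold homRow
  by_cases e1 : (j : ℕ) < n
  · rw [dif_pos e1, if_pos e1, dif_pos e1]
    push_cast
    ring
  · rw [dif_neg e1, if_neg e1, dif_neg e1]
    by_cases e2 : (j : ℕ) = n
    · rw [if_pos e2, if_pos e2, if_pos e2]
      push_cast
      ring
    · rw [if_neg e2, if_neg e2, if_neg e2]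
      push_cast
      ring

end Pool.Agent.Simplex.EB.Tab
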