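import Pool.Agent.Lib.MP_4d246d_lc.EB.Hom2
import Pool.Agent.Lib.MP_4d246d_lc.EB.HomUnder
import Pool.Agent.Lib.MP_4d246d_lc.EB.TabQLP

/-!
# The homogenised transportation program satisfies the conditions
-/

namespace Pool.Agent.Simplex.EB.Tab

open Pool.Agent.Lib.PolyTime Pool.Agent.Simplex.QP

/-! ### The sparse form -/

theorem ho_mem (X : Mat) {t : ℕ} (ht : t % blen X ≠ 0) : X.1 + t - 1 ∈ spIns X t := by
  unfold spIns
  rw [if_neg ht]
  split_ifs
  · exact List.mem_singleton.2 rfl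
  · exact List.mem_cons_of_mem _ (List.mem_singleton.2 rfl)
  · exact List.mem_cons_self
  · exact List.mem_singleton.2 rfl

/-- all variables of the sparse form are at most `U` -/
theorem sp_le {m n : ℕ} {D : RLP m n} {U : ℝ} (_hU : 0 ≤ U)
    (h1 : ∀ x ∈ D.feasible, ∀ j, x j ≤ U)
    (h2 : ∀ x ∈ D.feasible, ∀ (i : Fin m) (s : ℕ),
      ∑ j : Fin n, ((part s ((irow D.mat i).getD j 0) : ℤ) : ℝ) * x j ≤ U) :
    ∀ x ∈ D.sp.feasible, ∀ j, x j ≤ U := by
  have hlen : D.mat.2.length = m := mat_len D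
  have hN : D.mat.1 = n := rfl
  have hins : OkI n (spT D.mat) (spIns D.mat) := spIns_ok D.mat
  have hpq := spPQ_ok D
  intro y hy v
  have hy' := hy
  unfold RLP.sp at hy'
  rw [slp_feas hins hpq] at hy'
  obtain ⟨x, hx, rfl⟩ := hy'
  obtain ⟨w, hw⟩ : ∃ w : ℕ → ℝ, ∀ a, w a = (forms n (spT D.mat) (spIns D.mat)).getD a 0 x :=
    ⟨_, fun _ => rfl⟩
  have hrec : ∀ t < spT D.mat, w (D.mat.1 + t) = ((spIns D.mat t).map w).sum := by
    intro t ht
    rw [hw, hN, phi_rec hins x ht, List.map_congr_left fun a _ => hw a]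
  have hold : ∀ j : Fin n, w j = x j := fun j => by rw [hw]; exact phi_old x j
  have hnn : ∀ j, j < n + spT D.mat → 0 ≤ w j := by
    intro j hj
    rw [hw]
    exact phi_nonneg hins hx.2 j hj
  have e1 : phi n (spT D.mat) (spIns D.mat) x v = w v := by
    rw [hw]
    rfl
  rw [e1]
  have hv1 := v.2
  generalize (v : ℕ) = v at hv1 ⊢
  rcases Nat.lt_or_ge v n with h | h
  · rw [show v = ((⟨v, h⟩ : Fin n) : ℕ) from rfl, hold]
    exact h1 x hx _
  · obtain ⟨t, rfl⟩ := Nat.exists_eq_add_of_le h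
    have ht : t < spT D.mat := by omega
    have hB := blen_pos D.mat
    have hT : spT D.mat = 2 * m * blen D.mat := by
      unfold spT
      rw [hlen]
    have hr : t / blen D.mat < 2 * m :=
      Nat.div_lt_of_lt_mul (by rw [mul_comm, ← hT]; exact ht)
    have hs := Nat.mod_lt t hB
    have hdm := Nat.div_add_mod t (blen D.mat)
    -- monotone in the block
    have hstep : ∀ s, s + 1 < blen D.mat →
        w (n + (t / blen D.mat * blen D.mat + s)) ≤
          w (n + (t / blen D.mat * blen D.mat + (s + 1))) := by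
      intro s hs1
      have hlt : t / blen D.mat * blen D.mat + (s + 1) < spT D.mat := by
        rw [hT]
        calc t / blen D.mat * blen D.mat + (s + 1)
            < t / blen D.mat * blen D.mat + blen D.mat := by omega
          _ = (t / blen D.mat + 1) * blen D.mat := by ring
          _ ≤ 2 * m * blen D.mat := Nat.mul_le_mul_right _ hr
      have hmod : (t / blen D.mat * blen D.mat + (s + 1)) % blen D.mat = s + 1 := by
        rw [Nat.add_comm, Nat.add_mul_mod_self_right, Nat.mod_eq_of_lt hs1]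
      have h5 := hrec _ hlt
      rw [hN] at h5
      rw [h5]
      have h6 := ho_mem D.mat (t := t / blen D.mat * blen D.mat + (s + 1)) (by
        rw [hmod]; omega)
      rw [hN] at h6
      have h7 : n + (t / blen D.mat * blen D.mat + (s + 1)) - 1 =
          n + (t / blen D.mat * blen D.mat + s) := by omega
      rw [h7] at h6
      refine List.single_le_sum ?_ _ (List.mem_map.2 ⟨_, h6, rfl⟩)
      intro z hz
      rw [List.mem_map] at hz
      obtain ⟨a, ha, rfl⟩ := hz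
      have := (hins _ hlt).2.1 a ha
      exact hnn a (by omega)
    have hmono : ∀ s s', s ≤ s' → s' < blen D.mat →
        w (n + (t / blen D.mat * blen D.mat + s)) ≤
          w (n + (t / blen D.mat * blen D.mat + s')) := by
      intro s s' hss
      induction s', hss using Nat.le_induction with
      | base => intro _; exact le_rfl
      | succ k _ ih => intro hk; exact (ih (by omega)).trans (hstep k hk)
    have h8 := hmono (t % blen D.mat) (blen D.mat - 1) (by omega) (by omega)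
    have h9 : t / blen D.mat * blen D.mat + t % blen D.mat = t := by
      rw [mul_comm]; exact hdm
    rw [h9] at h8
    refine h8.trans ?_
    have h10 := block_value D.mat (r := t / blen D.mat) (by rw [hlen]; exact hr) hrec
    rw [hN] at h10
    have h11 : n + (t / blen D.mat + 1) * blen D.mat - 1 =
        n + (t / blen D.mat * blen D.mat + (blen D.mat - 1)) := by
      have : (t / blen D.mat + 1) * blen D.mat = t / blen D.mat * blen D.mat + blen D.mat := by
        ring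
      omega
    rw [h11] at h10
    rw [h10, Finset.sum_range]
    have h12 := h2 x hx ⟨t / blen D.mat / 2, by omega⟩ (t / blen D.mat % 2)
    refine le_of_eq_of_le (Finset.sum_congr rfl fun j _ => ?_) h12
    rw [hold]

/-- if all rows are equalities, then so are the rows of the sparse form -/
theorem sp_eqs {m n : ℕ} {D : RLP m n} (h : Eqs D) : Eqs D.sp := by
  have hN : D.mat.1 = n := rfl
  have hins : OkI n (spT D.mat) (spIns D.mat) := spIns_ok D.mat
  have hpq := spPQ_ok D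
  intro y hy i
  unfold RLP.sp at hy
  rw [slp_feas hins hpq] at hy
  obtain ⟨x, hx, rfl⟩ := hy
  obtain ⟨w, hw⟩ : ∃ w : ℕ → ℝ, ∀ a, w a = (forms n (spT D.mat) (spIns D.mat)).getD a 0 x :=
    ⟨_, fun _ => rfl⟩
  have hrec : ∀ t < spT D.mat, w (n + t) = ((spIns D.mat t).map w).sum := by
    intro t ht
    rw [hw, phi_rec hins x ht, List.map_congr_left fun a _ => hw a]
  have hsum : ∑ j : Fin (n + spT D.mat), ((ent m n (spT D.mat) (spIns D.mat) (spP D.mat)
      (spQ D.mat) i j : ℚ) : ℝ) * phi n (spT D.mat) (spIns D.mat) x j =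
      ∑ j : Fin (n + spT D.mat), ((ent m n (spT D.mat) (spIns D.mat) (spP D.mat)
      (spQ D.mat) i j : ℚ) : ℝ) * w j :=
    Finset.sum_congr rfl fun j _ => by rw [hw, phi_apply]
  show ∑ j : Fin (n + spT D.mat), ((ent m n (spT D.mat) (spIns D.mat) (spP D.mat)
      (spQ D.mat) i j : ℚ) : ℝ) * phi n (spT D.mat) (spIns D.mat) x j =
    (if h : (i : ℕ) < m then sc D.A i * D.b ⟨i, h⟩ else 0)
  rw [hsum]
  have hi3 := i.2
  generalize (i : ℕ) = i at hi3 ⊢
  by_cases him : i < m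
  · rw [row_old him (hpq ⟨i, him⟩).1 (hpq ⟨i, him⟩).2.1, hw, hw, dif_pos him]
    have a1 := (hpq ⟨i, him⟩).2.2.2 x
    simp only at a1
    rw [a1, h x hx ⟨i, him⟩]
  · rw [dif_neg him]
    by_cases hi2 : i < m + spT D.mat
    · obtain ⟨t, rfl⟩ := Nat.exists_eq_add_of_le (not_lt.1 him)
      rw [row_le hins (by omega), hrec t (by omega), sub_self]
    · obtain ⟨t, rfl⟩ := Nat.exists_eq_add_of_le (not_lt.1 hi2)
      rw [row_ge hins (by omega), hrec t (by omega), sub_self]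

/-- few nonzero entries -/
theorem ho_ncard {N k : ℕ} {a : Fin N → ℚ} (s : Finset ℕ) (hs : s.card ≤ k)
    (h : ∀ j : Fin N, a j ≠ 0 → (j : ℕ) ∈ s) : {j | a j ≠ 0}.ncard ≤ k := by
  classical
  have h1 : (Fin.val '' {j | a j ≠ 0}).ncard = {j | a j ≠ 0}.ncard :=
    Set.ncard_image_of_injective _ Fin.val_injective
  rw [← h1]
  have h2 : Fin.val '' {j | a j ≠ 0} ⊆ (s : Set ℕ) := by
    rintro _ ⟨j, hj, rfl⟩
    exact h j hj
  refine (Set.ncard_le_ncard h2 s.finite_toSet).trans ?_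
  rw [Set.ncard_coe_finset]
  exact hs

/-- the rows of the sparse form -/
theorem sp_goodRow {m n : ℕ} (D : QLP m n) (i : Fin _) :
    GoodRow ((spQLP D).A i) ((spQLP D).b i) := by
  classical
  have hins : OkI n (spT (ofQ D).mat) (spIns (ofQ D).mat) := spIns_ok (ofQ D).mat
  have hi3 := i.2
  have hb : ¬ (i : ℕ) < m → (spQLP D).b i = 0 := fun h => dif_neg h
  have hA : ∀ j, (spQLP D).A i j = ent m n (spT (ofQ D).mat) (spIns (ofQ D).mat)
      (spP (ofQ D).mat) (spQ (ofQ D).mat) i j := fun j => rfl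
  by_cases h1 : (i : ℕ) < m
  · refine Or.inl (ho_ncard {spP (ofQ D).mat i, spQ (ofQ D).mat i} Finset.card_le_two ?_)
    intro j hj
    by_contra hc
    rw [Finset.mem_insert, Finset.mem_singleton, not_or] at hc
    apply hj
    rw [hA]
    unfold ent
    rw [if_pos h1, if_neg hc.1, if_neg hc.2, sub_zero]
  · -- the definition rows
    obtain ⟨t, ht, hcase⟩ : ∃ t < spT (ofQ D).mat, (i : ℕ) = m + t ∨
        (i : ℕ) = m + spT (ofQ D).mat + t := by
      by_cases h2 : (i : ℕ) < m + spT (ofQ D).mat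
      · exact ⟨i - m, by omega, Or.inl (by omega)⟩
      · exact ⟨i - m - spT (ofQ D).mat, by omega, Or.inr (by omega)⟩
    have hent : ∀ j : Fin (n + spT (ofQ D).mat), (spQLP D).A i j =
        (if (i : ℕ) = m + t then (1 : ℚ) else -1) * ((if (j : ℕ) = n + t then 1 else 0) -
          (if (j : ℕ) ∈ spIns (ofQ D).mat t then 1 else 0)) := by
      intro j
      rw [hA]
      unfold ent
      rw [if_neg h1]
      rcases hcase with h2 | h2
      · rw [if_pos (by omega), if_pos h2, one_mul, show (i : ℕ) - m = t by omega]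
      · have h3 : ¬ (i : ℕ) = m + t := by omega
        rw [if_neg (by omega), if_neg h3,
          show (i : ℕ) - m - spT (ofQ D).mat = t by omega]
        ring
    have hnz : ∀ j : Fin (n + spT (ofQ D).mat), (spQLP D).A i j ≠ 0 →
        (j : ℕ) = n + t ∨ (j : ℕ) ∈ spIns (ofQ D).mat t := by
      intro j hj
      by_contra hc
      rw [not_or] at hc
      apply hj
      rw [hent, if_neg hc.1, if_neg hc.2, sub_zero, mul_zero]
    obtain ⟨hnd, hlt, hlen⟩ := hins t ht
    have hcard : ({n + t} ∪ (spIns (ofQ D).mat t).toFinset : Finset ℕ).card ≤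
        1 + (spIns (ofQ D).mat t).length := by
      refine (Finset.card_union_le _ _).trans ?_
      rw [Finset.card_singleton]
      exact Nat.add_le_add_left (List.toFinset_card_le _) _
    have hmem : ∀ j : Fin (n + spT (ofQ D).mat), (spQLP D).A i j ≠ 0 →
        (j : ℕ) ∈ ({n + t} ∪ (spIns (ofQ D).mat t).toFinset : Finset ℕ) := by
      intro j hj
      rw [Finset.mem_union, Finset.mem_singleton, List.mem_toFinset]
      exact hnz j hj
    by_cases h2 : (spIns (ofQ D).mat t).length ≤ 1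
    · exact Or.inl (ho_ncard _ (hcard.trans (by omega)) hmem)
    · refine Or.inr ⟨ho_ncard _ (hcard.trans (by omega)) hmem, hb h1, ?_⟩
      -- an element of the list
      obtain ⟨a, ha⟩ : ∃ a, a ∈ spIns (ofQ D).mat t := by
        rcases hl : spIns (ofQ D).mat t with _ | ⟨a, l⟩
        · rw [hl] at h2
          simp at h2
        · exact ⟨a, List.mem_cons_self⟩
      have ha1 := hlt a ha
      have v1 : (spQLP D).A i ⟨n + t, by omega⟩ = if (i : ℕ) = m + t then 1 else -1 := by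
        rw [hent, if_pos rfl, if_neg (fun h => absurd (hlt _ h) (lt_irrefl _)), sub_zero, mul_one]
      have v2 : (spQLP D).A i ⟨a, by omega⟩ = if (i : ℕ) = m + t then -1 else 1 := by
        have h3 : ¬ a = n + t := by omega
        rw [hent, if_neg h3, if_pos ha]
        split_ifs <;> norm_num
      by_cases h3 : (i : ℕ) = m + t
      · rw [if_pos h3] at v1 v2
        exact ⟨⟨_, v1⟩, ⟨_, v2⟩⟩
      · rw [if_neg h3] at v1 v2
        exact ⟨⟨_, v2⟩, ⟨_, v1⟩⟩

/-! ### The homogenised program -/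

theorem hom_rhs (K : ℕ) {m n : ℕ} (D : QLP m n) (i : Fin _) :
    (spQLP (hom K D)).b i = 0 ∨ (spQLP (hom K D)).b i = 1 ∨ (spQLP (hom K D)).b i = -1 := by
  show (if h : (i : ℕ) < m + 4 then
    ((denZ (List.ofFn ((hom K D).A ⟨i, h⟩)) : ℤ) : ℚ) * (hom K D).b ⟨i, h⟩ else 0) = 0 ∨
    (if h : (i : ℕ) < m + 4 then
    ((denZ (List.ofFn ((hom K D).A ⟨i, h⟩)) : ℤ) : ℚ) * (hom K D).b ⟨i, h⟩ else 0) = 1 ∨
    (if h : (i : ℕ) < m + 4 then
    ((denZ (List.ofFn ((hom K D).A ⟨i, h⟩)) : ℤ) : ℚ) * (hom K D).b ⟨i, h⟩ else 0) = -1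
  by_cases hi : (i : ℕ) < m + 4
  swap
  · rw [dif_neg hi]
    exact Or.inl rfl
  rw [dif_pos hi]
  by_cases h1 : (i : ℕ) = m
  · have hA : (hom K D).A ⟨i, hi⟩ = homRow 0 (2 ^ (K + 1)) 0 := by
      unfold hom
      dsimp only
      rw [dif_neg (by omega), if_pos h1]
    have hb : (hom K D).b ⟨i, hi⟩ = 1 := by
      unfold hom
      dsimp only
      rw [if_pos h1]
    rw [hA, hb, hu_denZ_homRow_one (fun _ => rfl) (hu_pow_den _) rfl]
    exact Or.inr (Or.inl (by norm_num))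
  by_cases h2 : (i : ℕ) = m + 1
  · have hA : (hom K D).A ⟨i, hi⟩ = homRow 0 (- 2 ^ (K + 1)) 0 := by
      unfold hom
      dsimp only
      rw [dif_neg (by omega), if_neg h1, if_pos h2]
    have hb : (hom K D).b ⟨i, hi⟩ = -1 := by
      unfold hom
      dsimp only
      rw [if_neg h1, if_pos h2]
    rw [hA, hb, hu_denZ_homRow_one (fun _ => rfl) (by rw [Rat.neg_den]; exact hu_pow_den _) rfl]
    exact Or.inr (Or.inr (by norm_num))
  · have hb : (hom K D).b ⟨i, hi⟩ = 0 := by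
      unfold hom
      dsimp only
      rw [if_neg h1, if_neg h2]
    rw [hb, mul_zero]
    exact Or.inl rfl

theorem hom_obj (K : ℕ) {m n : ℕ} (D : QLP m n) (j : Fin _) :
    (spQLP (hom K D)).c j = if (j : ℕ) = n + 1 then 1 else 0 := by
  show (if h : (j : ℕ) < n + 2 then (hom K D).c ⟨j, h⟩ else 0) = _
  by_cases hj : (j : ℕ) < n + 2
  · rw [dif_pos hj]
    rfl
  · rw [dif_neg hj, if_neg (by omega)]

variable {m n S : ℕ} {D : QLP m n}

theorem ho_omega (hD : SmallP S D) : OmegaOK (8 * S + 8) D := hD.omega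

/-- the point of the homogenised program -/
noncomputable def homY (K : ℕ) (D : QLP m n) (x : Fin n → ℝ) (j : Fin (n + 2)) : ℝ :=
  if h : (j : ℕ) < n then x ⟨j, h⟩ / 2 ^ (K + 1) else if (j : ℕ) = n then 1 / 2 ^ (K + 1)
    else (∑ j, (intC D.c j : ℝ) * x j) / 2 ^ (K + 1) + 1 / 2

theorem ho_homIso_apply {K : ℕ} (hK : OmegaOK K D) (x : Fin n → ℝ) (j : Fin (n + 2)) :
    (homIso hK).L x j + (homIso hK).a j = homY K D x j := by
  show (if h : (j : ℕ) < n then x ⟨j, h⟩ / 2 ^ (K + 1)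
        else if (j : ℕ) = n then 0 else (∑ j, (intC D.c j : ℝ) * x j) / 2 ^ (K + 1)) +
      (if (j : ℕ) < n then 0 else if (j : ℕ) = n then 1 / 2 ^ (K + 1) else 1 / 2) = _
  unfold homY
  split_ifs
  · rw [add_zero]
  · rw [zero_add]
  · rfl

theorem ho_homY_left (K : ℕ) (x : Fin n → ℝ) (j : Fin n) :
    homY K D x ⟨j, by omega⟩ = x j / 2 ^ (K + 1) := by
  unfold homY
  rw [dif_pos j.2]

theorem ho_homY_mid (K : ℕ) (x : Fin n → ℝ) :
    homY K D x ⟨n, by omega⟩ = 1 / 2 ^ (K + 1) := by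
  unfold homY
  rw [dif_neg (lt_irrefl n), if_pos rfl]

theorem ho_homY_last (K : ℕ) (x : Fin n → ℝ) : homY K D x ⟨n + 1, by omega⟩ =
    (∑ j, (intC D.c j : ℝ) * x j) / 2 ^ (K + 1) + 1 / 2 := by
  unfold homY
  rw [dif_neg (by dsimp only; omega), if_neg (by dsimp only; omega)]

/-- sums of the weighted variables of the homogenised program -/
theorem ho_sum_homY (K : ℕ) (x : Fin n → ℝ) (g : ℚ → ℝ) (a : Fin n → ℚ) (u w : ℚ) :
    ∑ j, g (homRow a u w j) * homY K D x j = (∑ j, g (a j) * x j) / 2 ^ (K + 1) +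
      g u / 2 ^ (K + 1) + g w * ((∑ j, (intC D.c j : ℝ) * x j) / 2 ^ (K + 1) + 1 / 2) := by
  rw [hu_sum_homRow, hu_homRow_mid, hu_homRow_last, ho_homY_mid, ho_homY_last]
  have h1 : ∀ j : Fin n, g (homRow a u w ⟨j, by omega⟩) * homY K D x ⟨j, by omega⟩ =
      g (a j) * x j / 2 ^ (K + 1) := by
    intro j
    rw [hu_homRow_left, ho_homY_left]
    ring
  rw [Finset.sum_congr rfl fun j _ => h1 j, ← Finset.sum_div]
  ring

/-- The five kinds of rows. -/
theorem ho_hom_row (K : ℕ) (D : QLP m n) (i : Fin (m + 4)) :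
    (∃ i' : Fin m, (hom K D).A i = homRow (D.A i') (- D.b i') 0 ∧ (hom K D).b i = 0) ∨
    ((hom K D).A i = homRow 0 (2 ^ (K + 1)) 0 ∧ (hom K D).b i = 1) ∨
    ((hom K D).A i = homRow 0 (- 2 ^ (K + 1)) 0 ∧ (hom K D).b i = -1) ∨
    ((hom K D).A i = homRow (fun j => - intC D.c j) (- 2 ^ K) 1 ∧ (hom K D).b i = 0) ∨
    ((hom K D).A i = homRow (intC D.c) (2 ^ K) (-1) ∧ (hom K D).b i = 0) := by
  unfold hom
  dsimp only
  by_cases h0 : (i : ℕ) < m
  · refine Or.inl ⟨⟨i, h0⟩, ?_, ?_⟩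
    · rw [dif_pos h0]
    · rw [if_neg (by omega), if_neg (by omega)]
  rw [dif_neg h0]
  by_cases h1 : (i : ℕ) = m
  · rw [if_pos h1, if_pos h1]
    exact Or.inr (Or.inl ⟨rfl, rfl⟩)
  rw [if_neg h1, if_neg h1]
  by_cases h2 : (i : ℕ) = m + 1
  · rw [if_pos h2, if_pos h2]
    exact Or.inr (Or.inr (Or.inl ⟨rfl, rfl⟩))
  rw [if_neg h2, if_neg h2]
  by_cases h3 : (i : ℕ) = m + 2
  · rw [if_pos h3]
    exact Or.inr (Or.inr (Or.inr (Or.inl ⟨rfl, rfl⟩)))
  · rw [if_neg h3]
    exact Or.inr (Or.inr (Or.inr (Or.inr ⟨rfl, rfl⟩)))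

section

variable (hD : SmallP S D) {x : Fin n → ℝ} (hx : x ∈ D.feasible)

include hD hx

/-- all rows are equalities -/
theorem ho_hom_eq (i : Fin (m + 4)) :
    ∑ j, (((hom (8 * S + 8) D).A i j : ℚ) : ℝ) * homY (8 * S + 8) D x j =
      (((hom (8 * S + 8) D).b i : ℚ) : ℝ) := by
  have hp : (2 : ℝ) ^ (8 * S + 8) ≠ 0 := by positivity
  have hp2 : (2 : ℝ) ^ (8 * S + 8 + 1) ≠ 0 := by positivity
  have hp3 : (2 : ℝ) ^ (8 * S + 8 + 1) = 2 ^ (8 * S + 8) * 2 := pow_succ _ _
  have hs := fun a u w => ho_sum_homY (D := D) (8 * S + 8) x (fun q => (q : ℝ)) a u w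
  rcases ho_hom_row (8 * S + 8) D i with ⟨i', h1, h2⟩ | ⟨h1, h2⟩ | ⟨h1, h2⟩ | ⟨h1, h2⟩ | ⟨h1, h2⟩
  · rw [h1, h2, hs, hD.eq x hx i']
    push_cast
    field_simp
    ring
  · rw [h1, h2, hs]
    simp [hp2]
  · rw [h1, h2, hs]
    simp [hp2]
  · rw [h1, h2, hs]
    push_cast
    have h3 : ∑ j, -((intC D.c j : ℚ) : ℝ) * x j = - ∑ j, (intC D.c j : ℝ) * x j := by
      rw [← Finset.sum_neg_distrib]
      exact Finset.sum_congr rfl fun j _ => neg_mul _ _
    rw [h3, hp3]
    field_simp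
    ring
  · rw [h1, h2, hs, hp3]
    push_cast
    field_simp
    ring

/-- all variables are at most `1` -/
theorem ho_homY_le (j : Fin (n + 2)) : homY (8 * S + 8) D x j ≤ 1 := by
  have hp : (0 : ℝ) < 2 ^ (8 * S + 8 + 1) := by positivity
  unfold homY
  split_ifs with h1 h2
  · rw [div_le_one hp]
    have h3 := hD.le x hx ⟨j, h1⟩
    have h4 : (2 : ℝ) ^ S ≤ 2 ^ (8 * S + 8 + 1) := pow_le_pow_right₀ one_le_two (by omega)
    linarith
  · rw [div_le_one hp]
    exact one_le_pow₀ one_le_two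
  · have h3 := hD.sum_le hx (a := fun j => (intC D.c j : ℝ)) (t := 2 * S) fun j =>
      (le_abs_self _).trans (hu_abs_intC_le hD.cost j)
    have h4 : (2 : ℝ) ^ (2 * S + 2 * S) ≤ 2 ^ (8 * S + 8) :=
      pow_le_pow_right₀ one_le_two (by omega)
    have h5 : (∑ j, (intC D.c j : ℝ) * x j) / 2 ^ (8 * S + 8 + 1) ≤ 1 / 2 := by
      rw [div_le_iff₀ hp, pow_succ]
      linarith
    linarith

/-- the positive and the negative part of each integer row are at most `1` -/
theorem ho_part_le (i : Fin (m + 4)) (s : ℕ) :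
    ∑ j : Fin (n + 2), ((part s ((irow (ofQ (hom (8 * S + 8) D)).mat i).getD j 0) : ℤ) : ℝ) *
      homY (8 * S + 8) D x j ≤ 1 := by
  have hp : (0 : ℝ) < 2 ^ (8 * S + 8) := by positivity
  have hp2 : (0 : ℝ) < 2 ^ (8 * S + 8 + 1) := by positivity
  have hp3 : (2 : ℝ) ^ (8 * S + 8 + 1) = 2 ^ (8 * S + 8) * 2 := pow_succ _ _
  have hi : ∀ j : Fin (n + 2),
      ((part s ((irow (ofQ (hom (8 * S + 8) D)).mat i).getD j 0) : ℤ) : ℝ) =
      pr s (((denZ (List.ofFn ((hom (8 * S + 8) D).A i)) : ℤ) : ℝ) *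
        (((hom (8 * S + 8) D).A i j : ℚ) : ℝ)) := by
    intro j
    rw [hu_part_cast, hu_getD_irow]
    rfl
  rw [Finset.sum_congr rfl fun j _ => by rw [hi j]]
  have hs := fun (d : ℝ) a u w =>
    ho_sum_homY (D := D) (8 * S + 8) x (fun q => pr s (d * (q : ℝ))) a u w
  -- the positive part of the objective
  have hC := hD.sum_le hx (a := fun j => max (intC D.c j : ℝ) 0) (t := 2 * S) fun j =>
    max_le ((le_abs_self _).trans (hu_abs_intC_le hD.cost j)) (by positivity)
  have hlt : (2 : ℝ) ^ (2 * S + 2 * S) ≤ 2 ^ (8 * S + 8) :=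
    pow_le_pow_right₀ one_le_two (by omega)
  have hCC : (∑ j, max (-(intC D.c j : ℝ)) 0 * x j) + ∑ j, (intC D.c j : ℝ) * x j =
      ∑ j, max (intC D.c j : ℝ) 0 * x j := by
    rw [← Finset.sum_add_distrib]
    refine Finset.sum_congr rfl fun j _ => ?_
    rw [← add_mul]
    congr 1
    rcases le_total (intC D.c j : ℝ) 0 with h | h
    · rw [max_eq_left (by linarith), max_eq_right h]
      ring
    · rw [max_eq_right (by linarith), max_eq_left h]
      ring
  have hC1 : (∑ j, max (intC D.c j : ℝ) 0 * x j) / 2 ^ (8 * S + 8 + 1) ≤ 1 / 2 := by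
    rw [div_le_iff₀ hp2, hp3]
    linarith
  have hint : ∀ j, (- intC D.c j).den = 1 := fun j => by rw [Rat.neg_den, hu_intC_den]
  rcases ho_hom_row (8 * S + 8) D i with ⟨i', h1, -⟩ | ⟨h1, -⟩ | ⟨h1, -⟩ | ⟨h1, -⟩ | ⟨h1, -⟩
  · rw [h1, hs]
    have hd : ((denZ (List.ofFn (homRow (D.A i') (- D.b i') 0)) : ℤ) : ℝ) ≤ 2 ^ (2 * S) := by
      exact_mod_cast hu_denZ_homRow_le (hD.row i') (hD.rhs i')
    have hd0 : (0 : ℝ) < ((denZ (List.ofFn (homRow (D.A i') (- D.b i') 0)) : ℤ) : ℝ) := by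
      exact_mod_cast denZ_pos _
    have hb : ∀ q : ℚ, sz q ≤ S →
        pr s (((denZ (List.ofFn (homRow (D.A i') (- D.b i') 0)) : ℤ) : ℝ) * (q : ℝ)) ≤
          2 ^ (3 * S) ∧
        pr s (((denZ (List.ofFn (homRow (D.A i') (- D.b i') 0)) : ℤ) : ℝ) * ((-q : ℚ) : ℝ)) ≤
          2 ^ (3 * S) := by
      intro q hq
      have h2 : |(q : ℝ)| ≤ 2 ^ S :=
        (hu_abs_ratCast_lt q).le.trans (pow_le_pow_right₀ one_le_two hq)
      have h3 : ((denZ (List.ofFn (homRow (D.A i') (- D.b i') 0)) : ℤ) : ℝ) * |(q : ℝ)| ≤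
          2 ^ (3 * S) := by
        have h4 : (2 : ℝ) ^ (3 * S) = 2 ^ (2 * S) * 2 ^ S := by ring
        rw [h4]
        exact mul_le_mul hd h2 (abs_nonneg _) (by positivity)
      constructor
      · refine (hu_pr_le_abs _ _).trans ?_
        rw [abs_mul, abs_of_pos hd0]
        exact h3
      · refine (hu_pr_le_abs _ _).trans ?_
        rw [Rat.cast_neg, mul_neg, abs_neg, abs_mul, abs_of_pos hd0]
        exact h3
    have e1 := hD.sum_le hx (a := fun j => pr s (((denZ (List.ofFn (homRow (D.A i')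
      (- D.b i') 0)) : ℤ) : ℝ) * ((D.A i' j : ℚ) : ℝ))) (t := 3 * S) fun j =>
        (hb (D.A i' j) (by
          have h3 := sz_mem (l := List.ofFn (D.A i')) (a := D.A i' j)
            (List.mem_ofFn.2 ⟨j, rfl⟩)
          have h4 := hD.row i'
          omega)).1
    have e2 := (hb (D.b i') (hD.rhs i')).2
    have e3 : pr s (((denZ (List.ofFn (homRow (D.A i') (- D.b i') 0)) : ℤ) : ℝ) *
        ((0 : ℚ) : ℝ)) = 0 := by
      unfold pr
      simp
    rw [e3, zero_mul, add_zero, ← add_div, div_le_iff₀ hp2, hp3]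
    have e4 : (2 : ℝ) ^ (2 * S + 3 * S) ≤ 2 ^ (8 * S + 8) :=
      pow_le_pow_right₀ one_le_two (by omega)
    have e5 : (2 : ℝ) ^ (3 * S) ≤ 2 ^ (8 * S + 8) :=
      pow_le_pow_right₀ one_le_two (by omega)
    linarith
  · rw [h1, hs, hu_denZ_homRow_one (fun _ => rfl) (hu_pow_den _) rfl]
    have e1 : pr s (((1 : ℤ) : ℝ) * (((2 : ℚ) ^ (8 * S + 8 + 1) : ℚ) : ℝ)) ≤
        2 ^ (8 * S + 8 + 1) := by
      refine (hu_pr_le_abs _ _).trans ?_
      push_cast
      rw [one_mul, abs_of_pos hp2]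
    have e2 : pr s (((1 : ℤ) : ℝ) * (((0 : ℚ) : ℚ) : ℝ)) = 0 := by
      unfold pr
      simp
    have e3 : ∑ j : Fin n, pr s (((1 : ℤ) : ℝ) * ((((0 : Fin n → ℚ) j) : ℚ) : ℝ)) * x j = 0 :=
      Finset.sum_eq_zero fun j _ => by
        show pr s (((1 : ℤ) : ℝ) * (((0 : ℚ) : ℚ) : ℝ)) * x j = 0
        rw [e2, zero_mul]
    rw [e3, e2, zero_div, zero_add, zero_mul, add_zero, div_le_iff₀ hp2]
    linarith
  · rw [h1, hs, hu_denZ_homRow_one (fun _ => rfl) (by rw [Rat.neg_den]; exact hu_pow_den _) rfl]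
    have e1 : pr s (((1 : ℤ) : ℝ) * (((- 2 ^ (8 * S + 8 + 1) : ℚ) : ℚ) : ℝ)) ≤
        2 ^ (8 * S + 8 + 1) := by
      refine (hu_pr_le_abs _ _).trans ?_
      push_cast
      rw [one_mul, abs_neg, abs_of_pos hp2]
    have e2 : pr s (((1 : ℤ) : ℝ) * (((0 : ℚ) : ℚ) : ℝ)) = 0 := by
      unfold pr
      simp
    have e3 : ∑ j : Fin n, pr s (((1 : ℤ) : ℝ) * ((((0 : Fin n → ℚ) j) : ℚ) : ℝ)) * x j = 0 :=
      Finset.sum_eq_zero fun j _ => by
        show pr s (((1 : ℤ) : ℝ) * (((0 : ℚ) : ℚ) : ℝ)) * x j = 0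
        rw [e2, zero_mul]
    rw [e3, e2, zero_div, zero_add, zero_mul, add_zero, div_le_iff₀ hp2]
    linarith
  · rw [h1, hs, hu_denZ_homRow_one hint (by rw [Rat.neg_den]; exact hu_pow_den _) rfl]
    push_cast
    unfold pr
    split_ifs with h0
    · have e1 : max ((1 : ℝ) * -2 ^ (8 * S + 8)) 0 = 0 := max_eq_right (by linarith)
      have e2 : max ((1 : ℝ) * 1) 0 = 1 := by norm_num
      have e3 : ∑ j, max (1 * -(intC D.c j : ℝ)) 0 * x j =
          ∑ j, max (-(intC D.c j : ℝ)) 0 * x j :=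
        Finset.sum_congr rfl fun j _ => by rw [one_mul]
      rw [e1, e2, e3, zero_div, add_zero, one_mul, ← add_assoc, ← add_div, hCC]
      linarith
    · have e1 : max (-((1 : ℝ) * -2 ^ (8 * S + 8))) 0 = 2 ^ (8 * S + 8) := by
        rw [one_mul, neg_neg]
        exact max_eq_left hp.le
      have e2 : max (-((1 : ℝ) * 1)) 0 = 0 := by norm_num
      have e3 : ∑ j, max (-(1 * -(intC D.c j : ℝ))) 0 * x j =
          ∑ j, max (intC D.c j : ℝ) 0 * x j :=
        Finset.sum_congr rfl fun j _ => by rw [one_mul, neg_neg]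
      have e4 : (2 : ℝ) ^ (8 * S + 8) / 2 ^ (8 * S + 8 + 1) = 1 / 2 := by
        rw [hp3]
        field_simp
      rw [e1, e2, e3, zero_mul, add_zero, e4]
      linarith
  · rw [h1, hs, hu_denZ_homRow_one (hu_intC_den D.c) (hu_pow_den _) rfl]
    push_cast
    unfold pr
    split_ifs with h0
    · have e1 : max ((1 : ℝ) * 2 ^ (8 * S + 8)) 0 = 2 ^ (8 * S + 8) := by
        rw [one_mul]
        exact max_eq_left hp.le
      have e2 : max ((1 : ℝ) * -1) 0 = 0 := by norm_num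
      have e3 : ∑ j, max (1 * (intC D.c j : ℝ)) 0 * x j =
          ∑ j, max (intC D.c j : ℝ) 0 * x j :=
        Finset.sum_congr rfl fun j _ => by rw [one_mul]
      have e4 : (2 : ℝ) ^ (8 * S + 8) / 2 ^ (8 * S + 8 + 1) = 1 / 2 := by
        rw [hp3]
        field_simp
      rw [e1, e2, e3, zero_mul, add_zero, e4]
      linarith
    · have e1 : max (-((1 : ℝ) * 2 ^ (8 * S + 8))) 0 = 0 := max_eq_right (by linarith)
      have e2 : max (-((1 : ℝ) * -1)) 0 = 1 := by norm_num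
      have e3 : ∑ j, max (-(1 * (intC D.c j : ℝ))) 0 * x j =
          ∑ j, max (-(intC D.c j : ℝ)) 0 * x j :=
        Finset.sum_congr rfl fun j _ => by rw [one_mul]
      rw [e1, e2, e3, zero_div, add_zero, one_mul, ← add_assoc, ← add_div, hCC]
      linarith

end

theorem ho_key (hD : SmallP S D) : ∀ y ∈ (ofQ (hom (8 * S + 8) D)).feasible,
    ∃ x ∈ D.feasible, y = homY (8 * S + 8) D x := by
  intro y hy
  rw [(homIso (ho_omega hD)).feas] at hy
  obtain ⟨x, hx, rfl⟩ := hy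
  exact ⟨x, hx, funext fun j => ho_homIso_apply (ho_omega hD) x j⟩

theorem omega_ok {I : Input} (hI : IsTransport I) : OmegaOK (kOf I) I.lp :=
  ho_omega (small_transport hI)

theorem hom_le {I : Input} (hI : IsTransport I) :
    ∀ x ∈ (ofQ (spQLP (hom (kOf I) I.lp))).feasible, ∀ j, x j ≤ 1 := by
  have hD := small_transport hI
  rw [ofQ_spQLP]
  refine sp_le zero_le_one ?_ ?_
  · intro y hy j
    obtain ⟨x, hx, rfl⟩ := ho_key hD y hy
    exact ho_homY_le hD hx j
  · intro y hy i s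
    obtain ⟨x, hx, rfl⟩ := ho_key hD y hy
    exact ho_part_le hD hx i s

theorem hom_eqs {I : Input} (hI : IsTransport I) :
    Eqs (ofQ (spQLP (hom (kOf I) I.lp))) := by
  have hD := small_transport hI
  rw [ofQ_spQLP]
  refine sp_eqs fun y hy i => ?_
  obtain ⟨x, hx, rfl⟩ := ho_key hD y hy
  exact ho_hom_eq hD hx i

end Pool.Agent.Simplex.EB.Tab
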