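import Pool.Agent.Lib.MP_4d246d_lc.EB.Slp

/-!
# Integer linear forms by a Horner scheme

For the matrix `X` with `n` columns and `m` rows there are `2 m` blocks of length
`1 + K (n + 2)`; the block `2 i` computes the positive part and the block `2 i + 1` the negative
part of the integer row `i`: zero; then for each bit, from the top, a copy, a doubling, and for
each `j` the addition of `x_j` if the bit of the coefficient is one, else a copy.
-/

namespace Pool.Agent.Simplex.EB

open Pool.Agent.Lib.PolyTime Pool.Agent.Simplex.QP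

/-- the integer row `i` -/
def irow (X : Mat) (i : ℕ) : List ℤ := clr (denZ (X.2.getD i [])) (X.2.getD i [])

/-- positive part (`s = 0`) or negative part (`s = 1`) of a coefficient -/
def part (s : ℕ) (a : ℤ) : ℤ := if s = 0 then max a 0 else max (-a) 0

/-- number of bits: more than the bits of all coefficients -/
def nbits (X : Mat) : ℕ := sz (X.2.map (fun r => clr (denZ r) r))

/-- length of a block -/
def blen (X : Mat) : ℕ := 1 + nbits X * (X.1 + 2)

/-- number of new variables -/
def spT (X : Mat) : ℕ := 2 * X.2.length * blen X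

/-- the bit `k` of the coefficient `j` of the block `r` is one -/
def bitOn (X : Mat) (r k j : ℕ) : Prop :=
  (part (r % 2) ((irow X (r / 2)).getD j 0) / 2 ^ k) % 2 = 1

instance (X : Mat) (r k j : ℕ) : Decidable (bitOn X r k j) := inferInstanceAs (Decidable (_ = _))

/-- the definition of the variable `X.1 + t` -/
def spIns (X : Mat) (t : ℕ) : List ℕ :=
  if t % blen X = 0 then []
  else if (t % blen X - 1) % (X.1 + 2) = 0 then [X.1 + t - 1]
  else if (t % blen X - 1) % (X.1 + 2) = 1 then [X.1 + t - 2, X.1 + t - 1]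
  else if bitOn X (t / blen X) (nbits X - 1 - (t % blen X - 1) / (X.1 + 2))
      ((t % blen X - 1) % (X.1 + 2) - 2) then
    [X.1 + t - 1, (t % blen X - 1) % (X.1 + 2) - 2]
  else [X.1 + t - 1]

/-- the last variable of the block `2 i` -/
def spP (X : Mat) (i : ℕ) : ℕ := X.1 + (2 * i + 1) * blen X - 1

/-- the last variable of the block `2 i + 1` -/
def spQ (X : Mat) (i : ℕ) : ℕ := X.1 + (2 * i + 2) * blen X - 1

theorem blen_pos (X : Mat) : 0 < blen X := by
  unfold blen
  omega

theorem spIns_ok (X : Mat) : OkI X.1 (spT X) (spIns X) := by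
  intro t _
  have hmod : (t % blen X - 1) % (X.1 + 2) < X.1 + 2 := Nat.mod_lt _ (by omega)
  have hle : t % blen X ≤ t := Nat.mod_le _ _
  unfold spIns
  split_ifs with h1 h2 h3 h4
  · exact ⟨List.nodup_nil, by simp, by simp⟩
  · refine ⟨List.nodup_singleton _, ?_, by simp⟩
    intro a ha
    rw [List.mem_singleton] at ha
    omega
  · have h5 : 2 ≤ t % blen X := by
      by_contra hc
      have h6 : t % blen X - 1 = 0 := by omega
      rw [h6, Nat.zero_mod] at h3
      omega
    refine ⟨?_, ?_, by simp⟩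
    · rw [List.nodup_cons]
      refine ⟨?_, List.nodup_singleton _⟩
      rw [List.mem_singleton]
      omega
    · intro a ha
      rw [List.mem_cons, List.mem_singleton] at ha
      omega
  · refine ⟨?_, ?_, by simp⟩
    · rw [List.nodup_cons]
      refine ⟨?_, List.nodup_singleton _⟩
      rw [List.mem_singleton]
      omega
    · intro a ha
      rw [List.mem_cons, List.mem_singleton] at ha
      omega
  · refine ⟨List.nodup_singleton _, ?_, by simp⟩
    intro a ha
    rw [List.mem_singleton] at ha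
    omega

/-- all coefficients have at most `nbits` bits -/
theorem coef_lt (X : Mat) (i j : ℕ) : |(irow X i).getD j 0| < 2 ^ nbits X := by
  by_cases hi : i < X.2.length
  · have h1 : irow X i ∈ X.2.map (fun r => clr (denZ r) r) := by
      unfold irow
      rw [List.getD_eq_getElem _ _ hi]
      exact List.mem_map.2 ⟨_, List.getElem_mem hi, rfl⟩
    have h2 : 1 + sz (irow X i) ≤ nbits X := sz_mem h1
    by_cases hj : j < (irow X i).length
    · have h3 : (irow X i).getD j 0 ∈ irow X i := by
        rw [List.getD_eq_getElem _ _ hj]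
        exact List.getElem_mem hj
      have h4 := sz_mem h3
      refine (abs_lt_two_pow_sz _).trans_le ?_
      exact pow_le_pow_right₀ (by norm_num) (by omega)
    · rw [List.getD_eq_default _ _ (not_lt.1 hj), abs_zero]
      positivity
  · have h1 : irow X i = [] := by
      unfold irow
      rw [List.getD_eq_default _ _ (not_lt.1 hi)]
      rfl
    rw [h1]
    simp

theorem part_nonneg (s : ℕ) (a : ℤ) : 0 ≤ part s a := by
  unfold part
  split_ifs <;> exact le_max_right _ _

theorem part_le (s : ℕ) (a : ℤ) : part s a ≤ |a| := by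
  unfold part
  split_ifs
  · exact max_le (le_abs_self a) (abs_nonneg a)
  · exact max_le (neg_le_abs a) (abs_nonneg a)

theorem part_sub (a : ℤ) : part 0 a - part 1 a = a := by
  unfold part
  rw [if_pos rfl, if_neg one_ne_zero]
  rcases le_total a 0 with h | h
  · rw [max_eq_right h, max_eq_left (by omega)]
    ring
  · rw [max_eq_left h, max_eq_right (by omega)]
    ring

/-- one more bit -/
theorem div_bit (a : ℤ) (k : ℕ) : 2 * (a / 2 ^ (k + 1)) + (a / 2 ^ k) % 2 = a / 2 ^ k := by
  have h1 : a / 2 ^ (k + 1) = a / 2 ^ k / 2 := by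
    rw [pow_succ, Int.ediv_ediv_of_nonneg (by positivity)]
  rw [h1]
  omega

/-- value of the last variable of the block `r` -/
theorem block_value (X : Mat) {r : ℕ} (hr : r < 2 * X.2.length) {w : ℕ → ℝ}
    (hw : ∀ t < spT X, w (X.1 + t) = ((spIns X t).map w).sum) :
    w (X.1 + (r + 1) * blen X - 1) =
      ∑ j ∈ Finset.range X.1, ((part (r % 2) ((irow X (r / 2)).getD j 0) : ℤ) : ℝ) * w j := by
  set N := X.1 with hN
  set B := blen X with hB
  set K := nbits X with hK
  set c : ℕ → ℤ := fun j => part (r % 2) ((irow X (r / 2)).getD j 0) with hc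
  have hB0 : 0 < B := blen_pos X
  have hBK : B = 1 + K * (N + 2) := rfl
  have hc0 : ∀ j, 0 ≤ c j := fun j => part_nonneg _ _
  have hcK : ∀ j, c j < 2 ^ K := fun j => (part_le _ _).trans_lt (coef_lt X _ _)
  -- positions in the block
  have hmod : ∀ s < B, (r * B + s) % B = s := by
    intro s hs
    rw [add_comm, Nat.add_mul_mod_self_right, Nat.mod_eq_of_lt hs]
  have hdiv : ∀ s < B, (r * B + s) / B = r := by
    intro s hs
    rw [mul_comm, Nat.mul_add_div hB0, Nat.div_eq_of_lt hs, add_zero]
  have hlt : ∀ s < B, r * B + s < spT X := by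
    intro s hs
    have h1 : (r + 1) * B ≤ 2 * X.2.length * B := Nat.mul_le_mul_right _ hr
    have h2 : (r + 1) * B = r * B + B := by ring
    have h3 : spT X = 2 * X.2.length * B := rfl
    omega
  have hrule : ∀ s < B, w (N + (r * B + s)) = ((spIns X (r * B + s)).map w).sum :=
    fun s hs => hw _ (hlt s hs)
  have hkB : ∀ k < K, k * (N + 2) + (N + 2) < B := by
    intro k hk
    have h1 : (k + 1) * (N + 2) ≤ K * (N + 2) := Nat.mul_le_mul_right _ hk
    have h2 : (k + 1) * (N + 2) = k * (N + 2) + (N + 2) := by ring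
    omega
  have e0 : w (N + (r * B + 0)) = 0 := by
    rw [hrule 0 hB0]
    unfold spIns
    rw [← hB, hmod 0 hB0, if_pos rfl]
    simp
  have e1 : ∀ k < K, w (N + (r * B + (k * (N + 2) + 1))) = w (N + (r * B + k * (N + 2))) := by
    intro k hk
    have hs : k * (N + 2) + 1 < B := by have := hkB k hk; omega
    rw [hrule _ hs]
    unfold spIns
    rw [← hB, hmod _ hs, ← hN, if_neg (by omega), if_pos (by
      rw [Nat.add_sub_cancel, Nat.mul_mod_left])]
    simp only [List.map_cons, List.map_nil, List.sum_cons, List.sum_nil, add_zero]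
    congr 1
  have e2 : ∀ k < K, w (N + (r * B + (k * (N + 2) + 2))) =
      2 * w (N + (r * B + k * (N + 2))) := by
    intro k hk
    have hs : k * (N + 2) + 2 < B := by have := hkB k hk; omega
    have hm : (k * (N + 2) + 2 - 1) % (N + 2) = 1 := by
      have : k * (N + 2) + 2 - 1 = 1 + k * (N + 2) := by omega
      rw [this, Nat.add_mul_mod_self_right, Nat.mod_eq_of_lt (by omega)]
    rw [hrule _ hs]
    unfold spIns
    rw [← hB, hmod _ hs, ← hN, if_neg (by omega), if_neg (by rw [hm]; omega), if_pos hm]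
    simp only [List.map_cons, List.map_nil, List.sum_cons, List.sum_nil, add_zero]
    have f1 : N + (r * B + (k * (N + 2) + 2)) - 2 = N + (r * B + k * (N + 2)) := by omega
    have f2 : N + (r * B + (k * (N + 2) + 2)) - 1 = N + (r * B + (k * (N + 2) + 1)) := by omega
    rw [f1, f2, e1 k hk]
    ring
  have e3 : ∀ k < K, ∀ j < N, w (N + (r * B + (k * (N + 2) + 2 + (j + 1)))) =
      w (N + (r * B + (k * (N + 2) + 2 + j))) + (((c j / 2 ^ (K - 1 - k)) % 2 : ℤ) : ℝ) * w j := by
    intro k hk j hj
    have hs : k * (N + 2) + 2 + (j + 1) < B := by have := hkB k hk; omega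
    have hq : k * (N + 2) + 2 + (j + 1) - 1 = (j + 2) + k * (N + 2) := by omega
    have hm : (k * (N + 2) + 2 + (j + 1) - 1) % (N + 2) = j + 2 := by
      rw [hq, Nat.add_mul_mod_self_right, Nat.mod_eq_of_lt (by omega)]
    have hd : (k * (N + 2) + 2 + (j + 1) - 1) / (N + 2) = k := by
      rw [hq, Nat.add_mul_div_right _ _ (by omega), Nat.div_eq_of_lt (by omega), zero_add]
    have f2 : N + (r * B + (k * (N + 2) + 2 + (j + 1))) - 1 =
        N + (r * B + (k * (N + 2) + 2 + j)) := by omega
    rw [hrule _ hs]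
    unfold spIns
    rw [← hB, hmod _ hs, hdiv _ hs, ← hN, ← hK, if_neg (by omega), hm, hd, if_neg (by omega),
      if_neg (by omega), Nat.add_sub_cancel, f2]
    have hb : bitOn X r (K - 1 - k) j ↔ (c j / 2 ^ (K - 1 - k)) % 2 = 1 := Iff.rfl
    split_ifs with h1
    · rw [hb] at h1
      rw [h1]
      simp
    · rw [hb] at h1
      have h2 : (c j / 2 ^ (K - 1 - k)) % 2 = 0 := by omega
      rw [h2]
      simp
  have e4 : ∀ k < K, ∀ j ≤ N, w (N + (r * B + (k * (N + 2) + 2 + j))) =
      2 * w (N + (r * B + k * (N + 2))) +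
        ∑ j' ∈ Finset.range j, (((c j' / 2 ^ (K - 1 - k)) % 2 : ℤ) : ℝ) * w j' := by
    intro k hk j
    induction j with
    | zero =>
      intro _
      rw [Finset.sum_range_zero, add_zero, add_zero, e2 k hk]
    | succ j ih =>
      intro hj
      rw [e3 k hk j (by omega), ih (by omega), Finset.sum_range_succ, add_assoc]
  have e5 : ∀ k ≤ K, w (N + (r * B + k * (N + 2))) =
      ∑ j ∈ Finset.range N, ((c j / 2 ^ (K - k) : ℤ) : ℝ) * w j := by
    intro k
    induction k with
    | zero =>
      intro _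
      rw [zero_mul, e0]
      symm
      refine Finset.sum_eq_zero fun j _ => ?_
      rw [Nat.sub_zero, Int.ediv_eq_zero_of_lt (hc0 j) (hcK j)]
      simp
    | succ k ih =>
      intro hk
      have h1 : (k + 1) * (N + 2) = k * (N + 2) + 2 + N := by ring
      rw [h1, e4 k hk N le_rfl, ih (by omega), Finset.mul_sum, ← Finset.sum_add_distrib]
      refine Finset.sum_congr rfl fun j _ => ?_
      have h2 : K - k = K - 1 - k + 1 := by omega
      have h3 : K - (k + 1) = K - 1 - k := by omega
      have h4 := div_bit (c j) (K - 1 - k)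
      rw [h2, h3]
      have h5 : ((c j / 2 ^ (K - 1 - k) : ℤ) : ℝ) =
          2 * ((c j / 2 ^ (K - 1 - k + 1) : ℤ) : ℝ) + (((c j / 2 ^ (K - 1 - k)) % 2 : ℤ) : ℝ) := by
        exact_mod_cast h4.symm
      rw [h5]
      ring
  have h1 : N + (r + 1) * B - 1 = N + (r * B + K * (N + 2)) := by
    have h2 : (r + 1) * B = r * B + B := by ring
    omega
  rw [h1, e5 K le_rfl, Nat.sub_self]
  refine Finset.sum_congr rfl fun j _ => ?_
  rw [pow_zero, Int.ediv_one]

theorem spPQ_ok {m n : ℕ} (D : RLP m n) :
    OkPQ D (spT D.mat) (spIns D.mat) (spP D.mat) (spQ D.mat) := by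
  intro i
  have hlen : D.mat.2.length = m := by simp [RLP.mat]
  have hB := blen_pos D.mat
  have hT : spT D.mat = 2 * m * blen D.mat := by
    unfold spT
    rw [hlen]
  have hP : spP D.mat i = n + (2 * (i : ℕ) + 1) * blen D.mat - 1 := rfl
  have hQ : spQ D.mat i = n + (2 * (i : ℕ) + 2) * blen D.mat - 1 := rfl
  have hi := i.2
  have h1 : (2 * (i : ℕ) + 2) * blen D.mat ≤ 2 * m * blen D.mat :=
    Nat.mul_le_mul_right _ (by omega)
  have h2 : (2 * (i : ℕ) + 2) * blen D.mat = (2 * (i : ℕ) + 1) * blen D.mat + blen D.mat := by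
    ring
  have h2' : blen D.mat ≤ (2 * (i : ℕ) + 1) * blen D.mat :=
    Nat.le_mul_of_pos_left _ (by omega)
  refine ⟨by omega, by omega, by omega, fun x => ?_⟩
  set w : ℕ → ℝ := fun a => (forms n (spT D.mat) (spIns D.mat)).getD a 0 x with hw
  have hrec : ∀ t < spT D.mat, w (D.mat.1 + t) = ((spIns D.mat t).map w).sum := by
    intro t ht
    exact phi_rec (spIns_ok D.mat) x ht
  have hold : ∀ j : Fin n, w j = x j := fun j => phi_old x j
  have hp := block_value D.mat (r := 2 * (i : ℕ)) (by omega) hrec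
  have hq := block_value D.mat (r := 2 * (i : ℕ) + 1) (by omega) hrec
  have g1 : 2 * (i : ℕ) % 2 = 0 := by omega
  have g2 : 2 * (i : ℕ) / 2 = i := by omega
  have g3 : (2 * (i : ℕ) + 1) % 2 = 1 := by omega
  have g4 : (2 * (i : ℕ) + 1) / 2 = i := by omega
  rw [g1, g2] at hp
  rw [g3, g4] at hq
  have hp' : w (spP D.mat i) = ∑ j ∈ Finset.range n,
      ((part 0 ((irow D.mat i).getD j 0) : ℤ) : ℝ) * w j := hp
  have hq' : w (spQ D.mat i) = ∑ j ∈ Finset.range n,
      ((part 1 ((irow D.mat i).getD j 0) : ℤ) : ℝ) * w j := hq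
  change w (spP D.mat i) - w (spQ D.mat i) = _
  rw [hp', hq', ← Finset.sum_sub_distrib]
  have h3 : ∀ j ∈ Finset.range n, ((part 0 ((irow D.mat i).getD j 0) : ℤ) : ℝ) * w j -
      ((part 1 ((irow D.mat i).getD j 0) : ℤ) : ℝ) * w j =
      (((irow D.mat i).getD j 0 : ℤ) : ℝ) * w j := by
    intro j _
    rw [← sub_mul]
    congr 1
    exact_mod_cast congrArg (fun z : ℤ => (z : ℝ)) (part_sub ((irow D.mat i).getD j 0))
  rw [Finset.sum_congr rfl h3, Finset.sum_range]
  have h4 : irow D.mat i = clr (denZ (List.ofFn (D.A i))) (List.ofFn (D.A i)) := by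
    unfold irow
    have h5 : D.mat.2.getD i [] = List.ofFn (D.A i) := by
      rw [List.getD_eq_getElem _ _ (by rw [hlen]; exact hi)]
      simp [RLP.mat]
    rw [h5]
  have h6 : sc D.A i = ((denZ (List.ofFn (D.A i)) : ℤ) : ℝ) := by
    unfold sc
    rw [dif_pos hi]
  rw [h6, h4, ← rdot_clr _ (fun j => den_dvd (List.mem_ofFn.2 ⟨j, rfl⟩))]
  unfold rdot
  refine Finset.sum_congr rfl fun j _ => ?_
  rw [hold j]

end Pool.Agent.Simplex.EB
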