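import Pool.Agent.Lib.MP_4d246d_lc.EB.Statement5

/-!
# Fractional perfect matchings of tripartite hypergraphs

A tripartite hypergraph has `N` vertices in each of the three parts `0`, `1`, `2` and `M` edges; the
edge `q` consists of the vertices `f 0 q`, `f 1 q`, `f 2 q` of the parts `0`, `1`, `2`. The number of
the vertex `a` of the part `k` is `p = k N + a`; then `p.divNat = k`, `p.modNat = a`.
-/

namespace Pool.Agent.Simplex.EB

open Pool.Agent.Lib.PolyTime Turing

/-- The matching program: maximise the weight `x_e` of one edge `e` over all fractional perfect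
matchings, that is, over all `x ≥ 0` such that for each of the `3 N` vertices the sum of the `x_q`
over the edges `q` that contain it is `1` (sums `≤ 1`, minus sums `≤ - 1`). -/
noncomputable def hyper {N M : ℕ} (f : Fin 3 → Fin M → Fin N) (e : Fin M) :
    RLP (3 * N + 3 * N) M where
  A := Fin.addCases (fun p q => if f p.divNat q = p.modNat then 1 else 0)
    (fun p q => if f p.divNat q = p.modNat then -1 else 0)
  b := Fin.addCases (fun _ => 1) (fun _ => -1)
  c := fun q => if q = e then 1 else 0

/-- The matching program with rational data. -/
def hyperQ {N M : ℕ} (f : Fin 3 → Fin M → Fin N) (e : Fin M) : QLP (3 * N + 3 * N) M where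
  A := Fin.addCases (fun p q => if f p.divNat q = p.modNat then 1 else 0)
    (fun p q => if f p.divNat q = p.modNat then -1 else 0)
  b := Fin.addCases (fun _ => 1) (fun _ => -1)
  c := fun q => if q = e then 1 else 0

/-- No two edges are equal, and each vertex is in at most three edges. -/
structure Cubic {N M : ℕ} (f : Fin 3 → Fin M → Fin N) : Prop where
  simple : ∀ q q', (∀ k, f k q = f k q') → q = q'
  degree : ∀ k a, {q | f k q = a}.ncard ≤ 3

/-- The input is a matching program for such a hypergraph, and a vertex of its polytope. -/
def IsHyper (I : Input) : Prop :=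
  ∃ (N M : ℕ) (f : Fin 3 → Fin M → Fin N) (e : Fin M) (v : Fin M → ℚ)
    (hv : (hyperQ f e).Vertex (toReal v)), Cubic f ∧ I = ⟨_, _, hyperQ f e, v, hv⟩

end Pool.Agent.Simplex.EB
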