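import Pool.Agent.Lib.MP_4d246d_lc.EB.HyRestr
import Pool.Agent.Lib.MP_4d246d_lc.EB.AxQ
import Pool.Agent.Lib.MP_4d246d_lc.EB.Statement8

/-!
# The hypergraph of a system of literals

The vertices are the `3 N` slices of the cube, the edges are the places of the support.
-/

open Finset

namespace Pool.Agent.Simplex.EB.Tab.Ax

open Pool.Agent.Lib.PolyTime Pool.Agent.Simplex.QP

/-- the places of the support, in increasing order -/
def cols (X : Mat) : List ℕ :=
  (List.range (axN X * (axN X * axN X))).filter fun q => decide (Supp X q)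

theorem mem_cols {X : Mat} {q : ℕ} : q ∈ cols X ↔ q < axN X * (axN X * axN X) ∧ Supp X q := by
  unfold cols
  rw [List.mem_filter, List.mem_range, decide_eq_true_eq]

theorem nodup_cols (X : Mat) : (cols X).Nodup := List.nodup_range.filter _

theorem cols_def (X : Mat) : cols X =
    (List.range (axN X * (axN X * axN X))).filter fun q => decide (Supp X q) := rfl

attribute [irreducible] cols

/-- the place of a column -/
def colF (X : Mat) (j : Fin (cols X).length) : Fin (axN X * (axN X * axN X)) :=
  ⟨(cols X)[j], (mem_cols.1 (List.getElem_mem _)).1⟩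

theorem colF_supp (X : Mat) (j : Fin (cols X).length) : Supp X (colF X j) :=
  (mem_cols.1 (List.getElem_mem j.2)).2

theorem colF_inj (X : Mat) : Function.Injective (colF X) := by
  intro i j h
  have h1 : (cols X)[i] = (cols X)[j] := congrArg Fin.val h
  exact Fin.ext ((nodup_cols X).getElem_inj_iff.1 h1)

theorem exists_colF {X : Mat} {q : Fin (axN X * (axN X * axN X))} (h : Supp X q) :
    ∃ j, colF X j = q := by
  obtain ⟨j, hj, h1⟩ := List.getElem_of_mem (mem_cols.2 ⟨q.2, h⟩)
  exact ⟨⟨j, hj⟩, Fin.ext h1⟩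

theorem not_supp_iff {X : Mat} {q : Fin (axN X * (axN X * axN X))} :
    ¬ Supp X q ↔ ∀ j, colF X j ≠ q := by
  constructor
  · rintro h j rfl
    exact h (colF_supp X j)
  · intro h hs
    obtain ⟨j, hj⟩ := exists_colF hs
    exact h j hj

/-- the hypergraph -/
def hyF (X : Mat) (k : Fin 3) (j : Fin (cols X).length) : Fin (axN X) :=
  ⟨crd (axN X) k (colF X j), crd_lt (colF X j).2⟩

theorem hyF_iff (X : Mat) (p : Fin (3 * axN X)) (j : Fin (cols X).length) :
    hyF X p.divNat j = p.modNat ↔ InSlice (axN X) p (colF X j) := by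
  have h5 : hyF X p.divNat j = p.modNat ↔
      crd (axN X) (p / axN X) (colF X j) = p % axN X := Fin.ext_iff
  rw [h5]
  generalize hq : ((colF X j : Fin (axN X * (axN X * axN X))) : ℕ) = q
  have hq' : q < axN X * (axN X * axN X) := hq ▸ (colF X j).2
  have hp := p.2
  generalize ((p : Fin (3 * axN X)) : ℕ) = p at hp ⊢
  generalize axN X = N at hp hq' ⊢
  have hN : 0 < N := by omega
  have h1 := Nat.div_add_mod p N
  have h2 := Nat.mod_lt p hN
  have h3 : p / N < 3 := (Nat.div_lt_iff_lt_mul hN).2 hp
  have x1 : q / N / N < N := crd_lt (κ := 0) hq'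
  have x2 : q / N % N < N := crd_lt (κ := 1) hq'
  have x3 : q % N < N := crd_lt (κ := 2) hq'
  unfold InSlice
  generalize p / N = κ at h1 h3
  generalize p % N = a at h1 h2
  rw [← h1]
  interval_cases κ
  · show q / N / N = a ↔ _
    omega
  · show q / N % N = a ↔ _
    omega
  · show q % N = a ↔ _
    omega

/-- each equation has at most three variables -/
def Deg3 (X : Mat) : Prop := ∀ s < X.2.length, {v | v < X.1 ∧ cof X s v ≠ 0}.ncard ≤ 3

/-- the matching program of a rational program -/
def matchD {m n : ℕ} (D : QLP m n) :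
    QLP (3 * axN (nmat D) + 3 * axN (nmat D)) (cols (nmat D)).length where
  A := Fin.addCases (fun p q => if hyF (nmat D) p.divNat q = p.modNat then 1 else 0)
    (fun p q => if hyF (nmat D) p.divNat q = p.modNat then -1 else 0)
  b := Fin.addCases (fun _ => 1) (fun _ => -1)
  c := fun q => ∑ j : Fin n, if (colF (nmat D) q : ℕ) = vpos (nmat D) j then D.c j else 0

/-- the weights of a point -/
def matchV {m n : ℕ} (D : QLP m n) (v : Fin n → ℚ) (q : Fin (cols (nmat D)).length) : ℚ :=
  assignV D v (colF (nmat D) q)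

theorem ofQ_matchD {I : Input} (h : OkA I) : ofQ (matchD I.lp) =
    restr (assign (axN (nmat I.lp)) (fun q => pcost (nmat I.lp) h.cost.choose q))
      (colF (nmat I.lp)) := by
  have h1 : ∀ i q, (ofQ (matchD I.lp)).A i q =
      (restr (assign (axN (nmat I.lp)) (fun q => pcost (nmat I.lp) h.cost.choose q))
        (colF (nmat I.lp))).A i q := by
    intro i q
    show (Fin.addCases (fun p q => if hyF (nmat I.lp) p.divNat q = p.modNat then 1 else 0)
      (fun p q => if hyF (nmat I.lp) p.divNat q = p.modNat then -1 else 0) i :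
        Fin (cols (nmat I.lp)).length → ℚ) q =
      (Fin.addCases (fun p q => if InSlice (axN (nmat I.lp)) p q then 1 else 0)
        (fun p q => if InSlice (axN (nmat I.lp)) p q then -1 else 0) i :
        Fin (axN (nmat I.lp) * (axN (nmat I.lp) * axN (nmat I.lp))) → ℚ) (colF (nmat I.lp) q)
    induction i using Fin.addCases with
    | left p =>
      rw [Fin.addCases_left, Fin.addCases_left]
      exact if_congr (hyF_iff _ p q) rfl rfl
    | right p =>
      rw [Fin.addCases_right, Fin.addCases_right]
      exact if_congr (hyF_iff _ p q) rfl rfl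
  have h2 : ∀ i, (ofQ (matchD I.lp)).b i =
      (restr (assign (axN (nmat I.lp)) (fun q => pcost (nmat I.lp) h.cost.choose q))
        (colF (nmat I.lp))).b i := by
    intro i
    show (((Fin.addCases (fun _ => 1) (fun _ => -1) i : ℚ) : ℚ) : ℝ) =
      (Fin.addCases (fun _ => 1) (fun _ => -1) i : ℝ)
    induction i using Fin.addCases with
    | left p =>
      rw [Fin.addCases_left, Fin.addCases_left]
      exact Rat.cast_one
    | right p =>
      rw [Fin.addCases_right, Fin.addCases_right]
      norm_num
  have h3 : ∀ q, (ofQ (matchD I.lp)).c q =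
      (restr (assign (axN (nmat I.lp)) (fun q => pcost (nmat I.lp) h.cost.choose q))
        (colF (nmat I.lp))).c q := by
    intro q
    show (((∑ j : Fin I.n, if (colF (nmat I.lp) q : ℕ) = vpos (nmat I.lp) j
      then I.lp.c j else 0 : ℚ) : ℚ) : ℝ) = pcost (nmat I.lp) h.cost.choose (colF (nmat I.lp) q)
    have e1 : (∑ j : Fin I.n, if (colF (nmat I.lp) q : ℕ) = vpos (nmat I.lp) j
        then I.lp.c j else 0) =
        if (colF (nmat I.lp) q : ℕ) = vpos (nmat I.lp) h.cost.choose then 1 else 0 := by
      rw [Finset.sum_eq_single h.cost.choose]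
      · rw [h.cost.choose_spec, if_pos rfl]
      · intro j _ hj
        rw [h.cost.choose_spec, if_neg hj, ite_self]
      · intro h2
        exact absurd (Finset.mem_univ _) h2
    rw [e1]
    unfold pcost
    rw [if_pos (colF_supp _ q), sub_zero]
    split_ifs
    · exact Rat.cast_one
    · exact Rat.cast_zero
  generalize ofQ (matchD I.lp) = D1 at h1 h2 h3
  generalize restr (assign (axN (nmat I.lp)) (fun q => pcost (nmat I.lp) h.cost.choose q))
    (colF (nmat I.lp)) = D2 at h1 h2 h3
  cases D1
  cases D2
  congr 1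
  · exact funext fun i => funext fun q => h1 i q
  · exact funext fun i => h2 i
  · exact funext fun q => h3 q

private theorem hd_cast {m n m' n' : ℕ} {D : RLP m n} {D' D'' : RLP m' n'} (h : D' = D'')
    (e : PIso D D') (x : Fin n → ℝ) : (h ▸ e : PIso D D'').map x = e.map x := by
  subst h
  rfl

/-- the isomorphism with the restricted program -/
noncomputable def matchIso0 {I : Input} (h : OkA I) : PIso (ofQ I.lp)
    (restr (assign (axN (nmat I.lp)) (fun q => pcost (nmat I.lp) h.cost.choose q))
      (colF (nmat I.lp))) :=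
  PIso.ofFIso
    (axIso (D := ofQ I.lp) (X := nmat I.lp) rfl (unitsM_nmat h.units) (two_le_nmat h)
      h.cost.choose
      (fun j => by
        show ((I.lp.c j : ℚ) : ℝ) = _
        rw [h.cost.choose_spec j]
        split_ifs <;> simp) h.sys) (colF (nmat I.lp)) (colF_inj _)
    (by
      ext y
      constructor
      · rintro ⟨h1, h2⟩
        exact ⟨h1, fun q hq => h2 q (not_supp_iff.2 hq)⟩
      · rintro ⟨h1, h2⟩
        exact ⟨h1, fun q hq => h2 q (not_supp_iff.1 hq)⟩)
    (by
      intro x q hq
      rw [axIso_map]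
      exact arr_supp _ (not_supp_iff.2 hq))

/-- **The isomorphism with the matching program.** -/
noncomputable def matchIso {I : Input} (h : OkA I) : PIso (ofQ I.lp) (ofQ (matchD I.lp)) :=
  (ofQ_matchD h).symm ▸ matchIso0 h

theorem matchIso_apply {I : Input} (h : OkA I) (x : Fin I.n → ℝ)
    (q : Fin (cols (nmat I.lp)).length) :
    (matchIso h).map x q = arr (nmat I.lp) (vfun x) (colF (nmat I.lp) q) := by
  unfold matchIso
  rw [hd_cast]
  unfold matchIso0
  rw [PIso.ofFIso_map]
  exact axIso_map _ _ _ _ _ _ x _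

theorem matchIso_map {I : Input} (h : OkA I) (v : Fin I.n → ℚ) :
    (matchIso h).map (toReal v) = toReal (matchV I.lp v) := by
  funext q
  rw [matchIso_apply, ← assignFIso_apply h, assignFIso_map h]
  rfl

/-- the input -/
def redM (I : {I : Input // OkA I}) : Input :=
  ⟨_, _, matchD I.1.lp, matchV I.1.lp I.1.v, by
    rw [← ofQ_vertex, ← matchIso_map I.2, PIso.vertex]
    exact I.1.vertex⟩

/-- the way back -/
def backM (I : Input) (w : Fin (cols (nmat I.lp)).length → ℚ) (j : Fin I.n) : ℚ :=
  ∑ q, if (colF (nmat I.lp) q : ℕ) = vpos (nmat I.lp) j then w q else 0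

private theorem hd_supp_vpos {X : Mat} (hM : 0 < X.2.length) {v : ℕ} (hv : v < X.1) :
    Supp X (vpos X v) := by
  refine Or.inl ⟨0, by norm_num, 2 * (v * X.2.length), ?_, rfl⟩
  have h1 : v * X.2.length < slR X := Nat.mul_lt_mul_of_pos_right hv hM
  omega

theorem exists_vcol {X : Mat} (hM : 2 ≤ X.2.length) {v : ℕ} (hv : v < X.1) :
    ∃ j, (colF X j : ℕ) = vpos X v := by
  obtain ⟨j, hj⟩ := exists_colF (q := ⟨vpos X v, vpos_lt (by omega) hv⟩)
    (hd_supp_vpos (by omega) hv)
  exact ⟨j, congrArg Fin.val hj⟩

theorem backM_map {I : Input} (h : OkA I) (x : Fin I.n → ℝ)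
    (w : Fin (cols (nmat I.lp)).length → ℚ)
    (hw : toReal w = (matchIso h).map x) : toReal (backM I w) = x := by
  funext j
  have hj : (j : ℕ) < (nmat I.lp).1 := j.2
  have hM := two_le_nmat h
  obtain ⟨q, hq⟩ := exists_vcol hM hj
  have h1 : backM I w j = w q := by
    unfold backM
    rw [Finset.sum_eq_single q]
    · rw [if_pos hq]
    · intro q' _ hne
      rw [if_neg fun h2 => hne (colF_inj _ (Fin.ext (h2.trans hq.symm)))]
    · intro h2
      exact absurd (Finset.mem_univ _) h2
  have h2 := congrFun hw q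
  rw [matchIso_apply, hq, arr_vpos hM _ hj, vfun_fin] at h2
  show ((backM I w j : ℚ) : ℝ) = x j
  rw [h1]
  exact h2

end Pool.Agent.Simplex.EB.Tab.Ax
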