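import Pool.Agent.Lib.MP_4d246d_lc.EB.HyDef
import Pool.Agent.Lib.MP_4d246d_lc.EB.AxHom

/-!
# The hypergraph is simple and has maximum degree three

Degree of the vertex `a` of the part `κ` (number of `q` in the support with `crd N κ q = a`):
if `a < M`: the places `pos κ e` of the literals `e` of the equation `a` (at most three), or, if
the equation is zero, `dpos a` only; if `M ≤ a < M + 2 R`: `pos κ (a - M)` and `dpos a`; if
`M + 2 R ≤ a < M + 3 R`: two places `pos ((κ + 2) % 3) e`, `e / 2 = a - M - 2 R`; otherwise the two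
places `pos ((κ + 1) % 3) e` with `colc X e = a - M - 3 R`.
-/

open Finset

namespace Pool.Agent.Simplex.EB.Tab.Ax

open Pool.Agent.Lib.PolyTime Pool.Agent.Simplex.QP

section

variable {X : Mat}

/-- a small first number comes from a literal -/
private theorem dg_num0 {e a : ℕ} (ha : a < X.2.length) (h : num0 X e = a) :
    ((e % 2 = 0 ∧ cof X (cS X e) (cV X e) = 1) ∨
      (e % 2 = 1 ∧ cof X (cS X e) (cV X e) = -1)) ∧ cS X e = a := by
  unfold num0 at h
  split_ifs at h with h1
  · exact ⟨h1, h⟩
  · omega

private theorem dg_num0_ge {e a : ℕ} (hM : 0 < X.2.length) (ha : X.2.length ≤ a)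
    (h : num0 X e = a) : e = a - X.2.length := by
  unfold num0 at h
  split_ifs at h with h1
  · have h2 : cS X e < X.2.length := Nat.mod_lt _ hM
    omega
  · omega

private theorem dg_num {e : ℕ} (i : ℕ) (hi : i < 3) :
    (i = 0 ∧ num X i e = num0 X e) ∨
      (i = 1 ∧ num X i e = X.2.length + 2 * slR X + e / 2) ∨
      (i = 2 ∧ num X i e = X.2.length + 3 * slR X + colc X e) := by
  interval_cases i
  · exact Or.inl ⟨rfl, rfl⟩
  · exact Or.inr (Or.inl ⟨rfl, rfl⟩)
  · exact Or.inr (Or.inr ⟨rfl, rfl⟩)

/-- the cell from the variable and the equation -/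
private theorem dg_cell (e : ℕ) : e = 2 * (cV X e * X.2.length + cS X e) + e % 2 := by
  have h1 := Nat.div_add_mod e 2
  have h2 := Nat.div_add_mod (e / 2) X.2.length
  have h3 : cV X e * X.2.length + cS X e = e / 2 := by
    unfold cV cS
    rw [mul_comm]
    exact h2
  rw [h3]
  exact h1.symm

private theorem dg_colc {e j : ℕ} (hM : 0 < X.2.length) (h : colc X e = j) :
    e = 2 * j + 1 ∨ e = 2 * (j / X.2.length * X.2.length + (j % X.2.length + 1) % X.2.length) := by
  unfold colc at h
  split_ifs at h with h1
  · left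
    omega
  · right
    have h2 := dg_cell (X := X) e
    have h3 : cS X e < X.2.length := Nat.mod_lt _ hM
    have h4 : (cS X e + (X.2.length - 1)) % X.2.length < X.2.length := Nat.mod_lt _ hM
    have h5 : j / X.2.length = cV X e := by
      rw [← h, mul_comm, Nat.mul_add_div hM, Nat.div_eq_of_lt h4, add_zero]
    have h6 : j % X.2.length = (cS X e + (X.2.length - 1)) % X.2.length := by
      rw [← h, mul_comm, Nat.mul_add_mod, Nat.mod_eq_of_lt h4]
    have h7 : (j % X.2.length + 1) % X.2.length = cS X e := by
      rw [h6, Nat.mod_add_mod]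
      have h8 : cS X e + (X.2.length - 1) + 1 = cS X e + X.2.length := by omega
      rw [h8, Nat.add_mod_right, Nat.mod_eq_of_lt h3]
    rw [h5, h7]
    omega

/-- the places with a given coordinate -/
private theorem dg_main (hM : 2 ≤ X.2.length) (hd : Deg3 X) {κ a : ℕ} (hκ : κ < 3)
    (ha : a < axN X) : ∃ T : Finset ℕ, T.card ≤ 3 ∧
      ∀ q, Supp X q → crd (axN X) κ q = a → q ∈ T := by
  have hM0 : 0 < X.2.length := by omega
  have hax : axN X = X.2.length + 4 * slR X := rfl
  have hR : ∀ {e}, e < 2 * slR X → e / 2 < slR X := fun h => by omega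
  by_cases h1 : a < X.2.length
  · by_cases hz : ZeroRow X a
    · refine ⟨{dpos X a}, by simp, ?_⟩
      rintro q (⟨ρ, hρ, e, he, rfl⟩ | ⟨a', ha', rfl, h0⟩) hq
      · exfalso
        rw [crd_pos he hρ hκ] at hq
        rcases dg_num (X := X) (e := e) ((κ + 3 - ρ) % 3) (Nat.mod_lt _ (by norm_num)) with
          ⟨h2, h3⟩ | ⟨h2, h3⟩ | ⟨h2, h3⟩
        · rw [h3] at hq
          obtain ⟨h4, h5⟩ := dg_num0 h1 hq
          have h6 := hz (cV X e) (TabInv.cV_lt (X := X) (e := e) he)
          rw [h5] at h4
          rcases h4 with ⟨-, h4⟩ | ⟨-, h4⟩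
          · rw [h6] at h4
            norm_num at h4
          · rw [h6] at h4
            norm_num at h4
        · rw [h3] at hq
          omega
        · rw [h3] at hq
          omega
      · rw [crd_dpos ha'] at hq
        rw [hq]
        exact Finset.mem_singleton_self _
    · refine ⟨((range X.1).filter fun v => cof X a v ≠ 0).image
        (fun v => pos X κ (2 * (v * X.2.length + a) + if cof X a v = 1 then 0 else 1)), ?_, ?_⟩
      · refine Finset.card_image_le.trans ?_
        have h2 := hd a h1
        have h3 : {v | v < X.1 ∧ cof X a v ≠ 0} =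
            (((range X.1).filter fun v => cof X a v ≠ 0 : Finset ℕ) : Set ℕ) := by
          ext v
          simp
        rw [h3, Set.ncard_coe_finset] at h2
        exact h2
      · rintro q (⟨ρ, hρ, e, he, rfl⟩ | ⟨a', ha', rfl, h0⟩) hq
        · rw [crd_pos he hρ hκ] at hq
          rcases dg_num (X := X) (e := e) ((κ + 3 - ρ) % 3) (Nat.mod_lt _ (by norm_num)) with
            ⟨h2, h3⟩ | ⟨h2, h3⟩ | ⟨h2, h3⟩
          · rw [h3] at hq
            obtain ⟨h4, h5⟩ := dg_num0 h1 hq
            have hρκ : ρ = κ := by omega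
            subst hρκ
            rw [h5] at h4
            refine Finset.mem_image.2 ⟨cV X e, Finset.mem_filter.2 ⟨Finset.mem_range.2
              (TabInv.cV_lt (X := X) (e := e) he), ?_⟩, ?_⟩
            · rcases h4 with ⟨-, h4⟩ | ⟨-, h4⟩
              · rw [h4]
                norm_num
              · rw [h4]
                norm_num
            · have h6 := dg_cell (X := X) e
              rw [h5] at h6
              congr 1
              rcases h4 with ⟨h7, h4⟩ | ⟨h7, h4⟩
              · rw [h4, if_pos rfl]
                omega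
              · rw [h4, if_neg (by norm_num)]
                omega
          · rw [h3] at hq
            omega
          · rw [h3] at hq
            omega
        · rw [crd_dpos ha'] at hq
          rw [hq] at h0
          exact absurd (h0 h1) hz
  · by_cases h2 : a < X.2.length + 2 * slR X
    · refine ⟨{pos X κ (a - X.2.length), dpos X a}, (Finset.card_le_two).trans (by norm_num), ?_⟩
      rintro q (⟨ρ, hρ, e, he, rfl⟩ | ⟨a', ha', rfl, h0⟩) hq
      · rw [crd_pos he hρ hκ] at hq
        rcases dg_num (X := X) (e := e) ((κ + 3 - ρ) % 3) (Nat.mod_lt _ (by norm_num)) with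
          ⟨h3, h4⟩ | ⟨h3, h4⟩ | ⟨h3, h4⟩
        · rw [h4] at hq
          have hρκ : ρ = κ := by omega
          rw [hρκ, dg_num0_ge hM0 (by omega) hq]
          exact Finset.mem_insert_self _ _
        · rw [h4] at hq
          omega
        · rw [h4] at hq
          omega
      · rw [crd_dpos ha'] at hq
        rw [hq]
        exact Finset.mem_insert_of_mem (Finset.mem_singleton_self _)
    · by_cases h3 : a < X.2.length + 3 * slR X
      · refine ⟨{pos X ((κ + 2) % 3) (2 * (a - X.2.length - 2 * slR X)),
          pos X ((κ + 2) % 3) (2 * (a - X.2.length - 2 * slR X) + 1)},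
          (Finset.card_le_two).trans (by norm_num), ?_⟩
        rintro q (⟨ρ, hρ, e, he, rfl⟩ | ⟨a', ha', rfl, h0⟩) hq
        · rw [crd_pos he hρ hκ] at hq
          rcases dg_num (X := X) (e := e) ((κ + 3 - ρ) % 3) (Nat.mod_lt _ (by norm_num)) with
            ⟨h4, h5⟩ | ⟨h4, h5⟩ | ⟨h4, h5⟩
          · rw [h5] at hq
            have := num0_lt he
            omega
          · rw [h5] at hq
            have hρκ : ρ = (κ + 2) % 3 := by omega
            rw [hρκ]
            rcases Nat.mod_two_eq_zero_or_one e with h6 | h6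
            · have h7 : e = 2 * (a - X.2.length - 2 * slR X) := by omega
              rw [← h7]
              exact Finset.mem_insert_self _ _
            · have h7 : e = 2 * (a - X.2.length - 2 * slR X) + 1 := by omega
              rw [← h7]
              exact Finset.mem_insert_of_mem (Finset.mem_singleton_self _)
          · rw [h5] at hq
            omega
        · rw [crd_dpos ha'] at hq
          omega
      · refine ⟨{pos X ((κ + 1) % 3) (2 * (a - X.2.length - 3 * slR X) + 1),
          pos X ((κ + 1) % 3) (2 * ((a - X.2.length - 3 * slR X) / X.2.length * X.2.length +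
            ((a - X.2.length - 3 * slR X) % X.2.length + 1) % X.2.length))},
          (Finset.card_le_two).trans (by norm_num), ?_⟩
        rintro q (⟨ρ, hρ, e, he, rfl⟩ | ⟨a', ha', rfl, h0⟩) hq
        · rw [crd_pos he hρ hκ] at hq
          rcases dg_num (X := X) (e := e) ((κ + 3 - ρ) % 3) (Nat.mod_lt _ (by norm_num)) with
            ⟨h4, h5⟩ | ⟨h4, h5⟩ | ⟨h4, h5⟩
          · rw [h5] at hq
            have := num0_lt he
            omega
          · rw [h5] at hq
            omega
          · rw [h5] at hq
            have hρκ : ρ = (κ + 1) % 3 := by omega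
            rw [hρκ]
            rcases dg_colc hM0 (show colc X e = a - X.2.length - 3 * slR X by omega) with h6 | h6
            · rw [← h6]
              exact Finset.mem_insert_self _ _
            · rw [← h6]
              exact Finset.mem_insert_of_mem (Finset.mem_singleton_self _)
        · rw [crd_dpos ha'] at hq
          omega

end

theorem cubic_hyF {X : Mat} (hM : 2 ≤ X.2.length) (hd : Deg3 X) : Cubic (hyF X) where
  simple q q' h := by
    refine colF_inj X (Fin.ext (ext_crd (colF X q).2 (colF X q').2 fun κ hκ => ?_))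
    exact congrArg Fin.val (h ⟨κ, hκ⟩)
  degree k a := by
    obtain ⟨T, hT, h1⟩ := dg_main hM hd k.2 a.2
    have h2 : ((fun q => ((colF X q : Fin _) : ℕ)) '' {q | hyF X k q = a}) ⊆ (T : Set ℕ) := by
      rintro _ ⟨q, hq, rfl⟩
      exact h1 _ (colF_supp X q) (congrArg Fin.val hq)
    have h3 : Function.Injective (fun q => ((colF X q : Fin _) : ℕ)) :=
      fun q q' h => colF_inj X (Fin.ext h)
    rw [← Set.ncard_image_of_injective _ h3]
    refine (Set.ncard_le_ncard h2 T.finite_toSet).trans ?_
    rw [Set.ncard_coe_finset]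
    exact hT

/-- (`okT_red`, `GoodRow`, `nmat_row`) -/
theorem deg3_red (I : {I : Input // IsTransport I}) : Deg3 (nmat (redI (redH I)).lp) := by
  have h0 := (okT_red I).rows
  generalize (redI (redH I)).lp = D at h0 ⊢
  intro s hs
  have hs' : s < (redI (redH I)).m := by
    have h1 : (nmat D).2.length = (redI (redH I)).m := List.length_ofFn
    omega
  have h1 : {j | D.A ⟨s, hs'⟩ j ≠ 0}.ncard ≤ 3 := by
    rcases h0 ⟨s, hs'⟩ with h | h
    · omega
    · exact h.1
  refine le_trans ?_ h1
  have h2 : {v | v < (nmat D).1 ∧ cof (nmat D) s v ≠ 0} ⊆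
      Fin.val '' {j | D.A ⟨s, hs'⟩ j ≠ 0} := by
    rintro v ⟨hv, h3⟩
    have hv' : v < (redI (redH I)).n := hv
    refine ⟨⟨v, hv'⟩, fun h4 => h3 ?_, rfl⟩
    have e1 : (List.ofFn (D.A ⟨s, hs'⟩)).getD v 0 = 0 := by
      rw [List.getD_eq_getElem _ _ (by rw [List.length_ofFn]; exact hv'), List.getElem_ofFn]
      exact h4
    unfold cof
    rw [nmat_row D hs']
    unfold nrow
    split_ifs
    · exact e1
    · have e2 : ∀ (r : List ℚ), r.getD v 0 = 0 →
          (r.map fun a => if a = 0 then (0 : ℚ) else 1).getD v 0 = 0 := by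
        intro r hr
        by_cases hl : v < r.length
        · rw [List.getD_eq_getElem _ _ (by rw [List.length_map]; exact hl), List.getElem_map]
          rw [List.getD_eq_getElem _ _ hl] at hr
          rw [hr, if_pos rfl]
        · rw [List.getD_eq_default _ _ (by rw [List.length_map]; omega)]
      exact e2 _ e1
    · by_cases hl : v < (List.ofFn (D.A ⟨s, hs'⟩)).length
      · rw [List.getD_eq_getElem _ _ (by rw [List.length_map]; exact hl), List.getElem_map]
      · rw [List.getD_eq_default _ _ (by rw [List.length_map]; omega)]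
  exact (Set.ncard_le_ncard h2 (Set.toFinite _)).trans (Set.ncard_image_le (Set.toFinite _))

private theorem dg_input {m n : ℕ} {D D' : QLP m n} (h : D = D') (v : Fin n → ℚ)
    (hv : D.Vertex (toReal v)) :
    (⟨m, n, D, v, hv⟩ : Input) = ⟨m, n, D', v, h ▸ hv⟩ := by
  subst h
  rfl

theorem redM_hyper (I : {I : Input // OkA I}) (h : Deg3 (nmat I.1.lp)) : IsHyper (redM I) := by
  obtain ⟨I, hI⟩ := I
  have hM := two_le_nmat hI
  obtain ⟨e₀, he₀⟩ := hI.cost
  obtain ⟨e, he⟩ := exists_vcol hM (v := e₀) e₀.2
  have h1 : matchD I.lp = hyperQ (hyF (nmat I.lp)) e := by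
    have h2 : (matchD I.lp).c = (hyperQ (hyF (nmat I.lp)) e).c := by
      funext q
      show (∑ j : Fin I.n, if (colF (nmat I.lp) q : ℕ) = vpos (nmat I.lp) j
        then I.lp.c j else 0) = if q = e then 1 else 0
      rw [Finset.sum_eq_single e₀]
      · rw [he₀, if_pos rfl, ← he]
        exact if_congr ⟨fun h3 => colF_inj _ (Fin.ext h3), fun h3 => by rw [h3]⟩ rfl rfl
      · intro j _ hj
        rw [he₀, if_neg hj, ite_self]
      · intro h3
        exact absurd (Finset.mem_univ _) h3
    unfold matchD hyperQ at h2 ⊢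
    congr 1
  exact ⟨_, _, hyF (nmat I.lp), e, matchV I.lp I.v, _, cubic_hyF hM h, dg_input h1 _ _⟩

end Pool.Agent.Simplex.EB.Tab.Ax
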