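import Pool.Agent.Lib.MP_4d246d_lc.EB.Statement8
import Pool.Agent.Lib.MP_4d246d_lc.EB.SpSize

/-!
# The size of the matrix of a matching program
-/

namespace Pool.Agent.Simplex.EB

open Pool.Agent.Lib.PolyTime Pool.Agent.Simplex.QP

variable {N M : ℕ}

theorem ofQ_hyperQ (f : Fin 3 → Fin M → Fin N) (e : Fin M) : ofQ (hyperQ f e) = hyper f e := by
  unfold ofQ hyper
  congr 1
  · funext i
    show ((Fin.addCases (fun _ => 1) (fun _ => -1) i : ℚ) : ℝ) = _
    induction i using Fin.addCases with
    | left p => rw [Fin.addCases_left, Fin.addCases_left, Rat.cast_one]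
    | right p => rw [Fin.addCases_right, Fin.addCases_right, Rat.cast_neg, Rat.cast_one]
  · funext q
    show ((if q = e then (1 : ℚ) else 0 : ℚ) : ℝ) = _
    split_ifs
    · exact Rat.cast_one
    · exact Rat.cast_zero

private theorem hz_entry (f : Fin 3 → Fin M → Fin N) (e : Fin M) (i : Fin (3 * N + 3 * N))
    (q : Fin M) : (hyper f e).A i q = 0 ∨ (hyper f e).A i q = 1 ∨ (hyper f e).A i q = -1 := by
  unfold hyper
  dsimp only
  induction i using Fin.addCases with
  | left p =>
    rw [Fin.addCases_left]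
    split_ifs <;> norm_num
  | right p =>
    rw [Fin.addCases_right]
    split_ifs <;> norm_num

theorem size_hyper : ∃ P : Polynomial ℕ, ∀ (N M : ℕ) (f : Fin 3 → Fin M → Fin N) (e : Fin M),
    (hyper f e).size ≤ P.eval (N + M) := by
  refine ⟨2 * (1 + Polynomial.X + 6 * Polynomial.X * (1 + Polynomial.X * 10)) + 1,
    fun N M f e => ?_⟩
  set D := hyper f e with hD
  have h1 : D.size = 2 * sz D.mat + 1 := length_wd _ _ _
  have h2 : sz D.mat = 1 + sz D.mat.1 + sz D.mat.2 := sz_prod D.mat
  have h3 : sz D.mat.1 = M := sz_nat M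
  have h4 : sz D.mat.2 ≤ (3 * N + 3 * N) * (1 + M * 10) := by
    have h5 : ∀ r ∈ D.mat.2, sz r ≤ M * 10 := by
      intro r hr
      obtain ⟨i, rfl⟩ := List.mem_ofFn.1 hr
      have h6 : ∀ a ∈ List.ofFn (D.A i), sz a ≤ 9 := by
        intro a ha
        obtain ⟨j, rfl⟩ := List.mem_ofFn.1 ha
        exact sz_unit_rat (hz_entry f e i j)
      have h7 := sz_le_of_forall h6
      rw [List.length_ofFn] at h7
      exact h7.trans (by omega)
    have h8 := sz_le_of_forall h5
    have h9 : D.mat.2.length = 3 * N + 3 * N := List.length_ofFn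
    rw [h9] at h8
    exact h8.trans (by nlinarith)
  simp only [Polynomial.eval_add, Polynomial.eval_mul, Polynomial.eval_X, Polynomial.eval_ofNat,
    Polynomial.eval_one]
  have h5 : (3 * N + 3 * N) * (1 + M * 10) ≤ 6 * (N + M) * (1 + (N + M) * 10) := by
    refine Nat.mul_le_mul (by omega) (by omega)
  omega

end Pool.Agent.Simplex.EB
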