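import Pool.Agent.Lib.MP_4d246d_lc.EB.HyPoly
import Pool.Agent.Lib.MP_4d246d_lc.EB.HySize
import Pool.Agent.Lib.MP_4d246d_lc.EB.OnBlind

/-!
# Question 1 for fractional perfect matchings of cubic tripartite hypergraphs
-/

namespace Pool.Agent.Simplex.EB

open Pool.Agent.Lib.PolyTime Pool.Agent.Simplex.QP Turing

/-- Question 1 for the cubic matching programs implies it for all transportation programs. -/
theorem slimSimplex_of_hyper (h : SimplexOn IsHyper) : SlimSimplex :=
  SimplexOn.of_red (Q := IsHyper) (P := IsTransport) Tab.Ax.redY_hyper (back := Tab.Ax.backY)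
    (backL := Tab.Ax.backLY) Tab.Ax.ofFn_backY Tab.Ax.polyF_redY Tab.Ax.polyF_backLY
    (fun _ _ _ _ h => Tab.Ax.run_of_redY h) h

/-- **Question 1 is equivalent to Question 1 for the programs: maximise the weight of one edge over
the fractional perfect matchings of a tripartite 3-uniform hypergraph of maximum degree three.** -/
theorem polySimplex_iff_hyper : PolySimplex ↔ SimplexOn IsHyper :=
  ⟨fun h => h.on _, fun h => polySimplex_iff_slim.2 (slimSimplex_of_hyper h)⟩

/-- **Question 1 is the question whether the optimal rule is polynomial on these programs.** -/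
theorem Optimal.hyper_iff {U : BlindRule} (hU : Optimal U) (hp : U.Poly) :
    PolySimplex ↔ ∃ P : Polynomial ℕ, ∀ (N M : ℕ) (f : Fin 3 → Fin M → Fin N) (e : Fin M),
      Cubic f → Solves U (hyper f e) (P.eval (N + M)) := by
  constructor
  · intro h
    obtain ⟨P, hP⟩ := (hU.poly_iff hp).1 h
    obtain ⟨Q, hQ⟩ := size_hyper
    refine ⟨P.comp Q, fun N M f e _ => (hP _ _ _).mono ?_⟩
    rw [Polynomial.eval_comp]
    exact peval_mono P (hQ N M f e)
  · rintro ⟨P, hP⟩
    refine polySimplex_iff_hyper.2 (simplexOn_of_blind hp (P := P) ?_)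
    rintro I ⟨N, M, f, e, v, hv, hH, rfl⟩
    show Solves U (ofQ (hyperQ f e)) _
    rw [ofQ_hyperQ]
    refine (hP N M f e hH).mono (peval_mono P ?_)
    unfold matSize
    have h4 := length_wd false true ((M : ℕ), List.ofFn fun i => List.ofFn ((hyperQ f e).A i))
    have h5 := sz_prod ((M : ℕ), List.ofFn fun i => List.ofFn ((hyperQ f e).A i))
    rw [sz_nat] at h5
    have h6 := length_le_sz (List.ofFn fun i => List.ofFn ((hyperQ f e).A i))
    rw [List.length_ofFn] at h6
    refine le_trans ?_ h4.ge
    dsimp only at h5 h6 ⊢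
    omega

end Pool.Agent.Simplex.EB
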