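import Pool.Agent.Lib.MP_4d246d_lc.EB.HyRed
import Pool.Agent.Lib.MP_4d246d_lc.EB.AxPoly

/-!
# The reduction to matching programs is computed in polynomial time
-/

namespace Pool.Agent.Simplex.EB.Tab.Ax

open Pool.Agent.Lib.PolyTime Pool.Agent.Simplex.QP

/-- lists over the columns -/
private theorem hp_ofFn {γ : Type*} (X : Mat) (g : ℕ → γ) :
    List.ofFn (fun j : Fin (cols X).length => g (colF X j)) = (cols X).map g := by
  apply List.ext_getElem
  · rw [List.length_ofFn, List.length_map]
  · intro i h1 h2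
    rw [List.getElem_ofFn, List.getElem_map]
    rfl

/-- the rows of the matrix -/
private def hpRows (X : Mat) : List (List ℚ) :=
  (List.range (3 * axN X + 3 * axN X)).map fun p => (cols X).map fun q =>
    if p < 3 * axN X then (if InSlice (axN X) p q then 1 else 0)
    else (if InSlice (axN X) (p - 3 * axN X) q then -1 else 0)

private theorem hp_rows {m n : ℕ} (D : QLP m n) :
    (List.ofFn fun i => List.ofFn ((matchD D).A i)) = hpRows (nmat D) := by
  unfold hpRows
  rw [← ofFn_range]
  refine congrArg List.ofFn (funext fun p => ?_)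
  rw [← hp_ofFn]
  refine congrArg List.ofFn (funext fun q => ?_)
  show (Fin.addCases (fun p q => if hyF (nmat D) p.divNat q = p.modNat then 1 else 0)
    (fun p q => if hyF (nmat D) p.divNat q = p.modNat then -1 else 0) p :
      Fin (cols (nmat D)).length → ℚ) q = _
  induction p using Fin.addCases with
  | left p =>
    rw [Fin.addCases_left, Fin.val_castAdd, if_pos p.2]
    exact if_congr (hyF_iff _ p q) rfl rfl
  | right p =>
    have h1 : ¬ (3 * axN (nmat D) + (p : ℕ) < 3 * axN (nmat D)) := by omega
    rw [Fin.addCases_right, Fin.val_natAdd, if_neg h1, Nat.add_sub_cancel_left]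
    exact if_congr (hyF_iff _ p q) rfl rfl

private theorem hp_b {m n : ℕ} (D : QLP m n) :
    List.ofFn (matchD D).b = List.replicate (3 * axN (nmat D)) 1 ++
      List.replicate (3 * axN (nmat D)) (-1) := by
  rw [List.ofFn_add]
  congr 1
  · rw [← List.ofFn_const]
    refine congrArg List.ofFn (funext fun i => ?_)
    exact Fin.addCases_left (motive := fun _ => ℚ) (left := fun _ => (1 : ℚ))
      (right := fun _ : Fin (3 * axN (nmat D)) => (-1 : ℚ)) i
  · rw [← List.ofFn_const]
    refine congrArg List.ofFn (funext fun i => ?_)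
    exact Fin.addCases_right (motive := fun _ => ℚ)
      (left := fun _ : Fin (3 * axN (nmat D)) => (1 : ℚ)) (right := fun _ => (-1 : ℚ)) i

/-- the costs -/
private def hpC (X : Mat) (c : List ℚ) : List ℚ :=
  (cols X).map fun q =>
    ((List.range X.1).map (fun j => if q = vpos X j then c.getD j 0 else 0)).sum

private theorem hp_c {m n : ℕ} (D : QLP m n) :
    List.ofFn (matchD D).c = hpC (nmat D) (List.ofFn D.c) := by
  unfold hpC
  rw [← hp_ofFn]
  refine congrArg List.ofFn (funext fun q => ?_)
  show (∑ j : Fin n, if (colF (nmat D) q : ℕ) = vpos (nmat D) j then D.c j else 0) =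
    ((List.range n).map _).sum
  rw [← ofFn_range, List.sum_ofFn]
  refine Finset.sum_congr rfl fun j _ => ?_
  rw [List.getD_eq_getElem _ _ (by simp), List.getElem_ofFn]

/-- the vertex -/
private def hpV (X : Mat) (v : List ℚ) : List ℚ :=
  (cols X).map (arrQ X (fun k => v.getD k 0))

private theorem hp_v {m n : ℕ} (D : QLP m n) (v : Fin n → ℚ) :
    List.ofFn (matchV D v) = hpV (nmat D) (List.ofFn v) := by
  unfold hpV
  rw [← hp_ofFn]
  refine congrArg List.ofFn (funext fun q => ?_)
  show arrQ _ (fun k => if h : k < n then v ⟨k, h⟩ else 0) (colF (nmat D) q) = _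
  congr 1
  funext k
  by_cases h : k < n
  · rw [dif_pos h, List.getD_eq_getElem _ _ (by simpa using h), List.getElem_ofFn]
  · rw [dif_neg h, List.getD_eq_default _ _ (by simpa using h)]

/-- the data of the matching program -/
private def hpData (X : Mat) (c v : List ℚ) : ℕ × List (List ℚ) × List ℚ × List ℚ × List ℚ :=
  ((cols X).length, hpRows X, List.replicate (3 * axN X) 1 ++
    List.replicate (3 * axN X) (-1), hpC X c, hpV X v)

private theorem redM_data (I : {I : Input // OkA I}) : (redM I).data =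
    hpData (nmat I.1.lp) I.1.data.2.2.2.1 I.1.data.2.2.2.2 := by
  show ((cols (nmat I.1.lp)).length, (List.ofFn fun i => List.ofFn ((matchD I.1.lp).A i)),
    List.ofFn (matchD I.1.lp).b, List.ofFn (matchD I.1.lp).c,
    List.ofFn (matchV I.1.lp I.1.v)) = _
  rw [hp_rows, hp_b, hp_c, hp_v]
  rfl

section

variable {α : Type*} [TEnc α]

theorem polyF_cols {X : α → Mat} (hX : PolyF X) : PolyF (fun x => cols (X x)) := by
  have hN := polyF_axN hX
  have h1 : PolyF (fun x => (List.range (axN (X x) * (axN (X x) * axN (X x)))).filter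
      fun q => decide (Supp (X x) q)) :=
    (hN.natMul (hN.natMul hN)).range.filter (p := fun x q => decide (Supp (X x) q))
      (polyF_supp (hX.comp PolyF.fst') PolyF.snd')
  exact h1.congr fun x => (cols_def (X x)).symm

private theorem polyF_hpRows {X : α → Mat} (hX : PolyF X) : PolyF (fun x => hpRows (X x)) := by
  have hN := polyF_axN hX
  have hl : PolyF (fun x => 3 * axN (X x)) := (PolyF.const 3).natMul hN
  refine (hl.natAdd hl).range.map (h := fun x p => (cols (X x)).map fun q =>
    if p < 3 * axN (X x) then (if InSlice (axN (X x)) p q then (1 : ℚ) else 0)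
    else (if InSlice (axN (X x)) (p - 3 * axN (X x)) q then -1 else 0)) ?_
  have hX1 : PolyF (fun p : α × ℕ => X p.1) := hX.comp PolyF.fst'
  refine (polyF_cols hX1).map (h := fun (x : α × ℕ) q =>
    if x.2 < 3 * axN (X x.1) then (if InSlice (axN (X x.1)) x.2 q then (1 : ℚ) else 0)
      else (if InSlice (axN (X x.1)) (x.2 - 3 * axN (X x.1)) q then -1 else 0)) ?_
  have hN2 : PolyF (fun x : (α × ℕ) × ℕ => axN (X x.1.1)) :=
    hN.comp (PolyF.fst'.comp PolyF.fst')
  have hp2 : PolyF (fun x : (α × ℕ) × ℕ => x.1.2) := PolyF.snd'.comp PolyF.fst'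
  have hl2 : PolyF (fun x : (α × ℕ) × ℕ => 3 * axN (X x.1.1)) := (PolyF.const 3).natMul hN2
  exact PolyF.ite (hp2.natLt hl2) (polyF_ind (polyF_inSlice hN2 hp2 PolyF.snd'))
    (PolyF.ite (polyF_inSlice hN2 (hp2.natSub hl2) PolyF.snd') (PolyF.const (-1))
      (PolyF.const 0))

private theorem polyF_hpC {X : α → Mat} {c : α → List ℚ} (hX : PolyF X) (hc : PolyF c) :
    PolyF (fun x => hpC (X x) (c x)) := by
  refine (polyF_cols hX).map (h := fun x q =>
    ((List.range (X x).1).map (fun j => if q = vpos (X x) j then (c x).getD j 0 else 0)).sum) ?_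
  have hX1 : PolyF (fun p : α × ℕ => X p.1) := hX.comp PolyF.fst'
  have hX2 : PolyF (fun p : (α × ℕ) × ℕ => X p.1.1) := hX1.comp PolyF.fst'
  have hc2 : PolyF (fun p : (α × ℕ) × ℕ => c p.1.1) := hc.comp (PolyF.fst'.comp PolyF.fst')
  have hq2 : PolyF (fun p : (α × ℕ) × ℕ => p.1.2) := PolyF.snd'.comp PolyF.fst'
  refine polyF_ratSum (hX1.fst.range.map (h := fun (p : α × ℕ) j =>
    if p.2 = vpos (X p.1) j then (c p.1).getD j 0 else 0) ?_)
  exact PolyF.ite (hq2.natEq (polyF_vpos hX2 PolyF.snd')) (hc2.getDL PolyF.snd'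
    (PolyF.const 0)) (PolyF.const 0)

private theorem polyF_hpV {X : α → Mat} {v : α → List ℚ} (hX : PolyF X) (hv : PolyF v) :
    PolyF (fun x => hpV (X x) (v x)) := by
  refine (polyF_cols hX).map (h := fun x q => arrQ (X x) (fun k => (v x).getD k 0) q) ?_
  have hX1 : PolyF (fun p : α × ℕ => X p.1) := hX.comp PolyF.fst'
  have hv2 : PolyF (fun p : (α × ℕ) × ℕ => v p.1.1) := hv.comp (PolyF.fst'.comp PolyF.fst')
  have hw : PolyF (fun y : (α × ℕ) × ℕ => (v y.1.1).getD y.2 0) :=
    hv2.getDL PolyF.snd' (PolyF.const 0)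
  exact polyF_arrQ (X := fun x : α × ℕ => X x.1)
    (w := fun x : α × ℕ => fun k => (v x.1).getD k 0) (q := fun x : α × ℕ => x.2) hX1 hw
    PolyF.snd'

private theorem polyF_hpData {X : α → Mat} {c v : α → List ℚ} (hX : PolyF X) (hc : PolyF c)
    (hv : PolyF v) : PolyF (fun x => hpData (X x) (c x) (v x)) := by
  have hl : PolyF (fun x => 3 * axN (X x)) := (PolyF.const 3).natMul (polyF_axN hX)
  exact (polyF_cols hX).length.pair ((polyF_hpRows hX).pair (((PolyF.replicate hl
    (PolyF.const 1)).append (PolyF.replicate hl (PolyF.const (-1)))).pair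
      ((polyF_hpC hX hc).pair (polyF_hpV hX hv))))

end

private theorem polyF_redM : PolyF redM := by
  have h0 : PolyF (fun I : {I : Input // OkA I} => I.1) :=
    (PolyF.id (α := Input)).of_enc (fun x => x.1) (fun _ => rfl) fun _ => rfl
  have hd := polyF_data.comp h0
  have h1 : PolyF (fun I : {I : Input // OkA I} => (redM I).data) :=
    (polyF_hpData (polyF_nmat.comp h0) hd.snd.snd.snd.fst hd.snd.snd.snd.snd).congr
      fun I => (redM_data I).symm
  exact h1.of_enc (fun x => x) (fun _ => rfl) fun _ => rfl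

/-- the input is computed in polynomial time -/
theorem polyF_redY : PolyF redY := by
  have h1 : PolyF (fun I : {I : Input // IsTransport I} =>
      (⟨redI (redH I), okA_red I⟩ : {I : Input // OkA I})) :=
    polyF_redIH.of_enc (fun x => x) (fun _ => rfl) fun _ => rfl
  exact polyF_redM.comp h1

/-- the list form of the way back -/
def backLY (I : {I : Input // IsTransport I}) (w : List ℚ) : List ℚ :=
  (List.range I.1.n).map fun j =>
    2 ^ (kOf I.1 + 1) * (List.zipWith (fun (q : ℕ) (t : ℚ) =>
      if q = vpos (nmat (redI (redH I)).lp) j then t else 0)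
        (cols (nmat (redI (redH I)).lp)) w).sum

private theorem backM_list (J : Input) (w : Fin (cols (nmat J.lp)).length → ℚ) (j : Fin J.n) :
    backM J w j = (List.zipWith (fun (q : ℕ) (t : ℚ) =>
      if q = vpos (nmat J.lp) j then t else 0) (cols (nmat J.lp)) (List.ofFn w)).sum := by
  unfold backM
  rw [← List.sum_ofFn]
  congr 1
  apply List.ext_getElem
  · rw [List.length_ofFn, List.length_zipWith, List.length_ofFn, min_self]
  · intro i h1 h2
    rw [List.getElem_ofFn, List.getElem_zipWith, List.getElem_ofFn]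
    rfl

theorem ofFn_backY (I : {I : Input // IsTransport I}) (w : Fin (redY I).n → ℚ) :
    List.ofFn (backY I w) = backLY I (List.ofFn w) := by
  unfold backLY
  rw [← ofFn_range]
  refine congrArg List.ofFn (funext fun j => ?_)
  exact congrArg (fun t : ℚ => 2 ^ (kOf I.1 + 1) * t) (backM_list (redI (redH I)) w _)

theorem polyF_backLY : PolyF (fun x : {I : Input // IsTransport I} × List ℚ =>
    backLY x.1 x.2) := by
  have hI : PolyF (fun x : {I : Input // IsTransport I} × List ℚ => x.1.1) :=
    polyF_sub.comp PolyF.fst'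
  have hn : PolyF (fun x : {I : Input // IsTransport I} × List ℚ => x.1.1.n) :=
    (polyF_data.comp hI).fst
  refine hn.range.map (h := fun (x : {I : Input // IsTransport I} × List ℚ) j =>
    2 ^ (kOf x.1.1 + 1) * (List.zipWith (fun (q : ℕ) (t : ℚ) =>
      if q = vpos (nmat (redI (redH x.1)).lp) j then t else 0)
        (cols (nmat (redI (redH x.1)).lp)) x.2).sum) ?_
  have h1 : PolyF (fun p : ({I : Input // IsTransport I} × List ℚ) × ℕ => p.1.1) :=
    PolyF.fst'.comp PolyF.fst'
  have hX : PolyF (fun p : ({I : Input // IsTransport I} × List ℚ) × ℕ =>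
      nmat (redI (redH p.1.1)).lp) := polyF_nmat.comp (polyF_redIH.comp h1)
  have hw : PolyF (fun p : ({I : Input // IsTransport I} × List ℚ) × ℕ => p.1.2) :=
    PolyF.snd'.comp PolyF.fst'
  have hs : PolyF (fun p : ({I : Input // IsTransport I} × List ℚ) × ℕ =>
      (List.zipWith (fun (q : ℕ) (t : ℚ) =>
        if q = vpos (nmat (redI (redH p.1.1)).lp) p.2 then t else 0)
          (cols (nmat (redI (redH p.1.1)).lp)) p.1.2).sum) := by
    refine polyF_ratSum (PolyF.zipWith
      (h := fun (p : ({I : Input // IsTransport I} × List ℚ) × ℕ) (q : ℕ) (t : ℚ) =>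
        if q = vpos (nmat (redI (redH p.1.1)).lp) p.2 then t else 0)
      (polyF_cols hX) hw ?_)
    exact PolyF.ite (PolyF.snd'.fst.natEq (polyF_vpos (hX.comp PolyF.fst')
      (PolyF.snd'.comp PolyF.fst'))) PolyF.snd'.snd (PolyF.const 0)
  exact (polyF_ratTwoPow ((polyF_kOf.comp (polyF_sub.comp h1)).natAdd (PolyF.const 1))).ratMul hs

end Pool.Agent.Simplex.EB.Tab.Ax
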