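import Pool.Agent.Lib.MP_4d246d_lc.EB.HyDeg

/-!
# The reduction of transportation programs to matching programs
-/

namespace Pool.Agent.Simplex.EB.Tab.Ax

open Pool.Agent.Lib.PolyTime Pool.Agent.Simplex.QP

/-- the matching input -/
def redY (I : {I : Input // IsTransport I}) : Input := redM ⟨redI (redH I), okA_red I⟩

theorem redY_hyper (I : {I : Input // IsTransport I}) : IsHyper (redY I) :=
  redM_hyper _ (deg3_red I)

/-- the way back -/
def backY (I : {I : Input // IsTransport I}) (w : Fin (redY I).n → ℚ) (j : Fin I.1.n) : ℚ :=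
  2 ^ (kOf I.1 + 1) * backM (redI (redH I)) w ⟨j, lt_dim I j⟩

/-- the way back from the sparse form -/
private def hyBack (I : {I : Input // IsTransport I}) (w : Fin (redI (redH I)).n → ℚ)
    (j : Fin I.1.n) : ℚ := 2 ^ (kOf I.1 + 1) * w ⟨j, lt_dim I j⟩

private theorem hyBack_map (I : {I : Input // IsTransport I}) (x : Fin I.1.n → ℝ)
    (w : Fin (redI (redH I)).n → ℚ)
    (hw : toReal w = ((isoH I).trans (isoI (redH I))).map x) : toReal (hyBack I w) = x := by
  rw [PIso.trans_map, isoI_map] at hw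
  funext j
  have h2 := congrFun hw ⟨j, lt_dim I j⟩
  have h3 : (spIso (ofQ (redH I).lp)).φ ((isoH I).map x) ⟨j, lt_dim I j⟩ =
      x j / 2 ^ (kOf I.1 + 1) := by
    have hj : (j : ℕ) < (redH I).n := by
      show (j : ℕ) < I.1.n + 2
      omega
    have h4 := spIso_castLE (ofQ (redH I).lp) ((isoH I).map x) ⟨j, hj⟩
    exact h4.trans (isoH_lt I x j hj)
  have h5 : toReal (hyBack I w) j = 2 ^ (kOf I.1 + 1) * toReal w ⟨j, lt_dim I j⟩ := by
    show ((2 ^ (kOf I.1 + 1) * w ⟨j, lt_dim I j⟩ : ℚ) : ℝ) = _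
    push_cast
    rfl
  have h7 := h2.trans h3
  rw [h5, h7]
  have h6 : (2 : ℝ) ^ (kOf I.1 + 1) ≠ 0 := by positivity
  field_simp

/-- runs are carried back -/
theorem run_of_redY {I : {I : Input // IsTransport I}} {N : ℕ} {x : ℕ → Fin (redY I).n → ℚ}
    {s : Verdict} (h : SimplexRun (redY I) N x s) :
    SimplexRun I.1 N (fun t => backY I (x t)) s := by
  have h1 : SimplexRun (redI (redH I)) N (fun t => backM (redI (redH I)) (x t)) s :=
    run_of_piso (I' := redY I) (matchIso (okA_red I))
      (matchIso_map (okA_red I) (redI (redH I)).v).symm (backM_map (okA_red I)) h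
  have h2 : toReal (redI (redH I)).v = ((isoH I).trans (isoI (redH I))).map (toReal I.1.v) := by
    rw [PIso.trans_map, isoH_v, isoI_v]
  exact run_of_piso ((isoH I).trans (isoI (redH I))) h2 (back := hyBack I) (hyBack_map I) h1

end Pool.Agent.Simplex.EB.Tab.Ax
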