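import Pool.Agent.Lib.MP_4d246d_lc.EB.AxFace

/-!
# Deleting columns that are zero on a face
-/

namespace Pool.Agent.Simplex.EB

open Pool.Agent.Lib.PolyTime Pool.Agent.Simplex.QP

variable {m n m' n' k : ℕ}

/-- the program with the columns `σ j` only -/
noncomputable def restr (D : RLP m n) (σ : Fin k → Fin n) : RLP m k where
  A i j := D.A i (σ j)
  b := D.b
  c j := D.c (σ j)

/-- extension by zero -/
noncomputable def extz (σ : Fin k → Fin n) (y : Fin k → ℝ) (q : Fin n) : ℝ :=
  ∑ j, if σ j = q then y j else 0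

theorem extz_apply {σ : Fin k → Fin n} (hσ : Function.Injective σ) (y : Fin k → ℝ) (j : Fin k) :
    extz σ y (σ j) = y j := by
  unfold extz
  rw [Finset.sum_eq_single j]
  · rw [if_pos rfl]
  · intro i _ hi
    rw [if_neg fun h => hi (hσ h)]
  · intro h
    exact absurd (Finset.mem_univ _) h

theorem extz_of_not {σ : Fin k → Fin n} (y : Fin k → ℝ) {q : Fin n} (h : ∀ j, σ j ≠ q) :
    extz σ y q = 0 :=
  Finset.sum_eq_zero fun j _ => if_neg (h j)

theorem sum_extz (σ : Fin k → Fin n) (f : Fin n → ℝ) (y : Fin k → ℝ) :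
    ∑ q, f q * extz σ y q = ∑ j, f (σ j) * y j := by
  unfold extz
  simp only [Finset.mul_sum]
  rw [Finset.sum_comm]
  refine Finset.sum_congr rfl fun j _ => ?_
  simp only [mul_ite, mul_zero]
  rw [Finset.sum_ite_eq, if_pos (Finset.mem_univ _)]

theorem extz_comp {σ : Fin k → Fin n} (hσ : Function.Injective σ) {x : Fin n → ℝ}
    (hx : ∀ q, (∀ j, σ j ≠ q) → x q = 0) : extz σ (fun j => x (σ j)) = x := by
  funext q
  by_cases h : ∀ j, σ j ≠ q
  · rw [extz_of_not _ h, hx q h]
  · push Not at h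
    obtain ⟨j, rfl⟩ := h
    exact extz_apply hσ _ j

theorem mem_restr {D : RLP m n} {σ : Fin k → Fin n} (hσ : Function.Injective σ)
    {y : Fin k → ℝ} : y ∈ (restr D σ).feasible ↔ extz σ y ∈ D.feasible := by
  have h1 : ∀ i, ∑ q, (D.A i q : ℝ) * extz σ y q = ∑ j, ((restr D σ).A i j : ℝ) * y j :=
    fun i => sum_extz σ (fun q => (D.A i q : ℝ)) y
  constructor
  · rintro ⟨h2, h3⟩
    refine ⟨fun i => ?_, fun q => ?_⟩
    · rw [h1]
      exact h2 i
    · exact Finset.sum_nonneg fun j _ => by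
        split_ifs
        · exact h3 j
        · exact le_rfl
  · rintro ⟨h2, h3⟩
    refine ⟨fun i => ?_, fun j => ?_⟩
    · rw [← h1]
      exact h2 i
    · have h4 := h3 (σ j)
      rwa [extz_apply hσ] at h4

/-- **A face on which some coordinates are zero is the polyhedron without these columns.** -/
noncomputable def PIso.ofFIso {D : RLP m n} {D' : RLP m' n'} (e : FIso D D')
    (σ : Fin k → Fin n') (hσ : Function.Injective σ)
    (hF : e.F = {x | x ∈ D'.feasible ∧ ∀ q, (∀ j, σ j ≠ q) → x q = 0})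
    (h0 : ∀ x q, (∀ j, σ j ≠ q) → e.map x q = 0) : PIso D (restr D' σ) where
  L := LinearMap.funLeft ℝ ℝ σ ∘ₗ e.L
  a := fun j => e.a (σ j)
  inj := by
    intro x y h
    have h1 : ∀ j, e.map x (σ j) = e.map y (σ j) := by
      intro j
      have h2 : e.L x (σ j) = e.L y (σ j) := congrFun h j
      show e.L x (σ j) + e.a (σ j) = e.L y (σ j) + e.a (σ j)
      rw [h2]
    refine e.map_inj (funext fun q => ?_)
    by_cases hq : ∀ j, σ j ≠ q
    · rw [h0 x q hq, h0 y q hq]
    · push Not at hq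
      obtain ⟨j, rfl⟩ := hq
      exact h1 j
  feas := by
    ext y
    constructor
    · intro hy
      have h1 : extz σ y ∈ e.F := by
        rw [hF]
        exact ⟨(mem_restr hσ).1 hy, fun q hq => extz_of_not y hq⟩
      rw [e.feas'] at h1
      obtain ⟨x, hx, hxy⟩ := h1
      refine ⟨x, hx, funext fun j => ?_⟩
      have h2 := congrFun hxy (σ j)
      rw [extz_apply hσ] at h2
      exact h2
    · rintro ⟨x, hx, rfl⟩
      have h1 := e.mem_F.2 hx
      rw [hF] at h1
      rw [mem_restr hσ]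
      have h2 := extz_comp hσ h1.2
      have h3 : (fun x => (LinearMap.funLeft ℝ ℝ σ ∘ₗ e.L) x + fun j => e.a (σ j)) x =
          fun j => e.map x (σ j) := rfl
      rw [h3, h2]
      exact h1.1
  κ := e.κ
  pos := e.pos
  β := e.β
  obj x := by
    rw [← e.obj x]
    have h1 : (LinearMap.funLeft ℝ ℝ σ ∘ₗ e.L) x + (fun j => e.a (σ j)) =
        fun j => e.map x (σ j) := rfl
    rw [h1]
    have h2 : D'.obj (e.L x + e.a) = D'.obj (extz σ fun j => e.map x (σ j)) := by
      rw [extz_comp hσ (h0 x)]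
      rfl
    rw [h2]
    exact (sum_extz σ D'.c _).symm

theorem PIso.ofFIso_map {D : RLP m n} {D' : RLP m' n'} (e : FIso D D')
    (σ : Fin k → Fin n') (hσ : Function.Injective σ)
    (hF : e.F = {x | x ∈ D'.feasible ∧ ∀ q, (∀ j, σ j ≠ q) → x q = 0})
    (h0 : ∀ x q, (∀ j, σ j ≠ q) → e.map x q = 0) (x : Fin n → ℝ) (j : Fin k) :
    (PIso.ofFIso e σ hσ hF h0).map x j = e.map x (σ j) := rfl

end Pool.Agent.Simplex.EB
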