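import Pool.Agent.Lib.MP_4d246d_lc.EB.Alg
import Pool.Agent.Lib.MP_4d246d_lc.QP.Solver

/-!
# Implicit equalities

The constraints of a homogeneous system (strict and weak ones) which vanish on all its real
solutions are found by linear programming, in polynomial time.
-/

set_option autoImplicit false

namespace Pool.Agent.Lib.MP_4d246d_lc.EB

open Pool.Agent.Simplex.QP Pool.Agent.Lib.PolyTime

/-- value of a list at a real vector, in the two notations -/
theorem rdot_eq_ldot {n : ℕ} {a : List ℤ} (ha : a.length ≤ n) (w : ℕ → ℝ) :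
    rdot n a (fun j => w j) = ldot a w := by
  rw [ldot_eq_fin a w n ha]
  rfl

theorem rdot_negZ (n : ℕ) (a : List ℤ) (x : Fin n → ℝ) : rdot n (negZ a) x = -rdot n a x := by
  unfold rdot
  rw [← Finset.sum_neg_distrib]
  refine Finset.sum_congr rfl fun j _ => ?_
  rw [getD_negZ]
  push_cast
  ring

theorem rdot_smul (n : ℕ) (a : List ℤ) (t : ℝ) (x : Fin n → ℝ) :
    rdot n a (fun j => t * x j) = t * rdot n a x := by
  unfold rdot
  rw [Finset.mul_sum]
  exact Finset.sum_congr rfl fun j _ => by ring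

theorem rdot_intVec (n : ℕ) (a : List ℤ) {x : List ℤ} (hx : x.length = n) (d : ℝ) :
    rdot n a (fun j => ((x.getD j 0 : ℤ) : ℝ) / d) = ((dotZ (padZ n a) x : ℤ) : ℝ) / d := by
  rw [dotZ_eq_fin _ _ n (Or.inr hx.le)]
  unfold rdot
  push_cast
  rw [Finset.sum_div]
  refine Finset.sum_congr rfl fun j _ => ?_
  rw [getD_padZ, if_pos j.2]
  ring

/-- The test for implicit equalities. -/
theorem isImpl_iff_rdot {n : ℕ} {H : List (List ℤ)} {h : List ℤ} (hh : h ∈ H) :
    isImpl n H h = true ↔ ∀ x : Fin n → ℝ, (∀ g ∈ H, 0 ≤ rdot n g x) → rdot n h x = 0 := by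
  have hsat : ∀ x : Fin n → ℝ, Sat n [] ((h, 1) :: H.map fun g => (negZ g, 0)) x ↔
      rdot n h x ≤ 1 ∧ ∀ g ∈ H, 0 ≤ rdot n g x := by
    intro x
    unfold Sat
    constructor
    · rintro ⟨-, h2⟩
      refine ⟨by simpa using h2 _ List.mem_cons_self, fun g hg => ?_⟩
      have h3 := h2 (negZ g, 0) (List.mem_cons_of_mem _ (List.mem_map.2 ⟨g, hg, rfl⟩))
      simp only [rdot_negZ, Int.cast_zero] at h3
      linarith
    · rintro ⟨h1, h2⟩
      refine ⟨fun r hr => absurd hr List.not_mem_nil, fun r hr => ?_⟩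
      rcases List.mem_cons.1 hr with rfl | hr
      · simpa using h1
      · obtain ⟨g, hg, rfl⟩ := List.mem_map.1 hr
        simp only [rdot_negZ, Int.cast_zero]
        linarith [h2 g hg]
  have hspec := lpsolve_spec n [] ((h, 1) :: H.map fun g => (negZ g, 0)) h
  unfold isImpl
  cases hres : lpsolve n [] ((h, 1) :: H.map fun g => (negZ g, 0)) h with
  | infeas =>
    rw [hres] at hspec
    exfalso
    refine hspec ⟨fun _ => 0, (hsat _).2 ⟨?_, fun g _ => ?_⟩⟩
    · simp [rdot]
    · simp [rdot]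
  | unb =>
    rw [hres] at hspec
    exfalso
    obtain ⟨x, hx, hx1⟩ := hspec.2 1
    have := ((hsat x).1 hx).1
    linarith
  | opt x d =>
    rw [hres] at hspec
    obtain ⟨hd, hxl, hsx, hmax⟩ := hspec
    have hd' : (0 : ℝ) < (d : ℝ) := by exact_mod_cast hd
    have hval := rdot_intVec n h hxl (d : ℝ)
    simp only [decide_eq_true_iff]
    constructor
    · intro h1 y hy
      have h2 : 0 ≤ rdot n h y := hy h hh
      by_contra hne
      have h3 : 0 < rdot n h y := lt_of_le_of_ne h2 (Ne.symm hne)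
      have h4 := hmax (fun j => (rdot n h y)⁻¹ * y j) ((hsat _).2 ⟨?_, fun g hg => ?_⟩)
      · rw [hval, rdot_smul, inv_mul_cancel₀ hne] at h4
        have h5 : ((dotZ (padZ n h) x : ℤ) : ℝ) ≤ 0 := by exact_mod_cast h1
        have h6 := div_nonpos_of_nonpos_of_nonneg h5 hd'.le
        linarith
      · rw [rdot_smul, inv_mul_cancel₀ hne]
      · rw [rdot_smul]
        exact mul_nonneg (inv_nonneg.2 h2) (hy g hg)
    · intro h1
      have h2 := h1 _ ((hsat _).1 hsx).2
      rw [hval] at h2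
      have h3 : ((dotZ (padZ n h) x : ℤ) : ℝ) = 0 := by
        rcases div_eq_zero_iff.1 h2 with h4 | h4
        · exact h4
        · exact absurd h4 hd'.ne'
      exact_mod_cast h3.le

theorem isImpl_iff {n : ℕ} {H : List (List ℤ)} (hlen : ∀ g ∈ H, g.length = n) {h : List ℤ}
    (hh : h ∈ H) : isImpl n H h = true ↔
      ∀ w : ℕ → ℝ, (∀ g ∈ H, 0 ≤ ldot g w) → ldot h w = 0 := by
  rw [isImpl_iff_rdot hh]
  constructor
  · intro h1 w hw
    have h2 := h1 (fun j => w j) fun g hg => by
      rw [rdot_eq_ldot (hlen g hg).le]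
      exact hw g hg
    rwa [rdot_eq_ldot (hlen h hh).le] at h2
  · intro h1 x hx
    set w : ℕ → ℝ := ext0 n x with hw
    have hwx : ∀ g : List ℤ, g.length = n → ldot g w = rdot n g x := by
      intro g hg
      rw [← rdot_eq_ldot hg.le w]
      congr 1
      funext j
      exact ext0_fin x j
    rw [← hwx h (hlen h hh)]
    exact h1 w fun g hg => by rw [hwx g (hlen g hg)]; exact hx g hg

/-- `w` satisfies the constraints `H`: `(true, a)` means `a • w > 0`, `(false, a)` means
`a • w ≥ 0`. -/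
def Sol (H : List (Bool × List ℤ)) (w : ℕ → ℝ) : Prop :=
  ∀ h ∈ H, (h.1 = true → 0 < ldot h.2 w) ∧ (h.1 = false → 0 ≤ ldot h.2 w)

/-- weak constraint which vanishes on all solutions -/
def isE (n : ℕ) (H : List (Bool × List ℤ)) (h : Bool × List ℤ) : Bool :=
  !h.1 && isImpl n (H.map fun g => g.2) h.2

theorem Sol.nonneg {H : List (Bool × List ℤ)} {w : ℕ → ℝ} (hw : Sol H w) :
    ∀ g ∈ H, 0 ≤ ldot g.2 w := by
  intro g hg
  cases hb : g.1 with
  | true => exact ((hw g hg).1 hb).le
  | false => exact (hw g hg).2 hb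

/-- For a solvable system the test finds exactly the constraints vanishing on all solutions. -/
theorem isE_iff {n : ℕ} {H : List (Bool × List ℤ)} (hlen : ∀ g ∈ H, g.2.length = n)
    {w₀ : ℕ → ℝ} (hw₀ : Sol H w₀) {h : Bool × List ℤ} (hh : h ∈ H) :
    isE n H h = true ↔ h.1 = false ∧ ∀ w : ℕ → ℝ, Sol H w → ldot h.2 w = 0 := by
  have h1 : h.2 ∈ H.map fun g => g.2 := List.mem_map.2 ⟨h, hh, rfl⟩
  have h2 : ∀ g ∈ H.map fun g => g.2, g.length = n := by
    intro g hg
    obtain ⟨g', hg', rfl⟩ := List.mem_map.1 hg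
    exact hlen g' hg'
  unfold isE
  rw [Bool.and_eq_true, isImpl_iff h2 h1, Bool.not_eq_true']
  refine and_congr_right fun _ => ⟨fun h3 w hw => h3 w ?_, fun h3 w hw => ?_⟩
  · intro g hg
    obtain ⟨g', hg', rfl⟩ := List.mem_map.1 hg
    exact hw.nonneg g' hg'
  · have h4 : Sol H (fun j => w₀ j + w j) := by
      intro g hg
      have h5 : 0 ≤ ldot g.2 w := hw _ (List.mem_map.2 ⟨g, hg, rfl⟩)
      rw [ldot_add]
      exact ⟨fun hb => by linarith [(hw₀ g hg).1 hb], fun hb => by linarith [(hw₀ g hg).2 hb]⟩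
    have h5 := h3 _ h4
    rw [ldot_add, h3 w₀ hw₀] at h5
    linarith

/-- A constraint which is not found is positive on some solution. -/
theorem exists_pos_of_not_isE {n : ℕ} {H : List (Bool × List ℤ)}
    (hlen : ∀ g ∈ H, g.2.length = n) {w₀ : ℕ → ℝ} (hw₀ : Sol H w₀) {h : Bool × List ℤ}
    (hh : h ∈ H) (hE : isE n H h = false) : ∃ w : ℕ → ℝ, Sol H w ∧ 0 < ldot h.2 w := by
  by_contra hno
  push Not at hno
  have h1 : ∀ w, Sol H w → ldot h.2 w = 0 := fun w hw => le_antisymm (hno w hw) (hw.nonneg h hh)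
  have h2 : h.1 = false := by
    cases hb : h.1 with
    | false => rfl
    | true =>
      have := (hw₀ h hh).1 hb
      linarith [hno w₀ hw₀]
  have h3 := (isE_iff hlen hw₀ hh).2 ⟨h2, h1⟩
  rw [hE] at h3
  exact Bool.false_ne_true h3

/-- All constraints which are not found are positive on one common solution. -/
theorem exists_interior {n : ℕ} {H : List (Bool × List ℤ)}
    (hlen : ∀ g ∈ H, g.2.length = n) {w₀ : ℕ → ℝ} (hw₀ : Sol H w₀) :
    ∃ w : ℕ → ℝ, Sol H w ∧ ∀ h ∈ H, isE n H h = false → 0 < ldot h.2 w := by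
  have key : ∀ L : List (Bool × List ℤ), (∀ h ∈ L, h ∈ H) →
      ∃ w : ℕ → ℝ, Sol H w ∧ ∀ h ∈ L, isE n H h = false → 0 < ldot h.2 w := by
    intro L
    induction L with
    | nil => exact fun _ => ⟨w₀, hw₀, fun h hh => absurd hh List.not_mem_nil⟩
    | cons a L ih =>
      intro hL
      obtain ⟨w, hw, hwL⟩ := ih fun h hh => hL h (List.mem_cons_of_mem _ hh)
      cases ha : isE n H a with
      | true =>
        refine ⟨w, hw, fun h hh hE => ?_⟩
        rcases List.mem_cons.1 hh with rfl | hh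
        · rw [ha] at hE
          exact absurd hE (by simp)
        · exact hwL h hh hE
      | false =>
        obtain ⟨v, hv, hva⟩ := exists_pos_of_not_isE hlen hw₀ (hL a List.mem_cons_self) ha
        refine ⟨fun j => w j + v j, fun g hg => ?_, fun h hh hE => ?_⟩
        · rw [ldot_add]
          exact ⟨fun hb => add_pos ((hw g hg).1 hb) ((hv g hg).1 hb),
            fun hb => add_nonneg ((hw g hg).2 hb) ((hv g hg).2 hb)⟩
        · rw [ldot_add]
          rcases List.mem_cons.1 hh with rfl | hh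
          · exact add_pos_of_nonneg_of_pos (hw.nonneg h (hL h List.mem_cons_self)) hva
          · exact add_pos_of_pos_of_nonneg (hwL h hh hE)
              (hv.nonneg h (hL h (List.mem_cons_of_mem _ hh)))
  exact key H fun _ h => h

/-! ### The running time -/

section

variable {α : Type*} [TEnc α]

theorem polyF_isE {n : α → ℕ} {H : α → List (Bool × List ℤ)} {h : α → Bool × List ℤ}
    (hn : PolyF n) (hH : PolyF H) (hh : PolyF h) : PolyF (fun x => isE (n x) (H x) (h x)) :=
  hh.fst.not.and (polyF_isImpl hn (hH.map (h := fun _ g => g.2) PolyF.snd'.snd) hh.snd)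

/-- the weak constraints which vanish on all solutions -/
def eqs (n : ℕ) (H : List (Bool × List ℤ)) : List (List ℤ) :=
  (H.filter fun h => isE n H h).map fun h => padZ n h.2

/-- the other constraints -/
def rest (n : ℕ) (H : List (Bool × List ℤ)) : List (List ℤ) :=
  (H.filter fun h => !isE n H h).map fun h => padZ n h.2

theorem polyF_eqs {n : α → ℕ} {H : α → List (Bool × List ℤ)} (hn : PolyF n) (hH : PolyF H) :
    PolyF (fun x => eqs (n x) (H x)) :=
  (hH.filter (p := fun x h => isE (n x) (H x) h) (polyF_isE (hn.comp PolyF.fst')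
    (hH.comp PolyF.fst') PolyF.snd')).map (h := fun x (h : Bool × List ℤ) => padZ (n x) h.2)
    (PolyF.padZ (hn.comp PolyF.fst') PolyF.snd'.snd)

theorem polyF_rest {n : α → ℕ} {H : α → List (Bool × List ℤ)} (hn : PolyF n) (hH : PolyF H) :
    PolyF (fun x => rest (n x) (H x)) :=
  (hH.filter (p := fun x h => !isE (n x) (H x) h) (polyF_isE (hn.comp PolyF.fst')
    (hH.comp PolyF.fst') PolyF.snd').not).map (h := fun x (h : Bool × List ℤ) => padZ (n x) h.2)
    (PolyF.padZ (hn.comp PolyF.fst') PolyF.snd'.snd)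

/-- multiple of the projector onto the common kernel of `eqs` -/
def projE (n : ℕ) (H : List (Bool × List ℤ)) : List (List ℤ) := (projZ n (eqs n H)).2

theorem polyF_projE {n : α → ℕ} {H : α → List (Bool × List ℤ)} (hn : PolyF n) (hH : PolyF H) :
    PolyF (fun x => projE (n x) (H x)) := by
  refine (PolyF.projZ projBound hn (polyF_eqs hn hH) ?_).snd
  intro x r hr
  obtain ⟨s, _, rfl⟩ := List.mem_map.1 hr
  simp [padZ]

/-- the other constraints, projected -/
def restP (n : ℕ) (H : List (Bool × List ℤ)) : List (List ℤ) :=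
  (rest n H).map fun g => mulVecZ (projE n H) g

theorem polyF_restP {n : α → ℕ} {H : α → List (Bool × List ℤ)} (hn : PolyF n) (hH : PolyF H) :
    PolyF (fun x => restP (n x) (H x)) :=
  (polyF_rest hn hH).map (h := fun x g => mulVecZ (projE (n x) (H x)) g)
    (PolyF.mulVecZ ((polyF_projE hn hH).comp PolyF.fst') PolyF.snd')

/-- exponent bounding the entries of the projected constraints -/
def parL (n l : ℕ) : ℕ := n + (pexp n l + l)

theorem polyF_parL {n l : α → ℕ} (hn : PolyF n) (hl : PolyF l) :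
    PolyF (fun x => parL (n x) (l x)) := by
  refine hn.natAdd (PolyF.natAdd ?_ hl)
  exact ((hn.natMul hn).natAdd (hn.natMul ((hn.natAdd ((PolyF.const 2).natMul hl)).succ))).succ

/-- the learner for systems with ties, from a learner for strictly solvable systems -/
def centre (core : ℕ → ℕ → List (List ℤ) → List ℤ) (n l : ℕ) (H : List (Bool × List ℤ)) :
    List ℤ :=
  mulVecZ (projE n H) (core n (parL n l) (restP n H))

theorem polyF_centre {core : ℕ → ℕ → List (List ℤ) → List ℤ}
    (hcore : PolyF (fun p : ℕ × ℕ × List (List ℤ) => core p.1 p.2.1 p.2.2)) {n l : α → ℕ}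
    {H : α → List (Bool × List ℤ)} (hn : PolyF n) (hl : PolyF l) (hH : PolyF H) :
    PolyF (fun x => centre core (n x) (l x) (H x)) :=
  PolyF.mulVecZ (polyF_projE hn hH)
    (hcore.comp (hn.pair ((polyF_parL hn hl).pair (polyF_restP hn hH))))

end

/-! ### Lengths and sizes -/

theorem length_of_mem_eqs {n : ℕ} {H : List (Bool × List ℤ)} {r : List ℤ} (hr : r ∈ eqs n H) :
    r.length = n := by
  obtain ⟨s, _, rfl⟩ := List.mem_map.1 hr
  simp [padZ]

theorem length_of_mem_rest {n : ℕ} {H : List (Bool × List ℤ)} {r : List ℤ} (hr : r ∈ rest n H) :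
    r.length = n := by
  obtain ⟨s, _, rfl⟩ := List.mem_map.1 hr
  simp [padZ]

theorem length_projE (n : ℕ) (H : List (Bool × List ℤ)) : (projE n H).length = n :=
  (projZ_spec n (eqs n H) fun _ => length_of_mem_eqs).2.1

theorem length_of_mem_restP {n : ℕ} {H : List (Bool × List ℤ)} {r : List ℤ}
    (hr : r ∈ restP n H) : r.length = n := by
  obtain ⟨g, _, rfl⟩ := List.mem_map.1 hr
  rw [length_mulVecZ, length_projE]

theorem length_centre (core : ℕ → ℕ → List (List ℤ) → List ℤ) (n l : ℕ)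
    (H : List (Bool × List ℤ)) : (centre core n l H).length = n := by
  unfold centre
  rw [length_mulVecZ, length_projE]

theorem abs_padZ_lt {n l : ℕ} {v : List ℤ} (hv : ∀ a ∈ v, |a| < 2 ^ l) :
    ∀ a ∈ padZ n v, |a| < 2 ^ l := by
  intro a ha
  unfold padZ at ha
  obtain ⟨j, _, rfl⟩ := List.mem_map.1 ha
  by_cases hj : j < v.length
  · exact hv _ (getD_mem hj)
  · rw [getD_eq_zero (by omega)]
    simp

theorem abs_projE_lt {n l : ℕ} {H : List (Bool × List ℤ)}
    (hs : ∀ h ∈ H, ∀ a ∈ h.2, |a| < 2 ^ l) : ∀ r ∈ projE n H, ∀ a ∈ r, |a| < 2 ^ pexp n l := by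
  have h1 := projZ_lt projBound (N := n) (s := l) (rows := eqs n H)
    (fun _ hr => length_of_mem_eqs hr) (fun r hr a ha => ?_)
  · exact h1.2.2.2.2
  · obtain ⟨h, hh, rfl⟩ := List.mem_map.1 hr
    exact (abs_padZ_lt (hs h (List.mem_of_mem_filter hh)) a ha).le

/-- The entries of the projected constraints. -/
theorem abs_restP_lt {n l : ℕ} {H : List (Bool × List ℤ)}
    (hs : ∀ h ∈ H, ∀ a ∈ h.2, |a| < 2 ^ l) : ∀ r ∈ restP n H, ∀ a ∈ r, |a| < 2 ^ parL n l := by
  intro r hr a ha
  obtain ⟨g, hg, rfl⟩ := List.mem_map.1 hr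
  obtain ⟨h, hh, rfl⟩ := List.mem_map.1 hg
  obtain ⟨p, hp, rfl⟩ := List.mem_map.1 ha
  have h1 : ∀ b ∈ padZ n h.2, |b| ≤ 2 ^ l := fun b hb =>
    (abs_padZ_lt (hs h (List.mem_of_mem_filter hh)) b hb).le
  have hpl : p.length = n := (projZ_spec n (eqs n H) fun _ => length_of_mem_eqs).2.2.1 p hp
  have h2 : ∀ b ∈ p, |b| ≤ 2 ^ pexp n l := fun b hb => (abs_projE_lt hs p hp b hb).le
  have h3 := abs_dotZ_le (by positivity) (by positivity) h2 h1
  rw [hpl] at h3
  refine h3.trans_lt ?_
  unfold parL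
  rw [pow_add, pow_add]
  have h4 : (n : ℤ) < 2 ^ n := by exact_mod_cast Nat.lt_two_pow_self
  have h5 : (0 : ℤ) < 2 ^ pexp n l * 2 ^ l := by positivity
  exact mul_lt_mul_of_pos_right h4 h5

end Pool.Agent.Lib.MP_4d246d_lc.EB
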