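import Pool.Agent.Lib.MP_4d246d_lc.EB.Plus

/-!
# Programs that are linearly isomorphic
-/

namespace Pool.Agent.Simplex.EB

open Pool.Agent.Lib.PolyTime Pool.Agent.Simplex.QP

theorem mem_openSegment_image {E F : Type*} [AddCommGroup E] [Module ℝ E] [AddCommGroup F]
    [Module ℝ F] (φ : E →ₗ[ℝ] F) (hφ : Function.Injective φ) {x y z : E} :
    φ z ∈ openSegment ℝ (φ x) (φ y) ↔ z ∈ openSegment ℝ x y := by
  have h1 : φ '' openSegment ℝ x y = openSegment ℝ (φ x) (φ y) :=
    image_openSegment ℝ φ.toAffineMap x y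
  rw [← h1, hφ.mem_set_image]

/-- an injective linear map takes extreme subsets to extreme subsets -/
theorem extreme_image {E F : Type*} [AddCommGroup E] [Module ℝ E] [AddCommGroup F] [Module ℝ F]
    (φ : E →ₗ[ℝ] F) (hφ : Function.Injective φ) (A B : Set E) :
    IsExtreme ℝ (φ '' A) (φ '' B) ↔ IsExtreme ℝ A B := by
  constructor
  · rintro ⟨h1, h2⟩
    refine ⟨fun b hb => ?_, fun x hx y hy z hz hzxy => ?_⟩
    · have := h1 (Set.mem_image_of_mem φ hb)
      rwa [hφ.mem_set_image] at this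
    · have := h2 (Set.mem_image_of_mem φ hx) (Set.mem_image_of_mem φ hy)
        (Set.mem_image_of_mem φ hz) ((mem_openSegment_image φ hφ).2 hzxy)
      rwa [hφ.mem_set_image] at this
  · rintro ⟨h1, h2⟩
    refine ⟨Set.image_mono h1, ?_⟩
    rintro _ ⟨x, hx, rfl⟩ _ ⟨y, hy, rfl⟩ _ ⟨z, hz, rfl⟩ hzxy
    exact Set.mem_image_of_mem φ (h2 hx hy hz ((mem_openSegment_image φ hφ).1 hzxy))

/-- `φ` maps the polyhedron of `D` bijectively onto that of `D'`, objective to objective -/
structure Iso {m n m' n' : ℕ} (D : RLP m n) (D' : RLP m' n') where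
  /-- the linear map -/
  φ : (Fin n → ℝ) →ₗ[ℝ] (Fin n' → ℝ)
  inj : Function.Injective φ
  feas : D'.feasible = φ '' D.feasible
  obj : ∀ x, D'.obj (φ x) = D.obj x

namespace Iso

variable {m n m' n' : ℕ} {D : RLP m n} {D' : RLP m' n'} (e : Iso D D')

theorem vertex {x : Fin n → ℝ} : D'.Vertex (e.φ x) ↔ D.Vertex x := by
  unfold RLP.Vertex
  rw [← isExtreme_singleton, ← isExtreme_singleton, e.feas, ← Set.image_singleton]
  exact extreme_image e.φ e.inj _ _

theorem of_vertex {y : Fin n' → ℝ} (hy : D'.Vertex y) : ∃ x, D.Vertex x ∧ e.φ x = y := by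
  have h1 : y ∈ e.φ '' D.feasible := by
    rw [← e.feas]
    exact hy.1
  obtain ⟨x, -, rfl⟩ := h1
  exact ⟨x, e.vertex.1 hy, rfl⟩

theorem edge {x y : Fin n → ℝ} : D'.Edge (e.φ x) (e.φ y) ↔ D.Edge x y := by
  unfold RLP.Edge
  have h1 : e.φ '' segment ℝ x y = segment ℝ (e.φ x) (e.φ y) :=
    image_segment ℝ e.φ.toAffineMap x y
  rw [e.vertex, e.vertex, e.inj.ne_iff, e.feas, ← h1, extreme_image e.φ e.inj]

theorem improving {x y : Fin n → ℝ} : D'.Improving (e.φ x) (e.φ y) ↔ D.Improving x y := by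
  unfold RLP.Improving
  rw [e.edge, e.obj, e.obj]

theorem optimal {x : Fin n → ℝ} : D'.Optimal (e.φ x) ↔ D.Optimal x := by
  unfold RLP.Optimal
  rw [e.feas, e.inj.mem_set_image]
  refine and_congr Iff.rfl ?_
  constructor
  · intro h y hy
    have := h (e.φ y) (Set.mem_image_of_mem _ hy)
    rwa [e.obj, e.obj] at this
  · rintro h _ ⟨y, hy, rfl⟩
    rw [e.obj, e.obj]
    exact h y hy

theorem ray {x z : Fin n → ℝ} : D'.Ray (e.φ x) (e.φ z) ↔ D.Ray x z := by
  unfold RLP.Ray
  have h1 : {w | ∃ s : ℝ, 0 ≤ s ∧ w = e.φ x + s • e.φ z} =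
      e.φ '' {w | ∃ s : ℝ, 0 ≤ s ∧ w = x + s • z} := by
    ext w
    constructor
    · rintro ⟨s, hs, rfl⟩
      exact ⟨x + s • z, ⟨s, hs, rfl⟩, by rw [map_add, map_smul]⟩
    · rintro ⟨_, ⟨s, hs, rfl⟩, rfl⟩
      exact ⟨s, hs, by rw [map_add, map_smul]⟩
  rw [e.vertex, h1, e.feas, extreme_image e.φ e.inj]

theorem of_ray {x : Fin n → ℝ} {z' : Fin n' → ℝ} (h : D'.Ray (e.φ x) z') :
    ∃ z, e.φ z = z' ∧ D.Ray x z := by
  have h1 : e.φ x + z' ∈ D'.feasible := h.2.1 ⟨1, zero_le_one, by rw [one_smul]⟩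
  rw [e.feas] at h1
  obtain ⟨w, -, hw⟩ := h1
  have h2 : e.φ (w - x) = z' := by
    rw [map_sub, hw, add_sub_cancel_left]
  refine ⟨w - x, h2, ?_⟩
  rw [← h2] at h
  exact e.ray.1 h

end Iso

/-- rename the vertices in an answer -/
def mapA (f : List Bool → List Bool) : Answer → Answer
  | .moved S => .moved (f S)
  | .refused S => .refused (f S)

/-- the rule for the programs with matrix `X` from a rule for the programs with matrix `F X` -/
def isoRule (F : Mat → Mat) (f g : Mat → List Bool → List Bool) (ρ : BlindRule) : BlindRule :=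
  fun x =>
  match ρ (F x.1, f x.1 x.2.1, x.2.2.map (mapA (f x.1))) with
  | some T => if T = f x.1 (g x.1 T) then some (g x.1 T) else none
  | none => none

/-- names correspond -/
structure Names {m n m' n' : ℕ} {D : RLP m n} {D' : RLP m' n'} (e : Iso D D')
    (f g : List Bool → List Bool) : Prop where
  name : ∀ x, D.Vertex x → D'.name (e.φ x) = f (D.name x)
  edge : ∀ x z, D.Vertex x → D.sys.Dir (m + n) x z →
    D'.edgeName (e.φ x) (e.φ z) = f (D.edgeName x z)
  gf : ∀ S : List Bool, S.length = m + n → g (f S) = S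

theorem play_iso {F : Mat → Mat} {f g : Mat → List Bool → List Bool} {ρ : BlindRule}
    {m n m' n' : ℕ} {D : RLP m n} {D' : RLP m' n'} (e : Iso D D') (hF : D'.mat = F D.mat)
    (hn : Names e (f D.mat) (g D.mat)) {x₀ : Fin n → ℝ} (hx₀ : D.Vertex x₀) {h : List Answer}
    {x : Fin n → ℝ} (hp : Play (isoRule F f g ρ) D x₀ h x) :
    Play ρ D' (e.φ x₀) (h.map (mapA (f D.mat))) (e.φ x) := by
  have hrule : ∀ h : List Answer, isoRule F f g ρ (D.mat, D.name x₀, h) =
      match ρ (D'.mat, D'.name (e.φ x₀), h.map (mapA (f D.mat))) with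
      | some T => if T = f D.mat (g D.mat T) then some (g D.mat T) else none
      | none => none := by
    intro h
    unfold isoRule
    dsimp only
    rw [hF, hn.name x₀ hx₀]
  have hlow : ∀ x z, g D.mat (f D.mat (D.edgeName x z)) = D.edgeName x z := fun x z =>
    hn.gf _ (D.length_edgeName x z)
  induction hp with
  | start => exact Play.start
  | @moved h x y hp hxy hr ih =>
    have hx := hxy.1.1
    rw [List.map_append, List.map_singleton]
    show Play ρ D' (e.φ x₀) (h.map (mapA (f D.mat)) ++ [.moved (f D.mat (D.name y))]) (e.φ y)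
    rw [← hn.name y hxy.1.2.1]
    refine Play.moved ih (e.improving.2 hxy) ?_
    have hE := hn.edge x (y - x) hx (D.improving_iff.1 hxy).2.2.1
    rw [map_sub] at hE
    rw [hrule] at hr
    revert hr
    cases ρ (D'.mat, D'.name (e.φ x₀), h.map (mapA (f D.mat))) with
    | none => intro hr; simp at hr
    | some T =>
      intro hr
      dsimp only at hr
      split_ifs at hr with h1
      rw [Option.some.inj hr] at h1
      rw [hE, ← h1]
  | @refused h x y hp hxy h1 h2 ih =>
    have hx := hxy.1.1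
    rw [List.map_append, List.map_singleton]
    show Play ρ D' (e.φ x₀) (h.map (mapA (f D.mat)) ++ [.refused (f D.mat (D.name y))]) (e.φ x)
    rw [← hn.name y hxy.1.2.1]
    refine Play.refused ih (e.improving.2 hxy) ?_ ?_
    · intro w' hw' he
      obtain ⟨w, -, rfl⟩ := e.of_vertex hw'.1.2.1
      have hw := e.improving.1 hw'
      have hE := hn.edge x (w - x) hx (D.improving_iff.1 hw).2.2.1
      rw [map_sub] at hE
      refine h1 w hw ?_
      rw [hrule, he, hE]
      dsimp only
      rw [hlow, if_pos rfl]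
    · intro z' hz' hr he
      obtain ⟨z, rfl, hr'⟩ := e.of_ray hr
      rw [e.obj] at hz'
      have hz0 : z ≠ 0 := by
        rintro rfl
        simp [RLP.obj] at hz'
      have hE := hn.edge x z hx ((D.ray_iff hz0).1 hr').2.1
      refine h2 z hz' hr' ?_
      rw [hrule, he, hE]
      dsimp only
      rw [hlow, if_pos rfl]

theorem solves_iso {F : Mat → Mat} {f g : Mat → List Bool → List Bool} {ρ : BlindRule}
    {m n m' n' B : ℕ} {D : RLP m n} {D' : RLP m' n'} (e : Iso D D') (hF : D'.mat = F D.mat)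
    (hn : Names e (f D.mat) (g D.mat)) (h : Solves ρ D' B) : Solves (isoRule F f g ρ) D B := by
  rw [solves_iff] at h ⊢
  intro x₀ hx₀ hh x hp
  have h1 := h (e.φ x₀) (e.vertex.2 hx₀) _ _ (play_iso e hF hn hx₀ hp)
  rwa [List.length_map] at h1

theorem mapA_eq (f : List Bool → List Bool) (a : Answer) :
    mapA f a = Answer.ofPair (a.toPair.1, f a.toPair.2) := by
  cases a <;> rfl

theorem polyF_isoRule {F : Mat → Mat} {f g : Mat → List Bool → List Bool} {ρ : BlindRule}
    (hF : PolyF F) (hf : PolyF (fun x : Mat × List Bool => f x.1 x.2))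
    (hg : PolyF (fun x : Mat × List Bool => g x.1 x.2)) (hρ : PolyF ρ) :
    PolyF (isoRule F f g ρ) := by
  have hmapA : PolyF (fun p : (Mat × List Bool × List Answer) × Answer =>
      mapA (f p.1.1) p.2) := by
    refine (polyF_ofPair ((polyF_toPair PolyF.snd').fst.pair
      (hf.comp (PolyF.fst'.fst.pair (polyF_toPair PolyF.snd').snd)))).congr
      fun _ => (mapA_eq _ _).symm
  have ho : PolyF (fun X : Mat × List Bool × List Answer =>
      ρ (F X.1, f X.1 X.2.1, X.2.2.map (mapA (f X.1)))) := by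
    refine hρ.comp ((hF.comp PolyF.fst').pair ((hf.comp (PolyF.fst'.pair PolyF.snd'.fst)).pair ?_))
    exact PolyF.snd'.snd.map (h := fun (X : Mat × List Bool × List Answer) a =>
      mapA (f X.1) a) hmapA
  refine PolyF.optionCases (g := fun _ => (none : Option (List Bool)))
    (h := fun q : (Mat × List Bool × List Answer) × List Bool =>
      if q.2 = f q.1.1 (g q.1.1 q.2) then
        some (g q.1.1 q.2) else none) ho (PolyF.const _) ?_ ?_ ?_
  · have hl : PolyF (fun q : (Mat × List Bool × List Answer) × List Bool => g q.1.1 q.2) :=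
      hg.comp (PolyF.fst'.fst.pair PolyF.snd')
    have hfl : PolyF (fun q : (Mat × List Bool × List Answer) × List Bool =>
        f q.1.1 (g q.1.1 q.2)) := hf.comp (PolyF.fst'.fst.pair hl)
    exact PolyF.ite (PolyF.snd'.eq hfl) hl.some (PolyF.const _)
  · intro X hX
    unfold isoRule
    rw [hX]
  · intro X T hX
    unfold isoRule
    rw [hX]

end Pool.Agent.Simplex.EB
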