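import Mathlib

/-!
Rescaled perceptron with multi-rank rescaling: the number of mistakes of the deterministic learner.

A phase starts with a positive definite matrix `M`; the mistakes of the phase are vectors `g 0, g 1, …, g (T-1)` with
`1/4 ≤ g_t M⁻¹ g_t ≤ 1` and `g_t M⁻¹ (g_0 + … + g_{t-1}) ≤ 1/2`; after `T` mistakes `M` is replaced by
`M + (1/T) ∑ g_t g_tᵀ`. If all vectors `w` of a ball of radius `r` inside the unit ball satisfy `g_t w ≥ 0` for all the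
mistakes, then `(5/4) ^ k ≤ (3 / r ^ 2) ^ n` after `k` phases, provided `2 k ^ 2 ≤ T`.
-/

set_option autoImplicit false

open Matrix

namespace Pool.Agent.Lib.MP_4d246d_lc.EB

variable {n : Type*} [Fintype n] [DecidableEq n]

set_option linter.unusedSectionVars false

/-- positive definite symmetric real matrices, in elementary terms -/
structure Pd (M : Matrix n n ℝ) : Prop where
  symm : Mᵀ = M
  pos : ∀ x : n → ℝ, x ≠ 0 → 0 < x ⬝ᵥ M *ᵥ x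

theorem Pd.posDef {M : Matrix n n ℝ} (h : Pd M) : M.PosDef := by
  rw [posDef_iff_dotProduct_mulVec]
  refine ⟨?_, fun x hx => by simpa using h.pos x hx⟩
  rw [Matrix.IsHermitian, conjTranspose_eq_transpose_of_trivial]
  exact h.symm

theorem Pd.isUnit {M : Matrix n n ℝ} (h : Pd M) : IsUnit M.det :=
  (Matrix.isUnit_iff_isUnit_det _).mp h.posDef.isUnit

theorem Pd.det_pos {M : Matrix n n ℝ} (h : Pd M) : 0 < M.det := h.posDef.det_pos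

theorem Pd.nonneg {M : Matrix n n ℝ} (h : Pd M) (x : n → ℝ) : 0 ≤ x ⬝ᵥ M *ᵥ x := by
  by_cases hx : x = 0
  · simp [hx]
  · exact (h.pos x hx).le

theorem Pd.comm {M : Matrix n n ℝ} (h : Pd M) (x y : n → ℝ) : x ⬝ᵥ M *ᵥ y = y ⬝ᵥ M *ᵥ x := by
  rw [dotProduct_mulVec, ← mulVec_transpose, h.symm, dotProduct_comm]

theorem Pd.one : Pd (1 : Matrix n n ℝ) := by
  refine ⟨transpose_one, fun x hx => ?_⟩
  rw [one_mulVec]
  have h1 : 0 ≤ x ⬝ᵥ x := Finset.sum_nonneg fun i _ => mul_self_nonneg _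
  rcases h1.lt_or_eq with h | h
  · exact h
  · exact absurd (dotProduct_self_eq_zero.mp h.symm) hx

/-- Cauchy-Schwarz for the form `M` -/
theorem Pd.cs1 {M : Matrix n n ℝ} (h : Pd M) (x y : n → ℝ) :
    (x ⬝ᵥ M *ᵥ y) ^ 2 ≤ (x ⬝ᵥ M *ᵥ x) * (y ⬝ᵥ M *ᵥ y) := by
  have key : ∀ t : ℝ, 0 ≤ (y ⬝ᵥ M *ᵥ y) * (t * t) + 2 * (x ⬝ᵥ M *ᵥ y) * t + x ⬝ᵥ M *ᵥ x := by
    intro t
    have h1 := h.nonneg (x + t • y)
    rw [mulVec_add, mulVec_smul, add_dotProduct, dotProduct_add, dotProduct_add, smul_dotProduct,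
      smul_dotProduct, dotProduct_smul, dotProduct_smul, h.comm y x] at h1
    simp only [smul_eq_mul] at h1
    nlinarith [h1]
  have h2 := discrim_le_zero key
  rw [discrim] at h2
  nlinarith [h2]

/-- Cauchy-Schwarz for the dual forms -/
theorem Pd.cs {M : Matrix n n ℝ} (h : Pd M) (g w : n → ℝ) :
    (g ⬝ᵥ w) ^ 2 ≤ (g ⬝ᵥ M⁻¹ *ᵥ g) * (w ⬝ᵥ M *ᵥ w) := by
  have h1 := h.cs1 (M⁻¹ *ᵥ g) w
  have h2 : M *ᵥ (M⁻¹ *ᵥ g) = g := by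
    rw [mulVec_mulVec, mul_nonsing_inv _ h.isUnit, one_mulVec]
  rw [h2, h.comm (M⁻¹ *ᵥ g) w, h2, dotProduct_comm w g, dotProduct_comm (M⁻¹ *ᵥ g) g] at h1
  exact h1

theorem Pd.inv_nonneg {M : Matrix n n ℝ} (h : Pd M) (g : n → ℝ) : 0 ≤ g ⬝ᵥ M⁻¹ *ᵥ g := by
  have h2 : M *ᵥ (M⁻¹ *ᵥ g) = g := by
    rw [mulVec_mulVec, mul_nonsing_inv _ h.isUnit, one_mulVec]
  have h1 := h.nonneg (M⁻¹ *ᵥ g)
  rwa [h2, dotProduct_comm] at h1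

theorem Pd.inv_symm {M : Matrix n n ℝ} (h : Pd M) (x y : n → ℝ) : x ⬝ᵥ M⁻¹ *ᵥ y = y ⬝ᵥ M⁻¹ *ᵥ x := by
  rw [dotProduct_mulVec, ← mulVec_transpose, transpose_nonsing_inv, h.symm, dotProduct_comm]

/-- Cauchy-Schwarz for the form `M⁻¹` -/
theorem Pd.csinv {M : Matrix n n ℝ} (h : Pd M) (x y : n → ℝ) :
    (x ⬝ᵥ M⁻¹ *ᵥ y) ^ 2 ≤ (x ⬝ᵥ M⁻¹ *ᵥ x) * (y ⬝ᵥ M⁻¹ *ᵥ y) := by
  have h1 := h.cs x (M⁻¹ *ᵥ y)
  have h2 : M *ᵥ (M⁻¹ *ᵥ y) = y := by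
    rw [mulVec_mulVec, mul_nonsing_inv _ h.isUnit, one_mulVec]
  rwa [h2, dotProduct_comm (M⁻¹ *ᵥ y) y] at h1

theorem quad_rank_one (M : Matrix n n ℝ) (s : ℝ) (g w : n → ℝ) :
    w ⬝ᵥ (M + s • vecMulVec g g) *ᵥ w = w ⬝ᵥ M *ᵥ w + s * (g ⬝ᵥ w) ^ 2 := by
  rw [add_mulVec, dotProduct_add, smul_mulVec, dotProduct_smul, vecMulVec_mulVec, smul_eq_mul]
  congr 2
  simp [dotProduct_comm w g, sq]

theorem Pd.add_rank_one {M : Matrix n n ℝ} (h : Pd M) {s : ℝ} (hs : 0 ≤ s) (g : n → ℝ) :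
    Pd (M + s • vecMulVec g g) := by
  refine ⟨?_, fun x hx => ?_⟩
  · rw [transpose_add, transpose_smul, transpose_vecMulVec, h.symm]
  · rw [quad_rank_one]
    have := h.pos x hx
    positivity

/-- the determinant lemma -/
theorem Pd.det_rank_one {M : Matrix n n ℝ} (h : Pd M) (s : ℝ) (g : n → ℝ) :
    (M + s • vecMulVec g g).det = M.det * (1 + s * (g ⬝ᵥ M⁻¹ *ᵥ g)) := by
  have h1 : s • vecMulVec g g = replicateCol Unit (s • g) * replicateRow Unit g := by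
    rw [← vecMulVec_eq, smul_vecMulVec]
  rw [h1, det_add_replicateCol_mul_replicateRow h.isUnit]
  congr 1
  rw [det_unique, Matrix.add_apply, one_apply_eq]
  congr 1
  rw [Matrix.mul_assoc, ← replicateCol_mulVec, replicateRow_mul_replicateCol_apply, mulVec_smul,
    dotProduct_smul, smul_eq_mul]

theorem Pd.inv_lower {M X : Matrix n n ℝ} (hM : Pd M) (hX : Pd X) {A : ℝ} (hA : 0 ≤ A)
    (h : ∀ w, w ⬝ᵥ X *ᵥ w ≤ (1 + A) * (w ⬝ᵥ M *ᵥ w)) (g : n → ℝ) :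
    g ⬝ᵥ M⁻¹ *ᵥ g ≤ (1 + A) * (g ⬝ᵥ X⁻¹ *ᵥ g) := by
  have h2 : M *ᵥ (M⁻¹ *ᵥ g) = g := by
    rw [mulVec_mulVec, mul_nonsing_inv _ hM.isUnit, one_mulVec]
  have h1 := hX.cs g (M⁻¹ *ᵥ g)
  have h3 := h (M⁻¹ *ᵥ g)
  rw [h2, dotProduct_comm (M⁻¹ *ᵥ g) g] at h3
  have hb := hX.inv_nonneg g
  have ha := hM.inv_nonneg g
  set a := g ⬝ᵥ M⁻¹ *ᵥ g with hadef
  set b := g ⬝ᵥ X⁻¹ *ᵥ g with hbdef
  have h4 : a ^ 2 ≤ b * ((1 + A) * a) := h1.trans (mul_le_mul_of_nonneg_left h3 hb)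
  rcases ha.lt_or_eq with h5 | h5
  · have : a * a ≤ ((1 + A) * b) * a := by nlinarith [h4]
    exact le_of_mul_le_mul_right this h5
  · rw [← h5]
    positivity

/-- `M + s ∑_{t < T} g_t g_tᵀ` -/
noncomputable def acc (M : Matrix n n ℝ) (s : ℝ) (g : ℕ → n → ℝ) (T : ℕ) : Matrix n n ℝ :=
  M + ∑ t ∈ Finset.range T, s • vecMulVec (g t) (g t)

theorem acc_succ (M : Matrix n n ℝ) (s : ℝ) (g : ℕ → n → ℝ) (T : ℕ) :
    acc M s g (T + 1) = acc M s g T + s • vecMulVec (g T) (g T) := by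
  unfold acc
  rw [Finset.sum_range_succ, add_assoc]

theorem acc_quad (M : Matrix n n ℝ) (s : ℝ) (g : ℕ → n → ℝ) (w : n → ℝ) (T : ℕ) :
    w ⬝ᵥ acc M s g T *ᵥ w = w ⬝ᵥ M *ᵥ w + ∑ t ∈ Finset.range T, s * (g t ⬝ᵥ w) ^ 2 := by
  induction T with
  | zero => simp [acc]
  | succ T ih => rw [acc_succ, quad_rank_one, ih, Finset.sum_range_succ, add_assoc]

theorem acc_pd {M : Matrix n n ℝ} (hM : Pd M) {s : ℝ} (hs : 0 ≤ s) (g : ℕ → n → ℝ) (T : ℕ) :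
    Pd (acc M s g T) := by
  induction T with
  | zero => simpa [acc] using hM
  | succ T ih => rw [acc_succ]; exact ih.add_rank_one hs _

/-- the determinant grows at least by `1 + s ∑ g_t M⁻¹ g_t` -/
theorem acc_det {M : Matrix n n ℝ} (hM : Pd M) {s : ℝ} (hs : 0 ≤ s) (g : ℕ → n → ℝ) (T : ℕ) :
    M.det * (1 + ∑ t ∈ Finset.range T, s * (g t ⬝ᵥ M⁻¹ *ᵥ g t)) ≤ (acc M s g T).det := by
  have hA : ∀ T, 0 ≤ ∑ t ∈ Finset.range T, s * (g t ⬝ᵥ M⁻¹ *ᵥ g t) := fun T =>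
    Finset.sum_nonneg fun t _ => mul_nonneg hs (hM.inv_nonneg _)
  have hq : ∀ T, ∀ w, w ⬝ᵥ acc M s g T *ᵥ w ≤
      (1 + ∑ t ∈ Finset.range T, s * (g t ⬝ᵥ M⁻¹ *ᵥ g t)) * (w ⬝ᵥ M *ᵥ w) := by
    intro T w
    rw [acc_quad, add_mul, one_mul, Finset.sum_mul]
    refine add_le_add le_rfl (Finset.sum_le_sum fun t _ => ?_)
    rw [mul_assoc]
    exact mul_le_mul_of_nonneg_left (hM.cs _ _) hs
  induction T with
  | zero => simp [acc]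
  | succ T ih =>
    rw [acc_succ, (acc_pd hM hs g T).det_rank_one, Finset.sum_range_succ]
    set A := ∑ t ∈ Finset.range T, s * (g t ⬝ᵥ M⁻¹ *ᵥ g t) with hAdef
    have hA0 : 0 ≤ A := hA T
    have h1 := hM.inv_lower (acc_pd hM hs g T) hA0 (hq T) (g T)
    have h2 : 0 ≤ g T ⬝ᵥ (acc M s g T)⁻¹ *ᵥ g T := (acc_pd hM hs g T).inv_nonneg _
    have h3 : 0 < M.det := hM.det_pos
    have h4 : s * (g T ⬝ᵥ M⁻¹ *ᵥ g T) ≤ (1 + A) * (s * (g T ⬝ᵥ (acc M s g T)⁻¹ *ᵥ g T)) := by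
      calc s * (g T ⬝ᵥ M⁻¹ *ᵥ g T) ≤ s * ((1 + A) * (g T ⬝ᵥ (acc M s g T)⁻¹ *ᵥ g T)) :=
            mul_le_mul_of_nonneg_left h1 hs
        _ = _ := by ring
    calc M.det * (1 + (A + s * (g T ⬝ᵥ M⁻¹ *ᵥ g T)))
        ≤ M.det * (1 + (A + (1 + A) * (s * (g T ⬝ᵥ (acc M s g T)⁻¹ *ᵥ g T)))) := by gcongr
      _ = (M.det * (1 + A)) * (1 + s * (g T ⬝ᵥ (acc M s g T)⁻¹ *ᵥ g T)) := by ring
      _ ≤ _ := mul_le_mul_of_nonneg_right ih (by positivity)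

theorem Pd.det_le {M : Matrix n n ℝ} (hM : Pd M) {c : ℝ} (h : ∀ u : n → ℝ, u ⬝ᵥ M *ᵥ u ≤ c * (u ⬝ᵥ u)) :
    M.det ≤ c ^ Fintype.card n := by
  have hH : M.IsHermitian := hM.posDef.isHermitian
  rw [hH.det_eq_prod_eigenvalues]
  calc (∏ i, ((hH.eigenvalues i : ℝ) : ℝ)) ≤ ∏ _i : n, c := by
        refine Finset.prod_le_prod (fun i _ => (hM.posDef.eigenvalues_pos i).le) fun i _ => ?_
        have h1 := hH.eigenvalues_eq i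
        have h2 := h (hH.eigenvectorBasis i)
        have h3 : (hH.eigenvectorBasis i : n → ℝ) ⬝ᵥ (hH.eigenvectorBasis i : n → ℝ) = 1 := by
          have h4 := hH.eigenvectorBasis.orthonormal.1 i
          have h5 : ‖hH.eigenvectorBasis i‖ ^ 2 = 1 := by rw [h4, one_pow]
          rw [EuclideanSpace.norm_sq_eq] at h5
          rw [dotProduct, ← h5]
          refine Finset.sum_congr rfl fun j _ => ?_
          rw [Real.norm_eq_abs, sq_abs, sq]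
        rw [h3, mul_one] at h2
        simpa [h1] using h2
    _ = c ^ Fintype.card n := by rw [Finset.prod_const, Finset.card_univ]

/-- sum of the mistakes of a phase -/
def ysum (g : ℕ → n → ℝ) (t : ℕ) : n → ℝ := ∑ s ∈ Finset.range t, g s

/-- `|y_t|² ≤ 2 t` in the norm of `M⁻¹` -/
theorem ysum_le {M : Matrix n n ℝ} (hM : Pd M) (g : ℕ → n → ℝ) (T : ℕ)
    (h2 : ∀ t < T, g t ⬝ᵥ M⁻¹ *ᵥ g t ≤ 1) (h3 : ∀ t < T, g t ⬝ᵥ M⁻¹ *ᵥ ysum g t ≤ 1 / 2) :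
    ysum g T ⬝ᵥ M⁻¹ *ᵥ ysum g T ≤ 2 * T := by
  induction T with
  | zero => simp [ysum]
  | succ T ih =>
    have h4 := ih (fun t ht => h2 t (by omega)) (fun t ht => h3 t (by omega))
    have h5 := h2 T (Nat.lt_succ_self T)
    have h6 := h3 T (Nat.lt_succ_self T)
    have h7 : ysum g (T + 1) = ysum g T + g T := Finset.sum_range_succ _ _
    rw [h7, mulVec_add, add_dotProduct, dotProduct_add, dotProduct_add, hM.inv_symm (ysum g T) (g T)]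
    push_cast
    linarith

/-- one phase multiplies the form at a consistent vector at most by `1 + √(2 / T)` -/
theorem phase_quad {M : Matrix n n ℝ} (hM : Pd M) (g : ℕ → n → ℝ) {T : ℕ} (hT : 0 < T)
    (h2 : ∀ t < T, g t ⬝ᵥ M⁻¹ *ᵥ g t ≤ 1) (h3 : ∀ t < T, g t ⬝ᵥ M⁻¹ *ᵥ ysum g t ≤ 1 / 2)
    (w : n → ℝ) (hw : ∀ t < T, 0 ≤ g t ⬝ᵥ w) :
    w ⬝ᵥ acc M (T : ℝ)⁻¹ g T *ᵥ w ≤ (1 + Real.sqrt (2 / T)) * (w ⬝ᵥ M *ᵥ w) := by
  have hT' : (0 : ℝ) < T := by exact_mod_cast hT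
  have hQ := hM.nonneg w
  set Q := w ⬝ᵥ M *ᵥ w with hQdef
  have h4 : ∀ t < T, g t ⬝ᵥ w ≤ Real.sqrt Q := by
    intro t ht
    apply Real.le_sqrt_of_sq_le
    calc (g t ⬝ᵥ w) ^ 2 ≤ (g t ⬝ᵥ M⁻¹ *ᵥ g t) * Q := hM.cs _ _
      _ ≤ 1 * Q := mul_le_mul_of_nonneg_right (h2 t ht) hQ
      _ = Q := one_mul _
  have h5 : ysum g T ⬝ᵥ w ≤ Real.sqrt (2 * T) * Real.sqrt Q := by
    rw [← Real.sqrt_mul (by positivity)]
    apply Real.le_sqrt_of_sq_le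
    calc (ysum g T ⬝ᵥ w) ^ 2 ≤ (ysum g T ⬝ᵥ M⁻¹ *ᵥ ysum g T) * Q := hM.cs _ _
      _ ≤ 2 * T * Q := mul_le_mul_of_nonneg_right (ysum_le hM g T h2 h3) hQ
  have h6 : ysum g T ⬝ᵥ w = ∑ t ∈ Finset.range T, g t ⬝ᵥ w := by
    unfold ysum
    rw [sum_dotProduct]
  have h7 : ∑ t ∈ Finset.range T, (g t ⬝ᵥ w) ^ 2 ≤ Real.sqrt (2 * T) * Q := by
    calc ∑ t ∈ Finset.range T, (g t ⬝ᵥ w) ^ 2 ≤ ∑ t ∈ Finset.range T, Real.sqrt Q * (g t ⬝ᵥ w) := by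
          refine Finset.sum_le_sum fun t ht => ?_
          rw [Finset.mem_range] at ht
          rw [sq]
          exact mul_le_mul_of_nonneg_right (h4 t ht) (hw t ht)
      _ = Real.sqrt Q * (ysum g T ⬝ᵥ w) := by rw [h6, Finset.mul_sum]
      _ ≤ Real.sqrt Q * (Real.sqrt (2 * T) * Real.sqrt Q) :=
          mul_le_mul_of_nonneg_left h5 (Real.sqrt_nonneg _)
      _ = Real.sqrt (2 * T) * (Real.sqrt Q * Real.sqrt Q) := by ring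
      _ = Real.sqrt (2 * T) * Q := by rw [Real.mul_self_sqrt hQ]
  have h8 : (T : ℝ)⁻¹ * Real.sqrt (2 * T) = Real.sqrt (2 / T) := by
    rw [eq_comm, Real.sqrt_eq_iff_mul_self_eq (by positivity) (by positivity)]
    have h9 : Real.sqrt (2 * T) * Real.sqrt (2 * T) = 2 * T := Real.mul_self_sqrt (by positivity)
    symm
    calc (T : ℝ)⁻¹ * Real.sqrt (2 * T) * ((T : ℝ)⁻¹ * Real.sqrt (2 * T))
        = (T : ℝ)⁻¹ * (T : ℝ)⁻¹ * (Real.sqrt (2 * T) * Real.sqrt (2 * T)) := by ring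
      _ = 2 / T := by rw [h9]; field_simp
  rw [acc_quad, ← Finset.mul_sum, add_mul, one_mul]
  refine add_le_add le_rfl ?_
  calc (T : ℝ)⁻¹ * ∑ t ∈ Finset.range T, (g t ⬝ᵥ w) ^ 2 ≤ (T : ℝ)⁻¹ * (Real.sqrt (2 * T) * Q) :=
        mul_le_mul_of_nonneg_left h7 (by positivity)
    _ = (T : ℝ)⁻¹ * Real.sqrt (2 * T) * Q := by ring
    _ = Real.sqrt (2 / T) * Q := by rw [h8]

/-- a ball contained in an ellipsoid bounds the form -/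
theorem ball_bound {M : Matrix n n ℝ} (hM : Pd M) {r R2 : ℝ} (hr : 0 < r) (w0 : n → ℝ)
    (hw : ∀ u : n → ℝ, u ⬝ᵥ u ≤ r ^ 2 → (w0 + u) ⬝ᵥ M *ᵥ (w0 + u) ≤ R2) (u : n → ℝ) :
    u ⬝ᵥ M *ᵥ u ≤ R2 / r ^ 2 * (u ⬝ᵥ u) := by
  have hself : ∀ v : n → ℝ, 0 ≤ v ⬝ᵥ v := fun v => Finset.sum_nonneg fun i _ => mul_self_nonneg _
  have key : ∀ v : n → ℝ, v ⬝ᵥ v ≤ r ^ 2 → v ⬝ᵥ M *ᵥ v ≤ R2 := by
    intro v hv
    have h1 := hw v hv
    have h2 := hw (-v) (by simpa using hv)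
    have h3 := hM.nonneg w0
    rw [mulVec_add, add_dotProduct, dotProduct_add, dotProduct_add, hM.comm v w0] at h1
    rw [mulVec_add, mulVec_neg, add_dotProduct, dotProduct_add, dotProduct_add, neg_dotProduct,
      neg_dotProduct, dotProduct_neg, dotProduct_neg, hM.comm v w0] at h2
    linarith
  by_cases hu : u = 0
  · simp [hu]
  · have hpos : 0 < u ⬝ᵥ u := by
      rcases (hself u).lt_or_eq with h | h
      · exact h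
      · exact absurd (dotProduct_self_eq_zero.mp h.symm) hu
    set c := r ^ 2 / (u ⬝ᵥ u) with hc
    have hc0 : 0 < c := by positivity
    have h1 := key (Real.sqrt c • u) (by
      rw [smul_dotProduct, dotProduct_smul, smul_eq_mul, smul_eq_mul, ← mul_assoc,
        Real.mul_self_sqrt hc0.le, hc, div_mul_cancel₀ _ hpos.ne'])
    rw [mulVec_smul, smul_dotProduct, dotProduct_smul, smul_eq_mul, smul_eq_mul, ← mul_assoc,
      Real.mul_self_sqrt hc0.le, hc] at h1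
    have h2 : u ⬝ᵥ M *ᵥ u = (u ⬝ᵥ u) / r ^ 2 * (r ^ 2 / (u ⬝ᵥ u) * (u ⬝ᵥ M *ᵥ u)) := by
      field_simp
    rw [h2]
    calc (u ⬝ᵥ u) / r ^ 2 * (r ^ 2 / (u ⬝ᵥ u) * (u ⬝ᵥ M *ᵥ u)) ≤ (u ⬝ᵥ u) / r ^ 2 * R2 :=
          mul_le_mul_of_nonneg_left h1 (by positivity)
      _ = _ := by ring

/-- The number of phases. -/
theorem phases {T k : ℕ} (hT : 0 < T) (hk : 2 * k ^ 2 ≤ T) (M : ℕ → Matrix n n ℝ) (g : ℕ → ℕ → n → ℝ)
    (h0 : M 0 = 1) (hs : ∀ j < k, M (j + 1) = acc (M j) (T : ℝ)⁻¹ (g j) T)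
    (h1 : ∀ j < k, ∀ t < T, 1 / 4 ≤ g j t ⬝ᵥ (M j)⁻¹ *ᵥ g j t)
    (h2 : ∀ j < k, ∀ t < T, g j t ⬝ᵥ (M j)⁻¹ *ᵥ g j t ≤ 1)
    (h3 : ∀ j < k, ∀ t < T, g j t ⬝ᵥ (M j)⁻¹ *ᵥ ysum (g j) t ≤ 1 / 2)
    {r : ℝ} (hr : 0 < r) (w0 : n → ℝ)
    (hw : ∀ u : n → ℝ, u ⬝ᵥ u ≤ r ^ 2 → (w0 + u) ⬝ᵥ (w0 + u) ≤ 1 ∧
      ∀ j < k, ∀ t < T, 0 ≤ g j t ⬝ᵥ (w0 + u)) :
    ∀ j ≤ k, Pd (M j) ∧ (5 / 4 : ℝ) ^ j ≤ (M j).det ∧
      (∀ w : n → ℝ, w ⬝ᵥ w ≤ 1 → (∀ j < k, ∀ t < T, 0 ≤ g j t ⬝ᵥ w) → w ⬝ᵥ M j *ᵥ w ≤ 3) ∧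
      (∀ u, u ⬝ᵥ M j *ᵥ u ≤ 3 / r ^ 2 * (u ⬝ᵥ u)) ∧ (5 / 4 : ℝ) ^ j ≤ (3 / r ^ 2) ^ Fintype.card n := by
  have hT' : (0 : ℝ) < T := by exact_mod_cast hT
  set a := Real.sqrt (2 / T) with ha
  have ha0 : 0 ≤ a := Real.sqrt_nonneg _
  have hka : (k : ℝ) * a ≤ 1 := by
    have h4 : ((k : ℝ) * a) ^ 2 ≤ 1 := by
      rw [mul_pow, ha, Real.sq_sqrt (by positivity)]
      have h5 : (2 * (k : ℝ) ^ 2) ≤ T := by exact_mod_cast hk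
      rw [← mul_div_assoc, div_le_one hT']
      linarith
    nlinarith [mul_nonneg (Nat.cast_nonneg (α := ℝ) k) ha0]
  have base : ∀ j ≤ k, Pd (M j) ∧ (5 / 4 : ℝ) ^ j ≤ (M j).det ∧
      ∀ w : n → ℝ, w ⬝ᵥ w ≤ 1 → (∀ j < k, ∀ t < T, 0 ≤ g j t ⬝ᵥ w) → w ⬝ᵥ M j *ᵥ w ≤ (1 + a) ^ j := by
    intro j
    induction j with
    | zero =>
      intro _
      rw [h0]
      exact ⟨Pd.one, by simp, fun w hw1 _ => by simpa using hw1⟩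
    | succ j ih =>
      intro hj
      obtain ⟨hP, hd, hq⟩ := ih (by omega)
      rw [hs j (by omega)]
      refine ⟨acc_pd hP (by positivity) _ _, ?_, fun w hw1 hw2 => ?_⟩
      · refine le_trans ?_ (acc_det hP (by positivity) _ _)
        have h4 : (1 / 4 : ℝ) ≤ ∑ t ∈ Finset.range T, (T : ℝ)⁻¹ * (g j t ⬝ᵥ (M j)⁻¹ *ᵥ g j t) := by
          calc (1 / 4 : ℝ) = ∑ _t ∈ Finset.range T, (T : ℝ)⁻¹ * (1 / 4) := by
                rw [Finset.sum_const, Finset.card_range, nsmul_eq_mul]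
                field_simp
            _ ≤ _ := Finset.sum_le_sum fun t ht =>
                mul_le_mul_of_nonneg_left (h1 j (by omega) t (Finset.mem_range.mp ht)) (by positivity)
        rw [pow_succ]
        refine mul_le_mul hd ?_ (by norm_num) hP.det_pos.le
        linarith
      · calc w ⬝ᵥ acc (M j) (T : ℝ)⁻¹ (g j) T *ᵥ w ≤ (1 + a) * (w ⬝ᵥ M j *ᵥ w) :=
              phase_quad hP _ hT (h2 j (by omega)) (h3 j (by omega)) w (hw2 j (by omega))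
          _ ≤ (1 + a) * (1 + a) ^ j := mul_le_mul_of_nonneg_left (hq w hw1 hw2) (by positivity)
          _ = (1 + a) ^ (j + 1) := by ring
  intro j hj
  obtain ⟨hP, hd, hq⟩ := base j hj
  have h4 : (1 + a) ^ j ≤ 3 := by
    calc (1 + a) ^ j ≤ (1 + a) ^ k := pow_le_pow_right₀ (by linarith) hj
      _ ≤ (Real.exp a) ^ k := pow_le_pow_left₀ (by positivity) (by linarith [Real.add_one_le_exp a]) _
      _ = Real.exp (k * a) := by rw [← Real.exp_nat_mul]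
      _ ≤ Real.exp 1 := Real.exp_le_exp.mpr hka
      _ ≤ 3 := by linarith [Real.exp_one_lt_d9]
  have hq' : ∀ w : n → ℝ, w ⬝ᵥ w ≤ 1 → (∀ j < k, ∀ t < T, 0 ≤ g j t ⬝ᵥ w) → w ⬝ᵥ M j *ᵥ w ≤ 3 :=
    fun w hw1 hw2 => (hq w hw1 hw2).trans h4
  have h5 := ball_bound hP hr w0 (fun u hu => hq' _ (hw u hu).1 (hw u hu).2)
  exact ⟨hP, hd, hq', h5, hd.trans (hP.det_le h5)⟩

end Pool.Agent.Lib.MP_4d246d_lc.EB
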