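import Pool.Agent.Lib.MP_4d246d_lc.EB.Statement3

/-!
# Line sums of tables
-/

namespace Pool.Agent.Simplex.EB

/-- sum of the table `f` over the line `p` -/
noncomputable def lsum (r c p : ℕ) (f : ℕ → ℝ) : ℝ :=
  ∑ q ∈ Finset.range (3 * (r * c)), if OnLine r c p q then f q else 0

/-- index of an entry -/
def ix (c e J K : ℕ) : ℕ := 3 * (e * c + J) + K

theorem ix_div {c e J K : ℕ} (hJ : J < c) (hK : K < 3) :
    ix c e J K / 3 / c = e ∧ ix c e J K / 3 % c = J ∧ ix c e J K % 3 = K := by
  have h1 : ix c e J K / 3 = e * c + J := by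
    unfold ix
    omega
  have hc : 0 < c := by omega
  refine ⟨?_, ?_, ?_⟩
  · rw [h1, mul_comm, Nat.mul_add_div hc, Nat.div_eq_of_lt hJ, add_zero]
  · rw [h1, add_comm, Nat.add_mul_mod_self_right, Nat.mod_eq_of_lt hJ]
  · unfold ix
    omega

theorem ix_lt {r c e J K : ℕ} (he : e < r) (hJ : J < c) (hK : K < 3) :
    ix c e J K < 3 * (r * c) := by
  have h1 : (e + 1) * c ≤ r * c := Nat.mul_le_mul_right _ he
  have h2 : (e + 1) * c = e * c + c := by ring
  unfold ix
  omega

theorem exists_ix {r c q : ℕ} (hq : q < 3 * (r * c)) :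
    ∃ e J K, e < r ∧ J < c ∧ K < 3 ∧ q = ix c e J K := by
  have hc : 0 < c := by
    rcases Nat.eq_zero_or_pos c with h | h
    · subst h
      simp at hq
    · exact h
  have h3 : q / 3 < r * c := by omega
  refine ⟨q / 3 / c, q / 3 % c, q % 3, ?_, Nat.mod_lt _ hc, Nat.mod_lt _ (by norm_num), ?_⟩
  · rw [Nat.div_lt_iff_lt_mul hc]
    exact h3
  · unfold ix
    have h4 := Nat.div_add_mod (q / 3) c
    have h5 : q / 3 / c * c = c * (q / 3 / c) := mul_comm _ _
    omega

theorem onLine_ix {r c p e J K : ℕ} (hJ : J < c) (hK : K < 3) :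
    OnLine r c p (ix c e J K) ↔ p = e * c + J ∨ p = r * c + (3 * J + K) ∨
      p = r * c + 3 * c + (3 * e + K) := by
  obtain ⟨h1, h2, h3⟩ := ix_div (e := e) hJ hK
  have h4 : ix c e J K / 3 = e * c + J := by
    unfold ix
    omega
  unfold OnLine
  rw [h1, h2, h3, h4]

theorem sum_ix (r c : ℕ) (g : ℕ → ℝ) :
    ∑ q ∈ Finset.range (3 * (r * c)), g q =
      ∑ e ∈ Finset.range r, ∑ J ∈ Finset.range c, ∑ K ∈ Finset.range 3, g (ix c e J K) := by
  have h1 : ∑ e ∈ Finset.range r, ∑ J ∈ Finset.range c, ∑ K ∈ Finset.range 3, g (ix c e J K) =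
      ∑ z ∈ Finset.range r ×ˢ (Finset.range c ×ˢ Finset.range 3), g (ix c z.1 z.2.1 z.2.2) := by
    rw [Finset.sum_product]
    refine Finset.sum_congr rfl fun e _ => ?_
    rw [Finset.sum_product]
  rw [h1]
  symm
  refine Finset.sum_nbij (fun z => ix c z.1 z.2.1 z.2.2) ?_ ?_ ?_ fun _ _ => rfl
  · rintro ⟨e, J, K⟩ hz
    simp only [Finset.mem_product, Finset.mem_range] at hz
    exact Finset.mem_range.2 (ix_lt hz.1 hz.2.1 hz.2.2)
  · rintro ⟨e, J, K⟩ hz ⟨e', J', K'⟩ hz' heq
    simp only [Finset.coe_product, Set.mem_prod, Finset.mem_coe, Finset.mem_range] at hz hz'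
    obtain ⟨h1, h2, h3⟩ := ix_div (e := e) hz.2.1 hz.2.2
    obtain ⟨h1', h2', h3'⟩ := ix_div (e := e') hz'.2.1 hz'.2.2
    dsimp only at heq
    rw [heq] at h1 h2 h3
    simp only [Prod.mk.injEq]
    exact ⟨by omega, by omega, by omega⟩
  · intro q hq
    obtain ⟨e, J, K, he, hJ, hK, rfl⟩ := exists_ix (Finset.mem_range.1 (Finset.mem_coe.1 hq))
    refine ⟨(e, J, K), ?_, rfl⟩
    simp only [Finset.coe_product, Set.mem_prod, Finset.mem_coe, Finset.mem_range]
    exact ⟨he, hJ, hK⟩

theorem row_lt {r c e J : ℕ} (he : e < r) (hJ : J < c) : e * c + J < r * c := by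
  have h1 : (e + 1) * c ≤ r * c := Nat.mul_le_mul_right _ he
  have h2 : (e + 1) * c = e * c + c := by ring
  omega

theorem row_inj {c e J e' J' : ℕ} (hJ : J < c) (hJ' : J' < c) (h : e * c + J = e' * c + J') :
    e = e' ∧ J = J' := by
  have h1 : (e * c + J) / c = e := by
    rw [mul_comm, Nat.mul_add_div (by omega), Nat.div_eq_of_lt hJ, add_zero]
  have h2 : (e' * c + J') / c = e' := by
    rw [mul_comm, Nat.mul_add_div (by omega), Nat.div_eq_of_lt hJ', add_zero]
  have h3 : e = e' := by rw [← h1, ← h2, h]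
  subst h3
  exact ⟨rfl, by omega⟩

theorem lsum_A {r c e J : ℕ} (he : e < r) (hJ : J < c) (f : ℕ → ℝ) :
    lsum r c (e * c + J) f = ∑ K ∈ Finset.range 3, f (ix c e J K) := by
  unfold lsum
  rw [sum_ix, Finset.sum_eq_single e, Finset.sum_eq_single J]
  · refine Finset.sum_congr rfl fun K hK => ?_
    rw [if_pos ((onLine_ix hJ (Finset.mem_range.1 hK)).2 (Or.inl rfl))]
  · intro J' hJ' hne
    refine Finset.sum_eq_zero fun K hK => ?_
    rw [if_neg]
    rw [onLine_ix (Finset.mem_range.1 hJ') (Finset.mem_range.1 hK)]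
    have h1 := row_lt he hJ
    rintro (h | h | h)
    · exact hne (row_inj hJ (Finset.mem_range.1 hJ') h).2.symm
    · omega
    · omega
  · intro h
    exact absurd (Finset.mem_range.2 hJ) h
  · intro e' he' hne
    refine Finset.sum_eq_zero fun J' hJ' => Finset.sum_eq_zero fun K hK => ?_
    rw [if_neg]
    rw [onLine_ix (Finset.mem_range.1 hJ') (Finset.mem_range.1 hK)]
    have h1 := row_lt he hJ
    rintro (h | h | h)
    · exact hne (row_inj hJ (Finset.mem_range.1 hJ') h).1.symm
    · omega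
    · omega
  · intro h
    exact absurd (Finset.mem_range.2 he) h

theorem lsum_B {r c J K : ℕ} (hJ : J < c) (hK : K < 3) (f : ℕ → ℝ) :
    lsum r c (r * c + (3 * J + K)) f = ∑ e ∈ Finset.range r, f (ix c e J K) := by
  unfold lsum
  rw [sum_ix]
  refine Finset.sum_congr rfl fun e he => ?_
  have he' := Finset.mem_range.1 he
  rw [Finset.sum_eq_single J, Finset.sum_eq_single K]
  · rw [if_pos ((onLine_ix hJ hK).2 (Or.inr (Or.inl rfl)))]
  · intro K' hK' hne
    have hK3 := Finset.mem_range.1 hK'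
    rw [if_neg]
    rw [onLine_ix hJ hK3]
    have h1 := row_lt he' hJ
    rintro (h | h | h)
    · omega
    · omega
    · omega
  · intro h
    exact absurd (Finset.mem_range.2 hK) h
  · intro J' hJ' hne
    have hJ3 := Finset.mem_range.1 hJ'
    refine Finset.sum_eq_zero fun K' hK' => ?_
    have hK3 := Finset.mem_range.1 hK'
    rw [if_neg]
    rw [onLine_ix hJ3 hK3]
    have h1 := row_lt he' hJ3
    rintro (h | h | h)
    · omega
    · omega
    · omega
  · intro h
    exact absurd (Finset.mem_range.2 hJ) h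

theorem lsum_C {r c e K : ℕ} (he : e < r) (hK : K < 3) (f : ℕ → ℝ) :
    lsum r c (r * c + 3 * c + (3 * e + K)) f = ∑ J ∈ Finset.range c, f (ix c e J K) := by
  unfold lsum
  rw [sum_ix, Finset.sum_eq_single e]
  · refine Finset.sum_congr rfl fun J hJ => ?_
    have hJ3 := Finset.mem_range.1 hJ
    rw [Finset.sum_eq_single K]
    · rw [if_pos ((onLine_ix hJ3 hK).2 (Or.inr (Or.inr rfl)))]
    · intro K' hK' hne
      have hK3 := Finset.mem_range.1 hK'
      rw [if_neg]
      rw [onLine_ix hJ3 hK3]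
      have h1 := row_lt he hJ3
      rintro (h | h | h)
      · omega
      · omega
      · omega
    · intro h
      exact absurd (Finset.mem_range.2 hK) h
  · intro e' he' hne
    have he3 := Finset.mem_range.1 he'
    refine Finset.sum_eq_zero fun J' hJ' => Finset.sum_eq_zero fun K' hK' => ?_
    have hJ3 := Finset.mem_range.1 hJ'
    have hK3 := Finset.mem_range.1 hK'
    rw [if_neg]
    rw [onLine_ix hJ3 hK3]
    have h1 := row_lt he3 hJ3
    rintro (h | h | h)
    · omega
    · omega
    · omega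
  · intro h
    exact absurd (Finset.mem_range.2 he) h

/-- all lines -/
theorem forall_lines {r c : ℕ} {Q : ℕ → Prop} : (∀ p < lines r c, Q p) ↔
    (∀ e < r, ∀ J < c, Q (e * c + J)) ∧ (∀ J < c, ∀ K < 3, Q (r * c + (3 * J + K))) ∧
      ∀ e < r, ∀ K < 3, Q (r * c + 3 * c + (3 * e + K)) := by
  constructor
  · intro h
    refine ⟨fun e he J hJ => h _ ?_, fun J hJ K hK => h _ ?_, fun e he K hK => h _ ?_⟩
    · have h1 := row_lt he hJ
      unfold lines
      omega
    · unfold lines
      omega
    · unfold lines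
      omega
  · rintro ⟨hA, hB, hC⟩ p hp
    unfold lines at hp
    rcases lt_or_ge p (r * c) with h1 | h1
    · have hc : 0 < c := by
        rcases Nat.eq_zero_or_pos c with h | h
        · subst h
          simp at h1
        · exact h
      have h2 := hA (p / c) ((Nat.div_lt_iff_lt_mul hc).2 h1) (p % c) (Nat.mod_lt _ hc)
      have h3 : p / c * c + p % c = p := by
        rw [mul_comm]
        exact Nat.div_add_mod p c
      rwa [h3] at h2
    · rcases lt_or_ge p (r * c + 3 * c) with h4 | h4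
      · have h5 := hB ((p - r * c) / 3) (by omega) ((p - r * c) % 3) (by omega)
        have h6 : r * c + (3 * ((p - r * c) / 3) + (p - r * c) % 3) = p := by omega
        rwa [h6] at h5
      · have h5 := hC ((p - (r * c + 3 * c)) / 3) (by omega) ((p - (r * c + 3 * c)) % 3) (by omega)
        have h6 : r * c + 3 * c + (3 * ((p - (r * c + 3 * c)) / 3) +
            (p - (r * c + 3 * c)) % 3) = p := by omega
        rwa [h6] at h5

theorem lsum_fin (r c p : ℕ) (f : ℕ → ℝ) :
    lsum r c p f = ∑ q : Fin (3 * (r * c)), if OnLine r c p q then f q else 0 := by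
  unfold lsum
  rw [Finset.sum_range]

/-- the feasible tables -/
theorem transport_feasible {r c : ℕ} {s : Fin (lines r c) → ℝ} {cost : Fin (3 * (r * c)) → ℝ}
    {f : ℕ → ℝ} :
    (fun q : Fin (3 * (r * c)) => f q) ∈ (transport r c s cost).feasible ↔
      (∀ p : Fin (lines r c), lsum r c p f = s p) ∧ ∀ q < 3 * (r * c), 0 ≤ f q := by
  have e1 : ∀ p : Fin (lines r c), ∑ q : Fin (3 * (r * c)),
      ((transport r c s cost).A (Fin.castAdd (lines r c) p) q : ℝ) * f q = lsum r c p f := by
    intro p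
    rw [lsum_fin]
    refine Finset.sum_congr rfl fun q _ => ?_
    show (((Fin.addCases (fun p q => if OnLine r c p q then 1 else 0)
      (fun p q => if OnLine r c p q then -1 else 0) (Fin.castAdd (lines r c) p) :
        Fin (3 * (r * c)) → ℚ) q : ℚ) : ℝ) * f q = _
    rw [Fin.addCases_left]
    split_ifs <;> simp
  have e2 : ∀ p : Fin (lines r c), ∑ q : Fin (3 * (r * c)),
      ((transport r c s cost).A (Fin.natAdd (lines r c) p) q : ℝ) * f q = - lsum r c p f := by
    intro p
    rw [lsum_fin, ← Finset.sum_neg_distrib]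
    refine Finset.sum_congr rfl fun q _ => ?_
    show (((Fin.addCases (fun p q => if OnLine r c p q then 1 else 0)
      (fun p q => if OnLine r c p q then -1 else 0) (Fin.natAdd (lines r c) p) :
        Fin (3 * (r * c)) → ℚ) q : ℚ) : ℝ) * f q = _
    rw [Fin.addCases_right]
    split_ifs <;> simp
  have e3 : ∀ p : Fin (lines r c),
      (transport r c s cost).b (Fin.castAdd (lines r c) p) = s p := by
    intro p
    show (Fin.addCases s (fun p => - s p) (Fin.castAdd (lines r c) p) : ℝ) = _
    rw [Fin.addCases_left]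
  have e4 : ∀ p : Fin (lines r c),
      (transport r c s cost).b (Fin.natAdd (lines r c) p) = - s p := by
    intro p
    show (Fin.addCases s (fun p => - s p) (Fin.natAdd (lines r c) p) : ℝ) = _
    rw [Fin.addCases_right]
  constructor
  · rintro ⟨h1, h2⟩
    refine ⟨fun p => ?_, fun q hq => h2 ⟨q, hq⟩⟩
    have h3 := h1 (Fin.castAdd (lines r c) p)
    have h4 := h1 (Fin.natAdd (lines r c) p)
    rw [e1, e3] at h3
    rw [e2, e4] at h4
    linarith
  · rintro ⟨h1, h2⟩
    refine ⟨fun i => ?_, fun q => h2 q q.2⟩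
    induction i using Fin.addCases with
    | left p => rw [e1, e3, h1]
    | right p => rw [e2, e4, h1]

end Pool.Agent.Simplex.EB
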