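import Pool.Agent.Lib.MP_4d246d_lc.EB.Impl
import Pool.Agent.Lib.MP_4d246d_lc.EB.CoreSpec
import Pool.Agent.Lib.MP_4d246d_lc.EB.GuessPoly

/-!
The learner: its guess is computed in polynomial time and it makes a polynomial number of mistakes.
-/

set_option autoImplicit false

namespace Pool.Agent.Lib.MP_4d246d_lc.EB

open Pool.Agent.Simplex.QP Pool.Agent.Lib.PolyTime

/-! ### The number of mistakes as a polynomial -/

theorem addX {X a b i : ℕ} (hX : 2 ≤ X) (ha : a ≤ X ^ i) (hb : b ≤ X ^ i) : a + b ≤ X ^ (i + 1) := by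
  rw [pow_succ]
  nlinarith

theorem mulX {X a b : ℕ} (i j : ℕ) (ha : a ≤ X ^ i) (hb : b ≤ X ^ j) : a * b ≤ X ^ (i + j) := by
  rw [pow_add]
  exact Nat.mul_le_mul ha hb

theorem monoX {X a i : ℕ} (j : ℕ) (hX : 2 ≤ X) (ha : a ≤ X ^ i) (hij : i ≤ j) : a ≤ X ^ j :=
  ha.trans (Nat.pow_le_pow_right (by omega) hij)

/-- The number of mistakes is polynomial in the number of variables and the size of the inequalities. -/
theorem mistakes_poly (N l : ℕ) :
    (N + 1) * (parK N (parL N l) * (parS N (parL N l) * parS N (parL N l)) + 1) ≤ (N + l + 2) ^ 55 := by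
  obtain ⟨X, hX'⟩ : ∃ X, X = N + l + 2 := ⟨_, rfl⟩
  rw [← hX']
  have hX : 2 ≤ X := by omega
  have hN1 : N ≤ X ^ 1 := by rw [pow_one]; omega
  have hN2 : N + 1 ≤ X ^ 1 := by rw [pow_one]; omega
  have hl1 : l ≤ X ^ 1 := by rw [pow_one]; omega
  have h2 : 2 ≤ X ^ 1 := by rw [pow_one]; omega
  have h1 : 1 ≤ X ^ 1 := by rw [pow_one]; omega
  have h4 : 4 ≤ X ^ 2 := by nlinarith
  -- the size of the projected inequalities
  have hL : parL N l ≤ X ^ 8 := by
    have a1 : N + 2 * l ≤ X ^ 3 := addX hX (monoX 2 hX hN1 (by norm_num)) (mulX 1 1 h2 hl1)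
    have a2 : N + 2 * l + 1 ≤ X ^ 4 := addX hX a1 (monoX 3 hX h1 (by norm_num))
    have a3 : N * N ≤ X ^ 5 := monoX 5 hX (mulX 1 1 hN1 hN1) (by norm_num)
    have a4 : N * (N + 2 * l + 1) ≤ X ^ 5 := mulX 1 4 hN1 a2
    have a5 : N * N + N * (N + 2 * l + 1) + 1 ≤ X ^ 7 := addX hX (addX hX a3 a4) (monoX 6 hX h1 (by norm_num))
    have a6 : pexp N l ≤ X ^ 7 := a5
    have a7 : N + (pexp N l + l) = (pexp N l) + (N + l) := by ring
    have a8 : N + l ≤ X ^ 7 := monoX 7 hX (addX hX hN1 hl1) (by norm_num)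
    unfold parL
    rw [a7]
    exact addX hX a6 a8
  generalize parL N l = L at hL ⊢
  have hE : parE N L ≤ X ^ 13 := by
    have a1 : N + N * N ≤ X ^ 3 := addX hX (monoX 2 hX hN1 (by norm_num)) (mulX 1 1 hN1 hN1)
    have a2 : N + N * N + L * N ≤ X ^ 10 := addX hX (monoX 9 hX a1 (by norm_num)) (mulX 8 1 hL hN1)
    have a3 : 2 * (N + N * N + L * N) ≤ X ^ 11 := mulX 1 10 h2 a2
    have a4 : 4 + 4 * N ≤ X ^ 4 := addX hX (monoX 3 hX h4 (by norm_num)) (mulX 2 1 h4 hN1)
    have a5 : 2 * L ≤ X ^ 12 := monoX 12 hX (mulX 1 8 h2 hL) (by norm_num)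
    have a6 : 4 + 4 * N + 2 * (N + N * N + L * N) ≤ X ^ 12 := addX hX (monoX 11 hX a4 (by norm_num)) a3
    exact addX hX a6 a5
  have hK : parK N L ≤ X ^ 17 := mulX 2 15 h4 (addX hX (mulX 1 13 hN1 hE) (monoX 14 hX h1 (by norm_num)))
  have hS : parS N L ≤ X ^ 18 := mulX 1 17 h2 hK
  have hB : parK N L * (parS N L * parS N L) ≤ X ^ 53 := mulX 17 36 hK (mulX 18 18 hS hS)
  exact mulX 1 54 hN2 (addX hX hB (monoX 53 hX h1 (by norm_num)))

/-! ### The answer of the learner -/

section

variable {N l : ℕ} {H : List (Bool × List ℤ)}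

theorem sol_iff_sat (H : List (Bool × List ℤ)) (w : ℕ → ℝ) : Sol H w ↔ Ties.Sat H w := by
  unfold Sol Ties.Sat
  refine forall₂_congr fun h _ => ?_
  constructor
  · rintro ⟨h1, h2⟩
    refine ⟨h1, ?_⟩
    cases hb : h.1 with
    | true => exact (h1 hb).le
    | false => exact h2 hb
  · rintro ⟨h1, h2⟩
    exact ⟨h1, fun _ => h2⟩

theorem testOK (N l : ℕ) : Ties.TestOK (isE N) N l := by
  intro H hH hw h hh
  obtain ⟨w₀, hw₀⟩ := hw
  rw [isE_iff (fun g hg => (hH g hg).1) ((sol_iff_sat H w₀).mpr hw₀) hh]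
  unfold Ties.Impl
  constructor
  · rintro ⟨_, h2⟩ w hw
    exact h2 w ((sol_iff_sat H w).mpr hw)
  · intro h2
    refine ⟨?_, fun w hw => h2 w ((sol_iff_sat H w).mp hw)⟩
    cases hb : h.1 with
    | true => exact absurd (h2 w₀ hw₀) ((hw₀ h hh).1 hb).ne'
    | false => rfl

theorem eqs_eq (hH : ∀ h ∈ H, h.2.length = N) : eqs N H = Ties.eqList (isE N) H := by
  unfold eqs Ties.eqList
  refine List.map_congr_left fun h hh => ?_
  exact padZ_of_length (hH h (List.mem_filter.mp hh).1)

theorem rest_eq (hH : ∀ h ∈ H, h.2.length = N) : rest N H = Ties.rest (isE N) H := by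
  unfold rest Ties.rest
  refine List.map_congr_left fun h hh => ?_
  exact padZ_of_length (hH h (List.mem_filter.mp hh).1)

/-- the two forms of the answer -/
theorem centre_eq_ties (core : ℕ → ℕ → List (List ℤ) → List ℤ) (hH : ∀ h ∈ H, h.2.length = N) :
    centre core N l H = Ties.centre (isE N) (core N (parL N l)) N H := by
  unfold centre Ties.centre restP Ties.coreList projE Ties.projP
  rw [eqs_eq hH, rest_eq hH]

theorem lexp_eq (N l : ℕ) : Ties.lexp N l = parL N l := rfl

theorem length_coreGuess (N l : ℕ) (G : List (List ℤ)) : (coreGuess N l G).length = N := by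
  unfold coreGuess hypOf invOf
  rw [length_mulVecZ, List.length_take]
  have h1 := (projZ_spec (N + (coreRun N (parE N l) (parS N l)
    (parK N l * (parS N l * parS N l)) G).1.length) (rowsOf N (parE N l) (parS N l) (coreRun N (parE N l)
    (parS N l) (parK N l * (parS N l * parS N l)) G).1) ?_).2.1
  · rw [h1]
    omega
  · intro r hr
    unfold rowsOf at hr
    obtain ⟨j, _, rfl⟩ := List.mem_map.mp hr
    unfold rowOf
    simp

/-- the guess of the learner -/
def learnerGuess (N l : ℕ) (H : List (Bool × List ℤ)) : List ℤ := centre coreGuess N l H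

theorem length_learnerGuess (N l : ℕ) (H : List (Bool × List ℤ)) : (learnerGuess N l H).length = N :=
  length_centre _ _ _ _

/-- **The guess satisfies a solvable system.** -/
theorem learnerGuess_sat (hH : ∀ h ∈ H, h.2.length = N ∧ ∀ a ∈ h.2, |a| < 2 ^ l) (hw : ∃ w, Sol H w) :
    ∀ h ∈ H, ¬ Ties.Viol h (learnerGuess N l H) := by
  obtain ⟨w, hw⟩ := hw
  unfold learnerGuess
  rw [centre_eq_ties coreGuess fun h hh => (hH h hh).1]
  exact Ties.centre_sat (testOK N l) (length_coreGuess N _) (coreGuess_sat N _) hH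
    ⟨w, (sol_iff_sat H w).mp hw⟩

/-- **The number of mistakes of the learner.** -/
theorem learnerGuess_mistakes (hH : ∀ h ∈ H, h.2.length = N ∧ ∀ a ∈ h.2, |a| < 2 ^ l) (hw : ∃ w, Sol H w)
    (hv : ∀ t (ht : t < H.length), Ties.Viol H[t] (learnerGuess N l (H.take t))) :
    H.length ≤ (N + l + 2) ^ 55 := by
  obtain ⟨w, hw⟩ := hw
  have hget : ∀ k (hk : k < H.length), H.getD k (false, []) = H[k] := fun k hk =>
    List.getD_eq_getElem _ _ hk
  have htake : ∀ k ≤ H.length, (List.range k).map (fun i => H.getD i (false, [])) = H.take k := by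
    intro k hk
    refine List.ext_getElem (by simp [hk]) fun i h1 h2 => ?_
    simp only [List.getElem_map, List.getElem_range, List.getElem_take]
    exact hget i (by simp at h1; omega)
  have h1 := Ties.centre_learn (testOK N l) (length_coreGuess N (parL N l)) (coreGuess_learn N _)
    (fun k => H.getD k (false, [])) H.length
    (fun k hk => by
      simp only [hget k hk]
      exact hH _ (List.getElem_mem _))
    ⟨w, fun k hk => by
      simp only [hget k hk]
      exact (sol_iff_sat H w).mp hw _ (List.getElem_mem _)⟩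
    (fun k hk => by
      simp only [htake k hk.le, hget k hk]
      have h2 := hv k hk
      unfold learnerGuess at h2
      rwa [centre_eq_ties coreGuess fun h hh => (hH h (List.mem_of_mem_take hh)).1] at h2)
  exact h1.le.trans (mistakes_poly N l)

end

/-- **The guess is computed in polynomial time.** -/
theorem polyF_learnerGuess {α : Type*} [TEnc α] {N l : α → ℕ} {H : α → List (Bool × List ℤ)} (hN : PolyF N)
    (hl : PolyF l) (hH : PolyF H) : PolyF (fun x => learnerGuess (N x) (l x) (H x)) :=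
  polyF_centre (core := coreGuess)
    (polyF_coreGuess (N := fun p : ℕ × ℕ × List (List ℤ) => p.1) (l := fun p => p.2.1)
      (G := fun p => p.2.2) PolyF.fst' PolyF.snd'.fst PolyF.snd'.snd) hN hl hH

end Pool.Agent.Lib.MP_4d246d_lc.EB
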