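import Pool.Agent.Lib.MP_4d246d_lc.EB.Facts
import Pool.Agent.Lib.MP_4d246d_lc.EB.EngineDef

/-!
# Inputs from the name of a vertex

`mkInput (n, rows) b c S` is the input with the program `(rows, b, c)` in `n` variables and with the vertex that
has the name `S`; it is a default input if there is no such vertex. It is computed in polynomial time.
-/

namespace Pool.Agent.Simplex.EB

open QP Pool.Agent.Lib.PolyTime

/-! ### Integer data of a program -/

theorem ln_eq_sl {E : Type*} [AddCommGroup E] [Module ℝ E] (S : Sys E) (i : ℕ) (z : E) :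
    S.ln i z = S.sl i z - S.sl i 0 := by
  have := S.ln_sub i 0 z
  rwa [sub_zero] at this

section

variable {m n : ℕ} (L : QLP m n)

/-- the data of a program, without a vertex -/
def inpL : Inp := (n, List.ofFn (fun i => List.ofFn (L.A i)), List.ofFn L.b, List.ofFn L.c, [])

/-- the integer data of a program -/
def staL : Sta := staOf (inpL L)

theorem staL_fst : (staL L).1 = n := rfl

theorem staL_rows : (staL L).2.1 = (List.ofFn fun i => clrRow (List.ofFn (L.A i), L.b i)) ++
    (List.range n).map (fun j => (negZ (unitZ n j), 0)) := by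
  show (List.zip _ _).map clrRow ++ _ = _
  congr 1
  apply List.ext_getElem
  · simp [inpL]
  · intro i h1 h2
    simp [inpL]

theorem staL_len : (staL L).2.1.length = m + n := by
  rw [staL_rows]; simp

theorem rowL_lt {i : ℕ} (hi : i < m) :
    rowOf (staL L) i = clrRow (List.ofFn (L.A ⟨i, hi⟩), L.b ⟨i, hi⟩) := by
  unfold rowOf
  rw [staL_rows, List.getD_append _ _ _ _ (by simpa using hi),
    List.getD_eq_getElem _ _ (by simpa using hi)]
  simp

theorem rowL_ge {j : ℕ} (hj : j < n) : rowOf (staL L) (m + j) = (negZ (unitZ n j), 0) := by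
  unfold rowOf
  rw [staL_rows, List.getD_append_right _ _ _ _ (by simp),
    List.getD_eq_getElem _ _ (by simpa using hj)]
  simp

/-- the integer slack functions are positive multiples of the slack functions -/
theorem slL {i : ℕ} (hi : i < m + n) : ∃ d : ℝ, 0 < d ∧ ∀ x : Fin n → ℝ,
    (sysOf (staL L)).sl i x = d * (ofQ L).sys.sl i x := by
  by_cases him : i < m
  · set l := L.b ⟨i, him⟩ :: List.ofFn (L.A ⟨i, him⟩) with hl
    refine ⟨(denZ l : ℝ), by exact_mod_cast denZ_pos l, fun x => ?_⟩
    have h0 : (ofQ L).sys.sl i x = (L.b ⟨i, him⟩ : ℝ) - ∑ j, (L.A ⟨i, him⟩ j : ℝ) * x j :=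
      (ofQ L).sl_row ⟨i, him⟩ x
    rw [h0]
    show ((rowOf (staL L) i).2 : ℝ) - rdot n (rowOf (staL L) i).1 x = _
    rw [rowL_lt L him]
    unfold clrRow
    show ((((L.b ⟨i, him⟩).num * (denZ l / ((L.b ⟨i, him⟩).den : ℤ)) : ℤ)) : ℝ) -
      rdot n (clr (denZ l) (List.ofFn (L.A ⟨i, him⟩))) x = _
    rw [clr_val (den_dvd List.mem_cons_self), rdot_clr _ (fun j => den_dvd
      (List.mem_cons_of_mem _ (List.mem_ofFn.2 ⟨j, rfl⟩)))]
    ring
  · obtain ⟨j, rfl⟩ := Nat.exists_eq_add_of_le (not_lt.1 him)
    have hj : j < n := by omega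
    refine ⟨1, one_pos, fun x => ?_⟩
    have h0 : (ofQ L).sys.sl (m + j) x = x ⟨j, hj⟩ := (ofQ L).sl_var ⟨j, hj⟩ x
    rw [h0, one_mul]
    show ((rowOf (staL L) (m + j)).2 : ℝ) - rdot n (rowOf (staL L) (m + j)).1 x = _
    rw [rowL_ge L hj]
    unfold rdot
    rw [Finset.sum_eq_single (⟨j, hj⟩ : Fin n)]
    · rw [getD_negZ, getD_unitZ]
      simp [hj]
    · intro k _ hk
      rw [getD_negZ, getD_unitZ]
      have : (k : ℕ) ≠ j := fun h => hk (Fin.ext h)
      simp [this]
    · intro h; exact absurd (Finset.mem_univ _) h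

/-- the same for the linear parts -/
theorem lnL {i : ℕ} (hi : i < m + n) : ∃ d : ℝ, 0 < d ∧ ∀ z : Fin n → ℝ,
    (sysOf (staL L)).ln i z = d * (ofQ L).sys.ln i z := by
  obtain ⟨d, hd, h⟩ := slL L hi
  refine ⟨d, hd, fun z => ?_⟩
  have h1 := ln_eq_sl (sysOf (staL L)) i z
  have h2 := ln_eq_sl (ofQ L).sys i z
  have h3 := h z
  have h4 : (sysOf (staL L)).sl i 0 = d * (ofQ L).sys.sl i 0 := h 0
  rw [h1, h2, h3, h4]
  ring

theorem slL_zero {i : ℕ} (hi : i < m + n) (x : Fin n → ℝ) :
    (sysOf (staL L)).sl i x = 0 ↔ (ofQ L).sys.sl i x = 0 := by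
  obtain ⟨d, hd, h⟩ := slL L hi
  rw [h, mul_eq_zero, or_iff_right hd.ne']

theorem slL_nonneg {i : ℕ} (hi : i < m + n) (x : Fin n → ℝ) :
    0 ≤ (sysOf (staL L)).sl i x ↔ 0 ≤ (ofQ L).sys.sl i x := by
  obtain ⟨d, hd, h⟩ := slL L hi
  rw [h, mul_nonneg_iff_of_pos_left hd]

theorem lnL_zero {i : ℕ} (hi : i < m + n) (z : Fin n → ℝ) :
    (sysOf (staL L)).ln i z = 0 ↔ (ofQ L).sys.ln i z = 0 := by
  obtain ⟨d, hd, h⟩ := lnL L hi
  rw [h, mul_eq_zero, or_iff_right hd.ne']

/-! ### The vertex with a given name -/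

/-- the constraints of a name -/
def tightOf (M : ℕ) (S : List Bool) : List ℕ := (List.range M).filter fun i => S.getD i false

/-- the linear program for the vertex -/
def resL (S : List Bool) : LRes Pnt := lpZ (staL L) (tightOf (m + n) S) (List.range (m + n))

/-- the point of a result -/
def ptOf : LRes Pnt → Pnt
  | .opt p => p
  | _ => ([], 0)

/-- the result is a point -/
def isPt : LRes Pnt → Bool
  | .opt _ => true
  | _ => false

/-- there is a point at which the constraints of the name are tight, and they have full rank -/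
def okL (S : List Bool) : Bool :=
  isPt (resL L S) && (List.range n).all fun j => depO (staL L) (tightOf (m + n) S) (m + j)

/-- the rational point -/
def vtxL (S : List Bool) : Fin n → ℚ := QP.qv n (ptOf (resL L S))

theorem toReal_vtxL (S : List Bool) : toReal (vtxL L S) = valOf (staL L) (ptOf (resL L S)) := by
  funext j
  show (((ratsOf (ptOf (resL L S))).getD j 0 : ℚ) : ℝ) =
    (((ptOf (resL L S)).1.getD j 0 : ℤ) : ℝ) / ((dn (ptOf (resL L S)).2 : ℤ) : ℝ)
  unfold ratsOf
  by_cases hj : (j : ℕ) < (ptOf (resL L S)).1.length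
  · rw [getD_map _ _ _ 0 0 hj]
    push_cast
    rfl
  · rw [List.getD_eq_default _ _ (by simpa using hj), List.getD_eq_default _ _ (by simpa using hj)]
    simp

theorem mem_tightOf {M : ℕ} {S : List Bool} {i : ℕ} :
    i ∈ tightOf M S ↔ i < M ∧ S.getD i false = true := by
  unfold tightOf
  rw [List.mem_filter, List.mem_range]

/-- the point lies in the polyhedron and the constraints of the name are tight -/
theorem mem_of_isPt {S : List Bool} (h : isPt (resL L S) = true) :
    toReal (vtxL L S) ∈ (sysOf (staL L)).Q (tightOf (m + n) S) (List.range (m + n)) := by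
  rw [toReal_vtxL]
  have hsp := spec_orc (staL L)
  cases hr : resL L S with
  | infeas => rw [hr] at h; simp [isPt] at h
  | unb => rw [hr] at h; simp [isPt] at h
  | opt p =>
    have h1 : ∀ i ∈ tightOf (m + n) S, i < (staL L).2.1.length := fun i hi => by
      rw [staL_len]
      exact (mem_tightOf.1 hi).1
    have h2 : ∀ i ∈ List.range (m + n), i < (staL L).2.1.length := fun i hi => by
      rw [staL_len]
      exact List.mem_range.1 hi
    exact (hsp.opt (tightOf (m + n) S) (List.range (m + n)) p h1 h2 hr).1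

theorem dep_of_ok {S : List Bool} (h : okL L S = true) {z : Fin n → ℝ}
    (hz : ∀ i ∈ tightOf (m + n) S, (ofQ L).sys.ln i z = 0) : z = 0 := by
  unfold okL at h
  rw [Bool.and_eq_true, List.all_eq_true] at h
  funext j
  have h1 := h.2 j (List.mem_range.2 j.2)
  have h2 := ((spec_orc (staL L)).dep (tightOf (m + n) S) (m + j) (fun i hi => by
    show i < (staL L).2.1.length
    rw [staL_len]
    exact (mem_tightOf.1 hi).1) (by
    show m + (j : ℕ) < (staL L).2.1.length
    rw [staL_len]
    omega)).1 h1
  have h3 := h2 z fun i hi => (lnL_zero L (mem_tightOf.1 hi).1 z).2 (hz i hi)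
  rw [lnL_zero L (by omega)] at h3
  have h4 : (ofQ L).sys.ln (m + j) z = z j := lnA_var L.A j z
  rw [h4] at h3
  exact h3

theorem vertex_of_ok {S : List Bool} (h : okL L S = true) : L.Vertex (toReal (vtxL L S)) := by
  have h0 := h
  unfold okL at h0
  rw [Bool.and_eq_true] at h0
  have h1 := mem_of_isPt L h0.1
  rw [← ofQ_vertex, RLP.vertex_iff]
  refine ⟨(Sys.mem_P _).2 fun i hi => ?_, fun z hz => ?_⟩
  · exact (slL_nonneg L hi _).1 (h1.2 i (List.mem_range.2 hi))
  · refine dep_of_ok L h fun i hi => ?_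
    have h2 := (mem_tightOf.1 hi).1
    exact hz i h2 ((slL_zero L h2 _).1 (h1.1 i hi))

/-- **The vertex with the given name is found.** -/
theorem ok_of_vertex {S : List Bool} {x : Fin n → ℝ} (hx : (ofQ L).Vertex x)
    (hS : (ofQ L).name x = S) : okL L S = true ∧ toReal (vtxL L S) = x := by
  have hJ : ∀ i ∈ tightOf (m + n) S, i < (staL L).2.1.length := fun i hi => by
    rw [staL_len]
    exact (mem_tightOf.1 hi).1
  have hI : ∀ i ∈ List.range (m + n), i < (staL L).2.1.length := fun i hi => by
    rw [staL_len]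
    exact List.mem_range.1 hi
  have ht : ∀ i, i ∈ tightOf (m + n) S ↔ i < m + n ∧ (ofQ L).sys.sl i x = 0 := by
    intro i
    rw [mem_tightOf]
    refine and_congr_right fun hi => ?_
    rw [← hS]
    exact (ofQ L).getD_name x hi
  have hxP := hx.mem
  have hxV := hx.vx
  have hker : ∀ z : Fin n → ℝ, (∀ i ∈ tightOf (m + n) S, (ofQ L).sys.ln i z = 0) → z = 0 :=
    fun z hz => hxV z fun i hi h0 => hz i ((ht i).2 ⟨hi, h0⟩)
  have hxQ : x ∈ (sysOf (staL L)).Q (tightOf (m + n) S) (List.range (m + n)) := by
    refine ⟨fun i hi => ?_, fun i hi => ?_⟩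
    · obtain ⟨h1, h2⟩ := (ht i).1 hi
      exact (slL_zero L h1 x).2 h2
    · have h1 := List.mem_range.1 hi
      exact (slL_nonneg L h1 x).2 ((Sys.mem_P _).1 hxP i h1)
  have huniq : ∀ y : Fin n → ℝ,
      y ∈ (sysOf (staL L)).Q (tightOf (m + n) S) (List.range (m + n)) → y = x := by
    intro y hy
    have h1 : y - x = 0 := hker _ fun i hi => by
      obtain ⟨h2, h3⟩ := (ht i).1 hi
      have h4 := (slL_zero L h2 y).1 (hy.1 i hi)
      rw [(ofQ L).sys.ln_sub, h3, h4, sub_zero]
    exact sub_eq_zero.1 h1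
  have hsp := spec_orc (staL L)
  have hpt : isPt (resL L S) = true := by
    cases hr : resL L S with
    | infeas =>
      have h1 := hsp.infeas _ _ hJ hI hr
      rw [h1] at hxQ
      exact absurd hxQ (Set.notMem_empty x)
    | unb =>
      obtain ⟨y, hy, h1⟩ := hsp.unb _ _ hJ hI hr ((sysOf (staL L)).c x)
      rw [huniq y hy] at h1
      exact absurd h1 (lt_irrefl _)
    | opt p => rfl
  have hdep : ((List.range n).all fun j => depO (staL L) (tightOf (m + n) S) (m + j)) = true := by
    rw [List.all_eq_true]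
    intro j hj
    have hj' := List.mem_range.1 hj
    refine ((spec_orc (staL L)).dep (tightOf (m + n) S) (m + j) hJ (by
      show m + (j : ℕ) < (staL L).2.1.length
      rw [staL_len]
      omega)).2 fun z hz => ?_
    have h1 : z = 0 := hker z fun i hi => (lnL_zero L (mem_tightOf.1 hi).1 z).1 (hz i hi)
    refine (lnL_zero L (i := m + j) (by omega) z).2 ?_
    rw [h1]
    exact map_zero _
  refine ⟨?_, huniq _ (mem_of_isPt L hpt)⟩
  unfold okL
  rw [hpt, hdep]
  rfl

end

/-! ### The input -/

/-- the program with the given lists of coefficients -/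
def lpL (n : ℕ) (rows : List (List ℚ)) (b c : List ℚ) : QLP rows.length n where
  A i j := (rows.getD i []).getD j 0
  b i := b.getD i 0
  c j := c.getD j 0

/-- a default input -/
def dflt : Input where
  m := 0
  n := 0
  lp := ⟨fun _ _ => 0, fun _ => 0, fun _ => 0⟩
  v := fun _ => 0
  vertex := by
    refine ⟨⟨fun i => i.elim0, fun j => j.elim0⟩, fun a _ b _ _ => ?_⟩
    exact Subsingleton.elim _ _

/-- **The input with the program `(rows, b, c)` and the vertex with the name `S`.** -/
def mkInputL (n : ℕ) (rows : List (List ℚ)) (b c : List ℚ) (S : List Bool) : Input :=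
  if h : okL (lpL n rows b c) S = true then
    ⟨rows.length, n, lpL n rows b c, vtxL (lpL n rows b c) S, vertex_of_ok _ h⟩
  else dflt

theorem mkInputL_pos {n : ℕ} {rows : List (List ℚ)} {b c : List ℚ} {S : List Bool} {x : Fin n → ℝ}
    (hx : (ofQ (lpL n rows b c)).Vertex x) (hS : (ofQ (lpL n rows b c)).name x = S) :
    ∃ (v : Fin n → ℚ) (hv : (lpL n rows b c).Vertex (toReal v)), toReal v = x ∧
      mkInputL n rows b c S = ⟨rows.length, n, lpL n rows b c, v, hv⟩ := by
  obtain ⟨h1, h2⟩ := ok_of_vertex (lpL n rows b c) hx hS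
  refine ⟨_, vertex_of_ok _ h1, h2, ?_⟩
  unfold mkInputL
  rw [dif_pos h1]

/-- **The input for a program given by functions.** -/
theorem mkInputL_spec {m n : ℕ} (L : QLP m n) {S : List Bool} {x : Fin n → ℝ}
    (hx : (ofQ L).Vertex x) (hS : (ofQ L).name x = S) :
    ∃ (v : Fin n → ℚ) (hv : L.Vertex (toReal v)), toReal v = x ∧
      mkInputL n (List.ofFn fun i => List.ofFn (L.A i)) (List.ofFn L.b) (List.ofFn L.c) S =
        ⟨m, n, L, v, hv⟩ := by
  have key : ∀ (rows : List (List ℚ)) (b c : List ℚ), rows.length = m →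
      (∀ (i : Fin m) (j : Fin n), L.A i j = (rows.getD i []).getD j 0) →
      (∀ i : Fin m, L.b i = b.getD i 0) → (∀ j : Fin n, L.c j = c.getD j 0) →
      ∃ (v : Fin n → ℚ) (hv : L.Vertex (toReal v)), toReal v = x ∧
        mkInputL n rows b c S = ⟨m, n, L, v, hv⟩ := by
    intro rows b c hm hA hb hc
    subst hm
    have hL : L = lpL n rows b c := by
      obtain ⟨A, b', c'⟩ := L
      have e1 : A = fun (i : Fin rows.length) (j : Fin n) => (rows.getD (i : ℕ) []).getD (j : ℕ) 0 := by
        funext i j
        exact hA i j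
      have e2 : b' = fun (i : Fin rows.length) => b.getD (i : ℕ) 0 := by
        funext i
        exact hb i
      have e3 : c' = fun (j : Fin n) => c.getD (j : ℕ) 0 := by
        funext j
        exact hc j
      subst e1 e2 e3
      rfl
    subst hL
    exact mkInputL_pos hx hS
  refine key _ _ _ (by simp) (fun i j => ?_) (fun i => ?_) fun j => ?_
  · have e : (List.ofFn fun i => List.ofFn (L.A i)).getD (i : ℕ) [] = List.ofFn (L.A i) := by
      rw [List.getD_eq_getElem _ _ (by simp), List.getElem_ofFn]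
    rw [e, List.getD_eq_getElem _ _ (by simp), List.getElem_ofFn]
  · rw [List.getD_eq_getElem _ _ (by simp), List.getElem_ofFn]
  · rw [List.getD_eq_getElem _ _ (by simp), List.getElem_ofFn]

/-! ### The running time -/

/-- the first `N` entries of a list of rational numbers -/
def padQ (N : ℕ) (v : List ℚ) : List ℚ := (List.range N).map fun j => v.getD j 0

theorem ofFn_getD (N : ℕ) (v : List ℚ) : List.ofFn (fun j : Fin N => v.getD j 0) = padQ N v := by
  unfold padQ
  apply List.ext_getElem
  · simp
  · intro i h1 h2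
    simp

theorem inpL_lpL (n : ℕ) (rows : List (List ℚ)) (b c : List ℚ) :
    inpL (lpL n rows b c) = (n, rows.map (padQ n), padQ rows.length b, padQ n c, []) := by
  unfold inpL lpL
  simp only [ofFn_getD]
  congr 1
  congr 1
  apply List.ext_getElem
  · simp
  · intro i h1 h2
    simp

theorem mkInputL_data (n : ℕ) (rows : List (List ℚ)) (b c : List ℚ) (S : List Bool) :
    (mkInputL n rows b c S).data = if okL (lpL n rows b c) S = true then
      (n, rows.map (padQ n), padQ rows.length b, padQ n c,
        padQ n (ratsOf (ptOf (resL (lpL n rows b c) S)))) else dflt.data := by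
  unfold mkInputL
  split_ifs with h
  · have h1 := inpL_lpL n rows b c
    unfold inpL at h1
    simp only [Prod.mk.injEq] at h1
    unfold Input.data
    simp only [h1.2.1, h1.2.2.1, h1.2.2.2.1]
    congr 4
    exact ofFn_getD n _
  · rfl

section

variable {α : Type*} [TEnc α]

theorem polyF_padQ {N : α → ℕ} {v : α → List ℚ} (hN : PolyF N) (hv : PolyF v) :
    PolyF (fun x => padQ (N x) (v x)) :=
  hN.range.map (h := fun x j => (v x).getD j 0) ((hv.comp PolyF.fst').getDL PolyF.snd' (PolyF.const 0))

theorem polyF_tightOf {M : α → ℕ} {S : α → List Bool} (hM : PolyF M) (hS : PolyF S) :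
    PolyF (fun x => tightOf (M x) (S x)) :=
  hM.range.filter (p := fun x i => (S x).getD i false)
    ((hS.comp PolyF.fst').getDL PolyF.snd' (PolyF.const false))

theorem polyF_ptOf {r : α → LRes Pnt} (hr : PolyF r) : PolyF (fun x => ptOf (r x)) :=
  PolyF.lresCases (o := r) (g1 := fun _ => ([], 0)) (g2 := fun _ => ([], 0)) (h := fun p => p.2) hr
    (PolyF.const _) (PolyF.const _) PolyF.snd' (fun x h => by rw [h]; rfl) (fun x h => by rw [h]; rfl)
    (fun x y h => by rw [h]; rfl)

theorem polyF_isPt {r : α → LRes Pnt} (hr : PolyF r) : PolyF (fun x => isPt (r x)) :=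
  PolyF.lresCases (o := r) (g1 := fun _ => false) (g2 := fun _ => false) (h := fun _ => true) hr
    (PolyF.const _) (PolyF.const _) (PolyF.const _) (fun x h => by rw [h]; rfl)
    (fun x h => by rw [h]; rfl) (fun x y h => by rw [h]; rfl)

/-- **The input is computed in polynomial time.** -/
theorem polyF_mkInputL {n : α → ℕ} {rows : α → List (List ℚ)} {b c : α → List ℚ} {S : α → List Bool}
    (hn : PolyF n) (hrows : PolyF rows) (hb : PolyF b) (hc : PolyF c) (hS : PolyF S) :
    PolyF (fun x => mkInputL (n x) (rows x) (b x) (c x) (S x)) := by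
  have hr : PolyF (fun x => (rows x).map (padQ (n x))) :=
    hrows.map (h := fun x r => padQ (n x) r) (polyF_padQ (hn.comp PolyF.fst') PolyF.snd')
  have hb' := polyF_padQ hrows.length hb
  have hc' := polyF_padQ hn hc
  have hsta : PolyF (fun x => staL (lpL (n x) (rows x) (b x) (c x))) := by
    refine (PolyF.staOf (hn.pair (hr.pair (hb'.pair (hc'.pair (PolyF.const [])))))).congr fun x => ?_
    show staOf _ = staOf (inpL (lpL (n x) (rows x) (b x) (c x)))
    rw [inpL_lpL]
  have hM : PolyF (fun x => (rows x).length + n x) := hrows.length.natAdd hn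
  have hT := polyF_tightOf hM hS
  have hres : PolyF (fun x => resL (lpL (n x) (rows x) (b x) (c x)) (S x)) :=
    PolyF.lpZ hsta hT hM.range
  have hok : PolyF (fun x => okL (lpL (n x) (rows x) (b x) (c x)) (S x)) :=
    (polyF_isPt hres).and (hn.range.all (p := fun x j => depO (staL (lpL (n x) (rows x) (b x) (c x)))
      (tightOf ((rows x).length + n x) (S x)) ((rows x).length + j))
      (PolyF.depO (hsta.comp PolyF.fst') (hT.comp PolyF.fst')
        ((hrows.length.comp PolyF.fst').natAdd PolyF.snd')))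
  have hdata : PolyF (fun x => (mkInputL (n x) (rows x) (b x) (c x) (S x)).data) := by
    refine (PolyF.iteBool hok (hn.pair (hr.pair (hb'.pair (hc'.pair (polyF_padQ hn
      (PolyF.ratsOf (polyF_ptOf hres)))))))
      (PolyF.const dflt.data)).congr fun x => ?_
    exact (mkInputL_data _ _ _ _ _).symm
  exact hdata.of_enc (fun x => x) (fun _ => rfl) fun _ => rfl

end

/-! ### The form used by the rule -/

/-- **The input with matrix `X`, right-hand side `b`, objective `c` and the vertex with the name `S`.** -/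
def mkInput (X : Mat) (b c : List ℚ) (S : List Bool) : Input := mkInputL X.1 X.2 b c S

theorem mkInput_spec {m n : ℕ} (D : QLP m n) {x : Fin n → ℝ} (hx : (ofQ D).Vertex x) :
    ∃ (v : Fin n → ℚ) (hv : D.Vertex (toReal v)), toReal v = x ∧
      mkInput (ofQ D).mat (List.ofFn D.b) (List.ofFn D.c) ((ofQ D).name x) =
        ⟨m, n, D, v, hv⟩ :=
  mkInputL_spec D hx rfl

theorem polyF_mkInput {α : Type*} [TEnc α] {X : α → Mat} {b c : α → List ℚ}
    {S : α → List Bool} (hX : PolyF X) (hb : PolyF b) (hc : PolyF c) (hS : PolyF S) :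
    PolyF (fun a => mkInput (X a) (b a) (c a) (S a)) :=
  polyF_mkInputL hX.fst hX.snd hb hc hS

end Pool.Agent.Simplex.EB
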