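import Pool.Agent.Lib.MP_4d246d_lc.EB.OnePoly
import Pool.Agent.Lib.MP_4d246d_lc.EB.Fin3

/-!
# Question 1 for one entry of tables with the line sums 0, 1, 2
-/

namespace Pool.Agent.Simplex.EB

open Pool.Agent.Lib.PolyTime Pool.Agent.Simplex.QP Turing

/-- Question 1 for one entry of tables with small line sums implies it for all transportation
programs. -/
theorem slimSimplex_of_oneEntry (h : SimplexOn IsOneEntry) : SlimSimplex :=
  SimplexOn.of_red (Q := IsOneEntry) (P := IsTransport) Tab.redT_oneEntry (back := Tab.backT)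
    (backL := Tab.backL) Tab.ofFn_backT Tab.polyF_redT Tab.polyF_backL
    (fun _ _ _ _ h => Tab.run_of_redT h) h

/-- a version of the simplex method is a version for a class of inputs -/
theorem PolySimplex.on (h : PolySimplex) (Q : Input → Prop) : SimplexOn Q := by
  obtain ⟨N, x, s, hrun, ⟨M⟩⟩ := h
  exact ⟨N, x, s, fun I _ => hrun I, ⟨⟨M.toTM2ComputableAux, M.time, fun I => M.outputsFun I.1⟩⟩⟩

/-- **The weakest form of Question 1 is equivalent to it.** -/
theorem polySimplex_iff_oneEntry : PolySimplex ↔ SimplexOn IsOneEntry :=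
  ⟨fun h => h.on _, fun h => polySimplex_iff_slim.2 (slimSimplex_of_oneEntry h)⟩

end Pool.Agent.Simplex.EB
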