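import Pool.Agent.Lib.MP_4d246d_lc.EB.Plus
import Pool.Agent.Lib.MP_4d246d_lc.EB.Rev
import Pool.Agent.Lib.MP_4d246d_lc.QP.Final
import Pool.Agent.Lib.MP_1a14d4_lc.Dec

/-!
# One optimal blind rule

A single blind rule that is, up to polynomials, at least as good as every blind rule computed in
polynomial time, on every program: it restarts, from the current vertex, a given rule `ρ` and all
table machines, with doubling budgets.
-/

namespace Pool.Agent.Simplex.EB

open Pool.Agent.Lib.PolyTime Pool.Agent.Simplex.QP Turing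
open Pool.Agent.Lib.SubForests (parseT foldr_parseStep parseT_word polyF_parseT)
open MHon (univ decW polyF_univ decW_enc polyF_decW)

/-! ### Parts of plays -/

section

variable {m n : ℕ} {D : RLP m n} {x₀ x : Fin n → ℝ}

/-- the name of the current vertex -/
def curN (S : List Bool) (h : List Answer) : List Bool :=
  h.foldl (fun s a => if a.toPair.1 then a.toPair.2 else s) S

theorem Play.curN_eq {U : BlindRule} {h : List Answer} (hp : Play U D x₀ h x) :
    EB.curN (D.name x₀) h = D.name x := by
  induction hp with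
  | start => rfl
  | @moved h x y hp hxy hr ih =>
    unfold EB.curN
    rw [List.foldl_append]
    rfl
  | @refused h x y hp hxy h1 h2 ih =>
    unfold EB.curN at ih ⊢
    rw [List.foldl_append, ih]
    rfl

theorem Play.len_name {U : BlindRule} {h : List Answer} (hp : Play U D x₀ h x) :
    ∀ a ∈ h, a.toPair.2.length = m + n := by
  induction hp with
  | start => simp
  | @moved h x y hp hxy hr ih =>
    intro a ha
    rw [List.mem_append, List.mem_singleton] at ha
    rcases ha with ha | rfl
    · exact ih a ha
    · exact D.length_name y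
  | @refused h x y hp hxy h1 h2 ih =>
    intro a ha
    rw [List.mem_append, List.mem_singleton] at ha
    rcases ha with ha | rfl
    · exact ih a ha
    · exact D.length_name y

theorem Play.eq_of_nil {U : BlindRule} (hp : Play U D x₀ [] x) : x = x₀ := by
  generalize hh : ([] : List Answer) = h at hp
  cases hp with
  | start => rfl
  | moved => simp at hh
  | refused => simp at hh

/-- **Restart.** The part of a play after the first `p` answers is a play from the vertex reached
then, of every rule that makes the same proposals. -/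
theorem Play.cut {U : BlindRule} {h : List Answer} (hp : Play U D x₀ h x) :
    ∀ p ≤ h.length, ∃ y, Play U D x₀ (h.take p) y ∧ ∀ ρ : BlindRule,
      (∀ j, p ≤ j → j < h.length →
        U (D.mat, D.name x₀, h.take j) = ρ (D.mat, D.name y, (h.take j).drop p)) →
      Play ρ D y (h.drop p) x := by
  induction hp with
  | start =>
    intro p hp
    have : p = 0 := by simpa using hp
    subst this
    exact ⟨x₀, Play.start, fun ρ _ => Play.start⟩
  | @moved h x y hp hxy hr ih =>
    intro p hle
    rw [List.length_append, List.length_singleton] at hle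
    rcases Nat.lt_or_ge h.length p with hlt | hge
    · refine ⟨y, ?_, fun ρ _ => ?_⟩
      · rw [List.take_of_length_le (by rw [List.length_append, List.length_singleton]; omega)]
        exact Play.moved hp hxy hr
      · rw [List.drop_of_length_le (by rw [List.length_append, List.length_singleton]; omega)]
        exact Play.start
    · obtain ⟨y', h1, h2⟩ := ih p hge
      refine ⟨y', ?_, fun ρ hρ => ?_⟩
      · rw [List.take_append_of_le_length hge]
        exact h1
      · rw [List.drop_append_of_le_length hge]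
        have h3 : Play ρ D y' (h.drop p) x := h2 ρ fun j hj hj' => by
          have := hρ j hj (by rw [List.length_append, List.length_singleton]; omega)
          rwa [List.take_append_of_le_length hj'.le] at this
        refine Play.moved h3 hxy ?_
        have := hρ h.length hge (by rw [List.length_append, List.length_singleton]; omega)
        rw [List.take_append_of_le_length le_rfl, List.take_length] at this
        rw [← this]
        exact hr
  | @refused h x y hp hxy h1 h2 ih =>
    intro p hle
    rw [List.length_append, List.length_singleton] at hle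
    rcases Nat.lt_or_ge h.length p with hlt | hge
    · refine ⟨x, ?_, fun ρ _ => ?_⟩
      · rw [List.take_of_length_le (by rw [List.length_append, List.length_singleton]; omega)]
        exact Play.refused hp hxy h1 h2
      · rw [List.drop_of_length_le (by rw [List.length_append, List.length_singleton]; omega)]
        exact Play.start
    · obtain ⟨y', h3, h4⟩ := ih p hge
      refine ⟨y', ?_, fun ρ hρ => ?_⟩
      · rw [List.take_append_of_le_length hge]
        exact h3
      · rw [List.drop_append_of_le_length hge]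
        have h5 : Play ρ D y' (h.drop p) x := h4 ρ fun j hj hj' => by
          have := hρ j hj (by rw [List.length_append, List.length_singleton]; omega)
          rwa [List.take_append_of_le_length hj'.le] at this
        have h6 := hρ h.length hge (by rw [List.length_append, List.length_singleton]; omega)
        rw [List.take_append_of_le_length le_rfl, List.take_length] at h6
        refine Play.refused h5 hxy ?_ ?_
        · rw [← h6]
          exact h1
        · rw [← h6]
          exact h2

/-- rules with the same proposals have the same plays -/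
theorem Play.congr {U ρ : BlindRule} {h : List Answer} (hp : Play U D x₀ h x)
    (hρ : ∀ j < h.length, U (D.mat, D.name x₀, h.take j) = ρ (D.mat, D.name x₀, h.take j)) :
    Play ρ D x₀ h x := by
  obtain ⟨y, h1, h2⟩ := hp.cut 0 (Nat.zero_le _)
  rw [List.take_zero] at h1
  obtain rfl := h1.eq_of_nil
  have := h2 ρ fun j _ hj => by rw [List.drop_zero]; exact hρ j hj
  rwa [List.drop_zero] at this

/-- the part of a play between the answers `p` and `q` -/
theorem Play.window {U : BlindRule} {h : List Answer} (hx₀ : D.Vertex x₀)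
    (hp : Play U D x₀ h x) {p q : ℕ} (hpq : p ≤ q) (hq : q ≤ h.length) :
    ∃ y y', D.Vertex y ∧ curN (D.name x₀) (h.take p) = D.name y ∧ ∀ ρ : BlindRule,
      (∀ j, p ≤ j → j < q →
        U (D.mat, D.name x₀, h.take j) = ρ (D.mat, D.name y, (h.take j).drop p)) →
      Play ρ D y ((h.take q).drop p) y' := by
  obtain ⟨y', h1, -⟩ := hp.cut q hq
  have hlen : (h.take q).length = q := by rw [List.length_take]; omega
  obtain ⟨y, h2, h3⟩ := h1.cut p (by rw [hlen]; exact hpq)
  refine ⟨y, y', h2.vertex hx₀, ?_, fun ρ hρ => h3 ρ fun j hj hj' => ?_⟩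
  · have := h2.curN_eq
    rwa [List.take_take, min_eq_left hpq] at this
  · rw [hlen] at hj'
    rw [List.take_take, min_eq_left hj'.le]
    exact hρ j hj hj'

end

/-! ### Rules given by tables -/

/-- decode a proposal -/
def decP (t : T) : Option (List Bool) := if t = T.nil then none else some (decW t.left)

theorem decP_enc (o : Option (List Bool)) : decP (enc o) = o := by
  unfold decP
  cases o with
  | none => rw [enc_none, if_pos rfl]
  | some S =>
    rw [enc_some, if_neg (by simp)]
    show some (decW (enc S)) = some S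
    rw [decW_enc]

theorem polyF_decP : PolyF decP :=
  PolyF.ite (PolyF.eqConst T.nil PolyF.id) (PolyF.const _) (polyF_decW.comp PolyF.left).some

/-- the rule of the table `e` with time `k` -/
def tabRule (e : T) (k : ℕ) : BlindRule := fun x => decP (parseT (univ e ((code x).map some) k))

theorem exists_tabRule {ρ : BlindRule} (hρ : ρ.Poly) : ∃ (e : T) (P : Polynomial ℕ),
    ∀ k x, P.eval (code x).length ≤ k → tabRule e k x = ρ x := by
  obtain ⟨e, P, h⟩ := exists_table_bool hρ
  refine ⟨e, P, fun k x hk => ?_⟩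
  unfold tabRule
  rw [h x k hk]
  show decP (parseT (wd false true (ρ x))) = ρ x
  rw [Pool.Agent.Lib.SubForests.parseT_wd, decP_enc]

section

variable {α : Type} [TEnc α]

theorem polyF_tabRule {e : α → T} {k : α → ℕ}
    {x : α → (ℕ × List (List ℚ)) × List Bool × List Answer} (he : PolyF e) (hk : PolyF k)
    (hx : PolyF x) : PolyF (fun a => tabRule (e a) (k a) (x a)) := by
  have hw : PolyF (fun a => wd false true (x a)) := Pool.Agent.Lib.SubForests.polyF_wd hx
  have h2 : PolyF (fun a => (wd false true (x a)).map some) :=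
    hw.map (h := fun _ b => some b) PolyF.snd'.some
  exact polyF_decP.comp (polyF_parseT (polyF_univ.comp (he.pair (h2.pair hk))))

end

/-! ### The list of all tables -/

/-- the tree whose word is a prefix of the bits of `k` -/
def tre (k : ℕ) : T := parseT (Nat.bits k)

theorem polyF_tre {α : Type} [TEnc α] {k : α → ℕ} (hk : PolyF k) : PolyF (fun a => tre (k a)) :=
  polyF_parseT hk.binOfNat.bits

/-- numbers whose bits begin with a given word -/
theorem exists_bits (w : List Bool) (q : ℕ) (hq : q ≠ 0) :
    ∃ k, Nat.bits k = w ++ Nat.bits q ∧ 2 ^ w.length * q ≤ k ∧ k < 2 ^ w.length * (q + 1) := by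
  induction w with
  | nil => exact ⟨q, rfl, by simp, by simp⟩
  | cons b w ih =>
    obtain ⟨k, h1, h2, h3⟩ := ih
    have hk : k ≠ 0 := by
      have h4 : 0 < 2 ^ w.length * q := Nat.mul_pos (by positivity) (Nat.pos_of_ne_zero hq)
      omega
    refine ⟨Nat.bit b k, ?_, ?_, ?_⟩
    · rw [Nat.bits_append_bit _ _ fun h => absurd h hk, h1]
      rfl
    · rw [List.length_cons, pow_succ, Nat.bit_val]
      have : 2 ^ w.length * 2 * q = 2 * (2 ^ w.length * q) := by ring
      omega
    · rw [List.length_cons, pow_succ, Nat.bit_val]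
      have h4 : 2 ^ w.length * 2 * (q + 1) = 2 * (2 ^ w.length * (q + 1)) := by ring
      have h5 : b.toNat ≤ 1 := Bool.toNat_le b
      omega

/-- every tree comes again and again, with bounded gaps -/
theorem exists_tre (e : T) : ∃ c : ℕ, ∀ R : ℕ, ∃ k, R ≤ k ∧ k ≤ R + c ∧ tre k = e := by
  refine ⟨2 * 2 ^ (e.word false true).length, fun R => ?_⟩
  set W := 2 ^ (e.word false true).length with hW
  have hW0 : 0 < W := by positivity
  obtain ⟨k, h1, h2, h3⟩ := exists_bits (e.word false true) (R / W + 1) (Nat.succ_ne_zero _)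
  rw [← hW] at h2 h3
  have h4 := Nat.div_add_mod R W
  have h5 := Nat.mod_lt R hW0
  refine ⟨k, ?_, ?_, ?_⟩
  · have : W * (R / W + 1) = W * (R / W) + W := by ring
    omega
  · have : W * (R / W + 1 + 1) = W * (R / W) + 2 * W := by ring
    omega
  · unfold tre Pool.Agent.Lib.SubForests.parseT
    rw [h1, List.foldr_append, foldr_parseStep]
    rfl

/-! ### The rule -/

/-- the largest power of two that is at most `L` -/
def hpw (L : ℕ) : ℕ := 2 ^ (Nat.size L - 1)

theorem hpw_eq {L k : ℕ} (h1 : 2 ^ k ≤ L) (h2 : L < 2 ^ (k + 1)) :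
    Nat.size L = k + 1 ∧ hpw L = 2 ^ k := by
  have h3 : Nat.size L ≤ k + 1 := Nat.size_le.2 h2
  have h4 : k < Nat.size L := Nat.lt_size.2 h1
  have h5 : Nat.size L = k + 1 := by omega
  exact ⟨h5, by unfold hpw; rw [h5, Nat.add_sub_cancel]⟩

theorem hpw_le {L : ℕ} (hL : L ≠ 0) : hpw L ≤ L := by
  have h1 : 0 < Nat.size L := Nat.size_pos.2 (Nat.pos_of_ne_zero hL)
  exact Nat.lt_size.1 (by omega)

theorem polyF_hpw {α : Type} [TEnc α] {L : α → ℕ} (hL : PolyF L) :
    PolyF (fun a => hpw (L a)) := by
  have h1 : PolyF (fun a => Nat.size (L a) - 1) := hL.natSize.natSub (PolyF.const 1)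
  have h2 : PolyF (fun a => (⟨((2 : ℤ) ^ (Nat.size (L a) - 1)).natAbs⟩ : Bin)) :=
    h1.intTwoPow.intNatAbs
  have h3 := PolyF.natOfBin h2 (hL.natAdd (PolyF.const 1))
  refine h3.congr fun a => ?_
  have h4 : ((2 : ℤ) ^ (Nat.size (L a) - 1)).natAbs = 2 ^ (Nat.size (L a) - 1) := by
    rw [Int.natAbs_pow]
    rfl
  dsimp only
  rw [h4]
  unfold hpw
  refine min_eq_left ?_
  rcases Nat.eq_zero_or_pos (L a) with h | h
  · rw [h]
    simp
  · exact (hpw_le (L := L a) (by omega)).trans (Nat.le_succ _)

/-- number of answers before the part of the schedule that contains the moment `ℓ` -/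
def lo (ℓ : ℕ) : ℕ :=
  if 2 * (ℓ + 2) < 3 * hpw (ℓ + 2) then hpw (ℓ + 2) - 2 else hpw (ℓ + 2) + hpw (ℓ + 2) / 2 - 2

/-- **the optimal rule** -/
def optRule (ρ : BlindRule) : BlindRule := fun x =>
  if 2 * (x.2.2.length + 2) < 3 * hpw (x.2.2.length + 2) then
    ρ (x.1, curN x.2.1 (x.2.2.take (lo x.2.2.length)), x.2.2.drop (lo x.2.2.length))
  else tabRule (tre (Nat.size (x.2.2.length + 2))) (hpw (x.2.2.length + 2) / 2)
    (x.1, curN x.2.1 (x.2.2.take (lo x.2.2.length)), x.2.2.drop (lo x.2.2.length))

/-- in the first half of a round -/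
theorem lo_first {k ℓ : ℕ} (h1 : 2 ^ (k + 1) ≤ ℓ + 2) (h2 : ℓ + 2 < 3 * 2 ^ k) :
    2 * (ℓ + 2) < 3 * hpw (ℓ + 2) ∧ lo ℓ = 2 ^ (k + 1) - 2 := by
  have h3 : 2 ^ (k + 1) = 2 * 2 ^ k := by ring
  have h4 : 2 ^ (k + 1 + 1) = 4 * 2 ^ k := by ring
  obtain ⟨-, h5⟩ := hpw_eq (L := ℓ + 2) h1 (by omega)
  have h6 : 2 * (ℓ + 2) < 3 * hpw (ℓ + 2) := by rw [h5]; omega
  refine ⟨h6, ?_⟩
  unfold lo
  rw [if_pos h6, h5]

/-- in the second half of a round -/
theorem lo_second {k ℓ : ℕ} (h1 : 3 * 2 ^ k ≤ ℓ + 2) (h2 : ℓ + 2 < 4 * 2 ^ k) :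
    ¬ 2 * (ℓ + 2) < 3 * hpw (ℓ + 2) ∧ lo ℓ = 3 * 2 ^ k - 2 ∧ Nat.size (ℓ + 2) = k + 2 ∧
      hpw (ℓ + 2) / 2 = 2 ^ k := by
  have h3 : 2 ^ (k + 1) = 2 * 2 ^ k := by ring
  have h4 : 2 ^ (k + 1 + 1) = 4 * 2 ^ k := by ring
  obtain ⟨h7, h5⟩ := hpw_eq (L := ℓ + 2) (k := k + 1) (by omega) (by omega)
  have h6 : ¬ 2 * (ℓ + 2) < 3 * hpw (ℓ + 2) := by rw [h5]; omega
  have h8 : hpw (ℓ + 2) / 2 = 2 ^ k := by rw [h5]; omega
  refine ⟨h6, ?_, h7, h8⟩
  unfold lo
  rw [if_neg h6, h8, h5]
  omega

/-! ### Polynomial time -/

theorem polyF_curN {α : Type} [TEnc α] {S : α → List Bool} {h : α → List Answer} (hS : PolyF S)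
    (hh : PolyF h) : PolyF (fun a => curN (S a) (h a)) := by
  have hp : PolyF (fun a => (h a).map (fun b => b.toPair)) :=
    hh.map (h := fun _ b => b.toPair) (polyF_toPair PolyF.snd')
  refine (PolyF.foldl_inv (l := fun a => (h a).map (fun b => b.toPair)) (i := S)
    (f := fun _ s b => if b.1 = true then b.2 else s) hp hS
    (PolyF.iteBool PolyF.snd'.snd.fst PolyF.snd'.snd.snd PolyF.snd'.fst)
    (fun a s => sz s ≤ sz (S a) + sz ((h a).map (fun b => b.toPair)))
    (fun a => sz (S a) + sz ((h a).map (fun b => b.toPair)))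
    (hS.pbd.add hp.pbd) (fun a => Nat.le_add_right _ _) ?_ (fun _ _ h => h)).congr fun a => ?_
  · intro a s b hb hs
    split_ifs
    · have h1 := sz_mem hb
      have h2 : sz b = 1 + sz b.1 + sz b.2 := rfl
      omega
    · exact hs
  · unfold curN
    rw [List.foldl_map]

theorem polyF_optRule {ρ : BlindRule} (hρ : PolyF ρ) : PolyF (optRule ρ) := by
  have hL : PolyF (fun x : (ℕ × List (List ℚ)) × List Bool × List Answer =>
      x.2.2.length + 2) := PolyF.snd'.snd.length.natAdd (PolyF.const 2)
  have hH := polyF_hpw hL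
  have hc : PolyF (fun x : (ℕ × List (List ℚ)) × List Bool × List Answer =>
      decide (2 * (x.2.2.length + 2) < 3 * hpw (x.2.2.length + 2))) :=
    PolyF.natLt ((PolyF.const 2).natMul hL) ((PolyF.const 3).natMul hH)
  have hlo : PolyF (fun x : (ℕ × List (List ℚ)) × List Bool × List Answer =>
      lo x.2.2.length) := by
    unfold lo
    exact PolyF.ite hc (hH.natSub (PolyF.const 2))
      ((hH.natAdd (hH.natDiv (PolyF.const 2))).natSub (PolyF.const 2))
  have hx : PolyF (fun x : (ℕ × List (List ℚ)) × List Bool × List Answer =>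
      (x.1, curN x.2.1 (x.2.2.take (lo x.2.2.length)), x.2.2.drop (lo x.2.2.length))) :=
    PolyF.fst'.pair ((polyF_curN PolyF.snd'.fst (PolyF.take hlo PolyF.snd'.snd)).pair
      (PolyF.drop hlo PolyF.snd'.snd))
  unfold optRule
  exact PolyF.ite hc (hρ.comp hx)
    (polyF_tabRule (polyF_tre hL.natSize) (hH.natDiv (PolyF.const 2)) hx)

end Pool.Agent.Simplex.EB
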