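import Pool.Agent.Lib.MP_4d246d_lc.EB.Opt

/-!
# One optimal blind rule: the bounds
-/

namespace Pool.Agent.Simplex.EB

open Pool.Agent.Lib.PolyTime Pool.Agent.Simplex.QP Turing

/-- **The optimal rule is at least as good as the given rule, up to the factor six.** -/
theorem solves_optRule_self {ρ : BlindRule} {m n B : ℕ} {D : RLP m n} (h : Solves ρ D B) :
    Solves (optRule ρ) D (6 * B + 3) := by
  rw [solves_iff] at h ⊢
  intro x₀ hx₀ hh x hp
  by_contra hlen
  rw [not_le] at hlen
  set k := Nat.size B with hk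
  have h1 : B < 2 ^ k := Nat.lt_size_self B
  have h2 : 2 ^ k ≤ 2 * B + 1 := pow_size_le B
  have h3 : 2 ^ (k + 1) = 2 * 2 ^ k := by ring
  obtain ⟨y, y', hy, hcur, hw⟩ := hp.window hx₀ (p := 2 ^ (k + 1) - 2) (q := 3 * 2 ^ k - 2)
    (by omega) (by omega)
  have h4 := hw ρ fun j hj hj' => by
    obtain ⟨h5, h6⟩ := lo_first (k := k) (ℓ := j) (by omega) (by omega)
    have h7 : (hh.take j).length = j := by rw [List.length_take]; omega
    unfold optRule
    dsimp only
    rw [h7, if_pos h5, h6, List.take_take, min_eq_left hj, hcur]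
  have h8 := h y hy _ _ h4
  rw [List.length_drop, List.length_take] at h8
  omega

/-- bound for the length of the data of a blind rule -/
theorem length_code_le {m n : ℕ} (D : RLP m n) {S : List Bool} (hS : S.length = m + n)
    {g : List Answer} (hg : ∀ a ∈ g, a.toPair.2.length = m + n) {s : ℕ}
    (hs : D.size + g.length ≤ s) :
    (code (D.mat, S, g)).length ≤ 2 * (2 + 3 * s + (3 + 2 * s) * s) + 1 := by
  have h0 : (code (D.mat, S, g)).length = 2 * sz (D.mat, S, g) + 1 := length_wd _ _ _
  have h1 : D.size = 2 * sz D.mat + 1 := length_wd _ _ _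
  have h2 : sz (D.mat, S, g) = 1 + sz D.mat + (1 + sz S + sz g) := rfl
  have h3 : sz S ≤ 2 * (m + n) := by rw [← hS]; exact sz_bits_le S
  have h4 : m + n ≤ sz D.mat := by
    have e1 : sz D.mat = 1 + n + sz D.mat.2 := by
      rw [sz_prod]
      congr 2
      exact sz_nat n
    have e2 : m ≤ sz D.mat.2 := by
      have := length_le_sz D.mat.2
      have e3 : D.mat.2.length = m := by
        unfold RLP.mat
        rw [List.length_ofFn]
      omega
    omega
  have h5 : ∀ a ∈ g, sz a ≤ 2 + 2 * (m + n) := by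
    intro a ha
    have e1 : sz a = sz a.toPair := sz_answer a
    have e2 : sz a.toPair = 1 + sz a.toPair.1 + sz a.toPair.2 := rfl
    have e3 : sz a.toPair.2 ≤ 2 * (m + n) := by
      rw [← hg a ha]
      exact sz_bits_le _
    have e4 := sz_bool_le a.toPair.1
    omega
  have h6 := sz_le_of_forall h5
  have h7 : (2 + 2 * (m + n) + 1) * g.length ≤ (3 + 2 * s) * s :=
    Nat.mul_le_mul (by omega) (by omega)
  rw [h0, h2]
  omega

/-- **Optimality.** The optimal rule is, up to a polynomial, at least as good as every blind rule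
computed in polynomial time, on every program. -/
theorem solves_optRule (ρ₀ : BlindRule) {ρ : BlindRule} (hρ : ρ.Poly) : ∃ Q : Polynomial ℕ,
    ∀ (m n : ℕ) (D : RLP m n) (B : ℕ), Solves ρ D B →
      Solves (optRule ρ₀) D (Q.eval (D.size + B)) := by
  obtain ⟨e, P, hP⟩ := exists_tabRule hρ
  obtain ⟨c, hc⟩ := exists_tre e
  set R : Polynomial ℕ := 2 * (2 + 3 * Polynomial.X + (3 + 2 * Polynomial.X) * Polynomial.X) + 1
    with hR
  refine ⟨Polynomial.C (4 * 2 ^ c) * (2 * (P.comp R + Polynomial.X + 1) + 1),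
    fun m n D B h => ?_⟩
  rw [solves_iff] at h ⊢
  intro x₀ hx₀ hh x hp
  set s := D.size + B with hs
  set N := P.eval (R.eval s) + s + 1 with hN
  obtain ⟨K, hK1, hK2, hK3⟩ := hc (Nat.size N + 2)
  obtain ⟨k, rfl⟩ : ∃ k, K = k + 2 := ⟨K - 2, by omega⟩
  have h1 : N < 2 ^ k := (Nat.lt_size_self N).trans_le
    (Nat.pow_le_pow_right (by norm_num) (by omega))
  have h2 : 2 ^ k ≤ (2 * N + 1) * 2 ^ c := by
    calc 2 ^ k ≤ 2 ^ (Nat.size N + c) := Nat.pow_le_pow_right (by norm_num) (by omega)
      _ = 2 ^ Nat.size N * 2 ^ c := pow_add _ _ _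
      _ ≤ (2 * N + 1) * 2 ^ c := Nat.mul_le_mul_right _ (pow_size_le N)
  have hev : (Polynomial.C (4 * 2 ^ c) * (2 * (P.comp R + Polynomial.X + 1) + 1)).eval s =
      4 * ((2 * N + 1) * 2 ^ c) := by
    simp only [Polynomial.eval_mul, Polynomial.eval_C, Polynomial.eval_add, Polynomial.eval_comp,
      Polynomial.eval_X, Polynomial.eval_one, Polynomial.eval_ofNat]
    rw [hN]
    ring
  rw [hev]
  by_contra hlen
  rw [not_le] at hlen
  have hBN : B + 1 ≤ N := by omega
  obtain ⟨y, y', hy, hcur, hw⟩ := hp.window hx₀ (p := 3 * 2 ^ k - 2)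
    (q := 3 * 2 ^ k - 2 + (B + 1)) (by omega) (by omega)
  set g := (hh.take (3 * 2 ^ k - 2 + (B + 1))).drop (3 * 2 ^ k - 2) with hg
  have hgl : g.length = B + 1 := by
    rw [hg, List.length_drop, List.length_take]
    omega
  have h4 : Play (tabRule e (2 ^ k)) D y g y' := hw (tabRule e (2 ^ k)) fun j hj hj' => by
    obtain ⟨h5, h6, h9, h10⟩ := lo_second (k := k) (ℓ := j) (by omega) (by omega)
    have h7 : (hh.take j).length = j := by rw [List.length_take]; omega
    unfold optRule
    dsimp only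
    rw [h7, if_neg h5, h6, List.take_take, min_eq_left hj, hcur, h9, h10, hK3]
  have h5 : Play ρ D y g y' := h4.congr fun j hj => by
    refine hP _ _ ?_
    have e1 : (g.take j).length ≤ B := by
      rw [List.length_take]
      omega
    have e2 := length_code_le D (D.length_name y) (g := g.take j)
      (fun a ha => h4.len_name a (List.mem_of_mem_take ha)) (s := s) (by omega)
    have e3 : R.eval s = 2 * (2 + 3 * s + (3 + 2 * s) * s) + 1 := by
      rw [hR]
      simp only [Polynomial.eval_mul, Polynomial.eval_add, Polynomial.eval_X,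
        Polynomial.eval_one, Polynomial.eval_ofNat]
    have e4 := peval_mono P (e2.trans_eq e3.symm)
    omega
  have h8 := h y hy _ _ h5
  omega

end Pool.Agent.Simplex.EB
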