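import Pool.Agent.Lib.MP_4d246d_lc.EB.MkInput
import Pool.Agent.Lib.MP_4d246d_lc.EB.Facts
import Pool.Agent.Lib.MP_4d246d_lc.EB.EngineDef
import Pool.Agent.Lib.MP_4d246d_lc.EB.Mistakes

/-!
# The blind rule (definitions)
-/

namespace Pool.Agent.Simplex.EB

open Pool.Agent.Lib.PolyTime Pool.Agent.Simplex.QP Pool.Agent.Lib.MP_4d246d_lc.EB

/-- is the fact violated by the integer vector? -/
def viol (f : Fact) (w : List ℤ) : Bool :=
  if f.1 then decide (dotZ f.2 w ≤ 0) else decide (dotZ f.2 w < 0)

/-- a fact about `N` unknowns, with coefficients below `2 ^ l` -/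
def GoodF (N l : ℕ) (f : Fact) : Prop := f.2.length = N ∧ ∀ a ∈ f.2, |a| < 2 ^ l

/-- each fact of the list is violated by the guess made from the earlier ones -/
def MChain (g : List Fact → List ℤ) (H : List Fact) : Prop :=
  ∀ t < H.length, viol (H.getD t (true, [])) (g (H.take t)) = true

/-- bound for the bit length of the coefficients of the facts -/
def bits (e : ℕ) (X : Mat) : ℕ := (sz X + 2) ^ e

/-- guess for the right-hand sides -/
def gb (e : ℕ) (X : Mat) (H : List Fact) : List ℤ := learnerGuess X.2.length (bits e X) H

/-- guess for the objective -/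
def gc (e : ℕ) (X : Mat) (H : List Fact) : List ℤ := learnerGuess X.1 (bits e X) H

/-- bound for the number of facts -/
def fuel (e : ℕ) (X : Mat) : ℕ := (X.2.length + X.1 + bits e X + 2) ^ 55 + 1

/-- append the first fact of `F` that is violated by the current guess -/
def syncStep (g : List Fact → List ℤ) (F H : List Fact) : List Fact :=
  match F.find? (fun f => viol f (g H)) with
  | none => H
  | some f => H ++ [f]

/-- append violated facts of `F` until the guess satisfies all of them -/
def sync (g : List Fact → List ℤ) (fuel : ℕ) (F H : List Fact) : List Fact :=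
  (syncStep g F)^[fuel] H

/-- the integer vectors of a matrix -/
def genM (X : Mat) : List (List ℤ) := gZ X.1 X.2

/-- the name of the point `x` for the scaled right-hand sides `w` -/
def nmZ (G : List (List ℤ)) (w : List ℤ) (x : List ℚ) : List Bool :=
  (List.range G.length).map (fun i =>
    decide (w.getD i 0 * denZ x + dotZ (G.getD i []) (clr (denZ x) x) = 0))

/-- the constraints common to two names -/
def meet (S T : List Bool) : List Bool := List.zipWith (fun a b => a && b) S T

/-- right-hand sides from scaled right-hand sides -/
def unsc (X : Mat) (w : List ℤ) : List ℚ :=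
  List.zipWith (fun (r : List ℚ) (a : ℤ) => (a : ℚ) / ((denZ r : ℤ) : ℚ)) X.2 w

/-- the guessed program, started at the vertex with name `S` -/
noncomputable def inp (e : ℕ) (X : Mat) (Hb Hc : List Fact) (S : List Bool) : Input :=
  mkInput X (unsc X (gb e X Hb)) ((gc e X Hc).map (fun a : ℤ => (a : ℚ))) S

section

variable (W : Engine) (e : ℕ) (X : Mat)

/-- states: facts about the right-hand sides, facts about the objective, name of the current
vertex, state of the simulated machine -/
abbrev RSt (W : Engine) : Type := List Fact × List Fact × List Bool × W.σ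

/-- learn until the name `S` is consistent with the guess -/
def syncB (S : List Bool) (H : List Fact) : List Fact :=
  sync (gb e X) (fuel e X) (nameFacts X.2.length X.1 (genM X) S) H

/-- start the machine at the vertex with name `S` of the guessed program -/
noncomputable def startR (Hb Hc : List Fact) (S : List Bool) : RSt W :=
  (Hb, Hc, S, W.init (inp e X Hb Hc S))

/-- name of the vertex reported by the machine -/
def nameR (Hb : List Fact) (q : W.σ) : List Bool :=
  nmZ (genM X) (gb e X Hb) (W.report q).1

/-- name of the edge that the machine is going to follow -/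
def target (s : RSt W) : Option (List Bool) :=
  if (W.report s.2.2.2).2 = .pivot then
    some (meet (nameR W e X s.1 s.2.2.2) (nameR W e X s.1 (W.next s.2.2.2)))
  else none

/-- reaction to an answer -/
noncomputable def upd (s : RSt W) (a : Answer) : RSt W :=
  match a with
  | .moved S' =>
    if nameR W e X s.1 (W.next s.2.2.2) = S' then (s.1, s.2.1, S', W.next s.2.2.2)
    else startR W e X (syncB e X S' s.1) s.2.1 S'
  | .refused S' =>
    match target W e X s with
    | some T => startR W e X s.1
        (s.2.1 ++ [(false, negZ (dirZ X.1 (genM X) s.2.2.1 T))]) s.2.2.1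
    | none => startR W e X s.1
        (s.2.1 ++ [(true, dirZ X.1 (genM X) s.2.2.1 (meet s.2.2.1 S'))]) s.2.2.1

/-- the first state -/
noncomputable def begin (S : List Bool) : RSt W := startR W e X (syncB e X S []) [] S

end

/-- **the blind rule** for bounded programs -/
noncomputable def rule (W : Engine) (e : ℕ) : BlindRule := fun x =>
  target W e x.1 (x.2.2.foldl (upd W e x.1) (begin W e x.1 x.2.1))

/-- the coefficients of the facts are small -/
def Small (e : ℕ) (X : Mat) : Prop :=
  (∀ S : List Bool, S.length = (genM X).length →
    ∀ f ∈ nameFacts X.2.length X.1 (genM X) S, GoodF X.2.length (bits e X) f) ∧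
  ∀ S T : List Bool, S.length = (genM X).length → T.length = (genM X).length → ∀ b : Bool,
    GoodF X.1 (bits e X) (b, dirZ X.1 (genM X) S T) ∧
      GoodF X.1 (bits e X) (b, negZ (dirZ X.1 (genM X) S T))

/-- lists of facts that are used -/
def Used (e N : ℕ) (X : Mat) (H : List Fact) : Prop :=
  (∀ f ∈ H, GoodF N (bits e X) f) ∧ H.length < fuel e X

end Pool.Agent.Simplex.EB
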