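import Pool.Agent.Lib.MP_4d246d_lc.EB.Sync
import Pool.Agent.Lib.MP_4d246d_lc.EB.AnsEnc
import Pool.Agent.Lib.MP_4d246d_lc.QP.Final

/-!
# The rule is computed in polynomial time
-/

namespace Pool.Agent.Simplex.EB

open Pool.Agent.Lib.PolyTime Pool.Agent.Simplex.QP Function Pool.Agent.Lib.MP_4d246d_lc.EB

variable {α : Type*} [TEnc α] (W : Engine) (e : ℕ)

/-- case distinction on an answer -/
theorem polyF_answer {γ : Type*} [TEnc γ] {a : α → Answer} {f : α → γ}
    {g h : α × List Bool → γ} (ha : PolyF a) (hg : PolyF g) (hh : PolyF h)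
    (h1 : ∀ x S, a x = .moved S → f x = g (x, S))
    (h2 : ∀ x S, a x = .refused S → f x = h (x, S)) : PolyF f := by
  have hp := polyF_toPair ha
  refine (PolyF.iteBool (c := fun x => (a x).toPair.1) hp.fst (hg.comp (PolyF.id.pair hp.snd))
    (hh.comp (PolyF.id.pair hp.snd))).congr fun x => ?_
  cases hx : a x with
  | moved S => simp [Answer.toPair, h1 x S hx]
  | refused S => simp [Answer.toPair, h2 x S hx]

theorem polyF_bits {X : α → Mat} (hX : PolyF X) : PolyF (fun a => bits e (X a)) :=
  (hX.szFun.natAdd (PolyF.const 2)).natPow e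

theorem polyF_fuel {X : α → Mat} (hX : PolyF X) : PolyF (fun a => fuel e (X a)) :=
  ((((hX.snd.length.natAdd hX.fst).natAdd (polyF_bits e hX)).natAdd
    (PolyF.const 2)).natPow 55).succ

theorem polyF_gb {X : α → Mat} {H : α → List Fact} (hX : PolyF X) (hH : PolyF H) :
    PolyF (fun a => gb e (X a) (H a)) :=
  polyF_learnerGuess hX.snd.length (polyF_bits e hX) hH

theorem polyF_gc {X : α → Mat} {H : α → List Fact} (hX : PolyF X) (hH : PolyF H) :
    PolyF (fun a => gc e (X a) (H a)) :=
  polyF_learnerGuess hX.fst (polyF_bits e hX) hH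

theorem polyF_genM {X : α → Mat} (hX : PolyF X) : PolyF (fun a => genM (X a)) :=
  PolyF.gZ hX.fst hX.snd

theorem polyF_viol {f : α → Fact} {w : α → List ℤ} (hf : PolyF f) (hw : PolyF w) :
    PolyF (fun a => viol (f a) (w a)) :=
  PolyF.iteBool hf.fst ((PolyF.dotZ hf.snd hw).intLe (PolyF.const 0))
    ((PolyF.dotZ hf.snd hw).intLt (PolyF.const 0))

theorem polyF_meet {S T : α → List Bool} (hS : PolyF S) (hT : PolyF T) :
    PolyF (fun a => meet (S a) (T a)) :=
  hS.zipWith (h := fun _ a b => a && b) hT (PolyF.snd'.fst.and PolyF.snd'.snd)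

theorem polyF_unsc {X : α → Mat} {w : α → List ℤ} (hX : PolyF X) (hw : PolyF w) :
    PolyF (fun a => unsc (X a) (w a)) :=
  hX.snd.zipWith (h := fun _ (r : List ℚ) (a : ℤ) => (a : ℚ) / ((denZ r : ℤ) : ℚ)) hw
    ((PolyF.ratOfInt PolyF.snd'.snd).ratDiv (PolyF.ratOfInt (PolyF.denZ PolyF.snd'.fst)))

theorem polyF_nmZ {G : α → List (List ℤ)} {w : α → List ℤ} {x : α → List ℚ} (hG : PolyF G)
    (hw : PolyF w) (hx : PolyF x) : PolyF (fun a => nmZ (G a) (w a) (x a)) := by
  refine hG.length.range.map (h := fun a i => decide ((w a).getD i 0 * denZ (x a) +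
    dotZ ((G a).getD i []) (clr (denZ (x a)) (x a)) = 0)) ?_
  have hG1 : PolyF (fun p : α × ℕ => G p.1) := hG.comp PolyF.fst'
  have hw1 : PolyF (fun p : α × ℕ => w p.1) := hw.comp PolyF.fst'
  have hx1 : PolyF (fun p : α × ℕ => x p.1) := hx.comp PolyF.fst'
  exact (((hw1.getDL PolyF.snd' (PolyF.const 0)).intMul (PolyF.denZ hx1)).intAdd
    (PolyF.dotZ (hG1.getDL PolyF.snd' (PolyF.const []))
      (PolyF.clr (PolyF.denZ hx1) hx1))).intEq (PolyF.const 0)

theorem sz_sync_le {g : List Fact → List ℤ} (k : ℕ) (F H : List Fact) :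
    sz ((syncStep g F)^[k] H) ≤ sz H + (sz F + 1) * k := by
  obtain ⟨L, h1, h2, h3⟩ := sync_mem (g := g) k F H
  unfold sync at h1
  rw [h1, sz_append]
  have h4 : sz L ≤ (sz F + 1) * L.length := sz_le_of_forall fun a ha => by
    have := sz_mem (h3 a ha)
    omega
  have h5 := Nat.mul_le_mul_left (sz F + 1) h2
  omega

theorem polyF_syncB {X : α → Mat} {S : α → List Bool} {H : α → List Fact} (hX : PolyF X)
    (hS : PolyF S) (hH : PolyF H) : PolyF (fun a => syncB e (X a) (S a) (H a)) := by
  have hF : PolyF (fun a => nameFacts (X a).2.length (X a).1 (genM (X a)) (S a)) :=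
    PolyF.nameFacts hX.snd.length hX.fst (polyF_genM hX) hS
  refine PolyF.natIterate (n := fun a => fuel e (X a))
    (f := fun a => syncStep (gb e (X a)) (nameFacts (X a).2.length (X a).1 (genM (X a)) (S a)))
    (g := H) (polyF_fuel e hX) ?_ hH ?_
  · have hX1 : PolyF (fun p : α × List Fact => X p.1) := hX.comp PolyF.fst'
    have hfind : PolyF (fun p : α × List Fact =>
        (nameFacts (X p.1).2.length (X p.1).1 (genM (X p.1)) (S p.1)).find?
          (fun f => viol f (gb e (X p.1) p.2))) :=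
      PolyF.find? (p := fun (p : α × List Fact) f => viol f (gb e (X p.1) p.2))
        (hF.comp PolyF.fst') (polyF_viol PolyF.snd'
          (polyF_gb e (hX.comp (PolyF.fst'.comp PolyF.fst')) (PolyF.snd'.comp PolyF.fst')))
    refine PolyF.optionCases (g := fun p : α × List Fact => p.2)
      (h := fun q : (α × List Fact) × Fact => q.1.2 ++ [q.2]) hfind PolyF.snd'
      (PolyF.fst'.snd.append (PolyF.singleton PolyF.snd')) ?_ ?_
    · intro p hp
      unfold syncStep
      rw [hp]
    · intro p f hp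
      unfold syncStep
      rw [hp]
  · obtain ⟨B, hB⟩ := (hH.pbd.add ((hF.pbd.add (PBd.const 1)).mul (polyF_fuel e hX).pbdNat) :
      PBd (fun a => sz (H a) + (sz (nameFacts (X a).2.length (X a).1 (genM (X a)) (S a)) + 1) *
        fuel e (X a)))
    refine ⟨B, fun a i hi => (sz_sync_le i _ _).trans ((Nat.add_le_add_left ?_ _).trans (hB a))⟩
    exact Nat.mul_le_mul_left _ hi

theorem polyF_inp {X : α → Mat} {Hb Hc : α → List Fact} {S : α → List Bool} (hX : PolyF X)
    (hb : PolyF Hb) (hc : PolyF Hc) (hS : PolyF S) :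
    PolyF (fun a => inp e (X a) (Hb a) (Hc a) (S a)) :=
  polyF_mkInput hX (polyF_unsc hX (polyF_gb e hX hb))
    ((polyF_gc e hX hc).map (h := fun _ (a : ℤ) => (a : ℚ)) (PolyF.ratOfInt PolyF.snd')) hS

theorem polyF_startR {X : α → Mat} {Hb Hc : α → List Fact} {S : α → List Bool} (hX : PolyF X)
    (hb : PolyF Hb) (hc : PolyF Hc) (hS : PolyF S) :
    PolyF (fun a => startR W e (X a) (Hb a) (Hc a) (S a)) :=
  hb.pair (hc.pair (hS.pair (W.polyF_init.comp (polyF_inp e hX hb hc hS))))

theorem polyF_nameR {X : α → Mat} {Hb : α → List Fact} {q : α → W.σ} (hX : PolyF X)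
    (hb : PolyF Hb) (hq : PolyF q) : PolyF (fun a => nameR W e (X a) (Hb a) (q a)) :=
  polyF_nmZ (polyF_genM hX) (polyF_gb e hX hb) (W.polyF_report.comp hq).fst

theorem polyF_target {X : α → Mat} {s : α → RSt W} (hX : PolyF X) (hs : PolyF s) :
    PolyF (fun a => target W e (X a) (s a)) :=
  PolyF.ite ((W.polyF_report.comp hs.snd.snd.snd).snd.eqConst Verdict.pivot)
    (PolyF.some (polyF_meet (polyF_nameR W e hX hs.fst hs.snd.snd.snd)
      (polyF_nameR W e hX hs.fst (W.polyF_next.comp hs.snd.snd.snd)))) (PolyF.const none)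

theorem polyF_upd {X : α → Mat} {s : α → RSt W} {a : α → Answer} (hX : PolyF X) (hs : PolyF s)
    (ha : PolyF a) : PolyF (fun b => upd W e (X b) (s b) (a b)) := by
  have hX1 : PolyF (fun p : α × List Bool => X p.1) := hX.comp PolyF.fst'
  have hs1 : PolyF (fun p : α × List Bool => s p.1) := hs.comp PolyF.fst'
  refine polyF_answer
    (g := fun p : α × List Bool =>
      if nameR W e (X p.1) (s p.1).1 (W.next (s p.1).2.2.2) = p.2 then
        ((s p.1).1, (s p.1).2.1, p.2, W.next (s p.1).2.2.2)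
      else startR W e (X p.1) (syncB e (X p.1) p.2 (s p.1).1) (s p.1).2.1 p.2)
    (h := fun p : α × List Bool => match target W e (X p.1) (s p.1) with
      | some T => startR W e (X p.1) (s p.1).1
          ((s p.1).2.1 ++ [(false, negZ (dirZ (X p.1).1 (genM (X p.1)) (s p.1).2.2.1 T))])
            (s p.1).2.2.1
      | none => startR W e (X p.1) (s p.1).1
          ((s p.1).2.1 ++ [(true, dirZ (X p.1).1 (genM (X p.1)) (s p.1).2.2.1
            (meet (s p.1).2.2.1 p.2))]) (s p.1).2.2.1) ha ?_ ?_ ?_ ?_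
  · exact PolyF.ite ((polyF_nameR W e hX1 hs1.fst (W.polyF_next.comp hs1.snd.snd.snd)).eq PolyF.snd')
      (hs1.fst.pair (hs1.snd.fst.pair (PolyF.snd'.pair (W.polyF_next.comp hs1.snd.snd.snd))))
      (polyF_startR W e hX1 (polyF_syncB e hX1 PolyF.snd' hs1.fst) hs1.snd.fst PolyF.snd')
  · refine PolyF.optionCases
      (g := fun p : α × List Bool => startR W e (X p.1) (s p.1).1
          ((s p.1).2.1 ++ [(true, dirZ (X p.1).1 (genM (X p.1)) (s p.1).2.2.1
            (meet (s p.1).2.2.1 p.2))]) (s p.1).2.2.1)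
      (h := fun q : (α × List Bool) × List Bool => startR W e (X q.1.1) (s q.1.1).1
          ((s q.1.1).2.1 ++ [(false, negZ (dirZ (X q.1.1).1 (genM (X q.1.1))
            (s q.1.1).2.2.1 q.2))]) (s q.1.1).2.2.1)
      (polyF_target W e hX1 hs1) ?_ ?_ ?_ ?_
    · exact polyF_startR W e hX1 hs1.fst (hs1.snd.fst.append (PolyF.singleton
        ((PolyF.const true).pair (PolyF.dirZ hX1.fst (polyF_genM hX1) hs1.snd.snd.fst
          (polyF_meet hs1.snd.snd.fst PolyF.snd'))))) hs1.snd.snd.fst
    · have hX2 : PolyF (fun q : (α × List Bool) × List Bool => X q.1.1) :=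
        hX.comp (PolyF.fst'.comp PolyF.fst')
      have hs2 : PolyF (fun q : (α × List Bool) × List Bool => s q.1.1) :=
        hs.comp (PolyF.fst'.comp PolyF.fst')
      exact polyF_startR W e hX2 hs2.fst (hs2.snd.fst.append (PolyF.singleton
        ((PolyF.const false).pair (PolyF.negZ (PolyF.dirZ hX2.fst (polyF_genM hX2)
          hs2.snd.snd.fst PolyF.snd'))))) hs2.snd.snd.fst
    · intro p hp
      rw [hp]
    · intro p T hp
      rw [hp]
  · intro b S hb
    rw [hb]
    rfl
  · intro b S hb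
    rw [hb]
    rfl

theorem polyF_begin {X : α → Mat} {S : α → List Bool} (hX : PolyF X) (hS : PolyF S) :
    PolyF (fun a => begin W e (X a) (S a)) :=
  polyF_startR W e hX (polyF_syncB e hX hS (PolyF.const [])) (PolyF.const []) hS

/-! ### The size of the states -/

attribute [local irreducible] inp syncB gb gc genM dirZ nameFacts fuel bits

/-- bounds for the states after `k` answers -/
structure SzInv (x : Mat × List Bool × List Answer) (F k : ℕ) (s : RSt W) : Prop where
  lb : s.1.length ≤ (k + 1) * fuel e x.1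
  fb : ∀ f ∈ s.1, sz f ≤ F
  lc : s.2.1.length ≤ k
  fc : ∀ f ∈ s.2.1, sz f ≤ F
  nm : sz s.2.2.1 ≤ sz x
  q : ∃ (t : ℕ) (S' : List Bool), sz S' ≤ sz x ∧
    s.2.2.2 = W.next^[t] (W.init (inp e x.1 s.1 s.2.1 S'))

/-- bound for the facts -/
def FactBd (x : Mat × List Bool × List Answer) (F : ℕ) : Prop :=
  (∀ S : List Bool, sz S ≤ sz x → ∀ f ∈ nameFacts x.1.2.length x.1.1 (genM x.1) S, sz f ≤ F) ∧
  ∀ S T : List Bool, sz S ≤ sz x → sz T ≤ 2 * ((genM x.1).length + sz x) →
    sz ((false, negZ (dirZ x.1.1 (genM x.1) S T)) : Fact) ≤ F ∧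
      sz ((true, dirZ x.1.1 (genM x.1) S T) : Fact) ≤ F

theorem sz_bools_le (l : List Bool) : sz l ≤ 2 * l.length :=
  sz_le_of_forall fun a _ => sz_bool_le a

theorem length_meet_le (S T : List Bool) : (meet S T).length ≤ S.length := by
  unfold meet
  rw [List.length_zipWith]
  exact min_le_left _ _

theorem syncB_bd {x : Mat × List Bool × List Answer} {F : ℕ} (hF : FactBd x F) {S : List Bool}
    (hS : sz S ≤ sz x) {H : List Fact} (hH : ∀ f ∈ H, sz f ≤ F) :
    (∀ f ∈ syncB e x.1 S H, sz f ≤ F) ∧ (syncB e x.1 S H).length ≤ H.length + fuel e x.1 := by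
  obtain ⟨L, h1, h2, h3⟩ := sync_mem (g := gb e x.1) (fuel e x.1)
    (nameFacts x.1.2.length x.1.1 (genM x.1) S) H
  have h4 : syncB e x.1 S H = H ++ L := by
    unfold syncB
    exact h1
  rw [h4]
  refine ⟨fun f hf => ?_, by rw [List.length_append]; omega⟩
  rcases List.mem_append.1 hf with h | h
  · exact hH f h
  · exact hF.1 S hS f (h3 f h)

theorem szInv_begin {x : Mat × List Bool × List Answer} {F : ℕ} (hF : FactBd x F) :
    SzInv W e x F 0 (begin W e x.1 x.2.1) := by
  have hS : sz x.2.1 ≤ sz x := by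
    rw [sz_prod x, sz_prod x.2]; omega
  obtain ⟨h1, h2⟩ := syncB_bd e hF hS (H := []) (by simp)
  have key : begin W e x.1 x.2.1 = (syncB e x.1 x.2.1 [], [], x.2.1,
      W.init (inp e x.1 (syncB e x.1 x.2.1 []) [] x.2.1)) := rfl
  rw [key]
  exact ⟨by simpa using h2, h1, by simp, by simp, hS, 0, x.2.1, hS, rfl⟩

theorem szInv_upd {x : Mat × List Bool × List Answer} {F k : ℕ} (hF : FactBd x F) {s : RSt W}
    (hs : SzInv W e x F k s) {a : Answer} (ha : a ∈ x.2.2) :
    SzInv W e x F (k + 1) (upd W e x.1 s a) := by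
  have hax : sz a ≤ sz x := by
    have h1 := sz_mem ha
    rw [sz_prod x, sz_prod x.2]; omega
  have hk : (k + 1) * fuel e x.1 ≤ (k + 1 + 1) * fuel e x.1 :=
    Nat.mul_le_mul_right _ (by omega)
  cases a with
  | moved S' =>
    have hS' : sz S' ≤ sz x := by
      rw [sz_answer] at hax
      have h2 := sz_prod (Answer.toPair (.moved S'))
      have h3 : (Answer.toPair (.moved S')).2 = S' := rfl
      rw [h3] at h2
      omega
    unfold upd
    dsimp only
    split_ifs with h
    · obtain ⟨t, S₀, h1, h2⟩ := hs.q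
      refine ⟨hs.lb.trans hk, hs.fb, hs.lc.trans (by omega), hs.fc, hS', t + 1, S₀, h1, ?_⟩
      show W.next s.2.2.2 = _
      rw [h2, Function.iterate_succ_apply']
    · obtain ⟨h1, h2⟩ := syncB_bd e hF hS' (H := s.1) hs.fb
      refine ⟨h2.trans ?_, h1, hs.lc.trans (by omega), hs.fc, hS', 0, S', hS', rfl⟩
      have := hs.lb
      calc s.1.length + fuel e x.1 ≤ (k + 1) * fuel e x.1 + fuel e x.1 := by omega
        _ = (k + 1 + 1) * fuel e x.1 := by ring
  | refused S' =>
    have hadd : ∀ f : Fact, sz f ≤ F → SzInv W e x F (k + 1)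
        (startR W e x.1 s.1 (s.2.1 ++ [f]) s.2.2.1) := by
      intro f hf
      refine ⟨hs.lb.trans hk, hs.fb, ?_, ?_, hs.nm, 0, s.2.2.1, hs.nm, rfl⟩
      · show (s.2.1 ++ [f]).length ≤ k + 1
        rw [List.length_append, List.length_singleton]
        have := hs.lc
        omega
      · intro f' hf'
        rcases List.mem_append.1 hf' with h | h
        · exact hs.fc f' h
        · rw [List.mem_singleton.1 h]
          exact hf
    have hcur : s.2.2.1.length ≤ sz x := (length_le_sz _).trans hs.nm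
    unfold upd
    dsimp only
    cases ht : target W e x.1 s with
    | some T =>
      refine hadd _ (hF.2 s.2.2.1 T hs.nm ?_).1
      unfold target at ht
      split_ifs at ht
      have hT := Option.some.inj ht
      rw [← hT]
      refine (sz_bools_le _).trans (Nat.mul_le_mul_left 2 ?_)
      refine (length_meet_le _ _).trans ?_
      unfold nameR nmZ
      rw [List.length_map, List.length_range]
      omega
    | none =>
      refine hadd _ (hF.2 s.2.2.1 (meet s.2.2.1 S') hs.nm ?_).2
      refine (sz_bools_le _).trans (Nat.mul_le_mul_left 2 ?_)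
      exact (length_meet_le _ _).trans (by omega)

theorem szInv_fold {x : Mat × List Bool × List Answer} {F : ℕ} (hF : FactBd x F) {k : ℕ}
    (hk : k ≤ x.2.2.length) :
    SzInv W e x F k ((x.2.2.take k).foldl (upd W e x.1) (begin W e x.1 x.2.1)) := by
  induction k with
  | zero => simpa using szInv_begin W e hF
  | succ k ih =>
    have hk' : k < x.2.2.length := hk
    rw [List.take_succ_eq_append_getElem hk', List.foldl_append]
    exact szInv_upd W e hF (ih hk'.le) (List.getElem_mem hk')

/-- a polynomial bound for the facts -/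
theorem exists_factBd : ∃ t : Mat × List Bool × List Answer → ℕ, PBd t ∧ ∀ x, FactBd x (t x) := by
  obtain ⟨Q₀, hQ₀⟩ := (polyF_genM (PolyF.id (α := Mat))).bound
  have h1 : PolyF (fun p : Mat × List Bool => nameFacts p.1.2.length p.1.1 (genM p.1) p.2) :=
    PolyF.nameFacts PolyF.fst'.snd.length PolyF.fst'.fst (polyF_genM PolyF.fst') PolyF.snd'
  obtain ⟨Q₁, hQ₁⟩ := h1.bound
  have h2 : PolyF (fun p : Mat × List Bool × List Bool =>
      dirZ p.1.1 (genM p.1) p.2.1 p.2.2) :=
    PolyF.dirZ PolyF.fst'.fst (polyF_genM PolyF.fst') PolyF.snd'.fst PolyF.snd'.snd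
  have h3 : PolyF (fun p : Mat × List Bool × List Bool =>
      ([(false, negZ (dirZ p.1.1 (genM p.1) p.2.1 p.2.2)),
        (true, dirZ p.1.1 (genM p.1) p.2.1 p.2.2)] : List Fact)) :=
    ((PolyF.const false).pair (PolyF.negZ h2)).cons
      (PolyF.singleton ((PolyF.const true).pair h2))
  obtain ⟨Q₂, hQ₂⟩ := h3.bound
  refine ⟨fun x => Q₁.eval (1 + sz x + sz x) +
    Q₂.eval (2 + sz x + sz x + 2 * (Q₀.eval (sz x) + sz x)), ?_, fun x => ⟨?_, ?_⟩⟩
  · exact ((((PBd.const 1).add PBd.size).add PBd.size).peval Q₁).add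
      (((((PBd.const 2).add PBd.size).add PBd.size).add ((PBd.const 2).mul
        ((PBd.size.peval Q₀).add PBd.size))).peval Q₂)
  · intro S hS f hf
    have h4 := hQ₁ (x.1, S)
    have h5 := sz_mem hf
    have h6 : sz (x.1, S) ≤ 1 + sz x + sz x := by
      rw [sz_prod (x.1, S)]
      have := sz_prod x
      dsimp only
      omega
    have h7 := peval_mono Q₁ h6
    dsimp only at h4 ⊢
    omega
  · intro S T hS hT
    have h4 := hQ₂ (x.1, S, T)
    have hx1 : sz x.1 ≤ sz x := by
      have := sz_prod x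
      omega
    have h8 : (genM x.1).length ≤ Q₀.eval (sz x) :=
      (length_le_sz _).trans ((hQ₀ x.1).trans (peval_mono Q₀ hx1))
    have h6 : sz (x.1, S, T) ≤ 2 + sz x + sz x + 2 * (Q₀.eval (sz x) + sz x) := by
      rw [sz_prod (x.1, S, T), sz_prod (x.1, S, T).2]
      dsimp only
      omega
    have h7 := peval_mono Q₂ h6
    have h9 := sz_mem (l := ([(false, negZ (dirZ x.1.1 (genM x.1) S T)),
        (true, dirZ x.1.1 (genM x.1) S T)] : List Fact))
        (a := (false, negZ (dirZ x.1.1 (genM x.1) S T))) (by simp)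
    have h10 := sz_mem (l := ([(false, negZ (dirZ x.1.1 (genM x.1) S T)),
        (true, dirZ x.1.1 (genM x.1) S T)] : List Fact))
        (a := (true, dirZ x.1.1 (genM x.1) S T)) (by simp)
    dsimp only at h4 ⊢
    constructor <;> omega

/-- the size of the states stays polynomial for ALL histories.  Invariant: after `k` answers
there are at most `(fuel + 1) * (k + 1)` facts, each of size bounded by a polynomial, the name is
one of the names in the history, and the state of the machine is `next^[t] (init (inp Hb Hc S))`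
for a name `S` of the history. -/
theorem size_fold : ∃ P : Polynomial ℕ, ∀ x : Mat × List Bool × List Answer,
    ∀ k ≤ x.2.2.length, sz ((x.2.2.take k).foldl (upd W e x.1) (begin W e x.1 x.2.1)) ≤
      P.eval (sz x) := by
  obtain ⟨F, hFp, hF⟩ := exists_factBd
  have hinp : PolyF (fun p : Mat × List Fact × List Fact × List Bool =>
      inp e p.1 p.2.1 p.2.2.1 p.2.2.2) :=
    polyF_inp e PolyF.fst' PolyF.snd'.fst PolyF.snd'.snd.fst PolyF.snd'.snd.snd
  obtain ⟨Q₃, hQ₃⟩ := hinp.bound
  -- bounds for the parts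
  let tb : Mat × List Bool × List Answer → ℕ := fun x =>
    (F x + 1) * ((sz x + 1) * fuel e x.1)
  let tc : Mat × List Bool × List Answer → ℕ := fun x => (F x + 1) * sz x
  let tq : Mat × List Bool × List Answer → ℕ := fun x =>
    W.Q.eval (Q₃.eval (3 + sz x + tb x + tc x + sz x))
  have hfuel : PBd (fun x : Mat × List Bool × List Answer => fuel e x.1) :=
    (polyF_fuel e PolyF.fst').pbdNat
  have htb : PBd tb := (hFp.add (PBd.const 1)).mul ((PBd.size.add (PBd.const 1)).mul hfuel)
  have htc : PBd tc := (hFp.add (PBd.const 1)).mul PBd.size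
  have htq : PBd tq := (((((PBd.const 3).add PBd.size).add htb).add htc).add
    PBd.size).peval Q₃ |>.peval W.Q
  obtain ⟨P, hP⟩ := (((((PBd.const 3).add htb).add htc).add PBd.size).add htq :
    PBd (fun x => 3 + tb x + tc x + sz x + tq x))
  refine ⟨P, fun x k hk => le_trans ?_ (hP x)⟩
  show _ ≤ 3 + tb x + tc x + sz x + tq x
  have hk' : k ≤ sz x := by
    have h1 := length_le_sz x.2.2
    have h2 := sz_prod x
    have h3 := sz_prod x.2
    omega
  obtain ⟨h1, h2, h3, h4, h5, t, S', h6, h7⟩ := szInv_fold W e (hF x) hk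
  set s := (x.2.2.take k).foldl (upd W e x.1) (begin W e x.1 x.2.1) with hs
  have e1 : sz s.1 ≤ tb x := (sz_le_of_forall h2).trans (Nat.mul_le_mul_left _
    (h1.trans (Nat.mul_le_mul_right _ (by omega))))
  have e2 : sz s.2.1 ≤ tc x := (sz_le_of_forall h4).trans (Nat.mul_le_mul_left _ (by omega))
  have e3 : sz s.2.2.2 ≤ tq x := by
    rw [h7]
    refine (W.size _ t).trans (peval_mono W.Q ((hQ₃ (x.1, s.1, s.2.1, S')).trans
      (peval_mono Q₃ ?_)))
    have h8 : sz x.1 ≤ sz x := by
      have := sz_prod x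
      omega
    rw [sz_prod (x.1, s.1, s.2.1, S'), sz_prod (x.1, s.1, s.2.1, S').2,
      sz_prod (x.1, s.1, s.2.1, S').2.2]
    dsimp only
    omega
  rw [sz_prod s, sz_prod s.2, sz_prod s.2.2]
  omega

/-- **The rule is computed in polynomial time.** -/
theorem polyF_rule : PolyF (rule W e) := by
  have h1 : PolyF (fun p : (Mat × List Bool × List Answer) × RSt W × Answer =>
      upd W e p.1.1 p.2.1 p.2.2) :=
    polyF_upd W e PolyF.fst'.fst PolyF.snd'.fst PolyF.snd'.snd
  have h2 : PolyF (fun x : Mat × List Bool × List Answer => begin W e x.1 x.2.1) :=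
    polyF_begin W e PolyF.fst' PolyF.snd'.fst
  have h : PolyF (fun x : Mat × List Bool × List Answer =>
      x.2.2.foldl (upd W e x.1) (begin W e x.1 x.2.1)) :=
    PolyF.foldl (l := fun x : Mat × List Bool × List Answer => x.2.2)
      (i := fun x : Mat × List Bool × List Answer => begin W e x.1 x.2.1)
      (f := fun x : Mat × List Bool × List Answer => upd W e x.1) PolyF.snd'.snd
      h2 h1 (size_fold W e)
  exact polyF_target W e PolyF.fst' h

end Pool.Agent.Simplex.EB
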