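import Pool.Agent.Lib.MP_4d246d_lc.EB.Bridge
import Pool.Agent.Lib.MP_4d246d_lc.QM.FinalB

/-!
# Running a blind rule against the adversary given by linear programming: one step

At the vertex `x` the proposal `T` of the rule is tried with the pivoting machine on the face given
by `T`: if the objective increases on this face, the machine makes a pivot in the face (the face is
an edge if `T` is the name of an edge), or it finds an unbounded improving edge at `x`. If the
proposal is not the name of an improving edge, the pivoting machine of the whole program gives an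
improving neighbour of `x`, or it says that `x` is optimal or has an unbounded improving edge.
-/

namespace Pool.Agent.Simplex.EB

open QP Pool.Agent.Lib.PolyTime

/-- the constraints listed by a name -/
def idx (D : Sta) (T : List Bool) : List ℕ :=
  (List.range D.2.1.length).filter fun i => T.getD i false

/-- are the constraints listed by the name tight? -/
def okT (D : Sta) (x : Pnt) (T : List Bool) : Bool := (idx D T).all (ttZ D x)

/-- the name of a point -/
def nameZ (D : Sta) (x : Pnt) : List Bool := (List.range D.2.1.length).map (ttZ D x)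

/-- the name of the edge between two points -/
def eNameZ (D : Sta) (x y : Pnt) : List Bool :=
  (List.range D.2.1.length).map fun i => ttZ D x i && ttZ D y i

/-- try a proposal -/
def tryZ (D : Sta) (x : Pnt) (T : List Bool) : QP.St Pnt :=
  next (orc D) vleZ (x, [frameOf D (idx D T)], .running)

/-- the adversary -/
def advZ (D : Sta) (x : Pnt) : QP.St Pnt := next (orc D) vleZ (initS (orc D) vleZ x)

section

variable {D : Sta}

theorem mem_idx {T : List Bool} {i : ℕ} :
    i ∈ idx D T ↔ i < D.2.1.length ∧ T.getD i false = true := by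
  unfold idx
  rw [List.mem_filter, List.mem_range]

theorem okT_iff {x : Pnt} {T : List Bool} : okT D x T = true ↔
    ∀ i < D.2.1.length, T.getD i false = true → (sysOf D).sl i (valOf D x) = 0 := by
  unfold okT
  rw [List.all_eq_true]
  constructor
  · intro h i hi hT
    exact ((spec_orc D).tt x i hi).1 (h i (mem_idx.2 ⟨hi, hT⟩))
  · intro h i hi
    obtain ⟨h1, h2⟩ := mem_idx.1 hi
    exact ((spec_orc D).tt x i h1).2 (h i h1 h2)

/-- the first step of the pivoting machine from a good frame -/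
theorem next_cases {x : Pnt} {f : Frame}
    (hG : Good (sysOf D) (orc D).M (valOf D x) f []) :
    ((next (orc D) vleZ (x, [f], .running)).2.2 = .running →
      EStep (sysOf D) (orc D).M (valOf D x)
        (valOf D (next (orc D) vleZ (x, [f], .running)).1) ∧
      valOf D (next (orc D) vleZ (x, [f], .running)).1 ∈
        (sysOf D).Q f.J (List.range (orc D).M)) ∧
    ((next (orc D) vleZ (x, [f], .running)).2.2 = .unbounded →
      ∃ J0, RStep (sysOf D) (orc D).M J0 (valOf D x)) ∧
    ((next (orc D) vleZ (x, [f], .running)).2.2 = .optimal →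
      ∀ z ∈ (sysOf D).Q f.J f.I, (sysOf D).c z ≤ (sysOf D).c (valOf D x)) := by
  obtain ⟨N, -, hgood, hrun, hE, hlast, hfin⟩ := run_root (spec_orc D) vord hG le_rfl le_rfl
  have hg1 := hgood 1
  rw [Function.iterate_one] at hg1
  rcases Nat.eq_zero_or_pos N with hN | hN
  · subst hN
    simp only [zero_add, Function.iterate_one, Function.iterate_zero, id] at hfin hlast
    rcases hfin with ⟨h1, -, h3⟩ | ⟨h1, h2⟩
    · rw [h1]
      refine ⟨fun h => by simp at h, fun h => by simp at h, fun _ => h3⟩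
    · rw [h1]
      exact ⟨fun h => by simp at h, fun _ => ⟨_, h2⟩, fun h => by simp at h⟩
  · have h1 := hrun 1 hN
    have h2 := hE 0 hN
    simp only [zero_add, Function.iterate_one, Function.iterate_zero, id] at h1 h2
    rw [h1]
    refine ⟨fun _ => ⟨h2, ?_⟩, fun h => by simp at h, fun h => by simp at h⟩
    revert h1 hg1
    generalize next (orc D) vleZ (x, [f], .running) = s
    intro hg1 h1
    cases hg1 with
    | run y g r h3 h4 =>
      have h5 : f ∈ g :: r := List.mem_of_getLast? h4
      obtain ⟨h6, -⟩ := h3.chain.below f h5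
      exact ⟨fun j hj => h3.mem.1 j (h6 j hj), h3.mem.2⟩
    | opt y h3 h4 => simp at h1
    | unb y g r h3 h4 => simp at h1

theorem ivM_frame {p x : Pnt} (hp : PtOk (orc D) p x) {f : Frame}
    (hG : Good (sysOf D) (orc D).M (valOf D x) f []) (hl : f.J.length ≤ (orc D).M) :
    VertZ D (next (orc D) vleZ (x, [f], .running)).1 ∧
      PtOk (orc D) p (next (orc D) vleZ (x, [f], .running)).1 := by
  have h : IvM D p (next (orc D) vleZ (x, [f], .running)) := IvM.next ⟨f, invM_frame hp hG hl⟩
  exact ⟨h.vertZ, h.pt⟩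

theorem good_try {x : Pnt} (hx : VertZ D x) {T : List Bool} (hT : okT D x T = true) :
    Good (sysOf D) (orc D).M (valOf D x) (frameOf D (idx D T)) [] :=
  good_frame hx.mem hx.vx fun j hj =>
    ⟨(mem_idx.1 hj).1, okT_iff.1 hT j (mem_idx.1 hj).1 (mem_idx.1 hj).2⟩

theorem length_idx (T : List Bool) : (idx D T).length ≤ (orc D).M := by
  unfold idx
  refine (List.length_filter_le _ _).trans ?_
  rw [List.length_range]
  exact le_rfl

theorem tryZ_ok {p x : Pnt} (hx : VertZ D x) (hp : PtOk (orc D) p x) {T : List Bool}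
    (hT : okT D x T = true) : VertZ D (tryZ D x T).1 ∧ PtOk (orc D) p (tryZ D x T).1 :=
  ivM_frame hp (good_try hx hT) (length_idx T)

theorem advZ_ok {p x : Pnt} (hx : VertZ D x) (hp : PtOk (orc D) p x) :
    VertZ D (advZ D x).1 ∧ PtOk (orc D) p (advZ D x).1 :=
  ivM_frame hp (rootF_good (vle := vleZ) (spec_orc D) hx.mem hx.vx) (length_rootJ_le _ _ _)

theorem tryZ_cases {x : Pnt} (hx : VertZ D x) {T : List Bool} (hT : okT D x T = true) :
    ((tryZ D x T).2.2 = .running →
      EStep (sysOf D) (orc D).M (valOf D x) (valOf D (tryZ D x T).1) ∧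
      valOf D (tryZ D x T).1 ∈ (sysOf D).Q (idx D T) (List.range (orc D).M)) ∧
    ((tryZ D x T).2.2 = .unbounded → ∃ J0, RStep (sysOf D) (orc D).M J0 (valOf D x)) ∧
    ((tryZ D x T).2.2 = .optimal → ∀ z ∈ (sysOf D).Q (idx D T) (List.range (orc D).M),
      (sysOf D).c z ≤ (sysOf D).c (valOf D x)) := by
  obtain ⟨h1, h2, h3⟩ := next_cases (good_try hx hT)
  refine ⟨h1, h2, fun h z hz => h3 h z ⟨hz.1, fun i hi => hz.2 i ?_⟩⟩
  exact List.mem_range.2 ((good_try hx hT).chain.basic.1 i hi)

theorem advZ_cases {x : Pnt} (hx : VertZ D x) :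
    ((advZ D x).2.2 = .running →
      EStep (sysOf D) (orc D).M (valOf D x) (valOf D (advZ D x).1)) ∧
    ((advZ D x).2.2 = .unbounded → ∃ J0, RStep (sysOf D) (orc D).M J0 (valOf D x)) ∧
    ((advZ D x).2.2 = .optimal → OptZ D x) := by
  obtain ⟨h1, h2, h3⟩ := next_cases (rootF_good (vle := vleZ) (spec_orc D) hx.mem hx.vx)
  exact ⟨fun h => (h1 h).1, h2, fun h => rootF_opt (vle := vleZ) (spec_orc D) hx.mem (h3 h)⟩

end

/-! ### The translation to real programs -/

variable (I : Input)

/-- the two systems of slack functions are positive multiples of each other -/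
theorem sl_scale {i : ℕ} (hi : i < I.m + I.n) : ∃ d : ℝ, 0 < d ∧
    (∀ x, (sysI I).sl i x = d * (ofQ I.lp).sys.sl i x) ∧
    ∀ q, (sysI I).ln i q = d * (ofQ I.lp).sys.ln i q := by
  obtain ⟨d, hd, h⟩ : ∃ d : ℝ, 0 < d ∧ ∀ x, (sysI I).sl i x = d * (ofQ I.lp).sys.sl i x := by
    by_cases him : i < I.m
    · obtain ⟨d, hd, h1⟩ := sl_lt I him
      refine ⟨d, hd, fun x => ?_⟩
      rw [h1]
      congr 1
      exact ((ofQ I.lp).sl_row ⟨i, him⟩ x).symm
    · obtain ⟨j, rfl⟩ := Nat.exists_eq_add_of_le (not_lt.1 him)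
      have hj : j < I.n := by omega
      refine ⟨1, one_pos, fun x => ?_⟩
      rw [sl_ge I hj, one_mul]
      exact ((ofQ I.lp).sl_var ⟨j, hj⟩ x).symm
  refine ⟨d, hd, h, fun q => ?_⟩
  have h1 := (sysI I).add i 0 q
  have h2 := (ofQ I.lp).sys.add i 0 q
  rw [h, h, h2] at h1
  linarith

theorem sl_zero {i : ℕ} (hi : i < I.m + I.n) (x : Fin I.n → ℝ) :
    (sysI I).sl i x = 0 ↔ (ofQ I.lp).sys.sl i x = 0 := by
  obtain ⟨d, hd, h, -⟩ := sl_scale I hi
  rw [h, mul_eq_zero, or_iff_right hd.ne']

theorem ln_zero {i : ℕ} (hi : i < I.m + I.n) (x : Fin I.n → ℝ) :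
    (sysI I).ln i x = 0 ↔ (ofQ I.lp).sys.ln i x = 0 := by
  obtain ⟨d, hd, -, h⟩ := sl_scale I hi
  rw [h, mul_eq_zero, or_iff_right hd.ne']

theorem tt_iff {i : ℕ} (hi : i < I.m + I.n) (x : Pnt) :
    ttZ (dat I) x i = true ↔ (ofQ I.lp).sys.sl i (valI I x) = 0 := by
  rw [← sl_zero I hi]
  exact (spec_I I).tt x i (by rw [show (orc (dat I)).M = I.m + I.n from dat_len I]; exact hi)

theorem nameZ_eq (x : Pnt) : nameZ (dat I) x = (ofQ I.lp).name (valI I x) := by
  classical
  rw [(ofQ I.lp).name_eq]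
  unfold nameZ
  rw [dat_len]
  refine List.map_congr_left fun i hi => ?_
  have h := tt_iff I (List.mem_range.1 hi) x
  rw [Bool.eq_iff_iff, decide_eq_true_eq]
  exact h

theorem eNameZ_eq (x y : Pnt) : eNameZ (dat I) x y =
    (ofQ I.lp).edgeName (valI I x) (valI I y - valI I x) := by
  classical
  rw [(ofQ I.lp).edgeName_eq]
  unfold eNameZ
  rw [dat_len]
  refine List.map_congr_left fun i hi => ?_
  have h1 := tt_iff I (List.mem_range.1 hi) x
  have h2 := tt_iff I (List.mem_range.1 hi) y
  rw [Bool.eq_iff_iff, Bool.and_eq_true, h1, h2, decide_eq_true_eq, (ofQ I.lp).sys.ln_sub]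
  constructor
  · rintro ⟨h3, h4⟩
    exact ⟨h3, by rw [h3, h4, sub_zero]⟩
  · rintro ⟨h3, h4⟩
    exact ⟨h3, by rw [h3, sub_zero] at h4; exact h4⟩

theorem vertZ_iff {x : Pnt} : VertZ (dat I) x ↔ (ofQ I.lp).Vertex (valI I x) := by
  rw [RLP.vertex_iff, RLP.mem_P]
  constructor
  · intro h
    refine ⟨?_, fun q hq => h.vx q fun i hi h0 => ?_⟩
    · have h1 : valI I x ∈ I.lp.feasible := by
        rw [← feasible_eq I]
        exact h.mem
      exact h1
    · have hi' : i < I.m + I.n := by
        rw [← dat_len I]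
        exact hi
      exact (ln_zero I hi' q).2 (hq i hi' ((sl_zero I hi' _).1 h0))
  · rintro ⟨h1, h2⟩
    refine ⟨?_, fun q hq => h2 q fun i hi h0 => ?_⟩
    · have h3 : valI I x ∈ (sysI I).Q [] (List.range (dat I).2.1.length) := by
        rw [feasible_eq I]
        exact h1
      exact h3
    · have hi' : i < (orc (dat I)).M := by
        rw [show (orc (dat I)).M = I.m + I.n from dat_len I]
        exact hi
      exact (ln_zero I hi q).1 (hq i hi' ((sl_zero I hi _).2 h0))

theorem improving_of_step {x y : Pnt}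
    (h : EStep (sysOf (dat I)) (orc (dat I)).M (valOf (dat I) x) (valOf (dat I) y)) :
    (ofQ I.lp).Improving (valI I x) (valI I y) := by
  have h1 := improving_of_estep I h
  rw [toReal_qv, toReal_qv] at h1
  exact h1

theorem optimal_of_optZ {x : Pnt} (hx : VertZ (dat I) x) (h : OptZ (dat I) x) :
    I.lp.Vertex (valI I x) ∧ I.lp.Optimal (valI I x) := by
  obtain ⟨dc, hdc, hobj⟩ := obj_eq I
  have h1 : I.lp.Vertex (valI I x) := (vertZ_iff I).1 hx
  refine ⟨h1, h1.1, fun y hy => ?_⟩
  rw [← feasible_eq I] at hy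
  have h2 := h y hy
  have h3 : (sysI I).c y ≤ (sysI I).c (valI I x) := h2
  rw [hobj, hobj] at h3
  exact le_of_mul_le_mul_left h3 hdc

/-- The proposal of the name of an improving edge direction is recognised. -/
theorem try_complete {x : Pnt} (hx : VertZ (dat I) x) {z : Fin I.n → ℝ}
    (hz : (ofQ I.lp).sys.Dir (I.m + I.n) (valI I x) z) (hc : 0 < (ofQ I.lp).obj z) :
    okT (dat I) x ((ofQ I.lp).edgeName (valI I x) z) = true ∧
    ((tryZ (dat I) x ((ofQ I.lp).edgeName (valI I x) z)).2.2 = .unbounded ∨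
      (tryZ (dat I) x ((ofQ I.lp).edgeName (valI I x) z)).2.2 = .running ∧
      eNameZ (dat I) x (tryZ (dat I) x ((ofQ I.lp).edgeName (valI I x) z)).1 =
        (ofQ I.lp).edgeName (valI I x) z) := by
  set T := (ofQ I.lp).edgeName (valI I x) z with hT
  have hM : (orc (dat I)).M = I.m + I.n := dat_len I
  obtain ⟨dc, hdc, hobj⟩ := obj_eq I
  have hok : okT (dat I) x T = true := by
    rw [okT_iff]
    intro i hi h0
    have hi' : i < I.m + I.n := by
      rw [← dat_len I]
      exact hi
    exact (sl_zero I hi' _).2 (((ofQ I.lp).getD_edgeName _ _ hi').1 h0).1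
  refine ⟨hok, ?_⟩
  obtain ⟨h1, -, h3⟩ := tryZ_cases hx hok
  have hv := (vertZ_iff I).1 hx
  cases hst : (tryZ (dat I) x T).2.2 with
  | unbounded => exact Or.inl rfl
  | optimal =>
    exfalso
    obtain ⟨e, he, h4⟩ := (ofQ I.lp).sys.pert_P hv.mem hz.1
    have h5 := h4 e he.le le_rfl
    rw [RLP.mem_P] at h5
    have h6 : valI I x + e • z ∈ I.lp.feasible := h5
    rw [← feasible_eq I] at h6
    have h7 := h3 hst (valI I x + e • z) ⟨fun i hi => by
      obtain ⟨hi1, hi2⟩ := mem_idx.1 hi
      have hi' : i < I.m + I.n := by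
        rw [← dat_len I]
        exact hi1
      obtain ⟨h8, h9⟩ := ((ofQ I.lp).getD_edgeName _ _ hi').1 hi2
      refine (sl_zero I hi' _).2 ?_
      rw [(ofQ I.lp).sys.smul_add, h8, h9]
      ring, h6.2⟩
    have h8 : (sysI I).c (valI I x + e • z) ≤ (sysI I).c (valI I x) := h7
    rw [map_add, map_smul, smul_eq_mul] at h8
    have h9 : (sysI I).c z = dc * (ofQ I.lp).obj z := hobj z
    rw [h9] at h8
    have := mul_pos he (mul_pos hdc hc)
    linarith
  | running =>
    right
    refine ⟨rfl, ?_⟩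
    obtain ⟨h4, h5⟩ := h1 hst
    have h6 := improving_of_step I h4
    obtain ⟨h7, h8, h9, h10⟩ := (ofQ I.lp).improving_iff.1 h6
    obtain ⟨t, ht, h11⟩ := (ofQ I.lp).sys.dir_pos hv.vx hz
      (q := valI I (tryZ (dat I) x T).1 - valI I x) (fun i hi => by
        obtain ⟨a1, a2, a3⟩ := (ofQ I.lp).sys.mem_T.1 hi
        rw [(ofQ I.lp).sys.ln_sub, a2, sub_zero]
        refine (sl_zero I a1 _).1 (h5.1 i (mem_idx.2 ⟨?_, ?_⟩))
        · rw [dat_len I]
          exact a1
        · exact ((ofQ I.lp).getD_edgeName _ _ a1).2 ⟨a2, a3⟩) h9.2.1 h9.1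
    rw [eNameZ_eq, h11, RLP.edgeName_smul ht.ne']

end Pool.Agent.Simplex.EB
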