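import Pool.Agent.Lib.MP_4d246d_lc.EB.Sim

/-!
# Running a blind rule against the adversary given by linear programming: the run
-/

namespace Pool.Agent.Simplex.EB

open QP Pool.Agent.Lib.PolyTime

/-- the fixed part: integer data, what the rule sees of the program, name of the start -/
abbrev Fix : Type := Sta × (ℕ × List (List ℚ)) × List Bool

/-- states of the simulation: answers, current vertex, status, reports of the vertices left -/
abbrev Sim : Type := List Answer × Pnt × Status × List (List ℚ × Verdict)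

/-- ask the adversary -/
def simAdv (D : Sta) (s : Sim) : Sim :=
  (if (advZ D s.2.1).2.2 = .running then s.1 ++ [.refused (nameZ D (advZ D s.2.1).1)] else s.1,
    s.2.1, (advZ D s.2.1).2.2, s.2.2.2)

/-- try a proposal -/
def simTry (D : Sta) (s : Sim) (T : List Bool) : Sim :=
  if okT D s.2.1 T = true ∧ (tryZ D s.2.1 T).2.2 = .unbounded then
    (s.1, s.2.1, .unbounded, s.2.2.2)
  else if okT D s.2.1 T = true ∧ (tryZ D s.2.1 T).2.2 = .running ∧
      eNameZ D s.2.1 (tryZ D s.2.1 T).1 = T then
    (s.1 ++ [.moved (nameZ D (tryZ D s.2.1 T).1)], (tryZ D s.2.1 T).1, .running,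
      s.2.2.2 ++ [(ratsOf s.2.1, .pivot)])
  else simAdv D s

/-- one step of the simulation -/
def simStep (ρ : BlindRule) (F : Fix) (s : Sim) : Sim :=
  if s.2.2.1 = .running then
    match ρ (F.2.1, F.2.2, s.1) with
    | some T => simTry F.1 s T
    | none => simAdv F.1 s
  else s

/-- the fixed part of an input -/
def fixOf (I : Input) : Fix := (dat I, (ofQ I.lp).mat, nameZ (dat I) (pntOf I.data))

/-- the initial state -/
def sim0 (I : Input) : Sim := ([], pntOf I.data, .running, [])

/-- the reports of a state -/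
def outSim (s : Sim) : List (List ℚ × Verdict) := s.2.2.2 ++ [(ratsOf s.2.1, verd s.2.2.1)]

/-- the reports written so far -/
structure Out (I : Input) (s : Sim) (k : ℕ) (x : ℕ → Fin I.n → ℚ) : Prop where
  zero : x 0 = I.v
  step : ∀ t < k, I.lp.Improving (toReal (x t)) (toReal (x (t + 1)))
  last : x k = qv I.n s.2.1
  out : s.2.2.2 = (List.range k).map fun t => (List.ofFn (x t), Verdict.pivot)
  len : k ≤ s.1.length

/-- the invariant of the simulation -/
structure SInv (ρ : BlindRule) (I : Input) (s : Sim) : Prop where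
  play : Play ρ (ofQ I.lp) (toReal I.v) s.1 (valI I s.2.1)
  vert : VertZ (dat I) s.2.1
  pt : PtOk (orc (dat I)) (pntOf I.data) s.2.1
  out : ∃ k x, Out I s k x
  fin : s.2.2.1 = .optimal ∧ I.lp.Vertex (valI I s.2.1) ∧ I.lp.Optimal (valI I s.2.1) ∨
    s.2.2.1 = .unbounded ∧ I.lp.Unbounded (valI I s.2.1) ∨ s.2.2.1 = .running

theorem vertZ_start (I : Input) : VertZ (dat I) (pntOf I.data) := by
  rw [vertZ_iff, val_pntOf]
  exact I.vertex

theorem sinv_zero (ρ : BlindRule) (I : Input) : SInv ρ I (sim0 I) where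
  play := by
    have h : valI I (sim0 I).2.1 = toReal I.v := val_pntOf I
    rw [h]
    exact Play.start
  vert := vertZ_start I
  pt := Or.inl rfl
  out := ⟨0, fun _ => I.v, rfl, fun t ht => absurd ht (Nat.not_lt_zero t), (qv_pntOf I).symm, rfl,
    le_rfl⟩
  fin := Or.inr (Or.inr rfl)

theorem length_pt {I : Input} {x : Pnt} (h : PtOk (orc (dat I)) (pntOf I.data) x) :
    x.1.length = I.n := by
  refine len_ptOk (D := dat I) (p := pntOf I.data) ?_ h
  show (clr _ (List.ofFn I.v)).length = I.n
  simp [clr]

/-- The result of asking the adversary. -/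
theorem sinv_adv {ρ : BlindRule} {I : Input} {s : Sim} (h : SInv ρ I s)
    (hr : s.2.2.1 = .running)
    (hn : ∀ z, (ofQ I.lp).sys.Dir (I.m + I.n) (valI I s.2.1) z → 0 < (ofQ I.lp).obj z →
      ρ ((ofQ I.lp).mat, nameZ (dat I) (pntOf I.data), s.1) ≠
        some ((ofQ I.lp).edgeName (valI I s.2.1) z)) :
    SInv ρ I (simAdv (dat I) s) ∧ ((simAdv (dat I) s).2.2.1 = .running →
      (simAdv (dat I) s).1.length = s.1.length + 1) := by
  obtain ⟨h1, h2, h3⟩ := advZ_cases h.vert
  obtain ⟨k, x, hk⟩ := h.out
  have hname : (ofQ I.lp).name (toReal I.v) = nameZ (dat I) (pntOf I.data) := by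
    rw [nameZ_eq, val_pntOf]
  unfold simAdv
  cases hst : (advZ (dat I) s.2.1).2.2 with
  | running =>
    rw [if_pos rfl]
    have hE := improving_of_step I (h1 hst)
    refine ⟨⟨?_, h.vert, h.pt, ⟨k, x, hk.zero, hk.step, hk.last, hk.out, ?_⟩,
      Or.inr (Or.inr rfl)⟩, fun _ => ?_⟩
    · show Play ρ (ofQ I.lp) (toReal I.v) (s.1 ++ [.refused (nameZ (dat I) _)]) (valI I s.2.1)
      rw [nameZ_eq]
      refine Play.refused h.play hE ?_ ?_
      · intro w hw
        rw [hname]
        obtain ⟨a1, a2, a3, a4⟩ := (ofQ I.lp).improving_iff.1 hw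
        rw [(ofQ I.lp).c_sys] at a4
        exact hn _ a3 a4
      · intro z hz hray
        rw [hname]
        have hz0 : z ≠ 0 := by
          rintro rfl
          simp [RLP.obj] at hz
        exact hn z (((ofQ I.lp).ray_iff hz0).1 hray).2.1 hz
    · show k ≤ (s.1 ++ [_]).length
      rw [List.length_append]
      exact hk.len.trans (Nat.le_add_right _ _)
    · show (s.1 ++ [_]).length = _
      rw [List.length_append]
      rfl
  | optimal =>
    rw [if_neg (by simp)]
    refine ⟨⟨h.play, h.vert, h.pt, ⟨k, x, hk.zero, hk.step, hk.last, hk.out, hk.len⟩,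
      Or.inl ⟨rfl, ?_⟩⟩, fun h => by simp at h⟩
    exact optimal_of_optZ I h.vert (h3 hst)
  | unbounded =>
    rw [if_neg (by simp)]
    refine ⟨⟨h.play, h.vert, h.pt, ⟨k, x, hk.zero, hk.step, hk.last, hk.out, hk.len⟩,
      Or.inr (Or.inl ⟨rfl, ?_⟩)⟩, fun h => by simp at h⟩
    obtain ⟨J0, h4⟩ := h2 hst
    have h5 := unbounded_of_rstep I h4
    rw [toReal_qv] at h5
    exact h5

/-- One step of the simulation. -/
theorem sinv_step {ρ : BlindRule} {I : Input} {s : Sim} (h : SInv ρ I s) :
    SInv ρ I (simStep ρ (fixOf I) s) ∧ ((simStep ρ (fixOf I) s).2.2.1 = .running →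
      s.2.2.1 = .running ∧ (simStep ρ (fixOf I) s).1.length = s.1.length + 1) := by
  have hname : (ofQ I.lp).name (toReal I.v) = nameZ (dat I) (pntOf I.data) := by
    rw [nameZ_eq, val_pntOf]
  unfold simStep
  by_cases hr : s.2.2.1 = .running
  · rw [if_pos hr]
    have e1 : ρ ((fixOf I).2.1, (fixOf I).2.2, s.1) =
      ρ ((ofQ I.lp).mat, nameZ (dat I) (pntOf I.data), s.1) := rfl
    rw [e1]
    cases hρ : ρ ((ofQ I.lp).mat, nameZ (dat I) (pntOf I.data), s.1) with
    | none =>
      obtain ⟨h1, h2⟩ := sinv_adv h hr (fun z _ _ => by rw [hρ]; simp)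
      exact ⟨h1, fun h3 => ⟨hr, h2 h3⟩⟩
    | some T =>
      show SInv ρ I (simTry (dat I) s T) ∧ ((simTry (dat I) s T).2.2.1 = .running →
        s.2.2.1 = .running ∧ (simTry (dat I) s T).1.length = s.1.length + 1)
      obtain ⟨k, x, hk⟩ := h.out
      unfold simTry
      by_cases hc1 : okT (dat I) s.2.1 T = true ∧ (tryZ (dat I) s.2.1 T).2.2 = .unbounded
      · rw [if_pos hc1]
        obtain ⟨-, h2, -⟩ := tryZ_cases h.vert hc1.1
        obtain ⟨J0, h4⟩ := h2 hc1.2
        have h5 := unbounded_of_rstep I h4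
        rw [toReal_qv] at h5
        exact ⟨⟨h.play, h.vert, h.pt, ⟨k, x, hk.zero, hk.step, hk.last, hk.out, hk.len⟩,
          Or.inr (Or.inl ⟨rfl, h5⟩)⟩, fun h => by simp at h⟩
      · rw [if_neg hc1]
        by_cases hc2 : okT (dat I) s.2.1 T = true ∧ (tryZ (dat I) s.2.1 T).2.2 = .running ∧
            eNameZ (dat I) s.2.1 (tryZ (dat I) s.2.1 T).1 = T
        · rw [if_pos hc2]
          obtain ⟨c1, c2, c3⟩ := hc2
          obtain ⟨h2, -, -⟩ := tryZ_cases h.vert c1
          obtain ⟨h3, -⟩ := h2 c2
          have hE := improving_of_step I h3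
          obtain ⟨h4, h5⟩ := tryZ_ok h.vert h.pt c1
          refine ⟨⟨?_, h4, h5, ⟨k + 1, Function.update x (k + 1) (qv I.n (tryZ (dat I) s.2.1 T).1),
            ?_, ?_, ?_, ?_, ?_⟩, Or.inr (Or.inr rfl)⟩, fun _ => ⟨hr, ?_⟩⟩
          · show Play ρ (ofQ I.lp) (toReal I.v) (s.1 ++ [.moved (nameZ (dat I) _)]) (valI I _)
            rw [nameZ_eq]
            refine Play.moved h.play hE ?_
            rw [hname, hρ, ← eNameZ_eq, c3]
          · rw [Function.update_of_ne (by omega)]
            exact hk.zero
          · intro t ht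
            rcases Nat.lt_or_ge t k with h6 | h6
            · rw [Function.update_of_ne (by omega), Function.update_of_ne (by omega)]
              exact hk.step t h6
            · have : t = k := by omega
              subst this
              rw [Function.update_of_ne (by omega), Function.update_self, hk.last, toReal_qv,
                toReal_qv]
              exact hE
          · rw [Function.update_self]
          · show s.2.2.2 ++ [(ratsOf s.2.1, Verdict.pivot)] = _
            rw [List.range_succ, List.map_append, List.map_singleton,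
              Function.update_of_ne (by omega), hk.last, ofFn_qv (length_pt h.pt), hk.out]
            congr 1
            refine List.map_congr_left fun t ht => ?_
            rw [Function.update_of_ne]
            have := List.mem_range.1 ht
            omega
          · show k + 1 ≤ (s.1 ++ [_]).length
            rw [List.length_append]
            exact Nat.succ_le_succ hk.len
          · show (s.1 ++ [_]).length = _
            rw [List.length_append]
            rfl
        · rw [if_neg hc2]
          obtain ⟨h1, h2⟩ := sinv_adv h hr (fun z hz hc => by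
            rw [hρ]
            intro he
            have he' : T = (ofQ I.lp).edgeName (valI I s.2.1) z := Option.some.inj he
            obtain ⟨h3, h4⟩ := try_complete I h.vert hz hc
            rw [← he'] at h3 h4
            rcases h4 with h4 | h4
            · exact hc1 ⟨h3, h4⟩
            · exact hc2 ⟨h3, h4.1, h4.2⟩)
          exact ⟨h1, fun h3 => ⟨hr, h2 h3⟩⟩
  · rw [if_neg hr]
    exact ⟨h, fun h1 => absurd h1 hr⟩

/-- all states of the simulation -/
theorem sinv_iter (ρ : BlindRule) (I : Input) (t : ℕ) :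
    SInv ρ I ((simStep ρ (fixOf I))^[t] (sim0 I)) ∧
      (((simStep ρ (fixOf I))^[t] (sim0 I)).2.2.1 = .running →
        ((simStep ρ (fixOf I))^[t] (sim0 I)).1.length = t) := by
  induction t with
  | zero => exact ⟨sinv_zero ρ I, fun _ => rfl⟩
  | succ t ih =>
    rw [Function.iterate_succ_apply']
    obtain ⟨h1, h2⟩ := sinv_step ih.1
    refine ⟨h1, fun h3 => ?_⟩
    obtain ⟨h4, h5⟩ := h2 h3
    rw [h5, ih.2 h4]

/-- A rule that solves the program within `B` answers gives a run of the simplex method with at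
most `B` pivots. -/
theorem run_of_solves {ρ : BlindRule} {I : Input} {B : ℕ} (h : Solves ρ (ofQ I.lp) B) :
    ∃ (N : ℕ) (x : ℕ → Fin I.n → ℚ) (s : Verdict), SimplexRun I N x s ∧ N ≤ B ∧
      outSim ((simStep ρ (fixOf I))^[B + 1] (sim0 I)) = protocol N x s := by
  obtain ⟨h1, h2⟩ := sinv_iter ρ I (B + 1)
  set s := (simStep ρ (fixOf I))^[B + 1] (sim0 I) with hs
  have hB := (h (toReal I.v) I.vertex s.1 _ h1.play).1
  have hne : s.2.2.1 ≠ .running := by
    intro hr
    have := h2 hr
    omega
  obtain ⟨k, x, hk⟩ := h1.out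
  have hx : toReal (x k) = valI I s.2.1 := by
    rw [hk.last, toReal_qv]
  refine ⟨k, x, verd s.2.2.1, ⟨hk.zero, hk.step, ?_⟩, hk.len.trans hB, ?_⟩
  · rw [hx]
    rcases h1.fin with ⟨h3, h4⟩ | ⟨h3, h4⟩ | h3
    · exact Or.inl ⟨by rw [h3]; rfl, h4⟩
    · exact Or.inr ⟨by rw [h3]; rfl, h4⟩
    · exact absurd h3 hne
  · unfold outSim protocol
    rw [List.range_succ, List.map_append, List.map_singleton, hk.out]
    congr 1
    · refine List.map_congr_left fun t ht => ?_
      unfold reportAt
      rw [if_pos (List.mem_range.1 ht)]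
    · unfold reportAt
      rw [if_neg (lt_irrefl _), hk.last, ofFn_qv (length_pt h1.pt)]

end Pool.Agent.Simplex.EB
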