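import Pool.Agent.Lib.MP_4d246d_lc.EB.SlimLin

/-!
# Nonnegative tables with the given line sums come from the variables
-/

namespace Pool.Agent.Simplex.EB

open Pool.Agent.Lib.PolyTime Pool.Agent.Simplex.QP

/-! ### The places of a row of the table -/

namespace SlimInv

theorem hgt_le (X : Mat) (hm : 0 < X.2.length) (e : ℕ) : hgt X e ≤ X.2.length := by
  unfold hgt
  split_ifs
  · exact (Nat.mod_lt _ hm).le
  · exact le_rfl

theorem half_lt {X : Mat} {e : ℕ} (he : e < slr X) : e / 2 < slR X := by
  unfold slr at he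
  omega

theorem cV_lt {X : Mat} {e : ℕ} (he : e < slr X) : cV X e < X.1 + X.2.length := by
  unfold cV
  have h := half_lt he
  unfold slR at h
  rcases Nat.eq_zero_or_pos X.2.length with h0 | h0
  · rw [h0] at h
    omega
  · exact (Nat.div_lt_iff_lt_mul h0).2 h

theorem pair_lt {X : Mat} {v s : ℕ} (hv : v < X.1 + X.2.length) (hs : s < X.2.length) :
    v * X.2.length + s < slR X := by
  unfold slR
  calc v * X.2.length + s < v * X.2.length + X.2.length := by omega
    _ = (v + 1) * X.2.length := by ring
    _ ≤ (X.1 + X.2.length) * X.2.length := Nat.mul_le_mul_right _ hv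

theorem colc_lt {X : Mat} (hm : 0 < X.2.length) {e : ℕ} (he : e < slr X) :
    colc X e < slR X := by
  unfold colc
  split_ifs
  · exact half_lt he
  · exact pair_lt (cV_lt he) (Nat.mod_lt _ hm)

theorem kind_hgt (X : Mat) (e K : ℕ) :
    kind X e (hgt X e) K = if K = 0 then 1 else if K = 1 then 2 else 0 := by
  unfold kind
  rw [if_pos rfl]

theorem kind_mid {X : Mat} (hm : 0 < X.2.length) (e K : ℕ) :
    kind X e (X.2.length + 1 + e / 2) K = if K = 0 then 2 else if K = 1 then 0 else 1 := by
  unfold kind
  have h := hgt_le X hm e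
  rw [if_neg (by omega), if_pos rfl]

theorem kind_col {X : Mat} (hm : 0 < X.2.length) {e : ℕ} (he : e < slr X) (K : ℕ) :
    kind X e (X.2.length + 1 + (slR X + colc X e)) K =
      if K = 0 then 0 else if K = 1 then 1 else 2 := by
  unfold kind
  have h := hgt_le X hm e
  have h2 := half_lt he
  rw [if_neg (by omega), if_neg (by omega), if_pos rfl]

theorem kind_else {X : Mat} {e J : ℕ} (h1 : J ≠ hgt X e) (h2 : J ≠ X.2.length + 1 + e / 2)
    (h3 : J ≠ X.2.length + 1 + (slR X + colc X e)) (K : ℕ) : kind X e J K = 0 := by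
  unfold kind
  rw [if_neg h1, if_neg h2, if_neg h3]

theorem kind_le (X : Mat) (e J K : ℕ) : kind X e J K ≤ 2 := by
  unfold kind
  split_ifs <;> omega

theorem kind_low {X : Mat} {J : ℕ} (hJ : J ≤ X.2.length) (e : ℕ) : kind X e J 2 = 0 := by
  unfold kind
  rw [if_neg (by omega : ¬ J = X.2.length + 1 + e / 2),
    if_neg (by omega : ¬ J = X.2.length + 1 + (slR X + colc X e))]
  split_ifs
  all_goals simp_all

theorem kind_mid1 {X : Mat} (hm : 0 < X.2.length) {p : ℕ} (hp : p < slR X) (e : ℕ) :
    kind X e (X.2.length + 1 + p) 1 = 0 := by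
  unfold kind
  have h := hgt_le X hm e
  rw [if_neg (by omega), if_neg (by omega : ¬ X.2.length + 1 + p =
    X.2.length + 1 + (slR X + colc X e))]
  split_ifs
  all_goals simp_all

theorem kind_col0 {X : Mat} (hm : 0 < X.2.length) {j e : ℕ} (he : e < slr X) :
    kind X e (X.2.length + 1 + (slR X + j)) 0 = 0 := by
  unfold kind
  have h := hgt_le X hm e
  have h2 := half_lt he
  rw [if_neg (by omega), if_neg (by omega)]
  split_ifs
  all_goals simp_all

/-! ### The values of the table -/

/-- the value of a cell -/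
noncomputable def yv (X : Mat) (U : ℝ) (w : ℕ → ℝ) (e : ℕ) : ℝ :=
  if e % 2 = 0 then w (cV X e) else U - w (cV X e)

theorem tab_ix {X : Mat} (U : ℝ) (w : ℕ → ℝ) {e J K : ℕ} (hJ : J < slc X) (hK : K < 3) :
    tab X U w (ix (slc X) e J K) = if kind X e J K = 1 then yv X U w e
      else if kind X e J K = 2 then U - yv X U w e else 0 := by
  obtain ⟨h1, h2, h3⟩ := ix_div (e := e) hJ hK
  have hk := kind_le X e J K
  unfold tab tk yv
  rw [h1, h2, h3]
  by_cases he : e % 2 = 0
  · simp only [he, if_true]
  · simp only [he, if_false]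
    interval_cases hq : kind X e J K
    · norm_num
    · norm_num
    · norm_num

theorem lsum_sub (r c p : ℕ) (f g : ℕ → ℝ) :
    lsum r c p (fun q => f q - g q) = lsum r c p f - lsum r c p g := by
  unfold lsum
  rw [← Finset.sum_sub_distrib]
  refine Finset.sum_congr rfl fun q _ => ?_
  split_ifs
  · rfl
  · rw [sub_zero]

theorem lsum_congr {r c p : ℕ} {f g : ℕ → ℝ} (h : ∀ q < 3 * (r * c), f q = g q) :
    lsum r c p f = lsum r c p g := by
  unfold lsum
  refine Finset.sum_congr rfl fun q hq => ?_
  rw [h q (Finset.mem_range.1 hq)]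

theorem tab_zero {X : Mat} (U : ℝ) (w : ℕ → ℝ) {e J K : ℕ} (hJ : J < slc X) (hK : K < 3)
    (hk : kind X e J K = 0) : tab X U w (ix (slc X) e J K) = 0 := by
  rw [tab_ix U w hJ hK, hk]
  norm_num

/-! ### Tables with the same line sums -/

section

variable {X : Mat} {U : ℝ} {w₀ z : ℕ → ℝ}

/-- zero entries from the lines `(·, J, K)` -/
theorem zero_of_B (hz : ∀ q < 3 * (slr X * slc X), 0 ≤ z q)
    (h : ∀ p < lines (slr X) (slc X),
      lsum (slr X) (slc X) p z = lsum (slr X) (slc X) p (tab X U w₀)) {J K : ℕ}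
    (hJ : J < slc X) (hK : K < 3) (hk : ∀ e < slr X, kind X e J K = 0) :
    ∀ e < slr X, z (ix (slc X) e J K) = 0 := by
  have h1 := (forall_lines.1 h).2.1 J hJ K hK
  rw [lsum_B hJ hK, lsum_B hJ hK] at h1
  have h2 : ∑ e ∈ Finset.range (slr X), tab X U w₀ (ix (slc X) e J K) = 0 :=
    Finset.sum_eq_zero fun e he => tab_zero U w₀ hJ hK (hk e (Finset.mem_range.1 he))
  rw [h2] at h1
  intro e he
  exact (Finset.sum_eq_zero_iff_of_nonneg fun e he =>
    hz _ (ix_lt (Finset.mem_range.1 he) hJ hK)).1 h1 e (Finset.mem_range.2 he)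

/-- zero entries from the lines `(e, J, ·)` -/
theorem zero_of_A (hz : ∀ q < 3 * (slr X * slc X), 0 ≤ z q)
    (h : ∀ p < lines (slr X) (slc X),
      lsum (slr X) (slc X) p z = lsum (slr X) (slc X) p (tab X U w₀)) {e J : ℕ}
    (he : e < slr X) (hJ : J < slc X) (hk : ∀ K, kind X e J K = 0) :
    ∀ K < 3, z (ix (slc X) e J K) = 0 := by
  have h1 := (forall_lines.1 h).1 e he J hJ
  rw [lsum_A he hJ, lsum_A he hJ] at h1
  have h2 : ∑ K ∈ Finset.range 3, tab X U w₀ (ix (slc X) e J K) = 0 :=
    Finset.sum_eq_zero fun K hK => tab_zero U w₀ hJ (Finset.mem_range.1 hK) (hk K)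
  rw [h2] at h1
  intro K hK
  exact (Finset.sum_eq_zero_iff_of_nonneg fun K hK =>
    hz _ (ix_lt he hJ (Finset.mem_range.1 hK))).1 h1 K (Finset.mem_range.2 hK)

/-- all entries are zero at the zero places -/
theorem z_zero (hm : 0 < X.2.length) (hz : ∀ q < 3 * (slr X * slc X), 0 ≤ z q)
    (h : ∀ p < lines (slr X) (slc X),
      lsum (slr X) (slc X) p z = lsum (slr X) (slc X) p (tab X U w₀)) {e J K : ℕ}
    (he : e < slr X) (hJ : J < slc X) (hK : K < 3) (hk : kind X e J K = 0) :
    z (ix (slc X) e J K) = 0 := by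
  by_cases h1 : J = hgt X e
  · have hK2 : K = 2 := by
      rw [h1, kind_hgt] at hk
      split_ifs at hk <;> omega
    subst hK2
    refine zero_of_B hz h hJ hK (fun e' _ => kind_low ?_ e') e he
    rw [h1]
    exact hgt_le X hm e
  by_cases h2 : J = X.2.length + 1 + e / 2
  · have hK1 : K = 1 := by
      rw [h2, kind_mid hm] at hk
      split_ifs at hk <;> omega
    subst hK1
    refine zero_of_B hz h hJ hK (fun e' _ => ?_) e he
    rw [h2]
    exact kind_mid1 hm (half_lt he) e'
  by_cases h3 : J = X.2.length + 1 + (slR X + colc X e)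
  · have hK0 : K = 0 := by
      rw [h3, kind_col hm he] at hk
      split_ifs at hk <;> omega
    subst hK0
    refine zero_of_B hz h hJ hK (fun e' he' => ?_) e he
    rw [h3]
    exact kind_col0 hm he'
  · exact zero_of_A hz h he hJ (kind_else h1 h2 h3) K hK

end

/-- A table with line sums zero which is zero at the zero places. -/
structure Flat (X : Mat) (u : ℕ → ℝ) : Prop where
  lines : ∀ p < lines (slr X) (slc X), lsum (slr X) (slc X) p u = 0
  zero : ∀ e < slr X, ∀ J < slc X, ∀ K < 3, kind X e J K = 0 → u (ix (slc X) e J K) = 0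

namespace Flat

variable {X : Mat} {u : ℕ → ℝ}

/-- the value of a cell -/
def del (X : Mat) (u : ℕ → ℝ) (e : ℕ) : ℝ := u (ix (slc X) e (hgt X e) 0)

theorem hgt_lt (hm : 0 < X.2.length) (e : ℕ) : hgt X e < slc X := by
  have := hgt_le X hm e
  unfold slc
  omega

theorem mid_lt {e : ℕ} (he : e < slr X) : X.2.length + 1 + e / 2 < slc X := by
  have := half_lt he
  unfold slc
  omega

theorem col_lt (hm : 0 < X.2.length) {e : ℕ} (he : e < slr X) :
    X.2.length + 1 + (slR X + colc X e) < slc X := by
  have := colc_lt hm he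
  unfold slc
  omega

/-- the sum over a row of the table has three terms -/
theorem row_sum (hu : Flat X u) (hm : 0 < X.2.length) {e K : ℕ} (he : e < slr X) (hK : K < 3) :
    u (ix (slc X) e (hgt X e) K) + (u (ix (slc X) e (X.2.length + 1 + e / 2) K) +
      u (ix (slc X) e (X.2.length + 1 + (slR X + colc X e)) K)) = 0 := by
  have h1 := (forall_lines.1 hu.lines).2.2 e he K hK
  rw [lsum_C he hK] at h1
  rw [← h1]
  have hh := hgt_le X hm e
  have hhalf := half_lt he
  have hsub : ({hgt X e, X.2.length + 1 + e / 2, X.2.length + 1 + (slR X + colc X e)} :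
      Finset ℕ) ⊆ Finset.range (slc X) := by
    intro J hJ
    rw [Finset.mem_range]
    simp only [Finset.mem_insert, Finset.mem_singleton] at hJ
    rcases hJ with rfl | rfl | rfl
    · exact hgt_lt hm e
    · exact mid_lt he
    · exact col_lt hm he
  rw [← Finset.sum_subset hsub fun J hJ hJ' => ?_]
  · rw [Finset.sum_insert, Finset.sum_insert, Finset.sum_singleton]
    · rw [Finset.mem_singleton]
      omega
    · simp only [Finset.mem_insert, Finset.mem_singleton]
      omega
  · simp only [Finset.mem_insert, Finset.mem_singleton, not_or] at hJ'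
    exact hu.zero e he J (Finset.mem_range.1 hJ) K hK (kind_else hJ'.1 hJ'.2.1 hJ'.2.2 K)

/-- the sum over a line `(e, J, ·)` -/
theorem col_sum (hu : Flat X u) {e J : ℕ} (he : e < slr X) (hJ : J < slc X) :
    u (ix (slc X) e J 0) + u (ix (slc X) e J 1) + u (ix (slc X) e J 2) = 0 := by
  have h1 := (forall_lines.1 hu.lines).1 e he J hJ
  rw [lsum_A he hJ] at h1
  rw [← h1, Finset.sum_range_succ, Finset.sum_range_succ, Finset.sum_range_succ,
    Finset.sum_range_zero, zero_add]

/-- the six entries of a row of the table -/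
theorem six (hu : Flat X u) (hm : 0 < X.2.length) {e : ℕ} (he : e < slr X) :
    u (ix (slc X) e (hgt X e) 1) = - del X u e ∧
      u (ix (slc X) e (X.2.length + 1 + e / 2) 0) = - del X u e ∧
      u (ix (slc X) e (X.2.length + 1 + e / 2) 2) = del X u e ∧
      u (ix (slc X) e (X.2.length + 1 + (slR X + colc X e)) 1) = del X u e ∧
      u (ix (slc X) e (X.2.length + 1 + (slR X + colc X e)) 2) = - del X u e := by
  have a0 := hu.row_sum hm he (K := 0) (by norm_num)
  have a1 := hu.row_sum hm he (K := 1) (by norm_num)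
  have a2 := hu.row_sum hm he (K := 2) (by norm_num)
  have b0 := hu.col_sum he (hgt_lt hm e)
  have b1 := hu.col_sum he (mid_lt he)
  have b2 := hu.col_sum he (col_lt hm he)
  have c0 := hu.zero e he _ (hgt_lt hm e) 2 (by norm_num) (by rw [kind_hgt]; norm_num)
  have c1 := hu.zero e he _ (mid_lt he) 1 (by norm_num) (by rw [kind_mid hm]; norm_num)
  have c2 := hu.zero e he _ (col_lt hm he) 0 (by norm_num) (by rw [kind_col hm he]; norm_num)
  unfold del
  refine ⟨?_, ?_, ?_, ?_, ?_⟩ <;> linarith

/-- the entries in terms of the value of the cell -/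
theorem eq_del (hu : Flat X u) (hm : 0 < X.2.length) {e J K : ℕ} (he : e < slr X)
    (hJ : J < slc X) (hK : K < 3) : u (ix (slc X) e J K) =
      if kind X e J K = 1 then del X u e else if kind X e J K = 2 then - del X u e else 0 := by
  obtain ⟨h1, h2, h3, h4, h5⟩ := hu.six hm he
  by_cases g1 : J = hgt X e
  · subst g1
    rw [kind_hgt]
    interval_cases K
    · rfl
    · simpa using h1
    · simpa using hu.zero e he _ (hgt_lt hm e) 2 (by norm_num) (by rw [kind_hgt]; norm_num)
  by_cases g2 : J = X.2.length + 1 + e / 2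
  · subst g2
    rw [kind_mid hm]
    interval_cases K
    · simpa using h2
    · simpa using hu.zero e he _ (mid_lt he) 1 (by norm_num) (by rw [kind_mid hm]; norm_num)
    · simpa using h3
  by_cases g3 : J = X.2.length + 1 + (slR X + colc X e)
  · subst g3
    rw [kind_col hm he]
    interval_cases K
    · simpa using hu.zero e he _ (col_lt hm he) 0 (by norm_num)
        (by rw [kind_col hm he]; norm_num)
    · simpa using h4
    · simpa using h5
  · rw [kind_else g1 g2 g3]
    simpa using hu.zero e he J hJ K hK (kind_else g1 g2 g3 K)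

/-- the two cells of a pair -/
theorem del_odd (hu : Flat X u) (hm : 0 < X.2.length) {p : ℕ} (hp : p < slR X) :
    del X u (2 * p + 1) = - del X u (2 * p) := by
  have hJ : X.2.length + 1 + p < slc X := by
    unfold slc
    omega
  have hr : slr X = 2 * slR X := rfl
  have h1 := (forall_lines.1 hu.lines).2.1 _ hJ 0 (by norm_num)
  rw [lsum_B hJ (by norm_num)] at h1
  have hsub : ({2 * p, 2 * p + 1} : Finset ℕ) ⊆ Finset.range (slr X) := by
    intro e he
    simp only [Finset.mem_insert, Finset.mem_singleton] at he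
    rw [Finset.mem_range]
    omega
  rw [← Finset.sum_subset hsub fun e he he' => ?_] at h1
  · rw [Finset.sum_pair (by omega)] at h1
    have e1 := (hu.six hm (e := 2 * p) (by omega)).2.1
    have e2 := (hu.six hm (e := 2 * p + 1) (by omega)).2.1
    rw [show 2 * p / 2 = p by omega] at e1
    rw [show (2 * p + 1) / 2 = p by omega] at e2
    rw [e1, e2] at h1
    linarith
  · simp only [Finset.mem_insert, Finset.mem_singleton, not_or] at he'
    have h2 := hgt_le X hm e
    exact hu.zero e (Finset.mem_range.1 he) _ hJ 0 (by norm_num)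
      (kind_else (by omega) (by omega) (by omega) 0)

theorem div_pair {M v s : ℕ} (hs : s < M) : (v * M + s) / M = v := by
  rw [Nat.div_eq_iff (by omega)]
  constructor
  · exact Nat.le_add_right _ _
  · have : (v + 1) * M = v * M + M := by ring
    omega

theorem colc_odd (X : Mat) (j : ℕ) : colc X (2 * j + 1) = j := by
  unfold colc
  rw [if_pos (by omega)]
  omega

theorem colc_even (X : Mat) {v s : ℕ} (hs : s < X.2.length) :
    colc X (2 * (v * X.2.length + s)) =
      v * X.2.length + (if s = 0 then X.2.length - 1 else s - 1) := by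
  have h1 : 2 * (v * X.2.length + s) / 2 = v * X.2.length + s := by omega
  have h2 : (v * X.2.length + s) / X.2.length = v := div_pair hs
  have h3 : (v * X.2.length + s) % X.2.length = s := by
    rw [Nat.mul_comm, Nat.mul_add_mod, Nat.mod_eq_of_lt hs]
  unfold colc cV cS
  rw [if_neg (by omega), h1, h2, h3]
  congr 1
  split_ifs with h0
  · rw [h0, Nat.zero_add, Nat.mod_eq_of_lt (by omega)]
  · rw [show s + (X.2.length - 1) = (s - 1) + X.2.length by omega, Nat.add_mod_right,
      Nat.mod_eq_of_lt (by omega)]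

/-- the cells of two consecutive pairs -/
theorem del_next (hu : Flat X u) (hm : 0 < X.2.length) {v s : ℕ}
    (hv : v < X.1 + X.2.length) (hs : s + 1 < X.2.length) :
    del X u (2 * (v * X.2.length + (s + 1))) = - del X u (2 * (v * X.2.length + s) + 1) := by
  have hj := pair_lt hv (show s < X.2.length by omega)
  have hj1 := pair_lt hv hs
  have hJ : X.2.length + 1 + (slR X + (v * X.2.length + s)) < slc X := by
    unfold slc
    omega
  have hr : slr X = 2 * slR X := rfl
  have h1 := (forall_lines.1 hu.lines).2.1 _ hJ 1 (by norm_num)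
  rw [lsum_B hJ (by norm_num)] at h1
  have c1 := colc_odd X (v * X.2.length + s)
  have c2 := colc_even X (v := v) hs
  rw [if_neg (Nat.succ_ne_zero s), Nat.add_sub_cancel] at c2
  have hsub : ({2 * (v * X.2.length + (s + 1)), 2 * (v * X.2.length + s) + 1} : Finset ℕ) ⊆
      Finset.range (slr X) := by
    intro e he
    simp only [Finset.mem_insert, Finset.mem_singleton] at he
    rw [Finset.mem_range]
    omega
  rw [← Finset.sum_subset hsub fun e he he' => ?_] at h1
  · rw [Finset.sum_pair (by omega)] at h1
    have e1 := (hu.six hm (e := 2 * (v * X.2.length + (s + 1))) (by omega)).2.2.2.1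
    have e2 := (hu.six hm (e := 2 * (v * X.2.length + s) + 1) (by omega)).2.2.2.1
    rw [c2] at e1
    rw [c1] at e2
    rw [e1, e2] at h1
    linarith
  · simp only [Finset.mem_insert, Finset.mem_singleton, not_or] at he'
    have he2 := Finset.mem_range.1 he
    have h2 := hgt_le X hm e
    have h3 := half_lt he2
    refine hu.zero e he2 _ hJ 1 (by norm_num)
      (kind_else (by omega) (by omega) (fun hc => ?_) 1)
    have hc' : colc X e = v * X.2.length + s := by omega
    rcases Nat.even_or_odd' e with ⟨k, hk | hk⟩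
    · have hk2 : k = (k / X.2.length) * X.2.length + k % X.2.length := by
        rw [Nat.mul_comm]
        exact (Nat.div_add_mod k X.2.length).symm
      have hlt := Nat.mod_lt k hm
      have c3 := colc_even X (v := k / X.2.length) hlt
      rw [← hk2, ← hk, hc'] at c3
      have h6 : (if k % X.2.length = 0 then X.2.length - 1 else k % X.2.length - 1) <
          X.2.length := by
        split_ifs <;> omega
      have h4 : v = k / X.2.length := by
        rw [← div_pair (v := v) (show s < X.2.length by omega), c3, div_pair h6]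
      rw [← h4] at c3 hk2
      have h5 := Nat.add_left_cancel c3
      apply he'.1
      rw [hk]
      congr 1
      rw [hk2]
      congr 1
      split_ifs at h5
      · omega
      · omega
    · rw [hk, colc_odd] at hc'
      apply he'.2
      omega

/-- all cells of a variable agree -/
theorem del_even (hu : Flat X u) (hm : 0 < X.2.length) {v : ℕ} (hv : v < X.1 + X.2.length) :
    ∀ s < X.2.length, del X u (2 * (v * X.2.length + s)) = del X u (2 * (v * X.2.length)) := by
  intro s
  induction s with
  | zero =>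
    intro _
    rw [Nat.add_zero]
  | succ s ih =>
    intro hs
    rw [hu.del_next hm hv hs, hu.del_odd hm (pair_lt hv (by omega)), neg_neg]
    exact ih (by omega)

end Flat

/-- a nonnegative table with the line sums of the table of `w₀` is the table of some `w` -/
theorem main {X : Mat} (hX : UnitsM X) (hm : 0 < X.2.length) {U : ℝ} {w₀ z : ℕ → ℝ}
    (hz : ∀ q < 3 * (slr X * slc X), 0 ≤ z q)
    (h : ∀ p < lines (slr X) (slc X),
      lsum (slr X) (slc X) p z = lsum (slr X) (slc X) p (tab X U w₀)) :
    ∃ w : ℕ → ℝ, (∀ q < 3 * (slr X * slc X), z q = tab X U w q) ∧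
      (∀ v < X.1 + X.2.length, 0 ≤ w v) ∧
      ∀ s < X.2.length, ∑ v ∈ Finset.range (X.1 + X.2.length), (cof X s v : ℝ) * w v =
        ∑ v ∈ Finset.range (X.1 + X.2.length), (cof X s v : ℝ) * w₀ v := by
  set u : ℕ → ℝ := fun q => z q - tab X U w₀ q with hu0
  have hu : Flat X u := by
    refine ⟨fun p hp => ?_, fun e he J hJ K hK hk => ?_⟩
    · rw [hu0, lsum_sub, h p hp, sub_self]
    · show z _ - tab X U w₀ _ = 0
      rw [z_zero hm hz h he hJ hK hk, tab_zero U w₀ hJ hK hk, sub_self]
  set w : ℕ → ℝ := fun v => w₀ v + Flat.del X u (2 * (v * X.2.length)) with hw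
  have hy : ∀ e < slr X, yv X U w e = yv X U w₀ e + Flat.del X u e := by
    intro e he
    have hv := cV_lt he
    have hs : cS X e < X.2.length := Nat.mod_lt _ hm
    have hp : e / 2 = cV X e * X.2.length + cS X e := by
      rw [Nat.mul_comm]
      exact (Nat.div_add_mod (e / 2) X.2.length).symm
    have h1 := hu.del_even hm hv _ hs
    unfold yv
    split_ifs with h2
    · have h3 : e = 2 * (cV X e * X.2.length + cS X e) := by omega
      show w₀ (cV X e) + Flat.del X u (2 * (cV X e * X.2.length)) = _
      rw [← h1, ← h3]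
    · have h3 : e = 2 * (cV X e * X.2.length + cS X e) + 1 := by omega
      have h4 := hu.del_odd hm (pair_lt hv hs)
      rw [← h3, h1] at h4
      show U - (w₀ (cV X e) + Flat.del X u (2 * (cV X e * X.2.length))) = _
      rw [h4]
      ring
  have hzt : ∀ q < 3 * (slr X * slc X), z q = tab X U w q := by
    intro q hq
    obtain ⟨e, J, K, he, hJ, hK, rfl⟩ := exists_ix hq
    have h1 := hu.eq_del hm he hJ hK
    have h2 : z (ix (slc X) e J K) = tab X U w₀ (ix (slc X) e J K) + u (ix (slc X) e J K) := by
      rw [hu0]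
      ring
    rw [h2, h1, tab_ix U w hJ hK, tab_ix U w₀ hJ hK, hy e he]
    split_ifs <;> ring
  refine ⟨w, hzt, fun v hv => ?_, fun s hs => ?_⟩
  · have he : 2 * (v * X.2.length + 0) < slr X := by
      have h1 := pair_lt hv hm
      have hr : slr X = 2 * slR X := rfl
      omega
    have hJ := Flat.hgt_lt hm (2 * (v * X.2.length + 0))
    have h1 := hz _ (ix_lt he hJ (show 0 < 3 by norm_num))
    rw [hzt _ (ix_lt he hJ (show 0 < 3 by norm_num)), tab_ix U w hJ (by norm_num), kind_hgt] at h1
    simp only [if_true] at h1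
    unfold yv at h1
    rw [if_pos (by omega)] at h1
    have h2 : cV X (2 * (v * X.2.length + 0)) = v := by
      unfold cV
      rw [Nat.add_zero, Nat.mul_div_cancel_left _ (by norm_num), Nat.mul_div_cancel _ hm]
    rwa [h2] at h1
  · have hJ : s < slc X := by
      unfold slc
      omega
    have h1 := (forall_lines.1 h).2.1 s hJ 0 (by norm_num)
    have h2 : lsum (slr X) (slc X) (slr X * slc X + (3 * s + 0)) z =
        lsum (slr X) (slc X) (slr X * slc X + (3 * s + 0)) (tab X U w) := lsum_congr hzt
    have h3 : ∀ q, tab X U w q - tab X U w₀ q = tab X 0 (fun v => w v - w₀ v) q := by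
      intro q
      have h4 := tab_add X 0 U (fun v => w v - w₀ v) w₀ q
      simp only [zero_add, sub_add_cancel] at h4
      rw [h4]
      ring
    have h5 := lsum_eqn hX (fun v => w v - w₀ v) hs
    have h6 : lsum (slr X) (slc X) (slr X * slc X + (3 * s + 0))
        (tab X 0 (fun v => w v - w₀ v)) = 0 := by
      rw [← lsum_congr (fun q _ => h3 q), lsum_sub, ← h2, h1, sub_self]
    rw [h6] at h5
    have h7 : ∑ v ∈ Finset.range (X.1 + X.2.length), (cof X s v : ℝ) * (w v - w₀ v) =
        ∑ v ∈ Finset.range (X.1 + X.2.length), (cof X s v : ℝ) * w v -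
          ∑ v ∈ Finset.range (X.1 + X.2.length), (cof X s v : ℝ) * w₀ v := by
      rw [← Finset.sum_sub_distrib]
      exact Finset.sum_congr rfl fun v _ => by ring
    rw [h7] at h5
    linarith

end SlimInv

/-- a nonnegative table with the line sums of the table of `w₀` is the table of some `w` -/
theorem tab_of_lsum {X : Mat} (hX : UnitsM X) (hm : 0 < X.2.length) {U : ℝ} {w₀ z : ℕ → ℝ}
    (hz : ∀ q < 3 * (slr X * slc X), 0 ≤ z q)
    (h : ∀ p < lines (slr X) (slc X),
      lsum (slr X) (slc X) p z = lsum (slr X) (slc X) p (tab X U w₀)) :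
    ∃ w : ℕ → ℝ, (∀ q < 3 * (slr X * slc X), z q = tab X U w q) ∧
      (∀ v < X.1 + X.2.length, 0 ≤ w v) ∧
      ∀ s < X.2.length, ∑ v ∈ Finset.range (X.1 + X.2.length), (cof X s v : ℝ) * w v =
        ∑ v ∈ Finset.range (X.1 + X.2.length), (cof X s v : ℝ) * w₀ v :=
  SlimInv.main hX hm hz h

end Pool.Agent.Simplex.EB
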