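import Pool.Agent.Lib.MP_4d246d_lc.EB.SlimInv

/-!
# The isomorphism with a transportation program
-/

namespace Pool.Agent.Simplex.EB

open Pool.Agent.Lib.PolyTime Pool.Agent.Simplex.QP

variable {m n : ℕ} {D : RLP m n}

private theorem si_getD_lt {β : Type*} {k : ℕ} (f : Fin k → β) (d : β) {i : ℕ} (hi : i < k) :
    (List.ofFn f).getD i d = f ⟨i, hi⟩ := by
  rw [List.getD_eq_getElem _ _ (by rw [List.length_ofFn]; exact hi), List.getElem_ofFn]

private theorem si_getD_ge {β : Type*} {k : ℕ} (f : Fin k → β) (d : β) {i : ℕ} (hi : k ≤ i) :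
    (List.ofFn f).getD i d = d :=
  List.getD_eq_default _ _ (by rw [List.length_ofFn]; exact hi)

theorem cof_mat_lt {s v : ℕ} (hs : s < m) (hv : v < n) :
    cof D.mat s v = D.A ⟨s, hs⟩ ⟨v, hv⟩ := by
  unfold cof RLP.mat
  dsimp only
  rw [if_pos hv, si_getD_lt _ _ hs, si_getD_lt _ _ hv]

theorem cof_mat_ge {s v : ℕ} (hv : n ≤ v) :
    cof D.mat s v = if v = n + s then 1 else 0 := by
  unfold cof RLP.mat
  dsimp only
  rw [if_neg (not_lt.2 hv)]

theorem units_mat (hA : Units D.A) : UnitsM D.mat := by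
  intro s v
  by_cases hv : v < n
  · by_cases hs : s < m
    · rw [cof_mat_lt hs hv]
      exact hA _ _
    · left
      unfold cof RLP.mat
      dsimp only
      rw [if_pos hv, si_getD_ge _ _ (not_lt.1 hs)]
      rfl
  · rw [cof_mat_ge (not_lt.1 hv)]
    split_ifs
    · exact Or.inr (Or.inl rfl)
    · exact Or.inl rfl

theorem lval_of_lt (x : Fin n → ℝ) {v : ℕ} (hv : v < n) : D.lval v x = x ⟨v, hv⟩ := by
  unfold RLP.lval
  rw [dif_pos hv]
  rfl

theorem lval_of_ge (x : Fin n → ℝ) {i : ℕ} (hi : i < m) :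
    D.lval (n + i) x = - ∑ j, (D.A ⟨i, hi⟩ j : ℝ) * x j := by
  unfold RLP.lval
  rw [dif_neg (by omega)]
  have h1 : n + i - n = i := by omega
  rw [dif_pos (by omega)]
  simp only [h1, LinearMap.neg_apply, LinearMap.sum_apply, LinearMap.smul_apply,
    LinearMap.proj_apply, smul_eq_mul]

/-- sum over the variables with the coefficients of the equation `s` -/
theorem sum_cof (w : ℕ → ℝ) {s : ℕ} (hs : s < m) :
    ∑ v ∈ Finset.range (n + m), (cof D.mat s v : ℝ) * w v =
      ∑ j : Fin n, (D.A ⟨s, hs⟩ j : ℝ) * w j + w (n + s) := by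
  rw [Finset.sum_range_add]
  congr 1
  · rw [Finset.sum_range]
    refine Finset.sum_congr rfl fun j _ => ?_
    rw [cof_mat_lt hs j.2]
  · rw [Finset.sum_eq_single s]
    · rw [cof_mat_ge (by omega), if_pos rfl]
      push_cast
      ring
    · intro i _ hi
      rw [cof_mat_ge (by omega), if_neg (by omega)]
      push_cast
      ring
    · intro h
      exact absurd (Finset.mem_range.2 hs) h

/-- the equation `s` -/
theorem cof_eqn (x : Fin n → ℝ) {s : ℕ} (hs : s < m) :
    ∑ v ∈ Finset.range (n + m), (cof D.mat s v : ℝ) * D.lval v x = 0 := by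
  rw [sum_cof (fun v => D.lval v x) hs, lval_of_ge x hs]
  have h1 : ∀ j : Fin n, (D.A ⟨s, hs⟩ j : ℝ) * D.lval j x = (D.A ⟨s, hs⟩ j : ℝ) * x j :=
    fun j => by rw [lval_of_lt x j.2]
  rw [Finset.sum_congr rfl fun j _ => h1 j]
  ring

theorem cval_lt {v : ℕ} (hv : v < n) : D.cval v = 0 := by
  unfold RLP.cval
  rw [if_pos hv]

theorem cval_ge {i : ℕ} (hi : i < m) : D.cval (n + i) = D.b ⟨i, hi⟩ := by
  unfold RLP.cval
  have h1 : n + i - n = i := by omega
  rw [if_neg (by omega), dif_pos (by omega)]
  simp only [h1]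

theorem lval_lt (x : Fin n → ℝ) (j : Fin n) : D.lval j x + D.cval j = x j := by
  rw [lval_of_lt x j.2, cval_lt j.2, add_zero]

theorem lval_ge (x : Fin n → ℝ) (i : Fin m) :
    D.lval (n + i) x + D.cval (n + i) = D.b i - ∑ j, (D.A i j : ℝ) * x j := by
  rw [lval_of_ge x i.2, cval_ge i.2]
  ring

theorem hgt_le (X : Mat) (hm : 0 < X.2.length) (e : ℕ) : hgt X e ≤ X.2.length := by
  unfold hgt
  split_ifs
  · exact (Nat.mod_lt _ hm).le
  · exact le_rfl

/-- the value of `slp0` -/
theorem slp0_spec (X : Mat) (hm : 0 < X.2.length) {v : ℕ} (hv : v < X.1 + X.2.length) :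
    slp0 X v < 3 * (slr X * slc X) ∧ tk X (slp0 X v) = 1 ∧
      cV X (slp0 X v / 3 / slc X) = v := by
  have h1 : v * X.2.length < slR X := by
    unfold slR
    exact Nat.mul_lt_mul_of_pos_right hv hm
  have he : 2 * (v * X.2.length) < slr X := by
    unfold slr
    omega
  have hJ : X.2.length + 1 + v * X.2.length < slc X := by
    unfold slc
    omega
  obtain ⟨e1, e2, e3⟩ := ix_div (e := 2 * (v * X.2.length)) hJ (by norm_num : 2 < 3)
  refine ⟨ix_lt he hJ (by norm_num), ?_, ?_⟩
  · unfold tk slp0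
    rw [e1, e2, e3, if_pos (by omega)]
    unfold kind
    have h2 := hgt_le X hm (2 * (v * X.2.length))
    rw [if_neg (by omega), if_pos (by omega), if_neg (by norm_num), if_neg (by norm_num)]
  · unfold slp0
    rw [e1]
    unfold cV
    rw [Nat.mul_div_cancel_left _ (by norm_num : 0 < 2), Nat.mul_div_cancel _ hm]

/-- the variable of a cell -/
theorem cV_lt (X : Mat) {q : ℕ} (hq : q < 3 * (slr X * slc X)) :
    cV X (q / 3 / slc X) < X.1 + X.2.length := by
  obtain ⟨e, J, K, he, hJ, hK, rfl⟩ := exists_ix hq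
  rw [(ix_div hJ hK).1]
  unfold slr slR at he
  unfold cV
  refine Nat.div_lt_of_lt_mul ?_
  rw [mul_comm]
  omega

theorem tab_congr {X : Mat} {U : ℝ} {w w' : ℕ → ℝ}
    (h : ∀ v < X.1 + X.2.length, w v = w' v) {q : ℕ} (hq : q < 3 * (slr X * slc X)) :
    tab X U w q = tab X U w' q := by
  unfold tab
  rw [h _ (cV_lt X hq)]

/-- linear part of the map to tables -/
noncomputable def slimL (D : RLP m n) :
    (Fin n → ℝ) →ₗ[ℝ] (Fin (3 * (slr D.mat * slc D.mat)) → ℝ) where
  toFun x q := tab D.mat 0 (fun v => D.lval v x) q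
  map_add' x y := by
    funext q
    have h1 := tab_add D.mat 0 0 (fun v => D.lval v x) (fun v => D.lval v y) q
    rw [add_zero] at h1
    rw [Pi.add_apply, ← h1]
    congr 1
    funext v
    exact map_add _ _ _
  map_smul' t x := by
    funext q
    have h1 := tab_smul D.mat t 0 (fun v => D.lval v x) q
    rw [mul_zero] at h1
    rw [RingHom.id_apply, Pi.smul_apply, smul_eq_mul, ← h1]
    congr 1
    funext v
    exact map_smul _ _ _

theorem slimL_apply (x : Fin n → ℝ) (q : Fin (3 * (slr D.mat * slc D.mat))) :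
    slimL D x q = tab D.mat 0 (fun v => D.lval v x) q := rfl

theorem slimL_add (U : ℝ) (x : Fin n → ℝ) (q : ℕ) :
    tab D.mat 0 (fun v => D.lval v x) q + tab D.mat U D.cval q =
      tab D.mat U (fun v => D.lval v x + D.cval v) q := by
  rw [← tab_add, zero_add]

theorem lsum_add (r c p : ℕ) (f g : ℕ → ℝ) :
    lsum r c p (fun q => f q + g q) = lsum r c p f + lsum r c p g := by
  unfold lsum
  rw [← Finset.sum_add_distrib]
  refine Finset.sum_congr rfl fun q _ => ?_
  split_ifs
  · rfl
  · rw [add_zero]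

theorem lsum_congr {r c p : ℕ} {f g : ℕ → ℝ} (h : ∀ q < 3 * (r * c), f q = g q) :
    lsum r c p f = lsum r c p g := by
  unfold lsum
  refine Finset.sum_congr rfl fun q hq => ?_
  rw [h q (Finset.mem_range.1 hq)]

theorem tab_slp0 (hm : 0 < m) (U : ℝ) (w : ℕ → ℝ) {v : ℕ} (hv : v < n + m) :
    tab D.mat U w (slp0 D.mat v) = w v := by
  have hl : D.mat.2.length = m := by
    unfold RLP.mat
    rw [List.length_ofFn]
  have h1 := slp0_spec D.mat (by rw [hl]; exact hm) (v := v) (by rw [hl]; exact hv)
  unfold tab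
  rw [if_pos h1.2.1, h1.2.2]

theorem slp0_lt (hm : 0 < m) {v : ℕ} (hv : v < n + m) :
    slp0 D.mat v < 3 * (slr D.mat * slc D.mat) := by
  have hl : D.mat.2.length = m := by
    unfold RLP.mat
    rw [List.length_ofFn]
  exact (slp0_spec D.mat (by rw [hl]; exact hm) (v := v) (by rw [hl]; exact hv)).1

theorem slim_inj (hm : 0 < m) : Function.Injective (slimL D) := by
  intro x y hxy
  funext j
  have h1 := congrFun hxy ⟨slp0 D.mat j, slp0_lt hm (by omega)⟩
  rw [slimL_apply, slimL_apply] at h1
  dsimp only at h1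
  rw [tab_slp0 hm _ _ (by omega : (j : ℕ) < n + m), tab_slp0 hm _ _ (by omega : (j : ℕ) < n + m),
    lval_of_lt x j.2, lval_of_lt y j.2] at h1
  exact h1

theorem slim_feas (hA : Units D.A) (hm : 0 < m) {U : ℝ} (hU : D.Under U) :
    (D.slim U).feasible = (fun x => slimL D x + fun q : Fin _ => tab D.mat U D.cval q) ''
      D.feasible := by
  have hl : D.mat.2.length = m := by
    unfold RLP.mat
    rw [List.length_ofFn]
  have hn : D.mat.1 = n := rfl
  have hX := units_mat hA
  have hadd : ∀ x : Fin n → ℝ, (slimL D x + fun q : Fin _ => tab D.mat U D.cval q) =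
      fun q : Fin (3 * (slr D.mat * slc D.mat)) =>
        tab D.mat U (fun v => D.lval v x + D.cval v) q := by
    intro x
    funext q
    rw [Pi.add_apply, slimL_apply, slimL_add]
  have hcases : ∀ v < n + m, v < n ∨ ∃ i < m, v = n + i := by
    intro v hv
    by_cases h : v < n
    · exact Or.inl h
    · exact Or.inr ⟨v - n, by omega, by omega⟩
  ext z
  constructor
  · intro hz
    set z' : ℕ → ℝ := fun q => if h : q < 3 * (slr D.mat * slc D.mat) then z ⟨q, h⟩ else 0
      with hz'
    have hzz : z = fun q : Fin (3 * (slr D.mat * slc D.mat)) => z' q := by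
      funext q
      rw [hz']
      dsimp only
      rw [dif_pos q.2]
    rw [hzz] at hz
    unfold RLP.slim at hz
    rw [transport_feasible] at hz
    obtain ⟨h1, h2⟩ := hz
    obtain ⟨w, h3, h4, h5⟩ := tab_of_lsum hX (by rw [hl]; exact hm) (w₀ := D.cval) h2
      (fun p hp => h1 ⟨p, hp⟩)
    rw [hl, hn] at h4 h5
    set x : Fin n → ℝ := fun j => w j with hx
    have hw : ∀ v < n + m, w v = D.lval v x + D.cval v := by
      intro v hv
      rcases hcases v hv with h | ⟨i, hi, rfl⟩
      · rw [lval_of_lt x h, cval_lt h, add_zero]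
      · have h6 := h5 i hi
        rw [sum_cof w hi, sum_cof D.cval hi] at h6
        have h7 : ∑ j : Fin n, (D.A ⟨i, hi⟩ j : ℝ) * D.cval j = 0 := by
          refine Finset.sum_eq_zero fun j _ => ?_
          rw [cval_lt j.2, mul_zero]
        rw [h7, zero_add] at h6
        rw [lval_of_ge x hi]
        have h8 : ∑ j : Fin n, (D.A ⟨i, hi⟩ j : ℝ) * x j =
            ∑ j : Fin n, (D.A ⟨i, hi⟩ j : ℝ) * w j := rfl
        rw [h8]
        linarith
    refine ⟨x, ⟨fun i => ?_, fun j => ?_⟩, ?_⟩
    · have h6 := h4 (n + i) (by omega)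
      rw [hw (n + i) (by omega), lval_ge x i] at h6
      linarith
    · exact h4 j (by omega)
    · show (slimL D x + fun q : Fin _ => tab D.mat U D.cval q) = z
      rw [hadd x, hzz]
      funext q
      rw [h3 q q.2]
      refine tab_congr (fun v hv => ?_) q.2
      rw [hl, hn] at hv
      exact (hw v hv).symm
  · rintro ⟨x, hx, rfl⟩
    show (slimL D x + fun q : Fin _ => tab D.mat U D.cval q) ∈ _
    rw [hadd x]
    unfold RLP.slim
    rw [transport_feasible]
    have hw0 : ∀ v < n + m, 0 ≤ D.lval v x + D.cval v := by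
      intro v hv
      rcases hcases v hv with h | ⟨i, hi, rfl⟩
      · have := lval_lt (D := D) x ⟨v, h⟩
        dsimp only at this
        rw [this]
        exact hx.2 _
      · have h6 := lval_ge (D := D) x ⟨i, hi⟩
        dsimp only at h6
        rw [h6]
        have := hx.1 ⟨i, hi⟩
        linarith
    constructor
    · intro p
      have h1 : lsum (slr D.mat) (slc D.mat) p
          (fun q => tab D.mat U (fun v => D.lval v x + D.cval v) q) =
          lsum (slr D.mat) (slc D.mat) p (fun q => tab D.mat 0 (fun v => D.lval v x) q +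
            tab D.mat U D.cval q) := by
        refine lsum_congr fun q _ => ?_
        rw [slimL_add]
      rw [h1, lsum_add]
      have h2 : lsum (slr D.mat) (slc D.mat) p (fun q => tab D.mat 0 (fun v => D.lval v x) q) =
          0 := by
        refine lsum_zero hX (w := fun v => D.lval v x) (fun s hs => ?_) p p.2
        rw [hl] at hs
        rw [hl, hn]
        exact cof_eqn x hs
      rw [h2, zero_add]
    · intro q hq
      have h1 := cV_lt D.mat hq
      rw [hl, hn] at h1
      have h2 := hw0 _ h1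
      have h3 := hU x hx _ h1
      unfold tab
      split_ifs
      · exact h2
      · linarith
      · exact le_rfl

/-- the isomorphism -/
noncomputable def slimIso (hA : Units D.A) (hm : 0 < m) {U : ℝ} (hU : D.Under U) :
    AIso D (D.slim U) where
  L := slimL D
  a q := tab D.mat U D.cval q
  inj := slim_inj hm
  feas := slim_feas hA hm hU
  obj x := by
    have hadd : ∀ q : Fin (3 * (slr D.mat * slc D.mat)),
        (slimL D x + fun q : Fin (3 * (slr D.mat * slc D.mat)) => tab D.mat U D.cval q) q =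
          tab D.mat U (fun v => D.lval v x + D.cval v) q := by
      intro q
      rw [Pi.add_apply, slimL_apply, slimL_add]
    unfold RLP.obj
    simp only [hadd]
    have h0 : ∀ q : Fin (3 * (slr D.mat * slc D.mat)), (D.slim U).c q =
        ∑ j : Fin n, if (q : ℕ) = slp0 D.mat j then D.c j else 0 := fun _ => rfl
    simp only [h0, Finset.sum_mul]
    rw [Finset.sum_comm]
    refine Finset.sum_congr rfl fun j _ => ?_
    rw [Finset.sum_eq_single (⟨slp0 D.mat j, slp0_lt hm (by omega)⟩ :
      Fin (3 * (slr D.mat * slc D.mat)))]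
    · dsimp only
      rw [if_pos rfl, tab_slp0 hm _ _ (by omega : (j : ℕ) < n + m), lval_lt]
    · intro q _ hq
      rw [if_neg, zero_mul]
      intro h
      exact hq (Fin.ext h)
    · intro h
      exact absurd (Finset.mem_univ _) h

end Pool.Agent.Simplex.EB
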