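import Pool.Agent.Lib.MP_4d246d_lc.EB.Iso
import Pool.Agent.Lib.MP_4d246d_lc.EB.Statement2

/-!
# Extension by defined variables

`T` new variables are added, the variable `n + t` is the sum of the variables in the list
`ins t`; the old row `i` becomes `w_(p i) - w_(q i) ≤ b_i`.
-/

namespace Pool.Agent.Simplex.EB

open Pool.Agent.Lib.PolyTime Pool.Agent.Simplex.QP

/-- evaluate the definitions in the type `M` -/
def run {M : Type*} (comb : List M → M) (d : M) (ins : ℕ → List ℕ) (T : ℕ) (l : List M) :
    List M :=
  (List.range T).foldl (fun l t => l ++ [comb ((ins t).map (fun a => l.getD a d))]) l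

section

variable {M : Type*} (comb : List M → M) (d : M) (ins : ℕ → List ℕ)

theorem run_succ (T : ℕ) (l : List M) : run comb d ins (T + 1) l =
    run comb d ins T l ++ [comb ((ins T).map (fun a => (run comb d ins T l).getD a d))] := by
  unfold run
  rw [List.range_succ, List.foldl_append]
  rfl

theorem length_run (T : ℕ) (l : List M) : (run comb d ins T l).length = l.length + T := by
  induction T with
  | zero => rfl
  | succ T ih => rw [run_succ, List.length_append, ih, List.length_singleton]; omega

theorem getD_run_lt (T : ℕ) (l : List M) {j : ℕ} (hj : j < l.length) :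
    (run comb d ins T l).getD j d = l.getD j d := by
  induction T with
  | zero => rfl
  | succ T ih =>
    rw [run_succ, List.getD_append _ _ _ _ (by rw [length_run]; omega), ih]

theorem getD_run (T : ℕ) (l : List M) {t : ℕ} (ht : t < T)
    (hins : ∀ a ∈ ins t, a < l.length + t) : (run comb d ins T l).getD (l.length + t) d =
      comb ((ins t).map (fun a => (run comb d ins T l).getD a d)) := by
  induction T with
  | zero => omega
  | succ T ih =>
    have h1 : (ins t).map (fun a => (run comb d ins (T + 1) l).getD a d) =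
        (ins t).map (fun a => (run comb d ins T l).getD a d) := by
      refine List.map_congr_left fun a ha => ?_
      rw [run_succ, List.getD_append _ _ _ _ (by rw [length_run]; have := hins a ha; omega)]
    rw [h1, run_succ]
    rcases Nat.lt_succ_iff_lt_or_eq.1 ht with h | h
    · rw [List.getD_append _ _ _ _ (by rw [length_run]; omega), ih h]
    · subst h
      rw [List.getD_append_right _ _ _ _ (by rw [length_run]), length_run, Nat.sub_self]
      rfl

end

/-- the definitions are well-formed -/
def OkI (n T : ℕ) (ins : ℕ → List ℕ) : Prop :=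
  ∀ t < T, (ins t).Nodup ∧ (∀ a ∈ ins t, a < n + t) ∧ (ins t).length ≤ 2

/-- the coordinates as linear forms -/
noncomputable def coord (n : ℕ) : List ((Fin n → ℝ) →ₗ[ℝ] ℝ) :=
  List.ofFn (fun j => LinearMap.proj j)

/-- all variables as linear forms in the old variables -/
noncomputable def forms (n T : ℕ) (ins : ℕ → List ℕ) : List ((Fin n → ℝ) →ₗ[ℝ] ℝ) :=
  run List.sum 0 ins T (coord n)

/-- the linear map to the new variables -/
noncomputable def phi (n T : ℕ) (ins : ℕ → List ℕ) : (Fin n → ℝ) →ₗ[ℝ] (Fin (n + T) → ℝ) :=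
  LinearMap.pi (fun j => (forms n T ins).getD j 0)

/-- entries of the new matrix: `m` rows, `T` definitions `≤`, `T` definitions `≥` -/
def ent (m n T : ℕ) (ins : ℕ → List ℕ) (p q : ℕ → ℕ) (i j : ℕ) : ℚ :=
  if i < m then (if j = p i then 1 else 0) - (if j = q i then 1 else 0)
  else if i < m + T then (if j = n + (i - m) then 1 else 0) - (if j ∈ ins (i - m) then 1 else 0)
  else (if j ∈ ins (i - m - T) then 1 else 0) - (if j = n + (i - m - T) then 1 else 0)

/-- the extended program -/
noncomputable def RLP.slp {m n : ℕ} (D : RLP m n) (T : ℕ) (ins : ℕ → List ℕ) (p q : ℕ → ℕ) :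
    RLP (m + (T + T)) (n + T) where
  A i j := ent m n T ins p q i j
  b i := if h : (i : ℕ) < m then sc D.A i * D.b ⟨i, h⟩ else 0
  c j := if h : (j : ℕ) < n then D.c ⟨j, h⟩ else 0

/-- the variables `p i` and `q i` compute the row `i` -/
def OkPQ {m n : ℕ} (D : RLP m n) (T : ℕ) (ins : ℕ → List ℕ) (p q : ℕ → ℕ) : Prop :=
  ∀ i : Fin m, p i < n + T ∧ q i < n + T ∧ p i ≠ q i ∧ ∀ x : Fin n → ℝ,
    (forms n T ins).getD (p i) 0 x - (forms n T ins).getD (q i) 0 x =
      sc D.A i * ∑ j, (D.A i j : ℝ) * x j

/-- the new name: the new definitions are always tight, and a defined variable is zero if and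
only if all the variables in its definition are zero -/
def fN (m T : ℕ) (ins : ℕ → List ℕ) (S : List Bool) : List Bool :=
  S.take m ++ (List.replicate (T + T) true ++
    run (fun l => l.all (fun b => b)) false ins T (S.drop m))

/-- the old name -/
def gN (m n T : ℕ) (S : List Bool) : List Bool :=
  S.take m ++ (S.drop (m + (T + T))).take n

section

variable {m n : ℕ} {D : RLP m n} {T : ℕ} {ins : ℕ → List ℕ} {p q : ℕ → ℕ}

/-- the recursion for the new variables -/
theorem phi_rec (hins : OkI n T ins) (x : Fin n → ℝ) {t : ℕ} (ht : t < T) :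
    (forms n T ins).getD (n + t) 0 x =
      ((ins t).map (fun a => (forms n T ins).getD a 0 x)).sum := by
  have hl : (coord n).length = n := by unfold coord; rw [List.length_ofFn]
  have h1 := getD_run List.sum (0 : (Fin n → ℝ) →ₗ[ℝ] ℝ) ins T (coord n) ht (by
    rw [hl]; exact (hins t ht).2.1)
  rw [hl] at h1
  unfold forms
  rw [h1]
  generalize ins t = l
  induction l with
  | nil => simp
  | cons a l ih => simp only [List.map_cons, List.sum_cons, LinearMap.add_apply, ih]

theorem phi_old (x : Fin n → ℝ) (j : Fin n) : (forms n T ins).getD j 0 x = x j := by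
  have hl : (coord n).length = n := by unfold coord; rw [List.length_ofFn]
  unfold forms
  rw [getD_run_lt _ _ _ _ _ (by rw [hl]; exact j.isLt)]
  unfold coord
  rw [List.getD_eq_getElem _ _ (by rw [List.length_ofFn]; exact j.isLt), List.getElem_ofFn]
  rfl

theorem phi_apply (x : Fin n → ℝ) (j : Fin (n + T)) :
    phi n T ins x j = (forms n T ins).getD j 0 x := rfl

/-- all new variables are nonnegative -/
theorem phi_nonneg (hins : OkI n T ins) {x : Fin n → ℝ} (hx : ∀ j, 0 ≤ x j) :
    ∀ j : ℕ, j < n + T → 0 ≤ (forms n T ins).getD j 0 x := by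
  intro j
  induction j using Nat.strong_induction_on with
  | _ j ih =>
    intro hj
    rcases Nat.lt_or_ge j n with h | h
    · rw [show j = ((⟨j, h⟩ : Fin n) : ℕ) from rfl, phi_old]
      exact hx _
    · obtain ⟨t, rfl⟩ := Nat.exists_eq_add_of_le h
      rw [phi_rec hins x (by omega)]
      refine List.sum_nonneg fun y hy => ?_
      rw [List.mem_map] at hy
      obtain ⟨a, ha, rfl⟩ := hy
      have := (hins t (by omega)).2.1 a ha
      exact ih a this (by omega)

/-- the sum over the list of a definition -/
theorem sum_ins (hins : OkI n T ins) {t : ℕ} (ht : t < T) (w : ℕ → ℝ) :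
    ∑ j : Fin (n + T), (if (j : ℕ) ∈ ins t then (1 : ℝ) else 0) * w j =
      ((ins t).map w).sum := by
  rw [Fin.sum_univ_eq_sum_range (fun j => (if j ∈ ins t then (1 : ℝ) else 0) * w j) (n + T)]
  simp only [ite_mul, one_mul, zero_mul]
  rw [← Finset.sum_filter]
  have h1 : (Finset.range (n + T)).filter (fun j => j ∈ ins t) = (ins t).toFinset := by
    ext j
    rw [Finset.mem_filter, Finset.mem_range, List.mem_toFinset]
    constructor
    · exact fun h => h.2
    · intro h
      have := (hins t ht).2.1 j h
      exact ⟨by omega, h⟩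
  rw [h1, List.sum_toFinset w (hins t ht).1]

theorem sum_one {N : ℕ} {a : ℕ} (ha : a < N) (w : ℕ → ℝ) :
    ∑ j : Fin N, (if (j : ℕ) = a then (1 : ℝ) else 0) * w j = w a := by
  rw [Fin.sum_univ_eq_sum_range (fun j => (if j = a then (1 : ℝ) else 0) * w j) N]
  simp only [ite_mul, one_mul, zero_mul]
  rw [Finset.sum_ite_eq', if_pos (Finset.mem_range.2 ha)]

/-- the old rows -/
theorem row_old {p q : ℕ → ℕ} {i : ℕ} (hi : i < m) (hp : p i < n + T) (hq : q i < n + T)
    (w : ℕ → ℝ) :
    ∑ j : Fin (n + T), ((ent m n T ins p q i j : ℚ) : ℝ) * w j = w (p i) - w (q i) := by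
  rw [← sum_one hp w, ← sum_one hq w, ← Finset.sum_sub_distrib]
  refine Finset.sum_congr rfl fun j _ => ?_
  unfold ent
  rw [if_pos hi]
  split_ifs <;> push_cast <;> ring

/-- the rows of the definitions -/
theorem row_le (hins : OkI n T ins) {p q : ℕ → ℕ} {t : ℕ} (ht : t < T) (w : ℕ → ℝ) :
    ∑ j : Fin (n + T), ((ent m n T ins p q (m + t) j : ℚ) : ℝ) * w j =
      w (n + t) - ((ins t).map w).sum := by
  rw [← sum_one (N := n + T) (show n + t < n + T by omega) w, ← sum_ins hins ht w,
    ← Finset.sum_sub_distrib]
  refine Finset.sum_congr rfl fun j _ => ?_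
  unfold ent
  rw [if_neg (by omega), if_pos (by omega), show m + t - m = t by omega]
  split_ifs <;> push_cast <;> ring

theorem row_ge (hins : OkI n T ins) {p q : ℕ → ℕ} {t : ℕ} (ht : t < T) (w : ℕ → ℝ) :
    ∑ j : Fin (n + T), ((ent m n T ins p q (m + T + t) j : ℚ) : ℝ) * w j =
      ((ins t).map w).sum - w (n + t) := by
  rw [← sum_one (N := n + T) (show n + t < n + T by omega) w, ← sum_ins hins ht w,
    ← Finset.sum_sub_distrib]
  refine Finset.sum_congr rfl fun j _ => ?_
  unfold ent
  rw [if_neg (by omega), if_neg (by omega), show m + T + t - m - T = t by omega]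
  split_ifs <;> push_cast <;> ring

theorem slp_feas (hins : OkI n T ins) (hpq : OkPQ D T ins p q) :
    (D.slp T ins p q).feasible = phi n T ins '' D.feasible := by
  ext y
  rw [Set.mem_image]
  constructor
  · rintro ⟨h1, h2⟩
    -- the value of the variable `j`
    set w : ℕ → ℝ := fun j => if h : j < n + T then y ⟨j, h⟩ else 0 with hw
    have hwy : ∀ j : Fin (n + T), w j = y j := by
      intro j
      rw [hw]
      simp only
      rw [dif_pos j.isLt]
    have hsum : ∀ i : ℕ, ∑ j : Fin (n + T), ((ent m n T ins p q i j : ℚ) : ℝ) * y j =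
        ∑ j : Fin (n + T), ((ent m n T ins p q i j : ℚ) : ℝ) * w j := fun i =>
      Finset.sum_congr rfl fun j _ => by rw [hwy]
    have hrec : ∀ t < T, w (n + t) = ((ins t).map w).sum := by
      intro t ht
      have a1 := h1 ⟨m + t, by omega⟩
      have a2 := h1 ⟨m + T + t, by omega⟩
      simp only [RLP.slp] at a1 a2
      rw [dif_neg (by omega)] at a1 a2
      rw [hsum, row_le hins ht] at a1
      rw [hsum, row_ge hins ht] at a2
      linarith
    set x : Fin n → ℝ := fun j => w j with hx
    have hphi : ∀ j : ℕ, j < n + T → (forms n T ins).getD j 0 x = w j := by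
      intro j
      induction j using Nat.strong_induction_on with
      | _ j ih =>
        intro hj
        rcases Nat.lt_or_ge j n with h | h
        · rw [show j = ((⟨j, h⟩ : Fin n) : ℕ) from rfl, phi_old]
        · obtain ⟨t, rfl⟩ := Nat.exists_eq_add_of_le h
          rw [phi_rec hins x (by omega), hrec t (by omega)]
          congr 1
          refine List.map_congr_left fun a ha => ?_
          have := (hins t (by omega)).2.1 a ha
          exact ih a this (by omega)
    refine ⟨x, ⟨?_, ?_⟩, ?_⟩
    · intro i
      have a1 := h1 ⟨i, by omega⟩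
      simp only [RLP.slp] at a1
      rw [dif_pos i.isLt, hsum, row_old i.isLt (hpq i).1 (hpq i).2.1, ← hphi _ (hpq i).1,
        ← hphi _ (hpq i).2.1, (hpq i).2.2.2 x] at a1
      exact le_of_mul_le_mul_left a1 (sc_pos D.A i)
    · intro j
      have := h2 ⟨j, by omega⟩
      rw [hx]
      simp only
      rw [← hwy] at this
      exact this
    · ext j
      rw [phi_apply, hphi j j.isLt, hwy]
  · rintro ⟨x, ⟨h1, h2⟩, rfl⟩
    obtain ⟨w, hw⟩ : ∃ w : ℕ → ℝ, ∀ j, w j = (forms n T ins).getD j 0 x := ⟨_, fun _ => rfl⟩
    have hsum : ∀ i : ℕ, ∑ j : Fin (n + T), ((ent m n T ins p q i j : ℚ) : ℝ) * phi n T ins x j =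
        ∑ j : Fin (n + T), ((ent m n T ins p q i j : ℚ) : ℝ) * w j := fun i =>
      Finset.sum_congr rfl fun j _ => by rw [hw, phi_apply]
    refine ⟨?_, fun j => phi_nonneg hins h2 j j.isLt⟩
    intro i
    simp only [RLP.slp]
    rw [hsum]
    by_cases hi : (i : ℕ) < m
    · rw [dif_pos hi, row_old hi (hpq ⟨i, hi⟩).1 (hpq ⟨i, hi⟩).2.1, hw, hw]
      have a1 := (hpq ⟨i, hi⟩).2.2.2 x
      simp only at a1 ⊢
      rw [a1]
      exact mul_le_mul_of_nonneg_left (h1 ⟨i, hi⟩) (sc_pos D.A i).le
    · rw [dif_neg hi]
      by_cases hi2 : (i : ℕ) < m + T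
      · obtain ⟨t, ht⟩ := Nat.exists_eq_add_of_le (not_lt.1 hi)
        rw [ht, row_le hins (by omega), hw, phi_rec hins x (by omega),
          List.map_congr_left fun a _ => hw a, sub_self]
      · obtain ⟨t, ht⟩ := Nat.exists_eq_add_of_le (not_lt.1 hi2)
        have hi3 := i.isLt
        rw [ht, row_ge hins (by omega), hw, phi_rec hins x (by omega),
          List.map_congr_left fun a _ => hw a, sub_self]

/-- the isomorphism -/
noncomputable def slpIso (hins : OkI n T ins) (hpq : OkPQ D T ins p q) :
    Iso D (D.slp T ins p q) where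
  φ := phi n T ins
  inj := by
    intro x y hxy
    ext j
    have h1 := congrFun hxy (Fin.castAdd T j)
    rw [phi_apply, phi_apply] at h1
    have h2 := phi_old (T := T) (ins := ins) x j
    have h3 := phi_old (T := T) (ins := ins) y j
    rw [← h2, ← h3]
    exact h1
  feas := slp_feas hins hpq
  obj := by
    intro x
    unfold RLP.obj RLP.slp
    simp only
    rw [Fin.sum_univ_add]
    have h1 : ∑ i : Fin T, (if h : ((Fin.natAdd n i : Fin (n + T)) : ℕ) < n then
        D.c ⟨(Fin.natAdd n i : Fin (n + T)), h⟩ else 0) * phi n T ins x (Fin.natAdd n i) = 0 := by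
      refine Finset.sum_eq_zero fun i _ => ?_
      rw [dif_neg (by simp), zero_mul]
    rw [h1, add_zero]
    refine Finset.sum_congr rfl fun j _ => ?_
    have h2 := phi_old (T := T) (ins := ins) x j
    rw [dif_pos (by exact j.isLt), phi_apply]
    show D.c j * (forms n T ins).getD j 0 x = D.c j * x j
    rw [h2]

theorem slp_sparse (hins : OkI n T ins) (hpq : ∀ i < m, p i ≠ q i) :
    Sparse (D.slp T ins p q).A := by
  -- the positions of the nonzero entries
  have key : ∀ i : Fin (m + (T + T)), ∃ s : Finset ℕ, s.card ≤ 3 ∧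
      ∀ j : Fin (n + T), (D.slp T ins p q).A i j = 0 ∨ ((j : ℕ) ∈ s ∧
        ((D.slp T ins p q).A i j = 1 ∨ (D.slp T ins p q).A i j = -1)) := by
    intro i
    have hi3 := i.isLt
    by_cases hi : (i : ℕ) < m
    · refine ⟨{p i, q i}, (Finset.card_le_two).trans (by norm_num), fun j => ?_⟩
      show ent m n T ins p q i j = 0 ∨ _ ∧ (ent m n T ins p q i j = 1 ∨ ent m n T ins p q i j = -1)
      unfold ent
      rw [if_pos hi]
      have h0 := hpq i hi
      by_cases h1 : (j : ℕ) = p i
      · rw [if_pos h1, if_neg (by rw [h1]; exact h0)]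
        exact Or.inr ⟨by rw [h1]; simp, Or.inl (by norm_num)⟩
      · rw [if_neg h1]
        by_cases h2 : (j : ℕ) = q i
        · rw [if_pos h2]
          exact Or.inr ⟨by rw [h2]; simp, Or.inr (by norm_num)⟩
        · rw [if_neg h2]
          exact Or.inl (by norm_num)
    · -- a definition
      have hdef : ∀ t < T, (insert (n + t) (ins t).toFinset).card ≤ 3 := by
        intro t ht
        refine (Finset.card_insert_le _ _).trans ?_
        have h1 := List.toFinset_card_le (ins t)
        have h2 := (hins t ht).2.2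
        omega
      by_cases hi2 : (i : ℕ) < m + T
      · refine ⟨insert (n + (i - m)) (ins (i - m)).toFinset, hdef _ (by omega), fun j => ?_⟩
        show ent m n T ins p q i j = 0 ∨ _ ∧
          (ent m n T ins p q i j = 1 ∨ ent m n T ins p q i j = -1)
        unfold ent
        rw [if_neg hi, if_pos hi2]
        have h0 := (hins ((i : ℕ) - m) (by omega)).2.1
        by_cases h1 : (j : ℕ) = n + (i - m)
        · rw [if_pos h1, if_neg (fun h => by have := h0 j h; omega)]
          exact Or.inr ⟨by rw [h1]; exact Finset.mem_insert_self _ _, Or.inl (by norm_num)⟩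
        · rw [if_neg h1]
          by_cases h2 : (j : ℕ) ∈ ins (i - m)
          · rw [if_pos h2]
            exact Or.inr ⟨Finset.mem_insert_of_mem (List.mem_toFinset.2 h2), Or.inr (by norm_num)⟩
          · rw [if_neg h2]
            exact Or.inl (by norm_num)
      · refine ⟨insert (n + (i - m - T)) (ins (i - m - T)).toFinset, hdef _ (by omega),
          fun j => ?_⟩
        show ent m n T ins p q i j = 0 ∨ _ ∧
          (ent m n T ins p q i j = 1 ∨ ent m n T ins p q i j = -1)
        unfold ent
        rw [if_neg hi, if_neg hi2]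
        have h0 := (hins ((i : ℕ) - m - T) (by omega)).2.1
        by_cases h1 : (j : ℕ) = n + (i - m - T)
        · rw [if_pos h1, if_neg (fun h => by have := h0 j h; omega)]
          exact Or.inr ⟨by rw [h1]; exact Finset.mem_insert_self _ _, Or.inr (by norm_num)⟩
        · rw [if_neg h1]
          by_cases h2 : (j : ℕ) ∈ ins (i - m - T)
          · rw [if_pos h2]
            exact Or.inr ⟨Finset.mem_insert_of_mem (List.mem_toFinset.2 h2), Or.inl (by norm_num)⟩
          · rw [if_neg h2]
            exact Or.inl (by norm_num)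
  refine ⟨fun i j => ?_, fun i => ?_⟩
  · obtain ⟨s, -, hs⟩ := key i
    rcases hs j with h | ⟨-, h⟩
    · exact Or.inl h
    · exact Or.inr h
  · obtain ⟨s, hs1, hs⟩ := key i
    refine le_trans ?_ hs1
    rw [← Set.ncard_coe_finset s]
    refine Set.ncard_le_ncard_of_injOn (fun j : Fin (n + T) => (j : ℕ)) ?_ ?_ s.finite_toSet
    · intro j hj
      rcases hs j with h | h
      · exact absurd h hj
      · exact h.1
    · intro j _ j' _ h
      exact Fin.ext h

end

end Pool.Agent.Simplex.EB
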