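import Pool.Agent.Lib.MP_4d246d_lc.QP.Defs

/-!
# Pivot rules that see neither the right hand side nor the objective (definitions)

Linear programs `max c x`, `A x ≤ b`, `x ≥ 0` with a rational matrix `A` and REAL `b` and `c`.

The *name* of a point is the list of the constraints that are tight at it (`m + n` Booleans).
A *blind rule* is a function of the matrix `A`, of the name of the starting vertex and of the
answers received so far; it never sees `b`, `c` or any coordinate of a vertex. It proposes an
edge of the current vertex (by the set of the constraints that are tight along it), or nothing.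

* If the proposed edge increases the objective and is bounded, it is followed, and the answer is
  the name of its other end.
* If the proposed edge increases the objective and is unbounded, the play is over.
* Otherwise an adversary shows the name of the other end of some edge of the current vertex that
  increases the objective; if there is no such edge, the play is over.
-/

namespace Pool.Agent.Simplex.EB

open Pool.Agent.Lib.PolyTime Turing

/-- Data of a linear program: maximise `c x` subject to `A x ≤ b`, `x ≥ 0`; the matrix is
rational, `b` and `c` are real. -/
structure RLP (m n : ℕ) where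
  /-- the constraint matrix -/
  A : Fin m → Fin n → ℚ
  /-- the right hand side -/
  b : Fin m → ℝ
  /-- the objective -/
  c : Fin n → ℝ

namespace RLP

variable {m n : ℕ} (D : RLP m n)

/-- The feasible polyhedron `{x | A x ≤ b, x ≥ 0}`. -/
def feasible : Set (Fin n → ℝ) := {x | (∀ i, ∑ j, (D.A i j : ℝ) * x j ≤ D.b i) ∧ ∀ j, 0 ≤ x j}

/-- The objective function. -/
def obj (x : Fin n → ℝ) : ℝ := ∑ j, D.c j * x j

/-- `x` is a vertex (extreme point) of the feasible polyhedron. -/
def Vertex (x : Fin n → ℝ) : Prop := x ∈ Set.extremePoints ℝ D.feasible

/-- `x` and `y` are the two ends of an edge of the feasible polyhedron. -/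
def Edge (x y : Fin n → ℝ) : Prop :=
  D.Vertex x ∧ D.Vertex y ∧ x ≠ y ∧ IsExtreme ℝ D.feasible (segment ℝ x y)

/-- The edge from `x` to `y` strictly increases the objective. -/
def Improving (x y : Fin n → ℝ) : Prop := D.Edge x y ∧ D.obj x < D.obj y

/-- `x` is an optimal feasible point. -/
def Optimal (x : Fin n → ℝ) : Prop := x ∈ D.feasible ∧ ∀ y ∈ D.feasible, D.obj y ≤ D.obj x

/-- The vertex `x` has an unbounded edge with direction `z`. -/
def Ray (x z : Fin n → ℝ) : Prop :=
  D.Vertex x ∧ IsExtreme ℝ D.feasible {w | ∃ s : ℝ, 0 ≤ s ∧ w = x + s • z}

/-- A final vertex: it is optimal, or it has an unbounded edge along which the objective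
increases. -/
def Final (x : Fin n → ℝ) : Prop := D.Vertex x ∧ (D.Optimal x ∨ ∃ z, 0 < D.obj z ∧ D.Ray x z)

/-- The name of a point: for each constraint whether it is tight. -/
noncomputable def name (x : Fin n → ℝ) : List Bool :=
  open Classical in
  List.ofFn (fun i => decide (∑ j, (D.A i j : ℝ) * x j = D.b i)) ++
    List.ofFn (fun j => decide (x j = 0))

/-- The name of the edge of `x` in direction `z`: for each constraint whether it is tight at `x`
and stays tight in direction `z`. -/
noncomputable def edgeName (x z : Fin n → ℝ) : List Bool :=
  open Classical in
  List.ofFn (fun i => decide (∑ j, (D.A i j : ℝ) * x j = D.b i ∧ ∑ j, (D.A i j : ℝ) * z j = 0)) ++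
    List.ofFn (fun j => decide (x j = 0 ∧ z j = 0))

/-- What a blind rule sees of the program: the number of variables and the rows of the matrix. -/
def mat : ℕ × List (List ℚ) := (n, List.ofFn fun i => List.ofFn (D.A i))

end RLP

/-- The answers a blind rule receives. -/
inductive Answer
  /-- the proposed edge increases the objective and has been followed; name of the new vertex -/
  | moved (S : List Bool) : Answer
  /-- the proposal is rejected; name of the other end of an edge that increases the objective -/
  | refused (S : List Bool) : Answer

instance : TEnc Answer := ⟨fun a => match a with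
  | .moved S => enc (true, S)
  | .refused S => enc (false, S)⟩

/-- A blind rule: from the matrix, the name of the starting vertex and the answers so far it
computes a proposal, that is, the name of an edge of the current vertex, or nothing. -/
abbrev BlindRule : Type := (ℕ × List (List ℚ)) × List Bool × List Answer → Option (List Bool)

/-- `Play ρ D x₀ h x`: the answers `h` are possible answers for the rule `ρ` on the program `D`
started at the vertex `x₀`, and they lead to the vertex `x`. -/
inductive Play {m n : ℕ} (ρ : BlindRule) (D : RLP m n) (x₀ : Fin n → ℝ) :
    List Answer → (Fin n → ℝ) → Prop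
  /-- the beginning -/
  | start : Play ρ D x₀ [] x₀
  /-- the proposed edge leads to `y` and increases the objective -/
  | moved {h : List Answer} {x y : Fin n → ℝ} : Play ρ D x₀ h x → D.Improving x y →
      ρ (D.mat, D.name x₀, h) = some (D.edgeName x (y - x)) →
      Play ρ D x₀ (h ++ [.moved (D.name y)]) y
  /-- the proposal is not an edge of `x` that increases the objective, but the edge from `x` to
  `y` is one -/
  | refused {h : List Answer} {x y : Fin n → ℝ} : Play ρ D x₀ h x → D.Improving x y →
      (∀ w, D.Improving x w → ρ (D.mat, D.name x₀, h) ≠ some (D.edgeName x (w - x))) →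
      (∀ z, 0 < D.obj z → D.Ray x z → ρ (D.mat, D.name x₀, h) ≠ some (D.edgeName x z)) →
      Play ρ D x₀ (h ++ [.refused (D.name y)]) x

/-- The rule `ρ` solves the program `D` with at most `B` answers: from each starting vertex each
play has at most `B` answers, and if it cannot be continued, then the vertex reached is final. -/
def Solves {m n : ℕ} (ρ : BlindRule) (D : RLP m n) (B : ℕ) : Prop :=
  ∀ x₀, D.Vertex x₀ → ∀ h x, Play ρ D x₀ h x → h.length ≤ B ∧
    ((∀ a y, ¬ Play ρ D x₀ (h ++ [a]) y) → D.Final x)

/-- The bit length of the matrix. -/
def RLP.size {m n : ℕ} (D : RLP m n) : ℕ := (code D.mat).length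

/-- The bit length of the matrix of an input. -/
def matSize (I : Input) : ℕ := (code (I.n, List.ofFn fun i => List.ofFn (I.lp.A i))).length

/-- **Positive answer to Q1.** A version of the simplex method whose total running time is
polynomial. -/
def PolySimplex : Prop :=
  ∃ (N : Input → ℕ) (x : (I : Input) → ℕ → Fin I.n → ℚ) (s : Input → Verdict),
    (∀ I, SimplexRun I (N I) (x I) (s I)) ∧
    Nonempty (TM2ComputableInPolyTime (code (α := Input)) (code (α := List (List ℚ × Verdict)))
      (fun I => protocol (N I) (x I) (s I)))

/-- The same with a number of pivots polynomial in the bit length of the matrix alone. -/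
def StrongSimplex : Prop :=
  ∃ (N : Input → ℕ) (x : (I : Input) → ℕ → Fin I.n → ℚ) (s : Input → Verdict)
    (P : Polynomial ℕ),
    (∀ I, SimplexRun I (N I) (x I) (s I) ∧ N I ≤ P.eval (matSize I)) ∧
    Nonempty (TM2ComputableInPolyTime (code (α := Input)) (code (α := List (List ℚ × Verdict)))
      (fun I => protocol (N I) (x I) (s I)))

/-- A blind rule computed in polynomial time. -/
def BlindRule.Poly (ρ : BlindRule) : Prop :=
  Nonempty (TM2ComputableInPolyTime
    (code (α := (ℕ × List (List ℚ)) × List Bool × List Answer))
    (code (α := Option (List Bool))) ρ)

/-- There is one blind rule, computed in polynomial time, that solves all linear programs with a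
number of answers polynomial in the bit length of the matrix alone. -/
def PolyBlind : Prop :=
  ∃ (ρ : BlindRule) (P : Polynomial ℕ), ρ.Poly ∧
    ∀ (m n : ℕ) (D : RLP m n), Solves ρ D (P.eval D.size)

end Pool.Agent.Simplex.EB
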