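import Pool.Agent.Lib.MP_4d246d_lc.EB.Statement

/-!
# Transportation programs for r × c × 3 tables

A table with the entries `x_(i,j,k)`, `i < r`, `j < c`, `k < 3`, is a vector of length `3 r c`; the
entry `(i, j, k)` has the index `3 (i c + j) + k`. A line of the table is given by fixing two of
the three indices; there are `r c + 3 c + 3 r` lines.
-/

namespace Pool.Agent.Simplex.EB

open Pool.Agent.Lib.PolyTime Turing

/-- The number of lines. -/
def lines (r c : ℕ) : ℕ := r * c + 3 * c + 3 * r

/-- The entry `q = 3 (i c + j) + k` is on the line `p`, that is, `p` is the number `i c + j` of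
the line `(i, j, ·)`, the number `r c + 3 j + k` of the line `(·, j, k)`, or the number
`r c + 3 c + 3 i + k` of the line `(i, ·, k)`. -/
def OnLine (r c p q : ℕ) : Prop :=
  p = q / 3 ∨ p = r * c + (3 * (q / 3 % c) + q % 3) ∨
    p = r * c + 3 * c + (3 * (q / 3 / c) + q % 3)

instance (r c p q : ℕ) : Decidable (OnLine r c p q) := inferInstanceAs (Decidable (_ ∨ _))

/-- The transportation program: maximise `∑ cost_q x_q` over all nonnegative `r × c × 3` tables
whose line sums are the given numbers `s_p` (`x ≥ 0`, line sums `≤ s_p`, minus line sums
`≤ - s_p`). -/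
noncomputable def transport (r c : ℕ) (s : Fin (lines r c) → ℝ)
    (cost : Fin (3 * (r * c)) → ℝ) : RLP (lines r c + lines r c) (3 * (r * c)) where
  A := Fin.addCases (fun p q => if OnLine r c p q then 1 else 0)
    (fun p q => if OnLine r c p q then -1 else 0)
  b := Fin.addCases s (fun p => - s p)
  c := cost

/-- There is one blind rule, computed in polynomial time, that solves all transportation programs
for `r × c × 3` tables with at most `P (r + c)` answers. It sees neither the line sums nor the
costs, only `r`, `c` and the names (that is, the supports) of vertices. -/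
def SlimBlind : Prop :=
  ∃ (ρ : BlindRule) (P : Polynomial ℕ), ρ.Poly ∧
    ∀ (r c : ℕ) (s : Fin (lines r c) → ℝ) (cost : Fin (3 * (r * c)) → ℝ),
      Solves ρ (transport r c s cost) (P.eval (r + c))

/-- The transportation program with rational data. -/
def transportQ (r c : ℕ) (s : Fin (lines r c) → ℚ) (cost : Fin (3 * (r * c)) → ℚ) :
    QLP (lines r c + lines r c) (3 * (r * c)) where
  A := Fin.addCases (fun p q => if OnLine r c p q then 1 else 0)
    (fun p q => if OnLine r c p q then -1 else 0)
  b := Fin.addCases s (fun p => - s p)
  c := cost

/-- The input is a transportation program for `r × c × 3` tables, for some `r` and `c`. -/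
def IsTransport (I : Input) : Prop :=
  ∃ (r c : ℕ) (s : Fin (lines r c) → ℚ) (cost : Fin (3 * (r * c)) → ℚ)
    (v : Fin (3 * (r * c)) → ℚ) (hv : (transportQ r c s cost).Vertex (toReal v)),
    I = ⟨_, _, transportQ r c s cost, v, hv⟩

/-- Question 1 for the transportation programs for `r × c × 3` tables: a version of the simplex
method with polynomial total running time on these programs. -/
def SlimSimplex : Prop :=
  ∃ (N : Input → ℕ) (x : (I : Input) → ℕ → Fin I.n → ℚ) (s : Input → Verdict),
    (∀ I, IsTransport I → SimplexRun I (N I) (x I) (s I)) ∧
    Nonempty (TM2ComputableInPolyTime (fun I : {I : Input // IsTransport I} => code I.1)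
      (code (α := List (List ℚ × Verdict)))
      (fun I => protocol (N I.1) (x I.1) (s I.1)))

end Pool.Agent.Simplex.EB
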