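import Pool.Agent.Lib.MP_4d246d_lc.EB.Statement

/-!
# Transportation programs for r × c × 2 tables

A table with the entries `x_(i,j,k)`, `i < r`, `j < c`, `k < 2`, is a vector of length `2 r c`; the
entry `(i, j, k)` has the index `2 (i c + j) + k`. A line of the table is given by fixing two of
the three indices; there are `r c + 2 c + 2 r` lines.
-/

namespace Pool.Agent.Simplex.EB

open Pool.Agent.Lib.PolyTime Turing

/-- The number of lines. -/
def lines2 (r c : ℕ) : ℕ := r * c + 2 * c + 2 * r

/-- The entry `q = 2 (i c + j) + k` is on the line `p`, that is, `p` is the number `i c + j` of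
the line `(i, j, ·)`, the number `r c + 2 j + k` of the line `(·, j, k)`, or the number
`r c + 2 c + 2 i + k` of the line `(i, ·, k)`. -/
def OnLine2 (r c p q : ℕ) : Prop :=
  p = q / 2 ∨ p = r * c + (2 * (q / 2 % c) + q % 2) ∨
    p = r * c + 2 * c + (2 * (q / 2 / c) + q % 2)

instance (r c p q : ℕ) : Decidable (OnLine2 r c p q) := inferInstanceAs (Decidable (_ ∨ _))

/-- The transportation program: maximise `∑ cost_q x_q` over all nonnegative `r × c × 2` tables
whose line sums are the given numbers `s_p` (`x ≥ 0`, line sums `≤ s_p`, minus line sums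
`≤ - s_p`). -/
noncomputable def transport2 (r c : ℕ) (s : Fin (lines2 r c) → ℝ)
    (cost : Fin (2 * (r * c)) → ℝ) : RLP (lines2 r c + lines2 r c) (2 * (r * c)) where
  A := Fin.addCases (fun p q => if OnLine2 r c p q then 1 else 0)
    (fun p q => if OnLine2 r c p q then -1 else 0)
  b := Fin.addCases s (fun p => - s p)
  c := cost

/-- The transportation program with rational data. -/
def transportQ2 (r c : ℕ) (s : Fin (lines2 r c) → ℚ) (cost : Fin (2 * (r * c)) → ℚ) :
    QLP (lines2 r c + lines2 r c) (2 * (r * c)) where
  A := Fin.addCases (fun p q => if OnLine2 r c p q then 1 else 0)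
    (fun p q => if OnLine2 r c p q then -1 else 0)
  b := Fin.addCases s (fun p => - s p)
  c := cost

/-- The input is a transportation program for `r × c × 2` tables, for some `r` and `c`. -/
def IsTransport2 (I : Input) : Prop :=
  ∃ (r c : ℕ) (s : Fin (lines2 r c) → ℚ) (cost : Fin (2 * (r * c)) → ℚ)
    (v : Fin (2 * (r * c)) → ℚ) (hv : (transportQ2 r c s cost).Vertex (toReal v)),
    I = ⟨_, _, transportQ2 r c s cost, v, hv⟩

end Pool.Agent.Simplex.EB
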