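import Pool.Agent.Lib.MP_4d246d_lc.EB.Statement5

/-!
# The linear program of the three-dimensional assignment problem

An `N × N × N` array with the entries `x_(a,b,c)` is a vector of length `N³`; the entry `(a, b, c)`
has the index `(a N + b) N + c`. A slice of the array is given by fixing one of the three indices;
there are `3 N` slices.
-/

namespace Pool.Agent.Simplex.EB

open Pool.Agent.Lib.PolyTime Turing

/-- The entry `q = (a N + b) N + c` is in the slice `p`, that is, `p` is `a`, `N + b` or
`2 N + c`. -/
def InSlice (N p q : ℕ) : Prop := p = q / N / N ∨ p = N + q / N % N ∨ p = 2 * N + q % N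

instance (N p q : ℕ) : Decidable (InSlice N p q) := inferInstanceAs (Decidable (_ ∨ _))

/-- The assignment program: maximise `∑ cost_q x_q` over all nonnegative `N × N × N` arrays all of
whose `3 N` slice sums are `1` (`x ≥ 0`, slice sums `≤ 1`, minus slice sums `≤ - 1`). -/
noncomputable def assign (N : ℕ) (cost : Fin (N * (N * N)) → ℝ) :
    RLP (3 * N + 3 * N) (N * (N * N)) where
  A := Fin.addCases (fun p q => if InSlice N p q then 1 else 0)
    (fun p q => if InSlice N p q then -1 else 0)
  b := Fin.addCases (fun _ => 1) (fun _ => -1)
  c := cost

/-- The assignment program with rational costs. -/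
def assignQ (N : ℕ) (cost : Fin (N * (N * N)) → ℚ) : QLP (3 * N + 3 * N) (N * (N * N)) where
  A := Fin.addCases (fun p q => if InSlice N p q then 1 else 0)
    (fun p q => if InSlice N p q then -1 else 0)
  b := Fin.addCases (fun _ => 1) (fun _ => -1)
  c := cost

/-- The input is an assignment program with rational costs, for some `N`, and a vertex of its
polytope. -/
def IsAssign (I : Input) : Prop :=
  ∃ (N : ℕ) (cost : Fin (N * (N * N)) → ℚ) (v : Fin (N * (N * N)) → ℚ)
    (hv : (assignQ N cost).Vertex (toReal v)), I = ⟨_, _, assignQ N cost, v, hv⟩

end Pool.Agent.Simplex.EB
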