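import Pool.Agent.Lib.MP_4d246d_lc.EB.Rule

/-!
# Learning until a list of facts is satisfied
-/

namespace Pool.Agent.Simplex.EB

open Pool.Agent.Lib.PolyTime Pool.Agent.Simplex.QP Pool.Agent.Lib.MP_4d246d_lc.EB

/-- a fact is violated by the guess, or it holds for the guess -/
theorem viol_iff {N : ℕ} {f : Fact} (hf : f.2.length = N) (w : List ℤ) :
    viol f w = false ↔ Holds N (realZ N w) f := by
  have h1 : rdot N f.2 (realZ N w) = ((dotZ f.2 w : ℤ) : ℝ) := by
    rw [dotZ_eq_fin _ _ N (Or.inl hf.le)]
    unfold rdot realZ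
    push_cast
    rfl
  obtain ⟨b, a⟩ := f
  cases b with
  | true =>
    rw [holds_true]
    simp only at h1
    rw [h1]
    simp [viol]
  | false =>
    rw [holds_false]
    simp only at h1
    rw [h1]
    simp [viol]

/-- appending a violated fact -/
theorem mchain_append {g : List Fact → List ℤ} {H : List Fact} (hc : MChain g H) {f : Fact}
    (hf : viol f (g H) = true) : MChain g (H ++ [f]) := by
  intro t ht
  rw [List.length_append, List.length_singleton] at ht
  by_cases h : t < H.length
  · rw [List.getD_append _ _ _ _ h, List.take_append_of_le_length h.le]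
    exact hc t h
  · have ht' : t = H.length := by omega
    subst ht'
    rw [List.getD_append_right _ _ _ _ le_rfl, List.take_append_of_le_length le_rfl,
      List.take_length, Nat.sub_self]
    exact hf

theorem syncStep_cases (g : List Fact → List ℤ) (F H : List Fact) :
    (syncStep g F H = H ∧ ∀ f ∈ F, viol f (g H) = false) ∨
      ∃ f ∈ F, viol f (g H) = true ∧ syncStep g F H = H ++ [f] := by
  unfold syncStep
  cases h : F.find? (fun f => viol f (g H)) with
  | none =>
    refine Or.inl ⟨rfl, fun f hf => ?_⟩
    have := List.find?_eq_none.1 h f hf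
    simpa using this
  | some f =>
    exact Or.inr ⟨f, List.mem_of_find?_eq_some h, by simpa using List.find?_some h, rfl⟩

private theorem sync_inv {g : List Fact → List ℤ} {p : Fact → Prop}
    {F H : List Fact} (hF : ∀ f ∈ F, p f) (hH : ∀ f ∈ H, p f) (hc : MChain g H) (k : ℕ) :
    (∀ f ∈ (syncStep g F)^[k] H, p f) ∧ MChain g ((syncStep g F)^[k] H) ∧
      H.length ≤ ((syncStep g F)^[k] H).length ∧
      (((syncStep g F)^[k] H).length = H.length + k ∨
        ∀ f ∈ F, viol f (g ((syncStep g F)^[k] H)) = false) ∧
      ((∃ f ∈ F, viol f (g H) = true) → 1 ≤ k → H.length < ((syncStep g F)^[k] H).length) := by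
  induction k with
  | zero => exact ⟨hH, hc, le_rfl, Or.inl rfl, fun _ h => absurd h (by omega)⟩
  | succ k ih =>
    rw [Function.iterate_succ_apply']
    obtain ⟨h1, h2, h3, h4, h5⟩ := ih
    rcases syncStep_cases g F ((syncStep g F)^[k] H) with ⟨h, h6⟩ | ⟨f, hf, hv, h⟩
    · rw [h]
      refine ⟨h1, h2, h3, Or.inr h6, fun hex _ => ?_⟩
      by_cases hk : 1 ≤ k
      · exact h5 hex hk
      · have : k = 0 := by omega
        subst this
        obtain ⟨f, hf, hv⟩ := hex
        have := h6 f hf
        rw [Function.iterate_zero, id] at this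
        rw [this] at hv
        exact absurd hv (by decide)
    · rw [h]
      have hlen : ((syncStep g F)^[k] H ++ [f]).length = ((syncStep g F)^[k] H).length + 1 := by
        simp
      refine ⟨fun f' hf' => ?_, mchain_append h2 hv, by omega, ?_, fun _ _ => by omega⟩
      · rcases List.mem_append.1 hf' with h' | h'
        · exact h1 _ h'
        · rw [List.mem_singleton.1 h']
          exact hF f hf
      · rcases h4 with h4 | h4
        · left
          omega
        · rw [h4 f hf] at hv
          exact absurd hv (by decide)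

/-- Facts of `F` are appended as long as the guess violates one of them. If all chains of facts
with the property `p` are shorter than the fuel, then the final guess satisfies `F`. -/
theorem sync_spec {g : List Fact → List ℤ} {fuel : ℕ} {p : Fact → Prop}
    (hb : ∀ H : List Fact, (∀ f ∈ H, p f) → MChain g H → H.length < fuel)
    {F H : List Fact} (hF : ∀ f ∈ F, p f) (hH : ∀ f ∈ H, p f) (hc : MChain g H) :
    (∀ f ∈ sync g fuel F H, p f) ∧ MChain g (sync g fuel F H) ∧
      (∀ f ∈ F, viol f (g (sync g fuel F H)) = false) ∧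
      H.length ≤ (sync g fuel F H).length ∧
      ((∃ f ∈ F, viol f (g H) = true) → H.length < (sync g fuel F H).length) := by
  have h0 := hb H hH hc
  obtain ⟨h1, h2, h3, h4, h5⟩ := sync_inv hF hH hc fuel
  refine ⟨h1, h2, ?_, h3, fun hex => h5 hex (by omega)⟩
  rcases h4 with h4 | h4
  · have := hb _ h1 h2
    omega
  · exact h4

/-- in any case at most `fuel` facts are appended, all from `F` -/
theorem sync_mem {g : List Fact → List ℤ} (fuel : ℕ) (F H : List Fact) :
    ∃ L : List Fact, sync g fuel F H = H ++ L ∧ L.length ≤ fuel ∧ ∀ f ∈ L, f ∈ F := by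
  unfold sync
  induction fuel with
  | zero => exact ⟨[], by simp, by simp, by simp⟩
  | succ k ih =>
    obtain ⟨L, h1, h2, h3⟩ := ih
    rw [Function.iterate_succ_apply']
    rcases syncStep_cases g F ((syncStep g F)^[k] H) with ⟨h, -⟩ | ⟨f, hf, -, h⟩
    · rw [h]
      exact ⟨L, h1, by omega, h3⟩
    · rw [h, h1]
      refine ⟨L ++ [f], by simp, by simp; omega, fun f' hf' => ?_⟩
      rcases List.mem_append.1 hf' with h' | h'
      · exact h3 _ h'
      · rw [List.mem_singleton.1 h']
        exact hf

/-- true facts in a chain are fewer than the fuel (from `learnerGuess_mistakes`) -/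
theorem chain_lt_fuel {e : ℕ} {X : Mat} {N : ℕ} (hN : N ≤ X.2.length + X.1) {H : List Fact}
    (hg : ∀ f ∈ H, GoodF N (bits e X) f) {w : Fin N → ℝ} (hw : ∀ f ∈ H, Holds N w f)
    (hc : MChain (learnerGuess N (bits e X)) H) : H.length < fuel e X := by
  have h1 : H.length ≤ (N + bits e X + 2) ^ 55 := by
    refine learnerGuess_mistakes hg
      ⟨fun j => if hj : j < N then w ⟨j, hj⟩ else 0, fun h hh => ?_⟩ fun t ht => ?_
    · have e1 : ldot h.2 (fun j => if hj : j < N then w ⟨j, hj⟩ else 0) = rdot N h.2 w := by
        rw [ldot_eq_fin _ _ N (hg h hh).1.le]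
        unfold rdot
        refine Finset.sum_congr rfl fun j _ => ?_
        rw [dif_pos j.2]
      rw [e1]
      have h2 := hw h hh
      obtain ⟨b, a⟩ := h
      cases b with
      | true => exact ⟨fun _ => holds_true.1 h2, fun h' => absurd h' (by simp)⟩
      | false => exact ⟨fun h' => absurd h' (by simp), fun _ => holds_false.1 h2⟩
    · have h2 := hc t ht
      rw [List.getD_eq_getElem _ _ ht] at h2
      unfold viol at h2
      unfold Ties.Viol
      split_ifs at h2 with h3
      · exact Or.inr ⟨h3, of_decide_eq_true h2⟩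
      · exact Or.inl (of_decide_eq_true h2)
  refine h1.trans_lt ?_
  unfold fuel
  have h3 : N + bits e X + 2 ≤ X.2.length + X.1 + bits e X + 2 := by omega
  have h4 := Nat.pow_le_pow_left h3 55
  omega

end Pool.Agent.Simplex.EB
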