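import Pool.Agent.Lib.MP_4d246d_lc.EB.TabDef

/-!
# Line sums of the table of a system of equations
-/

namespace Pool.Agent.Simplex.EB.Tab

open Pool.Agent.Lib.PolyTime Pool.Agent.Simplex.QP

theorem tab_add (X : Mat) (U U' : ℝ) (w w' : ℕ → ℝ) (q : ℕ) :
    tab X (U + U') (fun v => w v + w' v) q = tab X U w q + tab X U' w' q := by
  unfold tab
  split_ifs <;> ring

theorem tab_smul (X : Mat) (t U : ℝ) (w : ℕ → ℝ) (q : ℕ) :
    tab X (t * U) (fun v => t * w v) q = t * tab X U w q := by
  unfold tab
  split_ifs <;> ring

/-- sign of a kind -/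
private noncomputable def ksg (k : ℕ) : ℝ := if k = 1 then 1 else if k = 2 then -1 else 0

private theorem ksg_zero : ksg 0 = 0 := by unfold ksg; norm_num

private theorem ksg_one : ksg 1 = 1 := by unfold ksg; norm_num

private theorem ksg_two : ksg 2 = -1 := by unfold ksg; norm_num

/-- value of a cell, `U = 0` -/
private noncomputable def yv (X : Mat) (w : ℕ → ℝ) (e : ℕ) : ℝ :=
  if e % 2 = 0 then w (cV X e) else - w (cV X e)

private theorem kind_lt (X : Mat) (e J K : ℕ) : kind X e J K < 3 := by
  unfold kind
  split_ifs <;> omega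

private theorem tab0 {X : Mat} (w : ℕ → ℝ) (e : ℕ) {J K : ℕ} (hJ : J < slc X) (hK : K < 3) :
    tab X 0 w (ix (slc X) e J K) = ksg (kind X e J K) * yv X w e := by
  obtain ⟨h1, h2, h3⟩ := ix_div (e := e) hJ hK
  unfold tab tk yv
  rw [h1, h2, h3]
  have hk := kind_lt X e J K
  generalize kind X e J K = k at hk
  by_cases he : e % 2 = 0
  · simp only [if_pos he]
    interval_cases k
    · simp [ksg_zero]
    · simp [ksg_one]
    · simp [ksg_two]
  · simp only [if_neg he]
    interval_cases k
    · simp [ksg_zero]
    · simp [ksg_one]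
    · simp [ksg_two]

private theorem sum_two (R : ℕ) (f : ℕ → ℝ) : ∑ e ∈ Finset.range (2 * R), f e =
    ∑ p ∈ Finset.range R, (f (2 * p) + f (2 * p + 1)) := by
  induction R with
  | zero => simp
  | succ R ih =>
    rw [show 2 * (R + 1) = 2 * R + 1 + 1 by ring, Finset.sum_range_succ, Finset.sum_range_succ, ih,
      Finset.sum_range_succ, add_assoc]

private theorem sum_pair (N m : ℕ) (f : ℕ → ℝ) : ∑ p ∈ Finset.range (N * m), f p =
    ∑ v ∈ Finset.range N, ∑ s ∈ Finset.range m, f (v * m + s) := by
  induction N with
  | zero => simp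
  | succ N ih =>
    rw [Nat.succ_mul, Finset.sum_range_add, ih, Finset.sum_range_succ]

private theorem pair_div {m v s : ℕ} (hs : s < m) : (v * m + s) / m = v ∧ (v * m + s) % m = s := by
  have hm : 0 < m := by omega
  constructor
  · rw [Nat.add_comm, Nat.add_mul_div_right _ _ hm, Nat.div_eq_of_lt hs, zero_add]
  · rw [Nat.add_comm, Nat.add_mul_mod_self_right, Nat.mod_eq_of_lt hs]

private theorem cV_even (X : Mat) (p : ℕ) : cV X (2 * p) = p / X.2.length := by
  unfold cV
  rw [show 2 * p / 2 = p by omega]

private theorem cV_odd (X : Mat) (p : ℕ) : cV X (2 * p + 1) = p / X.2.length := by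
  unfold cV
  rw [show (2 * p + 1) / 2 = p by omega]

private theorem cS_even (X : Mat) (p : ℕ) : cS X (2 * p) = p % X.2.length := by
  unfold cS
  rw [show 2 * p / 2 = p by omega]

private theorem cS_odd (X : Mat) (p : ℕ) : cS X (2 * p + 1) = p % X.2.length := by
  unfold cS
  rw [show (2 * p + 1) / 2 = p by omega]

private theorem yv_even (X : Mat) (w : ℕ → ℝ) (p : ℕ) : yv X w (2 * p) = w (p / X.2.length) := by
  unfold yv
  rw [if_pos (by omega), cV_even]

private theorem yv_odd (X : Mat) (w : ℕ → ℝ) (p : ℕ) : yv X w (2 * p + 1) = - w (p / X.2.length) := by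
  unfold yv
  rw [if_neg (by omega), cV_odd]

private theorem len_pos {X : Mat} {p : ℕ} (hp : p < slR X) : 0 < X.2.length := by
  unfold slR at hp
  rcases Nat.eq_zero_or_pos X.2.length with h | h
  · rw [h, mul_zero] at hp
    omega
  · exact h

private theorem cS_lt {X : Mat} (hm : 0 < X.2.length) (e : ℕ) : cS X e < X.2.length := by
  unfold cS
  exact Nat.mod_lt _ hm

private theorem hgt_lt {X : Mat} {e : ℕ} (he : e / 2 < slR X) :
    hgt X e < 2 * X.2.length + slR X := by
  have h := cS_lt (len_pos he) e
  unfold hgt
  split_ifs <;> omega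

private theorem colc_lt {X : Mat} {e : ℕ} (he : e / 2 < slR X) : colc X e < slR X := by
  have hm := len_pos he
  unfold colc
  split_ifs
  · exact he
  · unfold slR at he ⊢
    have h1 : cV X e < X.1 := by
      unfold cV
      exact Nat.div_lt_of_lt_mul (by rw [mul_comm]; exact he)
    have h2 := Nat.mod_lt (cS X e + (X.2.length - 1)) hm
    calc cV X e * X.2.length + (cS X e + (X.2.length - 1)) % X.2.length
        < cV X e * X.2.length + X.2.length := by omega
      _ = (cV X e + 1) * X.2.length := by ring
      _ ≤ X.1 * X.2.length := Nat.mul_le_mul_right _ h1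

/-- sum of the values of the cells with `hgt e = J` -/
private noncomputable def HS (X : Mat) (w : ℕ → ℝ) (J : ℕ) : ℝ :=
  ∑ e ∈ Finset.range (slr X), if J = hgt X e then yv X w e else 0

private theorem HS_eqn {X : Mat} (hX : UnitsM X) (w : ℕ → ℝ) {s : ℕ} (hs : s < X.2.length) :
    HS X w s = lhs X w s := by
  unfold HS slr slR lhs
  rw [sum_two, sum_pair]
  refine Finset.sum_congr rfl fun v _ => ?_
  rw [Finset.sum_eq_single s]
  · obtain ⟨h1, h2⟩ := pair_div (v := v) hs
    have e1 : s = hgt X (2 * (v * X.2.length + s)) ↔ cof X s v = 1 := by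
      unfold hgt
      rw [cS_even, cV_even, h1, h2]
      split_ifs with a1 a2
      · rcases a1 with a | a
        · exact ⟨fun _ => a.2, fun _ => rfl⟩
        · omega
      · constructor
        · intro h; omega
        · intro h; exact absurd (Or.inl ⟨by omega, h⟩) a1
      · constructor
        · intro h; omega
        · intro h; exact absurd (Or.inl ⟨by omega, h⟩) a1
    have e2 : s = hgt X (2 * (v * X.2.length + s) + 1) ↔ cof X s v = -1 := by
      unfold hgt
      rw [cS_odd, cV_odd, h1, h2]
      split_ifs with a1 a2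
      · rcases a1 with a | a
        · omega
        · exact ⟨fun _ => a.2, fun _ => rfl⟩
      · constructor
        · intro h; omega
        · intro h; exact absurd (Or.inr ⟨by omega, h⟩) a1
      · constructor
        · intro h; omega
        · intro h; exact absurd (Or.inr ⟨by omega, h⟩) a1
    simp only [e1, e2]
    rw [yv_even, yv_odd, h1]
    rcases hX s v with h | h | h
    · rw [h, if_neg (by norm_num : ¬ (0 : ℚ) = 1), if_neg (by norm_num : ¬ (0 : ℚ) = -1)]
      push_cast
      ring
    · rw [h, if_pos rfl, if_neg (by norm_num : ¬ (1 : ℚ) = -1)]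
      push_cast
      ring
    · rw [h, if_neg (by norm_num : ¬ (-1 : ℚ) = 1), if_pos rfl]
      push_cast
      ring
  · intro s' hs' hne
    rw [Finset.mem_range] at hs'
    obtain ⟨h1, h2⟩ := pair_div (v := v) hs'
    have e1 : ¬ s = hgt X (2 * (v * X.2.length + s')) := by
      unfold hgt
      rw [cS_even, h2]
      split_ifs <;> omega
    have e2 : ¬ s = hgt X (2 * (v * X.2.length + s') + 1) := by
      unfold hgt
      rw [cS_odd, h2]
      split_ifs <;> omega
    rw [if_neg e1, if_neg e2, add_zero]
  · intro h
    exact absurd (Finset.mem_range.2 hs) h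

private theorem HS_cmp {X : Mat} (hX : UnitsM X) (w : ℕ → ℝ) {s : ℕ} (hs : s < X.2.length) :
    HS X w (X.2.length + s) = - lhs X w s := by
  unfold HS slr slR lhs
  rw [sum_two, sum_pair, ← Finset.sum_neg_distrib]
  refine Finset.sum_congr rfl fun v _ => ?_
  rw [Finset.sum_eq_single s]
  · obtain ⟨h1, h2⟩ := pair_div (v := v) hs
    have e1 : X.2.length + s = hgt X (2 * (v * X.2.length + s)) ↔ cof X s v = -1 := by
      unfold hgt
      rw [cS_even, cV_even, h1, h2]
      split_ifs with a1 a2
      · rcases a1 with a | a
        · constructor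
          · intro h; omega
          · intro h; rw [h] at a; norm_num at a
        · omega
      · rcases a2 with a | a
        · omega
        · exact ⟨fun _ => a.2, fun _ => rfl⟩
      · constructor
        · intro h; omega
        · intro h; exact absurd (Or.inr ⟨by omega, h⟩) a2
    have e2 : X.2.length + s = hgt X (2 * (v * X.2.length + s) + 1) ↔ cof X s v = 1 := by
      unfold hgt
      rw [cS_odd, cV_odd, h1, h2]
      split_ifs with a1 a2
      · rcases a1 with a | a
        · omega
        · constructor
          · intro h; omega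
          · intro h; rw [h] at a; norm_num at a
      · rcases a2 with a | a
        · exact ⟨fun _ => a.2, fun _ => rfl⟩
        · omega
      · constructor
        · intro h; omega
        · intro h; exact absurd (Or.inl ⟨by omega, h⟩) a2
    simp only [e1, e2]
    rw [yv_even, yv_odd, h1]
    rcases hX s v with h | h | h
    · rw [h, if_neg (by norm_num : ¬ (0 : ℚ) = 1), if_neg (by norm_num : ¬ (0 : ℚ) = -1)]
      push_cast
      ring
    · rw [h, if_pos rfl, if_neg (by norm_num : ¬ (1 : ℚ) = -1)]
      push_cast
      ring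
    · rw [h, if_neg (by norm_num : ¬ (-1 : ℚ) = 1), if_pos rfl]
      push_cast
      ring
  · intro s' hs' hne
    rw [Finset.mem_range] at hs'
    obtain ⟨h1, h2⟩ := pair_div (v := v) hs'
    have e1 : ¬ X.2.length + s = hgt X (2 * (v * X.2.length + s')) := by
      unfold hgt
      rw [cS_even, h2]
      split_ifs <;> omega
    have e2 : ¬ X.2.length + s = hgt X (2 * (v * X.2.length + s') + 1) := by
      unfold hgt
      rw [cS_odd, h2]
      split_ifs <;> omega
    rw [if_neg e1, if_neg e2, add_zero]
  · intro h
    exact absurd (Finset.mem_range.2 hs) h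

private theorem HS_zero {X : Mat} (w : ℕ → ℝ) {p : ℕ} (hp : p < slR X) :
    HS X w (2 * X.2.length + p) = 0 := by
  have hm := len_pos hp
  unfold HS slr
  rw [sum_two]
  refine Finset.sum_eq_zero fun x _ => ?_
  have h1 : 2 * X.2.length + p = hgt X (2 * x) ↔
      (x = p ∧ ¬ cof X (x % X.2.length) (x / X.2.length) = 1 ∧
        ¬ cof X (x % X.2.length) (x / X.2.length) = -1) := by
    have h := cS_lt hm (2 * x)
    unfold hgt
    rw [cS_even] at h ⊢
    rw [cV_even]
    split_ifs with a1 a2
    · constructor
      · intro h; omega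
      · rintro ⟨_, b1, _⟩
        rcases a1 with a | a
        · exact absurd a.2 b1
        · omega
    · constructor
      · intro h; omega
      · rintro ⟨_, _, b2⟩
        rcases a2 with a | a
        · omega
        · exact absurd a.2 b2
    · constructor
      · intro h
        exact ⟨by omega, fun h => a1 (Or.inl ⟨by omega, h⟩), fun h => a2 (Or.inr ⟨by omega, h⟩)⟩
      · rintro ⟨rfl, _, _⟩
        omega
  have h2 : 2 * X.2.length + p = hgt X (2 * x + 1) ↔
      (x = p ∧ ¬ cof X (x % X.2.length) (x / X.2.length) = 1 ∧
        ¬ cof X (x % X.2.length) (x / X.2.length) = -1) := by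
    have h := cS_lt hm (2 * x + 1)
    unfold hgt
    rw [cS_odd] at h ⊢
    rw [cV_odd]
    split_ifs with a1 a2
    · constructor
      · intro h; omega
      · rintro ⟨_, _, b2⟩
        rcases a1 with a | a
        · omega
        · exact absurd a.2 b2
    · constructor
      · intro h; omega
      · rintro ⟨_, b1, _⟩
        rcases a2 with a | a
        · exact absurd a.2 b1
        · omega
    · constructor
      · intro h
        exact ⟨by omega, fun h => a2 (Or.inl ⟨by omega, h⟩), fun h => a1 (Or.inr ⟨by omega, h⟩)⟩
      · rintro ⟨rfl, _, _⟩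
        omega
  simp only [h1, h2]
  rw [yv_even, yv_odd]
  split_ifs <;> ring

private theorem kind_le {X : Mat} {e J : ℕ} (hJ : J < 2 * X.2.length + slR X) (K : ℕ) :
    kind X e J K = if J = hgt X e then (if K = 0 then 1 else if K = 1 then 2 else 0) else 0 := by
  unfold kind
  rw [if_neg (show ¬ J = 2 * X.2.length + slR X + e / 2 by omega),
    if_neg (show ¬ J = 2 * X.2.length + slR X + (slR X + colc X e) by omega)]

private theorem lt_slc {X : Mat} {J : ℕ} (hJ : J < 2 * X.2.length + slR X) : J < slc X := by
  unfold slc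
  omega

private theorem lsum_HS {X : Mat} (w : ℕ → ℝ) {J : ℕ} (hJ : J < 2 * X.2.length + slR X) {K : ℕ}
    (hK : K < 3) :
    lsum (slr X) (slc X) (slr X * slc X + (3 * J + K)) (tab X 0 w) =
      ksg (if K = 0 then 1 else if K = 1 then 2 else 0) * HS X w J := by
  rw [lsum_B (lt_slc hJ) hK]
  unfold HS
  rw [Finset.mul_sum]
  refine Finset.sum_congr rfl fun e _ => ?_
  rw [tab0 w e (lt_slc hJ) hK, kind_le hJ]
  by_cases h : J = hgt X e
  · rw [if_pos h, if_pos h]
  · rw [if_neg h, if_neg h, ksg_zero, zero_mul, mul_zero]

/-- the lines of the columns of the second kind -/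
private theorem lsum_B2 {X : Mat} (w : ℕ → ℝ) {i : ℕ} (hi : i < slR X) {K : ℕ} (hK : K < 3) :
    lsum (slr X) (slc X) (slr X * slc X + (3 * (2 * X.2.length + slR X + i) + K)) (tab X 0 w) = 0 := by
  have hm := len_pos hi
  have hJ : 2 * X.2.length + slR X + i < slc X := by unfold slc; omega
  rw [lsum_B hJ hK]
  have h1 : ∀ e ∈ Finset.range (slr X), tab X 0 w (ix (slc X) e (2 * X.2.length + slR X + i) K) =
      if e / 2 = i then ksg (if K = 0 then 2 else if K = 1 then 0 else 1) * yv X w e else 0 := by
    intro e he
    rw [Finset.mem_range] at he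
    rw [tab0 w e hJ hK]
    unfold kind
    have := hgt_lt (X := X) (e := e) (by unfold slr at he; omega)
    rw [if_neg (show ¬ 2 * X.2.length + slR X + i = hgt X e by omega)]
    by_cases h : e / 2 = i
    · rw [if_pos (by omega), if_pos h]
    · rw [if_neg (by omega), if_neg (by omega), if_neg h, ksg_zero, zero_mul]
  rw [Finset.sum_congr rfl h1]
  unfold slr
  rw [sum_two, Finset.sum_eq_single i]
  · rw [if_pos (show 2 * i / 2 = i by omega), if_pos (show (2 * i + 1) / 2 = i by omega), yv_even,
      yv_odd]
    ring
  · intro p _ hne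
    rw [if_neg (show ¬ 2 * p / 2 = i by omega), if_neg (show ¬ (2 * p + 1) / 2 = i by omega),
      add_zero]
  · intro h
    exact absurd (Finset.mem_range.2 hi) h

/-- the even cell in the column `j` of the third kind -/
private theorem colc_even {X : Mat} (hm : 0 < X.2.length) (p j : ℕ) : colc X (2 * p) = j ↔
    p = j / X.2.length * X.2.length + (j % X.2.length + 1) % X.2.length := by
  unfold colc
  rw [if_neg (by omega), cV_even, cS_even]
  set m := X.2.length with hmdef
  have hp := Nat.div_add_mod p m
  have hj := Nat.div_add_mod j m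
  have hp2 := Nat.mod_lt p hm
  have hj2 := Nat.mod_lt j hm
  rw [mul_comm] at hp hj
  constructor
  · intro h
    obtain ⟨h1, h2⟩ := pair_div (v := p / m) (Nat.mod_lt (p % m + (m - 1)) hm)
    rw [h] at h1 h2
    rw [h1, h2]
    have h3 : ((p % m + (m - 1)) % m + 1) % m = p % m := by
      rw [Nat.mod_add_mod, show p % m + (m - 1) + 1 = p % m + m by omega, Nat.add_mod_right,
        Nat.mod_mod]
    rw [h3]
    exact hp.symm
  · intro h
    obtain ⟨h1, h2⟩ := pair_div (v := j / m) (Nat.mod_lt (j % m + 1) hm)
    rw [← h] at h1 h2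
    rw [h1, h2]
    have h3 : ((j % m + 1) % m + (m - 1)) % m = j % m := by
      rw [Nat.mod_add_mod, show j % m + 1 + (m - 1) = j % m + m by omega, Nat.add_mod_right,
        Nat.mod_mod]
    rw [h3]
    exact hj

/-- the lines of the columns of the third kind -/
private theorem lsum_B3 {X : Mat} (w : ℕ → ℝ) {j : ℕ} (hj : j < slR X) {K : ℕ} (hK : K < 3) :
    lsum (slr X) (slc X) (slr X * slc X + (3 * (2 * X.2.length + slR X + (slR X + j)) + K))
      (tab X 0 w) = 0 := by
  have hm := len_pos hj
  have hJ : 2 * X.2.length + slR X + (slR X + j) < slc X := by unfold slc; omega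
  rw [lsum_B hJ hK]
  have h1 : ∀ e ∈ Finset.range (slr X),
      tab X 0 w (ix (slc X) e (2 * X.2.length + slR X + (slR X + j)) K) =
      if colc X e = j then ksg (if K = 0 then 0 else if K = 1 then 1 else 2) * yv X w e
        else 0 := by
    intro e he
    rw [Finset.mem_range] at he
    unfold slr at he
    rw [tab0 w e hJ hK]
    unfold kind
    have := hgt_lt (X := X) (e := e) (by omega)
    rw [if_neg (show ¬ 2 * X.2.length + slR X + (slR X + j) = hgt X e by omega),
      if_neg (show ¬ 2 * X.2.length + slR X + (slR X + j) = 2 * X.2.length + slR X + e / 2 by omega)]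
    by_cases h : colc X e = j
    · rw [if_pos (by omega), if_pos h]
    · rw [if_neg (by omega), if_neg h, ksg_zero, zero_mul]
  rw [Finset.sum_congr rfl h1]
  unfold slr
  rw [sum_two, Finset.sum_add_distrib]
  set p := j / X.2.length * X.2.length + (j % X.2.length + 1) % X.2.length with hp
  have hpm : p / X.2.length = j / X.2.length := (pair_div (Nat.mod_lt _ hm)).1
  have hpR : p < slR X := by
    unfold slR at hj ⊢
    have h2 : j / X.2.length < X.1 :=
      Nat.div_lt_of_lt_mul (by rw [mul_comm]; exact hj)
    have h3 := Nat.mod_lt (j % X.2.length + 1) hm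
    calc p < j / X.2.length * X.2.length + X.2.length := by omega
      _ = (j / X.2.length + 1) * X.2.length := by ring
      _ ≤ _ := Nat.mul_le_mul_right _ h2
  have a1 : ∑ x ∈ Finset.range (slR X), (if colc X (2 * x) = j then
      ksg (if K = 0 then 0 else if K = 1 then 1 else 2) * yv X w (2 * x) else 0) =
      ksg (if K = 0 then 0 else if K = 1 then 1 else 2) * w (j / X.2.length) := by
    rw [Finset.sum_eq_single p]
    · rw [if_pos ((colc_even hm p j).2 hp), yv_even, hpm]
    · intro x _ hne
      rw [if_neg (fun h => hne ((colc_even hm x j).1 h))]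
    · intro h
      exact absurd (Finset.mem_range.2 hpR) h
  have a2 : ∑ x ∈ Finset.range (slR X), (if colc X (2 * x + 1) = j then
      ksg (if K = 0 then 0 else if K = 1 then 1 else 2) * yv X w (2 * x + 1) else 0) =
      ksg (if K = 0 then 0 else if K = 1 then 1 else 2) * (- w (j / X.2.length)) := by
    have h4 : ∀ x, colc X (2 * x + 1) = x := by
      intro x
      unfold colc
      rw [if_pos (by omega)]
      omega
    rw [Finset.sum_eq_single j]
    · rw [h4, if_pos rfl, yv_odd]
    · intro x _ hne
      rw [h4, if_neg hne]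
    · intro h
      exact absurd (Finset.mem_range.2 hj) h
  rw [a1, a2]
  ring

/-- a sum with three nonzero terms -/
private theorem sum_three {c a b d : ℕ} (ha : a < c) (hb : b < c) (hd : d < c) (hab : a ≠ b) (had : a ≠ d)
    (hbd : b ≠ d) (α β γ : ℝ) :
    ∑ J ∈ Finset.range c, (if J = a then α else if J = b then β else if J = d then γ else 0) =
      α + β + γ := by
  have h1 : ∀ J ∈ Finset.range c, (if J = a then α else if J = b then β else if J = d then γ
      else 0) = (if J = a then α else 0) + (if J = b then β else 0) + (if J = d then γ else 0) := by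
    intro J _
    by_cases h1 : J = a
    · rw [if_pos h1, if_pos h1, if_neg (by omega), if_neg (by omega)]
      ring
    · rw [if_neg h1, if_neg h1]
      by_cases h2 : J = b
      · rw [if_pos h2, if_pos h2, if_neg (by omega)]
        ring
      · rw [if_neg h2, if_neg h2]
        ring
  rw [Finset.sum_congr rfl h1, Finset.sum_add_distrib, Finset.sum_add_distrib,
    Finset.sum_ite_eq', Finset.sum_ite_eq', Finset.sum_ite_eq', if_pos (Finset.mem_range.2 ha),
    if_pos (Finset.mem_range.2 hb), if_pos (Finset.mem_range.2 hd)]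

private theorem lsum_add' (r c p : ℕ) (f g : ℕ → ℝ) :
    lsum r c p (fun q => f q + g q) = lsum r c p f + lsum r c p g := by
  unfold lsum
  rw [← Finset.sum_add_distrib]
  refine Finset.sum_congr rfl fun q _ => ?_
  split_ifs <;> simp

private theorem corr_A (X : Mat) (β : ℕ → ℝ) {e J : ℕ} (he : e < slr X) (hJ : J < slc X) :
    corr X β (e * slc X + J) = 0 := by
  unfold corr
  rw [if_pos]
  calc e * slc X + J < e * slc X + slc X := by omega
    _ = (e + 1) * slc X := by ring
    _ ≤ slr X * slc X := Nat.mul_le_mul_right _ he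

private theorem corr_B (X : Mat) (β : ℕ → ℝ) {J K : ℕ} (hK : K < 3) :
    corr X β (slr X * slc X + (3 * J + K)) = if J < X.2.length then
      (if K = 0 then β J else if K = 1 then - β J else 0) else if J < 2 * X.2.length then
      (if K = 0 then - β (J - X.2.length) else if K = 1 then β (J - X.2.length) else 0) else 0 := by
  unfold corr
  rw [if_neg (by omega), Nat.add_sub_cancel_left, show (3 * J + K) / 3 = J by omega,
    show (3 * J + K) % 3 = K by omega]

private theorem corr_C (X : Mat) (β : ℕ → ℝ) (e : ℕ) {K : ℕ} (hK : K < 3) :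
    corr X β (slr X * slc X + 3 * slc X + (3 * e + K)) = 0 := by
  have h1 : slr X * slc X + 3 * slc X + (3 * e + K) =
      slr X * slc X + (3 * (slc X + e) + K) := by ring
  have h2 : 2 * X.2.length ≤ slc X := by unfold slc; omega
  rw [h1, corr_B X β hK, if_neg (by omega), if_neg (by omega)]

private theorem lsum_zero {X : Mat} (hX : UnitsM X) (w : ℕ → ℝ) :
    ∀ p < lines (slr X) (slc X), lsum (slr X) (slc X) p (tab X 0 w) = corr X (lhs X w) p := by
  rw [forall_lines]
  refine ⟨?_, ?_, ?_⟩
  · intro e he J hJ
    rw [corr_A X _ he hJ, lsum_A he hJ, Finset.sum_range_succ, Finset.sum_range_succ,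
      Finset.sum_range_one,
      tab0 w e hJ (by norm_num), tab0 w e hJ (by norm_num), tab0 w e hJ (by norm_num)]
    have h1 : ksg (kind X e J 0) + ksg (kind X e J 1) + ksg (kind X e J 2) = 0 := by
      unfold kind
      split_ifs <;> simp_all [ksg_zero, ksg_one, ksg_two]
    rw [← add_mul, ← add_mul, h1, zero_mul]
  · intro J hJ K hK
    rw [corr_B X _ hK]
    rcases Nat.lt_or_ge J (2 * X.2.length + slR X) with h | h
    · rw [lsum_HS w h hK]
      by_cases h2 : J < X.2.length
      · rw [if_pos h2, HS_eqn hX w h2]
        interval_cases K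
        · simp [ksg_one]
        · simp [ksg_two]
        · simp [ksg_zero]
      · rw [if_neg h2]
        by_cases h3 : J < 2 * X.2.length
        · obtain ⟨s, rfl⟩ := Nat.exists_eq_add_of_le (not_lt.1 h2)
          rw [if_pos h3, HS_cmp hX w (by omega), Nat.add_sub_cancel_left]
          interval_cases K
          · simp [ksg_one]
          · simp [ksg_two]
          · simp [ksg_zero]
        · obtain ⟨s, rfl⟩ := Nat.exists_eq_add_of_le (not_lt.1 h3)
          rw [if_neg h3, HS_zero w (by omega), mul_zero]
    · rw [if_neg (by omega), if_neg (by omega)]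
      obtain ⟨i, rfl⟩ := Nat.exists_eq_add_of_le h
      rcases Nat.lt_or_ge i (slR X) with h2 | h2
      · exact lsum_B2 w h2 hK
      · obtain ⟨j, rfl⟩ := Nat.exists_eq_add_of_le h2
        exact lsum_B3 w (by unfold slc at hJ; omega) hK
  · intro e he K hK
    rw [corr_C X _ e hK]
    have he2 : e / 2 < slR X := by unfold slr at he; omega
    have hm := len_pos he2
    rw [lsum_C he hK]
    have h1 : ∀ J ∈ Finset.range (slc X), tab X 0 w (ix (slc X) e J K) =
        (if J = hgt X e then ksg (if K = 0 then 1 else if K = 1 then 2 else 0) else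
          if J = 2 * X.2.length + slR X + e / 2 then
            ksg (if K = 0 then 2 else if K = 1 then 0 else 1) else
          if J = 2 * X.2.length + slR X + (slR X + colc X e) then
            ksg (if K = 0 then 0 else if K = 1 then 1 else 2) else 0) * yv X w e := by
      intro J hJ
      rw [tab0 w e (Finset.mem_range.1 hJ) hK]
      congr 1
      unfold kind
      by_cases c1 : J = hgt X e
      · rw [if_pos c1, if_pos c1]
      · rw [if_neg c1, if_neg c1]
        by_cases c2 : J = 2 * X.2.length + slR X + e / 2
        · rw [if_pos c2, if_pos c2]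
        · rw [if_neg c2, if_neg c2]
          by_cases c3 : J = 2 * X.2.length + slR X + (slR X + colc X e)
          · rw [if_pos c3, if_pos c3]
          · rw [if_neg c3, if_neg c3, ksg_zero]
    rw [Finset.sum_congr rfl h1, ← Finset.sum_mul]
    have h2 := hgt_lt he2
    have h3 := colc_lt he2
    rw [sum_three (by unfold slc; omega) (by unfold slc; omega) (by unfold slc; omega)
      (by omega) (by omega) (by omega)]
    interval_cases K
    · simp [ksg_zero, ksg_one, ksg_two]
    · simp [ksg_zero, ksg_one, ksg_two]
    · simp [ksg_zero, ksg_one, ksg_two]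

/-- **Line sums.** -/
theorem lsum_tab {X : Mat} (hX : UnitsM X) (U : ℝ) (w : ℕ → ℝ) :
    ∀ p < lines (slr X) (slc X), lsum (slr X) (slc X) p (tab X U w) =
      lsum (slr X) (slc X) p (tab X U (fun _ => 0)) + corr X (lhs X w) p := by
  intro p hp
  rw [← lsum_zero hX w p hp, ← lsum_add']
  congr 1
  funext q
  rw [← tab_add]
  simp

end Pool.Agent.Simplex.EB.Tab
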