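import Pool.Agent.Lib.MP_4d246d_lc.EB.OnEngine
import Pool.Agent.Lib.MP_4d246d_lc.EB.Statement6
import Pool.Agent.Lib.MP_4d246d_lc.EB.BFin
import Pool.Agent.Lib.MP_4d246d_lc.EB.Opt3

/-!
# A version of the simplex method for r × c × 2 tables gives a blind rule for them
-/

namespace Pool.Agent.Simplex.EB

open Pool.Agent.Lib.PolyTime Pool.Agent.Simplex.QP Turing

/-- the matrix of the programs -/
def tmat2 (r c : ℕ) : Mat :=
  (2 * (r * c), (List.range (lines2 r c + lines2 r c)).map (fun p =>
    (List.range (2 * (r * c))).map (fun q =>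
      if p < lines2 r c then (if OnLine2 r c p q then 1 else 0)
      else (if OnLine2 r c (p - lines2 r c) q then -1 else 0))))

theorem transport2_mat (r c : ℕ) (s : Fin (lines2 r c) → ℝ) (cost : Fin (2 * (r * c)) → ℝ) :
    (transport2 r c s cost).mat = tmat2 r c := by
  unfold RLP.mat tmat2
  refine Prod.ext rfl ?_
  dsimp only
  rw [← ofFn_range]
  refine congrArg List.ofFn (funext fun p => ?_)
  rw [← ofFn_range]
  refine congrArg List.ofFn (funext fun q => ?_)
  show (Fin.addCases (fun p q => if OnLine2 r c p q then 1 else 0)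
    (fun p q => if OnLine2 r c p q then -1 else 0) p :
      Fin (2 * (r * c)) → ℚ) q = _
  induction p using Fin.addCases with
  | left p =>
    rw [Fin.addCases_left, Fin.val_castAdd, if_pos p.2]
  | right p =>
    have h1 : ¬ (lines2 r c + (p : ℕ) < lines2 r c) := by omega
    rw [Fin.addCases_right, Fin.val_natAdd, if_neg h1, Nat.add_sub_cancel_left]

namespace Two

/-! ### The inputs are recognised in polynomial time -/

/-- the test for `r` and `c` -/
def test (X : Mat) (b : List ℚ) (r c : ℕ) : Bool :=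
  decide (X = tmat2 r c) && decide (b = SlimEngine.negB (lines2 r c) b)

/-- `r` and `c` -/
def rc (X : Mat) (b : List ℚ) : Option (ℕ × ℕ) :=
  ((List.range (X.2.length + 1)).product (List.range (X.2.length + 1))).find?
    (fun p => test X b p.1 p.2)

/-- `r` and `c` of an input -/
def rcI (I : Input) : Option (ℕ × ℕ) := rc (ofQ I.lp).mat I.data.2.2.1

theorem matQ {r c : ℕ} (s : Fin (lines2 r c) → ℚ) (cost : Fin (2 * (r * c)) → ℚ) :
    (ofQ (transportQ2 r c s cost)).mat = tmat2 r c :=
  transport2_mat r c (fun _ => 0) (fun _ => 0)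

theorem le_lines2 (r c : ℕ) : r ≤ lines2 r c ∧ c ≤ lines2 r c := by
  unfold lines2
  constructor
  · have := Nat.zero_le (r * c)
    omega
  · have := Nat.zero_le (r * c)
    omega

theorem ofFn_b {r c : ℕ} (s : Fin (lines2 r c) → ℚ) (cost : Fin (2 * (r * c)) → ℚ) :
    List.ofFn (transportQ2 r c s cost).b = List.ofFn s ++ List.ofFn (fun p => - s p) := by
  show List.ofFn (Fin.addCases s (fun p => - s p) : Fin (lines2 r c + lines2 r c) → ℚ) = _
  rw [List.ofFn_add]
  congr 1
  · exact congrArg List.ofFn (funext fun p => Fin.addCases_left p)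
  · exact congrArg List.ofFn (funext fun p => Fin.addCases_right p)

theorem test_of {r c : ℕ} (s : Fin (lines2 r c) → ℚ) (cost : Fin (2 * (r * c)) → ℚ) :
    test (ofQ (transportQ2 r c s cost)).mat (List.ofFn (transportQ2 r c s cost).b) r c =
      true := by
  unfold test
  rw [Bool.and_eq_true, decide_eq_true_eq, decide_eq_true_eq]
  refine ⟨matQ s cost, ?_⟩
  rw [ofFn_b]
  unfold SlimEngine.negB
  rw [List.take_left' (List.length_ofFn ..), List.map_ofFn]
  rfl

theorem isSome_of {I : Input} (h : IsTransport2 I) : (rcI I).isSome = true := by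
  obtain ⟨r, c, s, cost, v, hv, rfl⟩ := h
  obtain ⟨h1, h2⟩ := le_lines2 r c
  have h3 : (ofQ (transportQ2 r c s cost)).mat.2.length = lines2 r c + lines2 r c := by
    unfold RLP.mat
    rw [List.length_ofFn]
  unfold rcI rc
  rw [List.find?_isSome]
  refine ⟨(r, c), ?_, test_of s cost⟩
  show (r, c) ∈ (List.range ((ofQ (transportQ2 r c s cost)).mat.2.length + 1)).product
    (List.range ((ofQ (transportQ2 r c s cost)).mat.2.length + 1))
  rw [h3, List.product, List.mem_flatMap]
  refine ⟨r, List.mem_range.2 (by omega), List.mem_map.2 ⟨c, List.mem_range.2 (by omega), rfl⟩⟩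

/-- the input is the transportation program with the `r` and `c` that are found -/
theorem of_some {I : Input} {r c : ℕ} (h : rcI I = some (r, c)) :
    ∃ (s : Fin (lines2 r c) → ℚ) (cost : Fin (2 * (r * c)) → ℚ)
      (v : Fin (2 * (r * c)) → ℚ) (hv : (transportQ2 r c s cost).Vertex (toReal v)),
      I = ⟨_, _, transportQ2 r c s cost, v, hv⟩ := by
  have h := List.find?_some h
  dsimp only at h
  unfold test at h
  rw [Bool.and_eq_true, decide_eq_true_eq, decide_eq_true_eq] at h
  obtain ⟨h1, h2⟩ := h
  obtain ⟨m, n, ⟨A, b, cost⟩, v, hv⟩ := I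
  dsimp only at h1 h2 hv
  have h3 : (n, List.ofFn fun i => List.ofFn (A i)) = tmat2 r c := h1
  have h4 := transport2_mat r c (fun _ => 0) (fun _ => 0)
  rw [← h4] at h3
  obtain ⟨h5, h6⟩ := Prod.ext_iff.1 h3
  dsimp only at h5 h6
  have h7 : n = 2 * (r * c) := h5
  have h8 : m = lines2 r c + lines2 r c := by
    have := congrArg List.length h6
    unfold RLP.mat at this
    rwa [List.length_ofFn, List.length_ofFn] at this
  subst h7 h8
  have h9 : A = (transport2 r c (fun _ => 0) (fun _ => 0)).A := by
    have h10 := List.ofFn_injective h6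
    funext i
    exact List.ofFn_injective (congrFun h10 i)
  subst h9
  have h11 : b = Fin.addCases (fun p => b (Fin.castAdd (lines2 r c) p))
      (fun p => - b (Fin.castAdd (lines2 r c) p)) := by
    have h12 : List.ofFn b = SlimEngine.negB (lines2 r c) (List.ofFn b) := h2
    rw [List.ofFn_add] at h12
    unfold SlimEngine.negB at h12
    rw [List.take_left' (List.length_ofFn ..), List.map_ofFn] at h12
    have h13 := List.ofFn_injective (List.append_cancel_left h12)
    funext p
    induction p using Fin.addCases with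
    | left p => rw [Fin.addCases_left]
    | right p =>
      rw [Fin.addCases_right]
      exact congrFun h13 p
  exact ⟨fun p => b (Fin.castAdd (lines2 r c) p), cost, v, by
    unfold transportQ2
    rw [← h11]
    exact hv, by
    unfold transportQ2
    simp only [← h11]
    rfl⟩

theorem isSome_iff (I : Input) : (rcI I).isSome = true ↔ IsTransport2 I := by
  refine ⟨fun h => ?_, isSome_of⟩
  obtain ⟨⟨r, c⟩, h1⟩ := Option.isSome_iff_exists.1 h
  obtain ⟨s, cost, v, hv, h2⟩ := of_some h1
  exact ⟨r, c, s, cost, v, hv, h2⟩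

section

variable {α : Type*} [TEnc α]

theorem polyF_lines2 {r c : α → ℕ} (hr : PolyF r) (hc : PolyF c) :
    PolyF (fun a => lines2 (r a) (c a)) :=
  ((hr.natMul hc).natAdd ((PolyF.const 2).natMul hc)).natAdd ((PolyF.const 2).natMul hr)

theorem polyF_onLine2 {r c p q : α → ℕ} (hr : PolyF r) (hc : PolyF c) (hp : PolyF p)
    (hq : PolyF q) : PolyF (fun a => decide (OnLine2 (r a) (c a) (p a) (q a))) := by
  have h3 : PolyF (fun _ : α => 2) := PolyF.const 2
  have hrc := hr.natMul hc
  have hq3 := hq.natDiv h3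
  have hm3 := hq.natMod h3
  have h := (hp.natEq hq3).decide_or ((hp.natEq (hrc.natAdd ((h3.natMul (hq3.natMod hc)).natAdd
    hm3))).decide_or (hp.natEq ((hrc.natAdd (h3.natMul hc)).natAdd
      ((h3.natMul (hq3.natDiv hc)).natAdd hm3))))
  refine h.congr fun a => ?_
  rw [decide_eq_decide]
  rfl

theorem polyF_tmat2 {r c : α → ℕ} (hr : PolyF r) (hc : PolyF c) :
    PolyF (fun a => tmat2 (r a) (c a)) := by
  have hL := polyF_lines2 hr hc
  have hn : PolyF (fun a => 2 * (r a * c a)) := (PolyF.const 2).natMul (hr.natMul hc)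
  refine hn.pair ((hL.natAdd hL).range.map (h := fun a p =>
    (List.range (2 * (r a * c a))).map (fun q =>
      if p < lines2 (r a) (c a) then (if OnLine2 (r a) (c a) p q then (1 : ℚ) else 0)
      else (if OnLine2 (r a) (c a) (p - lines2 (r a) (c a)) q then -1 else 0))) ?_)
  refine (hn.comp PolyF.fst').range.map (h := fun (x : α × ℕ) q =>
    if x.2 < lines2 (r x.1) (c x.1) then (if OnLine2 (r x.1) (c x.1) x.2 q then (1 : ℚ) else 0)
      else (if OnLine2 (r x.1) (c x.1) (x.2 - lines2 (r x.1) (c x.1)) q then -1 else 0)) ?_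
  have g1 : PolyF (fun x : (α × ℕ) × ℕ => r x.1.1) := hr.comp (PolyF.fst'.comp PolyF.fst')
  have g2 : PolyF (fun x : (α × ℕ) × ℕ => c x.1.1) := hc.comp (PolyF.fst'.comp PolyF.fst')
  have g3 : PolyF (fun x : (α × ℕ) × ℕ => x.1.2) := PolyF.snd'.comp PolyF.fst'
  have g4 := polyF_lines2 g1 g2
  exact PolyF.ite (g3.natLt g4)
    (PolyF.ite (polyF_onLine2 g1 g2 g3 PolyF.snd') (PolyF.const 1) (PolyF.const 0))
    (PolyF.ite (polyF_onLine2 g1 g2 (g3.natSub g4) PolyF.snd') (PolyF.const (-1))
      (PolyF.const 0))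

theorem polyF_test {X : α → Mat} {b : α → List ℚ} {r c : α → ℕ} (hX : PolyF X) (hb : PolyF b)
    (hr : PolyF r) (hc : PolyF c) : PolyF (fun a => test (X a) (b a) (r a) (c a)) :=
  (hX.eq (polyF_tmat2 hr hc)).and (hb.eq (SlimEngine.polyF_negB (polyF_lines2 hr hc) hb))

end

theorem polyF_rcI : PolyF rcI := by
  have hX := polyF_mat
  have hl : PolyF (fun I : Input => List.range ((ofQ I.lp).mat.2.length + 1)) :=
    hX.snd.length.succ.range
  have hb : PolyF (fun I : Input => I.data.2.2.1) := polyF_data.snd.snd.fst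
  refine (hl.product hl).find? (p := fun (I : Input) (p : ℕ × ℕ) =>
    test (ofQ I.lp).mat I.data.2.2.1 p.1 p.2) ?_
  exact polyF_test (hX.comp PolyF.fst') (hb.comp PolyF.fst') PolyF.snd'.fst PolyF.snd'.snd

theorem polyF_isTr2 : PolyF (fun I : Input => (rcI I).isSome) := polyF_rcI.isSome

/-- the bit size of the matrix -/
theorem size_tmat2 : ∃ P : Polynomial ℕ, ∀ r c : ℕ, sz (tmat2 r c) ≤ P.eval (r + c) := by
  obtain ⟨Q, hQ⟩ := (polyF_tmat2 (α := ℕ × ℕ) PolyF.fst' PolyF.snd').bound
  refine ⟨Q.comp (Polynomial.X + 1), fun r c => ?_⟩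
  have h := hQ (r, c)
  have hs : sz ((r, c) : ℕ × ℕ) = r + c + 1 := by
    rw [sz_prod, sz_nat, sz_nat]
    ring
  rw [hs] at h
  rw [Polynomial.eval_comp]
  simpa using h

/-! ### The blind rule -/

variable {r c : ℕ} {s : Fin (lines2 r c) → ℝ} {cost : Fin (2 * (r * c)) → ℝ}

theorem A_left (p : Fin (lines2 r c)) (q : Fin (2 * (r * c))) :
    (transport2 r c s cost).A (Fin.castAdd (lines2 r c) p) q =
      if OnLine2 r c p q then 1 else 0 := by
  unfold transport2
  dsimp only
  rw [Fin.addCases_left]

theorem A_right (p : Fin (lines2 r c)) (q : Fin (2 * (r * c))) :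
    (transport2 r c s cost).A (Fin.natAdd (lines2 r c) p) q =
      - (transport2 r c s cost).A (Fin.castAdd (lines2 r c) p) q := by
  unfold transport2
  dsimp only
  rw [Fin.addCases_left, Fin.addCases_right]
  split_ifs <;> simp

theorem b_right (p : Fin (lines2 r c)) :
    (transport2 r c s cost).b (Fin.natAdd (lines2 r c) p) =
      - (transport2 r c s cost).b (Fin.castAdd (lines2 r c) p) := by
  unfold transport2
  dsimp only
  rw [Fin.addCases_left, Fin.addCases_right]

/-- tables with given line sums are bounded -/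
theorem bdd : Bdd (transport2 r c s cost).A := by
  have hL : r * c ≤ lines2 r c := by unfold lines2; omega
  have hA : ∀ (p : Fin (lines2 r c + lines2 r c)) (q : Fin (2 * (r * c))), (p : ℕ) < r * c →
      (transport2 r c s cost).A p q = if OnLine2 r c p q then 1 else 0 := by
    intro p q hp
    exact A_left ⟨p, hp.trans_le hL⟩ q
  refine ⟨fun p => if (p : ℕ) < r * c then 1 else 0, fun p => ?_, fun q => ?_⟩
  · dsimp only
    split_ifs
    · exact zero_le_one
    · exact le_rfl
  · refine Finset.sum_pos' (fun p _ => ?_) ⟨⟨q / 2, ?_⟩, Finset.mem_univ _, ?_⟩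
    · dsimp only
      split_ifs with h1
      · rw [one_mul, hA p q h1]
        split_ifs
        · exact zero_le_one
        · exact le_rfl
      · rw [zero_mul]
    · have := q.2
      omega
    · have h1 : (q : ℕ) / 2 < r * c := by
        have := q.2
        omega
      dsimp only
      have h2 : OnLine2 r c ((q : ℕ) / 2) q := Or.inl rfl
      rw [if_pos h1, one_mul, hA _ q h1]
      dsimp only
      rw [if_pos h2]
      exact zero_lt_one

/-- all line sums are tight -/
theorem tight {y : Fin (2 * (r * c)) → ℝ} (hy : y ∈ (transport2 r c s cost).feasible)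
    (i : Fin (lines2 r c + lines2 r c)) :
    ∑ j, ((transport2 r c s cost).A i j : ℝ) * y j = (transport2 r c s cost).b i := by
  have e3 : ∀ p : Fin (lines2 r c),
      ∑ j, ((transport2 r c s cost).A (Fin.natAdd (lines2 r c) p) j : ℝ) * y j =
        - ∑ j, ((transport2 r c s cost).A (Fin.castAdd (lines2 r c) p) j : ℝ) * y j := by
    intro p
    rw [← Finset.sum_neg_distrib]
    refine Finset.sum_congr rfl fun j _ => ?_
    rw [A_right, Rat.cast_neg, neg_mul]
  have e4 : ∀ p : Fin (lines2 r c),
      ∑ j, ((transport2 r c s cost).A (Fin.castAdd (lines2 r c) p) j : ℝ) * y j =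
        (transport2 r c s cost).b (Fin.castAdd (lines2 r c) p) := by
    intro p
    refine le_antisymm (hy.1 _) ?_
    have h1 := hy.1 (Fin.natAdd (lines2 r c) p)
    rw [b_right, e3] at h1
    linarith
  induction i using Fin.addCases with
  | left p => exact e4 p
  | right p => rw [b_right, e3, e4]

/-- a rational program with the same matrix and a vertex with the name of a vertex is a
transportation program -/
theorem of_name {lp : QLP (lines2 r c + lines2 r c) (2 * (r * c))}
    {v : Fin (2 * (r * c)) → ℚ} (hv : lp.Vertex (toReal v))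
    (hA : lp.A = (transport2 r c s cost).A) {y : Fin (2 * (r * c)) → ℝ}
    (hy : (transport2 r c s cost).Vertex y)
    (hn : (ofQ lp).name (toReal v) = (transport2 r c s cost).name y) :
    IsTransport2 ⟨_, _, lp, v, hv⟩ := by
  classical
  have h1 : ∀ i, ∑ j, (lp.A i j : ℝ) * toReal v j = (lp.b i : ℝ) := by
    unfold RLP.name at hn
    have h2 := (List.append_inj hn (by rw [List.length_ofFn, List.length_ofFn])).1
    have h3 := List.ofFn_injective h2
    intro i
    have h4 := congrFun h3 i
    rw [decide_eq_decide] at h4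
    exact h4.2 (tight hy.1 i)
  have h2 : ∀ p : Fin (lines2 r c), lp.b (Fin.natAdd (lines2 r c) p) =
      - lp.b (Fin.castAdd (lines2 r c) p) := by
    intro p
    have h3 := h1 (Fin.natAdd (lines2 r c) p)
    have h4 := h1 (Fin.castAdd (lines2 r c) p)
    have h5 : ∑ j, (lp.A (Fin.natAdd (lines2 r c) p) j : ℝ) * toReal v j =
        - ∑ j, (lp.A (Fin.castAdd (lines2 r c) p) j : ℝ) * toReal v j := by
      rw [← Finset.sum_neg_distrib]
      refine Finset.sum_congr rfl fun j _ => ?_
      have h6 : lp.A (Fin.natAdd (lines2 r c) p) j = - lp.A (Fin.castAdd (lines2 r c) p) j := by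
        rw [hA, A_right]
      rw [h6, Rat.cast_neg, neg_mul]
    rw [h5, h4] at h3
    exact_mod_cast h3.symm
  have h3 : lp = transportQ2 r c (fun p => lp.b (Fin.castAdd (lines2 r c) p)) lp.c := by
    obtain ⟨A, b, cc⟩ := lp
    dsimp only at hA h2
    unfold transportQ2
    congr 1
    funext i
    induction i using Fin.addCases with
    | left p => rw [Fin.addCases_left]
    | right p => rw [Fin.addCases_right, h2]
  refine ⟨r, c, fun p => lp.b (Fin.castAdd (lines2 r c) p), lp.c, v, h3 ▸ hv, ?_⟩
  congr 1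

end Two

open Two in
/-- **A version of the simplex method for `r × c × 2` tables gives a blind rule for them.** -/
theorem blind2_of_simplexOn (h : SimplexOn IsTransport2) :
    ∃ (ρ : BlindRule) (P : Polynomial ℕ), ρ.Poly ∧
      ∀ (r c : ℕ) (s : Fin (lines2 r c) → ℝ) (cost : Fin (2 * (r * c)) → ℝ),
        Solves ρ (transport2 r c s cost) (P.eval (r + c)) := by
  obtain ⟨E, R, hR⟩ := h.engine polyF_isTr2 isSome_iff
  obtain ⟨ρ, P, hρ, hP⟩ := blind_of_engine_bdd E
  obtain ⟨Q, hQ⟩ := size_tmat2
  refine ⟨ρ, (P * (R.comp P + 1)).comp (2 * Q + 1), hρ.tm2_word, fun r c s cost => ?_⟩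
  have h1 := hP _ _ (transport2 r c s cost) (R.eval (P.eval (transport2 r c s cost).size))
    bdd fun lp v hv hA hn hs => by
      obtain ⟨y, hy, hn⟩ := hn
      exact (hR _ (of_name hv hA hy hn)).trans (peval_mono R hs)
  refine h1.mono ?_
  have h2 : P.eval (transport2 r c s cost).size *
      (R.eval (P.eval (transport2 r c s cost).size) + 1) =
      (P * (R.comp P + 1)).eval (transport2 r c s cost).size := by
    rw [Polynomial.eval_mul, Polynomial.eval_add, Polynomial.eval_comp, Polynomial.eval_one]
  rw [h2, Polynomial.eval_comp]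
  refine peval_mono _ ?_
  have h3 : (transport2 r c s cost).size = 2 * sz (transport2 r c s cost).mat + 1 :=
    length_wd _ _ _
  rw [transport2_mat] at h3
  have h4 := hQ r c
  rw [h3]
  simp only [Polynomial.eval_add, Polynomial.eval_mul, Polynomial.eval_ofNat, Polynomial.eval_one]
  omega

open Two in
/-- the optimal rule is polynomial on `r × c × 2` tables -/
theorem Optimal.two {U : BlindRule} (hU : Optimal U) (h : SimplexOn IsTransport2) :
    ∃ P : Polynomial ℕ, ∀ (r c : ℕ) (s : Fin (lines2 r c) → ℝ)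
      (cost : Fin (2 * (r * c)) → ℝ), Solves U (transport2 r c s cost) (P.eval (r + c)) := by
  obtain ⟨ρ, P, hρ, hP⟩ := blind2_of_simplexOn h
  obtain ⟨Q, hQ⟩ := hU ρ hρ
  obtain ⟨R, hR⟩ := size_tmat2
  refine ⟨Q.comp (2 * R + 1 + P), fun r c s cost =>
    (hQ _ _ _ _ (hP r c s cost)).mono ?_⟩
  rw [Polynomial.eval_comp]
  refine peval_mono Q ?_
  have h3 : (transport2 r c s cost).size = 2 * sz (transport2 r c s cost).mat + 1 :=
    length_wd _ _ _
  rw [transport2_mat] at h3
  have h4 := hR r c
  rw [h3]
  simp only [Polynomial.eval_add, Polynomial.eval_mul, Polynomial.eval_ofNat, Polynomial.eval_one]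
  omega

end Pool.Agent.Simplex.EB
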